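import Mathlib

set_option autoImplicit false
set_option maxHeartbeats 400000

namespace Pool.Agent.H929R2.Hart

open MvPolynomial

variable {σ : Type} [Fintype σ] {K : Type} [Field K]

/-- The gradient of the polynomial `F` at the point `x`. -/
noncomputable def grad (F : MvPolynomial σ K) (x : σ → K) : σ → K :=
  fun i => eval x (pderiv i F)

/-- The common zeros in `K^σ` of the polynomials in `I` (the affine cone over the projective
variety, together with `0`, when `I` is homogeneous). -/
def cone (I : Ideal (MvPolynomial σ K)) : Set (σ → K) := {x | ∀ F ∈ I, eval x F = 0}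

/-- The conormal space at `x`: the span of the gradients at `x` of the elements of `I`. -/
noncomputable def conormal (I : Ideal (MvPolynomial σ K)) (x : σ → K) : Submodule K (σ → K) :=
  Submodule.span K {ξ | ∃ F ∈ I, ξ = grad F x}

/-- The standard dot product. -/
noncomputable def dotB (σ : Type) [Fintype σ] (K : Type) [Field K] :
    LinearMap.BilinForm K (σ → K) := by
  classical exact Matrix.toBilin' (1 : Matrix σ σ K)

lemma dotB_apply (x y : σ → K) : dotB σ K x y = ∑ i, x i * y i := by
  classical
  simp [dotB, Matrix.toBilin'_apply', dotProduct]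

lemma dotB_nondegenerate : (dotB σ K).Nondegenerate := by
  classical
  apply LinearMap.BilinForm.nondegenerate_toBilin'_of_det_ne_zero'
  simp

lemma dotB_comm (x y : σ → K) : dotB σ K x y = dotB σ K y x := by
  rw [dotB_apply, dotB_apply]
  exact Finset.sum_congr rfl (fun i _ => mul_comm _ _)

lemma dotB_refl : (dotB σ K).IsRefl := by
  intro x y h
  rw [dotB_comm]; exact h

/-- The (affine) tangent space at `x`. -/
noncomputable def tangent (I : Ideal (MvPolynomial σ K)) (x : σ → K) : Submodule K (σ → K) :=
  (dotB σ K).orthogonal (conormal I x)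

lemma grad_mem (I : Ideal (MvPolynomial σ K)) (x : σ → K) {F : MvPolynomial σ K} (hF : F ∈ I) :
    grad F x ∈ conormal I x := Submodule.subset_span ⟨F, hF, rfl⟩

lemma mem_tangent (I : Ideal (MvPolynomial σ K)) (x v : σ → K) :
    v ∈ tangent I x ↔ ∀ F ∈ I, dotB σ K (grad F x) v = 0 := by
  rw [tangent, LinearMap.BilinForm.mem_orthogonal_iff]
  constructor
  · intro h F hF
    exact h _ (grad_mem I x hF)
  · intro h ξ hξ
    induction hξ using Submodule.span_induction with
    | mem ξ hξ => obtain ⟨F, hF, rfl⟩ := hξ; exact h F hF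
    | zero => simp
    | add a b _ _ ha hb => simp [ha, hb]
    | smul c a _ ha => simp [ha]

lemma finrank_tangent (I : Ideal (MvPolynomial σ K)) (x : σ → K) :
    Module.finrank K (conormal I x) + Module.finrank K (tangent I x) = Fintype.card σ := by
  have h := LinearMap.BilinForm.finrank_orthogonal dotB_nondegenerate (conormal I x)
  have h2 := Submodule.finrank_le (conormal I x)
  rw [Module.finrank_fintype_fun_eq_card] at h h2
  rw [tangent, h]
  omega

lemma mem_conormal_iff (I : Ideal (MvPolynomial σ K)) (x : σ → K) (ξ : σ → K) :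
    ξ ∈ conormal I x ↔ ∀ v ∈ tangent I x, dotB σ K ξ v = 0 := by
  have h : (dotB σ K).orthogonal (tangent I x) = conormal I x :=
    LinearMap.BilinForm.orthogonal_orthogonal dotB_nondegenerate dotB_refl _
  rw [← h, LinearMap.BilinForm.mem_orthogonal_iff]
  constructor
  · intro h v hv
    rw [dotB_comm]; exact h v hv
  · intro h v hv
    rw [dotB_comm]; exact h v hv

lemma tangent_conormal (I : Ideal (MvPolynomial σ K)) (x : σ → K) {ξ v : σ → K}
    (hξ : ξ ∈ conormal I x) (hv : v ∈ tangent I x) : dotB σ K ξ v = 0 :=
  (mem_conormal_iff I x ξ).1 hξ v hv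

omit [Fintype σ] in
/-- Every element of the conormal space is a gradient. -/
lemma exists_grad (I : Ideal (MvPolynomial σ K)) (x ξ : σ → K) (hξ : ξ ∈ conormal I x) :
    ∃ F ∈ I, ξ = grad F x := by
  induction hξ using Submodule.span_induction with
  | mem ξ hξ => exact hξ
  | zero => exact ⟨0, I.zero_mem, by ext; simp [grad]⟩
  | add a b _ _ ha hb =>
    obtain ⟨F, hF, rfl⟩ := ha
    obtain ⟨G, hG, rfl⟩ := hb
    exact ⟨F + G, I.add_mem hF hG, by ext; simp [grad]⟩
  | smul c a _ ha =>
    obtain ⟨F, hF, rfl⟩ := ha
    exact ⟨C c * F, I.mul_mem_left _ hF, by ext; simp [grad]⟩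

/-- The chain rule for a derivation of a `K`-algebra. -/
lemma deriv_aeval {A : Type} [CommRing A] [Algebra K A] (D : Derivation K A A) (g : σ → A)
    (F : MvPolynomial σ K) :
    D (aeval g F) = ∑ i, aeval g (pderiv i F) * D (g i) := by
  classical
  induction F using MvPolynomial.induction_on with
  | C c => simp [← algebraMap_eq, Derivation.map_algebraMap]
  | add p q hp hq => simp [hp, hq, add_mul, Finset.sum_add_distrib]
  | mul_X p j hp =>
    simp only [map_mul, aeval_X, Derivation.leibniz, smul_eq_mul, hp, pderiv_X, map_add,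
      Pi.single_apply]
    simp only [apply_ite (aeval g), map_one, map_zero, mul_ite, mul_one, mul_zero, add_mul, ite_mul,
      zero_mul, Finset.sum_add_distrib, Finset.sum_ite_eq, Finset.mem_univ, if_true]
    congr 1
    rw [Finset.mul_sum]
    exact Finset.sum_congr rfl (fun i _ => by ring)

end Pool.Agent.H929R2.Hart
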