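import Pool.Agent.H929R2.Hart.Weights

set_option autoImplicit false
set_option maxHeartbeats 400000

namespace Pool.Agent.H929R2.Hart

open MvPolynomial

variable {σ : Type} [Fintype σ] [DecidableEq σ] {K : Type} [Field K]

/-- Set-up: `I` is the homogeneous prime ideal of a smooth projective variety of codimension `r`,
stable under the action of the multiplicative group with weights `δ`, the point `e_o` is on the
variety and is the only coordinate of weight zero; the conormal space at `e_o` is spanned by the
coordinates in `C`. -/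
structure Adapted (I : Ideal (MvPolynomial σ K)) (r : ℕ) (δ : σ → ℕ) (o : σ) (C : Finset σ) :
    Prop where
  prime : I.IsPrime
  homog : ∀ F ∈ I, ∀ d, homogeneousComponent d F ∈ I
  rank : ∀ x ∈ cone I, x ≠ 0 → Module.finrank K (conormal I x) = r
  wt0 : δ o = 0
  wtpos : ∀ i, i ≠ o → 0 < δ i
  stable : ∀ t : K, t ≠ 0 → ∀ x ∈ cone I, (fun i => t ^ δ i * x i) ∈ cone I
  base : Pi.single o 1 ∈ cone I
  oC : o ∉ C
  card : C.card = r
  conor : ∀ ξ : σ → K, ξ ∈ conormal I (Pi.single o 1) ↔ ∀ i, i ∉ C → ξ i = 0

lemma eval_aeval (s : σ → K) (h : σ → MvPolynomial σ K) (G : MvPolynomial σ K) :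
    eval s (aeval h G) = eval (fun i => eval s (h i)) G := by
  have : (eval s).comp (aeval (R := K) h).toRingHom = eval (fun i => eval s (h i)) := by
    apply MvPolynomial.ringHom_ext
    · intro c; simp
    · intro i; simp
  exact RingHom.congr_fun this G

lemma isWH_aeval {δ : σ → ℕ} (G : σ → MvPolynomial σ K)
    (hG : ∀ i, IsWeightedHomogeneous δ (G i) (δ i)) {m : ℕ} (F : MvPolynomial σ K)
    (hF : IsWeightedHomogeneous δ F m) : IsWeightedHomogeneous δ (aeval G F) m := by
  rw [F.as_sum, map_sum]
  apply IsWeightedHomogeneous.sum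
  intro d hd
  have hw := hF (mem_support_iff.1 hd)
  rw [aeval_monomial, MvPolynomial.algebraMap_eq]
  apply IsWeightedHomogeneous.C_mul
  rw [← hw, Finsupp.weight_apply, Finsupp.sum, Finsupp.prod]
  apply IsWeightedHomogeneous.prod
  intro i _
  exact (hG i).pow (d i)

lemma aeval_mem_subalgebra (S : Subalgebra K (MvPolynomial σ K)) (G : σ → MvPolynomial σ K)
    (hG : ∀ i, G i ∈ S) (F : MvPolynomial σ K) : aeval G F ∈ S := by
  induction F using MvPolynomial.induction_on with
  | C c => simpa using S.algebraMap_mem c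
  | add p q hp hq => rw [map_add]; exact S.add_mem hp hq
  | mul_X p j hp => rw [map_mul, aeval_X]; exact S.mul_mem hp (hG j)

lemma poly_affine [CharZero K] (p : Polynomial K) (c : K)
    (h : ∀ t : K, (Polynomial.derivative p).eval t = c) (t : K) : p.eval t = p.eval 0 + t * c := by
  have h1 : Polynomial.derivative p = Polynomial.C c := by
    apply Polynomial.funext
    intro t; rw [h t, Polynomial.eval_C]
  have h2 : Polynomial.derivative (p - Polynomial.X * Polynomial.C c) = 0 := by
    rw [Polynomial.derivative_sub, h1]; simp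
  obtain h3 := Polynomial.natDegree_eq_zero_of_derivative_eq_zero h2
  obtain ⟨a, ha⟩ := Polynomial.natDegree_eq_zero.1 h3
  have h4 : p = Polynomial.C a + Polynomial.X * Polynomial.C c := by
    rw [ha]; ring
  rw [h4]; simp; ring

namespace Adapted

variable {I : Ideal (MvPolynomial σ K)} {r : ℕ} {δ : σ → ℕ} {o : σ} {C : Finset σ}

omit [DecidableEq σ] [Fintype σ] in
lemma sum_hcomp (P : MvPolynomial σ K) :
    ∑ d ∈ Finset.range (P.totalDegree + 1), homogeneousComponent d P = P :=
  MvPolynomial.sum_homogeneousComponent P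

lemma lift [IsAlgClosed K] (h : Adapted I r δ o C) (P : MvPolynomial σ K)
    (hP : ∀ x ∈ cone I, x o = 1 → eval x P = 0) :
    ∃ F ∈ I, (∀ x : σ → K, x o = 1 → eval x F = eval x P ∧
        ∀ i ≠ o, eval x (pderiv i F) = eval x (pderiv i P)) ∧
      (∀ g : σ → MvPolynomial σ K, g o = 1 → aeval g F = aeval g P) := by
  set M := P.totalDegree with hM
  refine ⟨X o * ∑ d ∈ Finset.range (M + 1), X o ^ (M - d) * homogeneousComponent d P, ?_, ?_, ?_⟩
  · apply mem_of_vanish I h.prime
    intro x hx
    by_cases hxo : x o = 0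
    · simp [hxo]
    · have hy : (x o)⁻¹ • x ∈ cone I := cone_smul I h.homog _ x hx
      have hy1 : ((x o)⁻¹ • x) o = 1 := by simp [hxo]
      have h1 := hP _ hy hy1
      rw [← sum_hcomp P, map_sum] at h1
      rw [map_mul, map_sum]
      have h2 : ∀ d ∈ Finset.range (M + 1), eval x (X o ^ (M - d) * homogeneousComponent d P) =
          x o ^ M * eval ((x o)⁻¹ • x) (homogeneousComponent d P) := by
        intro d hd
        have h3 := eval_wscale (weightedHomogeneousComponent_isWeightedHomogeneous
          (w := (1 : σ → ℕ)) d P) (x o)⁻¹ x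
        have h4 : (fun i => (x o)⁻¹ ^ (1 : σ → ℕ) i * x i) = (x o)⁻¹ • x := by
          ext i; simp
        rw [h4] at h3
        have h5 : homogeneousComponent d P = weightedHomogeneousComponent 1 d P := rfl
        rw [h5, h3, map_mul, map_pow, eval_X]
        have hd' : d ≤ M := by simpa [Nat.lt_succ_iff] using hd
        obtain ⟨e, he⟩ := Nat.exists_eq_add_of_le hd'
        rw [he]
        have : d + e - d = e := by omega
        have h6 : x o ^ (d + e) * ((x o)⁻¹ ^ d * eval x (weightedHomogeneousComponent 1 d P)) =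
            x o ^ e * eval x (weightedHomogeneousComponent 1 d P) := by
          rw [pow_add, inv_pow]
          field_simp
        rw [this, h6, mul_comm]
      rw [Finset.sum_congr rfl h2, ← Finset.mul_sum, h1, mul_zero, mul_zero]
  · intro x hx
    refine ⟨?_, ?_⟩
    · rw [map_mul, map_sum, eval_X, hx, one_mul]
      conv_rhs => rw [← sum_hcomp P, map_sum]
      refine Finset.sum_congr rfl (fun d _ => ?_)
      simp [hx]
    · intro i hi
      have h1 : pderiv i (X o : MvPolynomial σ K) = 0 := pderiv_X_of_ne (Ne.symm hi)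
      rw [pderiv_mul, h1, zero_mul, zero_add, map_mul, eval_X, hx, one_mul, map_sum, map_sum]
      conv_rhs => rw [← sum_hcomp P, map_sum, map_sum]
      refine Finset.sum_congr rfl (fun d _ => ?_)
      rw [pderiv_mul, pderiv_pow, h1]
      simp [hx]
  · intro g hg
    rw [map_mul, map_sum, aeval_X, hg, one_mul]
    conv_rhs => rw [← sum_hcomp P, map_sum]
    refine Finset.sum_congr rfl (fun d _ => ?_)
    rw [map_mul, map_pow, aeval_X, hg, one_pow, one_mul]

lemma single_eval {φ : MvPolynomial σ K} (h : Adapted I r δ o C) {m : ℕ} (hm : m ≠ 0)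
    (hφ : IsWeightedHomogeneous δ φ m) : eval (Pi.single o (1:K)) φ = 0 := by
  have h1 := eval_wscale hφ 0 (Pi.single o (1:K))
  have h2 : (fun i => (0:K) ^ δ i * (Pi.single o (1:K) : σ → K) i) = Pi.single o 1 := by
    ext i
    by_cases hi : i = o
    · subst hi; simp [h.wt0]
    · simp [hi]
  rw [h2, zero_pow hm, zero_mul] at h1
  exact h1

lemma grad_wcomp (h : Adapted I r δ o C) (F : MvPolynomial σ K) (i : σ) :
    eval (Pi.single o (1:K)) (pderiv i F) =
      eval (Pi.single o (1:K)) (pderiv i (weightedHomogeneousComponent δ (δ i) F)) := by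
  conv_lhs => rw [← sum_wcomp δ F (weightedTotalDegree δ F + 1 + δ i + 1) (by omega), map_sum,
    map_sum]
  rw [Finset.sum_eq_single (δ i)]
  · intro m _ hm
    have hF := weightedHomogeneousComponent_isWeightedHomogeneous (w := δ) m F
    rcases lt_or_gt_of_ne hm with hlt | hgt
    · rw [pderiv_eq_zero_of_lt hF i hlt, map_zero]
    · exact h.single_eval (m := m - δ i) (by omega) (hF.pderiv (by omega))
  · intro hcon
    simp only [Finset.mem_range, not_lt] at hcon
    omega

end Adapted

end Pool.Agent.H929R2.Hart
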