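import Pool.Agent.H929R2.Hart.Basic

set_option autoImplicit false
set_option maxHeartbeats 400000

namespace Pool.Agent.H929R2.Hart

open MvPolynomial

variable {σ : Type} [Fintype σ] {K : Type} [Field K]

/-- Restriction of a polynomial to the line `x + t v`. -/
noncomputable def line (F : MvPolynomial σ K) (x v : σ → K) : Polynomial K :=
  aeval (fun i => Polynomial.C (x i) + Polynomial.X * Polynomial.C (v i)) F

lemma eval_line (F : MvPolynomial σ K) (x v : σ → K) (t : K) :
    (line F x v).eval t = eval (x + t • v) F := by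
  have : (Polynomial.evalRingHom t).comp (aeval (R := K)
      (fun i => Polynomial.C (x i) + Polynomial.X * Polynomial.C (v i))).toRingHom
      = eval (x + t • v) := by
    apply MvPolynomial.ringHom_ext
    · intro c; simp
    · intro i; simp; ring
  exact RingHom.congr_fun this F

lemma derivative_line (F : MvPolynomial σ K) (x v : σ → K) :
    Polynomial.derivative (line F x v) = ∑ i, line (pderiv i F) x v * Polynomial.C (v i) := by
  have h := deriv_aeval (Polynomial.derivative' (R := K))
    (fun i => Polynomial.C (x i) + Polynomial.X * Polynomial.C (v i)) F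
  simp only [Polynomial.derivative'_apply, Polynomial.derivative_add, Polynomial.derivative_C,
    Polynomial.derivative_mul, Polynomial.derivative_X, one_mul, mul_zero, add_zero,
    zero_add] at h
  exact h

lemma eval_derivative_line (F : MvPolynomial σ K) (x v : σ → K) (t : K) :
    (Polynomial.derivative (line F x v)).eval t = dotB σ K (grad F (x + t • v)) v := by
  rw [derivative_line, Polynomial.eval_finsetSum, dotB_apply]
  exact Finset.sum_congr rfl (fun i _ => by
    rw [Polynomial.eval_mul, eval_line, Polynomial.eval_C, grad])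

lemma poly_eq_zero [Infinite K] (p : Polynomial K) (h : ∀ t : K, t ≠ 0 → p.eval t = 0) : p = 0 := by
  classical
  by_contra hp
  have : (Set.Infinite {t : K | t ≠ 0}) := by
    have : {t : K | t ≠ 0} = ({0} : Set K)ᶜ := by ext; simp
    rw [this]; exact (Set.finite_singleton 0).infinite_compl
  exact this (Set.Finite.subset (p.roots.toFinset.finite_toSet) (fun t ht => by
    simp [hp, Polynomial.IsRoot, h t ht]))

/-- If the line `x + t v`, `t ≠ 0`, is contained in the cone, then so is `x`, and `v` is tangent
at `x`. -/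
lemma cone_of_line [Infinite K] (I : Ideal (MvPolynomial σ K)) (x v : σ → K)
    (h : ∀ t : K, t ≠ 0 → x + t • v ∈ cone I) : x ∈ cone I ∧ v ∈ tangent I x := by
  have key : ∀ F ∈ I, line F x v = 0 := fun F hF =>
    poly_eq_zero _ (fun t ht => by rw [eval_line]; exact h t ht F hF)
  refine ⟨fun F hF => ?_, ?_⟩
  · have := congrArg (Polynomial.eval 0) (key F hF)
    rw [eval_line] at this
    simpa using this
  · rw [mem_tangent]
    intro F hF
    have := eval_derivative_line F x v 0
    rw [key F hF] at this
    simpa using this.symm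

lemma exists_dual_vectors {n : ℕ} (b : Fin n → (σ → K)) (hb : LinearIndependent K b) :
    ∃ v : Fin n → (σ → K), ∀ i j, dotB σ K (b i) (v j) = if i = j then 1 else 0 := by
  classical
  let Φ : (σ → K) →ₗ[K] (Fin n → K) := LinearMap.pi (fun i => dotB σ K (b i))
  have hsurj : Function.Surjective Φ := by
    rw [← LinearMap.range_eq_top]
    by_contra hne
    obtain ⟨φ, hφ0, hφ⟩ := Submodule.exists_le_ker_of_lt_top _ (lt_top_iff_ne_top.2 hne)
    apply hφ0
    have h1 : ∑ i, φ (Pi.single i 1) • b i = 0 := by
      ext m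
      have h2 : φ (Φ (Pi.single m 1)) = 0 := hφ (LinearMap.mem_range_self Φ _)
      have h3 : Φ (Pi.single m 1) = ∑ i, b i m • (Pi.single i 1 : Fin n → K) := by
        ext j
        simp [Φ, Finset.sum_apply, Pi.single_apply, dotB_apply]
      rw [h3, map_sum] at h2
      simp only [map_smul, smul_eq_mul] at h2
      simp only [Finset.sum_apply, Pi.smul_apply, smul_eq_mul, Pi.zero_apply]
      rw [← h2]
      exact Finset.sum_congr rfl (fun i _ => mul_comm _ _)
    have h3 := Fintype.linearIndependent_iff.1 hb (fun i => φ (Pi.single i 1)) h1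
    ext i
    simpa using h3 i
  choose v hv using fun j => hsurj (Pi.single j 1)
  refine ⟨v, fun i j => ?_⟩
  have := congrFun (hv j) i
  simp only [Φ, LinearMap.pi_apply] at this
  rw [this, Pi.single_apply]

/-- Limits of conormal vectors along a line are conormal (the conormal spaces have constant
dimension away from `0`). -/
theorem conormal_closed [Infinite K] (I : Ideal (MvPolynomial σ K)) (r : ℕ)
    (hr : ∀ x ∈ cone I, x ≠ 0 → Module.finrank K (conormal I x) = r)
    (x0 x1 : σ → K) (hx0 : x0 ≠ 0) (ξ0 ξ1 : σ → K)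
    (h : ∀ t : K, t ≠ 0 → x0 + t • x1 ∈ cone I ∧ ξ0 + t • ξ1 ∈ conormal I (x0 + t • x1)) :
    ξ0 ∈ conormal I x0 := by
  classical
  by_contra hξ
  have hx0c : x0 ∈ cone I := (cone_of_line I x0 x1 (fun t ht => (h t ht).1)).1
  have hfin := hr x0 hx0c hx0
  let b := Module.finBasisOfFinrankEq K (conormal I x0) hfin
  choose F hF hbF using fun i => exists_grad I x0 (b i : σ → K) (b i).2
  let B : Fin (r + 1) → (σ → K) := Fin.cons ξ0 (fun i => (b i : σ → K))
  have hB : LinearIndependent K B := by
    rw [linearIndependent_finCons]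
    refine ⟨?_, ?_⟩
    · exact b.linearIndependent.map' (conormal I x0).subtype (Submodule.ker_subtype _)
    · intro hmem
      apply hξ
      refine (Submodule.span_le.2 ?_) hmem
      rintro _ ⟨i, rfl⟩
      exact (b i).2
  obtain ⟨v, hv⟩ := exists_dual_vectors B hB
  let G : Fin (r + 1) → (σ → K) → Polynomial K :=
    Fin.cons (fun w => ∑ m, (Polynomial.C (ξ0 m) + Polynomial.X * Polynomial.C (ξ1 m)) *
        Polynomial.C (w m))
      (fun i w => ∑ m, line (pderiv m (F i)) x0 x1 * Polynomial.C (w m))
  let P : Matrix (Fin (r + 1)) (Fin (r + 1)) (Polynomial K) := fun i j => G i (v j)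
  have hP : ∀ t : K, P.det.eval t =
      Matrix.det (fun i j => dotB σ K ((Fin.cons (ξ0 + t • ξ1) (fun i => grad (F i) (x0 + t • x1)) :
        Fin (r + 1) → (σ → K)) i) (v j)) := by
    intro t
    have h1 : P.det.eval t = (Polynomial.evalRingHom t) P.det := rfl
    rw [h1, RingHom.map_det]
    congr 1
    ext i j
    refine Fin.cases ?_ (fun i => ?_) i
    · simp only [P, G, RingHom.mapMatrix_apply, Matrix.map_apply, Fin.cons_zero,
        Polynomial.coe_evalRingHom, Polynomial.eval_finsetSum, Polynomial.eval_mul,
        Polynomial.eval_C, Polynomial.eval_add, Polynomial.eval_X, dotB_apply, Pi.add_apply,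
        Pi.smul_apply, smul_eq_mul]
    · simp only [P, G, RingHom.mapMatrix_apply, Matrix.map_apply, Fin.cons_succ,
        Polynomial.coe_evalRingHom, Polynomial.eval_finsetSum, Polynomial.eval_mul, eval_line,
        Polynomial.eval_C, dotB_apply, grad]
  have hP0 : P.det.eval 0 = 1 := by
    rw [hP 0]
    have : (fun i j => dotB σ K ((Fin.cons (ξ0 + (0:K) • ξ1)
        (fun i => grad (F i) (x0 + (0:K) • x1)) :
        Fin (r + 1) → (σ → K)) i) (v j)) = (1 : Matrix (Fin (r+1)) (Fin (r+1)) K) := by
      ext i j
      rw [Matrix.one_apply, ← hv i j]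
      refine Fin.cases ?_ (fun i => ?_) i
      · simp [B]
      · simp [B, hbF]
    rw [this, Matrix.det_one]
  obtain ⟨m, hm⟩ : ∃ m, x0 m ≠ 0 := Function.ne_iff.1 hx0
  let q : Polynomial K := Polynomial.C (x0 m) + Polynomial.X * Polynomial.C (x1 m)
  have hpq : P.det * q ≠ 0 := by
    apply mul_ne_zero
    · intro h0; rw [h0] at hP0; simp at hP0
    · intro h0
      have := congrArg (Polynomial.eval 0) h0
      simp [q] at this
      exact hm this
  obtain ⟨t, ht0, ht⟩ : ∃ t : K, t ≠ 0 ∧ (P.det * q).eval t ≠ 0 := by
    by_contra hcon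
    push Not at hcon
    exact hpq (poly_eq_zero _ hcon)
  rw [Polynomial.eval_mul] at ht
  have ht1 := left_ne_zero_of_mul ht
  have ht2 := right_ne_zero_of_mul ht
  have hxt : x0 + t • x1 ≠ 0 := by
    intro h0
    apply ht2
    have := congrFun h0 m
    simp only [Pi.add_apply, Pi.smul_apply, smul_eq_mul, Pi.zero_apply] at this
    simp only [q, Polynomial.eval_add, Polynomial.eval_C, Polynomial.eval_mul, Polynomial.eval_X]
    linear_combination this
  have hrt := hr _ (h t ht0).1 hxt
  set Bt : Fin (r + 1) → (σ → K) :=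
    Fin.cons (ξ0 + t • ξ1) (fun i => grad (F i) (x0 + t • x1)) with hBt
  have hmem : ∀ i, Bt i ∈ conormal I (x0 + t • x1) := by
    intro i
    refine Fin.cases ?_ (fun i => ?_) i
    · simpa [Bt] using (h t ht0).2
    · simpa [Bt] using grad_mem I _ (hF i)
  have hdep : ¬ LinearIndependent K Bt := by
    intro hli
    have h2 : LinearIndependent K (fun i => (⟨Bt i, hmem i⟩ : conormal I (x0 + t • x1))) :=
      LinearIndependent.of_comp (conormal I (x0 + t • x1)).subtype hli
    have := h2.fintype_card_le_finrank
    rw [hrt, Fintype.card_fin] at this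
    omega
  rw [Fintype.not_linearIndependent_iff] at hdep
  obtain ⟨c, hc, i, hci⟩ := hdep
  apply ht1
  rw [hP t]
  rw [← Matrix.exists_vecMul_eq_zero_iff]
  refine ⟨c, fun h0 => hci (congrFun h0 i), ?_⟩
  ext j
  have := congrArg (fun φ => dotB σ K φ (v j)) hc
  simpa [Matrix.vecMul, dotProduct, map_sum, LinearMap.sum_apply] using this

end Pool.Agent.H929R2.Hart
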