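import Pool.Agent.H929R2.Hart.Top

set_option autoImplicit false
set_option maxHeartbeats 400000

namespace Pool.Agent.H929R2.Hart

open MvPolynomial

variable {σ : Type} [Fintype σ] [DecidableEq σ] {K : Type} [Field K]

/-- `u ↦ ∑ u_l B_l(a)`. -/
noncomputable def Bv (C : Finset σ) (f : σ → MvPolynomial σ K) (a : σ → K) :
    (σ → K) →ₗ[K] (σ → K) where
  toFun u := Adapted.Bu C f u a
  map_add' u v := by simp [Adapted.Bu_apply, add_smul, Finset.sum_add_distrib]
  map_smul' c u := by
    simp only [Adapted.Bu_apply, Pi.smul_apply, smul_eq_mul, RingHom.id_apply, Finset.smul_sum]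
    exact Finset.sum_congr rfl (fun l _ => by rw [mul_smul])

lemma Bv_apply (C : Finset σ) (f : σ → MvPolynomial σ K) (a u : σ → K) :
    Bv C f a u = Adapted.Bu C f u a := rfl

omit [Fintype σ] [DecidableEq σ] in
/-- two bijections have a common eigenvector -/
lemma exists_pencil [IsAlgClosed K] {V W : Type} [AddCommGroup V] [Module K V]
    [FiniteDimensional K V] [AddCommGroup W] [Module K W] [FiniteDimensional K W]
    (φ ψ : V →ₗ[K] W) (hφ : Function.Injective φ) (hd : Module.finrank K W ≤ Module.finrank K V)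
    (hV : 0 < Module.finrank K V) : ∃ v : V, v ≠ 0 ∧ ∃ c : K, ψ v = c • φ v := by
  have h1 : Module.finrank K V = Module.finrank K W :=
    le_antisymm (LinearMap.finrank_le_finrank_of_injective hφ) hd
  let e := LinearEquiv.ofInjectiveOfFinrankEq φ hφ h1
  haveI : Nontrivial V := Module.finrank_pos_iff.1 hV
  obtain ⟨c, hc⟩ := Module.End.exists_eigenvalue ((e.symm : W →ₗ[K] V).comp ψ)
  obtain ⟨v, hv⟩ := hc.exists_hasEigenvector
  refine ⟨v, hv.2, c, ?_⟩
  have h2 := hv.apply_eq_smul
  have h3 := congrArg e h2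
  simp only [LinearMap.comp_apply, LinearEquiv.coe_coe, LinearEquiv.apply_symm_apply,
    map_smul] at h3
  rw [h3]
  rfl

namespace Adapted

variable {I : Ideal (MvPolynomial σ K)} {r : ℕ} {δ : σ → ℕ} {o : σ} {C Z : Finset σ}
  {f : σ → MvPolynomial σ K} {A : Submodule K (σ → K)}

/-- The main result: at most one nonlinear equation. -/
theorem card_le_one [IsAlgClosed K] [CharZero K] (h : Adapted I r δ o C) (hf : IsGraph I δ o C f)
    (hc : Core I o C Z f A) (hgr : ∀ a ∈ A, ∀ j, wpart δ j a ∈ A)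
    (htop : ∀ m, m ∉ C → m ≠ o → (∀ i, i ∉ Z → δ i ≤ δ m) → (Pi.single m 1 : σ → K) ∈ A) :
    (C \ Z).card ≤ 1 := by
  by_contra hcon
  push Not at hcon
  have hdim := hc.dim
  -- the top weight
  obtain ⟨l0, hl0⟩ : (C \ Z).Nonempty := Finset.card_pos.1 (by omega)
  have hZne : (Zᶜ : Finset σ).Nonempty :=
    ⟨l0, Finset.mem_compl.2 (Finset.mem_sdiff.1 hl0).2⟩
  obtain ⟨q, hqZ, hmax'⟩ := Finset.exists_max_image _ δ hZne
  have hmax : ∀ i, i ∉ Z → δ i ≤ δ q := fun i hi => hmax' i (Finset.mem_compl.2 hi)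
  have hqZ' : q ∉ Z := Finset.mem_compl.1 hqZ
  have hqC : q ∈ C := by
    by_contra hqC
    have hqo : q ≠ o := by
      rintro rfl
      have h1 : l0 ≠ q := by
        rintro rfl; exact hqC (Finset.mem_sdiff.1 hl0).1
      have h2 := h.wtpos l0 h1
      have h3 := hmax l0 (Finset.mem_sdiff.1 hl0).2
      rw [h.wt0] at h3; omega
    have h1 := htop q hqC hqo hmax
    have h2 := h.weight_lt hf hc _ h1 (by
      intro h0
      have := congrFun h0 q
      simp at this) (δ q) (fun i hi => by
        rw [Pi.single_apply] at hi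
        by_cases hiq : i = q
        · rw [hiq]
        · rw [if_neg hiq] at hi; exact absurd rfl hi) l0 hl0
    have h3 := hmax l0 (Finset.mem_sdiff.1 hl0).2
    omega
  have hq : q ∈ C \ Z := Finset.mem_sdiff.2 ⟨hqC, hqZ'⟩
  -- choose `a`, `a'` independent
  obtain ⟨a, haA, ha0⟩ : ∃ a ∈ A, a ≠ 0 := by
    by_contra hno
    push Not at hno
    have : A = ⊥ := by
      rw [eq_bot_iff]; intro a ha; exact hno a ha
    rw [this, finrank_bot] at hdim
    omega
  obtain ⟨a', ha'A, ha'⟩ : ∃ a' ∈ A, a' ∉ Submodule.span K {a} := by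
    by_contra hno
    push Not at hno
    have h1 : A ≤ Submodule.span K {a} := hno
    have h2 := Submodule.finrank_mono h1
    rw [finrank_span_singleton ha0] at h2
    omega
  -- a homogeneous element
  obtain ⟨i0, hi0⟩ := Function.ne_iff.1 ha0
  have hb0 : wpart δ (δ i0) a ≠ 0 := by
    intro h0
    have := congrFun h0 i0
    simp only [wpart, if_true, Pi.zero_apply] at this
    exact hi0 this
  obtain ⟨hqcone, ho, -⟩ := h.limit_top hf hc _ (hgr a haA (δ i0)) hb0 (δ i0) (fun i hi => by
    by_contra h1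
    exact hi (if_neg h1)) q hq hmax
  have hq1 : (Pi.single q 1 : σ → K) ≠ 0 := by
    intro h0
    have := congrFun h0 q
    simp at this
  -- all `B_l(a)` are conormal
  have hBB : ∀ b ∈ A, ∀ l ∈ C \ Z, l ≠ q → BB f l b ∈ conormal I (Pi.single q 1 : σ → K) := by
    intro b hb l hl hlq
    have hlC := (Finset.mem_sdiff.1 hl).1
    rw [← Bu_single (f := f) l hlC b, ← sum_wpart δ b, map_sum]
    refine Submodule.sum_mem _ (fun j _ => ?_)
    rw [Bu_single l hlC]
    by_cases hj : wpart δ j b = 0
    · rw [hj]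
      have : BB f l (0 : σ → K) = 0 := by
        have := BB_smul (f := f) l 0 (0 : σ → K)
        simpa using this
      rw [this]; exact Submodule.zero_mem _
    · exact (h.limit_top hf hc _ (hgr b hb j) hj j (fun i hi => by
        by_contra h1
        exact hi (if_neg h1)) q hq hmax).2.2 l hl hlq
  have hR := h.finrank_R _ hqcone hq1 (cs K (insert o Z)) (by
      intro u hu
      rw [eq_sum_single u]
      refine Submodule.sum_mem _ (fun i _ => ?_)
      by_cases hi : i ∈ insert o Z
      · rw [Finset.mem_insert] at hi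
        rcases hi with rfl | hi
        · exact Submodule.smul_mem _ _ ho
        · rw [← grad_X i (Pi.single q 1 : σ → K)]
          exact Submodule.smul_mem _ _ (grad_mem I _ (hc.memZ i hi))
      · rw [hu i hi, zero_smul]; exact Submodule.zero_mem _) (by
      intro u hu i hi
      refine hu i (fun h1 => hi ?_)
      rw [Finset.mem_insert] at h1 ⊢
      rcases h1 with rfl | h1
      · left; rfl
      · right; exact hc.ZC h1)
  rw [finrank_cs, Finset.card_insert_of_notMem (fun h1 => h.oC (hc.ZC h1))] at hR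
  have h6 := Finset.card_sdiff_add_card_eq_card hc.ZC
  have h7 := h.card
  set R : Submodule K (σ → K) := conormal I (Pi.single q 1 : σ → K) ⊓ cs K (insert o C)ᶜ with hRdef
  have hmemR : ∀ b ∈ A, ∀ u ∈ cs K ((C \ Z).erase q), Bv C f b u ∈ R := by
    intro b hb u hu
    rw [Bv_apply]
    refine ⟨?_, Bu_supp hf u b⟩
    rw [Bu_apply]
    refine Submodule.sum_mem _ (fun l _ => ?_)
    by_cases hl : l ∈ (C \ Z).erase q
    · exact Submodule.smul_mem _ _ (hBB b hb l (Finset.mem_erase.1 hl).2 (Finset.mem_erase.1 hl).1)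
    · rw [hu l hl, zero_smul]; exact Submodule.zero_mem _
  let φ : ∀ b ∈ A, cs K ((C \ Z).erase q) →ₗ[K] R := fun b hb =>
    LinearMap.codRestrict R ((Bv C f b).comp (cs K ((C \ Z).erase q)).subtype)
      (fun u => hmemR b hb u u.2)
  have hsub : ∀ u ∈ cs K ((C \ Z).erase q), ∀ i, i ∉ C \ Z → u i = 0 := fun u hu i hi =>
    hu i (fun h1 => hi (Finset.mem_erase.1 h1).2)
  obtain ⟨v, hv0, c, hvc⟩ := exists_pencil (φ a haA) (φ a' ha'A) (by
      rw [← LinearMap.ker_eq_bot, LinearMap.ker_eq_bot']
      intro u hu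
      ext1
      apply h.inj hf hc a haA ha0 u (hsub u u.2)
      exact congrArg Subtype.val hu) (by
      rw [finrank_cs, Finset.card_erase_of_mem hq]
      omega) (by
      rw [finrank_cs, Finset.card_erase_of_mem hq]
      omega)
  have h8 : Bu C f (v : σ → K) a' = c • Bu C f (v : σ → K) a := congrArg Subtype.val hvc
  have h9 : a' - c • a ≠ 0 := by
    intro h0
    apply ha'
    rw [sub_eq_zero] at h0
    rw [h0]
    exact Submodule.smul_mem _ _ (Submodule.mem_span_singleton_self a)
  apply hv0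
  ext1
  apply h.inj hf hc _ (Submodule.sub_mem _ ha'A (Submodule.smul_mem _ c haA)) h9 v (hsub v v.2)
  rw [map_sub, map_smul, h8, sub_self]

end Adapted

end Pool.Agent.H929R2.Hart
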