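import Pool.Agent.H929R2.Hart.Inj

set_option autoImplicit false
set_option maxHeartbeats 400000

namespace Pool.Agent.H929R2.Hart

open MvPolynomial

variable {σ : Type} [Fintype σ] [DecidableEq σ] {K : Type} [Field K]

/-- the part of weight `j` -/
def wpart (δ : σ → ℕ) (j : ℕ) (a : σ → K) : σ → K := fun i => if δ i = j then a i else 0

omit [DecidableEq σ] in
lemma sum_wpart (δ : σ → ℕ) (a : σ → K) :
    ∑ j ∈ Finset.univ.image δ, wpart δ j a = a := by
  funext i
  rw [Finset.sum_apply, Finset.sum_eq_single (δ i)]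
  · simp [wpart]
  · intro j _ hj
    simp [wpart, Ne.symm hj]
  · intro h
    exact absurd (Finset.mem_image_of_mem δ (Finset.mem_univ i)) h

lemma exists_dual_fin (S : Finset σ) (b : σ → (σ → K))
    (hb : ∀ u : σ → K, (∀ i, i ∉ S → u i = 0) → ∑ l ∈ S, u l • b l = 0 → u = 0) (q : σ)
    (hq : q ∈ S) : ∃ z : σ → K, ∀ l ∈ S, dotB σ K (b l) z = if l = q then 1 else 0 := by
  let e := S.equivFin
  have hli : LinearIndependent K (fun k => b (e.symm k : σ)) := by
    rw [Fintype.linearIndependent_iff]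
    intro g hg
    have h1 := hb (fun i => if h : i ∈ S then g (e ⟨i, h⟩) else 0) (fun i hi => by simp [hi]) (by
      rw [← hg, ← Finset.sum_coe_sort S, ← e.symm.sum_comp]
      refine Finset.sum_congr rfl (fun k _ => ?_)
      simp)
    intro k
    have h2 := congrFun h1 (e.symm k : σ)
    simpa using h2
  obtain ⟨v, hv⟩ := exists_dual_vectors _ hli
  refine ⟨v (e ⟨q, hq⟩), fun l hl => ?_⟩
  have := hv (e ⟨l, hl⟩) (e ⟨q, hq⟩)
  simp only [Equiv.symm_apply_apply] at this
  rw [this]
  simp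

omit [DecidableEq σ] in
lemma eval_zero_of_weight {δ : σ → ℕ} {φ : MvPolynomial σ K} {m : ℕ} (hm : m ≠ 0)
    (hφ : IsWeightedHomogeneous δ φ m) : eval (0 : σ → K) φ = 0 := by
  have h1 := eval_wscale hφ 0 (0 : σ → K)
  have h2 : (fun i => (0:K) ^ δ i * (0 : σ → K) i) = 0 := by
    funext i; simp
  rw [h2, zero_pow hm, zero_mul] at h1
  exact h1

namespace Adapted

variable {I : Ideal (MvPolynomial σ K)} {r : ℕ} {δ : σ → ℕ} {o : σ} {C Z : Finset σ}
  {f : σ → MvPolynomial σ K} {A : Submodule K (σ → K)}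

lemma BB_weight (hf : IsGraph I δ o C f) (a : σ → K) (j : ℕ) (ha : ∀ i, a i ≠ 0 → δ i = j)
    (l : σ) (hl : l ∈ C) (i : σ) (hi : BB f l a i ≠ 0) : δ i + j = δ l := by
  have hw := hf.wh l hl
  by_cases h1 : δ l < j
  · exfalso
    apply hi
    rw [BB, grad, dd_eq_zero_of_lt hw a (fun i hi => by rw [ha i hi]; exact h1)]
    simp
  push Not at h1
  have h2 := isWH_dd hw a ha h1
  by_cases h3 : δ l - j < δ i
  · exfalso
    apply hi
    rw [BB, grad, pderiv_eq_zero_of_lt h2 i h3, map_zero]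
  push Not at h3
  have h4 : IsWeightedHomogeneous δ (pderiv i (dd a (f l))) (δ l - j - δ i) := h2.pderiv (by omega)
  by_contra h5
  apply hi
  exact eval_zero_of_weight (by omega) h4

lemma Bu_single (l : σ) (hl : l ∈ C) (a : σ → K) : Bu C f (Pi.single l 1) a = BB f l a := by
  rw [Bu_apply, Finset.sum_eq_single l]
  · simp
  · intro b _ hb
    rw [Pi.single_apply, if_neg hb, zero_smul]
  · intro h; exact absurd hl h

lemma weight_lt [IsAlgClosed K] [CharZero K] (h : Adapted I r δ o C) (hf : IsGraph I δ o C f)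
    (hc : Core I o C Z f A) (a : σ → K) (haA : a ∈ A) (ha0 : a ≠ 0) (j : ℕ)
    (ha : ∀ i, a i ≠ 0 → δ i = j) (l : σ) (hl : l ∈ C \ Z) : j < δ l := by
  have hlC := (Finset.mem_sdiff.1 hl).1
  have h1 : BB f l a ≠ 0 := by
    intro h0
    have h2 := h.inj hf hc a haA ha0 (Pi.single l 1) (fun i hi => by
      rw [Pi.single_apply, if_neg]; rintro rfl; exact hi hl) (by rw [Bu_single l hlC, h0])
    have := congrFun h2 l
    simp at this
  obtain ⟨i, hi⟩ := Function.ne_iff.1 h1
  have h3 := BB_weight hf a j ha l hlC i hi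
  have h4 : i ≠ o := by
    rintro rfl
    apply hi
    exact BB_supp hf a l hlC _ (by simp)
  have := h.wtpos i h4
  omega

lemma exists_z [IsAlgClosed K] [CharZero K] (h : Adapted I r δ o C) (hf : IsGraph I δ o C f)
    (hc : Core I o C Z f A) (a : σ → K) (haA : a ∈ A) (ha0 : a ≠ 0) (j : ℕ)
    (ha : ∀ i, a i ≠ 0 → δ i = j) (q : σ) (hq : q ∈ C \ Z) :
    ∃ z : σ → K, (∀ i, z i ≠ 0 → δ i + j = δ q ∧ i ∉ insert o C) ∧
      ∀ l ∈ C \ Z, dotB σ K (BB f l a) z = if l = q then 1 else 0 := by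
  obtain ⟨z', hz'⟩ := exists_dual_fin (C \ Z) (fun l => BB f l a) (fun u hu hsum => by
    apply h.inj hf hc a haA ha0 u hu
    rw [Bu_apply, ← hsum]
    symm
    apply Finset.sum_subset Finset.sdiff_subset
    intro i _ hi
    rw [hu i hi, zero_smul]) q hq
  refine ⟨fun i => if δ i + j = δ q ∧ i ∉ insert o C then z' i else 0, ?_, ?_⟩
  · intro i hi
    by_contra hcon
    exact hi (if_neg hcon)
  · intro l hl
    have hlC := (Finset.mem_sdiff.1 hl).1
    by_cases hlq : δ l = δ q
    · rw [← hz' l hl, dotB_apply, dotB_apply]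
      refine Finset.sum_congr rfl (fun i _ => ?_)
      by_cases hi : BB f l a i = 0
      · rw [hi, zero_mul, zero_mul]
      · rw [if_pos]
        refine ⟨?_, fun h1 => hi (BB_supp hf a l hlC i (by
          rw [Finset.mem_compl, not_not]; exact h1))⟩
        rw [BB_weight hf a j ha l hlC i hi, hlq]
    · rw [if_neg (by rintro rfl; exact hlq rfl), dotB_apply]
      refine Finset.sum_eq_zero (fun i _ => ?_)
      by_cases hi : BB f l a i = 0
      · rw [hi, zero_mul]
      · rw [if_neg, mul_zero]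
        rintro ⟨h1, _⟩
        rw [BB_weight hf a j ha l hlC i hi] at h1
        exact hlq h1

end Adapted

end Pool.Agent.H929R2.Hart
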