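import Pool.Agent.H929R2.Hart.Tau

set_option autoImplicit false
set_option maxHeartbeats 400000

namespace Pool.Agent.H929R2.Hart

open MvPolynomial

variable {σ : Type} [Fintype σ] [DecidableEq σ] {K : Type} [Field K]

lemma pderiv_comm' (i j : σ) (p : MvPolynomial σ K) :
    pderiv i (pderiv j p) = pderiv j (pderiv i p) := by
  ext d
  rw [coeff_pderiv, coeff_pderiv, coeff_pderiv, coeff_pderiv]
  rw [add_right_comm]
  simp only [Finsupp.add_apply, Finsupp.single_apply]
  by_cases h : i = j
  · subst h; ring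
  · rw [if_neg h, if_neg (Ne.symm h)]
    push_cast
    ring

/-- The directional derivative in the direction `a`. -/
noncomputable def dd (a : σ → K) (p : MvPolynomial σ K) : MvPolynomial σ K :=
  ∑ i, C (a i) * pderiv i p

omit [DecidableEq σ] in
lemma eval_dd (a x : σ → K) (p : MvPolynomial σ K) : eval x (dd a p) = dotB σ K (grad p x) a := by
  rw [dd, map_sum, dotB_apply]
  refine Finset.sum_congr rfl (fun i _ => ?_)
  rw [map_mul, eval_C, grad, mul_comm]

omit [DecidableEq σ] in
lemma dd_add (a b : σ → K) (p : MvPolynomial σ K) : dd (a + b) p = dd a p + dd b p := by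
  simp [dd, add_mul, Finset.sum_add_distrib]

omit [DecidableEq σ] in
lemma dd_smul (c : K) (a : σ → K) (p : MvPolynomial σ K) : dd (c • a) p = C c * dd a p := by
  simp [dd, Finset.mul_sum, mul_assoc]

lemma pderiv_dd (i : σ) (a : σ → K) (p : MvPolynomial σ K) :
    pderiv i (dd a p) = dd a (pderiv i p) := by
  rw [dd, dd, map_sum]
  refine Finset.sum_congr rfl (fun j _ => ?_)
  rw [pderiv_C_mul, pderiv_comm']

/-- Twice differentiating in the direction `a` gives zero. -/
def FlatAt (a : σ → K) (p : MvPolynomial σ K) : Prop := dd a (dd a p) = 0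

lemma flat_pderiv {a : σ → K} {p : MvPolynomial σ K} (h : FlatAt a p) (i : σ) :
    FlatAt a (pderiv i p) := by
  unfold FlatAt at *
  rw [← pderiv_dd, ← pderiv_dd, h, map_zero]

lemma eval_flat [CharZero K] {a : σ → K} {p : MvPolynomial σ K} (h : FlatAt a p) (x : σ → K)
    (t : K) : eval (x + t • a) p = eval x p + t * eval x (dd a p) := by
  have h1 : ∀ s : K, eval (x + s • a) (dd a p) = eval x (dd a p) := by
    intro s
    have h2 := poly_affine (line (dd a p) x a) 0 (fun u => by
      rw [eval_derivative_line, ← eval_dd, h, map_zero]) s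
    rw [eval_line, eval_line] at h2
    simpa using h2
  have h3 := poly_affine (line p x a) (eval x (dd a p)) (fun s => by
    rw [eval_derivative_line, ← eval_dd, h1]) t
  rw [eval_line, eval_line] at h3
  simpa using h3

lemma grad_flat [CharZero K] {a : σ → K} {p : MvPolynomial σ K} (h : FlatAt a p) (x : σ → K)
    (t : K) : grad p (x + t • a) = grad p x + t • grad (dd a p) x := by
  funext i
  simp only [grad, Pi.add_apply, Pi.smul_apply, smul_eq_mul]
  rw [eval_flat (flat_pderiv h i), pderiv_dd]

lemma grad_dd_self {a : σ → K} {p : MvPolynomial σ K} (h : FlatAt a p) (x : σ → K) :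
    dotB σ K (grad (dd a p) x) a = 0 := by
  rw [← eval_dd, h, map_zero]

/-- weights: the directional derivative. -/
lemma isWH_dd {δ : σ → ℕ} {p : MvPolynomial σ K} {m j : ℕ} (hp : IsWeightedHomogeneous δ p m)
    (a : σ → K) (ha : ∀ i, a i ≠ 0 → δ i = j) (hj : j ≤ m) :
    IsWeightedHomogeneous δ (dd a p) (m - j) := by
  apply IsWeightedHomogeneous.sum
  intro i _
  by_cases hi : a i = 0
  · rw [hi, map_zero, zero_mul]; exact isWeightedHomogeneous_zero K δ _
  · apply IsWeightedHomogeneous.C_mul
    apply hp.pderiv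
    rw [ha i hi]; omega

lemma dd_eq_zero_of_lt {δ : σ → ℕ} {p : MvPolynomial σ K} {m : ℕ}
    (hp : IsWeightedHomogeneous δ p m) (a : σ → K) (ha : ∀ i, a i ≠ 0 → m < δ i) :
    dd a p = 0 := by
  rw [dd]
  refine Finset.sum_eq_zero (fun i _ => ?_)
  by_cases hi : a i = 0
  · rw [hi, map_zero, zero_mul]
  · rw [pderiv_eq_zero_of_lt hp i (ha i hi), mul_zero]

lemma flat_of_weight {δ : σ → ℕ} {p : MvPolynomial σ K} {m : ℕ}
    (hp : IsWeightedHomogeneous δ p m) (a : σ → K) (ha : ∀ i, a i ≠ 0 → m < 2 * δ i) :
    FlatAt a p := by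
  unfold FlatAt
  rw [dd]
  refine Finset.sum_eq_zero (fun i _ => ?_)
  by_cases hi : a i = 0
  · rw [hi, map_zero, zero_mul]
  rw [pderiv_dd]
  have hz : dd a (pderiv i p) = 0 := by
    rw [dd]
    refine Finset.sum_eq_zero (fun k _ => ?_)
    by_cases hk : a k = 0
    · rw [hk, map_zero, zero_mul]
    by_cases him : δ i ≤ m
    · have h1 : IsWeightedHomogeneous δ (pderiv i p) (m - δ i) := hp.pderiv (by omega)
      rcases le_total (δ i) (δ k) with hik | hki
      · have hai := ha i hi
        rw [pderiv_eq_zero_of_lt h1 k (by omega), mul_zero]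
      · have hak := ha k hk
        rw [pderiv_comm']
        by_cases hkm : δ k ≤ m
        · have h2 : IsWeightedHomogeneous δ (pderiv k p) (m - δ k) := hp.pderiv (by omega)
          rw [pderiv_eq_zero_of_lt h2 i (by omega), mul_zero]
        · rw [pderiv_eq_zero_of_lt hp k (by omega), map_zero, mul_zero]
    · rw [pderiv_eq_zero_of_lt hp i (by omega), map_zero, mul_zero]
  rw [hz, mul_zero]

end Pool.Agent.H929R2.Hart
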