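import Pool.Agent.H929R2.Hart.Limits

set_option autoImplicit false
set_option maxHeartbeats 400000

namespace Pool.Agent.H929R2.Hart

open MvPolynomial

variable {σ : Type} [Fintype σ] [DecidableEq σ] {K : Type} [Field K]

/-- Vectors supported on `S`. -/
def cs (K : Type) [Field K] (S : Finset σ) : Submodule K (σ → K) where
  carrier := {ξ | ∀ i, i ∉ S → ξ i = 0}
  zero_mem' := fun _ _ => rfl
  add_mem' := fun {a b} ha hb i hi => by simp [ha i hi, hb i hi]
  smul_mem' := fun c a ha i hi => by simp [ha i hi]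

omit [Fintype σ] in
lemma mem_cs (S : Finset σ) (ξ : σ → K) : ξ ∈ cs K S ↔ ∀ i, i ∉ S → ξ i = 0 := Iff.rfl

lemma finrank_cs (S : Finset σ) : Module.finrank K (cs K S) = S.card := by
  let e : cs K S ≃ₗ[K] (S → K) :=
    { toFun := fun ξ i => (ξ : σ → K) i
      map_add' := fun _ _ => rfl
      map_smul' := fun _ _ => rfl
      invFun := fun g => ⟨fun i => if h : i ∈ S then g ⟨i, h⟩ else 0, fun i hi => by simp [hi]⟩
      left_inv := fun ξ => by
        ext i
        by_cases h : i ∈ S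
        · simp [h]
        · simp [h, ξ.2 i h]
      right_inv := fun g => by
        ext i
        simp }
  rw [e.finrank_eq, Module.finrank_fintype_fun_eq_card, Fintype.card_coe]

omit [Fintype σ] in
lemma single_mem_cs (S : Finset σ) (i : σ) (hi : i ∈ S) : (Pi.single i 1 : σ → K) ∈ cs K S := by
  intro j hj
  rw [Pi.single_apply, if_neg]
  rintro rfl; exact hj hi

lemma eq_sum_single (ξ : σ → K) : ξ = ∑ i, ξ i • (Pi.single i 1 : σ → K) := by
  funext j
  simp [Finset.sum_apply, Pi.single_apply]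

lemma grad_X (l : σ) (x : σ → K) : grad (X l) x = Pi.single l 1 := by
  funext i
  rw [grad, pderiv_X]
  by_cases h : i = l
  · subst h; simp
  · simp [h]

/-- The hypotheses on the isotropic space `A`. -/
structure IsoSpace (C : Finset σ) (o : σ) (f : σ → MvPolynomial σ K)
    (A : Submodule K (σ → K)) : Prop where
  supp : ∀ a ∈ A, ∀ i, i ∈ C ∨ i = o → a i = 0
  flat : ∀ a ∈ A, ∀ l ∈ C, FlatAt a (f l)

namespace Adapted

variable {I : Ideal (MvPolynomial σ K)} {r : ℕ} {δ : σ → ℕ} {o : σ} {C : Finset σ}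
  {f : σ → MvPolynomial σ K} {A : Submodule K (σ → K)}

lemma pt_zero (h : Adapted I r δ o C) (hf : IsGraph I δ o C f) : pt f 0 = Pi.single o 1 := by
  funext i
  by_cases hi : i ∈ C
  · rw [pt, h.coeff_zero_f hf i hi, Pi.single_apply, if_neg]
    rintro rfl; exact h.oC hi
  · by_cases hio : i = o
    · rw [hio, pt_o hf]; simp
    · rw [pt_N hf 0 i hi hio, Pi.single_apply, if_neg hio]; rfl

lemma dpt_N (hf : IsGraph I δ o C f) (a z : σ → K) (i : σ) (hi : i ∉ C) (hio : i ≠ o) :
    dpt f a z i = a i := by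
  rw [dpt, eval_dd, hf.fN i hi hio, grad_X, dotB_single]

lemma dpt_o (hf : IsGraph I δ o C f) (a z : σ → K) : dpt f a z o = 0 := by
  rw [dpt, hf.fo]; simp [dd]

lemma dpt_zero [IsAlgClosed K] [CharZero K] (h : Adapted I r δ o C) (hf : IsGraph I δ o C f)
    (hA : IsoSpace C o f A) (a : σ → K) (ha : a ∈ A) : dpt f a 0 = a := by
  funext i
  by_cases hi : i ∈ C
  · rw [dpt, eval_dd, h.grad_zero hf i hi, map_zero, hA.supp a ha i (Or.inl hi)]; rfl
  · by_cases hio : i = o
    · rw [hio, dpt_o hf, hA.supp a ha o (Or.inr rfl)]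
    · exact dpt_N hf a 0 i hi hio

lemma pt_A [IsAlgClosed K] [CharZero K] (h : Adapted I r δ o C) (hf : IsGraph I δ o C f)
    (hA : IsoSpace C o f A) (a : σ → K) (ha : a ∈ A) : pt f a = Pi.single o 1 + a := by
  have h1 := pt_line hf a (hA.flat a ha) 0 1
  rw [h.pt_zero hf, h.dpt_zero hf hA a ha, one_smul, zero_add] at h1
  exact h1

lemma tau_A [IsAlgClosed K] [CharZero K] (h : Adapted I r δ o C) (hf : IsGraph I δ o C f)
    (hA : IsoSpace C o f A) (a : σ → K) (ha : a ∈ A) (l : σ) (hl : l ∈ C) :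
    tau o f l a = Pi.single l 1 - BB f l a := by
  have h1 := grad_flat (hA.flat a ha l hl) 0 1
  rw [zero_add, one_smul, h.grad_zero hf l hl, zero_add, one_smul] at h1
  have h2 := eval_flat (hA.flat a ha l hl) 0 1
  rw [zero_add, one_smul, h.coeff_zero_f hf l hl, eval_dd, h.grad_zero hf l hl, map_zero] at h2
  have h3 := grad_dd_self (hA.flat a ha l hl) 0
  rw [tau, h1, h2, h3]
  simp [BB]

lemma BB_mem [IsAlgClosed K] [CharZero K] (h : Adapted I r δ o C) (hf : IsGraph I δ o C f)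
    (hA : IsoSpace C o f A) (a : σ → K) (ha : a ∈ A) (ha0 : a ≠ 0) (l : σ) (hl : l ∈ C) :
    BB f l a ∈ conormal I a := by
  have h1 := h.limit_mem hf a (hA.flat a ha) 0 (by rw [h.dpt_zero hf hA a ha]; exact ha0) l hl
  rw [h.dpt_zero hf hA a ha, map_zero, zero_smul, add_zero] at h1
  have h2 := Submodule.neg_mem _ h1
  rwa [neg_neg] at h2

/-- `∑ u_l B_l(a)`. -/
noncomputable def Bu (C : Finset σ) (f : σ → MvPolynomial σ K) (u : σ → K) :
    (σ → K) →ₗ[K] (σ → K) where
  toFun a := ∑ l ∈ C, u l • BB f l a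
  map_add' a b := by simp [BB_add, Finset.sum_add_distrib]
  map_smul' c a := by
    rw [Finset.smul_sum]
    refine Finset.sum_congr rfl (fun l _ => ?_)
    rw [BB_smul, smul_comm]; rfl

lemma Bu_apply (u a : σ → K) : Bu C f u a = ∑ l ∈ C, u l • BB f l a := rfl

lemma sum_tau [IsAlgClosed K] [CharZero K] (h : Adapted I r δ o C) (hf : IsGraph I δ o C f)
    (hA : IsoSpace C o f A) (a : σ → K) (ha : a ∈ A) (u : σ → K) (hu : ∀ i, i ∉ C → u i = 0) :
    ∑ l ∈ C, u l • tau o f l a = u - Bu C f u a := by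
  rw [Bu_apply, Finset.sum_congr rfl (fun l hl => by rw [h.tau_A hf hA a ha l hl])]
  simp only [smul_sub, Finset.sum_sub_distrib]
  congr 1
  conv_rhs => rw [eq_sum_single u]
  apply Finset.sum_subset (Finset.subset_univ C)
  intro i _ hi
  rw [hu i hi, zero_smul]

lemma u_sub_mem [IsAlgClosed K] [CharZero K] (h : Adapted I r δ o C) (hf : IsGraph I δ o C f)
    (hA : IsoSpace C o f A) (a : σ → K) (ha : a ∈ A) (ha0 : a ≠ 0) (u : σ → K)
    (hu : ∀ i, i ∉ C → u i = 0) (hB : Bu C f u a = 0) (b : σ → K) (hb : b ∈ A) :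
    u - Bu C f u b ∈ conormal I a := by
  apply conormal_closed I r h.rank a (Pi.single o 1 + b) ha0 _ 0
  intro t ht
  have hmem : t⁻¹ • a + b ∈ A := A.add_mem (A.smul_mem _ ha) hb
  have h1 : a + t • (Pi.single o 1 + b) = t • pt f (t⁻¹ • a + b) := by
    rw [h.pt_A hf hA _ hmem, smul_add, smul_add, smul_add, smul_smul, mul_inv_cancel₀ ht, one_smul]
    abel
  have h2 : u - Bu C f u b + t • (0 : σ → K) = ∑ l ∈ C, u l • tau o f l (t⁻¹ • a + b) := by
    rw [h.sum_tau hf hA _ hmem u hu, map_add, map_smul, hB, smul_zero, smul_zero, zero_add,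
      add_zero]
  rw [h1, h2, conormal_smul I h.homog t ht]
  exact ⟨cone_smul I h.homog _ _ (h.pt_mem hf _),
    Submodule.sum_mem _ (fun l hl => Submodule.smul_mem _ _ (h.tau_mem hf l hl _))⟩

end Adapted

end Pool.Agent.H929R2.Hart
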