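import Pool.Agent.H929R2.Hart.Hyper2
import Pool.Agent.H929R2.Hart.Tangency

set_option autoImplicit false
set_option maxHeartbeats 400000

namespace Pool.Agent.H929R2.Hart

open MvPolynomial

variable {σ : Type} [Fintype σ] [DecidableEq σ] {K : Type} [Field K]

/-- The variety defined by the homogeneous ideal `I` is the transversal intersection of `r`
hypersurfaces, and the ideal is generated by the `r` forms. -/
def IsCI (r : ℕ) (I : Ideal (MvPolynomial σ K)) : Prop :=
  ∃ F : Fin r → MvPolynomial σ K, (∀ i, ∃ d, (F i).IsHomogeneous d) ∧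
    (∀ x, x ∈ cone I ↔ ∀ i, eval x (F i) = 0) ∧
    (∀ x ∈ cone I, x ≠ 0 → LinearIndependent K (fun i => grad (F i) x)) ∧
    I = Ideal.span (Set.range F)

omit [DecidableEq σ] in
lemma isCI_of_span (r : ℕ) (I : Ideal (MvPolynomial σ K))
    (hr : ∀ x ∈ cone I, x ≠ 0 → Module.finrank K (conormal I x) = r)
    (F : Fin r → MvPolynomial σ K) (hF : ∀ i, ∃ d, (F i).IsHomogeneous d)
    (hI : I = Ideal.span (Set.range F)) : IsCI r I := by
  have hmem : ∀ i, F i ∈ I := fun i => by rw [hI]; exact Ideal.subset_span ⟨i, rfl⟩
  refine ⟨F, hF, ?_, ?_, hI⟩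
  · intro x
    constructor
    · intro hx i; exact hx _ (hmem i)
    · intro hx G hG
      rw [hI, Ideal.mem_span_range_iff_exists_fun] at hG
      obtain ⟨c, rfl⟩ := hG
      rw [map_sum]
      exact Finset.sum_eq_zero (fun i _ => by rw [map_mul, hx i, mul_zero])
  · intro x hx hx0
    rw [linearIndependent_iff_card_le_finrank_span, Fintype.card_fin]
    refine le_trans (hr x hx hx0).ge ?_
    apply Submodule.finrank_mono
    rw [conormal, Submodule.span_le]
    rintro _ ⟨G, hG, rfl⟩
    rw [hI, Ideal.mem_span_range_iff_exists_fun] at hG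
    obtain ⟨c, rfl⟩ := hG
    have h1 : grad (∑ i, c i * F i) x = ∑ i, eval x (c i) • grad (F i) x := by
      funext j
      rw [grad, map_sum, map_sum, Finset.sum_apply]
      refine Finset.sum_congr rfl (fun i _ => ?_)
      rw [pderiv_mul, map_add, map_mul, map_mul, hx _ (hmem i), mul_zero, zero_add]
      rfl
    rw [h1]
    exact Submodule.sum_mem _ (fun i _ => Submodule.smul_mem _ _ (Submodule.subset_span ⟨i, rfl⟩))

/-- extension by zero -/
def ext0 (Z : Finset σ) (x : {i // i ∉ Z} → K) : σ → K :=
  fun i => if h : i ∉ Z then x ⟨i, h⟩ else 0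

/-- restriction to the coordinate subspace -/
noncomputable def res0 (Z : Finset σ) (F : MvPolynomial σ K) : MvPolynomial {i // i ∉ Z} K :=
  aeval (fun i => if h : i ∉ Z then X ⟨i, h⟩ else 0) F

omit [Fintype σ] in
lemma sub_res_mem (I : Ideal (MvPolynomial σ K)) (Z : Finset σ)
    (hZ : ∀ l ∈ Z, (X l : MvPolynomial σ K) ∈ I) (F : MvPolynomial σ K) :
    F - rename Subtype.val (res0 Z F) ∈ Ideal.span (Set.range (fun l : Z => X (l : σ))) := by
  induction F using MvPolynomial.induction_on with
  | C c => simp [res0]
  | add p q hp hq =>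
    have : p + q - rename Subtype.val (res0 Z (p + q)) =
        (p - rename Subtype.val (res0 Z p)) + (q - rename Subtype.val (res0 Z q)) := by
      simp only [res0, map_add]; ring
    rw [this]; exact Ideal.add_mem _ hp hq
  | mul_X p j hp =>
    by_cases hj : j ∈ Z
    · have h1 : res0 Z (p * X j) = 0 := by
        rw [res0, map_mul, aeval_X, dif_neg (by simpa using hj), mul_zero]
      rw [h1, map_zero, sub_zero]
      exact Ideal.mul_mem_left _ _ (Ideal.subset_span ⟨⟨j, hj⟩, rfl⟩)
    · have h1 : rename Subtype.val (res0 Z (p * X j)) = rename Subtype.val (res0 Z p) * X j := by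
        simp only [res0, map_mul, aeval_X]
        rw [dif_pos hj, rename_X]
      rw [h1, ← sub_mul]
      exact Ideal.mul_mem_right _ _ hp

lemma eval_ext0_rename (Z : Finset σ) (x : {i // i ∉ Z} → K)
    (G : MvPolynomial {i // i ∉ Z} K) :
    eval (ext0 Z x) (rename Subtype.val G) = eval x G := by
  rw [eval_rename]
  congr 2
  funext i
  simp [ext0, i.2]

/-- Main structural statement: if `I` contains `r - 1` (or `r`) of the coordinates, then it is
generated by `r` forms. -/
theorem isCI_of_card [IsAlgClosed K] [CharZero K] (r : ℕ) (I : Ideal (MvPolynomial σ K))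
    (hI : I.IsPrime) (hom : ∀ F ∈ I, ∀ d, homogeneousComponent d F ∈ I)
    (hr : ∀ x ∈ cone I, x ≠ 0 → Module.finrank K (conormal I x) = r)
    (hne : ∃ x ∈ cone I, x ≠ 0) (Z : Finset σ)
    (hZ : ∀ l ∈ Z, (X l : MvPolynomial σ K) ∈ I) (hcard : r ≤ Z.card + 1) : IsCI r I := by
  set I' : Ideal (MvPolynomial {i // i ∉ Z} K) :=
    Ideal.comap (rename Subtype.val : MvPolynomial {i // i ∉ Z} K →ₐ[K] MvPolynomial σ K) I
    with hI'
  have hmem : ∀ G, G ∈ I' ↔ rename Subtype.val G ∈ I := fun G => Iff.rfl
  have hprime : I'.IsPrime := Ideal.comap_isPrime _ _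
  have hspanZ : Ideal.span (Set.range (fun l : Z => (X (l : σ) : MvPolynomial σ K))) ≤ I := by
    rw [Ideal.span_le]
    rintro _ ⟨l, rfl⟩
    exact hZ l l.2
  have hres : ∀ F ∈ I, res0 Z F ∈ I' := by
    intro F hF
    rw [hmem]
    have h1 := hspanZ (sub_res_mem I Z hZ F)
    have h2 := I.sub_mem hF h1
    rwa [sub_sub_cancel] at h2
  have hZcone : ∀ x ∈ cone I, ∀ l ∈ Z, x l = 0 := fun x hx l hl => by
    have := hx _ (hZ l hl)
    rwa [eval_X] at this
  have hcone : ∀ x', x' ∈ cone I' → ext0 Z x' ∈ cone I := by
    intro x' hx' F hF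
    have h1 : eval (ext0 Z x') (F - rename Subtype.val (res0 Z F)) = 0 := by
      have h2 := sub_res_mem I Z hZ F
      rw [Ideal.mem_span_range_iff_exists_fun] at h2
      obtain ⟨c, hc⟩ := h2
      rw [← hc, map_sum]
      refine Finset.sum_eq_zero (fun l _ => ?_)
      rw [map_mul, eval_X, ext0, dif_neg (by simp), mul_zero]
    rw [map_sub, eval_ext0_rename, hx' _ (hres F hF), sub_zero] at h1
    exact h1
  have hne' : ∃ x' ∈ cone I', x' ≠ 0 := by
    obtain ⟨x, hx, hx0⟩ := hne
    refine ⟨fun i => x i, ?_, ?_⟩
    · intro G hG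
      have h1 := hx _ ((hmem G).1 hG)
      rw [eval_rename] at h1
      exact h1
    · intro h0
      apply hx0
      funext i
      by_cases hi : i ∈ Z
      · exact hZcone x hx i hi
      · exact congrFun h0 ⟨i, hi⟩
  have hrank : ∀ x' ∈ cone I', x' ≠ 0 → Module.finrank K (conormal I' x') + Z.card ≤ r := by
    intro x' hx' hx'0
    have hx := hcone x' hx'
    have hx0 : ext0 Z x' ≠ 0 := by
      intro h0
      apply hx'0
      funext i
      have := congrFun h0 i
      simpa [ext0, i.2] using this
    set W := conormal I (ext0 Z x') with hW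
    let ρ : (σ → K) →ₗ[K] ({i // i ∉ Z} → K) := LinearMap.funLeft K K Subtype.val
    have h1 := LinearMap.finrank_range_add_finrank_ker (ρ.domRestrict W)
    rw [hr _ hx hx0] at h1
    have h2 : conormal I' x' ≤ LinearMap.range (ρ.domRestrict W) := by
      rw [conormal, Submodule.span_le]
      rintro _ ⟨G, hG, rfl⟩
      refine ⟨⟨grad (rename Subtype.val G) (ext0 Z x'), grad_mem I _ ((hmem G).1 hG)⟩, ?_⟩
      funext i
      simp only [LinearMap.domRestrict_apply, ρ, LinearMap.funLeft_apply, grad]
      rw [← eval_ext0_rename Z x' (pderiv i G), pderiv_rename Subtype.val_injective]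
    have h3 : Z.card ≤ Module.finrank K (LinearMap.ker (ρ.domRestrict W)) := by
      have hle : cs K Z ≤ W := by
        intro u hu
        rw [eq_sum_single u]
        refine Submodule.sum_mem _ (fun i _ => ?_)
        by_cases hi : i ∈ Z
        · rw [← grad_X i (ext0 Z x')]
          exact Submodule.smul_mem _ _ (grad_mem I _ (hZ i hi))
        · rw [hu i hi, zero_smul]; exact Submodule.zero_mem _
      have h4 : Submodule.comap W.subtype (cs K Z) ≤ LinearMap.ker (ρ.domRestrict W) := by
        intro u hu
        rw [LinearMap.mem_ker]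
        funext i
        exact hu i i.2
      have h5 := Submodule.finrank_mono h4
      rw [(Submodule.comapSubtypeEquivOfLe hle).finrank_eq, finrank_cs] at h5
      exact h5
    have h6 := Submodule.finrank_mono h2
    omega
  have hZr : Z.card ≤ r := by
    obtain ⟨x', hx', hx'0⟩ := hne'
    have := hrank x' hx' hx'0
    omega
  obtain ⟨F, hF⟩ := principal_of_rank_le_one I' hprime hne' (fun x' hx' hx'0 => by
    have := hrank x' hx' hx'0; omega)
  have hom' : ∀ G ∈ Ideal.span {F}, ∀ d, homogeneousComponent d G ∈ Ideal.span {F} := by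
    intro G hG d
    rw [← hF] at hG ⊢
    rw [hmem, rename_homogeneousComponent]
    exact hom _ ((hmem G).1 hG) d
  obtain ⟨d, hd⟩ := homog_generator F hom'
  have hspan : ∀ G ∈ I, ∃ A, G - A * rename Subtype.val F ∈
      Ideal.span (Set.range (fun l : Z => (X (l : σ) : MvPolynomial σ K))) := by
    intro G hG
    have h1 := hres G hG
    rw [hF, Ideal.mem_span_singleton] at h1
    obtain ⟨A, hA⟩ := h1
    refine ⟨rename Subtype.val A, ?_⟩
    have h2 := sub_res_mem I Z hZ G
    rw [hA, map_mul, mul_comm (rename _ F)] at h2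
    exact h2
  have hFI : rename Subtype.val F ∈ I := by
    rw [← hmem, hF]; exact Ideal.mem_span_singleton_self F
  rcases Nat.lt_or_ge Z.card r with hlt | hge
  · -- `|Z| = r - 1`
    have hcardO : Fintype.card (Option Z) = r := by
      rw [Fintype.card_option, Fintype.card_coe]; omega
    let e : Fin r ≃ Option Z := (Fintype.equivFinOfCardEq hcardO).symm
    let g : Option Z → MvPolynomial σ K := fun o => o.elim (rename Subtype.val F) (fun l => X (l : σ))
    apply isCI_of_span r I hr (fun i => g (e i))
    · intro i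
      rcases h : e i with _ | l
      · exact ⟨d, by simp only [g, h, Option.elim]; exact hd.rename_isHomogeneous⟩
      · exact ⟨1, by simp only [g, h, Option.elim]; exact isHomogeneous_X K _⟩
    · have hrg : Set.range (fun i => g (e i)) = Set.range g := by
        rw [← e.surjective.range_comp g]; rfl
      rw [hrg]
      apply le_antisymm
      · intro G hG
        obtain ⟨A, hA⟩ := hspan G hG
        have h1 : Ideal.span (Set.range (fun l : Z => (X (l : σ) : MvPolynomial σ K))) ≤
            Ideal.span (Set.range g) := by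
          apply Ideal.span_mono
          rintro _ ⟨l, rfl⟩
          exact ⟨some l, rfl⟩
        have h2 : A * rename Subtype.val F ∈ Ideal.span (Set.range g) :=
          Ideal.mul_mem_left _ _ (Ideal.subset_span ⟨none, rfl⟩)
        have h3 := Ideal.add_mem _ (h1 hA) h2
        rwa [sub_add_cancel] at h3
      · rw [Ideal.span_le]
        rintro _ ⟨o, rfl⟩
        cases o with
        | none => exact hFI
        | some l => exact hZ l l.2
  · -- `|Z| = r`
    have hbot : I' = ⊥ := by
      apply eq_bot_of_rank_zero I' hprime hne'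
      intro G hG i
      apply mem_of_vanish_ne I' hprime hne'
      intro x' hx' hx'0
      have h1 := hrank x' hx' hx'0
      have h2 : Module.finrank K (conormal I' x') = 0 := by omega
      rw [Submodule.finrank_eq_zero] at h2
      have h3 := grad_mem I' x' hG
      rw [h2, Submodule.mem_bot] at h3
      exact congrFun h3 i
    have hF0 : F = 0 := by
      rw [hbot] at hF
      exact Ideal.span_singleton_eq_bot.1 hF.symm
    have hcardZ : Fintype.card Z = r := by
      rw [Fintype.card_coe]; omega
    let e : Fin r ≃ Z := (Fintype.equivFinOfCardEq hcardZ).symm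
    apply isCI_of_span r I hr (fun i => X (e i : σ))
    · intro i
      exact ⟨1, isHomogeneous_X K _⟩
    · have hrg : Set.range (fun i => (X (e i : σ) : MvPolynomial σ K)) =
          Set.range (fun l : Z => (X (l : σ) : MvPolynomial σ K)) := by
        rw [← e.surjective.range_comp (fun l : Z => (X (l : σ) : MvPolynomial σ K))]; rfl
      rw [hrg]
      apply le_antisymm
      · intro G hG
        obtain ⟨A, hA⟩ := hspan G hG
        rwa [hF0, map_zero, mul_zero, sub_zero] at hA
      · exact hspanZ

end Pool.Agent.H929R2.Hart
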