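import Pool.Agent.H929R2.Hart.Chart

set_option autoImplicit false
set_option maxHeartbeats 400000

namespace Pool.Agent.H929R2.Hart

open MvPolynomial

variable {σ : Type} [Fintype σ] [DecidableEq σ] {K : Type} [Field K]

namespace Adapted

variable {I : Ideal (MvPolynomial σ K)} {r : ℕ} {δ : σ → ℕ} {o : σ} {C : Finset σ}

lemma exists_graph_one [IsAlgClosed K] [CharZero K] (h : Adapted I r δ o C) :
    ∀ n : ℕ, ∀ l ∈ C, δ l = n → ∃ f : MvPolynomial σ K, IsWeightedHomogeneous δ f (δ l) ∧
      f ∈ supported K {i | i ∉ C ∧ i ≠ o} ∧ ∀ x ∈ cone I, x o = 1 → x l = eval x f := by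
  intro n
  induction n using Nat.strong_induction_on with
  | _ n ih =>
  intro l hl hln
  have ih' : ∀ i : σ, i ∈ C ∧ δ i < n → ∃ f : MvPolynomial σ K, IsWeightedHomogeneous δ f (δ i) ∧
      f ∈ supported K {i | i ∉ C ∧ i ≠ o} ∧ ∀ x ∈ cone I, x o = 1 → x i = eval x f :=
    fun i hi => ih (δ i) hi.2 i hi.1 rfl
  choose! f0 hf0 hf0s hf0e using ih'
  let G : σ → MvPolynomial σ K := fun i =>
    if i ∈ C ∧ δ i < n then f0 i else if i = o then 1 else if i ∈ C then 0 else X i
  have hGw : ∀ i, IsWeightedHomogeneous δ (G i) (δ i) := by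
    intro i
    simp only [G]
    split_ifs with h1 h2 h3
    · exact hf0 i h1
    · rw [h2, h.wt0]; exact isWeightedHomogeneous_one K δ
    · exact isWeightedHomogeneous_zero K δ _
    · exact isWeightedHomogeneous_X K δ i
  have hGs : ∀ i, G i ∈ supported K {i | i ∉ C ∧ i ≠ o} := by
    intro i
    simp only [G]
    split_ifs with h1 h2 h3
    · exact hf0s i h1
    · exact Subalgebra.one_mem _
    · exact Subalgebra.zero_mem _
    · rw [X_mem_supported]; exact ⟨h3, h2⟩
  have hsl : (Pi.single l 1 : σ → K) ∈ conormal I (Pi.single o 1) := by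
    rw [h.conor]
    intro i hi
    rw [Pi.single_apply, if_neg]
    rintro rfl; exact hi hl
  obtain ⟨F, hF, hFg⟩ := exists_grad I _ _ hsl
  set F' := weightedHomogeneousComponent δ n F with hF'
  have hF'I : F' ∈ I := wcomp_mem I h.prime δ h.stable F hF n
  have hF'w : IsWeightedHomogeneous δ F' n := weightedHomogeneousComponent_isWeightedHomogeneous n F
  have hgrad : ∀ i, δ i = n → ∀ x : σ → K, x o = 1 →
      eval x (pderiv i F') = (Pi.single l 1 : σ → K) i := by
    intro i hi x hx
    have h1 : IsWeightedHomogeneous δ (pderiv i F') 0 := hF'w.pderiv (by omega)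
    rw [eval_eq_of_weight_zero o h.wt0 h.wtpos h1 x (Pi.single o 1) (by simp [hx]), hFg, grad,
      h.grad_wcomp F i, hi]
  refine ⟨- aeval G F', ?_, ?_, ?_⟩
  · rw [hln]; exact (isWH_aeval G hGw F' hF'w).neg
  · exact Subalgebra.neg_mem _ (aeval_mem_subalgebra _ G hGs F')
  · intro x hx hxo
    set y : σ → K := fun i => if i ∈ C ∧ ¬ δ i < n then 0 else x i with hy
    have hGy : (fun i => eval x (G i)) = y := by
      funext i
      simp only [G, y]
      by_cases h1 : i ∈ C ∧ δ i < n
      · rw [if_pos h1, if_neg (by tauto)]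
        exact (hf0e i h1 x hx hxo).symm
      · rw [if_neg h1]
        by_cases h2 : i = o
        · rw [if_pos h2, if_neg]
          · rw [h2, hxo, map_one]
          · rintro ⟨h3, _⟩; rw [h2] at h3; exact h.oC h3
        · rw [if_neg h2]
          by_cases h3 : i ∈ C
          · rw [if_pos h3, if_pos, map_zero]
            exact ⟨h3, fun h4 => h1 ⟨h3, h4⟩⟩
          · rw [if_neg h3, if_neg (by tauto), eval_X]
    rw [map_neg, eval_aeval, hGy]
    have hyo : y o = 1 := by
      simp only [y]
      rw [if_neg (fun h1 => h.oC h1.1), hxo]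
    have hder : ∀ t : K, (Polynomial.derivative (line F' y (x - y))).eval t = x l := by
      intro t
      rw [eval_derivative_line, dotB_apply, Finset.sum_eq_single l]
      · rw [grad, hgrad l hln _ (by simp [hyo, hxo])]
        simp only [Pi.single_eq_same, one_mul, Pi.sub_apply, y]
        rw [if_pos ⟨hl, by omega⟩, sub_zero]
      · intro i _ hil
        by_cases h1 : i ∈ C ∧ ¬ δ i < n
        · rcases lt_or_eq_of_le (not_lt.1 h1.2) with h2 | h2
          · rw [grad, pderiv_eq_zero_of_lt hF'w i h2, map_zero, zero_mul]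
          · rw [grad, hgrad i h2.symm _ (by simp [hyo, hxo]), Pi.single_apply, if_neg hil, zero_mul]
        · simp only [Pi.sub_apply, y]
          rw [if_neg h1, sub_self, mul_zero]
      · intro hcon; exact absurd (Finset.mem_univ l) hcon
    have h5 := poly_affine _ _ hder 1
    rw [eval_line, eval_line, one_smul, zero_smul, add_zero, add_sub_cancel, hx F' hF'I] at h5
    linear_combination -h5

/-- On the chart `x_o = 1` the variety is the graph of polynomials in the tangent variables. -/
lemma exists_graph [IsAlgClosed K] [CharZero K] (h : Adapted I r δ o C) :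
    ∃ f : σ → MvPolynomial σ K, (∀ l ∈ C, IsWeightedHomogeneous δ (f l) (δ l)) ∧
      (∀ l ∈ C, f l ∈ supported K {i | i ∉ C ∧ i ≠ o}) ∧ f o = 1 ∧
      (∀ i, i ∉ C → i ≠ o → f i = X i) ∧
      ∀ x ∈ cone I, x o = 1 → ∀ l ∈ C, x l = eval x (f l) := by
  choose! f0 hf0 hf0s hf0e using fun l (hl : l ∈ C) => h.exists_graph_one (δ l) l hl rfl
  refine ⟨fun i => if i ∈ C then f0 i else if i = o then 1 else X i, ?_, ?_, ?_, ?_, ?_⟩
  · intro l hl; simp only [if_pos hl]; exact hf0 l hl
  · intro l hl; simp only [if_pos hl]; exact hf0s l hl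
  · simp [h.oC]
  · intro i h1 h2; simp [h1, h2]
  · intro x hx hxo l hl; simp only [if_pos hl]; exact hf0e l hl x hx hxo

end Adapted

end Pool.Agent.H929R2.Hart
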