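import Pool.Agent.H929R2.Hart.Weights

set_option autoImplicit false
set_option maxHeartbeats 400000

namespace Pool.Agent.H929R2.Hart

open MvPolynomial

open scoped nonZeroDivisors in
/-- A nonzero prime ideal of `R[x]`, with `R` factorial, meeting `R` in `0` is principal. -/
lemma principal_of_disjoint {R : Type} [CommRing R] [IsDomain R] [UniqueFactorizationMonoid R]
    (J : Ideal (Polynomial R)) (hJ : J.IsPrime) (h0 : ∀ a : R, Polynomial.C a ∈ J → a = 0)
    (hne : J ≠ ⊥) : ∃ F, Prime F ∧ J = Ideal.span {F} := by
  classical
  letI := Classical.choice (inferInstance : Nonempty (NormalizedGCDMonoid R))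
  obtain ⟨F, hFJ, hF⟩ := Ideal.IsPrime.exists_mem_prime_of_ne_bot hJ hne
  refine ⟨F, hF, le_antisymm ?_ ((Ideal.span_singleton_le_iff_mem J).2 hFJ)⟩
  have hdeg : F.natDegree ≠ 0 := by
    intro hd
    obtain ⟨a, ha⟩ := Polynomial.natDegree_eq_zero.1 hd
    have := h0 a (by rw [ha]; exact hFJ)
    rw [this, map_zero] at ha
    exact hF.ne_zero ha.symm
  have hprim : F.IsPrimitive := hF.irreducible.isPrimitive hdeg
  set Q := FractionRing R
  have hirr : Irreducible (F.map (algebraMap R Q)) :=
    (hprim.irreducible_iff_irreducible_map_fraction_map).1 hF.irreducible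
  intro G hG
  rw [Ideal.mem_span_singleton]
  apply hprim.dvd_of_fraction_map_dvd_fraction_map (K := Q)
  by_contra hnd
  have hcop := (hirr.coprime_iff_not_dvd).2 hnd
  obtain ⟨a, b, hab⟩ := hcop
  obtain ⟨ca, hca, hca'⟩ := IsLocalization.integerNormalization_spec R⁰ a
  obtain ⟨cb, hcb, hcb'⟩ := IsLocalization.integerNormalization_spec R⁰ b
  set a' := IsLocalization.integerNormalization R⁰ a
  set b' := IsLocalization.integerNormalization R⁰ b
  have key : Polynomial.C (ca * cb) = Polynomial.C cb * a' * F + Polynomial.C ca * b' * G := by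
    apply Polynomial.map_injective (algebraMap R Q) (FaithfulSMul.algebraMap_injective R Q)
    rw [Polynomial.map_add, Polynomial.map_mul, Polynomial.map_mul, Polynomial.map_mul,
      Polynomial.map_mul, hca', hcb', Polynomial.map_C, Polynomial.map_C, Polynomial.map_C]
    have h1 : (ca • a : Polynomial Q) = Polynomial.C (algebraMap R Q ca) * a := by
      rw [← Polynomial.smul_eq_C_mul, algebraMap_smul]
    have h2 : (cb • b : Polynomial Q) = Polynomial.C (algebraMap R Q cb) * b := by
      rw [← Polynomial.smul_eq_C_mul, algebraMap_smul]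
    rw [h1, h2, map_mul, map_mul]
    calc Polynomial.C (algebraMap R Q ca) * Polynomial.C (algebraMap R Q cb)
        = Polynomial.C (algebraMap R Q ca) * Polynomial.C (algebraMap R Q cb) *
          (a * F.map (algebraMap R Q) + b * G.map (algebraMap R Q)) := by rw [hab, mul_one]
      _ = _ := by ring
  have hmem : Polynomial.C (ca * cb) ∈ J := by
    rw [key]
    exact J.add_mem (J.mul_mem_left _ hFJ) (J.mul_mem_left _ hG)
  have := h0 _ hmem
  exact mul_ne_zero (nonZeroDivisors.ne_zero hca) (nonZeroDivisors.ne_zero hcb) this

variable {σ : Type} [Fintype σ] {K : Type} [Field K]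

omit [Fintype σ] in
/-- A set of polynomials closed under derivations and containing no nonzero constants is `0`. -/
lemma eq_zero_of_deriv_closed [CharZero K] (S : Set (MvPolynomial σ K))
    (hS : ∀ F ∈ S, ∀ i, pderiv i F ∈ S) (hC : ∀ c : K, C c ∈ S → c = 0) :
    ∀ n : ℕ, ∀ F ∈ S, F.totalDegree = n → F = 0 := by
  classical
  intro n
  induction n using Nat.strong_induction_on with
  | _ n ih =>
  intro F hF hn
  rcases Nat.eq_zero_or_pos n with h0 | hpos
  · rw [h0, totalDegree_eq_zero_iff_eq_C] at hn
    rw [hn] at hF
    rw [hn, hC _ hF, map_zero]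
  · exfalso
    have hder : ∀ i, pderiv i F = 0 := by
      intro i
      by_cases hF0 : pderiv i F = 0
      · exact hF0
      · apply ih (pderiv i F).totalDegree _ _ (hS F hF i) rfl
        rw [← hn]
        have h1 : (pderiv i F).totalDegree ≤ F.totalDegree - 1 := by
          rw [totalDegree, Finset.sup_le_iff]
          intro d hd
          rw [mem_support_iff, coeff_pderiv] at hd
          have h2 := le_totalDegree (mem_support_iff.2 (left_ne_zero_of_mul hd))
          have h3 : ((d + Finsupp.single i 1).sum fun _ e => e) = (d.sum fun _ e => e) + 1 := by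
            rw [Finsupp.sum_add_index' (by simp) (by simp)]
            simp
          omega
        omega
    obtain ⟨d, hd, hd2⟩ : ∃ d ∈ F.support, (d.sum fun _ e => e) = n := by
      have hne : F.support.Nonempty := by
        rw [Finset.nonempty_iff_ne_empty]
        intro h0
        rw [MvPolynomial.support_eq_empty] at h0
        rw [h0, totalDegree_zero] at hn
        omega
      obtain ⟨d, hd, hd2⟩ := Finset.exists_mem_eq_sup F.support hne (fun d => d.sum fun _ e => e)
      exact ⟨d, hd, by rw [← hn, totalDegree, hd2]⟩
    obtain ⟨i, hi⟩ : ∃ i, d i ≠ 0 := by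
      by_contra hcon
      push Not at hcon
      have : d = 0 := Finsupp.ext hcon
      rw [this] at hd2
      simp at hd2
      omega
    have h1 := congrArg (coeff (d - Finsupp.single i 1)) (hder i)
    rw [coeff_pderiv, coeff_zero] at h1
    have hdd : d - Finsupp.single i 1 + Finsupp.single i 1 = d := by
      ext j
      rw [Finsupp.add_apply, Finsupp.tsub_apply]
      by_cases hj : i = j
      · subst hj; simp; omega
      · simp [Finsupp.single_apply, hj]
    rw [hdd] at h1
    rcases mul_eq_zero.1 h1 with h4 | h4
    · exact mem_support_iff.1 hd h4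
    · have : ((((d - Finsupp.single i 1 : σ →₀ ℕ) i) + 1 : ℕ) : K) = 0 := by push_cast; exact h4
      exact Nat.cast_ne_zero.2 (Nat.succ_ne_zero _) this

end Pool.Agent.H929R2.Hart
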