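import Pool.Agent.H929R2.Hart.Hyper
import Pool.Agent.H929R2.Hart.Flat

set_option autoImplicit false
set_option maxHeartbeats 400000

namespace Pool.Agent.H929R2.Hart

open MvPolynomial

variable {σ : Type} [Fintype σ] {K : Type} [Field K]

lemma mem_of_vanish_ne [IsAlgClosed K] (I : Ideal (MvPolynomial σ K)) (hI : I.IsPrime)
    (hne : ∃ x ∈ cone I, x ≠ 0)
    (P : MvPolynomial σ K) (h : ∀ x ∈ cone I, x ≠ 0 → eval x P = 0) : P ∈ I := by
  obtain ⟨x0, hx0, hx0'⟩ := hne
  obtain ⟨m, hm⟩ := Function.ne_iff.1 hx0'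
  have h1 : X m * P ∈ I := by
    apply mem_of_vanish I hI
    intro x hx
    by_cases h0 : x = 0
    · rw [h0]; simp
    · rw [map_mul, h x hx h0, mul_zero]
  rcases hI.mem_or_mem h1 with h2 | h2
  · exfalso
    have := hx0 _ h2
    rw [eval_X] at this
    exact hm this
  · exact h2

lemma const_mem (I : Ideal (MvPolynomial σ K)) (hne : ∃ x ∈ cone I, x ≠ 0) (c : K)
    (hc : C c ∈ I) : c = 0 := by
  obtain ⟨x0, hx0, _⟩ := hne
  have := hx0 _ hc
  simpa using this

/-- rank zero -/
lemma eq_bot_of_rank_zero [IsAlgClosed K] [CharZero K] (I : Ideal (MvPolynomial σ K))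
    (hI : I.IsPrime) (hne : ∃ x ∈ cone I, x ≠ 0)
    (h : ∀ F ∈ I, ∀ i, pderiv i F ∈ I) : I = ⊥ := by
  rw [eq_bot_iff]
  intro F hF
  exact eq_zero_of_deriv_closed (I : Set (MvPolynomial σ K)) (fun F hF i => h F hF i)
    (fun c hc => const_mem I hne c hc) _ F hF rfl

lemma minors_mem [IsAlgClosed K] (I : Ideal (MvPolynomial σ K)) (hI : I.IsPrime)
    (hne : ∃ x ∈ cone I, x ≠ 0)
    (hr : ∀ x ∈ cone I, x ≠ 0 → Module.finrank K (conormal I x) ≤ 1)
    (F G : MvPolynomial σ K) (hF : F ∈ I) (hG : G ∈ I) (i j : σ) :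
    pderiv i F * pderiv j G - pderiv j F * pderiv i G ∈ I := by
  apply mem_of_vanish_ne I hI hne
  intro x hx hx0
  have h1 := hr x hx hx0
  rw [map_sub, map_mul, map_mul]
  have hFm := grad_mem I x hF
  have hGm := grad_mem I x hG
  obtain ⟨v, hv⟩ := finrank_le_one_iff.1 h1
  obtain ⟨a, ha⟩ := hv ⟨_, hFm⟩
  obtain ⟨b, hb⟩ := hv ⟨_, hGm⟩
  have ha' : ∀ k, eval x (pderiv k F) = a * (v : σ → K) k := fun k => by
    have := congrFun (congrArg Subtype.val ha) k
    exact this.symm
  have hb' : ∀ k, eval x (pderiv k G) = b * (v : σ → K) k := fun k => by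
    have := congrFun (congrArg Subtype.val hb) k
    exact this.symm
  rw [ha' i, ha' j, hb' i, hb' j]
  ring

/-- A prime ideal whose conormal spaces have rank at most one is principal. -/
theorem principal_of_rank_le_one [DecidableEq σ] [IsAlgClosed K] [CharZero K]
    (I : Ideal (MvPolynomial σ K))
    (hI : I.IsPrime) (hne : ∃ x ∈ cone I, x ≠ 0)
    (hr : ∀ x ∈ cone I, x ≠ 0 → Module.finrank K (conormal I x) ≤ 1) :
    ∃ F, I = Ideal.span {F} := by
  by_cases hall : ∀ F ∈ I, ∀ i, pderiv i F ∈ I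
  · exact ⟨0, by rw [eq_bot_of_rank_zero I hI hne hall]; simp⟩
  push Not at hall
  obtain ⟨F0, hF0, i, hi⟩ := hall
  have hS : ∀ G ∈ I, pderiv i G = 0 → G = 0 := by
    intro G hG hGi
    refine eq_zero_of_deriv_closed {G | G ∈ I ∧ pderiv i G = 0} ?_
      (fun c hc => const_mem I hne c hc.1) _ G ⟨hG, hGi⟩ rfl
    rintro G ⟨hG, hGi⟩ j
    refine ⟨?_, ?_⟩
    · have h1 := minors_mem I hI hne hr F0 G hF0 hG i j
      rw [hGi, mul_zero, sub_zero] at h1
      exact (hI.mem_or_mem h1).resolve_left hi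
    · rw [pderiv_comm', hGi, map_zero]
  let φ : MvPolynomial σ K ≃ₐ[K] Polynomial (MvPolynomial {j // j ≠ i} K) :=
    (renameEquiv K (Equiv.optionSubtypeNe i).symm).trans (optionEquivLeft K _)
  let J : Ideal (Polynomial (MvPolynomial {j // j ≠ i} K)) :=
    Ideal.comap (φ.symm : Polynomial (MvPolynomial {j // j ≠ i} K) →+* MvPolynomial σ K) I
  have hmemJ : ∀ G, G ∈ J ↔ φ.symm G ∈ I := fun G => Iff.rfl
  have hJ : J.IsPrime := Ideal.comap_isPrime _ _
  have hφC : ∀ a : MvPolynomial {j // j ≠ i} K, φ.symm (Polynomial.C a) =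
      rename Subtype.val a := by
    intro a
    rw [AlgEquiv.symm_apply_eq]
    simp only [φ, AlgEquiv.trans_apply, renameEquiv_apply, rename_rename]
    have : (⇑(Equiv.optionSubtypeNe i).symm ∘ (Subtype.val : {j // j ≠ i} → σ)) = some := by
      funext j
      simp [Function.comp, Equiv.optionSubtypeNe_symm_of_ne j.2]
    rw [this]
    induction a using MvPolynomial.induction_on with
    | C c => simp
    | add p q hp hq => simp [hp, hq]
    | mul_X p j hp => simp [hp]
  have h0 : ∀ a : MvPolynomial {j // j ≠ i} K, Polynomial.C a ∈ J → a = 0 := by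
    intro a ha
    rw [hmemJ, hφC] at ha
    have h1 := hS _ ha (by
      apply pderiv_eq_zero_of_notMem_vars
      intro hv
      have h2 := vars_rename _ _ hv
      rw [Finset.mem_image] at h2
      obtain ⟨j, _, hj⟩ := h2
      exact j.2 hj)
    exact rename_injective _ Subtype.val_injective (by rw [h1, map_zero])
  have hne' : J ≠ ⊥ := by
    intro hb
    have h1 : φ F0 ∈ J := by rw [hmemJ, AlgEquiv.symm_apply_apply]; exact hF0
    rw [hb, Ideal.mem_bot] at h1
    have h2 : F0 = 0 := by
      have := congrArg φ.symm h1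
      simpa using this
    apply hi
    rw [h2, map_zero]
    exact I.zero_mem
  obtain ⟨F, _, hFJ⟩ := principal_of_disjoint J hJ h0 hne'
  refine ⟨φ.symm F, le_antisymm ?_ ?_⟩
  · intro G hG
    have h1 : φ G ∈ J := by rw [hmemJ, AlgEquiv.symm_apply_apply]; exact hG
    rw [hFJ, Ideal.mem_span_singleton] at h1
    rw [Ideal.mem_span_singleton]
    obtain ⟨Q, hQ⟩ := h1
    refine ⟨φ.symm Q, ?_⟩
    rw [← map_mul, ← hQ, AlgEquiv.symm_apply_apply]
  · rw [Ideal.span_singleton_le_iff_mem, ← hmemJ, hFJ]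
    exact Ideal.mem_span_singleton_self F

/-- The generator of a homogeneous principal ideal is homogeneous. -/
theorem homog_generator (F : MvPolynomial σ K)
    (hom : ∀ G ∈ Ideal.span {F}, ∀ d, homogeneousComponent d G ∈ Ideal.span {F}) :
    ∃ d, F.IsHomogeneous d := by
  classical
  by_cases hF : F = 0
  · exact ⟨0, by rw [hF]; exact isHomogeneous_zero _ _ _⟩
  have hex : ∃ e, homogeneousComponent e F ≠ 0 := by
    by_contra hcon
    push Not at hcon
    apply hF
    rw [← MvPolynomial.sum_homogeneousComponent F]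
    exact Finset.sum_eq_zero (fun i _ => hcon i)
  set e := Nat.find hex with he
  have he0 : homogeneousComponent e F ≠ 0 := Nat.find_spec hex
  have hmin : ∀ k < e, homogeneousComponent k F = 0 := fun k hk => by
    by_contra h; exact Nat.find_min hex hk h
  have hdvd := hom F (Ideal.mem_span_singleton_self F) e
  rw [Ideal.mem_span_singleton] at hdvd
  have h1 := totalDegree_le_of_dvd_of_isDomain hdvd he0
  have h2 : (homogeneousComponent e F).totalDegree ≤ e :=
    (homogeneousComponent_isHomogeneous e F).totalDegree_le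
  refine ⟨e, ?_⟩
  have h3 : F = homogeneousComponent e F := by
    conv_lhs => rw [← MvPolynomial.sum_homogeneousComponent F]
    rw [Finset.sum_eq_single e]
    · intro k hk hke
      rw [Finset.mem_range] at hk
      exact hmin k (by omega)
    · intro hk
      rw [Finset.mem_range, not_lt] at hk
      exact homogeneousComponent_eq_zero _ _ (by omega)
  rw [h3]
  exact homogeneousComponent_isHomogeneous e F

end Pool.Agent.H929R2.Hart
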