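import Pool.Agent.H929R2.Hart.Tangency

set_option autoImplicit false
set_option maxHeartbeats 400000

namespace Pool.Agent.H929R2.Hart

open MvPolynomial

variable {σ : Type} [Fintype σ] [DecidableEq σ] {K : Type} [Field K]

/-- The set `Z` of the linear equations and the space `A` for the main argument. -/
structure Core (I : Ideal (MvPolynomial σ K)) (o : σ) (C Z : Finset σ)
    (f : σ → MvPolynomial σ K) (A : Submodule K (σ → K)) : Prop where
  iso : IsoSpace C o f A
  ZC : Z ⊆ C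
  memZ : ∀ l ∈ Z, (X l : MvPolynomial σ K) ∈ I
  nondeg : ∀ u : σ → K, (∀ i, i ∉ C \ Z → u i = 0) →
    (∑ l, MvPolynomial.C (u l) * X l) ∈ I → u = 0
  dim : 2 * (C \ Z).card ≤ Module.finrank K A

lemma cs_disjoint (S T : Finset σ) (hST : ∀ i, i ∈ S → i ∉ T) : cs K S ⊓ cs K T = ⊥ := by
  rw [eq_bot_iff]
  rintro x ⟨h1, h2⟩
  rw [Submodule.mem_bot]
  funext i
  by_cases hi : i ∈ S
  · exact h2 i (hST i hi)
  · exact h1 i hi

lemma finrank_cs_sup_span (Z : Finset σ) (u : σ → K) (hu : u ∉ cs K Z) :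
    Module.finrank K (cs K Z ⊔ Submodule.span K {u} : Submodule K (σ → K)) = Z.card + 1 := by
  have h1 := Submodule.finrank_sup_add_finrank_inf_eq (cs K Z) (Submodule.span K {u})
  have hu0 : u ≠ 0 := by rintro rfl; exact hu (Submodule.zero_mem _)
  have h2 : cs K Z ⊓ Submodule.span K {u} = ⊥ := by
    rw [eq_bot_iff]
    rintro x ⟨hx1, hx2⟩
    obtain ⟨c, rfl⟩ := Submodule.mem_span_singleton.1 hx2
    by_cases hc : c = 0
    · rw [hc, zero_smul]; exact Submodule.zero_mem _
    · exact absurd ((Submodule.smul_mem_iff _ hc).1 hx1) hu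
  rw [h2, finrank_bot, finrank_cs, finrank_span_singleton hu0] at h1
  omega

omit [Fintype σ] [DecidableEq σ] in
lemma exists_ker {V W : Type} [AddCommGroup V] [Module K V] [FiniteDimensional K V]
    [AddCommGroup W] [Module K W] [FiniteDimensional K W] (φ : V →ₗ[K] W)
    (h : Module.finrank K W < Module.finrank K V) : ∃ v, φ v = 0 ∧ v ≠ 0 := by
  have := LinearMap.ker_ne_bot_of_finrank_lt (f := φ) h
  exact (Submodule.ne_bot_iff _).1 this

namespace Adapted

variable {I : Ideal (MvPolynomial σ K)} {r : ℕ} {δ : σ → ℕ} {o : σ} {C Z : Finset σ}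
  {f : σ → MvPolynomial σ K} {A : Submodule K (σ → K)}

lemma finrank_R (h : Adapted I r δ o C) (x : σ → K) (hx : x ∈ cone I) (hx0 : x ≠ 0)
    (W : Submodule K (σ → K)) (hW : W ≤ conormal I x) (hW2 : W ≤ cs K (insert o C)) :
    Module.finrank K (conormal I x ⊓ cs K (insert o C)ᶜ : Submodule K (σ → K)) +
      Module.finrank K W ≤ r := by
  have h1 := Submodule.finrank_sup_add_finrank_inf_eq (conormal I x ⊓ cs K (insert o C)ᶜ) W
  have h2 : (conormal I x ⊓ cs K (insert o C)ᶜ) ⊓ W = ⊥ := by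
    rw [eq_bot_iff]
    rintro y ⟨⟨_, hy1⟩, hy2⟩
    have h3 : y ∈ cs K (insert o C)ᶜ ⊓ cs K (insert o C) := ⟨hy1, hW2 hy2⟩
    rw [cs_disjoint _ _ (fun i hi => Finset.mem_compl.1 hi)] at h3
    exact h3
  rw [h2, finrank_bot, add_zero] at h1
  rw [← h1, ← h.rank x hx hx0]
  exact Submodule.finrank_mono (sup_le inf_le_left hW)

lemma BB_supp (hf : IsGraph I δ o C f) (a : σ → K) (l : σ) (hl : l ∈ C) :
    BB f l a ∈ cs K (insert o C)ᶜ := by
  intro i hi
  rw [Finset.mem_compl, not_not, Finset.mem_insert] at hi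
  rw [BB, grad, pderiv_dd, pderiv_supported (hf.supp l hl) i]
  · simp [dd]
  · simp only [Set.mem_setOf_eq, not_and_or, not_not]; tauto

lemma Bu_supp (hf : IsGraph I δ o C f) (u a : σ → K) :
    Bu C f u a ∈ cs K (insert o C)ᶜ := by
  rw [Bu_apply]
  exact Submodule.sum_mem _ (fun l hl => Submodule.smul_mem _ _ (BB_supp hf a l hl))

lemma f_Z [IsAlgClosed K] [CharZero K] (h : Adapted I r δ o C) (hf : IsGraph I δ o C f) (l : σ)
    (hl : (X l : MvPolynomial σ K) ∈ I) : f l = 0 := by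
  have := h.aeval_zero hf _ hl
  rwa [aeval_X] at this

lemma cs_Z_le (x : σ → K) (hZ : ∀ l ∈ Z, (X l : MvPolynomial σ K) ∈ I) :
    cs K Z ≤ conormal I x := by
  intro u hu
  rw [eq_sum_single u]
  refine Submodule.sum_mem _ (fun i _ => ?_)
  by_cases hi : i ∈ Z
  · rw [← grad_X i x]
    exact Submodule.smul_mem _ _ (grad_mem I x (hZ i hi))
  · rw [hu i hi, zero_smul]; exact Submodule.zero_mem _

/-- the space of values of `Bu u` is small -/
lemma R_dim [IsAlgClosed K] [CharZero K] (h : Adapted I r δ o C) (hf : IsGraph I δ o C f)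
    (hc : Core I o C Z f A) (a : σ → K) (ha : a ∈ A) (ha0 : a ≠ 0) (u : σ → K)
    (hu : ∀ i, i ∉ C \ Z → u i = 0) (hu0 : u ≠ 0) (hB : Bu C f u a = 0) :
    Module.finrank K (conormal I a ⊓ cs K (insert o C)ᶜ : Submodule K (σ → K)) + 1 ≤
        (C \ Z).card ∧
      ∀ b ∈ A, Bu C f u b ∈ conormal I a ⊓ cs K (insert o C)ᶜ := by
  have huC : ∀ i, i ∉ C → u i = 0 := fun i hi => hu i (fun h1 => hi (Finset.mem_sdiff.1 h1).1)
  have haC : a ∈ cone I := by
    rw [← h.dpt_zero hf hc.iso a ha]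
    exact h.dpt_mem hf a (hc.iso.flat a ha) 0
  have hu1 : u ∈ conormal I a := by
    have := h.u_sub_mem hf hc.iso a ha ha0 u huC hB 0 A.zero_mem
    rwa [map_zero, sub_zero] at this
  have hu2 : u ∉ cs K Z := by
    intro h1
    apply hu0
    funext i
    by_cases hi : i ∈ Z
    · exact hu i (fun h2 => (Finset.mem_sdiff.1 h2).2 hi)
    · exact h1 i hi
  have hW := h.finrank_R a haC ha0 (cs K Z ⊔ Submodule.span K {u}) (by
      apply sup_le (cs_Z_le a hc.memZ)
      rw [Submodule.span_singleton_le_iff_mem]; exact hu1) (by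
      apply sup_le
      · intro y hy i hi
        exact hy i (fun h1 => hi (Finset.mem_insert_of_mem (hc.ZC h1)))
      · rw [Submodule.span_singleton_le_iff_mem]
        intro i hi
        exact huC i (fun h1 => hi (Finset.mem_insert_of_mem h1)))
  rw [finrank_cs_sup_span Z u hu2] at hW
  have h6 := Finset.card_sdiff_add_card_eq_card hc.ZC
  have h7 := h.card
  refine ⟨by omega, fun b hb => ⟨?_, Bu_supp hf u _⟩⟩
  have h1 := h.u_sub_mem hf hc.iso a ha ha0 u huC hB b hb
  have h2 := Submodule.sub_mem _ hu1 h1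
  rw [sub_sub_cancel] at h2
  exact h2

lemma exists_nu [IsAlgClosed K] [CharZero K] (h : Adapted I r δ o C) (hf : IsGraph I δ o C f)
    (hc : Core I o C Z f A) (u : σ → K) (hu : ∀ i, i ∉ C \ Z → u i = 0) (hu0 : u ≠ 0) :
    ∃ ν : σ → K, dotB σ K u (pt f ν) ≠ 0 := by
  by_contra hcon
  push Not at hcon
  apply hu0
  apply hc.nondeg u hu
  apply mem_of_vanish I h.prime
  intro x hx
  have hev : ∀ y : σ → K, eval y (∑ l, MvPolynomial.C (u l) * X l) = dotB σ K u y := by
    intro y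
    rw [map_sum, dotB_apply]
    exact Finset.sum_congr rfl (fun i _ => by simp)
  rw [hev]
  have hchart : ∀ y ∈ cone I, y o = 1 → dotB σ K u y = 0 := by
    intro y hy hyo
    rw [← hcon y]
    rw [dotB_apply, dotB_apply]
    refine Finset.sum_congr rfl (fun i _ => ?_)
    by_cases hi : i ∈ C
    · rw [hf.eqn y hy hyo i hi]; rfl
    · rw [hu i (fun h1 => hi (Finset.mem_sdiff.1 h1).1), zero_mul, zero_mul]
  obtain ⟨F, hF, _, _⟩ := h.lift (∑ l, MvPolynomial.C (u l) * X l) (fun y hy hyo => by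
    rw [hev]; exact hchart y hy hyo)
  have hXo : (X o * ∑ l, MvPolynomial.C (u l) * X l : MvPolynomial σ K) ∈ I := by
    apply mem_of_vanish I h.prime
    intro y hy
    rw [map_mul, eval_X, hev]
    by_cases hyo : y o = 0
    · rw [hyo, zero_mul]
    · have h1 := hchart _ (cone_smul I h.homog (y o)⁻¹ y hy) (by simp [hyo])
      rw [map_smul, smul_eq_mul] at h1
      rcases mul_eq_zero.1 h1 with h2 | h2
      · exact absurd (inv_eq_zero.1 h2) hyo
      · rw [h2, mul_zero]
  rcases h.prime.mem_or_mem hXo with h1 | h1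
  · have := h.base _ h1
    simp at this
  · have := hx _ h1
    rwa [hev] at this

theorem inj [IsAlgClosed K] [CharZero K] (h : Adapted I r δ o C) (hf : IsGraph I δ o C f)
    (hc : Core I o C Z f A) (a : σ → K) (ha : a ∈ A) (ha0 : a ≠ 0) (u : σ → K)
    (hu : ∀ i, i ∉ C \ Z → u i = 0) (hB : Bu C f u a = 0) : u = 0 := by
  by_contra hu0
  have huC : ∀ i, i ∉ C → u i = 0 := fun i hi => hu i (fun h1 => hi (Finset.mem_sdiff.1 h1).1)
  obtain ⟨hk, hR⟩ := h.R_dim hf hc a ha ha0 u hu hu0 hB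
  obtain ⟨ν, hν⟩ := h.exists_nu hf hc u hu hu0
  let Ψ : A →ₗ[K] (conormal I a ⊓ cs K (insert o C)ᶜ : Submodule K (σ → K)) ×
      ((C \ Z : Finset σ) → K) :=
    (LinearMap.codRestrict _ ((Bu C f u).comp A.subtype) (fun b => hR b b.2)).prod
      ((LinearMap.pi (fun l : (C \ Z : Finset σ) => dotB σ K (grad (f (l : σ)) ν))).comp
        A.subtype)
  have hdim := hc.dim
  obtain ⟨s, hs, hs0⟩ := exists_ker Ψ (by
    rw [Module.finrank_prod, Module.finrank_fintype_fun_eq_card, Fintype.card_coe]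
    omega)
  set s' : σ → K := (s : σ → K) with hs'
  have hsA : s' ∈ A := s.2
  have hsB : Bu C f u s' = 0 := congrArg (fun p => ((p.1 : (conormal I a ⊓ cs K (insert o C)ᶜ :
    Submodule K (σ → K))) : σ → K)) hs
  have hs'0 : s' ≠ 0 := by
    intro h0
    apply hs0
    ext1; exact h0
  have hsd : ∀ l ∈ C, dotB σ K (grad (f l) ν) s' = 0 := by
    intro l hl
    by_cases hlZ : l ∈ Z
    · rw [h.f_Z hf l (hc.memZ l hlZ)]
      rw [dotB_apply]
      exact Finset.sum_eq_zero (fun i _ => by simp [grad])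
    · exact congrFun (congrArg Prod.snd hs) ⟨l, Finset.mem_sdiff.2 ⟨hl, hlZ⟩⟩
  have hdpt : dpt f s' ν = s' := by
    funext i
    by_cases hi : i ∈ C
    · rw [dpt, eval_dd, hsd i hi, hc.iso.supp s' hsA i (Or.inl hi)]
    · by_cases hio : i = o
      · rw [hio, dpt_o hf, hc.iso.supp s' hsA o (Or.inr rfl)]
      · exact dpt_N hf s' ν i hi hio
  have htan : pt f ν ∈ tangent I s' := by
    apply (cone_of_line I s' (pt f ν) _).2
    intro t ht
    have h1 : s' + t • pt f ν = t • pt f (ν + t⁻¹ • s') := by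
      rw [pt_line hf s' (hc.iso.flat s' hsA), hdpt, smul_add, smul_smul, mul_inv_cancel₀ ht,
        one_smul, add_comm]
    rw [h1]
    exact cone_smul I h.homog _ _ (h.pt_mem hf _)
  have hu1 : u ∈ conormal I s' := by
    have := h.u_sub_mem hf hc.iso s' hsA hs'0 u huC hsB 0 A.zero_mem
    rwa [map_zero, sub_zero] at this
  exact hν (tangent_conormal I s' hu1 htan)

end Adapted

end Pool.Agent.H929R2.Hart
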