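import Pool.Agent.H929R2.Hart.Flat

set_option autoImplicit false
set_option maxHeartbeats 400000

namespace Pool.Agent.H929R2.Hart

open MvPolynomial

variable {σ : Type} [Fintype σ] [DecidableEq σ] {K : Type} [Field K]

omit [DecidableEq σ] in
lemma eval_hscale {φ : MvPolynomial σ K} {m : ℕ} (h : φ.IsHomogeneous m)
    (t : K) (x : σ → K) : eval (t • x) φ = t ^ m * eval x φ := by
  have h1 := eval_wscale (w := (1 : σ → ℕ)) h t x
  have h2 : (fun i => t ^ (1 : σ → ℕ) i * x i) = t • x := by
    ext i; simp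
  rw [h2] at h1
  exact h1

omit [DecidableEq σ] in
lemma conormal_smul_le (I : Ideal (MvPolynomial σ K))
    (hom : ∀ F ∈ I, ∀ d, homogeneousComponent d F ∈ I) (c : K) (x : σ → K) :
    conormal I (c • x) ≤ conormal I x := by
  rw [conormal, Submodule.span_le]
  rintro _ ⟨F, hF, rfl⟩
  have h1 : grad F (c • x) = ∑ d ∈ Finset.range (F.totalDegree + 1),
      c ^ (d - 1) • grad (homogeneousComponent d F) x := by
    funext i
    rw [grad, Finset.sum_apply]
    conv_lhs => rw [← MvPolynomial.sum_homogeneousComponent F, map_sum, map_sum]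
    refine Finset.sum_congr rfl (fun d _ => ?_)
    rw [eval_hscale (homogeneousComponent_isHomogeneous d F).pderiv]
    rfl
  rw [h1]
  exact Submodule.sum_mem _ (fun d _ => Submodule.smul_mem _ _ (grad_mem I x (hom F hF d)))

omit [DecidableEq σ] in
lemma conormal_smul (I : Ideal (MvPolynomial σ K))
    (hom : ∀ F ∈ I, ∀ d, homogeneousComponent d F ∈ I) (c : K) (hc : c ≠ 0) (x : σ → K) :
    conormal I (c • x) = conormal I x := by
  apply le_antisymm (conormal_smul_le I hom c x)
  have h1 := conormal_smul_le I hom c⁻¹ (c • x)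
  rwa [smul_smul, inv_mul_cancel₀ hc, one_smul] at h1

/-- The point at infinity `lim t f(z + a/t)`. -/
noncomputable def dpt (f : σ → MvPolynomial σ K) (a z : σ → K) : σ → K :=
  fun i => eval z (dd a (f i))

namespace Adapted

variable {I : Ideal (MvPolynomial σ K)} {r : ℕ} {δ : σ → ℕ} {o : σ} {C : Finset σ}
  {f : σ → MvPolynomial σ K}

lemma flat_f (hf : IsGraph I δ o C f) (a : σ → K) (ha : ∀ l ∈ C, FlatAt a (f l)) (i : σ) :
    FlatAt a (f i) := by
  by_cases hi : i ∈ C
  · exact ha i hi
  · by_cases hio : i = o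
    · rw [hio, hf.fo]; simp [FlatAt, dd]
    · rw [hf.fN i hi hio]
      unfold FlatAt
      rw [dd]
      refine Finset.sum_eq_zero (fun j _ => ?_)
      rw [dd, map_sum]
      rw [Finset.sum_eq_zero, mul_zero]
      intro k _
      rw [pderiv_C_mul, pderiv_X]
      by_cases hk : i = k
      · subst hk; simp
      · simp [hk]

lemma pt_line [CharZero K] (hf : IsGraph I δ o C f) (a : σ → K) (ha : ∀ l ∈ C, FlatAt a (f l))
    (z : σ → K) (s : K) : pt f (z + s • a) = pt f z + s • dpt f a z := by
  funext i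
  simp only [pt, dpt, Pi.add_apply, Pi.smul_apply, smul_eq_mul]
  exact eval_flat (flat_f hf a ha i) z s

lemma smul_tau [CharZero K] (hf : IsGraph I δ o C f) (a : σ → K) (ha : ∀ l ∈ C, FlatAt a (f l))
    (z : σ → K) (t : K) (ht : t ≠ 0) (l : σ) (hl : l ∈ C) :
    t • tau o f l (z + t⁻¹ • a) =
      (- grad (dd a (f l)) z + (dotB σ K (grad (dd a (f l)) z) z) • Pi.single o 1)
        + t • tau o f l z := by
  have h1 := grad_flat (ha l hl) z t⁻¹
  have h2 := eval_flat (ha l hl) z t⁻¹
  have h3 := grad_dd_self (ha l hl) z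
  rw [tau, tau, h1, h2, eval_dd]
  simp only [map_add, map_smul, LinearMap.add_apply, LinearMap.smul_apply, smul_eq_mul, h3,
    mul_zero, add_zero]
  funext i
  simp only [Pi.add_apply, Pi.smul_apply, Pi.sub_apply, Pi.neg_apply, smul_eq_mul]
  field_simp
  ring

/-- Limits of conormal vectors at the points at infinity. -/
lemma limit_mem [IsAlgClosed K] [CharZero K] (h : Adapted I r δ o C) (hf : IsGraph I δ o C f)
    (a : σ → K) (ha : ∀ l ∈ C, FlatAt a (f l)) (z : σ → K) (hne : dpt f a z ≠ 0)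
    (l : σ) (hl : l ∈ C) :
    (- grad (dd a (f l)) z + (dotB σ K (grad (dd a (f l)) z) z) • Pi.single o 1) ∈
      conormal I (dpt f a z) := by
  apply conormal_closed I r h.rank (dpt f a z) (pt f z) hne _ (tau o f l z)
  intro t ht
  have h1 : dpt f a z + t • pt f z = t • pt f (z + t⁻¹ • a) := by
    rw [pt_line hf a ha, smul_add, smul_smul, mul_inv_cancel₀ ht, one_smul, add_comm]
  rw [h1, ← smul_tau hf a ha z t ht l hl, conormal_smul I h.homog t ht]
  exact ⟨cone_smul I h.homog _ _ (h.pt_mem hf _), Submodule.smul_mem _ _ (h.tau_mem hf l hl _)⟩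

lemma dpt_mem [IsAlgClosed K] [CharZero K] (h : Adapted I r δ o C) (hf : IsGraph I δ o C f)
    (a : σ → K) (ha : ∀ l ∈ C, FlatAt a (f l)) (z : σ → K) : dpt f a z ∈ cone I := by
  apply (cone_of_line I (dpt f a z) (pt f z) _).1
  intro t ht
  have h1 : dpt f a z + t • pt f z = t • pt f (z + t⁻¹ • a) := by
    rw [pt_line hf a ha, smul_add, smul_smul, mul_inv_cancel₀ ht, one_smul, add_comm]
  rw [h1]
  exact cone_smul I h.homog _ _ (h.pt_mem hf _)

/-- no linear terms -/
lemma grad_zero [IsAlgClosed K] [CharZero K] (h : Adapted I r δ o C) (hf : IsGraph I δ o C f)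
    (l : σ) (hl : l ∈ C) : grad (f l) 0 = 0 := by
  have hlo : l ≠ o := by rintro rfl; exact h.oC hl
  have hpt : pt f 0 = Pi.single o 1 := by
    funext i
    by_cases hi : i ∈ C
    · rw [pt, h.coeff_zero_f hf i hi, Pi.single_apply, if_neg]
      rintro rfl; exact h.oC hi
    · by_cases hio : i = o
      · rw [hio, pt_o hf]; simp
      · rw [pt_N hf 0 i hi hio, Pi.single_apply, if_neg hio]; rfl
  have h1 := h.tau_mem hf l hl 0
  rw [hpt, h.conor] at h1
  funext i
  by_cases hi : i ∈ C ∨ i = o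
  · rw [grad_f_zero hf l hl 0 i hi]; rfl
  · rw [not_or] at hi
    have h2 := h1 i hi.1
    rw [tau] at h2
    simp only [Pi.add_apply, Pi.sub_apply, Pi.smul_apply, smul_eq_mul, Pi.single_apply] at h2
    rw [if_neg (by rintro rfl; exact hi.1 hl), if_neg hi.2] at h2
    simp only [Pi.zero_apply]
    linear_combination -h2

/-- The bilinear form `B_l(a)`. -/
noncomputable def BB (f : σ → MvPolynomial σ K) (l : σ) (a : σ → K) : σ → K :=
  grad (dd a (f l)) 0

lemma BB_add (l : σ) (a b : σ → K) : BB f l (a + b) = BB f l a + BB f l b := by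
  funext i
  simp [BB, grad, dd_add]

lemma BB_smul (l : σ) (c : K) (a : σ → K) : BB f l (c • a) = c • BB f l a := by
  funext i
  simp [BB, grad, dd_smul, pderiv_C_mul]

end Adapted

end Pool.Agent.H929R2.Hart
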