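import Pool.Agent.H929R2.Hart.Source
import Pool.Agent.H929R2.Hart.Gen

set_option autoImplicit false
set_option maxHeartbeats 400000

namespace Pool.Agent.H929R2.Hart

open MvPolynomial

variable {σ : Type} [Fintype σ] [DecidableEq σ] {K : Type} [Field K]

theorem main_distinct [IsAlgClosed K] [CharZero K] (n r : ℕ) (hσ : Fintype.card σ = n + 1)
    (hn : 6 * r ≤ n) (I : Ideal (MvPolynomial σ K))
    (hI : I.IsPrime) (hom : ∀ F ∈ I, ∀ d, homogeneousComponent d F ∈ I)
    (hne : ∃ x ∈ cone I, x ≠ 0)
    (hr : ∀ x ∈ cone I, x ≠ 0 → Module.finrank K (conormal I x) = r)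
    (w : σ → ℤ) (hw : Function.Injective w)
    (hst : ∀ t : K, t ≠ 0 → ∀ x ∈ cone I, (fun i => t ^ w i * x i) ∈ cone I) :
    IsCI r I := by
  classical
  set Z : Finset σ := Finset.univ.filter (fun l => (X l : MvPolynomial σ K) ∈ I) with hZdef
  have hZ : ∀ l, l ∈ Z ↔ (X l : MvPolynomial σ K) ∈ I := by intro l; simp [hZdef]
  have hZne : (Zᶜ : Finset σ).Nonempty := by
    obtain ⟨x, hx, hx0⟩ := hne
    obtain ⟨m, hm⟩ := Function.ne_iff.1 hx0
    refine ⟨m, ?_⟩
    rw [Finset.mem_compl, hZ]
    intro h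
    have := hx _ h
    rw [eval_X] at this
    exact hm this
  obtain ⟨o, ho, hmin⟩ := Finset.exists_min_image _ w hZne
  obtain ⟨M, hM, hmax⟩ := Finset.exists_max_image _ w hZne
  rw [Finset.mem_compl] at ho hM
  have hmin' : ∀ i, i ∉ Z → w o ≤ w i := fun i hi => hmin i (Finset.mem_compl.2 hi)
  have hmax' : ∀ i, i ∉ Z → w i ≤ w M := fun i hi => hmax i (Finset.mem_compl.2 hi)
  apply isCI_of_card r I hI hom hr hne Z (fun l hl => (hZ l).1 hl)
  have hcount : n - Z.card ≤
      (Finset.univ.filter (fun j => j ∉ Z ∧ w M - w o < 2 * (w j - w o))).card +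
      (Finset.univ.filter (fun j => j ∉ Z ∧ -w o - -w M < 2 * (-w j - -w M))).card := by
    have h1 : (Zᶜ : Finset σ) ⊆
        (Finset.univ.filter (fun j => j ∉ Z ∧ w M - w o < 2 * (w j - w o))) ∪
        (Finset.univ.filter (fun j => j ∉ Z ∧ -w o - -w M < 2 * (-w j - -w M))) ∪
        (Finset.univ.filter (fun j => 2 * w j = w M + w o)) := by
      intro j hj
      rw [Finset.mem_compl] at hj
      simp only [Finset.mem_union, Finset.mem_filter, Finset.mem_univ, true_and]
      rcases lt_trichotomy (2 * w j) (w M + w o) with h | h | h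
      · left; right; exact ⟨hj, by omega⟩
      · right; exact h
      · left; left; exact ⟨hj, by omega⟩
    have h2 := Finset.card_le_card h1
    have h3 := Finset.card_union_le
      ((Finset.univ.filter (fun j => j ∉ Z ∧ w M - w o < 2 * (w j - w o))) ∪
        (Finset.univ.filter (fun j => j ∉ Z ∧ -w o - -w M < 2 * (-w j - -w M))))
      (Finset.univ.filter (fun j => 2 * w j = w M + w o))
    have h4 := Finset.card_union_le
      (Finset.univ.filter (fun j => j ∉ Z ∧ w M - w o < 2 * (w j - w o)))
      (Finset.univ.filter (fun j => j ∉ Z ∧ -w o - -w M < 2 * (-w j - -w M)))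
    have h5 : (Finset.univ.filter (fun j => 2 * w j = w M + w o)).card ≤ 1 := by
      rw [Finset.card_le_one]
      intro a ha b hb
      rw [Finset.mem_filter] at ha hb
      exact hw (by omega)
    rw [Finset.card_compl, hσ] at h2
    omega
  rcases Nat.lt_or_ge
    (Finset.univ.filter (fun j => j ∉ Z ∧ w M - w o < 2 * (w j - w o))).card
    (3 * (r - Z.card)) with hlt | hge
  · apply source_case r I hI hom hr Z hZ (fun i => - w i)
      (fun i _ j _ hij => hw (neg_injective hij)) ?_ M o hM ho ?_ ?_ ?_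
    · intro t ht x hx
      have := hst t⁻¹ (inv_ne_zero ht) x hx
      simpa [inv_zpow, zpow_neg] using this
    · intro i hi; simpa using hmax' i hi
    · intro i hi; simpa using hmin' i hi
    · show 3 * (r - Z.card) ≤
        (Finset.univ.filter (fun j => j ∉ Z ∧ -w o - -w M < 2 * (-w j - -w M))).card
      omega
  · exact source_case r I hI hom hr Z hZ w (fun i _ j _ hij => hw hij) hst o M ho hM hmin' hmax'
      hge

end Pool.Agent.H929R2.Hart
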