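import Pool.Agent.H929R2.Hart.Graph

set_option autoImplicit false
set_option maxHeartbeats 400000

namespace Pool.Agent.H929R2.Hart

open MvPolynomial

variable {σ : Type} [Fintype σ] [DecidableEq σ] {K : Type} [Field K]

/-- `f` describes the chart `x_o = 1` as a graph. -/
structure IsGraph (I : Ideal (MvPolynomial σ K)) (δ : σ → ℕ) (o : σ) (C : Finset σ)
    (f : σ → MvPolynomial σ K) : Prop where
  wh : ∀ l ∈ C, IsWeightedHomogeneous δ (f l) (δ l)
  supp : ∀ l ∈ C, f l ∈ supported K {i | i ∉ C ∧ i ≠ o}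
  fo : f o = 1
  fN : ∀ i, i ∉ C → i ≠ o → f i = X i
  eqn : ∀ x ∈ cone I, x o = 1 → ∀ l ∈ C, x l = eval x (f l)

lemma pderiv_supported {s : Set σ} {p : MvPolynomial σ K} (hp : p ∈ supported K s) (i : σ)
    (hi : i ∉ s) : pderiv i p = 0 := by
  apply pderiv_eq_zero_of_notMem_vars
  intro hcon
  exact hi (mem_supported.1 hp hcon)

lemma pderiv_mem_supported {s : Set σ} {p : MvPolynomial σ K} (hp : p ∈ supported K s) (i : σ) :
    pderiv i p ∈ supported K s := by
  rw [mem_supported] at hp ⊢
  intro j hj
  rw [Finset.mem_coe, mem_vars] at hj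
  obtain ⟨d, hd, hjd⟩ := hj
  apply hp
  rw [Finset.mem_coe, mem_vars]
  refine ⟨d + Finsupp.single i 1, ?_, ?_⟩
  · rw [mem_support_iff] at hd ⊢
    rw [coeff_pderiv] at hd
    exact left_ne_zero_of_mul hd
  · rw [Finsupp.mem_support_iff] at hjd ⊢
    rw [Finsupp.add_apply]
    omega

lemma eval_congr_supported {s : Set σ} {p : MvPolynomial σ K} (hp : p ∈ supported K s)
    (x y : σ → K) (hxy : ∀ i ∈ s, x i = y i) : eval x p = eval y p := by
  rw [mem_supported] at hp
  exact eval₂Hom_congr' rfl (fun i hi _ => hxy i (hp hi)) rfl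

lemma aeval_fix_supported {s : Set σ} {p : MvPolynomial σ K} (hp : p ∈ supported K s)
    (f : σ → MvPolynomial σ K) (hf : ∀ i ∈ s, f i = X i) : aeval f p = p := by
  rw [mem_supported] at hp
  conv_rhs => rw [← aeval_X_left_apply p]
  exact eval₂Hom_congr' rfl (fun i hi _ => hf i (hp hi)) rfl

namespace Adapted

variable {I : Ideal (MvPolynomial σ K)} {r : ℕ} {δ : σ → ℕ} {o : σ} {C : Finset σ}
  {f : σ → MvPolynomial σ K}

/-- Euler: the cone point is tangent at itself. -/
lemma self_mem_tangent [Infinite K] (h : Adapted I r δ o C) (x : σ → K) (hx : x ∈ cone I) :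
    x ∈ tangent I x := by
  apply (cone_of_line I x x _).2
  intro t _
  have : x + t • x = (1 + t) • x := by rw [add_smul, one_smul]
  rw [this]
  exact cone_smul I h.homog _ x hx

lemma tangent_graph [IsAlgClosed K] (h : Adapted I r δ o C) (hf : IsGraph I δ o C f)
    (x : σ → K) (hx : x ∈ cone I) (hxo : x o = 1) (v : σ → K) (hv : v ∈ tangent I x)
    (hvo : v o = 0) (l : σ) (hl : l ∈ C) : v l = ∑ j, eval x (pderiv j (f l)) * v j := by
  obtain ⟨F, hF, hF1, _⟩ := h.lift (X l - f l) (fun y hy hyo => by
    rw [map_sub, eval_X, hf.eqn y hy hyo l hl, sub_self])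
  have h1 := (mem_tangent I x v).1 hv F hF
  rw [dotB_apply] at h1
  have h2 : ∀ j, grad F x j * v j = (Pi.single l 1 : σ → K) j * v j
      - eval x (pderiv j (f l)) * v j := by
    intro j
    by_cases hj : j = o
    · rw [hj, hvo]; ring
    · rw [grad, (hF1 x hxo).2 j hj, map_sub, map_sub, pderiv_X, sub_mul]
      congr 2
      by_cases hjl : j = l
      · subst hjl; simp
      · simp [hjl]
  rw [Finset.sum_congr rfl (fun j _ => h2 j), Finset.sum_sub_distrib] at h1
  have h3 : ∑ j, (Pi.single l 1 : σ → K) j * v j = v l := by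
    simp [Pi.single_apply]
  rw [h3] at h1
  linear_combination h1

lemma tangent_vec [IsAlgClosed K] (h : Adapted I r δ o C) (hf : IsGraph I δ o C f)
    (x : σ → K) (hx : x ∈ cone I) (hxo : x o = 1) (i : σ) (hi : i ∉ C) (hio : i ≠ o) :
    (fun j => eval x (pderiv i (f j))) ∈ tangent I x := by
  classical
  have hx0 : x ≠ 0 := by
    intro h0; rw [h0] at hxo; simp at hxo
  let ρ : tangent I x →ₗ[K] ({j // j ∉ C} → K) :=
    (LinearMap.funLeft K K (fun j : {j // j ∉ C} => (j : σ))).comp (tangent I x).subtype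
  have hinj : Function.Injective ρ := by
    rw [← LinearMap.ker_eq_bot, LinearMap.ker_eq_bot']
    intro v hv
    have hv0 : ∀ j, j ∉ C → (v : σ → K) j = 0 := fun j hj => congrFun hv ⟨j, hj⟩
    ext j
    by_cases hj : j ∈ C
    · rw [h.tangent_graph hf x hx hxo v v.2 (hv0 o h.oC) j hj]
      simp only [Submodule.coe_zero, Pi.zero_apply]
      refine Finset.sum_eq_zero (fun k _ => ?_)
      by_cases hk : k ∈ C
      · rw [pderiv_supported (hf.supp j hj) k (by simp [hk]), map_zero, zero_mul]
      · rw [hv0 k hk, mul_zero]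
    · simpa using hv0 j hj
  have hdim : Module.finrank K (tangent I x) = Module.finrank K ({j // j ∉ C} → K) := by
    have h1 := finrank_tangent I x
    rw [h.rank x hx hx0] at h1
    rw [Module.finrank_fintype_fun_eq_card]
    have h2 : Fintype.card {j // j ∉ C} = Fintype.card σ - C.card := by
      rw [Fintype.card_subtype_compl (fun j => j ∈ C)]
      simp
    rw [h2, h.card]
    omega
  have hsurj : Function.Surjective ρ :=
    (LinearMap.injective_iff_surjective_of_finrank_eq_finrank hdim).1 hinj
  obtain ⟨v, hv⟩ := hsurj (fun j => (Pi.single i 1 : σ → K) j)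
  have hv0 : ∀ j, j ∉ C → (v : σ → K) j = (Pi.single i 1 : σ → K) j :=
    fun j hj => congrFun hv ⟨j, hj⟩
  have hvo : (v : σ → K) o = 0 := by rw [hv0 o h.oC, Pi.single_apply, if_neg hio.symm]
  have hveq : (fun j => eval x (pderiv i (f j))) = (v : σ → K) := by
    funext j
    by_cases hj : j ∈ C
    · rw [h.tangent_graph hf x hx hxo v v.2 hvo j hj, Finset.sum_eq_single i]
      · rw [hv0 i hi, Pi.single_eq_same, mul_one]
      · intro k _ hki
        by_cases hk : k ∈ C
        · rw [pderiv_supported (hf.supp j hj) k (by simp [hk]), map_zero, zero_mul]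
        · rw [hv0 k hk, Pi.single_apply, if_neg hki, mul_zero]
      · intro hcon; exact absurd (Finset.mem_univ i) hcon
    · rw [hv0 j hj]
      by_cases hjo : j = o
      · rw [hjo, hf.fo, Pi.single_apply, if_neg hio.symm]; simp
      · rw [hf.fN j hj hjo, pderiv_X]
        by_cases hij : j = i
        · subst hij; simp
        · simp [hij]
  rw [hveq]; exact v.2

lemma f_supported (hf : IsGraph I δ o C f) (j : σ) : f j ∈ supported K {i | i ∉ C ∧ i ≠ o} := by
  by_cases hj : j ∈ C
  · exact hf.supp j hj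
  · by_cases hjo : j = o
    · rw [hjo, hf.fo]; exact Subalgebra.one_mem _
    · rw [hf.fN j hj hjo, X_mem_supported]; exact ⟨hj, hjo⟩

lemma exists_deriv [IsAlgClosed K] (h : Adapted I r δ o C) (hf : IsGraph I δ o C f)
    (F : MvPolynomial σ K) (hF : F ∈ I) (i : σ) (hi : i ∉ C) (hio : i ≠ o) :
    ∃ F' ∈ I, aeval f F' = pderiv i (aeval f F) := by
  obtain ⟨F', hF', _, h2⟩ := h.lift (∑ j, pderiv j F * pderiv i (f j)) (fun x hx hxo => by
    have h1 := (mem_tangent I x _).1 (h.tangent_vec hf x hx hxo i hi hio) F hF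
    rw [dotB_apply] at h1
    rw [map_sum, ← h1]
    exact Finset.sum_congr rfl (fun j _ => by rw [map_mul, grad]))
  refine ⟨F', hF', ?_⟩
  rw [h2 f hf.fo, map_sum, deriv_aeval (pderiv i) f F]
  refine Finset.sum_congr rfl (fun j _ => ?_)
  rw [map_mul, aeval_fix_supported (pderiv_mem_supported (f_supported hf j) i) f
    (fun k hk => hf.fN k hk.1 hk.2)]

lemma coeff_zero_f (h : Adapted I r δ o C) (hf : IsGraph I δ o C f) (l : σ) (hl : l ∈ C)
    : eval (0 : σ → K) (f l) = 0 := by
  have hlo : l ≠ o := by rintro rfl; exact h.oC hl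
  have h1 := h.single_eval (m := δ l) (h.wtpos l hlo).ne' (hf.wh l hl)
  rw [← h1]
  apply eval_congr_supported (hf.supp l hl)
  intro i hi
  rw [Pi.single_apply, if_neg hi.2]; rfl

/-- The graph satisfies all the equations in `I`. -/
lemma aeval_zero [IsAlgClosed K] [CharZero K] (h : Adapted I r δ o C) (hf : IsGraph I δ o C f) :
    ∀ F ∈ I, aeval f F = 0 := by
  have key : ∀ n : ℕ, ∀ d : σ →₀ ℕ, d.degree = n → ∀ F ∈ I, coeff d (aeval f F) = 0 := by
    intro n
    induction n with
    | zero =>
      intro d hd F hF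
      have hd0 : d = 0 := (Finsupp.degree_eq_zero_iff d).1 hd
      subst hd0
      have h1 : coeff 0 (aeval f F) = eval (0 : σ → K) (aeval f F) := by
        rw [← constantCoeff_eq, ← eval_zero]
      rw [h1, eval_aeval]
      have h2 : (fun i => eval (0 : σ → K) (f i)) = Pi.single o 1 := by
        funext i
        by_cases hi : i ∈ C
        · rw [h.coeff_zero_f hf i hi, Pi.single_apply, if_neg]
          rintro rfl; exact h.oC hi
        · by_cases hio : i = o
          · rw [hio, hf.fo]; simp
          · rw [hf.fN i hi hio, Pi.single_apply, if_neg hio]; simp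
      rw [h2]
      exact h.base F hF
    | succ n ihn =>
      intro d hd F hF
      by_contra hne
      have hd0 : d ≠ 0 := by rintro rfl; simp at hd
      obtain ⟨i, hi⟩ : ∃ i, d i ≠ 0 := by
        by_contra hcon
        push Not at hcon
        exact hd0 (Finsupp.ext hcon)
      have hsup := aeval_mem_subalgebra _ f (f_supported hf) F
      have hiv : i ∈ (aeval f F).vars := by
        rw [mem_vars]
        exact ⟨d, mem_support_iff.2 hne, Finsupp.mem_support_iff.2 hi⟩
      have hiN := (mem_supported.1 hsup) hiv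
      obtain ⟨F', hF', hF'e⟩ := h.exists_deriv hf F hF i hiN.1 hiN.2
      have hdd : d - Finsupp.single i 1 + Finsupp.single i 1 = d := by
        ext j
        rw [Finsupp.add_apply, Finsupp.tsub_apply]
        by_cases hj : i = j
        · subst hj; simp; omega
        · simp [Finsupp.single_apply, hj]
      have h3 := ihn (d - Finsupp.single i 1) (by
        have h4 := congrArg Finsupp.degree hdd
        rw [map_add, Finsupp.degree_single, hd] at h4
        omega) F' hF'
      rw [hF'e, coeff_pderiv, hdd] at h3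
      rcases mul_eq_zero.1 h3 with h4 | h4
      · exact hne h4
      · have : ((((d - Finsupp.single i 1 : σ →₀ ℕ) i) + 1 : ℕ) : K) = 0 := by push_cast; exact h4
        exact Nat.cast_ne_zero.2 (Nat.succ_ne_zero _) this
  intro F hF
  ext d
  rw [coeff_zero]
  exact key _ d rfl F hF

end Adapted

end Pool.Agent.H929R2.Hart
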