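import Pool.Agent.H929R2.Hart.CoreThm

set_option autoImplicit false
set_option maxHeartbeats 400000

namespace Pool.Agent.H929R2.Hart

open MvPolynomial

variable {σ : Type} [Fintype σ] [DecidableEq σ] {K : Type} [Field K]

omit [DecidableEq σ] in
/-- The limit point `t → 0`. -/
lemma flow_limit [Infinite K] (I : Ideal (MvPolynomial σ K)) (δ : σ → ℕ) (x : σ → K)
    (h : ∀ t : K, t ≠ 0 → (fun i => t ^ δ i * x i) ∈ cone I) :
    (fun i => (0 : K) ^ δ i * x i) ∈ cone I := by
  intro F hF
  have hev : ∀ t : K, (aeval (fun i => Polynomial.X ^ δ i * Polynomial.C (x i)) F :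
      Polynomial K).eval t = eval (fun i => t ^ δ i * x i) F := by
    intro t
    have : (Polynomial.evalRingHom t).comp (aeval (R := K)
        (fun i => Polynomial.X ^ δ i * Polynomial.C (x i))).toRingHom
        = eval (fun i => t ^ δ i * x i) := by
      apply MvPolynomial.ringHom_ext
      · intro c; simp
      · intro i
        simp only [RingHom.comp_apply, AlgHom.toRingHom_eq_coe, RingHom.coe_coe, aeval_X,
          Polynomial.coe_evalRingHom, Polynomial.eval_mul, Polynomial.eval_pow, Polynomial.eval_X,
          Polynomial.eval_C, eval_X]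
    exact RingHom.congr_fun this F
  rw [← hev 0, poly_eq_zero (aeval (fun i => Polynomial.X ^ δ i * Polynomial.C (x i)) F)
    (fun t ht => by rw [hev]; exact h t ht F hF), Polynomial.eval_zero]

lemma single_eval' {δ : σ → ℕ} {o : σ} (h0 : δ o = 0) {φ : MvPolynomial σ K}
    {m : ℕ} (hm : m ≠ 0)
    (hφ : IsWeightedHomogeneous δ φ m) : eval (Pi.single o (1:K)) φ = 0 := by
  have h1 := eval_wscale hφ 0 (Pi.single o (1:K))
  have h2 : (fun i => (0:K) ^ δ i * (Pi.single o (1:K) : σ → K) i) = Pi.single o 1 := by
    ext i
    by_cases hi : i = o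
    · subst hi; simp [h0]
    · simp [hi]
  rw [h2, zero_pow hm, zero_mul] at h1
  exact h1

lemma grad_wcomp' {δ : σ → ℕ} {o : σ} (h0 : δ o = 0) (F : MvPolynomial σ K) (i : σ) :
    eval (Pi.single o (1:K)) (pderiv i F) =
      eval (Pi.single o (1:K)) (pderiv i (weightedHomogeneousComponent δ (δ i) F)) := by
  conv_lhs => rw [← sum_wcomp δ F (weightedTotalDegree δ F + 1 + δ i + 1) (by omega), map_sum,
    map_sum]
  rw [Finset.sum_eq_single (δ i)]
  · intro m _ hm
    have hF := weightedHomogeneousComponent_isWeightedHomogeneous (w := δ) m F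
    rcases lt_or_gt_of_ne hm with hlt | hgt
    · rw [pderiv_eq_zero_of_lt hF i hlt, map_zero]
    · exact single_eval' h0 (m := m - δ i) (by omega) (hF.pderiv (by omega))
  · intro hcon
    simp only [Finset.mem_range, not_lt] at hcon
    omega

/-- the gradient of a weighted component at `e_o` -/
lemma grad_comp_apply {δ : σ → ℕ} {o : σ} (h0 : δ o = 0) (F : MvPolynomial σ K) (m : ℕ) (i : σ) :
    grad (weightedHomogeneousComponent δ m F) (Pi.single o (1:K)) i =
      if δ i = m then grad F (Pi.single o (1:K)) i else 0 := by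
  by_cases hi : δ i = m
  · rw [if_pos hi, grad, grad, grad_wcomp' h0 F i, hi]
  · rw [if_neg hi, grad]
    have hF := weightedHomogeneousComponent_isWeightedHomogeneous (w := δ) m F
    rcases lt_or_gt_of_ne hi with hlt | hgt
    · exact single_eval' h0 (m := m - δ i) (by omega) (hF.pderiv (by omega))
    · rw [pderiv_eq_zero_of_lt hF i hgt, map_zero]

/-- The case where at least `3 (r - |Z|)` coordinates are close to the sink. -/
theorem source_case [IsAlgClosed K] [CharZero K] (r : ℕ) (I : Ideal (MvPolynomial σ K))
    (hI : I.IsPrime) (hom : ∀ F ∈ I, ∀ d, homogeneousComponent d F ∈ I)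
    (hr : ∀ x ∈ cone I, x ≠ 0 → Module.finrank K (conormal I x) = r)
    (Z : Finset σ) (hZ : ∀ l, l ∈ Z ↔ (X l : MvPolynomial σ K) ∈ I)
    (w : σ → ℤ) (hw : ∀ i, i ∉ Z → ∀ j, j ∉ Z → w i = w j → i = j)
    (hst : ∀ t : K, t ≠ 0 → ∀ x ∈ cone I, (fun i => t ^ w i * x i) ∈ cone I)
    (o M : σ) (ho : o ∉ Z) (hM : M ∉ Z) (hmin : ∀ i, i ∉ Z → w o ≤ w i)
    (hmax : ∀ i, i ∉ Z → w i ≤ w M)
    (hcount : 3 * (r - Z.card) ≤
      (Finset.univ.filter (fun j => j ∉ Z ∧ w M - w o < 2 * (w j - w o))).card) :
    r ≤ Z.card + 1 := by
  classical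
  set δ : σ → ℕ := fun i => if i ∈ Z then 1 else (w i - w o).toNat with hδ
  have hδZ : ∀ i, i ∉ Z → (δ i : ℤ) = w i - w o := by
    intro i hi
    simp only [hδ, if_neg hi]
    have := hmin i hi
    omega
  have hδ0 : δ o = 0 := by
    have := hδZ o ho
    omega
  have hpos : ∀ i, i ≠ o → 0 < δ i := by
    intro i hio
    by_cases hi : i ∈ Z
    · simp [hδ, hi]
    · have h1 := hδZ i hi
      have h2 := hmin i hi
      have h3 : w i ≠ w o := fun h => hio (hw i hi o ho h)
      omega
  have hxZ : ∀ x ∈ cone I, ∀ i ∈ Z, x i = 0 := by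
    intro x hx i hi
    have := hx _ ((hZ i).1 hi)
    rwa [eval_X] at this
  have hstδ : ∀ t : K, t ≠ 0 → ∀ x ∈ cone I, (fun i => t ^ δ i * x i) ∈ cone I := by
    intro t ht x hx
    have h1 := cone_smul I hom (t ^ (-w o)) _ (hst t ht x hx)
    have h2 : (fun i => t ^ δ i * x i) = t ^ (-w o) • (fun i => t ^ w i * x i) := by
      funext i
      rw [Pi.smul_apply, smul_eq_mul]
      by_cases hi : i ∈ Z
      · rw [hxZ x hx i hi]; ring
      · rw [← mul_assoc, ← zpow_add₀ ht]
        congr 1
        have h3 : -w o + w i = (δ i : ℤ) := by rw [hδZ i hi]; ring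
        rw [h3, zpow_natCast]
    rw [h2]; exact h1
  -- the base point
  have hbase : (Pi.single o 1 : σ → K) ∈ cone I := by
    have hXo : (X o : MvPolynomial σ K) ∉ I := fun h => ho ((hZ o).2 h)
    obtain ⟨x, hx, hxo⟩ : ∃ x ∈ cone I, x o ≠ 0 := by
      by_contra hcon
      push Not at hcon
      exact hXo (mem_of_vanish I hI _ (fun x hx => by rw [eval_X]; exact hcon x hx))
    have h1 := flow_limit I δ x (fun t ht => hstδ t ht x hx)
    have h2 := cone_smul I hom (x o)⁻¹ _ h1
    have h3 : (Pi.single o 1 : σ → K) = (x o)⁻¹ • (fun i => (0 : K) ^ δ i * x i) := by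
      funext i
      rw [Pi.smul_apply, smul_eq_mul, Pi.single_apply]
      by_cases hi : i = o
      · rw [if_pos hi, hi, hδ0, pow_zero, one_mul, inv_mul_cancel₀ hxo]
      · rw [if_neg hi, zero_pow (hpos i hi).ne', zero_mul, mul_zero]
    rw [h3]; exact h2
  have hbase0 : (Pi.single o 1 : σ → K) ≠ 0 := by
    intro h0
    have := congrFun h0 o
    simp at this
  -- the conormal space at the base point
  have hgraded : ∀ ξ ∈ conormal I (Pi.single o (1:K)), ∀ i, i ∉ Z →
      ξ i • (Pi.single i 1 : σ → K) ∈ conormal I (Pi.single o (1:K)) := by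
    intro ξ hξ i hi
    obtain ⟨F, hF, rfl⟩ := exists_grad I _ _ hξ
    have h1 := grad_mem I (Pi.single o (1:K)) (wcomp_mem I hI δ hstδ F hF (δ i))
    have h2 : grad F (Pi.single o (1:K)) i • (Pi.single i 1 : σ → K) =
        grad (weightedHomogeneousComponent δ (δ i) F) (Pi.single o (1:K)) -
        ∑ k ∈ Z, (if δ k = δ i then grad F (Pi.single o (1:K)) k else 0) •
          (Pi.single k 1 : σ → K) := by
      funext m
      rw [Pi.sub_apply, grad_comp_apply hδ0, Finset.sum_apply]
      simp only [Pi.smul_apply, smul_eq_mul, Pi.single_apply, mul_ite, mul_one, mul_zero]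
      rw [Finset.sum_ite_eq]
      by_cases hm : m ∈ Z
      · have hmi : m ≠ i := by rintro rfl; exact hi hm
        rw [if_neg hmi, if_pos hm, sub_self]
      · rw [if_neg hm, sub_zero]
        by_cases hmi : m = i
        · subst hmi; simp
        · rw [if_neg hmi, if_neg]
          intro h3
          apply hmi
          apply hw m hm i hi
          have h4 := hδZ m hm
          have h5 := hδZ i hi
          omega
    rw [h2]
    refine Submodule.sub_mem _ h1 (Submodule.sum_mem _ (fun k hk => Submodule.smul_mem _ _ ?_))
    rw [← grad_X k (Pi.single o (1:K))]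
    exact grad_mem I _ ((hZ k).1 hk)
  set C : Finset σ := Finset.univ.filter
    (fun l => (Pi.single l 1 : σ → K) ∈ conormal I (Pi.single o (1:K))) with hC
  have hmemC : ∀ l, l ∈ C ↔ (Pi.single l 1 : σ → K) ∈ conormal I (Pi.single o (1:K)) := by
    intro l; simp [hC]
  have hZC : Z ⊆ C := by
    intro l hl
    rw [hmemC, ← grad_X l (Pi.single o (1:K))]
    exact grad_mem I _ ((hZ l).1 hl)
  have hconor : conormal I (Pi.single o (1:K)) = cs K C := by
    apply le_antisymm
    · intro ξ hξ i hi
      by_contra h0
      apply hi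
      have hiZ : i ∉ Z := fun h => hi (hZC h)
      rw [hmemC]
      exact (Submodule.smul_mem_iff _ h0).1 (hgraded ξ hξ i hiZ)
    · intro ξ hξ
      rw [eq_sum_single ξ]
      refine Submodule.sum_mem _ (fun i _ => ?_)
      by_cases hi : i ∈ C
      · exact Submodule.smul_mem _ _ ((hmemC i).1 hi)
      · rw [hξ i hi, zero_smul]; exact Submodule.zero_mem _
  have hcard : C.card = r := by
    rw [← hr _ hbase hbase0, hconor, finrank_cs]
  have hoC : o ∉ C := by
    intro h
    have h1 : (Pi.single o 1 : σ → K) ∈ tangent I (Pi.single o 1) := by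
      apply (cone_of_line I _ (Pi.single o 1) _).2
      intro t _
      have : (Pi.single o 1 : σ → K) + t • Pi.single o 1 = (1 + t) • Pi.single o 1 := by
        rw [add_smul, one_smul]
      rw [this]
      exact cone_smul I hom _ _ hbase
    have h2 := tangent_conormal I _ ((hmemC o).1 h) h1
    rw [dotB_single] at h2
    simp at h2
  have had : Adapted I r δ o C :=
    { prime := hI
      homog := hom
      rank := hr
      wt0 := hδ0
      wtpos := hpos
      stable := hstδ
      base := hbase
      oC := hoC
      card := hcard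
      conor := fun ξ => by rw [hconor]; rfl }
  obtain ⟨f, hf1, hf2, hf3, hf4, hf5⟩ := had.exists_graph
  have hf : IsGraph I δ o C f := ⟨hf1, hf2, hf3, hf4, hf5⟩
  -- the isotropic space
  set D : ℕ := (w M - w o).toNat with hD
  have hDM : ∀ i, i ∉ Z → δ i ≤ D := by
    intro i hi
    have h1 := hδZ i hi
    have h2 := hmax i hi
    omega
  set T : Finset σ := Finset.univ.filter (fun j => j ∉ C ∧ D < 2 * δ j) with hT
  set A : Submodule K (σ → K) := cs K T with hA
  have hflat : ∀ a ∈ A, ∀ l ∈ C, FlatAt a (f l) := by
    intro a ha l hl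
    by_cases hlZ : l ∈ Z
    · rw [had.f_Z hf l ((hZ l).1 hlZ)]
      simp [FlatAt, dd]
    · apply flat_of_weight (hf1 l hl)
      intro i hi
      have hiT : i ∈ T := by
        by_contra h; exact hi (ha i h)
      rw [hT, Finset.mem_filter] at hiT
      have := hDM l hlZ
      omega
  have hcore : Core I o C Z f A :=
    { iso := ⟨fun a ha i hi => by
        apply ha
        rw [hT, Finset.mem_filter]
        rintro ⟨_, h1, h2⟩
        rcases hi with hi | hi
        · exact h1 hi
        · rw [hi, hδ0] at h2; omega, hflat⟩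
      ZC := hZC
      memZ := fun l hl => (hZ l).1 hl
      nondeg := by
        intro u hu hP
        funext i
        by_cases hi : i ∈ C \ Z
        · have hiZ := (Finset.mem_sdiff.1 hi).2
          by_contra h0
          apply hiZ
          have h1 := wcomp_mem I hI δ hstδ _ hP (δ i)
          rw [map_sum, Finset.sum_eq_single i] at h1
          · have h2 : weightedHomogeneousComponent δ (δ i) (MvPolynomial.C (u i) * X i) =
                MvPolynomial.C (u i) * X i := by
              rw [weightedHomogeneousComponent_C_mul]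
              congr 1
              exact (isWeightedHomogeneous_X K δ i).weightedHomogeneousComponent_same
            rw [h2] at h1
            rw [hZ]
            have h3 := I.mul_mem_left (MvPolynomial.C (u i)⁻¹) h1
            rw [← mul_assoc, ← map_mul, inv_mul_cancel₀ h0, map_one, one_mul] at h3
            exact h3
          · intro k _ hki
            by_cases hk : k ∈ C \ Z
            · have hkZ := (Finset.mem_sdiff.1 hk).2
              rw [weightedHomogeneousComponent_C_mul]
              have h3 : δ k ≠ δ i := by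
                intro h4
                apply hki
                apply hw k hkZ i hiZ
                have h5 := hδZ k hkZ
                have h6 := hδZ i hiZ
                omega
              rw [(isWeightedHomogeneous_X K δ k).weightedHomogeneousComponent_ne _ h3.symm,
                mul_zero]
            · rw [hu k hk, map_zero, zero_mul, map_zero]
          · intro h; exact absurd (Finset.mem_univ i) h
        · exact hu i hi
      dim := by
        rw [hA, finrank_cs]
        have h6 := Finset.card_sdiff_add_card_eq_card hZC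
        have h7 : 3 * (r - Z.card) ≤ (T ∪ (C \ Z)).card := by
          refine le_trans hcount (Finset.card_le_card ?_)
          intro j hj
          rw [Finset.mem_filter] at hj
          obtain ⟨_, hjZ, hj2⟩ := hj
          rw [Finset.mem_union, Finset.mem_sdiff, hT, Finset.mem_filter]
          by_cases hjC : j ∈ C
          · exact Or.inr ⟨hjC, hjZ⟩
          · left
            refine ⟨Finset.mem_univ _, hjC, ?_⟩
            have h8 := hδZ j hjZ
            have h9 := hmin M hM
            omega
        have h9 := Finset.card_union_le T (C \ Z)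
        omega }
  have hgr : ∀ a ∈ A, ∀ j, wpart δ j a ∈ A := by
    intro a ha j i hi
    simp only [wpart]
    rw [ha i hi]; simp
  have htop : ∀ m, m ∉ C → m ≠ o → (∀ i, i ∉ Z → δ i ≤ δ m) → (Pi.single m 1 : σ → K) ∈ A := by
    intro m hm hmo hmx
    apply single_mem_cs
    rw [hT, Finset.mem_filter]
    refine ⟨Finset.mem_univ _, hm, ?_⟩
    have h1 := hpos m hmo
    have h2 := hmx M hM
    have h3 := hδZ M hM
    omega
  have hfin := had.card_le_one hf hcore hgr htop
  have h6 := Finset.card_sdiff_add_card_eq_card hZC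
  omega

end Pool.Agent.H929R2.Hart
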