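import Pool.Agent.H929R2.Hart.Param

set_option autoImplicit false
set_option maxHeartbeats 400000

namespace Pool.Agent.H929R2.Hart

open MvPolynomial

variable {σ : Type} [Fintype σ] [DecidableEq σ] {K : Type} [Field K]

/-- The point of the graph over `ν`. -/
noncomputable def pt (f : σ → MvPolynomial σ K) (ν : σ → K) : σ → K := fun i => eval ν (f i)

/-- The conormal vectors of the graph. -/
noncomputable def tau (o : σ) (f : σ → MvPolynomial σ K) (l : σ) (ν : σ → K) : σ → K :=
  Pi.single l 1 - grad (f l) ν + (dotB σ K (grad (f l) ν) ν - eval ν (f l)) • Pi.single o 1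

lemma dotB_single (i : σ) (v : σ → K) : dotB σ K (Pi.single i 1) v = v i := by
  rw [dotB_apply]; simp [Pi.single_apply]

namespace Adapted

variable {I : Ideal (MvPolynomial σ K)} {r : ℕ} {δ : σ → ℕ} {o : σ} {C : Finset σ}
  {f : σ → MvPolynomial σ K}

lemma pt_mem [IsAlgClosed K] [CharZero K] (h : Adapted I r δ o C) (hf : IsGraph I δ o C f)
    (ν : σ → K) : pt f ν ∈ cone I := by
  intro F hF
  have h1 := congrArg (eval ν) (h.aeval_zero hf F hF)
  rw [eval_aeval, map_zero] at h1
  exact h1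

lemma pt_o (hf : IsGraph I δ o C f) (ν : σ → K) : pt f ν o = 1 := by
  rw [pt, hf.fo, map_one]

lemma pt_N (hf : IsGraph I δ o C f) (ν : σ → K) (i : σ) (hi : i ∉ C) (hio : i ≠ o) :
    pt f ν i = ν i := by
  rw [pt, hf.fN i hi hio, eval_X]

lemma grad_f_zero (hf : IsGraph I δ o C f) (l : σ) (hl : l ∈ C) (ν : σ → K) (i : σ)
    (hi : i ∈ C ∨ i = o) : grad (f l) ν i = 0 := by
  rw [grad, pderiv_supported (hf.supp l hl) i, map_zero]
  simp only [Set.mem_setOf_eq, not_and_or, not_not]
  exact hi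

lemma grad_pt (hf : IsGraph I δ o C f) (l : σ) (hl : l ∈ C) (ν : σ → K) :
    grad (f l) (pt f ν) = grad (f l) ν := by
  funext i
  exact eval_congr_supported (pderiv_mem_supported (hf.supp l hl) i) _ _
    (fun j hj => pt_N hf ν j hj.1 hj.2)

lemma dotB_grad_congr (hf : IsGraph I δ o C f) (l : σ) (hl : l ∈ C) (ν : σ → K) (v w : σ → K)
    (hvw : ∀ i, i ∉ C → i ≠ o → v i = w i) :
    dotB σ K (grad (f l) ν) v = dotB σ K (grad (f l) ν) w := by
  rw [dotB_apply, dotB_apply]
  refine Finset.sum_congr rfl (fun i _ => ?_)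
  by_cases hi : i ∈ C ∨ i = o
  · rw [grad_f_zero hf l hl ν i hi, zero_mul, zero_mul]
  · rw [not_or] at hi
    rw [hvw i hi.1 hi.2]

lemma tau_mem [IsAlgClosed K] [CharZero K] (h : Adapted I r δ o C) (hf : IsGraph I δ o C f)
    (l : σ) (hl : l ∈ C) (ν : σ → K) : tau o f l ν ∈ conormal I (pt f ν) := by
  rw [mem_conormal_iff]
  intro v hv
  have hx := h.pt_mem hf ν
  have hxt := h.self_mem_tangent _ hx
  have hlo : l ≠ o := by rintro rfl; exact h.oC hl
  set v' := v - v o • pt f ν with hv'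
  have hv't : v' ∈ tangent I (pt f ν) := Submodule.sub_mem _ hv (Submodule.smul_mem _ _ hxt)
  have hv'o : v' o = 0 := by
    simp [hv', pt_o hf]
  have h1 := h.tangent_graph hf _ hx (pt_o hf ν) v' hv't hv'o l hl
  have h1' : v' l = dotB σ K (grad (f l) ν) v' := by
    rw [h1, ← grad_pt hf l hl ν, dotB_apply]; rfl
  have h2 : v = v' + v o • pt f ν := by rw [hv']; simp
  have h3 : ∀ w : σ → K, dotB σ K (tau o f l ν) w = w l - dotB σ K (grad (f l) ν) w
      + (dotB σ K (grad (f l) ν) ν - eval ν (f l)) * w o := by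
    intro w
    rw [tau, map_add, map_sub, map_smul, LinearMap.add_apply, LinearMap.sub_apply,
      LinearMap.smul_apply, dotB_single, dotB_single, smul_eq_mul]
  have h4 : dotB σ K (grad (f l) ν) (pt f ν) = dotB σ K (grad (f l) ν) ν :=
    dotB_grad_congr hf l hl ν _ _ (fun i hi hio => pt_N hf ν i hi hio)
  have h5 : pt f ν l = eval ν (f l) := rfl
  rw [h2, map_add, map_smul, h3, h3, hv'o, pt_o hf, h4, h5, ← h1']
  simp

end Adapted

end Pool.Agent.H929R2.Hart
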