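import Pool.Agent.H929R2.Hart.Final

set_option autoImplicit false
set_option maxHeartbeats 400000

namespace Pool.Agent.H929R2.Hart

open MvPolynomial

variable {σ : Type} [Fintype σ] [DecidableEq σ] {K : Type} [Field K]

omit [DecidableEq σ] in
lemma eval_const [CharZero K] {δ : σ → ℕ} {φ : MvPolynomial σ K} {m : ℕ}
    (hφ : IsWeightedHomogeneous δ φ m) (z : σ → K) (hz : ∀ i, z i ≠ 0 → m < δ i) (s : K) :
    eval (s • z) φ = eval 0 φ := by
  have h1 := poly_affine (line φ 0 z) 0 (fun t => by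
    rw [eval_derivative_line, dotB_apply]
    refine Finset.sum_eq_zero (fun k _ => ?_)
    by_cases hk : z k = 0
    · rw [hk, mul_zero]
    · rw [grad, pderiv_eq_zero_of_lt hφ k (hz k hk), map_zero, zero_mul]) s
  rw [eval_line, eval_line, mul_zero, add_zero, zero_add, zero_smul, add_zero] at h1
  exact h1

namespace Adapted

variable {I : Ideal (MvPolynomial σ K)} {r : ℕ} {δ : σ → ℕ} {o : σ} {C Z : Finset σ}
  {f : σ → MvPolynomial σ K} {A : Submodule K (σ → K)}

lemma dpt_top [IsAlgClosed K] [CharZero K] (h : Adapted I r δ o C) (hf : IsGraph I δ o C f)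
    (hc : Core I o C Z f A) (a : σ → K) (haA : a ∈ A) (ha0 : a ≠ 0) (j : ℕ)
    (ha : ∀ i, a i ≠ 0 → δ i = j) (q : σ) (hq : q ∈ C \ Z) (hmax : ∀ i, i ∉ Z → δ i ≤ δ q)
    (z : σ → K) (hz : ∀ i, z i ≠ 0 → δ i + j = δ q ∧ i ∉ insert o C)
    (hz2 : ∀ l ∈ C \ Z, dotB σ K (BB f l a) z = if l = q then 1 else 0) (s : K) :
    dpt f a (s • z) = a + s • Pi.single q 1 := by
  have hqC := (Finset.mem_sdiff.1 hq).1
  have hqZ := (Finset.mem_sdiff.1 hq).2
  have hqo : q ≠ o := by rintro rfl; exact h.oC hqC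
  funext i
  by_cases hi : i ∈ C
  · by_cases hiZ : i ∈ Z
    · rw [dpt, h.f_Z hf i (hc.memZ i hiZ)]
      have h1 : i ≠ q := by rintro rfl; exact hqZ hiZ
      simp [dd, hc.iso.supp a haA i (Or.inl hi), Pi.single_apply, h1]
    · have hiC' : i ∈ C \ Z := Finset.mem_sdiff.2 ⟨hi, hiZ⟩
      have hlt := h.weight_lt hf hc a haA ha0 j ha i hiC'
      have hφ := isWH_dd (hf.wh i hi) a ha hlt.le
      have hile := hmax i hiZ
      have hder : ∀ t : K, (Polynomial.derivative (line (dd a (f i)) 0 z)).eval t =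
          dotB σ K (BB f i a) z := by
        intro t
        rw [eval_derivative_line, dotB_apply, dotB_apply]
        refine Finset.sum_congr rfl (fun k _ => ?_)
        by_cases hk : z k = 0
        · rw [hk, mul_zero, mul_zero]
        · congr 1
          have hzk := (hz k hk).1
          rw [BB, grad, grad]
          by_cases hiq : δ i < δ q
          · rw [pderiv_eq_zero_of_lt hφ k (by omega), map_zero, map_zero]
          · have hφk : IsWeightedHomogeneous δ (pderiv k (dd a (f i))) 0 :=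
              hφ.pderiv (by omega)
            apply eval_eq_of_weight_zero o h.wt0 h.wtpos hφk
            have hzo : z o = 0 := by
              by_contra h1
              exact (hz o h1).2 (by simp)
            simp [hzo]
      have h2 := poly_affine _ _ hder s
      have h3 : eval (0 : σ → K) (dd a (f i)) = 0 := by
        rw [eval_dd, h.grad_zero hf i hi, map_zero]; rfl
      rw [eval_line, eval_line, zero_smul, add_zero, zero_add, hz2 i hiC', h3] at h2
      rw [dpt, h2, Pi.add_apply, hc.iso.supp a haA i (Or.inl hi), Pi.smul_apply, Pi.single_apply]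
      simp
  · have hiq : i ≠ q := by rintro rfl; exact hi hqC
    by_cases hio : i = o
    · rw [hio, dpt_o hf, Pi.add_apply, hc.iso.supp a haA o (Or.inr rfl), Pi.smul_apply,
        Pi.single_apply, if_neg hqo.symm]
      simp
    · rw [dpt_N hf a _ i hi hio, Pi.add_apply, Pi.smul_apply, Pi.single_apply, if_neg hiq]
      simp

lemma grad_top [IsAlgClosed K] [CharZero K] (h : Adapted I r δ o C) (hf : IsGraph I δ o C f)
    (hc : Core I o C Z f A) (a : σ → K) (haA : a ∈ A) (ha0 : a ≠ 0) (j : ℕ)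
    (ha : ∀ i, a i ≠ 0 → δ i = j) (q : σ) (hmax : ∀ i, i ∉ Z → δ i ≤ δ q)
    (z : σ → K) (hz : ∀ i, z i ≠ 0 → δ i + j = δ q ∧ i ∉ insert o C) (s : K)
    (l : σ) (hl : l ∈ C \ Z) : grad (dd a (f l)) (s • z) = BB f l a := by
  have hlC := (Finset.mem_sdiff.1 hl).1
  have hlZ := (Finset.mem_sdiff.1 hl).2
  have hlt := h.weight_lt hf hc a haA ha0 j ha l hl
  have hφ := isWH_dd (hf.wh l hlC) a ha hlt.le
  have hle := hmax l hlZ
  funext i
  rw [BB, grad, grad]
  by_cases hi : i ∈ insert o C
  · have h1 : pderiv i (dd a (f l)) = 0 := by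
      rw [pderiv_dd, pderiv_supported (hf.supp l hlC) i]
      · simp [dd]
      · simp only [Set.mem_setOf_eq, not_and_or, not_not]
        rw [Finset.mem_insert] at hi; tauto
    rw [h1, map_zero, map_zero]
  · have hio : i ≠ o := by rintro rfl; exact hi (by simp)
    have hpos := h.wtpos i hio
    by_cases h3 : δ l - j < δ i
    · rw [pderiv_eq_zero_of_lt hφ i h3, map_zero, map_zero]
    · push Not at h3
      have hψ : IsWeightedHomogeneous δ (pderiv i (dd a (f l))) (δ l - j - δ i) :=
        hφ.pderiv (by omega)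
      exact eval_const hψ z (fun k hk => by have := (hz k hk).1; omega) s

lemma limit_top [IsAlgClosed K] [CharZero K] (h : Adapted I r δ o C) (hf : IsGraph I δ o C f)
    (hc : Core I o C Z f A) (a : σ → K) (haA : a ∈ A) (ha0 : a ≠ 0) (j : ℕ)
    (ha : ∀ i, a i ≠ 0 → δ i = j) (q : σ) (hq : q ∈ C \ Z) (hmax : ∀ i, i ∉ Z → δ i ≤ δ q) :
    (Pi.single q 1 : σ → K) ∈ cone I ∧ (Pi.single o 1 : σ → K) ∈ conormal I (Pi.single q 1) ∧
      ∀ l ∈ C \ Z, l ≠ q → BB f l a ∈ conormal I (Pi.single q 1) := by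
  obtain ⟨z, hz, hz2⟩ := h.exists_z hf hc a haA ha0 j ha q hq
  have hqC := (Finset.mem_sdiff.1 hq).1
  have hflat := hc.iso.flat a haA
  have haq : a q = 0 := hc.iso.supp a haA q (Or.inl hqC)
  have hpath : ∀ t : K, t ≠ 0 → (Pi.single q 1 : σ → K) + t • a = t • dpt f a (t⁻¹ • z) := by
    intro t ht
    rw [h.dpt_top hf hc a haA ha0 j ha q hq hmax z hz hz2, smul_add, smul_smul,
      mul_inv_cancel₀ ht, one_smul, add_comm]
  have hcone : ∀ t : K, t ≠ 0 → (Pi.single q 1 : σ → K) + t • a ∈ cone I := by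
    intro t ht
    rw [hpath t ht]
    exact cone_smul I h.homog _ _ (h.dpt_mem hf a hflat _)
  have hcon : ∀ t : K, t ≠ 0 → ∀ l ∈ C \ Z,
      - BB f l a + (t⁻¹ * (if l = q then 1 else 0)) • (Pi.single o 1 : σ → K) ∈
        conormal I ((Pi.single q 1 : σ → K) + t • a) := by
    intro t ht l hl
    have hlC := (Finset.mem_sdiff.1 hl).1
    have hne : dpt f a (t⁻¹ • z) ≠ 0 := by
      rw [h.dpt_top hf hc a haA ha0 j ha q hq hmax z hz hz2]
      intro h0
      have := congrFun h0 q
      simp [haq, ht] at this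
    have h1 := h.limit_mem hf a hflat (t⁻¹ • z) hne l hlC
    rw [h.grad_top hf hc a haA ha0 j ha q hmax z hz t⁻¹ l hl, map_smul, hz2 l hl,
      smul_eq_mul] at h1
    rw [hpath t ht, conormal_smul I h.homog t ht]
    exact h1
  have hq1 : (Pi.single q 1 : σ → K) ≠ 0 := by
    intro h0
    have := congrFun h0 q
    simp at this
  refine ⟨(cone_of_line I _ a hcone).1, ?_, ?_⟩
  · apply conormal_closed I r h.rank _ a hq1 _ (- BB f q a)
    intro t ht
    refine ⟨hcone t ht, ?_⟩
    have h1 := Submodule.smul_mem _ t (hcon t ht q hq)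
    rw [if_pos rfl, mul_one, smul_add, smul_smul, mul_inv_cancel₀ ht, one_smul,
      add_comm (t • _) (Pi.single o 1)] at h1
    exact h1
  · intro l hl hlq
    have h2 : - BB f l a ∈ conormal I (Pi.single q 1 : σ → K) := by
      apply conormal_closed I r h.rank _ a hq1 _ 0
      intro t ht
      refine ⟨hcone t ht, ?_⟩
      have h1 := hcon t ht l hl
      rw [if_neg hlq, mul_zero, zero_smul] at h1
      rw [smul_zero]
      exact h1
    have h3 := Submodule.neg_mem _ h2
    rwa [neg_neg] at h3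

end Adapted

end Pool.Agent.H929R2.Hart
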