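import Pool.Agent.H929R2.Hart.W17

set_option autoImplicit false
set_option maxHeartbeats 400000

namespace Pool.Agent.H929R2.Hart

open MvPolynomial

/-! ### Polynomial arcs and approximations -/

section Taylor

variable {σ : Type} [Fintype σ] {A : Type} [CommRing A]

/-- gradient over a ring -/
noncomputable def gT (Ψ : MvPolynomial σ A) (P : σ → A) : σ → A := fun i => eval P (pderiv i Ψ)

lemma gT_add (Ψ Φ : MvPolynomial σ A) (P : σ → A) : gT (Ψ + Φ) P = gT Ψ P + gT Φ P := by
  funext i; simp [gT]

lemma gT_mul (Ψ Φ : MvPolynomial σ A) (P : σ → A) :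
    gT (Ψ * Φ) P = eval P Φ • gT Ψ P + eval P Ψ • gT Φ P := by
  funext i
  simp only [gT, Derivation.leibniz, smul_eq_mul, map_add, map_mul, Pi.add_apply, Pi.smul_apply]
  ring

lemma gT_C (a : A) (P : σ → A) : gT (C a) P = 0 := by
  funext i; simp [gT]

lemma gT_zero (P : σ → A) : gT (0 : MvPolynomial σ A) P = 0 := by
  funext i; simp [gT]

lemma gT_sum {ι : Type} (s : Finset ι) (Ψ : ι → MvPolynomial σ A) (P : σ → A) :
    gT (∑ k ∈ s, Ψ k) P = ∑ k ∈ s, gT (Ψ k) P := by
  funext i; simp [gT, Finset.sum_apply]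

/-- directional second derivative -/
noncomputable def hT (Ψ : MvPolynomial σ A) (P Q : σ → A) : σ → A :=
  fun i => gT (pderiv i Ψ) P ⬝ᵥ Q

lemma hT_add (Ψ : MvPolynomial σ A) (P Q R : σ → A) : hT Ψ P (Q + R) = hT Ψ P Q + hT Ψ P R := by
  funext i; simp [hT, dotProduct_add]

lemma hT_smul (Ψ : MvPolynomial σ A) (P Q : σ → A) (c : A) : hT Ψ P (c • Q) = c • hT Ψ P Q := by
  funext i; simp [hT, dotProduct_smul]

/-- Taylor expansion -/
lemma taylor1 (Ψ : MvPolynomial σ A) (P Q : σ → A) (h : A) :
    ∃ R : A, eval (P + h • Q) Ψ = eval P Ψ + h * (gT Ψ P ⬝ᵥ Q) + h ^ 2 * R := by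
  classical
  induction Ψ using MvPolynomial.induction_on with
  | C a => exact ⟨0, by rw [gT_C, zero_dotProduct]; simp⟩
  | add p q hp hq =>
    obtain ⟨R, hR⟩ := hp
    obtain ⟨S, hS⟩ := hq
    refine ⟨R + S, ?_⟩
    rw [map_add, hR, hS, map_add, gT_add, add_dotProduct]
    ring
  | mul_X p i hp =>
    obtain ⟨R, hR⟩ := hp
    have hX : gT (X i : MvPolynomial σ A) P ⬝ᵥ Q = Q i := by
      have : gT (X i : MvPolynomial σ A) P = Pi.single i 1 := by
        funext j
        rw [gT]
        by_cases hj : j = i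
        · subst hj; simp
        · rw [pderiv_X_of_ne (fun h => hj h.symm), map_zero, Pi.single_apply, if_neg hj]
      rw [this, single_dotProduct, one_mul]
    refine ⟨(gT p P ⬝ᵥ Q) * Q i + R * (P i + h * Q i), ?_⟩
    rw [map_mul, hR, eval_X, map_mul, eval_X, gT_mul, add_dotProduct, smul_dotProduct,
      smul_dotProduct, hX, eval_X, Pi.add_apply, Pi.smul_apply, smul_eq_mul, smul_eq_mul,
      smul_eq_mul]
    ring

lemma taylor2 (Ψ : MvPolynomial σ A) (P Q : σ → A) (h : A) :
    ∃ R : σ → A, gT Ψ (P + h • Q) = gT Ψ P + h • hT Ψ P Q + h ^ 2 • R := by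
  choose R hR using fun i => taylor1 (pderiv i Ψ) P Q h
  refine ⟨R, ?_⟩
  funext i
  simp only [gT, hT, Pi.add_apply, Pi.smul_apply, smul_eq_mul]
  exact hR i

end Taylor

section Poly

variable {σ : Type} [Fintype σ] [DecidableEq σ] {K : Type} [Field K]

/-- coefficients viewed as constant polynomials -/
noncomputable def io (F : MvPolynomial σ K) : MvPolynomial σ (Polynomial K) :=
  MvPolynomial.map Polynomial.C F

/-- constant vectors -/
noncomputable def cv (x : σ → K) : σ → Polynomial K := fun i => Polynomial.C (x i)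

/-- the value at `0` of a polynomial vector -/
noncomputable def at0 (P : σ → Polynomial K) : σ → K := fun i => (P i).eval 0

omit [Fintype σ] [DecidableEq σ] in
lemma at0_add (P Q : σ → Polynomial K) : at0 (P + Q) = at0 P + at0 Q := by
  funext i; simp [at0]

omit [Fintype σ] [DecidableEq σ] in
lemma at0_smul (p : Polynomial K) (Q : σ → Polynomial K) : at0 (p • Q) = p.eval 0 • at0 Q := by
  funext i; simp [at0]

omit [Fintype σ] [DecidableEq σ] in
lemma at0_cv (x : σ → K) : at0 (cv x) = x := by
  funext i; simp [at0, cv]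

omit [Fintype σ] [DecidableEq σ] in
lemma at0_sum {ι : Type} (s : Finset ι) (P : ι → σ → Polynomial K) :
    at0 (∑ k ∈ s, P k) = ∑ k ∈ s, at0 (P k) := by
  funext i; simp [at0, Finset.sum_apply, Polynomial.eval_finsetSum]

omit [Fintype σ] [DecidableEq σ] in
lemma cv_add (x y : σ → K) : cv (x + y) = cv x + cv y := by
  funext i; simp [cv]

omit [Fintype σ] [DecidableEq σ] in
lemma cv_smul (c : K) (x : σ → K) : cv (c • x) = Polynomial.C c • cv x := by
  funext i; simp [cv]

omit [Fintype σ] [DecidableEq σ] in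
lemma eval_io (P : σ → Polynomial K) (F : MvPolynomial σ K) : eval P (io F) = aeval P F := by
  rw [io, eval_map, aeval_def]
  rfl

omit [Fintype σ] [DecidableEq σ] in
lemma eval_io_cv (x : σ → K) (F : MvPolynomial σ K) :
    eval (cv x) (io F) = Polynomial.C (eval x F) := by
  rw [io, eval_map]
  exact (MvPolynomial.eval₂_comp_left Polynomial.C (RingHom.id K) x F).symm

omit [Fintype σ] [DecidableEq σ] in
lemma eval_io_eval (t : K) (P : σ → Polynomial K) (F : MvPolynomial σ K) :
    (eval P (io F)).eval t = eval (fun i => (P i).eval t) F := by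
  rw [io, eval_map]
  have h := MvPolynomial.eval₂_comp_left (Polynomial.evalRingHom t) Polynomial.C P F
  rw [Polynomial.coe_evalRingHom] at h
  rw [h]
  have h2 : (Polynomial.evalRingHom t).comp Polynomial.C = RingHom.id K := by
    ext x; simp
  rw [h2]
  rfl

omit [Fintype σ] [DecidableEq σ] in
lemma eval_io_zero (P : σ → Polynomial K) (F : MvPolynomial σ K) :
    (eval P (io F)).eval 0 = eval (at0 P) F := eval_io_eval 0 P F

omit [Fintype σ] in
lemma pderiv_io (i : σ) (F : MvPolynomial σ K) : pderiv i (io F) = io (pderiv i F) := by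
  rw [io, io, pderiv_map]

lemma gT_io_at0 (P : σ → Polynomial K) (F : MvPolynomial σ K) :
    at0 (gT (io F) P) = grad F (at0 P) := by
  funext i
  rw [at0, gT, pderiv_io, eval_io_zero, grad]

lemma gT_io_cv (x : σ → K) (F : MvPolynomial σ K) : gT (io F) (cv x) = cv (grad F x) := by
  funext i
  rw [gT, pderiv_io, eval_io_cv, cv, grad]

omit [DecidableEq σ] in
lemma dot_at0 (P Q : σ → Polynomial K) : (P ⬝ᵥ Q).eval 0 = dotB σ K (at0 P) (at0 Q) := by
  rw [dotProduct, Polynomial.eval_finsetSum, dotB_apply]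
  exact Finset.sum_congr rfl (fun i _ => by rw [Polynomial.eval_mul]; rfl)

/-- derivative along an arc -/
lemma deriv_eval_io (P : σ → Polynomial K) (F : MvPolynomial σ K) :
    Polynomial.derivative (eval P (io F)) = gT (io F) P ⬝ᵥ (fun i => Polynomial.derivative (P i)) := by
  rw [eval_io]
  have h := deriv_aeval (A := Polynomial K) (K := K) Polynomial.derivative' P F
  have h' : Polynomial.derivative (aeval P F) = _ := h
  rw [h', dotProduct]
  refine Finset.sum_congr rfl (fun i _ => ?_)
  rw [gT, pderiv_io, eval_io]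
  rfl

lemma gT_dd (P : σ → Polynomial K) (F : MvPolynomial σ K) (v : σ → K) :
    eval P (io (dd v F)) = gT (io F) P ⬝ᵥ cv v := by
  rw [eval_io, dd, map_sum, dotProduct]
  refine Finset.sum_congr rfl (fun i _ => ?_)
  rw [map_mul, aeval_C, gT, pderiv_io, eval_io, cv, mul_comm]
  rfl

omit [Fintype σ] [DecidableEq σ] in
lemma dvd_of_deriv [CharZero K] (p : Polynomial K) (k : ℕ) (h0 : p.eval 0 = 0)
    (h : Polynomial.X ^ k ∣ Polynomial.derivative p) : Polynomial.X ^ (k + 1) ∣ p := by
  rw [Polynomial.X_pow_dvd_iff] at h ⊢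
  intro d hd
  rcases d with _ | d
  · rw [Polynomial.coeff_zero_eq_eval_zero]; exact h0
  · have h1 := h d (by omega)
    rw [Polynomial.coeff_derivative] at h1
    rcases mul_eq_zero.1 h1 with h2 | h2
    · exact h2
    · exfalso
      have : ((d : K) + 1) ≠ 0 := by exact_mod_cast Nat.succ_ne_zero d
      exact this h2

omit [Fintype σ] [DecidableEq σ] in
lemma dvd_deriv (p : Polynomial K) (k : ℕ)
    (h : Polynomial.X ^ (k + 1) ∣ p) : Polynomial.X ^ k ∣ Polynomial.derivative p := by
  rw [Polynomial.X_pow_dvd_iff] at h ⊢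
  intro d hd
  rw [Polynomial.coeff_derivative, h (d + 1) (by omega), zero_mul]

omit [Fintype σ] [DecidableEq σ] in
lemma dvd_of_unit (p c : Polynomial K) (k : ℕ) (hc : c.eval 0 ≠ 0)
    (h : Polynomial.X ^ k ∣ c * p) : Polynomial.X ^ k ∣ p := by
  apply IsCoprime.dvd_of_dvd_mul_left _ h
  apply IsCoprime.pow_left
  rw [(Polynomial.irreducible_X (R := K)).coprime_iff_not_dvd, Polynomial.X_dvd_iff,
    Polynomial.coeff_zero_eq_eval_zero]
  exact hc

/-- If `r` elements of `I` with independent gradients at `v(0)` vanish to order `k` along the arc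
`v`, then so do all the elements of `I`. -/
theorem approx_of_frame [IsAlgClosed K] [CharZero K] {I : Ideal (MvPolynomial σ K)} {r : ℕ}
    (hI : SCone I r) (z : σ → K) (hz : z ∈ cone I) (hz0 : z ≠ 0)
    (F : Fin r → MvPolynomial σ K) (hF : ∀ i, F i ∈ I)
    (hind : LinearIndependent K (fun i => grad (F i) z)) (v : σ → Polynomial K)
    (hv : at0 v = z) (k : ℕ) (hk : ∀ i, Polynomial.X ^ k ∣ eval v (io (F i))) :
    ∀ l, l ≤ k → ∀ G ∈ I, Polynomial.X ^ l ∣ eval v (io G) := by
  obtain ⟨W, hW⟩ := exists_dual_vectors _ hind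
  intro l
  induction l with
  | zero => intro _ G _; simp
  | succ l ih =>
    intro hl G hG
    have ih' := ih (by omega)
    apply dvd_of_deriv
    · rw [eval_io_zero, hv]; exact hz G hG
    let F' : Fin (r + 1) → MvPolynomial σ K := Fin.cons G F
    have hF' : ∀ a, F' a ∈ I := by
      intro a
      refine Fin.cases ?_ (fun i => ?_) a
      · exact hG
      · exact hF i
    let N : Fin (r + 1) → Fin r → Polynomial K := fun a j => gT (io (F' a)) v ⬝ᵥ cv (W j)
    let c : Fin (r + 1) → Polynomial K := fun a => (-1) ^ (a : ℕ) *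
      Matrix.det (fun (i j : Fin r) => N (a.succAbove i) j)
    have key : ∀ w : σ → K, Polynomial.X ^ l ∣ ∑ a, c a * (gT (io (F' a)) v ⬝ᵥ cv w) := by
      intro w
      have h1 := det_mem I hI.prime ⟨z, hz, hz0⟩ r (fun x hx hx0 => (hI.rank x hx hx0).le) F' hF'
        (Fin.cons w W)
      have h2 := ih' _ h1
      have h3 : eval v (io (Matrix.det (fun a b => dd ((Fin.cons w W : Fin (r+1) → (σ → K)) b)
          (F' a)))) = ∑ a, c a * (gT (io (F' a)) v ⬝ᵥ cv w) := by
        have h4 : eval v (io (Matrix.det (fun a b => dd ((Fin.cons w W : Fin (r+1) → (σ → K)) b)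
            (F' a)))) = ((eval v).comp (MvPolynomial.map Polynomial.C))
              (Matrix.det (fun a b => dd ((Fin.cons w W : Fin (r+1) → (σ → K)) b) (F' a))) := rfl
        rw [h4, RingHom.map_det, Matrix.det_succ_column_zero]
        refine Finset.sum_congr rfl (fun a _ => ?_)
        have h5 : ((eval v).comp (MvPolynomial.map Polynomial.C)).mapMatrix
            (fun a b => dd ((Fin.cons w W : Fin (r+1) → (σ → K)) b) (F' a)) a 0 =
            gT (io (F' a)) v ⬝ᵥ cv w := by
          rw [← gT_dd]; rfl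
        rw [h5]
        have h6 : (((eval v).comp (MvPolynomial.map Polynomial.C)).mapMatrix
            (fun a b => dd ((Fin.cons w W : Fin (r+1) → (σ → K)) b) (F' a))).submatrix
              a.succAbove Fin.succ = fun (i j : Fin r) => N (a.succAbove i) j := by
          funext i j
          show _ = gT (io (F' (a.succAbove i))) v ⬝ᵥ cv (W j)
          rw [← gT_dd]
          rfl
        rw [h6]
        show _ = (-1) ^ (a : ℕ) * Matrix.det (fun (i j : Fin r) => N (a.succAbove i) j) * _
        ring
      rw [← h3]; exact h2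
    have key2 : ∀ u : σ → Polynomial K, Polynomial.X ^ l ∣ ∑ a, c a * (gT (io (F' a)) v ⬝ᵥ u) := by
      intro u
      have h1 : ∑ a, c a * (gT (io (F' a)) v ⬝ᵥ u) =
          ∑ i, u i * ∑ a, c a * (gT (io (F' a)) v ⬝ᵥ cv (Pi.single i 1)) := by
        simp only [dotProduct, Finset.mul_sum]
        rw [Finset.sum_comm]
        refine Finset.sum_congr rfl (fun i _ => Finset.sum_congr rfl (fun a _ => ?_))
        rw [Finset.sum_eq_single i]
        · simp [cv]; ring
        · intro j _ hj
          simp [cv, Pi.single_apply, hj]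
        · intro h; exact absurd (Finset.mem_univ _) h
      rw [h1]
      exact Finset.dvd_sum (fun i _ => Dvd.dvd.mul_left (key _) _)
    have h1 := key2 (fun i => Polynomial.derivative (v i))
    rw [Fin.sum_univ_succ] at h1
    have h2 : Polynomial.X ^ l ∣ ∑ i : Fin r, c i.succ *
        (gT (io (F' i.succ)) v ⬝ᵥ fun i => Polynomial.derivative (v i)) := by
      apply Finset.dvd_sum
      intro i _
      apply Dvd.dvd.mul_left
      rw [← deriv_eval_io]
      apply dvd_deriv
      exact (pow_dvd_pow _ hl).trans (hk i)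
    have h3 := (dvd_add_left h2).1 h1
    rw [← deriv_eval_io] at h3
    apply dvd_of_unit _ (c 0) l _ h3
    have h4 : (c 0).eval 0 = 1 := by
      show Polynomial.eval 0 ((-1) ^ ((0 : Fin (r+1)) : ℕ) *
        Matrix.det (fun (i j : Fin r) => N ((0 : Fin (r + 1)).succAbove i) j)) = 1
      rw [Fin.val_zero, pow_zero, one_mul]
      have h5 : Polynomial.eval 0 (Matrix.det (fun (i j : Fin r) =>
          N ((0 : Fin (r + 1)).succAbove i) j)) = (Polynomial.evalRingHom (0 : K))
          (Matrix.det (fun (i j : Fin r) => N ((0 : Fin (r + 1)).succAbove i) j)) := rfl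
      rw [h5, RingHom.map_det]
      have h6 : (Polynomial.evalRingHom (0 : K)).mapMatrix (fun (i j : Fin r) =>
          N ((0 : Fin (r + 1)).succAbove i) j) = 1 := by
        ext i j
        rw [Matrix.one_apply, ← hW i j]
        show Polynomial.eval 0 (gT (io (F' ((0 : Fin (r + 1)).succAbove i))) v ⬝ᵥ cv (W j)) = _
        rw [dot_at0, gT_io_at0, at0_cv, hv]
        rfl
      rw [h6, Matrix.det_one]
    rw [h4]; exact one_ne_zero

end Poly

end Pool.Agent.H929R2.Hart
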