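import Pool.Agent.H929R2.Hart.U9

set_option autoImplicit false
set_option maxHeartbeats 400000

namespace Pool.Agent.H929R2.Hart

open MvPolynomial

variable {σ : Type} [Fintype σ] [DecidableEq σ] {K : Type} [Field K]

variable {M : Matrix σ σ K} {m : ℕ} {I : Ideal (MvPolynomial σ K)} {r : ℕ}

lemma exK_mulVec (M : Matrix σ σ K) (m : ℕ) (t : K) (x : σ → K) :
    (exK M m t).mulVec x = ∑ j ∈ Finset.range (m + 1),
      (t ^ j * (j.factorial : K)⁻¹) • (M ^ j).mulVec x := by
  rw [exK, Matrix.sum_mulVec]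
  exact Finset.sum_congr rfl (fun j _ => by rw [Matrix.smul_mulVec])

/-- the orbit as a polynomial arc -/
noncomputable def orb (M : Matrix σ σ K) (m : ℕ) (x : σ → K) : σ → Polynomial K := fun i =>
  ∑ j ∈ Finset.range (m + 1), Polynomial.C ((j.factorial : K)⁻¹ * (M ^ j).mulVec x i) *
    Polynomial.X ^ j

lemma orb_eval (M : Matrix σ σ K) (m : ℕ) (x : σ → K) (t : K) :
    (fun i => (orb M m x i).eval t) = (exK M m t).mulVec x := by
  funext i
  rw [exK_mulVec, Finset.sum_apply, orb, Polynomial.eval_finsetSum]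
  refine Finset.sum_congr rfl (fun j _ => ?_)
  rw [Polynomial.eval_mul, Polynomial.eval_C, Polynomial.eval_pow, Polynomial.eval_X,
    Pi.smul_apply, smul_eq_mul]
  ring

lemma orb_at0 (M : Matrix σ σ K) (m : ℕ) (x : σ → K) : at0 (orb M m x) = x := by
  have h := orb_eval M m x 0
  rw [exK_zero, Matrix.one_mulVec] at h
  exact h

lemma orb_deriv (M : Matrix σ σ K) (m : ℕ) (hm : 1 ≤ m) (x : σ → K) :
    at0 (fun i => Polynomial.derivative (orb M m x i)) = M.mulVec x := by
  funext i
  rw [at0, ← Polynomial.coeff_zero_eq_eval_zero, Polynomial.coeff_derivative, orb,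
    Polynomial.finsetSum_coeff, Finset.sum_eq_single 1]
  · rw [Polynomial.coeff_C_mul, Polynomial.coeff_X_pow, if_pos (by norm_num)]
    simp
  · intro j _ hj
    rw [Polynomial.coeff_C_mul, Polynomial.coeff_X_pow, if_neg (fun h => hj (by omega)), mul_zero]
  · intro h
    exact absurd (Finset.mem_range.2 (by omega)) h

/-- the vector field is tangent to the cone -/
lemma flow_tangent [IsAlgClosed K] (hst : StabN M m I) (hm : 1 ≤ m) (x : σ → K)
    (hx : x ∈ cone I) : M.mulVec x ∈ tangent I x := by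
  rw [mem_tangent]
  intro G hG
  have h0 : eval (orb M m x) (io G) = 0 := by
    apply Polynomial.funext
    intro t
    rw [eval_io_eval, orb_eval, Polynomial.eval_zero]
    exact hst x hx t G hG
  have h1 := deriv_eval_io (orb M m x) G
  rw [h0, Polynomial.derivative_zero] at h1
  have h2 := congrArg (Polynomial.eval 0) h1
  rw [dot_at0, gT_io_at0, orb_at0, orb_deriv M m hm, Polynomial.eval_zero] at h2
  exact h2.symm

lemma top_cone [IsAlgClosed K] [CharZero K] (h : Nil M m I r) (y : σ → K) (hy : y ∈ cone I) :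
    (M ^ m).mulVec y ∈ cone I := by
  have hfac : ((m.factorial : K)⁻¹) ≠ 0 := inv_ne_zero (by exact_mod_cast m.factorial_ne_zero)
  have h1 : ((m.factorial : K)⁻¹) • (M ^ m).mulVec y ∈ cone I := by
    intro G hG
    have h2 := (h.st.good h.sc.homog).eval_zero y hy G hG
    have h3 := congrArg (Polynomial.eval 0) h2
    rw [eval_io_zero, at0_mulVec, Ep_zero, at0_cv, Matrix.smul_mulVec,
      Polynomial.eval_zero] at h3
    exact h3
  have h2 := cone_smul I h.sc.homog (m.factorial : K) _ h1
  rwa [smul_smul, mul_inv_cancel₀ (by exact_mod_cast m.factorial_ne_zero), one_smul] at h2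

omit [DecidableEq σ] in
lemma dot_transpose (N : Matrix σ σ K) (u v : σ → K) :
    dotB σ K (N.transpose.mulVec u) v = dotB σ K u (N.mulVec v) := by
  rw [dotB_apply, dotB_apply]
  have : (N.transpose.mulVec u) ⬝ᵥ v = u ⬝ᵥ (N.mulVec v) := by
    rw [Matrix.mulVec_transpose, Matrix.dotProduct_mulVec]
  exact this

omit [Fintype σ] [DecidableEq σ] in
lemma exists_nilp {V : Type} [AddCommGroup V] [Module K V] (D : Module.End K V)
    (hD : IsNilpotent D) (h0 : D ≠ 0) : ∃ c, D c ≠ 0 ∧ D (D c) = 0 := by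
  classical
  have hex : ∃ n, D ^ n = 0 := hD
  set n0 := Nat.find hex with hn0
  have h1 : D ^ n0 = 0 := Nat.find_spec hex
  have h2 : n0 ≠ 0 := by
    intro h
    rw [h, pow_zero] at h1
    apply h0
    calc D = 1 * D := (one_mul D).symm
      _ = 0 := by rw [h1, zero_mul]
  have h3 : n0 ≠ 1 := by
    intro h
    rw [h, pow_one] at h1
    exact h0 h1
  obtain ⟨k, hk⟩ : ∃ k, n0 = k + 2 := ⟨n0 - 2, by omega⟩
  have h4 : D ^ (k + 1) ≠ 0 := Nat.find_min hex (by omega)
  obtain ⟨η, hη⟩ : ∃ η, (D ^ (k + 1)) η ≠ 0 := by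
    by_contra hcon
    push Not at hcon
    exact h4 (LinearMap.ext hcon)
  refine ⟨(D ^ k) η, ?_, ?_⟩
  · rw [← Module.End.mul_apply, ← pow_succ']
    exact hη
  · rw [← Module.End.mul_apply, ← Module.End.mul_apply, mul_assoc, ← pow_succ', ← pow_succ', ← hk,
      h1]
    rfl

namespace QD

variable {Q : (Fin r → K) →ₗ[K] (σ → K) →ₗ[K] (σ → K)}

lemma exists_D [IsAlgClosed K] [CharZero K] (h : Nil M m I r)
    (hW : 3 * r + 1 ≤ Module.finrank K (WW M m)) (hQ : QD M m I r Q) :
    ∃ D : Module.End K (Fin r → K), IsNilpotent D ∧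
      ∀ c x, Q (D c) x = M.transpose.mulVec (Q c x) + Q c (M.mulVec x) := by
  have hinj : ∀ c, Q c = 0 → c = 0 := by
    intro c hc
    obtain ⟨y, hy, hMy⟩ := exists_top h
    exact hQ.inj c y hy hMy (by rw [hc]; rfl)
  let a : Module.End K (σ → K) := Matrix.toLinAlgEquiv' M.transpose
  let b : Module.End K (σ → K) := Matrix.toLinAlgEquiv' M
  have ha : ∀ x, a x = M.transpose.mulVec x := fun x => Matrix.toLinAlgEquiv'_apply _ _
  have hb : ∀ x, b x = M.mulVec x := fun x => Matrix.toLinAlgEquiv'_apply _ _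
  let ℒ : Module.End K (Module.End K (σ → K)) := LinearMap.mulLeft K a + LinearMap.mulRight K b
  have hℒ : ∀ (P : Module.End K (σ → K)) x, ℒ P x = M.transpose.mulVec (P x) + P (M.mulVec x) := by
    intro P x
    show a (P x) + P (b x) = _
    rw [ha, hb]
  have hℒn : IsNilpotent ℒ := by
    apply Commute.isNilpotent_add (LinearMap.commute_mulLeft_right (R := K) a b)
    · refine ⟨m + 1, ?_⟩
      rw [LinearMap.pow_mulLeft, ← map_pow, ← Matrix.transpose_pow, h.nil, Matrix.transpose_zero,
        map_zero]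
      ext; simp
    · refine ⟨m + 1, ?_⟩
      rw [LinearMap.pow_mulRight, ← map_pow, h.nil, map_zero]
      ext; simp
  have hex : ∀ c, ∃ c', ℒ (Q c) = Q c' := by
    intro c
    apply hQ.exact h hW
    · intro v v'
      rw [hℒ, hℒ, map_add, LinearMap.add_apply, map_add, LinearMap.add_apply, dot_transpose,
        dot_transpose, hQ.symm c (M.mulVec v) v', hQ.symm c (M.mulVec v') v, add_comm]
    · intro x hx
      rw [hℒ, map_add, LinearMap.add_apply, dot_transpose, hQ.symm c (M.mulVec x) x,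
        tangent_conormal I x (hQ.con h c x) (flow_tangent h.st h.pos x hx), add_zero]
  choose f hf using hex
  let D : Module.End K (Fin r → K) :=
    { toFun := f
      map_add' := fun c c' => by
        rw [← sub_eq_zero]
        apply hinj
        rw [map_sub, map_add, ← hf, ← hf, ← hf, map_add, map_add, sub_self]
      map_smul' := fun t c => by
        rw [← sub_eq_zero]
        apply hinj
        rw [RingHom.id_apply, map_sub, map_smul, ← hf, ← hf, map_smul, map_smul, sub_self] }
  have hD : ∀ c, Q (D c) = ℒ (Q c) := fun c => (hf c).symm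
  refine ⟨D, ?_, fun c x => by rw [hD, hℒ]⟩
  obtain ⟨n, hn⟩ := hℒn
  refine ⟨n, ?_⟩
  have hpow : ∀ k c, Q ((D ^ k) c) = (ℒ ^ k) (Q c) := by
    intro k
    induction k with
    | zero => intro c; simp
    | succ k ih =>
      intro c
      rw [pow_succ', pow_succ', Module.End.mul_apply, Module.End.mul_apply, hD, ih]
  apply LinearMap.ext
  intro c
  apply hinj
  rw [hpow, hn]
  rfl

lemma iter {N' : Matrix σ σ K} {q : (σ → K) →ₗ[K] (σ → K)}
    (hq : ∀ x, q (M.mulVec x) = N'.mulVec (q x)) (k : ℕ) (x : σ → K) :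
    q ((M ^ k).mulVec x) = (N' ^ k).mulVec (q x) := by
  induction k generalizing x with
  | zero => rw [pow_zero, pow_zero, Matrix.one_mulVec, Matrix.one_mulVec]
  | succ k ih =>
    rw [pow_succ, ← Matrix.mulVec_mulVec, ih, hq, Matrix.mulVec_mulVec, ← pow_succ]

lemma iter2 {N' : Matrix σ σ K} {q q1 : (σ → K) →ₗ[K] (σ → K)}
    (hq1 : ∀ x, q1 (M.mulVec x) = N'.mulVec (q1 x))
    (hq : ∀ x, q (M.mulVec x) = N'.mulVec (q x) + q1 x) (k : ℕ) (x : σ → K) :
    q ((M ^ (k + 1)).mulVec x) = (N' ^ (k + 1)).mulVec (q x) +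
      ((k : K) + 1) • q1 ((M ^ k).mulVec x) := by
  induction k generalizing x with
  | zero => simp [hq]
  | succ k ih =>
    rw [pow_succ, ← Matrix.mulVec_mulVec, ih, hq, Matrix.mulVec_add, Matrix.mulVec_mulVec,
      ← pow_succ, Matrix.mulVec_mulVec, ← pow_succ, ← iter hq1]
    push_cast
    module

theorem le_one [IsAlgClosed K] [CharZero K] (h : Nil M m I r)
    (hW : 3 * r + 1 ≤ Module.finrank K (WW M m)) (hQ : QD M m I r Q) : r ≤ 1 := by
  obtain ⟨D, hDn, hD⟩ := hQ.exists_D h hW
  by_cases hD0 : D = 0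
  · by_contra hr
    push Not at hr
    have hq : ∀ c x, Q c (M.mulVec x) = (-M.transpose).mulVec (Q c x) := by
      intro c x
      have h1 := hD c x
      rw [hD0, LinearMap.zero_apply, map_zero, LinearMap.zero_apply] at h1
      rw [Matrix.neg_mulVec]
      exact (neg_eq_of_add_eq_zero_right h1.symm).symm
    have hiso : ∀ x c, dotB σ K (Q c ((M ^ m).mulVec x)) ((M ^ m).mulVec x) = 0 := by
      intro x c
      rw [iter (hq c), neg_pow, ← Matrix.transpose_pow]
      have h1 : ((-1 : Matrix σ σ K) ^ m * (M ^ m).transpose) =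
          ((-1 : K) ^ m) • (M ^ m).transpose := by
        rcases Nat.even_or_odd m with h | h
        · rw [h.neg_one_pow, h.neg_one_pow, one_mul, one_smul]
        · rw [h.neg_one_pow, h.neg_one_pow, neg_one_mul, neg_one_smul]
      have hpos := h.pos
      have h2 : M ^ m * M ^ m = 0 := by
        rw [← pow_add, show m + m = (m + 1) + (m - 1) by omega, pow_add, h.nil, zero_mul]
      rw [h1, Matrix.smul_mulVec, map_smul, LinearMap.smul_apply, dot_transpose,
        Matrix.mulVec_mulVec, h2, Matrix.zero_mulVec, map_zero, smul_zero]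
    obtain ⟨d1, d2, hd1, hd2⟩ := two_vectors (K := K) hr
    let R1 := LinearMap.range (M ^ m).mulVecLin
    let R2 := LinearMap.range ((M ^ m).transpose).mulVecLin
    have hmem : ∀ d (v : R1), Q d (v : σ → K) ∈ R2 := by
      rintro d ⟨_, x, rfl⟩
      show Q d ((M ^ m).mulVec x) ∈ R2
      rw [iter (hq d), neg_pow, ← Matrix.transpose_pow]
      refine ⟨((-1 : K) ^ m) • Q d x, ?_⟩
      rw [map_smul, Matrix.mulVecLin_apply]
      rcases Nat.even_or_odd m with h | h
      · rw [h.neg_one_pow, h.neg_one_pow, one_mul, one_smul]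
      · rw [h.neg_one_pow, h.neg_one_pow, neg_one_mul, neg_one_smul, Matrix.neg_mulVec]
    let φ : (Fin r → K) → R1 →ₗ[K] R2 := fun d =>
      LinearMap.codRestrict R2 ((Q d).comp R1.subtype) (hmem d)
    have hinj : ∀ d (v : R1), v ≠ 0 → Q d (v : σ → K) = 0 → d = 0 := by
      rintro d ⟨v, x, hx⟩ hv0 h0
      have hv0' : v ≠ 0 := fun h => hv0 (by ext1; exact h)
      have hvc : v ∈ cone I := by
        apply hQ.mem_of_iso h hW
        intro c
        rw [← hx]
        exact hiso x c
      exact hQ.inj_v h hW v hvc hv0' d h0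
    obtain ⟨v, hv0, c, hvc⟩ := exists_pencil (φ d1) (φ d2) (by
        rw [← LinearMap.ker_eq_bot, LinearMap.ker_eq_bot']
        intro v hv
        by_contra hv0
        exact hd1 (hinj d1 v hv0 (congrArg Subtype.val hv))) (by
        have h1 : Module.finrank K R2 = Module.finrank K R1 :=
          Matrix.rank_transpose (M ^ m)
        rw [h1]) (by
        obtain ⟨y, hy, hMy⟩ := exists_top h
        rw [Module.finrank_pos_iff]
        exact ⟨⟨(M ^ m).mulVec y, y, rfl⟩, 0, fun h0 => hMy (congrArg Subtype.val h0)⟩)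
    have h8 : Q d2 (v : σ → K) = c • Q d1 (v : σ → K) := congrArg Subtype.val hvc
    apply hd2 c
    apply hinj _ v hv0
    rw [map_sub, map_smul, LinearMap.sub_apply, LinearMap.smul_apply, h8, sub_self]
  · exfalso
    obtain ⟨c, hc1, hc2⟩ := exists_nilp D hDn hD0
    obtain ⟨y, hy, hMy⟩ := exists_top h
    apply hc1
    apply hQ.inj_v h hW _ (top_cone h y hy) hMy
    have hq1 : ∀ x, Q (D c) (M.mulVec x) = (-M.transpose).mulVec (Q (D c) x) := by
      intro x
      have h1 := hD (D c) x
      rw [hc2, map_zero, LinearMap.zero_apply] at h1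
      rw [Matrix.neg_mulVec]
      exact (neg_eq_of_add_eq_zero_right h1.symm).symm
    have hq : ∀ x, Q c (M.mulVec x) = (-M.transpose).mulVec (Q c x) + Q (D c) x := by
      intro x
      rw [hD, Matrix.neg_mulVec]
      abel
    have h1 := iter2 hq1 hq m y
    have h2 : (-M.transpose) ^ (m + 1) = 0 := by
      rw [neg_pow, ← Matrix.transpose_pow, h.nil, Matrix.transpose_zero, mul_zero]
    rw [h.nil, Matrix.zero_mulVec, map_zero, h2, Matrix.zero_mulVec, zero_add] at h1
    have h3 : ((m : K) + 1) ≠ 0 := by exact_mod_cast Nat.succ_ne_zero m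
    exact (smul_eq_zero.1 h1.symm).resolve_left h3

end QD

/-- The case of a large limit space. -/
theorem alpha [IsAlgClosed K] [CharZero K] (h : Nil M m I r)
    (hW : 3 * r + 1 ≤ Module.finrank K (WW M m)) : r ≤ 1 := by
  obtain ⟨Q, hQ⟩ := exists_Q h hW
  exact hQ.le_one h hW

end Pool.Agent.H929R2.Hart
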