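import Pool.Agent.H929R2.Hart.U10
import Mathlib.RingTheory.MvPolynomial.Ideal

set_option autoImplicit false
set_option maxHeartbeats 400000

namespace Pool.Agent.H929R2.Hart

open MvPolynomial

/-! ### Points at infinity of an affine variety -/

section Top

variable {σ : Type} {K : Type} [Field K]

lemma hc_mul (f g : MvPolynomial σ K) (a b : ℕ) (hg : g.IsHomogeneous b) :
    homogeneousComponent (a + b) (f * g) = homogeneousComponent a f * g := by
  classical
  conv_lhs => rw [← sum_homogeneousComponent f, Finset.sum_mul, map_sum]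
  have h0 : ∀ i, homogeneousComponent (a + b) (homogeneousComponent i f * g) =
      if i = a then homogeneousComponent a f * g else 0 := by
    intro i
    have h1 : (homogeneousComponent i f * g).IsHomogeneous (i + b) :=
      (homogeneousComponent_isHomogeneous i f).mul hg
    rw [homogeneousComponent_of_mem h1]
    by_cases h : i = a
    · rw [if_pos (by omega), if_pos h, h]
    · rw [if_neg (by omega), if_neg h]
  rw [Finset.sum_congr rfl (fun i _ => h0 i), Finset.sum_ite_eq']
  split_ifs with h
  · rfl
  · rw [Finset.mem_range] at h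
    rw [homogeneousComponent_eq_zero a f (by omega), zero_mul]

lemma hc_mul_zero (f g : MvPolynomial σ K) (e b : ℕ) (hg : g.IsHomogeneous b) (he : e < b) :
    homogeneousComponent e (f * g) = 0 := by
  classical
  rw [← sum_homogeneousComponent f, Finset.sum_mul, map_sum]
  refine Finset.sum_eq_zero (fun i _ => ?_)
  have h1 : (homogeneousComponent i f * g).IsHomogeneous (i + b) :=
    (homogeneousComponent_isHomogeneous i f).mul hg
  rw [homogeneousComponent_of_mem h1, if_neg (by omega)]

lemma hc_X_mul (f : MvPolynomial σ K) (i : σ) (e : ℕ) :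
    homogeneousComponent (e + 1) (f * X i) = homogeneousComponent e f * X i :=
  hc_mul f _ e 1 (isHomogeneous_X K i)

lemma hc_X_mul_zero (f : MvPolynomial σ K) (i : σ) :
    homogeneousComponent 0 (f * X i) = 0 :=
  hc_mul_zero f _ 0 1 (isHomogeneous_X K i) Nat.one_pos

/-- `g` is the form of degree `e` of an element of the ideal of degree at most `e` -/
def TopF (P : Ideal (MvPolynomial σ K)) (e : ℕ) (g : MvPolynomial σ K) : Prop :=
  ∃ f ∈ P, homogeneousComponent e f = g ∧ ∀ e' > e, homogeneousComponent e' f = 0

/-- the ideal of the forms of highest degree -/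
noncomputable def topI (P : Ideal (MvPolynomial σ K)) : Ideal (MvPolynomial σ K) where
  carrier := {g | ∀ e, TopF P e (homogeneousComponent e g)}
  zero_mem' := fun e => ⟨0, P.zero_mem, rfl, fun e' _ => map_zero _⟩
  add_mem' := by
    intro g g' hg hg' e
    obtain ⟨f, hf, h1, h2⟩ := hg e
    obtain ⟨f', hf', h1', h2'⟩ := hg' e
    exact ⟨f + f', P.add_mem hf hf', by rw [map_add, map_add, h1, h1'], fun e' he' => by
      rw [map_add, h2 e' he', h2' e' he', add_zero]⟩
  smul_mem' := by
    intro a g hg
    show ∀ e, TopF P e (homogeneousComponent e (a * g))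
    induction a using MvPolynomial.induction_on generalizing g with
    | C c =>
      intro e
      obtain ⟨f, hf, h1, h2⟩ := hg e
      exact ⟨C c * f, P.mul_mem_left _ hf, by
        rw [homogeneousComponent_C_mul, homogeneousComponent_C_mul, h1], fun e' he' => by
        rw [homogeneousComponent_C_mul, h2 e' he', mul_zero]⟩
    | add a b ha hb =>
      intro e
      obtain ⟨f, hf, h1, h2⟩ := ha hg e
      obtain ⟨f', hf', h1', h2'⟩ := hb hg e
      exact ⟨f + f', P.add_mem hf hf', by rw [add_mul, map_add, map_add, h1, h1'], fun e' he' => by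
        rw [map_add, h2 e' he', h2' e' he', add_zero]⟩
    | mul_X a i ha =>
      intro e
      have h0 : a * X i * g = a * (g * X i) := by ring
      rw [h0]
      refine ha (g := g * X i) ?_ e
      intro e
      rcases e with _ | e
      · rw [hc_X_mul_zero]
        exact ⟨0, P.zero_mem, map_zero _, fun e' _ => map_zero _⟩
      · rw [hc_X_mul]
        obtain ⟨f, hf, h1, h2⟩ := hg e
        refine ⟨f * X i, P.mul_mem_right _ hf, by rw [hc_X_mul, h1], fun e' he' => ?_⟩
        obtain ⟨k, rfl⟩ : ∃ k, e' = k + 1 := ⟨e' - 1, by omega⟩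
        rw [hc_X_mul, h2 k (by omega), zero_mul]

lemma mem_topI (P : Ideal (MvPolynomial σ K)) (g : MvPolynomial σ K) :
    g ∈ topI P ↔ ∀ e, TopF P e (homogeneousComponent e g) := Iff.rfl

lemma ext_hc {f g : MvPolynomial σ K}
    (h : ∀ e, homogeneousComponent e f = homogeneousComponent e g) : f = g := by
  classical
  have h1 : ∀ (f : MvPolynomial σ K) (n : ℕ), f.totalDegree < n →
      ∑ e ∈ Finset.range n, homogeneousComponent e f = f := by
    intro f n hn
    conv_rhs => rw [← sum_homogeneousComponent f]
    symm
    apply Finset.sum_subset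
    · intro i hi
      rw [Finset.mem_range] at hi ⊢
      omega
    · intro i _ hi
      rw [Finset.mem_range] at hi
      exact homogeneousComponent_eq_zero i f (by omega)
  refine (h1 f (f.totalDegree + g.totalDegree + 1) (by omega)).symm.trans
    (Eq.trans ?_ (h1 g (f.totalDegree + g.totalDegree + 1) (by omega)))
  exact Finset.sum_congr rfl (fun e _ => h e)

lemma finite_quot (P : Ideal (MvPolynomial σ K)) (S : Set (MvPolynomial σ K)) (hS : S.Finite)
    (h : ∀ g : MvPolynomial σ K, ∃ g' ∈ Submodule.span K S, g - g' ∈ P) :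
    Module.Finite K (MvPolynomial σ K ⧸ P) := by
  have h1 : Module.Finite K (Submodule.span K S) := Module.Finite.span_of_finite K hS
  let φ : Submodule.span K S →ₗ[K] (MvPolynomial σ K ⧸ P) :=
    (Ideal.Quotient.mkₐ K P).toLinearMap.comp (Submodule.span K S).subtype
  have hφ : Function.Surjective φ := by
    intro q
    obtain ⟨g, rfl⟩ := Ideal.Quotient.mk_surjective q
    obtain ⟨g', hg', h4⟩ := h g
    exact ⟨⟨g', hg'⟩, ((Ideal.Quotient.eq).2 h4).symm⟩
  exact Module.Finite.of_surjective φ hφ

/-- A nonmaximal prime ideal has a point at infinity. -/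
theorem exists_infinity [Finite σ] [IsAlgClosed K] (P : Ideal (MvPolynomial σ K)) (hP : P.IsPrime)
    (hmax : ¬ P.IsMaximal) : ∃ y : σ → K, y ≠ 0 ∧ ∀ f ∈ P, ∀ d,
      (∀ e > d, homogeneousComponent e f = 0) → eval y (homogeneousComponent d f) = 0 := by
  classical
  have hmem : ∀ f ∈ P, ∀ d, (∀ e > d, homogeneousComponent e f = 0) →
      homogeneousComponent d f ∈ topI P := by
    intro f hf d hd e
    rw [homogeneousComponent_of_mem (homogeneousComponent_isHomogeneous d f)]
    split_ifs with h
    · subst h
      exact ⟨f, hf, rfl, hd⟩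
    · exact ⟨0, P.zero_mem, map_zero _, fun e' _ => map_zero _⟩
  by_contra hcon
  push Not at hcon
  have hzero : ∀ y : σ → K, (∀ g ∈ topI P, eval y g = 0) → y = 0 := by
    intro y hy
    by_contra hy0
    obtain ⟨f, hf, d, hd, hne⟩ := hcon y hy0
    exact hne (hy _ (hmem f hf d hd))
  have hrad : idealOfVars σ K ≤ (topI P).radical := by
    rw [idealOfVars, Ideal.span_le]
    rintro _ ⟨i, rfl⟩
    rw [SetLike.mem_coe, ← MvPolynomial.vanishingIdeal_zeroLocus_eq_radical (K := K) (topI P),
      MvPolynomial.mem_vanishingIdeal_iff]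
    intro x hx
    have hx0 : x = 0 := by
      apply hzero
      intro g hg
      rw [mem_zeroLocus_iff] at hx
      have := hx g hg
      rwa [MvPolynomial.aeval_eq_eval] at this
    rw [hx0, aeval_X]
    rfl
  obtain ⟨n, hn⟩ := Ideal.exists_pow_le_of_le_radical_of_fg hrad (idealOfVars_fg σ K)
  have hred : ∀ (N : ℕ) (g : MvPolynomial σ K), (∀ e, n + N ≤ e → homogeneousComponent e g = 0) →
      ∃ g', (∀ e, n ≤ e → homogeneousComponent e g' = 0) ∧ g - g' ∈ P := by
    intro N
    induction N with
    | zero => intro g hg; exact ⟨g, hg, by rw [sub_self]; exact P.zero_mem⟩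
    | succ N ih =>
      intro g hg
      have h1 : homogeneousComponent (n + N) g ∈ topI P := by
        apply hn
        rw [mem_pow_idealOfVars_iff]
        intro x hx
        rw [support_homogeneousComponent, Finset.mem_filter] at hx
        omega
      obtain ⟨f, hf, h2, h3⟩ := h1 (n + N)
      rw [homogeneousComponent_of_mem (homogeneousComponent_isHomogeneous _ g), if_pos rfl] at h2
      obtain ⟨g', hg', h4⟩ := ih (g - f) (fun e he => by
        rw [map_sub]
        rcases Nat.eq_or_lt_of_le he with h | h
        · rw [← h, h2, sub_self]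
        · rw [h3 e h, hg e (by omega), sub_zero])
      refine ⟨g', hg', ?_⟩
      have h5 : g - g' = (g - f - g') + f := by ring
      rw [h5]
      exact P.add_mem h4 hf
  have hP' := hP
  -- the quotient is finite dimensional
  let S : Set (MvPolynomial σ K) := (fun x : σ →₀ ℕ => monomial x (1 : K)) '' {x | x.degree < n}
  have hS : S.Finite := (Finsupp.finite_of_degree_lt n).image _
  have hspan : ∀ g' : MvPolynomial σ K, (∀ e, n ≤ e → homogeneousComponent e g' = 0) →
      g' ∈ Submodule.span K S := by
    intro g' hg'
    rw [← support_sum_monomial_coeff g']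
    refine Submodule.sum_mem _ (fun x hx => ?_)
    have h1 : (monomial x (coeff x g') : MvPolynomial σ K) = coeff x g' • monomial x 1 := by
      rw [smul_monomial, smul_eq_mul, mul_one]
    rw [h1]
    apply Submodule.smul_mem
    apply Submodule.subset_span
    refine ⟨x, ?_, rfl⟩
    by_contra hcon
    have hcon : n ≤ x.degree := not_lt.1 hcon
    have h2 := congrArg (coeff x) (hg' _ hcon)
    rw [coeff_homogeneousComponent, if_pos rfl, coeff_zero] at h2
    exact (mem_support_iff.1 hx) h2
  have hfin : Module.Finite K (MvPolynomial σ K ⧸ P) := by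
    apply finite_quot P S hS
    intro g
    obtain ⟨g', hg', h4⟩ := hred (g.totalDegree + 1) g (fun e he =>
      homogeneousComponent_eq_zero e g (by omega))
    exact ⟨g', hspan g' hg', h4⟩
  have hart : IsArtinianRing (MvPolynomial σ K ⧸ P) :=
    isArtinian_of_tower K (isArtinian_of_fg_of_artinian' (R := K) (M := MvPolynomial σ K ⧸ P))
  exact hmax (Ideal.Quotient.maximal_of_isField _ (IsArtinianRing.isField_of_isDomain _))

end Top

end Pool.Agent.H929R2.Hart
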