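import Pool.Agent.H929R2.Hart.W11
import Mathlib.RingTheory.Ideal.KrullsHeightTheorem
import Mathlib.RingTheory.Nullstellensatz

set_option autoImplicit false
set_option maxHeartbeats 400000

namespace Pool.Agent.H929R2.Hart

/-! ### Common zeros of homogeneous forms -/

/-- kill the variables `X_j`, `j < i` -/
noncomputable def kil (L : Type*) [Field L] (m i : ℕ) :
    MvPolynomial (Fin m) L →ₐ[L] MvPolynomial (Fin m) L :=
  MvPolynomial.aeval (fun j : Fin m => if (j : ℕ) < i then 0 else MvPolynomial.X j)

theorem kil_height (L : Type*) [Field L] (m : ℕ) : ∀ i : ℕ, i ≤ m →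
    (i : ℕ∞) ≤ (RingHom.ker (kil L m i)).height := by
  intro i
  induction i with
  | zero => intro _; simp
  | succ i ih =>
    intro hi
    have h1 := ih (by omega)
    have hlt : RingHom.ker (kil L m i) < RingHom.ker (kil L m (i + 1)) := by
      refine lt_of_le_of_ne ?_ ?_
      · intro f hf
        rw [RingHom.mem_ker] at hf ⊢
        have hcomp : (kil L m (i + 1)).comp (kil L m i) = kil L m (i + 1) := by
          apply MvPolynomial.algHom_ext
          intro j
          unfold kil
          rw [AlgHom.comp_apply, MvPolynomial.aeval_X, MvPolynomial.aeval_X]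
          by_cases hj : (j : ℕ) < i
          · rw [if_pos hj, if_pos (by omega), map_zero]
          · rw [if_neg hj, MvPolynomial.aeval_X]
        rw [← hcomp, AlgHom.comp_apply, hf, map_zero]
      · intro heq
        have h2 : (MvPolynomial.X ⟨i, by omega⟩ : MvPolynomial (Fin m) L) ∈
            RingHom.ker (kil L m (i + 1)) := by
          rw [RingHom.mem_ker]
          unfold kil
          rw [MvPolynomial.aeval_X, if_pos (by simp)]
        rw [← heq, RingHom.mem_ker] at h2
        unfold kil at h2
        rw [MvPolynomial.aeval_X, if_neg (by simp)] at h2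
        exact MvPolynomial.X_ne_zero _ h2
    have hp1 : (RingHom.ker (kil L m i)).IsPrime := RingHom.ker_isPrime _
    have hp2 : (RingHom.ker (kil L m (i + 1))).IsPrime := RingHom.ker_isPrime _
    have h3 := Ideal.height_add_one_le_of_lt_of_isPrime hlt
    push_cast
    exact le_trans (by gcongr) h3

theorem common_zero {L : Type*} [Field L] [IsAlgClosed L] {m q : ℕ} (hq : q < m)
    (F : Fin q → MvPolynomial (Fin m) L) (e : Fin q → ℕ) (he : ∀ i, 0 < e i)
    (hF : ∀ i, (F i).IsHomogeneous (e i)) :
    ∃ c : Fin m → L, c ≠ 0 ∧ ∀ i, MvPolynomial.eval c (F i) = 0 := by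
  by_contra hcon
  push Not at hcon
  set I : Ideal (MvPolynomial (Fin m) L) := Ideal.span (Set.range F) with hI
  set P : Ideal (MvPolynomial (Fin m) L) := RingHom.ker (kil L m m) with hP
  have hPmem : ∀ f, f ∈ P ↔ MvPolynomial.eval (0 : Fin m → L) f = 0 := by
    intro f
    rw [hP, RingHom.mem_ker]
    have h1 : kil L m m = (MvPolynomial.aeval (0 : Fin m → MvPolynomial (Fin m) L)) := by
      unfold kil
      congr 1
      funext j
      rw [if_pos j.2]
      rfl
    rw [h1, MvPolynomial.aeval_zero]
    have h2 : MvPolynomial.eval (0 : Fin m → L) f = MvPolynomial.constantCoeff f := by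
      rw [MvPolynomial.eval_zero]
    rw [h2, MvPolynomial.algebraMap_eq, MvPolynomial.C_eq_zero]
  have hPprime : P.IsPrime := RingHom.ker_isPrime _
  have hIP : I ≤ P := by
    rw [hI, Ideal.span_le]
    rintro _ ⟨i, rfl⟩
    rw [SetLike.mem_coe, hPmem]
    rw [MvPolynomial.eval_zero]
    by_contra hne
    rw [MvPolynomial.constantCoeff_eq] at hne
    have := hF i hne
    simp at this
    have := he i
    omega
  have hPrad : P ≤ I.radical := by
    rw [← MvPolynomial.vanishingIdeal_zeroLocus_eq_radical (K := L) I]
    intro f hf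
    rw [MvPolynomial.mem_vanishingIdeal_iff]
    intro x hx
    rw [hI, MvPolynomial.zeroLocus_span] at hx
    have hx0 : x = 0 := by
      by_contra hne
      obtain ⟨i, hi⟩ := hcon x hne
      refine hi ?_
      have := hx (F i) ⟨i, rfl⟩
      rwa [MvPolynomial.aeval_eq_eval] at this
    rw [hx0]
    have := (hPmem f).1 hf
    rwa [MvPolynomial.aeval_eq_eval]
  have hmin : P ∈ I.minimalPrimes := by
    refine ⟨⟨hPprime, hIP⟩, ?_⟩
    intro Q hQ _
    exact hPrad.trans ((hQ.1.radical_le_iff).2 hQ.2)
  have h1 := Ideal.height_le_card_of_mem_minimalPrimes_span (Set.finite_range F) hmin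
  have h2 := kil_height L m m le_rfl
  have h3 : (Set.range F).ncard ≤ q := by
    have := Set.ncard_image_le (s := (Set.univ : Set (Fin q))) (f := F)
    rw [Set.image_univ, Set.ncard_univ] at this
    simpa using this
  have h4 : (m : ℕ∞) ≤ ((Set.range F).ncard : ℕ∞) := h2.trans h1
  have h5 : m ≤ (Set.range F).ncard := by exact_mod_cast h4
  omega

open MvPolynomial

/-- Common isotropic vectors of fewer than `dim U` bilinear forms on `U`. -/
theorem exists_isotropic {K : Type} [Field K] [IsAlgClosed K] {V : Type} [AddCommGroup V]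
    [Module K V] (U : Submodule K V) [FiniteDimensional K U] {ι : Type} [Fintype ι]
    (β : ι → V →ₗ[K] V →ₗ[K] K) (hcard : Fintype.card ι < Module.finrank K U) :
    ∃ a ∈ U, a ≠ 0 ∧ ∀ i, β i a a = 0 := by
  classical
  let b := Module.finBasis K U
  let e := Fintype.equivFin ι
  let F : Fin (Fintype.card ι) → MvPolynomial (Fin (Module.finrank K U)) K := fun q =>
    ∑ j, ∑ k, C (β (e.symm q) (b j : V) (b k : V)) * (X j * X k)
  obtain ⟨c, hc0, hc⟩ := common_zero hcard F (fun _ => 2) (fun _ => by norm_num) (fun q => by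
    refine IsHomogeneous.sum _ _ _ (fun j _ => IsHomogeneous.sum _ _ _ (fun k _ => ?_))
    have h1 : (C (β (e.symm q) (b j : V) (b k : V)) : MvPolynomial (Fin (Module.finrank K U)) K).IsHomogeneous 0 :=
      isHomogeneous_C _ _
    have h2 := h1.mul ((isHomogeneous_X K j).mul (isHomogeneous_X K k))
    simpa using h2)
  refine ⟨((∑ j, c j • b j : U) : V), Submodule.coe_mem _, ?_, ?_⟩
  · intro h0
    apply hc0
    have h1 : (∑ j, c j • b j : U) = 0 := by ext1; exact h0
    funext j
    exact Fintype.linearIndependent_iff.1 b.linearIndependent c h1 j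
  · intro i
    have h1 := hc (e i)
    simp only [F, map_sum, map_mul, eval_C, eval_X, Equiv.symm_apply_apply] at h1
    simp only [Submodule.coe_sum, map_sum, LinearMap.sum_apply, Submodule.coe_smul, map_smul,
      LinearMap.smul_apply, smul_eq_mul, Finset.mul_sum]
    rw [Finset.sum_comm]
    refine (Finset.sum_congr rfl (fun j _ => Finset.sum_congr rfl (fun k _ => ?_))).trans h1
    ring

end Pool.Agent.H929R2.Hart
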