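import Pool.Agent.H929R2.Hart.U11
import Pool.Agent.H929R2.Hart.W12

set_option autoImplicit false
set_option maxHeartbeats 400000

namespace Pool.Agent.H929R2.Hart

open MvPolynomial

variable {σ : Type} [Fintype σ] [DecidableEq σ] {K : Type} [Field K]

/-- the polynomial `G(Y + p)` -/
noncomputable def sh (p : σ → K) : MvPolynomial σ K →ₐ[K] MvPolynomial σ K :=
  aeval (fun i => X i + C (p i))

omit [Fintype σ] [DecidableEq σ] in
lemma eval_sh (p y : σ → K) (G : MvPolynomial σ K) : eval y (sh p G) = eval (y + p) G := by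
  have : (eval y).comp (sh p).toRingHom = eval (y + p) := by
    apply MvPolynomial.ringHom_ext
    · intro c; simp [sh]
    · intro i; simp [sh]
  exact RingHom.congr_fun this G

omit [Fintype σ] [DecidableEq σ] in
lemma sh_sh (p : σ → K) (G : MvPolynomial σ K) : sh p (sh (-p) G) = G := by
  have : (sh p).comp (sh (-p)) = AlgHom.id K _ := by
    apply MvPolynomial.algHom_ext
    intro i
    simp [sh]
  exact AlgHom.congr_fun this G

omit [Fintype σ] [DecidableEq σ] in
lemma aeval_sh (p : σ → K) (P : σ → Polynomial K) (G : MvPolynomial σ K) :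
    eval P (io (sh p G)) = eval (P + cv p) (io G) := by
  rw [eval_io, eval_io]
  have : (aeval P : MvPolynomial σ K →ₐ[K] Polynomial K).comp (sh p) = aeval (P + cv p) := by
    apply MvPolynomial.algHom_ext
    intro i
    simp [sh, cv]
  exact AlgHom.congr_fun this G

omit [DecidableEq σ] in
lemma lin_mem (u : σ → K) : lin u ∈ idealOfVars σ K := by
  rw [lin]
  refine Ideal.sum_mem _ (fun i _ => Ideal.mul_mem_left _ _ ?_)
  exact Ideal.subset_span ⟨i, rfl⟩

omit [DecidableEq σ] in
lemma sh_expand (p : σ → K) (Ψ : MvPolynomial σ K) :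
    sh p Ψ - C (eval p Ψ) - lin (grad Ψ p) ∈ idealOfVars σ K ^ 2 := by
  classical
  induction Ψ using MvPolynomial.induction_on with
  | C a =>
    have h1 : grad (C a) p = 0 := by funext i; simp [grad]
    rw [h1, lin_zero]
    simp [sh]
  | add f g hf hg =>
    have h1 : sh p (f + g) - C (eval p (f + g)) - lin (grad (f + g) p) =
        (sh p f - C (eval p f) - lin (grad f p)) + (sh p g - C (eval p g) - lin (grad g p)) := by
      rw [map_add, map_add, grad_add, lin_add, map_add]; ring
    rw [h1]
    exact Ideal.add_mem _ hf hg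
  | mul_X f i hf =>
    have h1 : grad (f * X i) p = p i • grad f p + eval p f • (Pi.single i 1 : σ → K) := by
      rw [grad_mul, grad_X, eval_X]
    have h2 : sh p (f * X i) = sh p f * (X i + C (p i)) := by
      rw [map_mul]; simp [sh]
    have h3 : sh p (f * X i) - C (eval p (f * X i)) - lin (grad (f * X i) p) =
        (sh p f - C (eval p f) - lin (grad f p)) * (X i + C (p i)) + lin (grad f p) * X i := by
      rw [h1, h2, lin_add, lin_smul, lin_smul, lin_single, map_mul, eval_X, map_mul]
      ring
    rw [h3]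
    refine Ideal.add_mem _ (Ideal.mul_mem_right _ _ hf) ?_
    rw [pow_two]
    exact Ideal.mul_mem_mul (lin_mem _) (Ideal.subset_span ⟨i, rfl⟩)

omit [DecidableEq σ] in
lemma grads_span {I : Ideal (MvPolynomial σ K)} {r : ℕ} (hI : SCone I r) (p : σ → K)
    (hp : p ∈ cone I) (hp0 : p ≠ 0) (F : Fin r → MvPolynomial σ K) (hF : ∀ i, F i ∈ I)
    (hind : LinearIndependent K (fun i => grad (F i) p)) (ξ : σ → K) (hξ : ξ ∈ conormal I p) :
    ∃ c, uu F p c = ξ := by
  have h1 : LinearMap.range (uu F p) = conormal I p := by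
    apply Submodule.eq_of_le_of_finrank_eq
    · rintro _ ⟨c, rfl⟩
      exact uu_mem F hF c p
    · rw [LinearMap.finrank_range_of_inj, Module.finrank_fintype_fun_eq_card, Fintype.card_fin,
        hI.rank p hp hp0]
      rw [← LinearMap.ker_eq_bot, LinearMap.ker_eq_bot']
      exact fun c hc => uu_injective hind c hc
  rw [← h1] at hξ
  exact hξ

omit [Fintype σ] [DecidableEq σ] in
lemma dvd_aeval (w : σ → Polynomial K) (n : ℕ) (E : MvPolynomial σ K)
    (hE : E ∈ idealOfVars σ K ^ n) :
    (Polynomial.X : Polynomial K) ^ n ∣ eval ((Polynomial.X : Polynomial K) • w) (io E) := by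
  rw [eval_io]
  have h1 : (idealOfVars σ K).map (aeval ((Polynomial.X : Polynomial K) • w) :
      MvPolynomial σ K →ₐ[K] Polynomial K) ≤ Ideal.span {Polynomial.X} := by
    rw [idealOfVars, Ideal.map_span, Ideal.span_le]
    rintro _ ⟨_, ⟨i, rfl⟩, rfl⟩
    rw [SetLike.mem_coe, Ideal.mem_span_singleton]
    simp
  have h2 : aeval ((Polynomial.X : Polynomial K) • w) E ∈
      (Ideal.span {(Polynomial.X : Polynomial K)}) ^ n := by
    have h3 := Ideal.mem_map_of_mem (aeval ((Polynomial.X : Polynomial K) • w) :
      MvPolynomial σ K →ₐ[K] Polynomial K) hE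
    rw [Ideal.map_pow] at h3
    exact Ideal.pow_right_mono h1 n h3
  rwa [Ideal.span_singleton_pow, Ideal.mem_span_singleton] at h2

section LG

variable {I : Ideal (MvPolynomial σ K)} {r : ℕ}

omit [Fintype σ] [DecidableEq σ] in
lemma sub_hc_mem (k : ℕ) (E : MvPolynomial σ K) (hE : E ∈ idealOfVars σ K ^ k) :
    E - homogeneousComponent k E ∈ idealOfVars σ K ^ (k + 1) := by
  rw [mem_pow_idealOfVars_iff'] at hE ⊢
  intro x hx
  rw [coeff_sub, coeff_homogeneousComponent]
  split_ifs with h
  · rw [sub_self]
  · rw [hE x (by omega), sub_zero]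

/-- the form of lowest degree of an element of the ideal vanishes on the tangent space -/
lemma hc_tangent [IsAlgClosed K] [CharZero K] (hI : SCone I r) (p : σ → K)
    (hp : p ∈ cone I) (hp0 : p ≠ 0) (F : Fin r → MvPolynomial σ K) (hF : ∀ i, F i ∈ I)
    (hind : LinearIndependent K (fun i => grad (F i) p)) (k : ℕ) (G : MvPolynomial σ K)
    (hG : G ∈ I) (hE : sh p G ∈ idealOfVars σ K ^ k) (u : σ → K) (hu : u ∈ tangent I p) :
    eval u (homogeneousComponent k (sh p G)) = 0 := by
  obtain ⟨W, hW⟩ := exists_dual_vectors _ hind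
  have hc0 : at0 (cv p + (Polynomial.X : Polynomial K) • cv u) = p := by
    rw [at0_add, at0_cv, at0_smul, Polynomial.eval_X, zero_smul, add_zero]
  have hdiv : ∀ i, (Polynomial.X : Polynomial K) ^ 2 ∣
      eval (cv p + (Polynomial.X : Polynomial K) • cv u) (io (F i)) := by
    intro i
    obtain ⟨R, hR⟩ := taylor1 (io (F i)) (cv p) (cv u) Polynomial.X
    rw [hR, eval_io_cv, hp _ (hF i), map_zero, zero_add, gT_io_cv]
    have h1 : cv (grad (F i) p) ⬝ᵥ cv u = 0 := by
      have h2 := tangent_conormal I p (grad_mem I p (hF i)) hu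
      rw [dotB_apply] at h2
      have h3 : cv (grad (F i) p) ⬝ᵥ cv u = Polynomial.C (∑ k, grad (F i) p k * u k) := by
        rw [map_sum]
        exact Finset.sum_congr rfl (fun k _ => by simp [cv])
      rw [h3, h2, map_zero]
    rw [h1, mul_zero, zero_add]
    exact Dvd.intro _ rfl
  obtain ⟨a, ha⟩ := exists_arc hI p hp hp0 F hF hind W hW _ hc0 2 (by norm_num) hdiv
  set w : σ → Polynomial K := cv u + (Polynomial.X : Polynomial K) • ∑ j, a (k + 1) j • cv (W j)
    with hw
  have h1 := ha (k + 1) G hG
  have h2 : cv p + (Polynomial.X : Polynomial K) • cv u + (Polynomial.X : Polynomial K) ^ 2 •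
      ∑ j, a (k + 1) j • cv (W j) = (Polynomial.X : Polynomial K) • w + cv p := by
    rw [hw, smul_add, smul_smul, ← pow_two]
    abel
  rw [h2, ← aeval_sh] at h1
  set E := sh p G with hEdef
  have h3 : eval ((Polynomial.X : Polynomial K) • w) (io E) =
      (Polynomial.X : Polynomial K) ^ k * eval w (io (homogeneousComponent k E)) +
      eval ((Polynomial.X : Polynomial K) • w) (io (E - homogeneousComponent k E)) := by
    rw [← eval_homog_smul (io (homogeneousComponent k E)) k
      ((homogeneousComponent_isHomogeneous k E).map _)]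
    have h4 : io E = io (homogeneousComponent k E) + io (E - homogeneousComponent k E) := by
      rw [io, io, io, ← map_add]; congr 1; ring
    conv_lhs => rw [h4]
    rw [map_add]
  have h5 := dvd_aeval w (k + 1) _ (sub_hc_mem k E hE)
  rw [h3] at h1
  have h6 := (dvd_add_left h5).1 h1
  rw [pow_succ] at h6
  have h7 := (mul_dvd_mul_iff_left (pow_ne_zero k Polynomial.X_ne_zero)).1 h6
  rw [Polynomial.X_dvd_iff, Polynomial.coeff_zero_eq_eval_zero, eval_io_zero] at h7
  have h8 : at0 w = u := by
    rw [hw, at0_add, at0_cv, at0_smul, Polynomial.eval_X, zero_smul, add_zero]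
  rwa [h8] at h7

lemma LG_step [IsAlgClosed K] [CharZero K] (hI : SCone I r) (p : σ → K)
    (hp : p ∈ cone I) (hp0 : p ≠ 0) (F : Fin r → MvPolynomial σ K) (hF : ∀ i, F i ∈ I)
    (hind : LinearIndependent K (fun i => grad (F i) p)) (k : ℕ) (G : MvPolynomial σ K)
    (hG : G ∈ I) (hE : sh p G ∈ idealOfVars σ K ^ k) :
    sh p G ∈ (Ideal.span (Set.range F)).map (sh p) ⊔ idealOfVars σ K ^ (k + 1) := by
  have hT := hc_tangent hI p hp hp0 F hF hind k G hG hE
  set E := sh p G with hEdef
  have hsub := sub_hc_mem k E hE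
  rcases k with _ | k
  · -- constant term
    have h1 : homogeneousComponent 0 E = 0 := by
      have h2 := hT 0 (Submodule.zero_mem _)
      rw [homogeneousComponent_zero, eval_C] at h2
      rw [homogeneousComponent_zero, h2, map_zero]
    rw [h1, sub_zero] at hsub
    exact Ideal.mem_sup_right hsub
  obtain ⟨W, hW⟩ := exists_dual_vectors _ hind
  set lam : Fin r → MvPolynomial σ K := fun i => lin (grad (F i) p) with hlam
  let prj : MvPolynomial σ K →ₐ[K] MvPolynomial σ K :=
    aeval (fun j => X j - ∑ i, lam i * C (W i j))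
  have hpr1 : ∀ f, f - prj f ∈ Ideal.span (Set.range lam) := by
    intro f
    rw [← Ideal.Quotient.eq]
    have h1 : Ideal.Quotient.mkₐ K (Ideal.span (Set.range lam)) =
        (Ideal.Quotient.mkₐ K (Ideal.span (Set.range lam))).comp prj := by
      apply MvPolynomial.algHom_ext
      intro j
      rw [AlgHom.comp_apply, aeval_X]
      refine (Ideal.Quotient.eq).2 ?_
      have h2 : X j - (X j - ∑ i, lam i * C (W i j)) = ∑ i, lam i * C (W i j) := by ring
      rw [h2]
      exact Ideal.sum_mem _ (fun i _ => Ideal.mul_mem_right _ _ (Ideal.subset_span ⟨i, rfl⟩))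
    exact AlgHom.congr_fun h1 f
  have hpr2 : prj (homogeneousComponent (k + 1) E) = 0 := by
    apply MvPolynomial.funext
    intro y
    rw [map_zero]
    have h1 : eval y (prj (homogeneousComponent (k + 1) E)) =
        eval (y - ∑ i, dotB σ K (grad (F i) p) y • W i) (homogeneousComponent (k + 1) E) := by
      have h2 : (eval y).comp prj.toRingHom = eval (y - ∑ i, dotB σ K (grad (F i) p) y • W i) := by
        apply MvPolynomial.ringHom_ext
        · intro c; simp [prj]
        · intro j
          simp [prj, hlam, eval_lin, Finset.sum_apply]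
      exact RingHom.congr_fun h2 _
    rw [h1]
    apply hT
    rw [mem_tangent']
    intro ξ hξ
    obtain ⟨c, rfl⟩ := grads_span hI p hp hp0 F hF hind ξ hξ
    rw [uu_apply, map_sum, LinearMap.sum_apply]
    refine Finset.sum_eq_zero (fun i _ => ?_)
    rw [map_smul, LinearMap.smul_apply, map_sub, map_sum, Finset.sum_eq_single i]
    · rw [map_smul, hW, if_pos rfl]
      simp
    · intro j _ hj
      rw [map_smul, hW, if_neg (fun h => hj h.symm), smul_zero]
    · intro h; exact absurd (Finset.mem_univ _) h
  have h1 := hpr1 (homogeneousComponent (k + 1) E)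
  rw [hpr2, sub_zero] at h1
  obtain ⟨B, hB⟩ := Ideal.mem_span_range_iff_exists_fun.1 h1
  have h2 : homogeneousComponent (k + 1) E = ∑ i, homogeneousComponent k (B i) * lam i := by
    have h3 := congrArg (homogeneousComponent (k + 1)) hB
    rw [homogeneousComponent_of_mem (homogeneousComponent_isHomogeneous _ E), if_pos rfl,
      map_sum] at h3
    rw [← h3]
    exact Finset.sum_congr rfl (fun i _ => hc_mul _ _ k 1 (lin_homog _))
  have h3 : E = ∑ i, homogeneousComponent k (B i) * sh p (F i) +
      (∑ i, -(homogeneousComponent k (B i) * (sh p (F i) - C (eval p (F i)) - lam i)) +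
        (E - homogeneousComponent (k + 1) E)) := by
    have h4 : ∑ i, homogeneousComponent k (B i) * sh p (F i) +
      ∑ i, -(homogeneousComponent k (B i) * (sh p (F i) - C (eval p (F i)) - lam i)) =
        homogeneousComponent (k + 1) E := by
      rw [h2, ← Finset.sum_add_distrib]
      refine Finset.sum_congr rfl (fun i _ => ?_)
      rw [hp _ (hF i), map_zero]
      ring
    rw [← add_assoc, h4]
    ring
  rw [h3]
  refine Ideal.add_mem _ (Ideal.mem_sup_left ?_) (Ideal.mem_sup_right (Ideal.add_mem _ ?_ hsub))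
  · exact Ideal.sum_mem _ (fun i _ => Ideal.mul_mem_left _ _
      (Ideal.mem_map_of_mem _ (Ideal.subset_span ⟨i, rfl⟩)))
  · refine Ideal.sum_mem _ (fun i _ => neg_mem ?_)
    have h5 : homogeneousComponent k (B i) ∈ idealOfVars σ K ^ k := by
      rw [mem_pow_idealOfVars_iff]
      intro x hx
      rw [support_homogeneousComponent, Finset.mem_filter] at hx
      omega
    have h6 := Ideal.mul_mem_mul h5 (sh_expand p (F i))
    rw [← pow_add] at h6
    exact h6

/-- Near a smooth point the ideal is generated by `r` elements with independent gradients. -/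
theorem LG [IsAlgClosed K] [CharZero K] (hI : SCone I r) (p : σ → K)
    (hp : p ∈ cone I) (hp0 : p ≠ 0) (F : Fin r → MvPolynomial σ K) (hF : ∀ i, F i ∈ I)
    (hind : LinearIndependent K (fun i => grad (F i) p)) (k : ℕ) :
    ∀ G ∈ I, sh p G ∈ (Ideal.span (Set.range F)).map (sh p) ⊔ idealOfVars σ K ^ k := by
  induction k with
  | zero =>
    intro G hG
    apply Ideal.mem_sup_right
    rw [pow_zero, Ideal.one_eq_top]; exact Submodule.mem_top
  | succ k ih =>
    intro G hG
    obtain ⟨j, hj, E, hE, hsum⟩ := Submodule.mem_sup.1 (ih G hG)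
    have hsurj : Function.Surjective (sh p) := fun f => ⟨_, sh_sh p f⟩
    obtain ⟨j', hj', hj2⟩ := (Ideal.mem_map_iff_of_surjective (sh p) hsurj).1 hj
    have hj'I : j' ∈ I := by
      have : Ideal.span (Set.range F) ≤ I := by
        rw [Ideal.span_le]; rintro _ ⟨i, rfl⟩; exact hF i
      exact this hj'
    have hEe : sh p (G - j') = E := by
      rw [map_sub, hj2, ← hsum]; ring
    have h1 := LG_step hI p hp hp0 F hF hind k (G - j') (I.sub_mem hG hj'I) (by rw [hEe]; exact hE)
    rw [hEe] at h1
    rw [← hsum]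
    exact Ideal.add_mem _ (Ideal.mem_sup_left hj) h1

end LG

end Pool.Agent.H929R2.Hart
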