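import Pool.Agent.H929R2.Hart.U12

set_option autoImplicit false
set_option maxHeartbeats 400000

namespace Pool.Agent.H929R2.Hart

open MvPolynomial

variable {σ : Type} [Fintype σ] [DecidableEq σ] {K : Type} [Field K]

/-! ### Heights -/

section Height

variable {n : ℕ}

/-- kill the variables of index less than `i` -/
noncomputable def kil' (K : Type) [Field K] (e : σ ≃ Fin n) (i : ℕ) :
    MvPolynomial σ K →ₐ[K] MvPolynomial σ K :=
  aeval (fun j : σ => if (e j : ℕ) < i then 0 else X j)

omit [Fintype σ] [DecidableEq σ] in
theorem kil'_height (e : σ ≃ Fin n) : ∀ i : ℕ, i ≤ n →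
    (i : ℕ∞) ≤ (RingHom.ker (kil' K e i)).height := by
  intro i
  induction i with
  | zero => intro _; simp
  | succ i ih =>
    intro hi
    have h1 := ih (by omega)
    have hlt : RingHom.ker (kil' K e i) < RingHom.ker (kil' K e (i + 1)) := by
      refine lt_of_le_of_ne ?_ ?_
      · intro f hf
        rw [RingHom.mem_ker] at hf ⊢
        have hcomp : (kil' K e (i + 1)).comp (kil' K e i) = kil' K e (i + 1) := by
          apply MvPolynomial.algHom_ext
          intro j
          unfold kil'
          rw [AlgHom.comp_apply, MvPolynomial.aeval_X, MvPolynomial.aeval_X]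
          by_cases hj : (e j : ℕ) < i
          · rw [if_pos hj, if_pos (by omega), map_zero]
          · rw [if_neg hj, MvPolynomial.aeval_X]
        rw [← hcomp, AlgHom.comp_apply, hf, map_zero]
      · intro heq
        have h2 : (MvPolynomial.X (e.symm ⟨i, by omega⟩) : MvPolynomial σ K) ∈
            RingHom.ker (kil' K e (i + 1)) := by
          rw [RingHom.mem_ker]
          unfold kil'
          rw [MvPolynomial.aeval_X, if_pos (by simp)]
        rw [← heq, RingHom.mem_ker] at h2
        unfold kil' at h2
        rw [MvPolynomial.aeval_X, if_neg (by simp)] at h2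
        exact MvPolynomial.X_ne_zero _ h2
    have hp1 : (RingHom.ker (kil' K e i)).IsPrime := RingHom.ker_isPrime _
    have hp2 : (RingHom.ker (kil' K e (i + 1))).IsPrime := RingHom.ker_isPrime _
    have h3 := Ideal.height_add_one_le_of_lt_of_isPrime hlt
    push_cast
    exact le_trans (by gcongr) h3

omit [DecidableEq σ] in
lemma mem_idealOfVars (f : MvPolynomial σ K) : f ∈ idealOfVars σ K ↔ eval 0 f = 0 := by
  rw [← pow_one (idealOfVars σ K), mem_pow_idealOfVars_iff']
  constructor
  · intro h
    rw [eval_zero, constantCoeff_eq]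
    exact h 0 (by simp)
  · intro h x hx
    rw [eval_zero, constantCoeff_eq] at h
    have : x = 0 := by
      rw [← Finsupp.degree_eq_zero_iff]; omega
    rw [this]; exact h

omit [DecidableEq σ] in
lemma height_vars : (Fintype.card σ : ℕ∞) ≤ (idealOfVars σ K).height := by
  classical
  let e := Fintype.equivFin σ
  have h1 := kil'_height (K := K) e (Fintype.card σ) le_rfl
  have h2 : RingHom.ker (kil' K e (Fintype.card σ)) = idealOfVars σ K := by
    ext f
    rw [RingHom.mem_ker, mem_idealOfVars]
    have h3 : kil' K e (Fintype.card σ) = (MvPolynomial.aeval (0 : σ → MvPolynomial σ K)) := by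
      unfold kil'
      congr 1
      funext j
      rw [if_pos (e j).2]
      rfl
    rw [h3, MvPolynomial.aeval_zero, MvPolynomial.algebraMap_eq, MvPolynomial.C_eq_zero,
      MvPolynomial.eval_zero]
  rw [h2] at h1
  exact h1

omit [DecidableEq σ] in
lemma vars_prime : (idealOfVars σ K).IsPrime := by
  have h1 : idealOfVars σ K = RingHom.ker (eval (0 : σ → K)) := by
    ext f
    rw [RingHom.mem_ker, mem_idealOfVars]
  rw [h1]
  exact RingHom.ker_isPrime _

end Height

/-! ### The forms of highest degree of a translate -/

omit [DecidableEq σ] in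
lemma eval_hc_sum (f : MvPolynomial σ K) (n : ℕ) (hn : f.totalDegree < n) (y : σ → K) (t : K) :
    eval (t • y) f = ∑ e ∈ Finset.range n, t ^ e * eval y (homogeneousComponent e f) := by
  conv_lhs => rw [← sum_homogeneousComponent f, map_sum]
  have h1 : ∑ e ∈ Finset.range (f.totalDegree + 1), eval (t • y) (homogeneousComponent e f) =
      ∑ e ∈ Finset.range n, eval (t • y) (homogeneousComponent e f) := by
    apply Finset.sum_subset
    · intro i hi
      rw [Finset.mem_range] at hi ⊢
      omega
    · intro i _ hi
      rw [Finset.mem_range] at hi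
      rw [homogeneousComponent_eq_zero i f (by omega), map_zero]
  rw [h1]
  refine Finset.sum_congr rfl (fun e _ => ?_)
  rw [eval_hscale (homogeneousComponent_isHomogeneous e f)]

omit [DecidableEq σ] in
/-- the coefficients of a homogeneous polynomial along a line -/
lemma line_coeff [Infinite K] (G : MvPolynomial σ K) (d : ℕ) (hd : G.IsHomogeneous d)
    (y p : σ → K) : (∀ e, d < e → eval y (homogeneousComponent e (sh p G)) = 0) ∧
      ∀ e, e ≤ d → eval y (homogeneousComponent e (sh p G)) = (line G y p).coeff (d - e) := by
  set n := (sh p G).totalDegree + d + (line G y p).natDegree + 1 with hn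
  have key : ∑ e ∈ Finset.range n, Polynomial.C (eval y (homogeneousComponent e (sh p G))) *
      Polynomial.X ^ (e + n) = ∑ i ∈ Finset.range n, Polynomial.C ((line G y p).coeff i) *
      Polynomial.X ^ (d + n - i) := by
    rw [← sub_eq_zero]
    apply poly_eq_zero
    intro t ht
    have h1 : eval (t • y) (sh p G) = t ^ d * (line G y p).eval t⁻¹ := by
      rw [eval_sh, eval_line, ← eval_hscale hd, smul_add, smul_smul, mul_inv_cancel₀ ht, one_smul]
    rw [eval_hc_sum _ n (by omega), Polynomial.eval_eq_sum_range' (n := n) (by omega)] at h1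
    rw [Polynomial.eval_sub, Polynomial.eval_finsetSum, Polynomial.eval_finsetSum, sub_eq_zero]
    simp only [Polynomial.eval_mul, Polynomial.eval_C, Polynomial.eval_pow, Polynomial.eval_X]
    have h2 := congrArg (fun z => t ^ n * z) h1
    simp only [Finset.mul_sum] at h2
    calc ∑ e ∈ Finset.range n, eval y (homogeneousComponent e (sh p G)) * t ^ (e + n) =
        ∑ e ∈ Finset.range n, t ^ n * (t ^ e * eval y (homogeneousComponent e (sh p G))) := by
          refine Finset.sum_congr rfl (fun e _ => ?_)
          rw [pow_add]; ring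
      _ = ∑ i ∈ Finset.range n, t ^ n * (t ^ d * ((line G y p).coeff i * t⁻¹ ^ i)) := h2
      _ = _ := by
          refine Finset.sum_congr rfl (fun i hi => ?_)
          rw [Finset.mem_range] at hi
          have h3 : t ^ (d + n) = t ^ (d + n - i) * t ^ i := by rw [← pow_add]; congr 1; omega
          have h4 : t ^ n * (t ^ d * ((line G y p).coeff i * t⁻¹ ^ i)) =
              (line G y p).coeff i * (t ^ (d + n) * t⁻¹ ^ i) := by rw [pow_add]; ring
          rw [h4, h3, inv_pow, mul_assoc, mul_inv_cancel₀ (pow_ne_zero _ ht), mul_one]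
  have hco : ∀ k, (if k ∈ Finset.range n then
      eval y (homogeneousComponent k (sh p G)) else 0) =
      if k ≤ d then (line G y p).coeff (d - k) else 0 := by
    intro k
    have h1 := congrArg (fun P => Polynomial.coeff P (k + n)) key
    simp only [Polynomial.finsetSum_coeff, Polynomial.coeff_C_mul, Polynomial.coeff_X_pow,
      mul_ite, mul_one, mul_zero] at h1
    have h2 : ∑ e ∈ Finset.range n, (if k + n = e + n then
        eval y (homogeneousComponent e (sh p G)) else 0) = if k ∈ Finset.range n then
      eval y (homogeneousComponent k (sh p G)) else 0 := by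
      have h3 : ∀ e, (if k + n = e + n then eval y (homogeneousComponent e (sh p G)) else 0) =
          if k = e then eval y (homogeneousComponent e (sh p G)) else 0 := by
        intro e
        by_cases h : k = e
        · rw [if_pos (by omega), if_pos h]
        · rw [if_neg (by omega), if_neg h]
      rw [Finset.sum_congr rfl (fun e _ => h3 e), Finset.sum_ite_eq]
    rw [h2] at h1
    rw [h1]
    by_cases hk : k ≤ d
    · rw [if_pos hk, Finset.sum_eq_single (d - k)]
      · rw [if_pos (by omega)]
      · intro i hi hne
        rw [Finset.mem_range] at hi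
        rw [if_neg (by omega)]
      · intro h
        rw [Finset.mem_range] at h
        omega
    · rw [if_neg hk]
      refine Finset.sum_eq_zero (fun i hi => ?_)
      rw [Finset.mem_range] at hi
      rw [if_neg (by omega)]
  constructor
  · intro e he
    have h1 := hco e
    rw [if_neg (by omega : ¬ e ≤ d)] at h1
    split_ifs at h1 with h
    · exact h1
    · rw [Finset.mem_range] at h
      rw [homogeneousComponent_eq_zero e _ (by omega), map_zero]
  · intro e he
    have h1 := hco e
    rw [if_pos he, if_pos (Finset.mem_range.2 (by omega))] at h1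
    exact h1

omit [DecidableEq σ] in
lemma line_coeff_zero (G : MvPolynomial σ K) (y p : σ → K) : (line G y p).coeff 0 = eval y G := by
  rw [Polynomial.coeff_zero_eq_eval_zero, eval_line, zero_smul, add_zero]

omit [DecidableEq σ] in
lemma line_coeff_one (G : MvPolynomial σ K) (y p : σ → K) :
    (line G y p).coeff 1 = dotB σ K (grad G y) p := by
  have h2 := Polynomial.coeff_derivative (line G y p) 0
  rw [derivative_line', Polynomial.coeff_zero_eq_eval_zero, eval_line] at h2
  simp only [zero_smul, add_zero, Nat.cast_zero, zero_add, mul_one] at h2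
  rw [← h2, eval_dd]

section Krull

variable {I : Ideal (MvPolynomial σ K)} {r : ℕ}

/-- The common tangency lemma. -/
theorem exists_tangent [IsAlgClosed K] [CharZero K] (hI : SCone I r) {k q : ℕ}
    (p : Fin (k + 1) → σ → K) (hp : ∀ j, p j ∈ cone I) (hp0 : ∀ j, p j ≠ 0)
    (l : Fin q → σ → K) (hcard : (k + 1) * r + q < Fintype.card σ) :
    ∃ y ∈ cone I, y ≠ 0 ∧ (∀ i, dotB σ K (l i) y = 0) ∧ ∀ j, p j - p 0 ∈ tangent I y := by
  classical
  choose F hF hind hspan using fun j => exists_grads hI (p j) (hp j) (hp0 j)
  set g : (Fin (k + 1) × Fin r) ⊕ Fin q → MvPolynomial σ K :=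
    Sum.elim (fun a => sh (p a.1) (F a.1 a.2)) (fun i => lin (l i)) with hg
  have hgm : Ideal.span (Set.range g) ≤ idealOfVars σ K := by
    rw [Ideal.span_le]
    rintro _ ⟨a, rfl⟩
    rcases a with a | i
    · rw [SetLike.mem_coe, mem_idealOfVars]
      show eval 0 (sh (p a.1) (F a.1 a.2)) = 0
      rw [eval_sh, zero_add]
      exact hp a.1 _ (hF a.1 a.2)
    · exact lin_mem _
  have hvp := vars_prime (σ := σ) (K := K)
  obtain ⟨P, hPmin, hPle⟩ := Ideal.exists_minimalPrimes_le hgm
  have hPprime : P.IsPrime := hPmin.1.1
  have hne : P ≠ idealOfVars σ K := by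
    intro heq
    have h1 := Ideal.height_le_card_of_mem_minimalPrimes_span (Set.finite_range g) hPmin
    have h2 : (Set.range g).ncard ≤ (k + 1) * r + q := by
      have h3 := Set.ncard_image_le (s := (Set.univ : Set ((Fin (k + 1) × Fin r) ⊕ Fin q))) (f := g)
      rw [Set.image_univ, Set.ncard_univ] at h3
      simpa using h3
    rw [heq] at h1
    have h4 : (Fintype.card σ : ℕ∞) ≤ ((Set.range g).ncard : ℕ∞) := height_vars.trans h1
    have h5 : Fintype.card σ ≤ (Set.range g).ncard := by exact_mod_cast h4
    omega
  have hmax : ¬ P.IsMaximal := fun hm => hne (hm.eq_of_le hvp.ne_top hPle)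
  -- all of the ideal vanishes on the translate
  have hall : ∀ j, ∀ G ∈ I, sh (p j) G ∈ P := by
    intro j G hG
    set π := Ideal.Quotient.mk P
    have hmap : (idealOfVars σ K).map π ≠ ⊤ := by
      intro htop
      have h1 : Ideal.comap π ((idealOfVars σ K).map π) = idealOfVars σ K := by
        rw [Ideal.comap_map_of_surjective π Ideal.Quotient.mk_surjective]
        have h2 : Ideal.comap π ⊥ = P := Ideal.mk_ker
        rw [h2, sup_eq_left.2 hPle]
      rw [htop, Ideal.comap_top] at h1
      exact hvp.ne_top h1.symm
    have h0 := Ideal.iInf_pow_eq_bot_of_isDomain ((idealOfVars σ K).map π) hmap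
    rw [← Ideal.Quotient.eq_zero_iff_mem, ← Ideal.mem_bot, ← h0, Ideal.mem_iInf]
    intro e
    rw [← Ideal.map_pow]
    obtain ⟨a, ha, b, hb, hab⟩ := Submodule.mem_sup.1
      (LG hI (p j) (hp j) (hp0 j) (F j) (hF j) (hind j) e G hG)
    have haP : a ∈ P := by
      have h2 : (Ideal.span (Set.range (F j))).map (sh (p j)) ≤ P := by
        rw [Ideal.map_span, Ideal.span_le]
        rintro _ ⟨_, ⟨i, rfl⟩, rfl⟩
        exact hPmin.1.2 (Ideal.subset_span ⟨Sum.inl (j, i), rfl⟩)
      exact h2 ha
    rw [← hab, map_add, Ideal.Quotient.eq_zero_iff_mem.2 haP, zero_add]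
    exact Ideal.mem_map_of_mem _ hb
  obtain ⟨y, hy0, hy⟩ := exists_infinity P hPprime hmax
  have hhom : ∀ G ∈ I, ∀ d, G.IsHomogeneous d → eval y G = 0 ∧
      ∀ j, dotB σ K (grad G y) (p j - p 0) = 0 := by
    intro G hG d hd
    have hz : ∀ (f : MvPolynomial σ K) (e : ℕ),
        (∀ x, eval x (homogeneousComponent e f) = 0) → homogeneousComponent e f = 0 := by
      intro f e h
      apply MvPolynomial.funext
      intro x
      rw [h x, map_zero]
    refine ⟨?_, fun j => ?_⟩
    · have h1 := hy _ (hall 0 G hG) d (fun e he => hz _ _ (fun x =>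
        (line_coeff G d hd x (p 0)).1 e he))
      rw [(line_coeff G d hd y (p 0)).2 d le_rfl, Nat.sub_self, line_coeff_zero] at h1
      exact h1
    · rcases Nat.eq_zero_or_pos d with hd0 | hd0
      · have h1 : grad G y = 0 := by
          rw [hd0] at hd
          have h2 : G = C (coeff 0 G) := by
            rw [← homogeneousComponent_zero, homogeneousComponent_eq_self hd]
          rw [h2]
          funext i; simp [grad]
        rw [h1, map_zero, LinearMap.zero_apply]
      · have h1 := hy _ (P.sub_mem (hall j G hG) (hall 0 G hG)) (d - 1) (fun e he => by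
          apply hz
          intro x
          rw [map_sub, map_sub]
          by_cases hed : d < e
          · rw [(line_coeff G d hd x (p j)).1 e hed, (line_coeff G d hd x (p 0)).1 e hed, sub_self]
          · have : e = d := by omega
            rw [this, (line_coeff G d hd x (p j)).2 d le_rfl,
              (line_coeff G d hd x (p 0)).2 d le_rfl, Nat.sub_self, line_coeff_zero,
              line_coeff_zero, sub_self])
        rw [map_sub, map_sub, (line_coeff G d hd y (p j)).2 (d - 1) (by omega),
          (line_coeff G d hd y (p 0)).2 (d - 1) (by omega), show d - (d - 1) = 1 by omega,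
          line_coeff_one, line_coeff_one] at h1
        rw [map_sub]
        exact h1
  refine ⟨y, ?_, hy0, ?_, ?_⟩
  · intro G hG
    rw [← sum_homogeneousComponent G, map_sum]
    exact Finset.sum_eq_zero (fun d _ => (hhom _ (hI.homog G hG d) d
      (homogeneousComponent_isHomogeneous d G)).1)
  · intro i
    have h1 : lin (l i) ∈ P := hPmin.1.2 (Ideal.subset_span ⟨Sum.inr i, rfl⟩)
    have h2 := hy _ h1 1 (fun e he => by
      rw [homogeneousComponent_of_mem (lin_homog (l i)), if_neg (by omega)])
    rw [homogeneousComponent_of_mem (lin_homog (l i)), if_pos rfl, eval_lin] at h2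
    exact h2
  · intro j
    rw [mem_tangent]
    intro G hG
    rw [← sum_homogeneousComponent G, grad_sum, map_sum, LinearMap.sum_apply]
    exact Finset.sum_eq_zero (fun d _ => (hhom _ (hI.homog G hG d) d
      (homogeneousComponent_isHomogeneous d G)).2 j)

end Krull

end Pool.Agent.H929R2.Hart
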