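import Pool.Agent.H929R2.Hart.U13

set_option autoImplicit false
set_option maxHeartbeats 400000

namespace Pool.Agent.H929R2.Hart

open MvPolynomial

variable {σ : Type} [Fintype σ] [DecidableEq σ] {K : Type} [Field K]

variable {I : Ideal (MvPolynomial σ K)} {r : ℕ}

omit [DecidableEq σ] in
lemma exists_sep {D : Set (σ → K)} (hD : Submodule.span K D = ⊤) (hne : D.Nonempty) :
    ∀ (k : ℕ) (U : Submodule K (σ → K)), Module.finrank K U ≤ k →
      ∃ p : Fin k → σ → K, (∀ i, p i ∈ D) ∧ ∀ u ∈ U, (∀ i, dotB σ K u (p i) = 0) → u = 0 := by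
  intro k
  induction k with
  | zero =>
    intro U hU
    have h1 : U = ⊥ := Submodule.finrank_eq_zero.1 (by omega)
    refine ⟨fun i => i.elim0, fun i => i.elim0, fun u hu _ => ?_⟩
    rw [h1] at hu
    exact (Submodule.mem_bot K).1 hu
  | succ k ih =>
    intro U hU
    by_cases hU0 : U = ⊥
    · obtain ⟨d, hd⟩ := hne
      refine ⟨fun _ => d, fun _ => hd, fun u hu _ => ?_⟩
      rw [hU0] at hu
      exact (Submodule.mem_bot K).1 hu
    · obtain ⟨u0, hu0, hu00⟩ := (Submodule.ne_bot_iff _).1 hU0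
      obtain ⟨d, hd, hdu⟩ : ∃ d ∈ D, dotB σ K u0 d ≠ 0 := by
        by_contra hcon
        push Not at hcon
        apply hu00
        apply dotB_right_ext hD
        intro y hy
        rw [hcon y hy, map_zero, LinearMap.zero_apply]
      have hlt : U ⊓ LinearMap.ker ((dotB σ K).flip d) < U := by
        refine lt_of_le_of_ne inf_le_left (fun heq => hdu ?_)
        have h1 : u0 ∈ U ⊓ LinearMap.ker ((dotB σ K).flip d) := by rw [heq]; exact hu0
        exact h1.2
      have h2 := Submodule.finrank_lt_finrank_of_lt hlt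
      obtain ⟨p', hp', hp2⟩ := ih _ (by omega : Module.finrank K
        (U ⊓ LinearMap.ker ((dotB σ K).flip d) : Submodule K (σ → K)) ≤ k)
      refine ⟨Fin.cons d p', fun i => ?_, fun u hu h => ?_⟩
      · refine Fin.cases ?_ (fun i => ?_) i
        · exact hd
        · exact hp' i
      · apply hp2 u ⟨hu, h 0⟩
        intro i
        exact h i.succ

omit [DecidableEq σ] in
lemma span_cone [IsAlgClosed K] (hI : I.IsPrime) (hnd : Nondeg I) :
    Submodule.span K (cone I) = ⊤ := by
  classical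
  by_contra hne
  obtain ⟨φ, hφ0, hφ⟩ := Submodule.exists_le_ker_of_lt_top _ (lt_top_iff_ne_top.2 hne)
  apply hφ0
  have h1 : (fun i => φ (Pi.single i 1)) = 0 := by
    apply hnd
    apply mem_of_vanish I hI
    intro y hy
    have h2 : φ y = 0 := hφ (Submodule.subset_span hy)
    have h3 : y = ∑ i, y i • (Pi.single i 1 : σ → K) := by
      funext j
      simp [Finset.sum_apply, Pi.single_apply]
    rw [h3, map_sum] at h2
    rw [map_sum, ← h2]
    refine Finset.sum_congr rfl (fun i _ => ?_)
    rw [map_smul, smul_eq_mul, map_mul, eval_C, eval_X, mul_comm]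
  ext i
  have := congrFun h1 i
  simpa using this

/-- General points of a linear section. -/
theorem exists_general [IsAlgClosed K] [CharZero K] (hI : SCone I r) (hnd : Nondeg I)
    (hne : ∃ p ∈ cone I, p ≠ 0) {k q : ℕ} (U : Submodule K (σ → K))
    (hU : Module.finrank K U ≤ k) (l : Fin q → σ → K)
    (hcard : (k + 1) * r + q < Fintype.card σ) :
    ∃ x ∈ cone I, x ≠ 0 ∧ (∀ i, dotB σ K (l i) x = 0) ∧ ∀ ξ ∈ conormal I x, ξ ∈ U → ξ = 0 := by
  obtain ⟨p0, hp0, hp00⟩ := hne
  let D : Set (σ → K) := {d | ∃ x ∈ cone I, x ≠ 0 ∧ d = x - p0}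
  have hp0D : p0 ∈ D := ⟨(2 : K) • p0, cone_smul I hI.homog _ _ hp0,
    smul_ne_zero two_ne_zero hp00, by rw [two_smul]; abel⟩
  have hD : Submodule.span K D = ⊤ := by
    rw [eq_top_iff, ← span_cone hI.prime hnd, Submodule.span_le]
    intro x hx
    by_cases hx0 : x = 0
    · rw [hx0]; exact Submodule.zero_mem _
    · have h1 : x = (x - p0) + p0 := by abel
      rw [h1]
      exact Submodule.add_mem _ (Submodule.subset_span ⟨x, hx, hx0, rfl⟩)
        (Submodule.subset_span hp0D)
  obtain ⟨d, hd, hsep⟩ := exists_sep hD ⟨p0, hp0D⟩ k U hU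
  choose x hx hx0 hdx using hd
  obtain ⟨y, hy, hy0, hyl, hyt⟩ := exists_tangent hI (Fin.cons p0 x : Fin (k + 1) → σ → K)
    (fun j => by refine Fin.cases ?_ (fun i => ?_) j; exacts [hp0, hx i])
    (fun j => by refine Fin.cases ?_ (fun i => ?_) j; exacts [hp00, hx0 i]) l hcard
  refine ⟨y, hy, hy0, hyl, fun ξ hξ hξU => hsep ξ hξU (fun i => ?_)⟩
  have h1 := hyt i.succ
  rw [hdx i]
  exact tangent_conormal I y hξ h1

omit [DecidableEq σ] in
/-- homogeneous frames -/
lemma exists_hframe (hI : SCone I r) (x : σ → K) (hx : x ∈ cone I) (hx0 : x ≠ 0) :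
    ∃ (F : Fin r → MvPolynomial σ K) (d : Fin r → ℕ), (∀ i, F i ∈ I) ∧
      (∀ i, (F i).IsHomogeneous (d i)) ∧ LinearIndependent K (fun i => grad (F i) x) := by
  classical
  let S : Set (σ → K) := {ξ | ∃ F ∈ I, ∃ m, F.IsHomogeneous m ∧ ξ = grad F x}
  have hS : Submodule.span K S = conormal I x := by
    apply le_antisymm
    · rw [Submodule.span_le]
      rintro _ ⟨F, hF, _, _, rfl⟩
      exact grad_mem I x hF
    · rw [conormal, Submodule.span_le]
      rintro _ ⟨F, hF, rfl⟩
      rw [← sum_homogeneousComponent F, grad_sum]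
      refine Submodule.sum_mem _ (fun k _ => Submodule.subset_span ?_)
      exact ⟨_, hI.homog F hF k, k, homogeneousComponent_isHomogeneous k F, rfl⟩
  have hfin : Module.finrank K (Submodule.span K S) = r := by rw [hS]; exact hI.rank x hx hx0
  obtain ⟨f, hf1, _, hf3⟩ := Submodule.exists_fun_fin_finrank_span_eq K S
  choose F hF m hm hFm using hf1
  let e : Fin r ≃ Fin (Module.finrank K (Submodule.span K S)) := finCongr hfin.symm
  refine ⟨fun i => F (e i), fun i => m (e i), fun i => hF _, fun i => hm _, ?_⟩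
  have : (fun i => grad (F (e i)) x) = f ∘ e := by
    funext i; simp [hFm]
  rw [this]
  exact hf3.comp _ e.injective

/-! ### Fixed points -/

section Fixed

variable {M : Matrix σ σ K} {m : ℕ}

/-- a good fixed point -/
structure GoodPt (M : Matrix σ σ K) (I : Ideal (MvPolynomial σ K)) (x : σ → K) : Prop where
  mem : x ∈ cone I
  ne : x ≠ 0
  fix : M.mulVec x = 0
  good : ∀ ξ ∈ conormal I x, (∀ k, M.mulVec k = 0 → dotB σ K ξ k = 0) → ξ = 0

lemma GoodPt.transpose_zero [IsAlgClosed K] [CharZero K] (h : Nil M m I r) {x : σ → K}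
    (hx : GoodPt M I x) (ξ : σ → K) (hξ : ξ ∈ conormal I x) : M.transpose.mulVec ξ = 0 := by
  have hmem : M.transpose.mulVec ξ ∈ conormal I x := by
    obtain ⟨G, hG, rfl⟩ := exists_grad I x ξ hξ
    have hH : (∑ i, pderiv i G * lin (M i)) ∈ I := by
      apply mem_of_vanish I h.sc.prime
      intro y hy
      rw [map_sum]
      have h1 := (mem_tangent I y _).1 (flow_tangent h.st h.pos y hy) G hG
      rw [dotB_apply] at h1
      rw [← h1]
      refine Finset.sum_congr rfl (fun i _ => ?_)
      rw [map_mul, eval_lin, dotB_apply]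
      rfl
    have h2 : grad (∑ i, pderiv i G * lin (M i)) x = M.transpose.mulVec (grad G x) := by
      rw [grad_sum]
      have h3 : ∀ i, grad (pderiv i G * lin (M i)) x = grad G x i • M i := by
        intro i
        rw [grad_mul, grad_lin, eval_lin]
        have h4 : dotB σ K (M i) x = 0 := by
          rw [dotB_apply]
          exact congrFun hx.fix i
        rw [h4, zero_smul, zero_add]
        rfl
      rw [Finset.sum_congr rfl (fun i _ => h3 i)]
      funext k
      rw [Finset.sum_apply, Matrix.mulVec, dotProduct]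
      refine Finset.sum_congr rfl (fun i _ => ?_)
      rw [Pi.smul_apply, smul_eq_mul, Matrix.transpose_apply, mul_comm]
    rw [← h2]
    exact grad_mem I x hH
  apply hx.good _ hmem
  intro k hk
  rw [dot_transpose, hk, map_zero]

lemma GoodPt.sup_top [IsAlgClosed K] {x : σ → K} (hx : GoodPt M I x) :
    tangent I x ⊔ LinearMap.ker M.mulVecLin = ⊤ := by
  by_contra hne
  obtain ⟨φ, hφ0, hφ⟩ := Submodule.exists_le_ker_of_lt_top _ (lt_top_iff_ne_top.2 hne)
  apply hφ0
  set ξ : σ → K := fun i => φ (Pi.single i 1) with hξ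
  have hφξ : ∀ v, φ v = dotB σ K ξ v := by
    intro v
    have h3 : v = ∑ i, v i • (Pi.single i 1 : σ → K) := by
      funext j
      simp [Finset.sum_apply, Pi.single_apply]
    conv_lhs => rw [h3]
    rw [map_sum, dotB_apply]
    refine Finset.sum_congr rfl (fun i _ => ?_)
    rw [map_smul, smul_eq_mul, mul_comm]
  have h1 : ξ ∈ conormal I x := by
    rw [mem_conormal_iff]
    intro v hv
    rw [← hφξ]
    exact hφ (Submodule.mem_sup_left hv)
  have h2 : ξ = 0 := by
    apply hx.good ξ h1
    intro k hk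
    rw [← hφξ]
    exact hφ (Submodule.mem_sup_right hk)
  ext i
  have := congrFun h2 i
  simpa [hξ] using this

lemma GoodPt.range [IsAlgClosed K] {x : σ → K} (hx : GoodPt M I x) (hm : 1 ≤ m)
    (w : σ → K) : ∃ u ∈ tangent I x, (M ^ m).mulVec u = (M ^ m).mulVec w := by
  have h1 : w ∈ tangent I x ⊔ LinearMap.ker M.mulVecLin := by rw [hx.sup_top]; trivial
  obtain ⟨u, hu, k, hk, rfl⟩ := Submodule.mem_sup.1 h1
  refine ⟨u, hu, ?_⟩
  have h2 : M.mulVec k = 0 := hk
  obtain ⟨m', rfl⟩ : ∃ m', m = m' + 1 := ⟨m - 1, by omega⟩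
  have h3 : (M ^ (m' + 1)).mulVec k = 0 := by
    rw [pow_succ, ← Matrix.mulVec_mulVec, h2, Matrix.mulVec_zero]
  rw [Matrix.mulVec_add, h3, add_zero]

lemma Ep_fix (x : σ → K) (hx : M.mulVec x = 0) :
    (Ep M m).mulVec (cv x) = (Polynomial.X : Polynomial K) ^ m • cv x := by
  rw [Ep, Matrix.sum_mulVec, Finset.sum_eq_single 0]
  · rw [pow_zero, Matrix.smul_mulVec]
    simp
  · intro j _ hj
    obtain ⟨j', rfl⟩ : ∃ j', j = j' + 1 := ⟨j - 1, by omega⟩
    have h1 : ((M ^ (j' + 1)).map Polynomial.C).mulVec (cv x) = cv ((M ^ (j' + 1)).mulVec x) := by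
      funext i
      simp [Matrix.mulVec, dotProduct, cv, map_sum]
    rw [Matrix.smul_mulVec, h1, pow_succ, ← Matrix.mulVec_mulVec, hx, Matrix.mulVec_zero]
    funext i; simp [cv]
  · intro h; exact absurd (Finset.mem_range.2 (Nat.succ_pos m)) h

lemma Ep_transpose (N : Matrix σ σ K) : (Ep N m).transpose = Ep N.transpose m := by
  rw [Ep, Ep, Matrix.transpose_sum]
  refine Finset.sum_congr rfl (fun j _ => ?_)
  rw [Matrix.transpose_smul, ← Matrix.transpose_pow]
  rfl

lemma hT_cv (G : MvPolynomial σ K) (x u : σ → K) :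
    hT (io G) (cv x) (cv u) = cv (grad (dd u G) x) := by
  funext i
  rw [hT, pderiv_io, gT_io_cv]
  have h3 : cv (grad (pderiv i G) x) ⬝ᵥ cv u =
      Polynomial.C (∑ k, grad (pderiv i G) x k * u k) := by
    rw [map_sum]
    exact Finset.sum_congr rfl (fun k _ => by simp [cv])
  rw [h3, cv, grad, pderiv_dd, eval_dd, dotB_apply]

/-- first order deformations at a good fixed point are unobstructed in the direction of the
range of `M^m` -/
theorem GoodPt.flat [IsAlgClosed K] [CharZero K] (h : Nil M m I r) {x : σ → K}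
    (hx : GoodPt M I x) (u : σ → K) (hu : u ∈ tangent I x)
    (hp0 : x + ((m.factorial : K)⁻¹) • (M ^ m).mulVec u ≠ 0) (G : MvPolynomial σ K) (hG : G ∈ I)
    (d : ℕ) (hd : G.IsHomogeneous d) (hd0 : 1 ≤ d) :
    x + ((m.factorial : K)⁻¹) • (M ^ m).mulVec u ∈ cone I ∧
      grad G x + ((m.factorial : K)⁻¹) • ((-M) ^ m).transpose.mulVec (grad (dd u G) x) ∈
        conormal I (x + ((m.factorial : K)⁻¹) • (M ^ m).mulVec u) := by
  classical
  have hpos := h.pos
  set A := Ep M m with hA
  set B := Ep (-M) m with hB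
  have hAB : A * B = (Polynomial.X : Polynomial K) ^ (2 * m) • 1 := Ep_mul M m h.nil
  have hBA : B * A = (Polynomial.X : Polynomial K) ^ (2 * m) • 1 := Ep_mul' M m h.nil
  have hAg : GoodB I A := h.st.good h.sc.homog
  have hBg : GoodB I B := h.st.neg.good h.sc.homog
  set p := x + ((m.factorial : K)⁻¹) • (M ^ m).mulVec u with hp
  obtain ⟨F, hF, hind, -⟩ := exists_grads h.sc x hx.mem hx.ne
  obtain ⟨W, hW⟩ := exists_dual_vectors _ hind
  set c0 : σ → Polynomial K := cv x + (Polynomial.X : Polynomial K) ^ m • cv u with hc0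
  have hc00 : at0 c0 = x := by
    rw [hc0, at0_add, at0_cv, at0_X_smul _ (by omega), add_zero]
  have hdiv : ∀ i, (Polynomial.X : Polynomial K) ^ (2 * m) ∣ eval c0 (io (F i)) := by
    intro i
    obtain ⟨R, hR⟩ := taylor1 (io (F i)) (cv x) (cv u) ((Polynomial.X : Polynomial K) ^ m)
    rw [hc0, hR, eval_io_cv, hx.mem _ (hF i), map_zero, zero_add, gT_io_cv]
    have h1 : cv (grad (F i) x) ⬝ᵥ cv u = 0 := by
      have h2 := tangent_conormal I x (grad_mem I x (hF i)) hu
      rw [dotB_apply] at h2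
      have h3 : cv (grad (F i) x) ⬝ᵥ cv u = Polynomial.C (∑ k, grad (F i) x k * u k) := by
        rw [map_sum]
        exact Finset.sum_congr rfl (fun k _ => by simp [cv])
      rw [h3, h2, map_zero]
    rw [h1, mul_zero, zero_add, ← pow_mul, mul_comm m 2]
    exact Dvd.intro _ rfl
  obtain ⟨a, ha⟩ := exists_arc h.sc x hx.mem hx.ne F hF hind W hW c0 hc00 (2 * m) (by omega) hdiv
  set ρ : ℕ → σ → Polynomial K := fun l => ∑ j, a l j • cv (W j) with hρ
  set v : ℕ → σ → Polynomial K := fun l => c0 + (Polynomial.X : Polynomial K) ^ (2 * m) • ρ l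
    with hv
  set P : ℕ → σ → Polynomial K := fun l =>
    cv x + (A.mulVec (cv u) + (Polynomial.X : Polynomial K) ^ m • A.mulVec (ρ l)) with hP
  have hAv : ∀ l, A.mulVec (v l) = (Polynomial.X : Polynomial K) ^ m • P l := by
    intro l
    simp only [hv, hP, hc0]
    rw [Matrix.mulVec_add, Matrix.mulVec_add, mulVec_polySmul, mulVec_polySmul, hA,
      Ep_fix x hx.fix, smul_add, smul_add, smul_smul, ← pow_add, ← two_mul, add_assoc]
  have hBP : ∀ l, B.mulVec (P l) = (Polynomial.X : Polynomial K) ^ m • v l := by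
    intro l
    have h1 := congrArg B.mulVec (hAv l)
    rw [Matrix.mulVec_mulVec, hBA, mulVec_polySmul, Matrix.smul_mulVec, Matrix.one_mulVec,
      two_mul, pow_add, mul_smul] at h1
    have h2 : ∀ a b : σ → Polynomial K, (Polynomial.X : Polynomial K) ^ m • a =
        (Polynomial.X : Polynomial K) ^ m • b → a = b := by
      intro a b hab
      funext i
      exact mul_left_cancel₀ (pow_ne_zero m Polynomial.X_ne_zero) (congrFun hab i)
    exact (h2 _ _ h1).symm
  have hPp : ∀ l, at0 (P l) = p := by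
    intro l
    simp only [hP]
    rw [at0_add, at0_add, at0_cv, at0_X_smul _ (by omega), add_zero, at0_mulVec, hA, Ep_zero,
      at0_cv, Matrix.smul_mulVec]
  have hPI := transport h.sc.prime h.sc.homog hAg v P m ha hAv
  -- the family of conormal vectors
  have hΨI : comp (io G) B ∈ It I := hBg.comp_mem h.sc.prime G hG
  obtain ⟨ξ', hξ'⟩ : ∃ ξ' : ℕ → σ → Polynomial K, ∀ l, gT (comp (io G) B) (P l) =
      (Polynomial.X : Polynomial K) ^ (m * d) •
        (cv (grad G x) + B.transpose.mulVec (cv (grad (dd u G) x)) +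
          (Polynomial.X : Polynomial K) ^ m • ξ' l) := by
    choose R hR using fun (l : ℕ) => taylor2 (io G) (cv x)
      (cv u + (Polynomial.X : Polynomial K) ^ m • ρ l) ((Polynomial.X : Polynomial K) ^ m)
    refine ⟨fun l => B.transpose.mulVec (hT (io G) (cv x) (ρ l) + R l), fun l => ?_⟩
    have e1 : gT (comp (io G) B) (P l) = B.transpose.mulVec
        ((Polynomial.X : Polynomial K) ^ (m * (d - 1)) • gT (io G) (v l)) := by
      rw [gT_comp, hBP l]
      congr 1
      funext i
      rw [gT, eval_homog_smul _ (d - 1), pow_mul]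
      · rfl
      · rw [pderiv_io]
        exact hd.pderiv.map _
    have e2 : gT (io G) (v l) = cv (grad G x) + ((Polynomial.X : Polynomial K) ^ m •
        cv (grad (dd u G) x) + (Polynomial.X : Polynomial K) ^ (2 * m) •
          (hT (io G) (cv x) (ρ l) + R l)) := by
      have h1 : v l = cv x + (Polynomial.X : Polynomial K) ^ m •
          (cv u + (Polynomial.X : Polynomial K) ^ m • ρ l) := by
        simp only [hv, hc0]
        rw [smul_add, smul_smul, ← pow_add, ← two_mul, add_assoc]
      rw [h1, hR l, gT_io_cv, hT_add, hT_smul, hT_cv, smul_add, smul_add, smul_smul, ← pow_add,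
        ← two_mul, ← pow_mul, mul_comm m 2]
      abel
    have e3 : B.transpose.mulVec (cv (grad G x)) =
        (Polynomial.X : Polynomial K) ^ m • cv (grad G x) := by
      rw [hB, Ep_transpose, Matrix.transpose_neg]
      apply Ep_fix
      rw [Matrix.neg_mulVec, hx.transpose_zero h _ (grad_mem I x hG), neg_zero]
    rw [e1, e2, Matrix.mulVec_smul, Matrix.mulVec_add, Matrix.mulVec_add, Matrix.mulVec_smul,
      Matrix.mulVec_smul, e3, two_mul, pow_add, mul_smul, ← smul_add, ← smul_add, smul_smul,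
      ← pow_add, add_assoc]
    congr 2
    obtain ⟨d', rfl⟩ : ∃ d', d = d' + 1 := ⟨d - 1, by omega⟩
    rw [Nat.add_sub_cancel]
    ring
  refine limit_con h.sc p hp0 P hPp hPI _ hΨI (m * d) _ hξ' _ (fun l => ?_)
  rw [at0_add, at0_add, at0_X_smul _ (by omega), add_zero, at0_cv, at0_mulVec, at0_cv]
  congr 2
  have h1 : B.transpose.map (fun p => p.eval 0) = (B.map (fun p => p.eval 0)).transpose := rfl
  rw [h1, hB, Ep_zero, Matrix.transpose_smul, Matrix.smul_mulVec]

end Fixed

end Pool.Agent.H929R2.Hart
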