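import Pool.Agent.H929R2.Hart.U22

set_option autoImplicit false
set_option maxHeartbeats 400000

namespace Pool.Agent.H929R2.Hart

open MvPolynomial

variable {σ : Type} [Fintype σ] [DecidableEq σ] {K : Type} [Field K]

variable {I : Ideal (MvPolynomial σ K)} {r : ℕ} {M : Matrix σ σ K} {m : ℕ}

/-- the second fundamental form at a good fixed point -/
structure Beta (M : Matrix σ σ K) (m : ℕ) (I : Ideal (MvPolynomial σ K)) (x : σ → K)
    (β : (σ → K) →ₗ[K] (σ → K) →ₗ[K] (σ → K)) : Prop where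
  mem : ∀ v ∈ LinearMap.range (M ^ m).mulVecLin, x + v ∈ cone I
  ran : ∀ v ∈ LinearMap.range (M ^ m).mulVecLin, ∀ ξ ∈ conormal I x,
    β ξ v ∈ LinearMap.range ((M ^ m).transpose).mulVecLin
  con : ∀ v ∈ LinearMap.range (M ^ m).mulVecLin, x + v ≠ 0 → ∀ ξ ∈ conormal I x,
    ξ + β ξ v ∈ conormal I (x + v)

theorem GoodPt.exists_beta [IsAlgClosed K] [CharZero K] (h : Nil M m I r) {x : σ → K}
    (hx : GoodPt M I x) : ∃ β, Beta M m I x β := by
  classical
  have hfac : ((m.factorial : K)⁻¹) ≠ 0 := inv_ne_zero (by exact_mod_cast m.factorial_ne_zero)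
  obtain ⟨F, d, hF, hFd, hind⟩ := exists_hframe h.sc x hx.mem hx.ne
  have hd : ∀ i, 1 ≤ d i := by
    intro i
    by_contra hcon
    have h0 : d i = 0 := by omega
    have h1 := hFd i
    rw [h0] at h1
    have h2 : F i = C (coeff 0 (F i)) := by
      rw [← homogeneousComponent_zero, homogeneousComponent_eq_self h1]
    have h3 : grad (F i) x = 0 := by
      rw [h2]; funext j; simp [grad]
    exact hind.ne_zero i h3
  set R1 := LinearMap.range (M ^ m).mulVecLin with hR1
  let T : tangent I x →ₗ[K] R1 := LinearMap.codRestrict R1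
    (((m.factorial : K)⁻¹) • ((M ^ m).mulVecLin.comp (tangent I x).subtype)) (fun u =>
      R1.smul_mem _ ⟨u, rfl⟩)
  have hT : Function.Surjective T := by
    rintro ⟨v, w, rfl⟩
    obtain ⟨u, hu, huw⟩ := hx.range h.pos (m := m) ((m.factorial : K) • w)
    refine ⟨⟨u, hu⟩, ?_⟩
    ext1
    show ((m.factorial : K)⁻¹) • (M ^ m).mulVec u = (M ^ m).mulVec w
    rw [huw, Matrix.mulVec_smul, smul_smul, inv_mul_cancel₀ (by
      exact_mod_cast m.factorial_ne_zero), one_smul]
  obtain ⟨S, hS⟩ := T.exists_rightInverse_of_surjective (LinearMap.range_eq_top.2 hT)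
  obtain ⟨π, hπ⟩ := LinearMap.exists_leftInverse_of_injective R1.subtype (by
    rw [Submodule.ker_subtype])
  obtain ⟨Λ, hΛ⟩ := LinearMap.exists_leftInverse_of_injective (uu F x) (by
    rw [LinearMap.ker_eq_bot']
    exact fun c hc => uu_injective hind c hc)
  let u : (σ → K) →ₗ[K] (σ → K) := (tangent I x).subtype.comp (S.comp π)
  have hu1 : ∀ v, u v ∈ tangent I x := fun v => (S (π v)).2
  have hu2 : ∀ v ∈ R1, ((m.factorial : K)⁻¹) • (M ^ m).mulVec (u v) = v := by
    intro v hv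
    have h1 : π v = ⟨v, hv⟩ := LinearMap.congr_fun hπ ⟨v, hv⟩
    have h2 := congrArg Subtype.val (LinearMap.congr_fun hS (π v))
    have h3 : ((T (S (π v)) : R1) : σ → K) = ((π v : R1) : σ → K) := h2
    rw [h1] at h3
    have h4 : ((m.factorial : K)⁻¹) • (M ^ m).mulVec (u v) = ((T (S (π v)) : R1) : σ → K) := rfl
    rw [h4, h1, h3]
  have hflat : ∀ v ∈ R1, x + v ≠ 0 → ∀ (G : MvPolynomial σ K), G ∈ I → ∀ (d : ℕ),
      G.IsHomogeneous d → 1 ≤ d → x + v ∈ cone I ∧ grad G x + ((m.factorial : K)⁻¹) •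
        ((-M) ^ m).transpose.mulVec (grad (dd (u v) G) x) ∈ conormal I (x + v) := by
    intro v hv hne G hG d hd hd0
    have h1 := hx.flat h (u v) (hu1 v) (by rw [hu2 v hv]; exact hne) G hG d hd hd0
    rw [hu2 v hv] at h1
    exact h1
  let β : (σ → K) →ₗ[K] (σ → K) →ₗ[K] (σ → K) :=
    (((LL F x).comp Λ).compl₂ u).compr₂
      (((m.factorial : K)⁻¹) • ((-M) ^ m).transpose.mulVecLin)
  have hβ : ∀ ξ v, β ξ v = ((m.factorial : K)⁻¹) •
      ((-M) ^ m).transpose.mulVec (LL F x (Λ ξ) (u v)) := fun ξ v => rfl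
  refine ⟨β, ?_, ?_, ?_⟩
  · intro v hv
    by_cases hne : x + v = 0
    · rw [hne]
      have := cone_smul I h.sc.homog 0 x hx.mem
      rwa [zero_smul] at this
    · exact (hflat v hv hne 0 I.zero_mem 1 (isHomogeneous_zero _ _ _) le_rfl).1
  · intro v _ ξ _
    rw [hβ]
    apply Submodule.smul_mem
    rcases Nat.even_or_odd m with hm | hm
    · rw [hm.neg_pow]
      exact ⟨_, rfl⟩
    · rw [hm.neg_pow, Matrix.transpose_neg, Matrix.neg_mulVec]
      exact Submodule.neg_mem _ ⟨_, rfl⟩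
  · intro v hv hne ξ hξ
    obtain ⟨c, rfl⟩ := grads_span h.sc x hx.mem hx.ne F hF hind ξ hξ
    have h1 : Λ (uu F x c) = c := LinearMap.congr_fun hΛ c
    have h2 : uu F x c + β (uu F x c) v = ∑ i, c i • (grad (F i) x + ((m.factorial : K)⁻¹) •
        ((-M) ^ m).transpose.mulVec (grad (dd (u v) (F i)) x)) := by
      rw [hβ, h1, uu_apply, LL_apply, Matrix.mulVec_sum, Finset.smul_sum,
        ← Finset.sum_add_distrib]
      refine Finset.sum_congr rfl (fun i _ => ?_)
      rw [Matrix.mulVec_smul, smul_add, smul_comm]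
    rw [h2]
    exact Submodule.sum_mem _ (fun i _ => Submodule.smul_mem _ _
      (hflat v hv hne (F i) (hF i) (d i) (hFd i) (hd i)).2)

namespace Beta

variable {x : σ → K} {β : (σ → K) →ₗ[K] (σ → K) →ₗ[K] (σ → K)}

lemma mem_v [Infinite K] (hI : SCone I r) (hβ : Beta M m I x β) (v : σ → K)
    (hv : v ∈ LinearMap.range (M ^ m).mulVecLin) : v ∈ cone I := by
  apply (cone_of_line I v x _).1
  intro t ht
  rw [flip_line x v t ht]
  exact cone_smul I hI.homog _ _ (hβ.mem _ (Submodule.smul_mem _ _ hv))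

lemma con_v [Infinite K] (hI : SCone I r) (hβ : Beta M m I x β) (v : σ → K)
    (hv : v ∈ LinearMap.range (M ^ m).mulVecLin) (hne : ∀ t : K, v + t • x ≠ 0) (t : K)
    (ht : t ≠ 0) (ξ : σ → K) (hξ : ξ ∈ conormal I x) :
    v + t • x ∈ cone I ∧ β ξ v + t • ξ ∈ conormal I (v + t • x) := by
  have h1 : x + t⁻¹ • v ≠ 0 := by
    intro h0
    apply hne t
    rw [flip_line x v t ht, h0, smul_zero]
  rw [flip_line x v t ht, conormal_smul I hI.homog t ht, flip_line ξ (β ξ v) t ht]
  refine ⟨cone_smul I hI.homog _ _ (hβ.mem _ (Submodule.smul_mem _ _ hv)),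
    Submodule.smul_mem _ _ ?_⟩
  rw [← map_smul]
  exact hβ.con _ (Submodule.smul_mem _ _ hv) h1 ξ hξ

lemma lim_v [Infinite K] (hI : SCone I r) (hβ : Beta M m I x β) (v : σ → K)
    (hv : v ∈ LinearMap.range (M ^ m).mulVecLin) (hv0 : v ≠ 0) (hne : ∀ t : K, v + t • x ≠ 0)
    (ξ : σ → K) (hξ : ξ ∈ conormal I x) :
    β ξ v ∈ conormal I v ∧ (β ξ v = 0 → ξ ∈ conormal I v) := by
  constructor
  · apply conormal_closed I r hI.rank v x hv0 _ ξ
    intro t ht
    exact hβ.con_v hI v hv hne t ht ξ hξ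
  · intro h0
    apply conormal_closed I r hI.rank v x hv0 _ 0
    intro t ht
    have h1 := hβ.con_v hI v hv hne t ht ξ hξ
    rw [h0, zero_add, Submodule.smul_mem_iff _ ht] at h1
    rw [smul_zero, add_zero]
    exact h1

end Beta

lemma finrank_perp (N : Matrix σ σ K) :
    Module.finrank K ((dotB σ K).orthogonal (LinearMap.ker N.mulVecLin)) = N.rank := by
  have h1 := LinearMap.BilinForm.finrank_orthogonal dotB_nondegenerate (LinearMap.ker N.mulVecLin)
  have h2 := LinearMap.finrank_range_add_finrank_ker N.mulVecLin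
  have h3 : Module.finrank K (LinearMap.range N.mulVecLin) = N.rank := rfl
  omega

lemma mem_perp (N : Matrix σ σ K) (ξ : σ → K) :
    ξ ∈ (dotB σ K).orthogonal (LinearMap.ker N.mulVecLin) ↔
      ∀ k, N.mulVec k = 0 → dotB σ K ξ k = 0 := by
  rw [LinearMap.BilinForm.mem_orthogonal_iff]
  constructor
  · intro h k hk
    rw [dotB_comm]; exact h k hk
  · intro h k hk
    show dotB σ K k ξ = 0
    rw [dotB_comm]; exact h k hk

lemma exists_forms_ker (N : Matrix σ σ K) : ∃ l : Fin N.rank → σ → K,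
    ∀ x, (∀ i, dotB σ K (l i) x = 0) → N.mulVec x = 0 := by
  let b := Module.finBasisOfFinrankEq K _ (finrank_perp N)
  refine ⟨fun i => (b i : σ → K), fun x hx => ?_⟩
  have hall : ∀ ξ ∈ (dotB σ K).orthogonal (LinearMap.ker N.mulVecLin), dotB σ K ξ x = 0 := by
    intro ξ hξ
    have h1 := congrArg Subtype.val (b.sum_repr ⟨ξ, hξ⟩)
    have h2 : ξ = ∑ i, (b.repr ⟨ξ, hξ⟩ i) • ((b i : _) : σ → K) := by
      simp only [Submodule.coe_sum, Submodule.coe_smul] at h1
      exact h1.symm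
    rw [h2, map_sum, LinearMap.sum_apply]
    refine Finset.sum_eq_zero (fun i _ => ?_)
    rw [map_smul, LinearMap.smul_apply, hx i, smul_zero]
  funext i
  have h1 : dotB σ K (N i) x = 0 := by
    apply hall
    rw [mem_perp]
    intro k hk
    rw [dotB_apply]
    exact congrFun hk i
  rw [dotB_apply] at h1
  exact h1

/-- The case of a matrix of small rank. -/
theorem beta [IsAlgClosed K] [CharZero K] (h : Nil M m I r)
    (hcard : 3 * r + 2 * M.rank ≤ Fintype.card σ) : r ≤ 1 := by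
  classical
  by_contra hr
  push Not at hr
  have hpos := h.pos
  have hne : ∃ p ∈ cone I, p ≠ 0 := by
    obtain ⟨y, hy, hMy⟩ := exists_top h
    refine ⟨y, hy, ?_⟩
    rintro rfl
    rw [Matrix.mulVec_zero] at hMy
    exact hMy rfl
  obtain ⟨l, hl⟩ := exists_forms_ker M
  set Kp := (dotB σ K).orthogonal (LinearMap.ker M.mulVecLin) with hKp
  have hgood : ∀ U : Submodule K (σ → K), Kp ≤ U → Module.finrank K U ≤ r + M.rank →
      ∃ x, GoodPt M I x ∧ ∀ ξ ∈ conormal I x, ξ ∈ U → ξ = 0 := by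
    intro U hU1 hU2
    obtain ⟨x, hx, hx0, hxl, hxU⟩ := exists_general' h.sc h.nd hne (by omega) l
      (r + M.rank) U hU2 (by omega)
    exact ⟨x, ⟨hx, hx0, hl x hxl, fun ξ hξ hk => hxU ξ hξ (hU1 ((mem_perp M ξ).2 hk))⟩, hxU⟩
  have hpar : ∀ (x v : σ → K) (t : K), v ≠ 0 → v + t • x = 0 → conormal I v = conormal I x := by
    intro x v t hv0 h0
    have h1 : v = (-t) • x := by rw [neg_smul]; exact eq_neg_of_add_eq_zero_left h0
    have ht : -t ≠ 0 := by
      intro h2
      rw [h2, zero_smul] at h1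
      exact hv0 h1
    rw [h1, conormal_smul I h.sc.homog _ ht]
  have hnz : ∀ x ∈ cone I, x ≠ 0 → (∀ ξ ∈ conormal I x, ξ = 0) → False := by
    intro x hx hx0 hall
    have h1 := h.sc.rank x hx hx0
    have h2 : conormal I x = ⊥ := (Submodule.eq_bot_iff _).2 hall
    rw [h2, finrank_bot] at h1
    omega
  obtain ⟨x0, hx0, -⟩ := hgood Kp le_rfl (by rw [hKp, finrank_perp]; omega)
  obtain ⟨β0, hβ0⟩ := hx0.exists_beta h
  -- conormal vectors along the range of `M^m`
  have step1 : ∀ v ∈ LinearMap.range (M ^ m).mulVecLin, v ≠ 0 → conormal I v ≤ Kp := by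
    intro v hv hv0
    have hvc := hβ0.mem_v h.sc v hv
    obtain ⟨x, hx, hxU⟩ := hgood (conormal I v ⊔ Kp) le_sup_right (by
      have h1 := Submodule.finrank_add_le_finrank_add_finrank (conormal I v) Kp
      rw [h.sc.rank v hvc hv0, hKp, finrank_perp] at h1
      exact h1)
    obtain ⟨β, hβ⟩ := hx.exists_beta h
    have hne : ∀ t : K, v + t • x ≠ 0 := by
      intro t h0
      apply hnz x hx.mem hx.ne
      intro ξ hξ
      apply hxU ξ hξ (Submodule.mem_sup_left _)
      rw [hpar x v t hv0 h0]; exact hξ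
    let T : conormal I x →ₗ[K] conormal I v := LinearMap.codRestrict _
      ((β.flip v).comp (conormal I x).subtype) (fun ξ => (hβ.lim_v h.sc v hv hv0 hne ξ ξ.2).1)
    have hT : Function.Injective T := by
      rw [← LinearMap.ker_eq_bot, LinearMap.ker_eq_bot']
      intro ξ hξ
      ext1
      apply hxU ξ ξ.2 (Submodule.mem_sup_left _)
      exact (hβ.lim_v h.sc v hv hv0 hne ξ ξ.2).2 (congrArg Subtype.val hξ)
    have hT2 : Function.Surjective T := by
      rw [← LinearMap.injective_iff_surjective_of_finrank_eq_finrank]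
      · exact hT
      · rw [h.sc.rank v hvc hv0, h.sc.rank x hx.mem hx.ne]
    intro η hη
    obtain ⟨ξ, hξ⟩ := hT2 ⟨η, hη⟩
    have h1 : β ξ v = η := congrArg Subtype.val hξ
    rw [hKp, mem_perp]
    intro k hk
    obtain ⟨a, ha⟩ := hβ.ran v hv ξ ξ.2
    rw [← h1, ← ha, Matrix.mulVecLin_apply, dot_transpose]
    obtain ⟨m', rfl⟩ : ∃ m', m = m' + 1 := ⟨m - 1, by omega⟩
    rw [pow_succ, ← Matrix.mulVec_mulVec, hk, Matrix.mulVec_zero, map_zero]
  have hinj : ∀ v ∈ LinearMap.range (M ^ m).mulVecLin, v ≠ 0 → ∀ ξ ∈ conormal I x0,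
      β0 ξ v = 0 → ξ = 0 := by
    intro v hv hv0 ξ hξ h0
    have hne : ∀ t : K, v + t • x0 ≠ 0 := by
      intro t h0
      apply hnz x0 hx0.mem hx0.ne
      intro ξ hξ
      apply hx0.good ξ hξ
      rw [← mem_perp]
      apply step1 v hv hv0
      rw [hpar x0 v t hv0 h0]; exact hξ
    apply hx0.good ξ hξ
    rw [← mem_perp]
    exact step1 v hv hv0 ((hβ0.lim_v h.sc v hv hv0 hne ξ hξ).2 h0)
  -- the pencil
  let bs := Module.finBasisOfFinrankEq K (conormal I x0) (h.sc.rank x0 hx0.mem hx0.ne)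
  let e : (Fin r → K) ≃ₗ[K] conormal I x0 := bs.equivFun.symm
  obtain ⟨d1, d2, hd1, hd2⟩ := two_vectors (K := K) hr
  let R1 := LinearMap.range (M ^ m).mulVecLin
  let R2 := LinearMap.range ((M ^ m).transpose).mulVecLin
  let φ : (Fin r → K) → R1 →ₗ[K] R2 := fun d =>
    LinearMap.codRestrict R2 ((β0 (e d)).comp R1.subtype) (fun v => hβ0.ran v v.2 (e d) (e d).2)
  have hinj' : ∀ d (v : R1), v ≠ 0 → β0 (e d) (v : σ → K) = 0 → d = 0 := by
    intro d v hv0 h0
    have h1 := hinj v v.2 (fun h => hv0 (by ext1; exact h)) (e d) (e d).2 h0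
    have h2 : e d = 0 := by ext1; exact h1
    exact (LinearEquiv.map_eq_zero_iff e).1 h2
  obtain ⟨v, hv0, c, hvc⟩ := exists_pencil (φ d1) (φ d2) (by
      rw [← LinearMap.ker_eq_bot, LinearMap.ker_eq_bot']
      intro v hv
      by_contra hv0
      exact hd1 (hinj' d1 v hv0 (congrArg Subtype.val hv))) (by
      have h1 : Module.finrank K R2 = Module.finrank K R1 :=
        Matrix.rank_transpose (M ^ m)
      rw [h1]) (by
      obtain ⟨y, hy, hMy⟩ := exists_top h
      rw [Module.finrank_pos_iff]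
      exact ⟨⟨(M ^ m).mulVec y, y, rfl⟩, 0, fun h0 => hMy (congrArg Subtype.val h0)⟩)
  have h8 : β0 (e d2) (v : σ → K) = c • β0 (e d1) (v : σ → K) := congrArg Subtype.val hvc
  apply hd2 c
  apply hinj' _ v hv0
  rw [map_sub, map_smul, Submodule.coe_sub, Submodule.coe_smul, map_sub, map_smul,
    LinearMap.sub_apply, LinearMap.smul_apply, h8, sub_self]

end Pool.Agent.H929R2.Hart
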