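import Pool.Agent.H929R2.Hart.U15

set_option autoImplicit false
set_option maxHeartbeats 400000

namespace Pool.Agent.H929R2.Hart

open MvPolynomial

variable {σ : Type} [Fintype σ] [DecidableEq σ] {K : Type} [Field K]

variable {M : Matrix σ σ K} {m : ℕ}

/-- componentwise derivative -/
noncomputable def dv (P : σ → Polynomial K) : σ → Polynomial K :=
  fun i => Polynomial.derivative (P i)

omit [Fintype σ] [DecidableEq σ] in
lemma dv_smul (p : Polynomial K) (Q : σ → Polynomial K) :
    dv (p • Q) = Polynomial.derivative p • Q + p • dv Q := by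
  funext i
  simp [dv, Polynomial.derivative_mul]

omit [Fintype σ] [DecidableEq σ] in
lemma dv_sum {ι : Type} (s : Finset ι) (Q : ι → σ → Polynomial K) :
    dv (∑ k ∈ s, Q k) = ∑ k ∈ s, dv (Q k) := by
  funext i
  simp [dv, Finset.sum_apply]

omit [DecidableEq σ] in
lemma dv_mapC (N : Matrix σ σ K) (Q : σ → Polynomial K) :
    dv ((N.map Polynomial.C).mulVec Q) = (N.map Polynomial.C).mulVec (dv Q) := by
  funext i
  simp [dv, Matrix.mulVec, dotProduct, Polynomial.derivative_mul]

lemma Ep_sum (M : Matrix σ σ K) (m : ℕ) (a : σ → Polynomial K) :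
    (Ep M m).mulVec a = ∑ j ∈ Finset.range (m + 1),
      (Polynomial.C ((j.factorial : K)⁻¹) * Polynomial.X ^ (m - j)) •
        ((M ^ j).map Polynomial.C).mulVec a := by
  rw [Ep, Matrix.sum_mulVec]
  exact Finset.sum_congr rfl (fun j _ => by rw [Matrix.smul_mulVec])

lemma mapC_mul (N N' : Matrix σ σ K) (a : σ → Polynomial K) :
    (N.map Polynomial.C).mulVec ((N'.map Polynomial.C).mulVec a) =
      ((N * N').map Polynomial.C).mulVec a := by
  rw [Matrix.mulVec_mulVec, Matrix.map_mul]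

lemma Ep_comm (M : Matrix σ σ K) (m : ℕ) (a : σ → Polynomial K) :
    (M.map Polynomial.C).mulVec ((Ep M m).mulVec a) =
      (Ep M m).mulVec ((M.map Polynomial.C).mulVec a) := by
  rw [Ep_sum, Ep_sum, Matrix.mulVec_sum]
  refine Finset.sum_congr rfl (fun j _ => ?_)
  rw [Matrix.mulVec_smul, mapC_mul, mapC_mul, ← pow_succ, ← pow_succ']

lemma X2_deriv (l : ℕ) : (Polynomial.X : Polynomial K) ^ 2 * Polynomial.derivative
    ((Polynomial.X : Polynomial K) ^ l) = Polynomial.C (l : K) * Polynomial.X ^ (l + 1) := by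
  rw [Polynomial.derivative_X_pow]
  rcases l with _ | l
  · simp
  · rw [Nat.add_sub_cancel]
    ring

lemma Ep_deriv [CharZero K] (hM : M ^ (m + 1) = 0) (a : σ → Polynomial K) :
    (Polynomial.X : Polynomial K) ^ 2 • dv ((Ep M m).mulVec a) =
      (Polynomial.C (m : K) * Polynomial.X) • (Ep M m).mulVec a -
        (M.map Polynomial.C).mulVec ((Ep M m).mulVec a) +
        (Polynomial.X : Polynomial K) ^ 2 • (Ep M m).mulVec (dv a) := by
  rw [Ep_sum, Ep_sum, dv_sum, Finset.smul_sum]
  have h1 : ∀ j ∈ Finset.range (m + 1), (Polynomial.X : Polynomial K) ^ 2 •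
      dv ((Polynomial.C ((j.factorial : K)⁻¹) * Polynomial.X ^ (m - j)) •
        ((M ^ j).map Polynomial.C).mulVec a) =
      (Polynomial.C (m : K) * Polynomial.X) • ((Polynomial.C ((j.factorial : K)⁻¹) *
        Polynomial.X ^ (m - j)) • ((M ^ j).map Polynomial.C).mulVec a) -
      (Polynomial.C ((j : K) * (j.factorial : K)⁻¹) * Polynomial.X ^ (m + 1 - j)) •
        ((M ^ j).map Polynomial.C).mulVec a +
      (Polynomial.X : Polynomial K) ^ 2 • ((Polynomial.C ((j.factorial : K)⁻¹) *
        Polynomial.X ^ (m - j)) • ((M ^ j).map Polynomial.C).mulVec (dv a)) := by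
    intro j hj
    rw [Finset.mem_range] at hj
    rw [dv_smul, dv_mapC, smul_add]
    congr 1
    rw [smul_smul, smul_smul, ← sub_smul]
    congr 1
    rw [Polynomial.derivative_C_mul]
    have h2 := X2_deriv (K := K) (m - j)
    have h3 : m + 1 - j = m - j + 1 := by omega
    have h4 : ((m - j : ℕ) : K) = (m : K) - j := by
      rw [Nat.cast_sub (by omega)]
    rw [h3, show (Polynomial.X : Polynomial K) ^ 2 * (Polynomial.C ((j.factorial : K)⁻¹) *
      Polynomial.derivative (Polynomial.X ^ (m - j))) = Polynomial.C ((j.factorial : K)⁻¹) *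
      (Polynomial.X ^ 2 * Polynomial.derivative (Polynomial.X ^ (m - j))) by ring, h2, h4,
      Polynomial.C_mul, Polynomial.C_sub]
    ring
  rw [Finset.sum_congr rfl h1, Finset.sum_add_distrib, Finset.sum_sub_distrib, Finset.smul_sum,
    Finset.smul_sum]
  congr 2
  rw [Matrix.mulVec_sum, Finset.sum_range_succ', Finset.sum_range_succ]
  have h5 : (Polynomial.C (((0 : ℕ) : K) * ((Nat.factorial 0 : ℕ) : K)⁻¹) *
      Polynomial.X ^ (m + 1 - 0)) • ((M ^ 0).map Polynomial.C).mulVec a = 0 := by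
    simp
  have h6 : (M.map Polynomial.C).mulVec ((Polynomial.C ((m.factorial : K)⁻¹) *
      Polynomial.X ^ (m - m)) • ((M ^ m).map Polynomial.C).mulVec a) = 0 := by
    rw [Matrix.mulVec_smul, mapC_mul, ← pow_succ', hM]
    have : (0 : Matrix σ σ K).map (Polynomial.C : K → Polynomial K) = 0 := by
      ext i j; simp
    rw [this, Matrix.zero_mulVec, smul_zero]
  rw [h5, h6, add_zero, add_zero]
  refine Finset.sum_congr rfl (fun j hj => ?_)
  rw [Matrix.mulVec_smul, mapC_mul, ← pow_succ']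
  congr 2
  · congr 1
    rw [Nat.factorial_succ]
    push_cast
    have h7 : ((j : K) + 1) ≠ 0 := by exact_mod_cast Nat.succ_ne_zero j
    rw [mul_inv, ← mul_assoc, mul_inv_cancel₀ h7, one_mul]
  · congr 1
    omega

lemma chain_step [CharZero K] (hM : M ^ (m + 1) = 0) (a b : σ → Polynomial K) (l : ℕ)
    (h : (Ep M m).mulVec a = (Polynomial.X : Polynomial K) ^ l • b) :
    ∃ a' b' : σ → Polynomial K, at0 a' = M.mulVec (at0 a) ∧
      (Ep M m).mulVec a' = (Polynomial.X : Polynomial K) ^ (l + 2) • b' := by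
  refine ⟨(M.map Polynomial.C).mulVec a - (Polynomial.X : Polynomial K) ^ 2 • dv a +
    ((Polynomial.C (l : K) - Polynomial.C (m : K)) * Polynomial.X) • a, -dv b, ?_, ?_⟩
  · have h1 : at0 ((M.map Polynomial.C).mulVec a) = M.mulVec (at0 a) := by
      rw [at0_mulVec]
      congr 1
      ext i j
      simp
    have h2 : ∀ P Q : σ → Polynomial K, at0 (P - Q) = at0 P - at0 Q := by
      intro P Q; funext i; simp [at0]
    rw [at0_add, h2, h1, at0_X_smul 2 two_pos, at0_smul, Polynomial.eval_mul, Polynomial.eval_X,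
      mul_zero, zero_smul, sub_zero, add_zero]
  · have h1 := Ep_deriv hM a
    rw [h, dv_smul, smul_add, smul_smul, X2_deriv, smul_smul, ← pow_add] at h1
    rw [Matrix.mulVec_add, Matrix.mulVec_sub, ← Ep_comm, Matrix.mulVec_smul, Matrix.mulVec_smul, h]
    have h2 : (M.map Polynomial.C).mulVec ((Polynomial.X : Polynomial K) ^ l • b) =
        (Polynomial.C (m : K) * Polynomial.X) • (Polynomial.X : Polynomial K) ^ l • b +
        (Polynomial.X : Polynomial K) ^ 2 • (Ep M m).mulVec (dv a) -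
        ((Polynomial.C (l : K) * Polynomial.X ^ (l + 1)) • b +
          (Polynomial.X : Polynomial K) ^ (2 + l) • dv b) := by
      rw [h1]; abel
    rw [h2, show l + 2 = 2 + l by omega]
    simp only [smul_smul, smul_neg]
    have h3 : (Polynomial.C (l : K) - Polynomial.C (m : K)) * Polynomial.X *
        Polynomial.X ^ l = Polynomial.C (l : K) * Polynomial.X ^ (l + 1) -
        Polynomial.C (m : K) * Polynomial.X * Polynomial.X ^ l := by ring
    rw [h3, sub_smul]
    abel

lemma chain [CharZero K] (hM : M ^ (m + 1) = 0) (v : σ → K) (l : ℕ)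
    (h : ∃ b, (Ep M m).mulVec (cv v) = (Polynomial.X : Polynomial K) ^ l • b) (i : ℕ) :
    ∃ a b : σ → Polynomial K, at0 a = (M ^ i).mulVec v ∧
      (Ep M m).mulVec a = (Polynomial.X : Polynomial K) ^ (l + 2 * i) • b := by
  induction i with
  | zero =>
    obtain ⟨b, hb⟩ := h
    exact ⟨cv v, b, by rw [at0_cv, pow_zero, Matrix.one_mulVec], hb⟩
  | succ i ih =>
    obtain ⟨a, b, h1, h2⟩ := ih
    obtain ⟨a', b', h3, h4⟩ := chain_step hM a b _ h2
    refine ⟨a', b', ?_, ?_⟩
    · rw [h3, h1, Matrix.mulVec_mulVec, ← pow_succ']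
    · rw [h4]; congr 2

lemma mem_WW_of [CharZero K] (hM : M ^ (m + 1) = 0) (v : σ → K) (j : ℕ) (hj : 2 * j ≤ m + 1)
    (hv : (M ^ (2 * j)).mulVec v = 0) : (M ^ j).mulVec v ∈ WW M m := by
  have h0 : ∃ b, (Ep M m).mulVec (cv v) = (Polynomial.X : Polynomial K) ^ (m + 1 - 2 * j) • b := by
    refine ⟨∑ i ∈ Finset.range (2 * j), (Polynomial.C ((i.factorial : K)⁻¹) *
      Polynomial.X ^ (2 * j - 1 - i)) • ((M ^ i).map Polynomial.C).mulVec (cv v), ?_⟩
    have hz : ∀ i, 2 * j ≤ i → ((M ^ i).map Polynomial.C).mulVec (cv v) = 0 := by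
      intro i hi
      have h1 : ((M ^ i).map Polynomial.C).mulVec (cv v) = cv ((M ^ i).mulVec v) := by
        funext k
        simp [Matrix.mulVec, dotProduct, cv, map_sum]
      rw [h1, show i = (i - 2 * j) + 2 * j by omega, pow_add, ← Matrix.mulVec_mulVec, hv,
        Matrix.mulVec_zero]
      funext k; simp [cv]
    rw [Ep_sum, Finset.smul_sum]
    have h2 : ∑ i ∈ Finset.range (m + 1), (Polynomial.C ((i.factorial : K)⁻¹) *
        Polynomial.X ^ (m - i)) • ((M ^ i).map Polynomial.C).mulVec (cv v) =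
        ∑ i ∈ Finset.range (2 * j), (Polynomial.C ((i.factorial : K)⁻¹) *
        Polynomial.X ^ (m - i)) • ((M ^ i).map Polynomial.C).mulVec (cv v) := by
      symm
      apply Finset.sum_subset
      · intro i hi
        rw [Finset.mem_range] at hi ⊢
        omega
      · intro i _ hi
        rw [Finset.mem_range] at hi
        rw [hz i (by omega), smul_zero]
    rw [h2]
    refine Finset.sum_congr rfl (fun i hi => ?_)
    rw [Finset.mem_range] at hi
    rw [smul_smul]
    congr 1
    have h3 : m - i = (m + 1 - 2 * j) + (2 * j - 1 - i) := by omega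
    rw [h3, pow_add]
    ring
  obtain ⟨a, b, h1, h2⟩ := chain hM v _ h0 j
  refine ⟨a, b, h1, ?_⟩
  rw [h2]
  congr 2
  omega

/-- rank of the powers -/
lemma rank_step (M : Matrix σ σ K) (i : ℕ) : (M ^ i).rank = (M ^ (i + 1)).rank +
    Module.finrank K (LinearMap.range (M ^ i).mulVecLin ⊓ LinearMap.ker M.mulVecLin :
      Submodule K (σ → K)) := by
  set R := LinearMap.range (M ^ i).mulVecLin with hR
  let φ : R →ₗ[K] (σ → K) := M.mulVecLin.comp R.subtype
  have h1 := LinearMap.finrank_range_add_finrank_ker φ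
  have h2 : LinearMap.range φ = LinearMap.range (M ^ (i + 1)).mulVecLin := by
    ext v
    constructor
    · rintro ⟨⟨w, x, rfl⟩, rfl⟩
      refine ⟨x, ?_⟩
      show (M ^ (i + 1)).mulVec x = M.mulVec ((M ^ i).mulVec x)
      rw [Matrix.mulVec_mulVec, ← pow_succ']
    · rintro ⟨x, rfl⟩
      refine ⟨⟨(M ^ i).mulVec x, x, rfl⟩, ?_⟩
      show M.mulVec ((M ^ i).mulVec x) = (M ^ (i + 1)).mulVec x
      rw [Matrix.mulVec_mulVec, ← pow_succ']
  have h3 := Submodule.finrank_map_subtype_eq R (LinearMap.ker φ)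
  have h4 : (LinearMap.ker φ).map R.subtype = R ⊓ LinearMap.ker M.mulVecLin := by
    ext v
    constructor
    · rintro ⟨w, hw, rfl⟩
      exact ⟨w.2, hw⟩
    · rintro ⟨hv1, hv2⟩
      exact ⟨⟨v, hv1⟩, hv2, rfl⟩
  rw [h4] at h3
  rw [h2] at h1
  have h5 : (M ^ i).rank = Module.finrank K R := rfl
  have h6 : (M ^ (i + 1)).rank = Module.finrank K (LinearMap.range (M ^ (i + 1)).mulVecLin) := rfl
  omega

lemma WW_step [CharZero K] (hM : M ^ (m + 1) = 0) (j : ℕ) (hj : 2 * (j + 1) ≤ m + 1) :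
    Module.finrank K (WW M m ⊓ LinearMap.ker (M ^ j).mulVecLin : Submodule K (σ → K)) +
      Module.finrank K (LinearMap.range (M ^ (2 * j + 1)).mulVecLin ⊓ LinearMap.ker M.mulVecLin :
        Submodule K (σ → K)) ≤
      Module.finrank K (WW M m ⊓ LinearMap.ker (M ^ (j + 1)).mulVecLin : Submodule K (σ → K)) := by
  set S := WW M m ⊓ LinearMap.ker (M ^ (j + 1)).mulVecLin with hS
  let φ : S →ₗ[K] (σ → K) := (M ^ j).mulVecLin.comp S.subtype
  have h1 := LinearMap.finrank_range_add_finrank_ker φ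
  have h2 : (LinearMap.range (M ^ (2 * j + 1)).mulVecLin ⊓ LinearMap.ker M.mulVecLin :
      Submodule K (σ → K)) ≤ LinearMap.range φ := by
    rintro _ ⟨⟨v, rfl⟩, hw⟩
    have hw' : M.mulVec ((M ^ (2 * j + 1)).mulVec v) = 0 := hw
    rw [Matrix.mulVec_mulVec, ← pow_succ'] at hw'
    refine ⟨⟨(M ^ (j + 1)).mulVec v, mem_WW_of hM v (j + 1) hj (by
      rw [show 2 * (j + 1) = 2 * j + 1 + 1 by ring]; exact hw'), ?_⟩, ?_⟩
    · show (M ^ (j + 1)).mulVec ((M ^ (j + 1)).mulVec v) = 0
      rw [Matrix.mulVec_mulVec, ← pow_add, show j + 1 + (j + 1) = 2 * j + 1 + 1 by ring]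
      exact hw'
    · show (M ^ j).mulVec ((M ^ (j + 1)).mulVec v) = (M ^ (2 * j + 1)).mulVec v
      rw [Matrix.mulVec_mulVec, ← pow_add]
      congr 2
      ring
  have h3 := Submodule.finrank_mono h2
  have h4 := Submodule.finrank_map_subtype_eq S (LinearMap.ker φ)
  have h5 : (WW M m ⊓ LinearMap.ker (M ^ j).mulVecLin : Submodule K (σ → K)) ≤
      (LinearMap.ker φ).map S.subtype := by
    rintro v ⟨hv1, hv2⟩
    have hv2' : (M ^ j).mulVec v = 0 := hv2
    refine ⟨⟨v, hv1, ?_⟩, hv2, rfl⟩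
    show (M ^ (j + 1)).mulVec v = 0
    rw [pow_succ', ← Matrix.mulVec_mulVec, hv2', Matrix.mulVec_zero]
  have h6 := Submodule.finrank_mono h5
  omega

/-- The limit space is large. -/
theorem rank_le [CharZero K] (hM : M ^ (m + 1) = 0) :
    M.rank ≤ 2 * Module.finrank K (WW M m) := by
  have key : ∀ J, 2 * J ≤ m + 1 → (M ^ 1).rank ≤ (M ^ (2 * J + 1)).rank + 2 * Module.finrank K
      (WW M m ⊓ LinearMap.ker (M ^ J).mulVecLin : Submodule K (σ → K)) := by
    intro J
    induction J with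
    | zero => intro _; simp
    | succ J ih =>
      intro hJ
      have h1 := ih (by omega)
      have h2 := WW_step hM J hJ
      have h3 := rank_step M (2 * J + 1)
      have h4 := rank_step M (2 * J + 1 + 1)
      have h5 : (LinearMap.range (M ^ (2 * J + 1 + 1)).mulVecLin ⊓ LinearMap.ker M.mulVecLin :
          Submodule K (σ → K)) ≤ LinearMap.range (M ^ (2 * J + 1)).mulVecLin ⊓
            LinearMap.ker M.mulVecLin := by
        refine inf_le_inf_right _ ?_
        rintro _ ⟨x, rfl⟩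
        refine ⟨M.mulVec x, ?_⟩
        show (M ^ (2 * J + 1)).mulVec (M.mulVec x) = (M ^ (2 * J + 1 + 1)).mulVec x
        rw [Matrix.mulVec_mulVec, ← pow_succ]
      have h6 := Submodule.finrank_mono h5
      rw [show 2 * (J + 1) + 1 = 2 * J + 1 + 1 + 1 by ring]
      omega
  have h1 := key ((m + 1) / 2) (by omega)
  have h2 : M ^ (2 * ((m + 1) / 2) + 1) = 0 := by
    rw [show 2 * ((m + 1) / 2) + 1 = (m + 1) + (2 * ((m + 1) / 2) + 1 - (m + 1)) by omega,
      pow_add, hM, zero_mul]
  rw [h2, Matrix.rank_zero, pow_one, zero_add] at h1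
  have h3 : Module.finrank K (WW M m ⊓ LinearMap.ker (M ^ ((m + 1) / 2)).mulVecLin :
      Submodule K (σ → K)) ≤ Module.finrank K (WW M m) := Submodule.finrank_mono inf_le_left
  omega

/-- Nondegenerate smooth cones with a unipotent one parameter group. -/
theorem nil_le_one [IsAlgClosed K] [CharZero K] {I : Ideal (MvPolynomial σ K)} {r : ℕ}
    (h : Nil M m I r) (hcard : 15 * r ≤ Fintype.card σ) : r ≤ 1 := by
  by_cases hW : 3 * r + 1 ≤ Module.finrank K (WW M m)
  · exact alpha h hW
  · have h1 := rank_le (M := M) h.nil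
    have h2 : M.rank ≤ 6 * r := by omega
    apply beta h
    omega

end Pool.Agent.H929R2.Hart
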