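import Pool.Agent.H929R2.Hart.W16
import Pool.Agent.H929R2.Hart.Gen

set_option autoImplicit false
set_option maxHeartbeats 400000

namespace Pool.Agent.H929R2.Hart

open MvPolynomial

variable {σ : Type} [Fintype σ] [DecidableEq σ] {K : Type} [Field K]

omit [DecidableEq σ] in
lemma JJ_eq (I : Ideal (MvPolynomial σ K)) :
    Red.JJ I = Ideal.span (Set.range (fun q => lin (Module.finBasis K (linsub I) q : σ → K))) := by
  apply le_antisymm
  · rw [Red.JJ, Ideal.span_le]
    rintro _ ⟨u, hu, rfl⟩
    have h1 := (Module.finBasis K (linsub I)).sum_repr ⟨u, hu⟩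
    have h2 : u = ∑ q, (Module.finBasis K (linsub I)).repr ⟨u, hu⟩ q •
        (Module.finBasis K (linsub I) q : σ → K) := by
      have := congrArg Subtype.val h1
      rw [Submodule.coe_sum] at this
      exact this.symm
    rw [h2, lin_sum]
    refine Ideal.sum_mem _ (fun q _ => ?_)
    rw [lin_smul]
    exact Ideal.mul_mem_left _ _ (Ideal.subset_span ⟨q, rfl⟩)
  · rw [Ideal.span_le]
    rintro _ ⟨q, rfl⟩
    exact Red.lin_mem_JJ (Module.finBasis K (linsub I) q).2

namespace Red

variable {I : Ideal (MvPolynomial σ K)} {κ : Type} [Fintype κ] {a : κ → σ}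
  {c : σ → κ → K}

omit [DecidableEq σ] in
lemma EE_zero : EE c (0 : κ → K) = 0 := by
  funext i
  rw [EE]
  exact Finset.sum_eq_zero (fun k _ => by rw [Pi.zero_apply, mul_zero])

lemma res_ne (h : Red I a c) {x : σ → K} (hx : x ∈ cone I) (hx0 : x ≠ 0) :
    (fun k => x (a k)) ≠ 0 := by
  intro h0
  apply hx0
  rw [h.eq_EE hx, h0, EE_zero]

lemma EE_ne (h : Red I a c) {x : κ → K} (hx0 : x ≠ 0) : EE c x ≠ 0 := by
  intro h0
  apply hx0
  funext k
  rw [← h.EE_at x k, h0]
  rfl

lemma rank (h : Red I a c) {r : ℕ}
    (hr : ∀ x ∈ cone I, x ≠ 0 → Module.finrank K (conormal I x) = r)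
    (x : κ → K) (hx : x ∈ cone (II I a)) (hx0 : x ≠ 0) :
    Module.finrank K (linsub I) + Module.finrank K (conormal (II I a) x) = r := by
  have h1 := h.finrank_eq (h.EE_mem hx)
  rw [hr _ (h.EE_mem hx) (h.EE_ne hx0)] at h1
  have h2 : (fun k => EE c x (a k)) = x := by funext k; exact h.EE_at x k
  rw [h2] at h1
  omega

omit [Fintype κ] [Fintype σ] [DecidableEq σ] in
lemma hom_II (hom : ∀ F ∈ I, ∀ d, homogeneousComponent d F ∈ I) :
    ∀ G ∈ II I a, ∀ d, homogeneousComponent d G ∈ II I a := by
  intro G hG d
  rw [mem_II, rename_homogeneousComponent]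
  exact hom _ ((mem_II G).1 hG) d

end Red

/-- If the span of the variety has codimension at least `r - 1`, the ideal is generated by `r`
forms. -/
theorem isCI_of_linsub [IsAlgClosed K] [CharZero K] (r : ℕ) (I : Ideal (MvPolynomial σ K))
    (hI : I.IsPrime) (hom : ∀ F ∈ I, ∀ d, homogeneousComponent d F ∈ I)
    (hr : ∀ x ∈ cone I, x ≠ 0 → Module.finrank K (conormal I x) = r)
    (hne : ∃ x ∈ cone I, x ≠ 0) (hcard : r ≤ Module.finrank K (linsub I) + 1) : IsCI r I := by
  classical
  obtain ⟨κ, _, a, c, h, -⟩ := exists_red I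
  set I' := Red.II I a with hI'
  have hprime : I'.IsPrime := Ideal.comap_isPrime _ _
  have hne' : ∃ x' ∈ cone I', x' ≠ 0 := by
    obtain ⟨x, hx, hx0⟩ := hne
    exact ⟨_, Red.res_mem hx, h.res_ne hx hx0⟩
  have hrank : ∀ x ∈ cone I', x ≠ 0 →
    Module.finrank K (linsub I) + Module.finrank K (conormal I' x) = r := h.rank hr
  have hle : Module.finrank K (linsub I) ≤ r := by
    obtain ⟨x', hx', hx'0⟩ := hne'
    have := hrank x' hx' hx'0
    omega
  obtain ⟨F, hF⟩ := principal_of_rank_le_one I' hprime hne' (fun x' hx' hx'0 => by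
    have := hrank x' hx' hx'0; omega)
  have hom' : ∀ G ∈ Ideal.span {F}, ∀ d, homogeneousComponent d G ∈ Ideal.span {F} := by
    rw [← hF]; exact Red.hom_II hom
  obtain ⟨d, hd⟩ := homog_generator F hom'
  have hspan : ∀ G ∈ I, ∃ A, G - A * rename a F ∈ Red.JJ I := by
    intro G hG
    have h1 := h.sub_mem_II hG
    rw [← hI', hF, Ideal.mem_span_singleton] at h1
    obtain ⟨A, hA⟩ := h1
    refine ⟨rename a A, ?_⟩
    have h2 := h.sub_mem G
    rw [hA, map_mul, mul_comm (rename _ F)] at h2
    exact h2
  have hFI : rename a F ∈ I := by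
    rw [← Red.mem_II, ← hI', hF]; exact Ideal.mem_span_singleton_self F
  let b : Fin (Module.finrank K (linsub I)) → MvPolynomial σ K :=
    fun q => lin (Module.finBasis K (linsub I) q : σ → K)
  have hbI : ∀ q, b q ∈ I := fun q => (Module.finBasis K (linsub I) q).2
  have hJ : Red.JJ I = Ideal.span (Set.range b) := JJ_eq I
  rcases Nat.lt_or_ge (Module.finrank K (linsub I)) r with hlt | hge
  · have hcardO : Fintype.card (Option (Fin (Module.finrank K (linsub I)))) = r := by
      rw [Fintype.card_option, Fintype.card_fin]; omega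
    let e : Fin r ≃ Option (Fin (Module.finrank K (linsub I))) :=
      (Fintype.equivFinOfCardEq hcardO).symm
    let g : Option (Fin (Module.finrank K (linsub I))) → MvPolynomial σ K :=
      fun o => o.elim (rename a F) b
    apply isCI_of_span r I hr (fun i => g (e i))
    · intro i
      rcases h' : e i with _ | l
      · exact ⟨d, by simp only [g, h', Option.elim]; exact hd.rename_isHomogeneous⟩
      · exact ⟨1, by simp only [g, h', Option.elim]; exact lin_homog _⟩
    · have hrg : Set.range (fun i => g (e i)) = Set.range g := by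
        rw [← e.surjective.range_comp g]; rfl
      rw [hrg]
      apply le_antisymm
      · intro G hG
        obtain ⟨A, hA⟩ := hspan G hG
        have h1 : Red.JJ I ≤ Ideal.span (Set.range g) := by
          rw [hJ]
          apply Ideal.span_mono
          rintro _ ⟨l, rfl⟩
          exact ⟨some l, rfl⟩
        have h2 : A * rename a F ∈ Ideal.span (Set.range g) :=
          Ideal.mul_mem_left _ _ (Ideal.subset_span ⟨none, rfl⟩)
        have h3 := Ideal.add_mem _ (h1 hA) h2
        rwa [sub_add_cancel] at h3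
      · rw [Ideal.span_le]
        rintro _ ⟨o, rfl⟩
        cases o with
        | none => exact hFI
        | some l => exact hbI l
  · have hbot : I' = ⊥ := by
      apply eq_bot_of_rank_zero I' hprime hne'
      intro G hG i
      apply mem_of_vanish_ne I' hprime hne'
      intro x' hx' hx'0
      have h1 := hrank x' hx' hx'0
      have h2 : Module.finrank K (conormal I' x') = 0 := by omega
      rw [Submodule.finrank_eq_zero] at h2
      have h3 := grad_mem I' x' hG
      rw [h2, Submodule.mem_bot] at h3
      exact congrFun h3 i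
    have hF0 : F = 0 := by
      rw [hbot] at hF
      exact Ideal.span_singleton_eq_bot.1 hF.symm
    have hd' : Module.finrank K (linsub I) = r := by omega
    let e : Fin r ≃ Fin (Module.finrank K (linsub I)) := finCongr hd'.symm
    apply isCI_of_span r I hr (fun i => b (e i))
    · intro i
      exact ⟨1, lin_homog _⟩
    · have hrg : Set.range (fun i => b (e i)) = Set.range b := by
        rw [← e.surjective.range_comp b]; rfl
      rw [hrg]
      apply le_antisymm
      · intro G hG
        obtain ⟨A, hA⟩ := hspan G hG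
        rw [hF0, map_zero, mul_zero, sub_zero, hJ] at hA
        exact hA
      · rw [Ideal.span_le]
        rintro _ ⟨l, rfl⟩
        exact hbI l

/-- Reduction to nondegenerate varieties with normalized weights. -/
theorem main_gm [IsAlgClosed K] [CharZero K] (r : ℕ) (I : Ideal (MvPolynomial σ K))
    (hI : I.IsPrime) (hom : ∀ F ∈ I, ∀ d, homogeneousComponent d F ∈ I)
    (hr : ∀ x ∈ cone I, x ≠ 0 → Module.finrank K (conormal I x) = r)
    (hne : ∃ x ∈ cone I, x ≠ 0) (w : σ → ℤ) (hst : Stable w I)
    (hnt : ∃ x ∈ cone I, ∃ i j, x i ≠ 0 ∧ x j ≠ 0 ∧ w i ≠ w j)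
    (bound : ∀ (τ : Type) [Fintype τ] [DecidableEq τ] (w' : τ → ℤ) (J : Ideal (MvPolynomial τ K))
      (r' : ℕ) (D : ℤ), Src w' J r' D → Fintype.card τ + r = Fintype.card σ + r' → r' ≤ r →
      r' ≤ 1) : r ≤ Module.finrank K (linsub I) + 1 := by
  classical
  obtain ⟨κ, _, a, c, h, hcard⟩ := exists_red I
  set I' := Red.II I a with hI'
  have hprime : I'.IsPrime := Ideal.comap_isPrime _ _
  have hrank : ∀ x ∈ cone I', x ≠ 0 →
    Module.finrank K (linsub I) + Module.finrank K (conormal I' x) = r := h.rank hr
  obtain ⟨x0, hx0, hx00⟩ := hne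
  have hle : Module.finrank K (linsub I) ≤ r := by
    have := hrank _ (Red.res_mem hx0) (h.res_ne hx0 hx00)
    omega
  have hκ : Nonempty κ := by
    obtain ⟨k, -⟩ := Function.ne_iff.1 (h.res_ne hx0 hx00)
    exact ⟨k⟩
  have hst' : Stable (fun k => w (a k)) I' := by
    intro t ht x hx
    have h1 := Red.res_mem (a := a) (hst t ht _ (h.EE_mem hx))
    have h2 : (fun k => t ^ w (a k) * Red.EE c x (a k)) = fun k => t ^ w (a k) * x k := by
      funext k
      rw [h.EE_at]
    rw [← h2]
    exact h1
  obtain ⟨o, _, hmin⟩ := Finset.exists_min_image Finset.univ (fun k => w (a k))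
    Finset.univ_nonempty
  obtain ⟨M, _, hmax⟩ := Finset.exists_max_image Finset.univ (fun k => w (a k))
    Finset.univ_nonempty
  have hlt : w (a o) < w (a M) := by
    by_contra hcon
    have hall : ∀ k, w (a k) = w (a o) := by
      intro k
      have h1 := hmin k (Finset.mem_univ _)
      have h2 := hmax k (Finset.mem_univ _)
      omega
    obtain ⟨x, hx, i, j, hi, hj, hij⟩ := hnt
    have hy := hst 2 two_ne_zero x hx
    have h1 := h.eq_EE hx
    have h2 := h.eq_EE hy
    have h3 : ∀ i, (2 : K) ^ w i * x i = (2 : K) ^ w (a o) * x i := by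
      intro i
      have h4 := congrFun h2 i
      have h5 := congrFun h1 i
      simp only [Red.EE] at h4 h5
      rw [h4]
      conv_rhs => rw [h5]
      rw [Finset.mul_sum]
      refine Finset.sum_congr rfl (fun k _ => ?_)
      rw [hall k]
      ring
    have h6 : ∀ i, x i ≠ 0 → w i = w (a o) := by
      intro i hi
      have h7 := mul_right_cancel₀ hi (h3 i)
      have h8 : ((2 : ℚ) ^ w i) = (2 : ℚ) ^ w (a o) := by
        have : (((2 : ℚ) ^ w i : ℚ) : K) = (((2 : ℚ) ^ w (a o) : ℚ) : K) := by
          push_cast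
          exact h7
        exact_mod_cast this
      exact zpow_right_injective₀ (by norm_num) (by norm_num) h8
    exact hij (by rw [h6 i hi, h6 j hj])
  have hsrc : Src (fun k => w (a k) - w (a o)) I' (r - Module.finrank K (linsub I))
      (w (a M) - w (a o)) := by
    refine ⟨⟨hprime, Red.hom_II hom, ?_⟩, stable_shift (Red.hom_II hom) hst' _, ?_, ?_, ?_, ?_,
      ?_, ?_⟩
    · intro x hx hx0
      have := hrank x hx hx0
      omega
    · intro u hu
      apply h.indep
      rw [mem_linsub, ← rename_lin]
      exact (Red.mem_II _).1 hu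
    · intro k
      have := hmin k (Finset.mem_univ _)
      show 0 ≤ w (a k) - w (a o)
      omega
    · intro k
      have := hmax k (Finset.mem_univ _)
      show w (a k) - w (a o) ≤ w (a M) - w (a o)
      omega
    · exact ⟨o, by simp⟩
    · exact ⟨M, rfl⟩
    · omega
  have := bound κ _ I' _ _ hsrc (by omega) (by omega)
  omega

end Pool.Agent.H929R2.Hart
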