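import Pool.Agent.H929R2.Hart.U16
import Pool.Agent.H929R2.Hart.W17

set_option autoImplicit false
set_option maxHeartbeats 400000

namespace Pool.Agent.H929R2.Hart

open MvPolynomial

variable {σ : Type} [Fintype σ] [DecidableEq σ] {K : Type} [Field K]

/-- Reduction to nondegenerate varieties. -/
theorem main_ga [IsAlgClosed K] [CharZero K] (r : ℕ) (I : Ideal (MvPolynomial σ K))
    (hI : I.IsPrime) (hom : ∀ F ∈ I, ∀ d, homogeneousComponent d F ∈ I)
    (hr : ∀ x ∈ cone I, x ≠ 0 → Module.finrank K (conormal I x) = r)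
    (M : Matrix σ σ K) (m : ℕ) (hM : M ^ (m + 1) = 0) (hm : 1 ≤ m) (hst : StabN M m I)
    (hnt : ∃ x ∈ cone I, M.mulVec x ≠ 0)
    (bound : ∀ (τ : Type) [Fintype τ] [DecidableEq τ] (M' : Matrix τ τ K) (m' : ℕ)
      (J : Ideal (MvPolynomial τ K)) (r' : ℕ), Nil M' m' J r' →
      Fintype.card τ + r = Fintype.card σ + r' → r' ≤ r → r' ≤ 1) :
    r ≤ Module.finrank K (linsub I) + 1 := by
  classical
  obtain ⟨κ, _, a, c, h, hcard⟩ := exists_red I
  set I' := Red.II I a with hI'
  have hprime : I'.IsPrime := Ideal.comap_isPrime _ _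
  have hrank : ∀ x ∈ cone I', x ≠ 0 →
    Module.finrank K (linsub I) + Module.finrank K (conormal I' x) = r := h.rank hr
  obtain ⟨x0, hx0, hMx0⟩ := hnt
  have hx00 : x0 ≠ 0 := by
    rintro rfl
    exact hMx0 (Matrix.mulVec_zero M)
  have hle : Module.finrank K (linsub I) ≤ r := by
    have := hrank _ (Red.res_mem hx0) (h.res_ne hx0 hx00)
    omega
  have hnd : Nondeg I' := by
    intro u hu
    apply h.indep
    rw [mem_linsub, ← rename_lin]
    exact (Red.mem_II _).1 hu
  -- the linear maps
  let E : (κ → K) →ₗ[K] (σ → K) :=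
    { toFun := Red.EE c
      map_add' := fun x y => by
        funext i
        simp only [Red.EE, Pi.add_apply, mul_add, Finset.sum_add_distrib]
      map_smul' := fun t x => by
        funext i
        simp only [Red.EE, Pi.smul_apply, smul_eq_mul, RingHom.id_apply, Finset.mul_sum]
        exact Finset.sum_congr rfl (fun k _ => by ring) }
  let R : (σ → K) →ₗ[K] (κ → K) := LinearMap.funLeft K K a
  have hE : ∀ x, E x = Red.EE c x := fun x => rfl
  have hR : ∀ x, R x = fun k => x (a k) := fun x => rfl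
  have hRE : ∀ x, R (E x) = x := by
    intro x
    rw [hR, hE]
    funext k
    exact h.EE_at x k
  -- vectors killed by the linear forms
  have hER : ∀ y : σ → K, (∀ u ∈ linsub I, dotB σ K u y = 0) → E (R y) = y := by
    intro y hy
    rw [hE, hR]
    funext i
    have h1 := hy _ (h.u_mem i)
    rw [map_sub, LinearMap.sub_apply, dotB_single, Red.dot_extL] at h1
    rw [Red.EE]
    exact (sub_eq_zero.1 h1).symm
  have hME : ∀ x, ∀ u ∈ linsub I, dotB σ K u (M.mulVec (E x)) = 0 := by
    intro x u hu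
    have hx : x ∈ Submodule.span K (cone I') := by rw [span_cone hprime hnd]; trivial
    refine Submodule.span_induction ?_ ?_ ?_ ?_ hx
    · intro y hy
      have h1 := (mem_tangent I _ _).1 (flow_tangent hst hm _ (h.EE_mem hy)) (lin u) hu
      rw [grad_lin] at h1
      exact h1
    · rw [map_zero, Matrix.mulVec_zero, map_zero]
    · intro y z _ _ hy hz
      rw [map_add, Matrix.mulVec_add, map_add, hy, hz, add_zero]
    · intro t y _ hy
      rw [map_smul, Matrix.mulVec_smul, map_smul, hy, smul_zero]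
  let N : Matrix κ κ K := LinearMap.toMatrix' (R.comp (M.mulVecLin.comp E))
  have hN : ∀ x, N.mulVec x = R (M.mulVec (E x)) := by
    intro x
    rw [LinearMap.toMatrix'_mulVec]
    rfl
  have hEN : ∀ x, E (N.mulVec x) = M.mulVec (E x) := by
    intro x
    rw [hN]
    exact hER _ (hME x)
  have hENj : ∀ j x, E ((N ^ j).mulVec x) = (M ^ j).mulVec (E x) := by
    intro j
    induction j with
    | zero => intro x; simp
    | succ j ih =>
      intro x
      rw [pow_succ, pow_succ, ← Matrix.mulVec_mulVec, ← Matrix.mulVec_mulVec, ih, hEN]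
  have hEinj : ∀ x, E x = 0 → x = 0 := by
    intro x hx
    rw [← hRE x, hx, map_zero]
  have hnil : N ^ (m + 1) = 0 := by
    have h1 : ∀ x, (N ^ (m + 1)).mulVec x = 0 := by
      intro x
      apply hEinj
      rw [hENj, hM, Matrix.zero_mulVec]
    ext i j
    have h2 := congrFun (h1 (Pi.single j 1)) i
    rw [Matrix.mulVec_single_one] at h2
    exact h2
  have hN0 : N ≠ 0 := by
    intro h0
    apply hMx0
    have h1 : E (R x0) = x0 := hER x0 (fun u hu => by
      have := hx0 _ hu
      rwa [eval_lin] at this)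
    rw [← h1, ← hEN, h0, Matrix.zero_mulVec, map_zero]
  -- the exact nilpotency index
  have hex : ∃ n, N ^ n = 0 := ⟨_, hnil⟩
  have h1 : N ^ (Nat.find hex) = 0 := Nat.find_spec hex
  have hκ : Nonempty κ := by
    obtain ⟨k, -⟩ := Function.ne_iff.1 (h.res_ne hx0 hx00)
    exact ⟨k⟩
  obtain ⟨m', hm'⟩ : ∃ m', Nat.find hex = m' + 1 + 1 := by
    have h2 : Nat.find hex ≠ 0 := by
      intro h2
      rw [h2, pow_zero] at h1
      exact one_ne_zero h1
    have h3 : Nat.find hex ≠ 1 := by
      intro h3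
      rw [h3, pow_one] at h1
      exact hN0 h1
    exact ⟨Nat.find hex - 2, by omega⟩
  have hne : N ^ (m' + 1) ≠ 0 := Nat.find_min hex (by omega)
  rw [hm'] at h1
  have hexN : ∀ t x, (exK N (m' + 1) t).mulVec x = R ((exK M m t).mulVec (E x)) := by
    intro t x
    have h2 : exK N (m' + 1) t = exK N m t := by
      rw [exK_eq N (m' + 1) h1, exK_eq N m hnil]
    have h3 : E ((exK N m t).mulVec x) = (exK M m t).mulVec (E x) := by
      rw [exK_mulVec, exK_mulVec, map_sum]
      refine Finset.sum_congr rfl (fun j _ => ?_)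
      rw [map_smul, hENj]
    rw [h2, ← h3, hRE]
  have hNil : Nil N (m' + 1) I' (r - Module.finrank K (linsub I)) := by
    refine ⟨⟨hprime, Red.hom_II hom, ?_⟩, h1, hne, by omega, ?_, hnd⟩
    · intro x hx hx0
      have := hrank x hx hx0
      omega
    · intro x hx t
      rw [hexN]
      exact Red.res_mem (hst _ (h.EE_mem hx) t)
  have := bound κ N (m' + 1) I' _ hNil (by omega) (by omega)
  omega

theorem span_ga [IsAlgClosed K] [CharZero K] (r : ℕ) (I : Ideal (MvPolynomial σ K))
    (hI : I.IsPrime) (hom : ∀ F ∈ I, ∀ d, homogeneousComponent d F ∈ I)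
    (hr : ∀ x ∈ cone I, x ≠ 0 → Module.finrank K (conormal I x) = r)
    (M : Matrix σ σ K) (m : ℕ) (hM : M ^ (m + 1) = 0) (hm : 1 ≤ m) (hst : StabN M m I)
    (hnt : ∃ x ∈ cone I, M.mulVec x ≠ 0) (hcard : 15 * r ≤ Fintype.card σ) :
    r ≤ Module.finrank K (linsub I) + 1 := by
  apply main_ga r I hI hom hr M m hM hm hst hnt
  intro τ _ _ M' m' J r' hNil hc hle
  apply nil_le_one hNil
  omega

end Pool.Agent.H929R2.Hart
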