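import Pool.Agent.H929R2.Hart.W17

set_option autoImplicit false
set_option maxHeartbeats 400000

namespace Pool.Agent.H929R2.Hart

open MvPolynomial

variable {σ : Type} [Fintype σ] {K : Type} [Field K]

/-! ### From a diagonal automorphism to a torus -/

omit [Fintype σ] in
/-- Vandermonde argument. -/
lemma sum_class {ι : Type} (S : Finset ι) (α β γ : ι → K)
    (h0 : ∀ k : ℕ, ∑ s ∈ S, α s * β s ^ k = 0)
    (hγ : ∀ s ∈ S, ∀ s' ∈ S, β s = β s' → γ s = γ s') : ∑ s ∈ S, α s * γ s = 0 := by
  classical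
  have hex : ∀ y : K, ∃ z : K, ∀ s ∈ S, β s = y → γ s = z := by
    intro y
    by_cases hy : ∃ s ∈ S, β s = y
    · obtain ⟨s, hs, hsy⟩ := hy
      exact ⟨γ s, fun s' hs' h => hγ s' hs' s hs (by rw [h, hsy])⟩
    · push Not at hy
      exact ⟨0, fun s hs h => absurd h (hy s hs)⟩
  choose g hg using hex
  set P : Polynomial K := Lagrange.interpolate (S.image β) id g with hP
  have hPv : ∀ s ∈ S, γ s = P.eval (β s) := by
    intro s hs
    have h1 := Lagrange.eval_interpolate_at_node (s := S.image β) (v := id) g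
      (Set.injOn_id _) (Finset.mem_image_of_mem β hs)
    rw [hP]
    rw [id] at h1
    rw [h1]
    exact hg _ s hs rfl
  have h2 : ∑ s ∈ S, α s * γ s = ∑ k ∈ Finset.range (P.natDegree + 1),
      P.coeff k * ∑ s ∈ S, α s * β s ^ k := by
    simp only [Finset.mul_sum]
    rw [Finset.sum_comm]
    refine Finset.sum_congr rfl (fun s hs => ?_)
    rw [hPv s hs, Polynomial.eval_eq_sum_range, Finset.mul_sum]
    exact Finset.sum_congr rfl (fun k _ => by ring)
  rw [h2]
  exact Finset.sum_eq_zero (fun k _ => by rw [h0, mul_zero])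

lemma eval_mul_eq (F : MvPolynomial σ K) (μ x : σ → K) :
    eval (fun i => μ i * x i) F =
      ∑ d ∈ F.support, (coeff d F * ∏ i, x i ^ d i) * ∏ i, μ i ^ d i := by
  rw [eval_eq']
  refine Finset.sum_congr rfl (fun d _ => ?_)
  simp only [mul_pow, Finset.prod_mul_distrib]
  ring

/-- If the cone is stable under the diagonal matrix `mu` and the characters trivial on `mu` are
trivial on the torus with weights `w`, then it is stable under that torus. -/
theorem stable_of_diag (I : Ideal (MvPolynomial σ K)) (μ : σ → K)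
    (hst : ∀ x ∈ cone I, (fun i => μ i * x i) ∈ cone I) (w : σ → ℤ)
    (hw : ∀ d e : σ →₀ ℕ, ∏ i, μ i ^ d i = ∏ i, μ i ^ e i →
      ∑ i, w i * (d i : ℤ) = ∑ i, w i * (e i : ℤ)) : Stable w I := by
  classical
  intro t ht x hx F hF
  have hpow : ∀ k : ℕ, (fun i => μ i ^ k * x i) ∈ cone I := by
    intro k
    induction k with
    | zero => simpa using hx
    | succ k ih =>
      have h1 := hst _ ih
      have h2 : (fun i => μ i * (μ i ^ k * x i)) = fun i => μ i ^ (k + 1) * x i := by
        funext i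
        rw [pow_succ]; ring
      rw [← h2]; exact h1
  rw [eval_mul_eq]
  apply sum_class F.support _ (fun d => ∏ i, μ i ^ d i)
  · intro k
    have h1 := hpow k F hF
    rw [eval_mul_eq] at h1
    rw [← h1]
    refine Finset.sum_congr rfl (fun d _ => ?_)
    congr 1
    rw [← Finset.prod_pow]
    exact Finset.prod_congr rfl (fun i _ => by rw [← pow_mul, ← pow_mul, mul_comm])
  · intro d _ e _ hde
    have h1 := hw d e hde
    have h2 : ∀ d : σ →₀ ℕ, ∏ i, (t ^ w i) ^ d i = t ^ (∑ i, w i * (d i : ℤ)) := by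
      intro d
      rw [← prod_zpow_weight _ t ht]
      refine Finset.prod_congr rfl (fun i _ => ?_)
      rw [zpow_mul, zpow_natCast]
    rw [h2, h2, h1]

/-- Existence of a torus in the closure of the group generated by a diagonal matrix. -/
theorem exists_weights [DecidableEq σ] (μ : σ → K) (hμ : ∀ i, μ i ≠ 0) (i j : σ)
    (hij : ∀ m : ℕ, 0 < m → μ i ^ m ≠ μ j ^ m) :
    ∃ w : σ → ℤ, w i ≠ w j ∧ ∀ d e : σ →₀ ℕ, ∏ k, μ k ^ d k = ∏ k, μ k ^ e k →
      ∑ k, w k * (d k : ℤ) = ∑ k, w k * (e k : ℤ) := by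
  classical
  set S : Set (σ → ℚ) := {v | ∃ d e : σ → ℕ, ∏ k, μ k ^ d k = ∏ k, μ k ^ e k ∧
    v = fun k => (d k : ℚ) - e k} with hS
  set M := Submodule.span ℚ S with hM
  have key : ∀ v ∈ M, ∃ N : ℕ, 0 < N ∧ ∃ d e : σ → ℕ, ∏ k, μ k ^ d k = ∏ k, μ k ^ e k ∧
      (fun k => (N : ℚ) * v k) = fun k => (d k : ℚ) - e k := by
    intro v hv
    refine Submodule.span_induction ?_ ?_ ?_ ?_ hv
    · rintro v ⟨d, e, hde, rfl⟩
      exact ⟨1, one_pos, d, e, hde, by funext k; simp⟩
    · exact ⟨1, one_pos, 0, 0, rfl, by funext k; simp⟩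
    · rintro v v' _ _ ⟨N, hN, d, e, hde, hv⟩ ⟨N', hN', d', e', hde', hv'⟩
      refine ⟨N * N', Nat.mul_pos hN hN', fun k => N' * d k + N * d' k,
        fun k => N' * e k + N * e' k, ?_, ?_⟩
      · have h1 : ∀ d d' : σ → ℕ, ∏ k, μ k ^ (N' * d k + N * d' k) =
            (∏ k, μ k ^ d k) ^ N' * (∏ k, μ k ^ d' k) ^ N := by
          intro d d'
          rw [← Finset.prod_pow, ← Finset.prod_pow, ← Finset.prod_mul_distrib]
          refine Finset.prod_congr rfl (fun k _ => ?_)
          rw [← pow_mul, ← pow_mul, ← pow_add]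
          congr 1
          ring
        rw [h1, h1, hde, hde']
      · funext k
        have h1 := congrFun hv k
        have h2 := congrFun hv' k
        push_cast
        simp only [Pi.add_apply]
        linear_combination (N' : ℚ) * h1 + (N : ℚ) * h2
    · rintro q v _ ⟨N, hN, d, e, hde, hv⟩
      rcases le_or_gt 0 q.num with hq | hq
      · obtain ⟨a, ha⟩ := Int.eq_ofNat_of_zero_le hq
        refine ⟨N * q.den, Nat.mul_pos hN q.den_pos, fun k => a * d k, fun k => a * e k, ?_, ?_⟩
        · have h1 : ∀ d : σ → ℕ, ∏ k, μ k ^ (a * d k) = (∏ k, μ k ^ d k) ^ a := by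
            intro d
            rw [← Finset.prod_pow]
            exact Finset.prod_congr rfl (fun k _ => by rw [← pow_mul, mul_comm])
          rw [h1, h1, hde]
        · funext k
          have h1 := congrFun hv k
          have h2 := Rat.mul_den_eq_num q
          rw [ha] at h2
          push_cast at h2 ⊢
          simp only [Pi.smul_apply, smul_eq_mul]
          linear_combination (a : ℚ) * h1 + (N : ℚ) * v k * h2
      · obtain ⟨a, ha⟩ := Int.eq_ofNat_of_zero_le (a := -q.num) (by omega)
        refine ⟨N * q.den, Nat.mul_pos hN q.den_pos, fun k => a * e k, fun k => a * d k, ?_, ?_⟩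
        · have h1 : ∀ d : σ → ℕ, ∏ k, μ k ^ (a * d k) = (∏ k, μ k ^ d k) ^ a := by
            intro d
            rw [← Finset.prod_pow]
            exact Finset.prod_congr rfl (fun k _ => by rw [← pow_mul, mul_comm])
          rw [h1, h1, hde]
        · funext k
          have h1 := congrFun hv k
          have h2 := Rat.mul_den_eq_num q
          have h3 : q.num = -(a : ℤ) := by omega
          rw [h3] at h2
          push_cast at h2 ⊢
          simp only [Pi.smul_apply, smul_eq_mul]
          linear_combination -(a : ℚ) * h1 + (N : ℚ) * v k * h2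
  set u : σ → ℚ := Pi.single i 1 - Pi.single j 1 with hu
  have hne : i ≠ j := fun h => hij 1 one_pos (by rw [h])
  have huM : u ∉ M := by
    intro hmem
    obtain ⟨N, hN, d, e, hde, hv⟩ := key u hmem
    have hNat : ∀ k, d k + (if k = j then N else 0) = e k + (if k = i then N else 0) := by
      intro k
      have h1 := congrFun hv k
      simp only [hu, Pi.sub_apply, Pi.single_apply] at h1
      have h2 : ((d k + (if k = j then N else 0) : ℕ) : ℚ) =
          ((e k + (if k = i then N else 0) : ℕ) : ℚ) := by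
        push_cast
        by_cases hki : k = i
        · have hkj : k ≠ j := by rw [hki]; exact hne
          rw [if_pos hki, if_neg hkj] at h1
          rw [if_pos hki, if_neg hkj]
          linear_combination -h1
        · by_cases hkj : k = j
          · rw [if_neg hki, if_pos hkj] at h1
            rw [if_neg hki, if_pos hkj]
            linear_combination -h1
          · rw [if_neg hki, if_neg hkj] at h1
            rw [if_neg hki, if_neg hkj]
            linear_combination -h1
      exact_mod_cast h2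
    have hprod : ∀ (d : σ → ℕ) (l : σ), ∏ k, μ k ^ (d k + (if k = l then N else 0)) =
        (∏ k, μ k ^ d k) * μ l ^ N := by
      intro d l
      simp only [pow_add, Finset.prod_mul_distrib]
      congr 1
      rw [Finset.prod_eq_single l]
      · rw [if_pos rfl]
      · intro k _ hk
        rw [if_neg hk, pow_zero]
      · intro h; exact absurd (Finset.mem_univ _) h
    have h3 := hprod d j
    rw [Finset.prod_congr rfl (fun k _ => by rw [hNat k]), hprod e i, hde] at h3
    have h4 : (∏ k, μ k ^ e k) ≠ 0 :=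
      Finset.prod_ne_zero_iff.2 (fun k _ => pow_ne_zero _ (hμ k))
    exact hij N hN (mul_left_cancel₀ h4 h3)
  obtain ⟨f, hfu, hfM⟩ := Submodule.exists_le_ker_of_notMem huM
  -- integral weights
  set D0 : ℕ := ∏ l, (f (Pi.single l 1)).den with hD0
  have hD0pos : 0 < D0 := Finset.prod_pos (fun l _ => (f (Pi.single l 1)).den_pos)
  let w : σ → ℤ := fun k =>
    (f (Pi.single k 1)).num * ((∏ l ∈ Finset.univ.erase k, (f (Pi.single l 1)).den : ℕ) : ℤ)
  have hwk : ∀ k, (w k : ℚ) = D0 * f (Pi.single k 1) := by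
    intro k
    have h1 := Rat.mul_den_eq_num (f (Pi.single k 1))
    have h2 : D0 = (f (Pi.single k 1)).den *
        ∏ l ∈ Finset.univ.erase k, (f (Pi.single l 1)).den :=
      (Finset.mul_prod_erase _ _ (Finset.mem_univ k)).symm
    rw [h2]
    simp only [w]
    push_cast
    rw [← h1]
    ring
  have hfv : ∀ v : σ → ℚ, f v = ∑ k, v k * f (Pi.single k 1) := by
    intro v
    have h1 : v = ∑ k, v k • (Pi.single k 1 : σ → ℚ) := by
      funext m
      simp [Finset.sum_apply, Pi.single_apply]
    conv_lhs => rw [h1]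
    rw [map_sum]
    exact Finset.sum_congr rfl (fun k _ => by rw [map_smul, smul_eq_mul])
  refine ⟨w, ?_, ?_⟩
  · intro h
    apply hfu
    have h1 : (w i : ℚ) = w j := by rw [h]
    rw [hwk, hwk] at h1
    have h2 : (D0 : ℚ) ≠ 0 := by exact_mod_cast hD0pos.ne'
    have h3 := mul_left_cancel₀ h2 h1
    rw [hu, map_sub, h3, sub_self]
  · intro d e hde
    have h1 : (fun k => (d k : ℚ) - e k) ∈ M := Submodule.subset_span ⟨d, e, hde, rfl⟩
    have h2 : f (fun k => (d k : ℚ) - e k) = 0 := hfM h1
    rw [hfv] at h2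
    have h3 : (∑ k, (w k : ℚ) * (d k : ℚ)) - ∑ k, (w k : ℚ) * (e k : ℚ) = 0 := by
      rw [← Finset.sum_sub_distrib]
      have h4 : ∀ k, (w k : ℚ) * (d k : ℚ) - (w k : ℚ) * (e k : ℚ) =
          D0 * (((d k : ℚ) - e k) * f (Pi.single k 1)) := by
        intro k
        rw [hwk]; ring
      rw [Finset.sum_congr rfl (fun k _ => h4 k), ← Finset.mul_sum, h2, mul_zero]
    have h5 : ((∑ k, w k * (d k : ℤ) : ℤ) : ℚ) = ((∑ k, w k * (e k : ℤ) : ℤ) : ℚ) := by
      push_cast
      linear_combination h3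
    exact_mod_cast h5

/-- A diagonal automorphism of infinite order on the variety gives a nontrivial torus. -/
theorem exists_torus [DecidableEq σ] [IsAlgClosed K] (I : Ideal (MvPolynomial σ K))
    (hI : I.IsPrime)
    (μ : σ → K) (hμ : ∀ i, μ i ≠ 0) (hst : ∀ x ∈ cone I, (fun i => μ i * x i) ∈ cone I)
    (hinf : ∀ m : ℕ, 0 < m → ∃ x ∈ cone I, ∀ c : K, (fun i => μ i ^ m * x i) ≠ c • x) :
    ∃ w : σ → ℤ, Stable w I ∧ ∃ x ∈ cone I, ∃ i j, x i ≠ 0 ∧ x j ≠ 0 ∧ w i ≠ w j := by
  classical
  obtain ⟨i, j, hi, hj, hij⟩ : ∃ i j, (X i : MvPolynomial σ K) ∉ I ∧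
      (X j : MvPolynomial σ K) ∉ I ∧ ∀ m : ℕ, 0 < m → μ i ^ m ≠ μ j ^ m := by
    by_contra hcon
    push Not at hcon
    have hex : ∀ i j, ∃ m : ℕ, 0 < m ∧ ((X i : MvPolynomial σ K) ∉ I →
        (X j : MvPolynomial σ K) ∉ I → μ i ^ m = μ j ^ m) := by
      intro i j
      by_cases hi : (X i : MvPolynomial σ K) ∈ I
      · exact ⟨1, one_pos, fun h => absurd hi h⟩
      · by_cases hj : (X j : MvPolynomial σ K) ∈ I
        · exact ⟨1, one_pos, fun _ h => absurd hj h⟩
        · obtain ⟨m, hm, hm2⟩ := hcon i j hi hj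
          exact ⟨m, hm, fun _ _ => hm2⟩
    choose m hm hm2 using hex
    obtain ⟨x, hx, hxc⟩ := hinf (∏ p : σ × σ, m p.1 p.2) (Finset.prod_pos (fun p _ => hm _ _))
    by_cases hall : ∃ i0, x i0 ≠ 0
    · obtain ⟨i0, hi0⟩ := hall
      have hnot : ∀ k, x k ≠ 0 → (X k : MvPolynomial σ K) ∉ I := by
        intro k hk hmem
        have := hx _ hmem
        rw [eval_X] at this
        exact hk this
      apply hxc (μ i0 ^ (∏ p : σ × σ, m p.1 p.2))
      funext k
      rw [Pi.smul_apply, smul_eq_mul]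
      by_cases hk : x k = 0
      · rw [hk, mul_zero, mul_zero]
      · congr 1
        obtain ⟨q, hq⟩ : m k i0 ∣ ∏ p : σ × σ, m p.1 p.2 :=
          Finset.dvd_prod_of_mem (fun p : σ × σ => m p.1 p.2) (Finset.mem_univ (k, i0))
        rw [hq, pow_mul, pow_mul, hm2 k i0 (hnot k hk) (hnot i0 hi0)]
    · push Not at hall
      apply hxc 0
      funext k
      rw [hall k, mul_zero, zero_smul, Pi.zero_apply]
  obtain ⟨w, hw1, hw2⟩ := exists_weights μ hμ i j hij
  refine ⟨w, stable_of_diag I μ hst w hw2, ?_⟩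
  have hprod : (X i * X j : MvPolynomial σ K) ∉ I := by
    intro h
    rcases hI.mem_or_mem h with h | h
    · exact hi h
    · exact hj h
  obtain ⟨x, hx, hx2⟩ : ∃ x ∈ cone I, eval x (X i * X j : MvPolynomial σ K) ≠ 0 := by
    by_contra hcon
    push Not at hcon
    exact hprod (mem_of_vanish I hI _ hcon)
  rw [map_mul, eval_X, eval_X] at hx2
  exact ⟨x, hx, i, j, left_ne_zero_of_mul hx2, right_ne_zero_of_mul hx2, hw1⟩

end Pool.Agent.H929R2.Hart
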