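import Pool.Agent.H929R2.Hart.V4
import Pool.Agent.H929R2.Hart.W18

set_option autoImplicit false
set_option maxHeartbeats 400000

namespace Pool.Agent.H929R2.Hart

open MvPolynomial

variable {σ : Type} [Fintype σ] [DecidableEq σ] {K : Type} [Field K]

/-- the linear span of the variety has codimension at least `r - 1` -/
theorem span_gm [IsAlgClosed K] [CharZero K] (r : ℕ)
    (hσ : 17 * r ≤ Fintype.card σ) (I : Ideal (MvPolynomial σ K))
    (hI : I.IsPrime) (hom : ∀ F ∈ I, ∀ d, homogeneousComponent d F ∈ I)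
    (hne : ∃ x ∈ cone I, x ≠ 0)
    (hr : ∀ x ∈ cone I, x ≠ 0 → Module.finrank K (conormal I x) = r)
    (w : σ → ℤ) (hst : Stable w I)
    (hnt : ∃ x ∈ cone I, ∃ i j, x i ≠ 0 ∧ x j ≠ 0 ∧ w i ≠ w j) :
    r ≤ Module.finrank K (linsub I) + 1 :=
  main_gm r I hI hom hr hne w hst hnt (fun τ _ _ w' J r' D hsrc hcard hle =>
      src_le_one_linear hsrc (by omega))

theorem main_diag' [IsAlgClosed K] [CharZero K] (r : ℕ)
    (hσ : 17 * r ≤ Fintype.card σ) (I : Ideal (MvPolynomial σ K))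
    (hI : I.IsPrime) (hom : ∀ F ∈ I, ∀ d, homogeneousComponent d F ∈ I)
    (hne : ∃ x ∈ cone I, x ≠ 0)
    (hr : ∀ x ∈ cone I, x ≠ 0 → Module.finrank K (conormal I x) = r)
    (μ : σ → K) (hμ : ∀ i, μ i ≠ 0) (hst : ∀ x ∈ cone I, (fun i => μ i * x i) ∈ cone I)
    (hinf : ∀ m : ℕ, 0 < m → ∃ x ∈ cone I, ∀ c : K, (fun i => μ i ^ m * x i) ≠ c • x) :
    r ≤ Module.finrank K (linsub I) + 1 := by
  obtain ⟨w, hw, hnt⟩ := exists_torus I hI μ hμ hst hinf
  exact span_gm r hσ I hI hom hne hr w hw hnt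

end Pool.Agent.H929R2.Hart
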