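import Pool.Agent.H929R2.Hart.U17
import Pool.Agent.H929R2.Hart.V5

set_option autoImplicit false
set_option maxHeartbeats 400000

namespace Pool.Agent.H929R2.Hart

/-! ### Exponential polynomials -/

section ExpPoly

variable {K : Type} [Field K] [CharZero K]

lemma poly_zero_of_nat (p : Polynomial K) (h : ∀ k : ℕ, p.eval (k : K) = 0) : p = 0 := by
  apply Polynomial.eq_zero_of_infinite_isRoot
  apply Set.Infinite.mono (s := Set.range (fun k : ℕ => (k : K)))
  · rintro _ ⟨k, rfl⟩
    exact h k
  · exact Set.infinite_range_of_injective Nat.cast_injective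

/-- Independence of exponential polynomials. -/
theorem exp_poly (B : Finset K) (hB : ∀ β ∈ B, β ≠ 0) (Q : K → Polynomial K)
    (h : ∀ k : ℕ, ∑ β ∈ B, (Q β).eval (k : K) * β ^ k = 0) : ∀ β ∈ B, Q β = 0 := by
  classical
  induction B using Finset.induction_on generalizing Q with
  | empty => intro β hβ; exact absurd hβ (Finset.notMem_empty _)
  | insert β0 B hβ0 ih =>
    have hB' : ∀ β ∈ B, β ≠ 0 := fun β hβ => hB β (Finset.mem_insert_of_mem hβ)
    have hβ00 : β0 ≠ 0 := hB β0 (Finset.mem_insert_self _ _)
    have inner : ∀ (n : ℕ) (Q : K → Polynomial K), (Q β0 = 0 ∨ (Q β0).natDegree < n) →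
        (∀ k : ℕ, ∑ β ∈ insert β0 B, (Q β).eval (k : K) * β ^ k = 0) →
        ∀ β ∈ insert β0 B, Q β = 0 := by
      intro n
      induction n with
      | zero =>
        intro Q hn hQ
        have h0 : Q β0 = 0 := hn.resolve_right (by omega)
        have h1 := ih hB' Q (fun k => by
          have h2 := hQ k
          rw [Finset.sum_insert hβ0, h0, Polynomial.eval_zero, zero_mul, zero_add] at h2
          exact h2)
        intro β hβ
        rcases Finset.mem_insert.1 hβ with rfl | hβ
        · exact h0
        · exact h1 β hβ
      | succ n ihn =>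
        intro Q hn hQ
        by_cases h0 : Q β0 = 0
        · have h1 := ih hB' Q (fun k => by
            have h2 := hQ k
            rw [Finset.sum_insert hβ0, h0, Polynomial.eval_zero, zero_mul, zero_add] at h2
            exact h2)
          intro β hβ
          rcases Finset.mem_insert.1 hβ with rfl | hβ
          · exact h0
          · exact h1 β hβ
        · set Q' : K → Polynomial K := fun β =>
            Polynomial.C β * Polynomial.taylor 1 (Q β) - Polynomial.C β0 * Q β with hQ'
          have h1 := ihn Q' (by
              by_cases h2 : Q' β0 = 0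
              · exact Or.inl h2
              · right
                have h3 : Q' β0 = Polynomial.C β0 * (Polynomial.taylor 1 (Q β0) - Q β0) := by
                  simp only [hQ']; ring
                have h4 : (Polynomial.taylor 1 (Q β0) - Q β0).degree < (Q β0).degree := by
                  have h5 := Polynomial.degree_sub_lt (p := Polynomial.taylor 1 (Q β0)) (q := Q β0)
                    (Polynomial.degree_taylor _ _)
                    (by rw [Ne, Polynomial.taylor_eq_zero]; exact h0)
                    (by
                      rw [Polynomial.leadingCoeff, Polynomial.leadingCoeff,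
                        Polynomial.natDegree_taylor, Polynomial.coeff_taylor_natDegree]
                      rfl)
                  rwa [Polynomial.degree_taylor] at h5
                have h6 : Polynomial.taylor 1 (Q β0) - Q β0 ≠ 0 := by
                  intro h7
                  apply h2
                  rw [h3, h7, mul_zero]
                rw [h3, Polynomial.natDegree_C_mul hβ00]
                have h8 := Polynomial.natDegree_lt_natDegree h6 h4
                have h9 := hn.resolve_left h0
                omega) (fun k => by
              have h2 := hQ k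
              have h3 := hQ (k + 1)
              have h4 : ∑ β ∈ insert β0 B, (Q' β).eval (k : K) * β ^ k =
                  ∑ β ∈ insert β0 B, (Q β).eval ((k + 1 : ℕ) : K) * β ^ (k + 1) -
                  β0 * ∑ β ∈ insert β0 B, (Q β).eval (k : K) * β ^ k := by
                rw [Finset.mul_sum, ← Finset.sum_sub_distrib]
                refine Finset.sum_congr rfl (fun β _ => ?_)
                simp only [hQ', Polynomial.eval_sub, Polynomial.eval_mul, Polynomial.eval_C,
                  Polynomial.taylor_eval]
                push_cast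
                ring
              rw [h4, h2, h3, mul_zero, sub_zero])
          have h2 : ∀ β ∈ B, Q β = 0 := by
            intro β hβ
            by_contra hne
            have h3 := h1 β (Finset.mem_insert_of_mem hβ)
            simp only [hQ', sub_eq_zero] at h3
            have h4 := congrArg Polynomial.leadingCoeff h3
            rw [Polynomial.leadingCoeff_mul, Polynomial.leadingCoeff_mul,
              Polynomial.leadingCoeff_C, Polynomial.leadingCoeff_C] at h4
            have h5 : (Polynomial.taylor 1 (Q β)).leadingCoeff = (Q β).leadingCoeff := by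
              rw [Polynomial.leadingCoeff, Polynomial.natDegree_taylor,
                Polynomial.coeff_taylor_natDegree]
            rw [h5] at h4
            have h6 := mul_right_cancel₀ (Polynomial.leadingCoeff_ne_zero.2 hne) h4
            rw [h6] at hβ
            exact hβ0 hβ
          exfalso
          apply h0
          apply poly_zero_of_nat
          intro k
          have h3 := hQ k
          rw [Finset.sum_insert hβ0, Finset.sum_eq_zero (fun β hβ => by
            rw [h2 β hβ, Polynomial.eval_zero, zero_mul]), add_zero] at h3
          exact (mul_eq_zero.1 h3).resolve_right (pow_ne_zero _ hβ00)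
    exact inner ((Q β0).natDegree + 1) Q (Or.inr (Nat.lt_succ_self _)) h

theorem exp_poly' {ι : Type} (S : Finset ι) (A : ι → Polynomial K) (β : ι → K)
    (hβ : ∀ s ∈ S, β s ≠ 0) (h : ∀ k : ℕ, ∑ s ∈ S, (A s).eval (k : K) * β s ^ k = 0)
    (k : ℕ) (t : K) : ∑ s ∈ S, (A s).eval t * β s ^ k = 0 := by
  classical
  set B := S.image β
  set Q : K → Polynomial K := fun b => ∑ s ∈ S.filter (fun s => β s = b), A s with hQ
  have key : ∀ (t : K) (k : ℕ), ∑ s ∈ S, (A s).eval t * β s ^ k =
      ∑ b ∈ B, (Q b).eval t * b ^ k := by
    intro t k
    rw [← Finset.sum_fiberwise_of_maps_to (s := S) (t := B) (g := β)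
      (fun s hs => Finset.mem_image_of_mem β hs)]
    refine Finset.sum_congr rfl (fun b _ => ?_)
    rw [hQ, Polynomial.eval_finsetSum, Finset.sum_mul]
    refine Finset.sum_congr rfl (fun s hs => ?_)
    rw [(Finset.mem_filter.1 hs).2]
  have h0 := exp_poly B (fun b hb => by
    obtain ⟨s, hs, rfl⟩ := Finset.mem_image.1 hb
    exact hβ s hs) Q (fun k => by rw [← key]; exact h k)
  rw [key]
  exact Finset.sum_eq_zero (fun b hb => by rw [h0 b hb, Polynomial.eval_zero, zero_mul])

end ExpPoly

/-! ### The logarithm of a unipotent matrix -/

section Log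

variable {K : Type} [Field K] [CharZero K]

/-- the truncated exponential series -/
noncomputable def eP (K : Type) [Field K] (m : ℕ) : Polynomial (Polynomial K) :=
  ∑ j ∈ Finset.range (m + 1), Polynomial.C (Polynomial.C ((j.factorial : K)⁻¹)) * Polynomial.X ^ j

lemma eP_eval (m : ℕ) (p : Polynomial K) : (eP K m).eval p =
    ∑ j ∈ Finset.range (m + 1), Polynomial.C ((j.factorial : K)⁻¹) * p ^ j := by
  rw [eP, Polynomial.eval_finsetSum]
  refine Finset.sum_congr rfl (fun j _ => ?_)
  rw [Polynomial.eval_mul, Polynomial.eval_C, Polynomial.eval_pow, Polynomial.eval_X]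

lemma exists_logP (m : ℕ) (hm : 1 ≤ m) (k : ℕ) : ∃ p : Polynomial K, Polynomial.X ∣ p ∧
    Polynomial.X ^ (k + 1) ∣ (eP K m).eval p - (1 + Polynomial.X) := by
  induction k with
  | zero =>
    refine ⟨0, dvd_zero _, ?_⟩
    have h1 : (eP K m).eval 0 = 1 := by
      rw [eP_eval, Finset.sum_eq_single 0]
      · simp
      · intro j _ hj
        rw [zero_pow hj, mul_zero]
      · intro h; exact absurd (Finset.mem_range.2 (by omega)) h
    rw [h1, zero_add, pow_one]
    exact ⟨-1, by ring⟩
  | succ k ih =>
    obtain ⟨p, hp, q, hq⟩ := ih
    set h := -(Polynomial.C (q.coeff 0) * Polynomial.X ^ (k + 1)) with hh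
    obtain ⟨w, hw⟩ := (eP K m).binomExpansion p h
    have hXh : (Polynomial.X : Polynomial K) ^ (k + 1) ∣ h := by
      rw [hh]; exact (dvd_neg).2 (Dvd.intro_left _ rfl)
    have hd : (Polynomial.X : Polynomial K) ∣ (eP K m).derivative.eval p - 1 := by
      have h1 := Polynomial.sub_dvd_eval_sub p 0 (eP K m).derivative
      rw [sub_zero] at h1
      have h2 : (eP K m).derivative.eval 0 = 1 := by
        rw [← Polynomial.coeff_zero_eq_eval_zero, Polynomial.coeff_derivative, eP,
          Polynomial.finsetSum_coeff, Finset.sum_eq_single 1]
        · rw [Polynomial.coeff_C_mul, Polynomial.coeff_X_pow, if_pos (by norm_num)]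
          simp
        · intro j _ hj
          rw [Polynomial.coeff_C_mul, Polynomial.coeff_X_pow, if_neg (fun h => hj (by omega)),
            mul_zero]
        · intro h; exact absurd (Finset.mem_range.2 (by omega)) h
      rw [h2] at h1
      exact hp.trans h1
    refine ⟨p + h, dvd_add hp (dvd_trans (dvd_pow_self _ (by omega)) hXh), ?_⟩
    have h3 : (eP K m).eval (p + h) - (1 + Polynomial.X) =
        Polynomial.X ^ (k + 1) * (q - Polynomial.C (q.coeff 0)) +
          ((eP K m).derivative.eval p - 1) * h + w * h ^ 2 := by
      have h4 : (eP K m).eval p = Polynomial.X ^ (k + 1) * q + (1 + Polynomial.X) := by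
        rw [← hq]; ring
      rw [hw, h4, hh]
      ring
    rw [h3]
    refine dvd_add (dvd_add ?_ ?_) ?_
    · rw [pow_succ]
      apply mul_dvd_mul_left
      rw [Polynomial.X_dvd_iff, Polynomial.coeff_sub, Polynomial.coeff_C_zero, sub_self]
    · rw [pow_succ', ]
      exact mul_dvd_mul hd hXh
    · apply Dvd.dvd.mul_left
      have h5 : (Polynomial.X : Polynomial K) ^ (k + 1 + 1) ∣ (Polynomial.X ^ (k + 1)) ^ 2 := by
        rw [← pow_mul]
        exact pow_dvd_pow _ (by omega)
      exact h5.trans (pow_dvd_pow_of_dvd hXh 2)

variable {σ : Type} [Fintype σ] [DecidableEq σ]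

lemma commute_aeval (s n : Matrix σ σ K) (hs : Commute s n) (p : Polynomial K) :
    Commute s (Polynomial.aeval n p) := by
  induction p using Polynomial.induction_on' with
  | add a b ha hb => rw [map_add]; exact ha.add_right hb
  | monomial k c =>
    rw [Polynomial.aeval_monomial, Algebra.algebraMap_eq_smul_one, smul_mul_assoc, one_mul]
    exact (hs.pow_right k).smul_right c

theorem exists_log (n : Matrix σ σ K) (m : ℕ) (hn : n ^ (m + 1) = 0) : ∃ N : Matrix σ σ K,
    N ^ (m + 1) = 0 ∧ (∀ s, Commute s n → Commute s N) ∧ exK N m 1 = 1 + n := by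
  rcases Nat.eq_zero_or_pos m with hm | hm
  · subst hm
    rw [zero_add, pow_one] at hn
    refine ⟨0, by simp, fun s _ => Commute.zero_right s, ?_⟩
    rw [hn, exK]
    simp
  obtain ⟨p, ⟨p', hp'⟩, q, hq⟩ := exists_logP (K := K) m hm m
  refine ⟨Polynomial.aeval n p, ?_, ?_, ?_⟩
  · rw [← map_pow, hp', mul_pow, map_mul, map_pow, Polynomial.aeval_X, hn, zero_mul]
  · intro s hs
    exact commute_aeval s n hs p
  · have h1 : exK (Polynomial.aeval n p) m 1 = Polynomial.aeval n ((eP K m).eval p) := by
      rw [eP_eval, map_sum, exK]
      refine Finset.sum_congr rfl (fun j _ => ?_)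
      rw [map_mul, Polynomial.aeval_C, map_pow, one_pow, one_mul, Algebra.smul_def]
    have h2 : (eP K m).eval p = Polynomial.X ^ (m + 1) * q + (1 + Polynomial.X) := by
      rw [← hq]; ring
    rw [h1, h2, map_add, map_mul, map_pow, Polynomial.aeval_X, hn, zero_mul, zero_add, map_add,
      map_one, Polynomial.aeval_X]

end Log

end Pool.Agent.H929R2.Hart
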