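import Pool.Agent.H929R2.Hart.U18

set_option autoImplicit false
set_option maxHeartbeats 400000

namespace Pool.Agent.H929R2.Hart

open MvPolynomial

variable {σ : Type} [Fintype σ] [DecidableEq σ] {K : Type} [Field K]

lemma exK_commute (D N : Matrix σ σ K) (m : ℕ) (t : K) (h : Commute D N) :
    Commute D (exK N m t) := by
  rw [exK]
  exact Commute.sum_right _ _ _ (fun j _ => (h.pow_right j).smul_right _)

lemma exK_pow [CharZero K] (N : Matrix σ σ K) (m : ℕ) (hN : N ^ (m + 1) = 0) (k : ℕ) :
    (exK N m 1) ^ k = exK N m (k : K) := by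
  induction k with
  | zero => rw [pow_zero, Nat.cast_zero, exK_zero]
  | succ k ih =>
    rw [pow_succ, ih, Nat.cast_succ, exK_add N m hN]

lemma diag_pow_mulVec (μ : σ → K) (k : ℕ) (y : σ → K) :
    ((Matrix.diagonal μ) ^ k).mulVec y = fun i => μ i ^ k * y i := by
  rw [Matrix.diagonal_pow]
  funext i
  rw [Matrix.mulVec_diagonal]
  rfl

/-- The closure of the group generated by an automorphism in Jordan form. -/
theorem jordan_closure [CharZero K] (I : Ideal (MvPolynomial σ K)) (μ : σ → K)
    (hμ : ∀ i, μ i ≠ 0) (N : Matrix σ σ K) (m : ℕ) (hN : N ^ (m + 1) = 0)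
    (hcomm : Commute (Matrix.diagonal μ) N)
    (hst : ∀ x ∈ cone I, (Matrix.diagonal μ * exK N m 1).mulVec x ∈ cone I) (x : σ → K)
    (hx : x ∈ cone I) (k : ℕ) (t : K) :
    ((Matrix.diagonal μ) ^ k * exK N m t).mulVec x ∈ cone I := by
  classical
  have hpow : ∀ k : ℕ, ((Matrix.diagonal μ) ^ k * exK N m (k : K)).mulVec x ∈ cone I := by
    intro k
    have h1 : ((Matrix.diagonal μ * exK N m 1) ^ k).mulVec x ∈ cone I := by
      induction k with
      | zero => rw [pow_zero, Matrix.one_mulVec]; exact hx
      | succ k ih =>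
        rw [pow_succ', ← Matrix.mulVec_mulVec]
        exact hst _ ih
    rw [(exK_commute _ N m 1 hcomm).mul_pow, exK_pow N m hN] at h1
    exact h1
  intro F hF
  have hev : ∀ (k : ℕ) (t : K), eval (((Matrix.diagonal μ) ^ k * exK N m t).mulVec x) F =
      ∑ d ∈ F.support, (Polynomial.C (coeff d F) * ∏ i, (orb N m x i) ^ d i).eval t *
        (∏ i, μ i ^ d i) ^ k := by
    intro k t
    rw [← Matrix.mulVec_mulVec, diag_pow_mulVec, eval_mul_eq]
    refine Finset.sum_congr rfl (fun d _ => ?_)
    rw [Polynomial.eval_mul, Polynomial.eval_C, Polynomial.eval_prod]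
    congr 1
    · congr 1
      refine Finset.prod_congr rfl (fun i _ => ?_)
      rw [Polynomial.eval_pow]
      congr 1
      exact (congrFun (orb_eval N m x t) i).symm
    · rw [← Finset.prod_pow]
      exact Finset.prod_congr rfl (fun i _ => by rw [← pow_mul, ← pow_mul, mul_comm])
  rw [hev]
  apply exp_poly' F.support _ _ (fun d _ => Finset.prod_ne_zero_iff.2
    (fun i _ => pow_ne_zero _ (hμ i)))
  intro k
  rw [← hev]
  exact hpow k F hF

theorem main_jordan [IsAlgClosed K] [CharZero K] (r : ℕ) (I : Ideal (MvPolynomial σ K))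
    (hI : I.IsPrime) (hom : ∀ F ∈ I, ∀ d, homogeneousComponent d F ∈ I)
    (hne : ∃ x ∈ cone I, x ≠ 0)
    (hr : ∀ x ∈ cone I, x ≠ 0 → Module.finrank K (conormal I x) = r)
    (μ : σ → K) (hμ : ∀ i, μ i ≠ 0) (N : Matrix σ σ K) (m : ℕ) (hN : N ^ (m + 1) = 0)
    (hcomm : Commute (Matrix.diagonal μ) N)
    (hst : ∀ x ∈ cone I, (Matrix.diagonal μ * exK N m 1).mulVec x ∈ cone I)
    (hinf : ∀ k : ℕ, 0 < k → ∃ x ∈ cone I, ∀ c : K,
      ((Matrix.diagonal μ * exK N m 1) ^ k).mulVec x ≠ c • x)
    (hcard : 17 * r ≤ Fintype.card σ) :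
    r ≤ Module.finrank K (linsub I) + 1 := by
  by_cases hr1 : r ≤ 1
  · omega
  push Not at hr1
  have hcl := jordan_closure I μ hμ N m hN hcomm hst
  by_cases hnt : ∃ x ∈ cone I, N.mulVec x ≠ 0
  · have hm : 1 ≤ m := by
      rcases Nat.eq_zero_or_pos m with h0 | h0
      · exfalso
        obtain ⟨x, hx, hNx⟩ := hnt
        rw [h0, zero_add, pow_one] at hN
        rw [hN, Matrix.zero_mulVec] at hNx
        exact hNx rfl
      · exact h0
    apply span_ga r I hI hom hr N m hN hm _ hnt (by omega)
    intro x hx t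
    have := hcl x hx 0 t
    rwa [pow_zero, one_mul] at this
  · push Not at hnt
    have hex : ∀ x ∈ cone I, ∀ t, (exK N m t).mulVec x = x := by
      intro x hx t
      rw [exK_mulVec, Finset.sum_eq_single 0]
      · simp
      · intro j _ hj
        obtain ⟨j', rfl⟩ : ∃ j', j = j' + 1 := ⟨j - 1, by omega⟩
        rw [pow_succ N, ← Matrix.mulVec_mulVec, hnt x hx, Matrix.mulVec_zero, smul_zero]
      · intro h; exact absurd (Finset.mem_range.2 (Nat.succ_pos m)) h
    apply main_diag' r hcard I hI hom hne hr μ hμ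
    · intro x hx
      have h1 := hcl x hx 1 0
      rw [exK_zero, mul_one, diag_pow_mulVec] at h1
      simpa using h1
    · intro k hk
      obtain ⟨x, hx, hc⟩ := hinf k hk
      refine ⟨x, hx, fun c => ?_⟩
      have h1 := hc c
      rw [(exK_commute _ N m 1 hcomm).mul_pow, exK_pow N m hN, ← Matrix.mulVec_mulVec,
        hex x hx, diag_pow_mulVec] at h1
      exact h1

/-! ### Change of coordinates -/

section Coord

variable {I : Ideal (MvPolynomial σ K)}

/-- the ideal in new coordinates -/
noncomputable def chI (I : Ideal (MvPolynomial σ K)) (P' : Matrix σ σ K) :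
    Ideal (MvPolynomial σ K) :=
  Ideal.comap (bind₁ (fun i => ∑ j, C (P' i j) * X j) : MvPolynomial σ K →ₐ[K] MvPolynomial σ K) I

omit [DecidableEq σ] in
lemma mem_chI (P' : Matrix σ σ K) (F : MvPolynomial σ K) : F ∈ chI I P' ↔ comp F P' ∈ I := Iff.rfl

omit [DecidableEq σ] in
lemma comp_homog (F : MvPolynomial σ K) (P' : Matrix σ σ K) (d : ℕ) (hF : F.IsHomogeneous d) :
    (comp F P').IsHomogeneous d := by
  have h1 := hF.aeval (S := K) (fun i => ∑ j, C (P' i j) * X j : σ → MvPolynomial σ K) (n := 1)
    (fun i => lin_homog (P' i))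
  rw [one_mul] at h1
  exact h1

omit [DecidableEq σ] in
lemma comp_add (F G : MvPolynomial σ K) (P' : Matrix σ σ K) :
    comp (F + G) P' = comp F P' + comp G P' := by
  rw [comp, map_add]; rfl

omit [DecidableEq σ] in
lemma comp_hc (F : MvPolynomial σ K) (P' : Matrix σ σ K) (d : ℕ) :
    comp (homogeneousComponent d F) P' = homogeneousComponent d (comp F P') := by
  classical
  conv_rhs => rw [← sum_homogeneousComponent F, comp, map_sum, map_sum]
  have h0 : ∀ i, homogeneousComponent d (bind₁ (fun i => ∑ j, C (P' i j) * X j)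
      (homogeneousComponent i F)) = if i = d then comp (homogeneousComponent d F) P' else 0 := by
    intro i
    have h1 := comp_homog _ P' i (homogeneousComponent_isHomogeneous i F)
    have h2 := homogeneousComponent_of_mem (m := d) h1
    rw [comp] at h2
    rw [h2]
    by_cases h : i = d
    · rw [if_pos h.symm, if_pos h, h]; rfl
    · rw [if_neg (fun h' => h h'.symm), if_neg h]
  rw [Finset.sum_congr rfl (fun i _ => h0 i), Finset.sum_ite_eq']
  split_ifs with h
  · rfl
  · rw [Finset.mem_range] at h
    rw [homogeneousComponent_eq_zero d F (by omega), comp, map_zero]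

omit [DecidableEq σ] in
lemma comp_comp (F : MvPolynomial σ K) [Infinite K] (P P' : Matrix σ σ K) :
    comp (comp F P) P' = comp F (P * P') := by
  apply MvPolynomial.funext
  intro x
  rw [eval_comp, eval_comp, eval_comp, Matrix.mulVec_mulVec]

lemma comp_one [Infinite K] (F : MvPolynomial σ K) : comp F 1 = F := by
  apply MvPolynomial.funext
  intro x
  rw [eval_comp, Matrix.one_mulVec]

variable {P P' : Matrix σ σ K}

lemma mem_cone_chI [Infinite K] (h1 : P * P' = 1) (h2 : P' * P = 1) (x : σ → K) :
    x ∈ cone (chI I P') ↔ P.mulVec x ∈ cone I := by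
  constructor
  · intro hx F hF
    rw [← eval_comp]
    apply hx
    rw [mem_chI, comp_comp, h1, comp_one]
    exact hF
  · intro hx F hF
    have h3 := hx _ ((mem_chI P' F).1 hF)
    rwa [eval_comp, Matrix.mulVec_mulVec, h2, Matrix.one_mulVec] at h3

lemma conormal_chI [Infinite K] (h1 : P * P' = 1) (h2 : P' * P = 1) (x : σ → K) :
    conormal (chI I P') x = (conormal I (P.mulVec x)).map P.transpose.mulVecLin := by
  have hg : ∀ F : MvPolynomial σ K, grad (comp F P) x = P.transpose.mulVec (grad F (P.mulVec x)) :=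
    fun F => gT_comp F P x
  apply le_antisymm
  · rw [conormal, Submodule.span_le]
    rintro _ ⟨F, hF, rfl⟩
    refine ⟨grad (comp F P') (P.mulVec x), grad_mem I _ ((mem_chI P' F).1 hF), ?_⟩
    rw [Matrix.mulVecLin_apply, ← hg, comp_comp, h2, comp_one]
  · rw [Submodule.map_le_iff_le_comap, conormal, Submodule.span_le]
    rintro _ ⟨F, hF, rfl⟩
    show P.transpose.mulVec (grad F (P.mulVec x)) ∈ conormal (chI I P') x
    rw [← hg]
    apply grad_mem
    rw [mem_chI, comp_comp, h1, comp_one]
    exact hF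

lemma finrank_conormal_chI [Infinite K] (h1 : P * P' = 1) (h2 : P' * P = 1) (x : σ → K) :
    Module.finrank K (conormal (chI I P') x) = Module.finrank K (conormal I (P.mulVec x)) := by
  rw [conormal_chI h1 h2]
  apply LinearEquiv.finrank_eq
  refine (Submodule.equivMapOfInjective P.transpose.mulVecLin ?_ _).symm
  intro u v huv
  have h3 := congrArg (P'.transpose.mulVec) huv
  rw [Matrix.mulVecLin_apply, Matrix.mulVecLin_apply, Matrix.mulVec_mulVec, Matrix.mulVec_mulVec,
    ← Matrix.transpose_mul, h1, Matrix.transpose_one, Matrix.one_mulVec, Matrix.one_mulVec] at h3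
  exact h3

lemma finrank_linsub_chI [Infinite K] (h2 : P' * P = 1) :
    Module.finrank K (linsub (chI I P')) ≤ Module.finrank K (linsub I) := by
  have hl : ∀ u : σ → K, comp (lin u) P' = lin (P'.transpose.mulVec u) := by
    intro u
    apply MvPolynomial.funext
    intro x
    rw [eval_comp, eval_lin, eval_lin, dot_transpose]
  let T : linsub (chI I P') →ₗ[K] linsub I := LinearMap.codRestrict _
    (P'.transpose.mulVecLin.comp (linsub (chI I P')).subtype) (fun u => by
      have h3 := (mem_chI P' _).1 u.2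
      rw [hl] at h3
      exact h3)
  apply LinearMap.finrank_le_finrank_of_injective (f := T)
  intro u v huv
  have h3 := congrArg (P.transpose.mulVec) (congrArg Subtype.val huv)
  have h4 : ∀ w : linsub (chI I P'), P.transpose.mulVec (T w : σ → K) = (w : σ → K) := by
    intro w
    show P.transpose.mulVec (P'.transpose.mulVec (w : σ → K)) = _
    rw [Matrix.mulVec_mulVec, ← Matrix.transpose_mul, h2, Matrix.transpose_one,
      Matrix.one_mulVec]
  rw [h4, h4] at h3
  ext1
  exact h3

end Coord

end Pool.Agent.H929R2.Hart
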