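import Pool.Agent.H929R2.Hart.U1

set_option autoImplicit false
set_option maxHeartbeats 400000

namespace Pool.Agent.H929R2.Hart

open MvPolynomial

variable {σ : Type} [Fintype σ] [DecidableEq σ] {K : Type} [Field K]

/-- Newton iteration: correct an arc satisfying `r` equations to order `k0` so that it satisfies
them to any order. -/
theorem newton {r : ℕ} (z : σ → K) (F : Fin r → MvPolynomial σ K) (W : Fin r → (σ → K))
    (hW : ∀ i j, dotB σ K (grad (F i) z) (W j) = if i = j then 1 else 0)
    (c : σ → Polynomial K) (hc : at0 c = z) (k0 : ℕ) (hk0 : 1 ≤ k0)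
    (h : ∀ i, Polynomial.X ^ k0 ∣ eval c (io (F i))) (l : ℕ) :
    ∃ a : Fin r → Polynomial K,
      ∀ i, (Polynomial.X : Polynomial K) ^ (k0 + l) ∣
        eval (c + (Polynomial.X : Polynomial K) ^ k0 • ∑ j, a j • cv (W j)) (io (F i)) := by
  induction l with
  | zero => exact ⟨0, fun i => by simpa using h i⟩
  | succ l ih =>
    obtain ⟨a, ha⟩ := ih
    choose g hg using ha
    let a' : Fin r → Polynomial K := fun j =>
      a j - Polynomial.X ^ l * Polynomial.C ((g j).eval 0)
    refine ⟨a', fun i => ?_⟩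
    set v := c + (Polynomial.X : Polynomial K) ^ k0 • ∑ j, a j • cv (W j) with hv
    have hv0 : at0 v = z := by
      rw [hv, at0_add, hc, at0_smul]
      have : (Polynomial.X ^ k0 : Polynomial K).eval 0 = 0 := by
        rw [Polynomial.eval_pow, Polynomial.eval_X, zero_pow (by omega)]
      rw [this, zero_smul, add_zero]
    have h1 : c + (Polynomial.X : Polynomial K) ^ k0 • ∑ j, a' j • cv (W j) =
        v + (Polynomial.X : Polynomial K) ^ (k0 + l) • (- ∑ j, Polynomial.C ((g j).eval 0) • cv (W j)) := by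
      rw [hv, add_assoc, smul_neg, ← sub_eq_add_neg, pow_add, mul_smul, ← smul_sub]
      congr 2
      rw [Finset.smul_sum, ← Finset.sum_sub_distrib]
      refine Finset.sum_congr rfl (fun j _ => ?_)
      rw [smul_smul, ← sub_smul]
    obtain ⟨R, hR⟩ := taylor1 (io (F i)) v (- ∑ j, Polynomial.C ((g j).eval 0) • cv (W j))
      (Polynomial.X ^ (k0 + l))
    rw [h1, hR, hg i]
    have h2 : Polynomial.X ∣ g i + (gT (io (F i)) v ⬝ᵥ
        (- ∑ j, Polynomial.C ((g j).eval 0) • cv (W j))) := by
      rw [Polynomial.X_dvd_iff, Polynomial.coeff_zero_eq_eval_zero, Polynomial.eval_add, dot_at0,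
        gT_io_at0, hv0]
      have h3 : at0 (- ∑ j, Polynomial.C ((g j).eval 0) • cv (W j)) =
          - ∑ j, (g j).eval 0 • W j := by
        have : at0 (- ∑ j, Polynomial.C ((g j).eval 0) • cv (W j)) =
            - at0 (∑ j, Polynomial.C ((g j).eval 0) • cv (W j)) := by
          funext i; simp [at0]
        rw [this, at0_sum]
        congr 1
        refine Finset.sum_congr rfl (fun j _ => ?_)
        rw [at0_smul, at0_cv, Polynomial.eval_C]
      rw [h3, map_neg, map_sum, Finset.sum_eq_single i]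
      · rw [map_smul, hW, if_pos rfl, smul_eq_mul, mul_one, add_neg_cancel]
      · intro j _ hj
        rw [map_smul, hW, if_neg (fun h => hj h.symm), smul_zero]
      · intro h; exact absurd (Finset.mem_univ _) h
    obtain ⟨q, hq⟩ := h2
    have h3 : Polynomial.X ^ (k0 + l) * g i + Polynomial.X ^ (k0 + l) *
        (gT (io (F i)) v ⬝ᵥ (- ∑ j, Polynomial.C ((g j).eval 0) • cv (W j))) +
        (Polynomial.X ^ (k0 + l)) ^ 2 * R =
        Polynomial.X ^ (k0 + (l + 1)) * (q + Polynomial.X ^ (k0 + l - 1) * R) := by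
      rw [← mul_add, hq]
      obtain ⟨n, hn⟩ : ∃ n, k0 + l = n + 1 := ⟨k0 + l - 1, by omega⟩
      rw [show k0 + (l + 1) = (n + 1) + 1 by omega, hn, Nat.add_sub_cancel]
      ring
    rw [h3]
    exact Dvd.intro _ rfl

/-- arcs in the cone, to any order -/
theorem exists_arc [IsAlgClosed K] [CharZero K] {I : Ideal (MvPolynomial σ K)} {r : ℕ}
    (hI : SCone I r) (z : σ → K) (hz : z ∈ cone I) (hz0 : z ≠ 0)
    (F : Fin r → MvPolynomial σ K) (hF : ∀ i, F i ∈ I)
    (hind : LinearIndependent K (fun i => grad (F i) z)) (W : Fin r → (σ → K))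
    (hW : ∀ i j, dotB σ K (grad (F i) z) (W j) = if i = j then 1 else 0)
    (c : σ → Polynomial K) (hc : at0 c = z) (k0 : ℕ) (hk0 : 1 ≤ k0)
    (h : ∀ i, Polynomial.X ^ k0 ∣ eval c (io (F i))) :
    ∃ a : ℕ → Fin r → Polynomial K, ∀ l, ∀ G ∈ I, (Polynomial.X : Polynomial K) ^ l ∣
        eval (c + (Polynomial.X : Polynomial K) ^ k0 • ∑ j, a l j • cv (W j)) (io G) := by
  choose a ha using newton z F W hW c hc k0 hk0 h
  refine ⟨a, fun l G hG => ?_⟩
  refine approx_of_frame hI z hz hz0 F hF hind _ ?_ (k0 + l) (ha l) l (by omega) G hG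
  rw [at0_add, hc, at0_smul]
  have : (Polynomial.X ^ k0 : Polynomial K).eval 0 = 0 := by
    rw [Polynomial.eval_pow, Polynomial.eval_X, zero_pow (by omega)]
  rw [this, zero_smul, add_zero]

/-- the extension of the ideal to polynomial coefficients -/
noncomputable def It (I : Ideal (MvPolynomial σ K)) : Ideal (MvPolynomial σ (Polynomial K)) :=
  Ideal.map (MvPolynomial.map Polynomial.C) I

omit [Fintype σ] [DecidableEq σ] in
lemma io_mem {I : Ideal (MvPolynomial σ K)} {G : MvPolynomial σ K} (hG : G ∈ I) : io G ∈ It I :=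
  Ideal.mem_map_of_mem _ hG

omit [Fintype σ] [DecidableEq σ] in
/-- decomposition in powers of the parameter -/
lemma exists_decomp (Ψ : MvPolynomial σ (Polynomial K)) :
    ∃ (n : ℕ) (Φ : ℕ → MvPolynomial σ K), (∀ k, n ≤ k → Φ k = 0) ∧
      Ψ = ∑ k ∈ Finset.range n, C (Polynomial.X ^ k) * io (Φ k) := by
  induction Ψ using MvPolynomial.induction_on with
  | C p =>
    refine ⟨p.natDegree + 1, fun k => C (p.coeff k), fun k hk => ?_, ?_⟩
    · show C (p.coeff k) = 0
      rw [Polynomial.coeff_eq_zero_of_natDegree_lt (by omega), map_zero]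
    · conv_lhs => rw [p.as_sum_range_C_mul_X_pow]
      rw [map_sum]
      refine Finset.sum_congr rfl (fun k _ => ?_)
      rw [io, map_C, ← map_mul, mul_comm]
  | add p q hp hq =>
    obtain ⟨n, Φ, h0, hΦ⟩ := hp
    obtain ⟨n', Φ', h0', hΦ'⟩ := hq
    refine ⟨max n n', fun k => Φ k + Φ' k, fun k hk => ?_, ?_⟩
    · show Φ k + Φ' k = 0
      rw [h0 k (le_trans (le_max_left _ _) hk), h0' k (le_trans (le_max_right _ _) hk), add_zero]
    · have e1 : ∑ k ∈ Finset.range n, C (Polynomial.X ^ k) * io (Φ k) =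
          ∑ k ∈ Finset.range (max n n'), C (Polynomial.X ^ k) * io (Φ k) := by
        apply Finset.sum_subset
        · intro k hk; rw [Finset.mem_range] at hk ⊢; exact lt_of_lt_of_le hk (le_max_left _ _)
        · intro k _ hk
          rw [Finset.mem_range, not_lt] at hk
          rw [h0 k hk, io, map_zero, mul_zero]
      have e2 : ∑ k ∈ Finset.range n', C (Polynomial.X ^ k) * io (Φ' k) =
          ∑ k ∈ Finset.range (max n n'), C (Polynomial.X ^ k) * io (Φ' k) := by
        apply Finset.sum_subset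
        · intro k hk; rw [Finset.mem_range] at hk ⊢; exact lt_of_lt_of_le hk (le_max_right _ _)
        · intro k _ hk
          rw [Finset.mem_range, not_lt] at hk
          rw [h0' k hk, io, map_zero, mul_zero]
      rw [hΦ, hΦ', e1, e2, ← Finset.sum_add_distrib]
      refine Finset.sum_congr rfl (fun k _ => ?_)
      rw [io, io, io, map_add, mul_add]
  | mul_X p i hp =>
    obtain ⟨n, Φ, h0, hΦ⟩ := hp
    refine ⟨n, fun k => Φ k * X i, fun k hk => ?_, ?_⟩
    · show Φ k * X i = 0
      rw [h0 k hk, zero_mul]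
    · rw [hΦ, Finset.sum_mul]
      refine Finset.sum_congr rfl (fun k _ => ?_)
      rw [io, io, map_mul, map_X, mul_assoc]

/-- a polynomial family of polynomials vanishing on the cone is in the extended ideal -/
lemma mem_It [IsAlgClosed K] {I : Ideal (MvPolynomial σ K)} (hI : I.IsPrime)
    (Ψ : MvPolynomial σ (Polynomial K)) (h : ∀ x ∈ cone I, eval (cv x) Ψ = 0) : Ψ ∈ It I := by
  obtain ⟨n, Φ, h0, rfl⟩ := exists_decomp Ψ
  apply Ideal.sum_mem
  intro k hk
  apply Ideal.mul_mem_left
  apply io_mem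
  apply mem_of_vanish I hI
  intro x hx
  have h1 := h x hx
  rw [map_sum] at h1
  have h2 : ∑ k ∈ Finset.range n, Polynomial.C (eval x (Φ k)) * Polynomial.X ^ k = 0 := by
    rw [← h1]
    refine Finset.sum_congr rfl (fun k _ => ?_)
    rw [map_mul, eval_C, eval_io_cv, mul_comm]
  have h3 := congrArg (fun p => Polynomial.coeff p k) h2
  simp only [Polynomial.finsetSum_coeff, Polynomial.coeff_C_mul_X_pow, Polynomial.coeff_zero] at h3
  rw [Finset.sum_eq_single k] at h3
  · simpa using h3
  · intro j _ hj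
    rw [if_neg (fun h => hj h.symm)]
  · intro h; exact absurd hk h

omit [DecidableEq σ] in
/-- divisibility along an approximate arc passes to the extended ideal -/
lemma eval_It {I : Ideal (MvPolynomial σ K)} (P : σ → Polynomial K) (d : Polynomial K)
    (h : ∀ G ∈ I, d ∣ eval P (io G)) (Ψ : MvPolynomial σ (Polynomial K)) (hΨ : Ψ ∈ It I) :
    d ∣ eval P Ψ := by
  refine Submodule.span_induction ?_ ?_ ?_ ?_ hΨ
  · rintro _ ⟨G, hG, rfl⟩
    exact h G hG
  · simp
  · intro x y _ _ hx hy; rw [map_add]; exact dvd_add hx hy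
  · intro c x _ hx; rw [smul_eq_mul, map_mul]; exact Dvd.dvd.mul_left hx _

/-- gradients of elements of the extended ideal at points of the cone are conormal -/
lemma gT_It_dot {I : Ideal (MvPolynomial σ K)} (x : σ → K) (hx : x ∈ cone I)
    (s : σ → Polynomial K) (hs : ∀ G ∈ I, cv (grad G x) ⬝ᵥ s = 0)
    (Ψ : MvPolynomial σ (Polynomial K)) (hΨ : Ψ ∈ It I) : gT Ψ (cv x) ⬝ᵥ s = 0 := by
  refine Submodule.span_induction ?_ ?_ ?_ ?_ hΨ
  · rintro _ ⟨G, hG, rfl⟩
    have := hs G hG
    rw [← gT_io_cv] at this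
    exact this
  · rw [gT_zero, zero_dotProduct]
  · intro x y _ _ hx hy; rw [gT_add, add_dotProduct, hx, hy, add_zero]
  · intro c Φ hΦ h
    have h0 : eval (cv x) Φ = 0 := by
      have := eval_It (cv x) 0 (fun G hG => by rw [eval_io_cv, hx G hG, map_zero]) Φ hΦ
      exact zero_dvd_iff.1 this
    rw [smul_eq_mul, gT_mul, h0, zero_smul, zero_add, smul_dotProduct, h, smul_zero]

/-- Limits of conormal vectors along approximate arcs. -/
theorem limit_con [IsAlgClosed K] {I : Ideal (MvPolynomial σ K)} {r : ℕ}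
    (hI : SCone I r) (p : σ → K) (hp0 : p ≠ 0) (P : ℕ → σ → Polynomial K)
    (hP : ∀ k, at0 (P k) = p)
    (hA : ∀ G ∈ I, ∀ l : ℕ, ∀ᶠ k in Filter.atTop,
      (Polynomial.X : Polynomial K) ^ l ∣ eval (P k) (io G))
    (Ψ : MvPolynomial σ (Polynomial K)) (hΨ : Ψ ∈ It I) (l : ℕ) (ξ : ℕ → σ → Polynomial K)
    (hξ : ∀ k, gT Ψ (P k) = (Polynomial.X : Polynomial K) ^ l • ξ k) (ξ0 : σ → K) (h0 : ∀ k, at0 (ξ k) = ξ0) :
    p ∈ cone I ∧ ξ0 ∈ conormal I p := by
  classical
  have hp : p ∈ cone I := by
    intro G hG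
    obtain ⟨k, hk⟩ := (hA G hG 1).exists
    rw [pow_one, Polynomial.X_dvd_iff, Polynomial.coeff_zero_eq_eval_zero, eval_io_zero, hP k] at hk
    exact hk
  refine ⟨hp, ?_⟩
  by_contra hcon
  have hfin := hI.rank p hp hp0
  let b := Module.finBasisOfFinrankEq K (conormal I p) hfin
  choose F hF hbF using fun i => exists_grad I p (b i : σ → K) (b i).2
  let B : Fin (r + 1) → (σ → K) := Fin.cons ξ0 (fun i => (b i : σ → K))
  have hB : LinearIndependent K B := by
    rw [linearIndependent_finCons]
    refine ⟨?_, ?_⟩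
    · exact b.linearIndependent.map' (conormal I p).subtype (Submodule.ker_subtype _)
    · intro hmem
      apply hcon
      refine (Submodule.span_le.2 ?_) hmem
      rintro _ ⟨i, rfl⟩
      exact (b i).2
  obtain ⟨v, hv⟩ := exists_dual_vectors B hB
  let D : (σ → Polynomial K) → (σ → Polynomial K) → Polynomial K := fun u P =>
    Matrix.det (fun (i j : Fin (r + 1)) => (Fin.cons u (fun a => gT (io (F a)) P) :
      Fin (r + 1) → (σ → Polynomial K)) i ⬝ᵥ cv (v j))
  have hDadd : ∀ u u' P, D (u + u') P = D u P + D u' P := by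
    intro u u' P
    simp only [D]
    rw [Matrix.det_succ_row_zero, Matrix.det_succ_row_zero, Matrix.det_succ_row_zero,
      ← Finset.sum_add_distrib]
    refine Finset.sum_congr rfl (fun j _ => ?_)
    simp only [Fin.cons_zero, add_dotProduct]
    have e : ∀ w : σ → Polynomial K, (Matrix.submatrix (fun (i j : Fin (r + 1)) =>
        (Fin.cons w (fun a => gT (io (F a)) P) : Fin (r + 1) → (σ → Polynomial K)) i ⬝ᵥ cv (v j))
        Fin.succ j.succAbove) = fun (i k : Fin r) => gT (io (F i)) P ⬝ᵥ cv (v (j.succAbove k)) := by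
      intro w; funext i k; rfl
    rw [e, e, e]
    ring
  have hDsmul : ∀ (c : Polynomial K) u P, D (c • u) P = c * D u P := by
    intro c u P
    simp only [D]
    rw [Matrix.det_succ_row_zero, Matrix.det_succ_row_zero, Finset.mul_sum]
    refine Finset.sum_congr rfl (fun j _ => ?_)
    simp only [Fin.cons_zero, smul_dotProduct, smul_eq_mul]
    have e : ∀ w : σ → Polynomial K, (Matrix.submatrix (fun (i j : Fin (r + 1)) =>
        (Fin.cons w (fun a => gT (io (F a)) P) : Fin (r + 1) → (σ → Polynomial K)) i ⬝ᵥ cv (v j))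
        Fin.succ j.succAbove) = fun (i k : Fin r) => gT (io (F i)) P ⬝ᵥ cv (v (j.succAbove k)) := by
      intro w; funext i k; rfl
    rw [e, e]
    ring
  have key : ∀ᶠ k in Filter.atTop, (Polynomial.X : Polynomial K) ^ (l + 1) ∣ D (gT Ψ (P k)) (P k) := by
    refine Submodule.span_induction (p := fun Φ _ => ∀ᶠ k in Filter.atTop,
      (Polynomial.X : Polynomial K) ^ (l + 1) ∣ D (gT Φ (P k)) (P k)) ?_ ?_ ?_ ?_ hΨ
    · rintro _ ⟨G, hG, rfl⟩
      have h1 := det_mem I hI.prime ⟨p, hp, hp0⟩ r (fun x hx hx0 => (hI.rank x hx hx0).le)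
        (Fin.cons G F) (fun a => by
          refine Fin.cases ?_ (fun i => ?_) a
          · exact hG
          · exact hF i) v
      filter_upwards [hA _ h1 (l + 1)] with k hk
      have h2 : eval (P k) (io (Matrix.det (fun a b => dd (v b)
          ((Fin.cons G F : Fin (r+1) → MvPolynomial σ K) a)))) = D (gT (io G) (P k)) (P k) := by
        have h4 : eval (P k) (io (Matrix.det (fun a b => dd (v b)
            ((Fin.cons G F : Fin (r+1) → MvPolynomial σ K) a)))) =
            ((eval (P k)).comp (MvPolynomial.map Polynomial.C)) (Matrix.det (fun a b => dd (v b)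
            ((Fin.cons G F : Fin (r+1) → MvPolynomial σ K) a))) := rfl
        rw [h4, RingHom.map_det]
        simp only [D]
        congr 1
        funext a b
        show eval (P k) (io (dd (v b) ((Fin.cons G F : Fin (r+1) → MvPolynomial σ K) a))) = _
        rw [gT_dd]
        refine Fin.cases ?_ (fun i => ?_) a
        · rfl
        · rfl
      rw [h2] at hk
      exact hk
    · filter_upwards with k
      rw [gT_zero]
      have := hDsmul 0 0 (P k)
      rw [zero_smul, zero_mul] at this
      rw [this]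
      exact dvd_zero _
    · intro x y _ _ hx hy
      filter_upwards [hx, hy] with k h1 h2
      rw [gT_add, hDadd]
      exact dvd_add h1 h2
    · intro c Φ hΦ h
      have h1 : ∀ᶠ k in Filter.atTop, (Polynomial.X : Polynomial K) ^ (l + 1) ∣ eval (P k) Φ := by
        refine Submodule.span_induction (p := fun Φ _ => ∀ᶠ k in Filter.atTop,
          (Polynomial.X : Polynomial K) ^ (l + 1) ∣ eval (P k) Φ) ?_ ?_ ?_ ?_ hΦ
        · rintro _ ⟨G, hG, rfl⟩
          exact hA G hG (l + 1)
        · filter_upwards with k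
          simp
        · intro x y _ _ hx hy
          filter_upwards [hx, hy] with k h1 h2
          rw [map_add]; exact dvd_add h1 h2
        · intro c x _ hx
          filter_upwards [hx] with k h1
          rw [smul_eq_mul, map_mul]; exact Dvd.dvd.mul_left h1 _
      filter_upwards [h, h1] with k h2 h3
      rw [smul_eq_mul, gT_mul, hDadd, hDsmul, hDsmul]
      exact dvd_add (Dvd.dvd.mul_right h3 _) (Dvd.dvd.mul_left h2 _)
  obtain ⟨k, hk⟩ := key.exists
  rw [hξ k, hDsmul, pow_succ] at hk
  have h1 : Polynomial.X ∣ D (ξ k) (P k) :=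
    (mul_dvd_mul_iff_left (pow_ne_zero _ Polynomial.X_ne_zero)).1 hk
  rw [Polynomial.X_dvd_iff, Polynomial.coeff_zero_eq_eval_zero] at h1
  have h2 : (D (ξ k) (P k)).eval 0 = 1 := by
    have h3 : (D (ξ k) (P k)).eval 0 = (Polynomial.evalRingHom (0 : K)) (D (ξ k) (P k)) := rfl
    rw [h3]
    simp only [D]
    rw [RingHom.map_det]
    have h4 : (Polynomial.evalRingHom (0 : K)).mapMatrix (fun (i j : Fin (r + 1)) =>
        (Fin.cons (ξ k) (fun a => gT (io (F a)) (P k)) : Fin (r + 1) → (σ → Polynomial K)) i ⬝ᵥ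
          cv (v j)) = 1 := by
      funext i j
      rw [Matrix.one_apply, ← hv i j]
      show Polynomial.eval 0 ((Fin.cons (ξ k) (fun a => gT (io (F a)) (P k)) :
        Fin (r + 1) → (σ → Polynomial K)) i ⬝ᵥ cv (v j)) = _
      rw [dot_at0, at0_cv]
      refine Fin.cases ?_ (fun i => ?_) i
      · simp only [Fin.cons_zero, B, h0 k]
      · simp only [Fin.cons_succ, B, gT_io_at0, hP k, hbF i]
    rw [h4, Matrix.det_one]
  rw [h2] at h1
  exact one_ne_zero h1

end Pool.Agent.H929R2.Hart
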