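import Pool.Agent.H929R2.Hart.U19
import Mathlib.LinearAlgebra.JordanChevalley
import Mathlib.LinearAlgebra.Eigenspace.Semisimple

set_option autoImplicit false
set_option maxHeartbeats 400000

namespace Pool.Agent.H929R2.Hart

open MvPolynomial

variable {σ : Type} [Fintype σ] [DecidableEq σ] {K : Type} [Field K]

lemma exists_eigenbasis [IsAlgClosed K] (s : Module.End K (σ → K)) (hs : s.IsSemisimple) :
    ∃ (b : Module.Basis σ K (σ → K)) (μ : σ → K), ∀ i, s (b i) = μ i • b i := by
  classical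
  let S : Set (σ → K) := {v | ∃ μ : K, s v = μ • v}
  have hS : Submodule.span K S = ⊤ := by
    rw [eq_top_iff, ← hs.iSup_eigenspace_eq_top, iSup_le_iff]
    intro μ v hv
    exact Submodule.subset_span ⟨μ, Module.End.mem_eigenspace_iff.1 hv⟩
  let b0 := Module.Basis.ofSpan hS.ge
  have hb0 : ∀ i, b0 i ∈ S := fun i => Module.Basis.ofSpan_subset hS.ge ⟨i, rfl⟩
  haveI : Fintype ((linearIndepOn_empty K id).extend (Set.empty_subset S)) :=
    FiniteDimensional.fintypeBasisIndex b0
  have hcard : Fintype.card ((linearIndepOn_empty K id).extend (Set.empty_subset S)) =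
      Fintype.card σ := by
    rw [← Module.finrank_eq_card_basis b0, Module.finrank_fintype_fun_eq_card]
  let e := Fintype.equivOfCardEq hcard
  have hb : ∀ i, (b0.reindex e) i ∈ S := by
    intro i
    rw [Module.Basis.reindex_apply]
    exact hb0 _
  choose μ hμ using hb
  exact ⟨b0.reindex e, μ, hμ⟩

/-- Jordan form -/
theorem exists_jordan [IsAlgClosed K] [CharZero K] (g : Matrix σ σ K) (hg : IsUnit g) :
    ∃ (P P' : Matrix σ σ K) (μ : σ → K) (N : Matrix σ σ K) (m : ℕ), P * P' = 1 ∧ P' * P = 1 ∧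
      (∀ i, μ i ≠ 0) ∧ N ^ (m + 1) = 0 ∧ Commute (Matrix.diagonal μ) N ∧
      P' * g * P = Matrix.diagonal μ * exK N m 1 := by
  classical
  let φ : Matrix σ σ K ≃ₐ[K] Module.End K (σ → K) := Matrix.toLinAlgEquiv'
  obtain ⟨n, hn, s, hs, hnil, hss, hf⟩ := (φ g).exists_isNilpotent_isSemisimple
  have hcomm : Commute n s := by
    have h1 : Commute (φ g) s := Algebra.commute_of_mem_adjoin_self hs
    exact (Algebra.commute_of_mem_adjoin_singleton_of_commute hn h1.symm).symm
  obtain ⟨b, μ, hb⟩ := exists_eigenbasis s hss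
  let P : Matrix σ σ K := (Pi.basisFun K σ).toMatrix b
  let P' : Matrix σ σ K := b.toMatrix (Pi.basisFun K σ)
  have h1 : P * P' = 1 := (Pi.basisFun K σ).toMatrix_mul_toMatrix_flip b
  have h2 : P' * P = 1 := b.toMatrix_mul_toMatrix_flip (Pi.basisFun K σ)
  have hPe : ∀ i, P.mulVec (Pi.single i 1) = b i := by
    intro i
    rw [Matrix.mulVec_single_one]
    funext j
    simp [P, Module.Basis.toMatrix_apply]
  have hP'b : ∀ i, P'.mulVec (b i) = Pi.single i 1 := by
    intro i
    rw [← hPe, Matrix.mulVec_mulVec, h2, Matrix.one_mulVec]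
  set S0 : Matrix σ σ K := φ.symm s with hS0
  set N0 : Matrix σ σ K := φ.symm n with hN0
  have hφ : ∀ (A : Matrix σ σ K) v, φ A v = A.mulVec v := fun A v =>
    Matrix.toLinAlgEquiv'_apply A v
  have hg0 : g = N0 + S0 := by
    rw [hN0, hS0, ← map_add, ← hf, AlgEquiv.symm_apply_apply]
  have hNS : Commute N0 S0 := by
    have h3 := hcomm.map φ.symm
    exact h3
  have hS0b : ∀ i, S0.mulVec (b i) = μ i • b i := by
    intro i
    rw [← hφ, hS0, AlgEquiv.apply_symm_apply, hb]
  have hD : P' * S0 * P = Matrix.diagonal μ := by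
    ext j i
    have h3 : (P' * S0 * P).mulVec (Pi.single i 1) = μ i • Pi.single i 1 := by
      rw [← Matrix.mulVec_mulVec, ← Matrix.mulVec_mulVec, hPe, hS0b, Matrix.mulVec_smul, hP'b]
    have h4 := congrFun h3 j
    rw [Matrix.mulVec_single_one] at h4
    have h5 : (P' * S0 * P) j i = (μ i • (Pi.single i 1 : σ → K)) j := h4
    rw [h5, Matrix.diagonal_apply]
    by_cases hij : j = i
    · subst hij; simp
    · rw [if_neg hij]
      simp [Pi.single_apply, hij]
  set n' : Matrix σ σ K := P' * N0 * P with hn'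
  have hconj : ∀ A B : Matrix σ σ K, (P' * A * P) * (P' * B * P) = P' * (A * B) * P := by
    intro A B
    calc (P' * A * P) * (P' * B * P) = P' * A * (P * P') * B * P := by
          simp only [Matrix.mul_assoc]
      _ = P' * (A * B) * P := by rw [h1, Matrix.mul_one]; simp only [Matrix.mul_assoc]
  have hconjpow : ∀ (A : Matrix σ σ K) (k : ℕ), (P' * A * P) ^ k = P' * A ^ k * P := by
    intro A k
    induction k with
    | zero => rw [pow_zero, pow_zero, Matrix.mul_one, h2]
    | succ k ih => rw [pow_succ, ih, hconj, ← pow_succ]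
  have hcommD : Commute (Matrix.diagonal μ) n' := by
    show Matrix.diagonal μ * n' = n' * Matrix.diagonal μ
    rw [← hD, hn', hconj, hconj, hNS.eq]
  obtain ⟨k0, hk0⟩ : ∃ k, N0 ^ k = 0 := by
    obtain ⟨k, hk⟩ := hnil
    refine ⟨k, ?_⟩
    rw [hN0, ← map_pow, hk, map_zero]
  have hn'k : n' ^ k0 = 0 := by rw [hn', hconjpow, hk0, Matrix.mul_zero, Matrix.zero_mul]
  have hg' : P' * g * P = Matrix.diagonal μ + n' := by
    rw [hg0, hn', ← hD, Matrix.mul_add, Matrix.add_mul, add_comm]
  have hμ : ∀ i, μ i ≠ 0 := by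
    intro i hi
    have hDe : (Matrix.diagonal μ).mulVec (Pi.single i 1) = 0 := by
      funext j
      rw [Matrix.mulVec_diagonal]
      by_cases hij : j = i
      · rw [hij, hi, zero_mul]; rfl
      · rw [Pi.single_apply, if_neg hij, mul_zero]; rfl
    have hpow : ∀ k, ((P' * g * P) ^ k).mulVec (Pi.single i 1 : σ → K) =
        (n' ^ k).mulVec (Pi.single i 1) := by
      intro k
      induction k with
      | zero => simp
      | succ k ih =>
        rw [pow_succ', ← Matrix.mulVec_mulVec, ih, hg', Matrix.add_mulVec, Matrix.mulVec_mulVec,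
          (hcommD.pow_right k).eq, ← Matrix.mulVec_mulVec, hDe, Matrix.mulVec_zero, zero_add,
          Matrix.mulVec_mulVec, ← pow_succ']
    have h3 := hpow k0
    rw [hn'k, Matrix.zero_mulVec, hconjpow, ← Matrix.mulVec_mulVec, hPe] at h3
    -- `g` is invertible
    obtain ⟨u, hu⟩ := hg.pow k0
    have h4 := congrArg (fun v => ((↑u⁻¹ : Matrix σ σ K) * P).mulVec v) h3
    simp only [Matrix.mulVec_mulVec, Matrix.mulVec_zero] at h4
    have h5 : (↑u⁻¹ : Matrix σ σ K) * P * (P' * g ^ k0) = 1 := by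
      rw [Matrix.mul_assoc, ← Matrix.mul_assoc P, h1, Matrix.one_mul, ← hu, Units.inv_mul]
    rw [h5, Matrix.one_mulVec] at h4
    exact b.ne_zero i h4
  set D' : Matrix σ σ K := Matrix.diagonal (fun i => (μ i)⁻¹) with hD'
  have hDD' : Matrix.diagonal μ * D' = 1 := by
    rw [hD', Matrix.diagonal_mul_diagonal]
    have : (fun i => μ i * (μ i)⁻¹) = fun _ => 1 := by
      funext i; exact mul_inv_cancel₀ (hμ i)
    rw [this, Matrix.diagonal_one]
  have hD'D : D' * Matrix.diagonal μ = 1 := by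
    rw [hD', Matrix.diagonal_mul_diagonal]
    have : (fun i => (μ i)⁻¹ * μ i) = fun _ => 1 := by
      funext i; exact inv_mul_cancel₀ (hμ i)
    rw [this, Matrix.diagonal_one]
  have hcommD' : Commute D' n' := by
    show D' * n' = n' * D'
    calc D' * n' = D' * n' * (Matrix.diagonal μ * D') := by rw [hDD', Matrix.mul_one]
      _ = D' * (Matrix.diagonal μ * n') * D' := by
          rw [hcommD.eq]; simp only [Matrix.mul_assoc]
      _ = n' * D' := by rw [← Matrix.mul_assoc, hD'D, Matrix.one_mul]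
  have hnil2 : (D' * n') ^ (k0 + 1) = 0 := by
    rw [hcommD'.mul_pow, pow_succ n', hn'k, Matrix.zero_mul, Matrix.mul_zero]
  obtain ⟨N, hN, hNc, hNe⟩ := exists_log (D' * n') k0 hnil2
  refine ⟨P, P', μ, N, k0, h1, h2, hμ, hN, hNc _ ?_, ?_⟩
  · have h3 : Commute (Matrix.diagonal μ) D' := by
      show Matrix.diagonal μ * D' = D' * Matrix.diagonal μ
      rw [hDD', hD'D]
    exact h3.mul_right hcommD
  · rw [hNe, hg', Matrix.mul_add, Matrix.mul_one, ← Matrix.mul_assoc, hDD', Matrix.one_mul]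

/-- The main theorem for an arbitrary linear automorphism of infinite order. -/
theorem main_all [IsAlgClosed K] [CharZero K] (r : ℕ) (I : Ideal (MvPolynomial σ K))
    (hI : I.IsPrime) (hom : ∀ F ∈ I, ∀ d, homogeneousComponent d F ∈ I)
    (hne : ∃ x ∈ cone I, x ≠ 0)
    (hr : ∀ x ∈ cone I, x ≠ 0 → Module.finrank K (conormal I x) = r)
    (g : Matrix σ σ K) (hg : IsUnit g) (hst : ∀ x ∈ cone I, g.mulVec x ∈ cone I)
    (hinf : ∀ k : ℕ, 0 < k → ∃ x ∈ cone I, ∀ c : K, (g ^ k).mulVec x ≠ c • x)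
    (hcard : 17 * r ≤ Fintype.card σ) :
    r ≤ Module.finrank K (linsub I) + 1 := by
  obtain ⟨P, P', μ, N, m, h1, h2, hμ, hN, hcomm, hgP⟩ := exists_jordan g hg
  have hconj : ∀ k : ℕ, (P' * g * P) ^ k = P' * g ^ k * P := by
    intro k
    induction k with
    | zero => rw [pow_zero, pow_zero, Matrix.mul_one, h2]
    | succ k ih =>
      rw [pow_succ, ih]
      calc P' * g ^ k * P * (P' * g * P) = P' * g ^ k * (P * P') * g * P := by
            simp only [Matrix.mul_assoc]
        _ = P' * g ^ (k + 1) * P := by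
            rw [h1, Matrix.mul_one, pow_succ]; simp only [Matrix.mul_assoc]
  have hprime : (chI I P').IsPrime := Ideal.comap_isPrime _ _
  have hP'c : ∀ x ∈ cone I, P'.mulVec x ∈ cone (chI I P') := by
    intro x hx
    rw [mem_cone_chI h1 h2, Matrix.mulVec_mulVec, h1, Matrix.one_mulVec]
    exact hx
  have hPinj : ∀ x, P.mulVec x = 0 → x = 0 := by
    intro x hx
    have h3 := congrArg P'.mulVec hx
    rwa [Matrix.mulVec_mulVec, h2, Matrix.one_mulVec, Matrix.mulVec_zero] at h3
  have h3 := main_jordan r (chI I P') hprime (fun F hF d => by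
      rw [mem_chI, comp_hc]
      exact hom _ ((mem_chI P' F).1 hF) d) (by
      obtain ⟨x, hx, hx0⟩ := hne
      refine ⟨P'.mulVec x, hP'c x hx, fun h0 => hx0 ?_⟩
      have h4 := congrArg P.mulVec h0
      rwa [Matrix.mulVec_mulVec, h1, Matrix.one_mulVec, Matrix.mulVec_zero] at h4)
    (fun x hx hx0 => by
      rw [finrank_conormal_chI h1 h2]
      exact hr _ ((mem_cone_chI h1 h2 x).1 hx) (fun h0 => hx0 (hPinj x h0)))
    μ hμ N m hN hcomm (fun x hx => by
      rw [← hgP, mem_cone_chI h1 h2, Matrix.mulVec_mulVec]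
      have h4 : P * (P' * g * P) = g * P := by
        rw [← Matrix.mul_assoc, ← Matrix.mul_assoc, h1, Matrix.one_mul]
      rw [h4, ← Matrix.mulVec_mulVec]
      exact hst _ ((mem_cone_chI h1 h2 x).1 hx)) (fun k hk => by
      obtain ⟨x, hx, hc⟩ := hinf k hk
      refine ⟨P'.mulVec x, hP'c x hx, fun c h0 => hc c ?_⟩
      rw [← hgP, hconj, Matrix.mulVec_mulVec] at h0
      have h4 := congrArg P.mulVec h0
      rw [Matrix.mulVec_mulVec, Matrix.mulVec_smul, Matrix.mulVec_mulVec] at h4
      have h5 : P * (P' * g ^ k * P * P') = g ^ k := by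
        rw [Matrix.mul_assoc (P' * g ^ k), h1, Matrix.mul_one, ← Matrix.mul_assoc, h1,
          Matrix.one_mul]
      rwa [h5, h1, Matrix.one_mulVec] at h4) hcard
  have h4 := finrank_linsub_chI (I := I) h2
  omega

end Pool.Agent.H929R2.Hart
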