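import Pool.Agent.H929R2.Hart.U14

set_option autoImplicit false
set_option maxHeartbeats 400000

namespace Pool.Agent.H929R2.Hart

open MvPolynomial

variable {σ : Type} [Fintype σ] [DecidableEq σ] {K : Type} [Field K]

variable {I : Ideal (MvPolynomial σ K)} {r : ℕ}

/-- A point at infinity of an intersection of translates. -/
theorem exists_tangent2 [IsAlgClosed K] [CharZero K] (hI : SCone I r) {q s : ℕ}
    (x p : σ → K) (hx : x ∈ cone I) (hx0 : x ≠ 0) (hp : p ∈ cone I) (hp0 : p ≠ 0)
    (l : Fin q → σ → K) (hlx : ∀ i, dotB σ K (l i) x = 0)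
    (h : Fin s → MvPolynomial σ K) (hh : ∀ i, eval x (h i) = 0)
    (hcard : 2 * r + q + s < Fintype.card σ) :
    ∃ y ∈ cone I, y ≠ 0 ∧ (∀ i, dotB σ K (l i) y = 0) ∧ p - x ∈ tangent I y ∧
      ∀ (D T : MvPolynomial σ K) (d : ℕ), D.IsHomogeneous d → eval x T ≠ 0 →
        (∀ z ∈ cone I, (∀ i, dotB σ K (l i) z = 0) → (∀ i, eval z (h i) = 0) → eval z T ≠ 0 →
          eval z D = 0) → eval y D = 0 := by
  classical
  obtain ⟨F, hF, hind, -⟩ := exists_grads hI x hx hx0
  obtain ⟨F', hF', hind', -⟩ := exists_grads hI p hp hp0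
  set g : ((Fin r ⊕ Fin r) ⊕ Fin q) ⊕ Fin s → MvPolynomial σ K :=
    Sum.elim (Sum.elim (Sum.elim (fun i => sh x (F i)) (fun i => sh p (F' i)))
      (fun i => lin (l i))) (fun i => sh x (h i)) with hg
  have hgm : Ideal.span (Set.range g) ≤ idealOfVars σ K := by
    rw [Ideal.span_le]
    rintro _ ⟨a, rfl⟩
    rcases a with ((i | i) | i) | i
    · rw [SetLike.mem_coe, mem_idealOfVars]
      show eval 0 (sh x (F i)) = 0
      rw [eval_sh, zero_add]
      exact hx _ (hF i)
    · rw [SetLike.mem_coe, mem_idealOfVars]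
      show eval 0 (sh p (F' i)) = 0
      rw [eval_sh, zero_add]
      exact hp _ (hF' i)
    · exact lin_mem _
    · rw [SetLike.mem_coe, mem_idealOfVars]
      show eval 0 (sh x (h i)) = 0
      rw [eval_sh, zero_add]
      exact hh i
  have hvp := vars_prime (σ := σ) (K := K)
  obtain ⟨P, hPmin, hPle⟩ := Ideal.exists_minimalPrimes_le hgm
  have hPprime : P.IsPrime := hPmin.1.1
  have hne : P ≠ idealOfVars σ K := by
    intro heq
    have h1 := Ideal.height_le_card_of_mem_minimalPrimes_span (Set.finite_range g) hPmin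
    have h2 : (Set.range g).ncard ≤ 2 * r + q + s := by
      have h3 := Set.ncard_image_le (s := (Set.univ : Set (((Fin r ⊕ Fin r) ⊕ Fin q) ⊕ Fin s)))
        (f := g)
      rw [Set.image_univ, Set.ncard_univ] at h3
      simp only [Nat.card_eq_fintype_card, Fintype.card_sum, Fintype.card_fin] at h3
      omega
    rw [heq] at h1
    have h4 : (Fintype.card σ : ℕ∞) ≤ ((Set.range g).ncard : ℕ∞) := height_vars.trans h1
    have h5 : Fintype.card σ ≤ (Set.range g).ncard := by exact_mod_cast h4
    omega
  have hmax : ¬ P.IsMaximal := fun hm => hne (hm.eq_of_le hvp.ne_top hPle)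
  have hgP : ∀ a, g a ∈ P := fun a => hPmin.1.2 (Ideal.subset_span ⟨a, rfl⟩)
  -- all of the ideal vanishes on the translate
  have hall : ∀ (p : σ → K), p ∈ cone I → p ≠ 0 → ∀ (F : Fin r → MvPolynomial σ K),
      (∀ i, F i ∈ I) → LinearIndependent K (fun i => grad (F i) p) → (∀ i, sh p (F i) ∈ P) →
      ∀ G ∈ I, sh p G ∈ P := by
    intro p hp hp0 F hF hind hFP G hG
    set π := Ideal.Quotient.mk P
    have hmap : (idealOfVars σ K).map π ≠ ⊤ := by
      intro htop
      have h1 : Ideal.comap π ((idealOfVars σ K).map π) = idealOfVars σ K := by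
        rw [Ideal.comap_map_of_surjective π Ideal.Quotient.mk_surjective]
        have h2 : Ideal.comap π ⊥ = P := Ideal.mk_ker
        rw [h2, sup_eq_left.2 hPle]
      rw [htop, Ideal.comap_top] at h1
      exact hvp.ne_top h1.symm
    have h0 := Ideal.iInf_pow_eq_bot_of_isDomain ((idealOfVars σ K).map π) hmap
    rw [← Ideal.Quotient.eq_zero_iff_mem, ← Ideal.mem_bot, ← h0, Ideal.mem_iInf]
    intro e
    rw [← Ideal.map_pow]
    obtain ⟨a, ha, b, hb, hab⟩ := Submodule.mem_sup.1 (LG hI p hp hp0 F hF hind e G hG)
    have haP : a ∈ P := by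
      have h2 : (Ideal.span (Set.range F)).map (sh p) ≤ P := by
        rw [Ideal.map_span, Ideal.span_le]
        rintro _ ⟨_, ⟨i, rfl⟩, rfl⟩
        exact hFP i
      exact h2 ha
    rw [← hab, map_add, Ideal.Quotient.eq_zero_iff_mem.2 haP, zero_add]
    exact Ideal.mem_map_of_mem _ hb
  have hallx := hall x hx hx0 F hF hind (fun i => hgP (Sum.inl (Sum.inl (Sum.inl i))))
  have hallp := hall p hp hp0 F' hF' hind' (fun i => hgP (Sum.inl (Sum.inl (Sum.inr i))))
  have hlP : ∀ i, lin (l i) ∈ P := fun i => hgP (Sum.inl (Sum.inr i))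
  have hhP : ∀ i, sh x (h i) ∈ P := fun i => hgP (Sum.inr i)
  obtain ⟨y, hy0, hy⟩ := exists_infinity P hPprime hmax
  have hz : ∀ (f : MvPolynomial σ K) (e : ℕ),
      (∀ x, eval x (homogeneousComponent e f) = 0) → homogeneousComponent e f = 0 := by
    intro f e h
    apply MvPolynomial.funext
    intro x
    rw [h x, map_zero]
  have htop : ∀ (D : MvPolynomial σ K) (d : ℕ), D.IsHomogeneous d → sh x D ∈ P →
      eval y D = 0 := by
    intro D d hd hD
    have h1 := hy _ hD d (fun e he => hz _ _ (fun z => (line_coeff D d hd z x).1 e he))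
    rw [(line_coeff D d hd y x).2 d le_rfl, Nat.sub_self, line_coeff_zero] at h1
    exact h1
  refine ⟨y, ?_, hy0, ?_, ?_, ?_⟩
  · intro G hG
    rw [← sum_homogeneousComponent G, map_sum]
    exact Finset.sum_eq_zero (fun d _ => htop _ d (homogeneousComponent_isHomogeneous d G)
      (hallx _ (hI.homog G hG d)))
  · intro i
    have h1 := htop (lin (l i)) 1 (lin_homog _) (by
      have h2 : sh x (lin (l i)) = lin (l i) := by
        apply MvPolynomial.funext
        intro z
        rw [eval_sh, eval_lin, eval_lin, map_add, hlx, add_zero]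
      rw [h2]; exact hlP i)
    rwa [eval_lin] at h1
  · rw [mem_tangent]
    intro G hG
    rw [← sum_homogeneousComponent G, grad_sum, map_sum, LinearMap.sum_apply]
    refine Finset.sum_eq_zero (fun d _ => ?_)
    set H := homogeneousComponent d G with hHdef
    have hHI : H ∈ I := hI.homog G hG d
    have hHd : H.IsHomogeneous d := homogeneousComponent_isHomogeneous d G
    rcases Nat.eq_zero_or_pos d with hd0 | hd0
    · have h1 : grad H y = 0 := by
        rw [hd0] at hHd
        have h2 : H = C (coeff 0 H) := by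
          rw [← homogeneousComponent_zero, homogeneousComponent_eq_self hHd]
        rw [h2]
        funext i; simp [grad]
      rw [h1, map_zero, LinearMap.zero_apply]
    · have h1 := hy _ (P.sub_mem (hallp H hHI) (hallx H hHI)) (d - 1) (fun e he => by
        apply hz
        intro z
        rw [map_sub, map_sub]
        by_cases hed : d < e
        · rw [(line_coeff H d hHd z p).1 e hed, (line_coeff H d hHd z x).1 e hed, sub_self]
        · have : e = d := by omega
          rw [this, (line_coeff H d hHd z p).2 d le_rfl,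
            (line_coeff H d hHd z x).2 d le_rfl, Nat.sub_self, line_coeff_zero,
            line_coeff_zero, sub_self])
      rw [map_sub, map_sub, (line_coeff H d hHd y p).2 (d - 1) (by omega),
        (line_coeff H d hHd y x).2 (d - 1) (by omega), show d - (d - 1) = 1 by omega,
        line_coeff_one, line_coeff_one] at h1
      rw [map_sub]
      exact h1
  · intro D T d hd hT hD
    apply htop D d hd
    have h1 : sh x T * sh x D ∈ P := by
      apply mem_of_vanish P hPprime
      intro z hz'
      rw [map_mul, eval_sh, eval_sh]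
      by_cases hTz : eval (z + x) T = 0
      · rw [hTz, zero_mul]
      · rw [hD (z + x) ?_ ?_ ?_ hTz, mul_zero]
        · intro G hG
          rw [← eval_sh]
          exact hz' _ (hallx G hG)
        · intro i
          have h2 := hz' _ (hlP i)
          rw [eval_lin] at h2
          rw [map_add, h2, hlx, add_zero]
        · intro i
          rw [← eval_sh]
          exact hz' _ (hhP i)
    rcases hPprime.mem_or_mem h1 with h2 | h2
    · exfalso
      apply hT
      have h3 := (mem_idealOfVars _).1 (hPle h2)
      rwa [eval_sh, zero_add] at h3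
    · exact h2

end Pool.Agent.H929R2.Hart
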