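import Pool.Agent.H929R2.Hart.U2
import Mathlib.RingTheory.Nilpotent.Exp

set_option autoImplicit false
set_option maxHeartbeats 400000

namespace Pool.Agent.H929R2.Hart

open MvPolynomial

variable {σ : Type} [Fintype σ] [DecidableEq σ] {K : Type} [Field K]

/-! ### Linear substitutions with polynomial coefficients -/

section Gen

variable {A : Type} [CommRing A]

/-- substitution of a linear transformation -/
noncomputable def comp (Ψ : MvPolynomial σ A) (B : Matrix σ σ A) :
    MvPolynomial σ A := bind₁ (fun i => ∑ j, C (B i j) * X j) Ψ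

omit [DecidableEq σ] in
lemma eval_comp (Ψ : MvPolynomial σ A) (B : Matrix σ σ A)
    (P : σ → A) : eval P (comp Ψ B) = eval (B.mulVec P) Ψ := by
  rw [comp]
  have h := eval₂Hom_bind₁ (RingHom.id A) P (fun i => ∑ j, C (B i j) * X j) Ψ
  have h1 : (eval₂Hom (RingHom.id A) P) = eval P := rfl
  rw [h1] at h
  rw [h]
  have h2 : (fun i => (eval P) (∑ j, C (B i j) * X j)) = B.mulVec P := by
    funext i
    simp [Matrix.mulVec, dotProduct, map_sum]
  rw [h2]
  rfl

lemma gT_comp (Ψ : MvPolynomial σ A) (B : Matrix σ σ A)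
    (P : σ → A) :
    gT (comp Ψ B) P = (B.transpose).mulVec (gT Ψ (B.mulVec P)) := by
  induction Ψ using MvPolynomial.induction_on with
  | C a =>
    have : comp (C a) B = C a := by rw [comp, bind₁_C_right]
    rw [this, gT_C, gT_C, Matrix.mulVec_zero]
  | add p q hp hq =>
    have : comp (p + q) B = comp p B + comp q B := by rw [comp, map_add]; rfl
    rw [this, gT_add, gT_add, hp, hq, Matrix.mulVec_add]
  | mul_X p i hp =>
    have h1 : comp (p * X i) B = comp p B * comp (X i) B := by rw [comp, map_mul]; rfl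
    have h2 : comp (X i : MvPolynomial σ A) B = ∑ j, C (B i j) * X j := by
      rw [comp, bind₁_X_right]
    have h3 : gT (comp (X i : MvPolynomial σ A) B) P = B i := by
      rw [h2, gT_sum]
      funext k
      rw [Finset.sum_apply, Finset.sum_eq_single k]
      · rw [gT, pderiv_C_mul]; simp
      · intro j _ hj
        rw [gT, pderiv_C_mul, pderiv_X_of_ne hj]
        simp
      · intro h; exact absurd (Finset.mem_univ _) h
    have h4 : gT (X i : MvPolynomial σ A) (B.mulVec P) = Pi.single i 1 := by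
      funext j
      rw [gT]
      by_cases hj : j = i
      · subst hj; simp
      · rw [pderiv_X_of_ne (fun h => hj h.symm), map_zero, Pi.single_apply, if_neg hj]
    rw [h1, gT_mul, hp, h3, gT_mul, h4, Matrix.mulVec_add, Matrix.mulVec_smul, Matrix.mulVec_smul,
      eval_comp, eval_comp]
    congr 2
    funext j
    rw [Matrix.mulVec_single_one]
    rfl

end Gen

omit [DecidableEq σ] in
lemma eval_mulVec (t : K) (B : Matrix σ σ (Polynomial K)) (P : σ → Polynomial K) :
    (fun i => (B.mulVec P i).eval t) =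
      (B.map (fun p => p.eval t)).mulVec (fun i => (P i).eval t) := by
  funext i
  simp [Matrix.mulVec, dotProduct, Polynomial.eval_finsetSum]

/-- a polynomial family of linear maps preserving the cone -/
def GoodB (I : Ideal (MvPolynomial σ K)) (B : Matrix σ σ (Polynomial K)) : Prop :=
  ∀ x ∈ cone I, ∀ t : K, t ≠ 0 → (B.map (fun p => p.eval t)).mulVec x ∈ cone I

lemma GoodB.eval_zero [IsAlgClosed K] {I : Ideal (MvPolynomial σ K)}
    {B : Matrix σ σ (Polynomial K)} (hB : GoodB I B) (x : σ → K) (hx : x ∈ cone I)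
    (G : MvPolynomial σ K) (hG : G ∈ I) : eval (B.mulVec (cv x)) (io G) = 0 := by
  apply poly_eq_zero
  intro t ht
  rw [eval_io_eval, eval_mulVec]
  have : (fun i => (cv x i).eval t) = x := by funext i; simp [cv]
  rw [this]
  exact hB x hx t ht G hG

lemma GoodB.comp_mem [IsAlgClosed K] {I : Ideal (MvPolynomial σ K)} (hI : I.IsPrime)
    {B : Matrix σ σ (Polynomial K)} (hB : GoodB I B) (G : MvPolynomial σ K) (hG : G ∈ I) :
    comp (io G) B ∈ It I := by
  apply mem_It hI
  intro x hx
  rw [eval_comp]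
  exact hB.eval_zero x hx G hG

omit [DecidableEq σ] in
lemma eval_homog_smul {A : Type} [CommRing A] (Φ : MvPolynomial σ A) (d : ℕ)
    (hd : Φ.IsHomogeneous d) (P : σ → A) (c : A) :
    eval (c • P) Φ = c ^ d * eval P Φ := by
  rw [eval_eq', eval_eq', Finset.mul_sum]
  refine Finset.sum_congr rfl (fun m hm => ?_)
  have h1 : ∑ i, m i = d := by
    have h2 := hd (mem_support_iff.1 hm)
    rw [Finsupp.weight_apply, Finsupp.sum_fintype _ _ (fun _ => by simp)] at h2
    simpa using h2
  have h2 : ∏ i, ((c • P) i) ^ m i = c ^ d * ∏ i, P i ^ m i := by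
    rw [← h1, ← Finset.prod_pow_eq_pow_sum, ← Finset.prod_mul_distrib]
    refine Finset.prod_congr rfl (fun i _ => ?_)
    rw [Pi.smul_apply, smul_eq_mul, mul_pow]
  rw [h2]
  ring

/-- transport of approximate arcs -/
theorem transport [IsAlgClosed K] {I : Ideal (MvPolynomial σ K)} (hI : I.IsPrime)
    (hom : ∀ F ∈ I, ∀ d, homogeneousComponent d F ∈ I)
    {B : Matrix σ σ (Polynomial K)} (hB : GoodB I B) (v P : ℕ → σ → Polynomial K) (e : ℕ)
    (hv : ∀ l, ∀ G ∈ I, (Polynomial.X : Polynomial K) ^ l ∣ eval (v l) (io G))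
    (hP : ∀ l, B.mulVec (v l) = (Polynomial.X : Polynomial K) ^ e • P l) :
    ∀ G ∈ I, ∀ l : ℕ, ∀ᶠ k in Filter.atTop,
      (Polynomial.X : Polynomial K) ^ l ∣ eval (P k) (io G) := by
  intro G hG l
  have hhom : ∀ d, ∀ᶠ k in Filter.atTop, (Polynomial.X : Polynomial K) ^ l ∣
      eval (P k) (io (homogeneousComponent d G)) := by
    intro d
    filter_upwards [Filter.eventually_ge_atTop (e * d + l)] with k hk
    have h1 := eval_It (v k) _ (hv k) _ (hB.comp_mem hI _ (hom G hG d))
    rw [eval_comp, hP k, eval_homog_smul _ d, ← pow_mul] at h1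
    · have h2 : (Polynomial.X : Polynomial K) ^ (e * d) * Polynomial.X ^ l ∣
          Polynomial.X ^ (e * d) * eval (P k) (io (homogeneousComponent d G)) := by
        rw [← pow_add]
        exact (pow_dvd_pow _ hk).trans h1
      exact (mul_dvd_mul_iff_left (pow_ne_zero _ Polynomial.X_ne_zero)).1 h2
    · exact (homogeneousComponent_isHomogeneous d G).map _
  have h1 : ∀ᶠ k in Filter.atTop, ∀ d ∈ Finset.range (G.totalDegree + 1),
      (Polynomial.X : Polynomial K) ^ l ∣ eval (P k) (io (homogeneousComponent d G)) := by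
    rw [Filter.eventually_all_finset]
    intro d _
    exact hhom d
  filter_upwards [h1] with k hk
  have h2 : eval (P k) (io G) =
      ∑ d ∈ Finset.range (G.totalDegree + 1), eval (P k) (io (homogeneousComponent d G)) := by
    conv_lhs => rw [← sum_homogeneousComponent G]
    rw [io, map_sum, map_sum]
    rfl
  rw [h2]
  exact Finset.dvd_sum (fun d hd => hk d hd)

/-! ### The exponential of a nilpotent matrix -/

/-- the exponential `exp(tM)` of a nilpotent matrix -/
noncomputable def exK (M : Matrix σ σ K) (m : ℕ) (t : K) : Matrix σ σ K :=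
  ∑ j ∈ Finset.range (m + 1), (t ^ j * (j.factorial : K)⁻¹) • M ^ j

/-- `τ^m exp(M/τ)` -/
noncomputable def Ep (M : Matrix σ σ K) (m : ℕ) : Matrix σ σ (Polynomial K) :=
  ∑ j ∈ Finset.range (m + 1), (Polynomial.C ((j.factorial : K)⁻¹) * Polynomial.X ^ (m - j)) •
    (M ^ j).map Polynomial.C

lemma exK_eq [CharZero K] (M : Matrix σ σ K) (m : ℕ) (hM : M ^ (m + 1) = 0) (t : K) :
    exK M m t = IsNilpotent.exp (t • M) := by
  rw [IsNilpotent.exp_eq_sum (k := m + 1) (by rw [smul_pow, hM, smul_zero]), exK]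
  refine Finset.sum_congr rfl (fun j _ => ?_)
  rw [smul_pow]
  ext a b
  simp only [Matrix.smul_apply, smul_eq_mul, Rat.smul_def]
  push_cast
  ring

lemma exK_add [CharZero K] (M : Matrix σ σ K) (m : ℕ) (hM : M ^ (m + 1) = 0) (s t : K) :
    exK M m (s + t) = exK M m s * exK M m t := by
  rw [exK_eq M m hM, exK_eq M m hM, exK_eq M m hM, add_smul]
  apply IsNilpotent.exp_add_of_commute
  · exact ((Commute.refl M).smul_left s).smul_right t
  · exact ⟨m + 1, by rw [smul_pow, hM, smul_zero]⟩
  · exact ⟨m + 1, by rw [smul_pow, hM, smul_zero]⟩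

lemma exK_zero (M : Matrix σ σ K) (m : ℕ) : exK M m 0 = 1 := by
  rw [exK, Finset.sum_eq_single 0]
  · simp
  · intro j _ hj
    rw [zero_pow hj, zero_mul, zero_smul]
  · intro h; exact absurd (Finset.mem_range.2 (Nat.succ_pos m)) h

lemma exK_neg (M : Matrix σ σ K) (m : ℕ) (t : K) : exK (-M) m t = exK M m (-t) := by
  rw [exK, exK]
  refine Finset.sum_congr rfl (fun j _ => ?_)
  rcases Nat.even_or_odd j with h | h
  · rw [h.neg_pow, h.neg_pow]
  · rw [h.neg_pow, h.neg_pow, neg_mul, smul_neg, neg_smul]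

lemma exK_mul_neg [CharZero K] (M : Matrix σ σ K) (m : ℕ) (hM : M ^ (m + 1) = 0) (t : K) :
    exK M m t * exK (-M) m t = 1 := by
  rw [exK_neg, ← exK_add M m hM, add_neg_cancel, exK_zero]

lemma exK_neg_mul [CharZero K] (M : Matrix σ σ K) (m : ℕ) (hM : M ^ (m + 1) = 0) (t : K) :
    exK (-M) m t * exK M m t = 1 := by
  rw [exK_neg, ← exK_add M m hM, neg_add_cancel, exK_zero]

lemma Ep_eval (M : Matrix σ σ K) (m : ℕ) (t : K) (ht : t ≠ 0) :
    (Ep M m).map (fun p => p.eval t) = t ^ m • exK M m t⁻¹ := by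
  ext a b
  rw [Ep, exK, Matrix.map_apply, Matrix.sum_apply, Polynomial.eval_finsetSum, Matrix.smul_apply,
    Matrix.sum_apply, Finset.smul_sum]
  refine Finset.sum_congr rfl (fun j hj => ?_)
  rw [Finset.mem_range] at hj
  simp only [Matrix.smul_apply, Matrix.map_apply, smul_eq_mul, Polynomial.eval_mul,
    Polynomial.eval_C, Polynomial.eval_pow, Polynomial.eval_X]
  rw [inv_pow, ← mul_assoc (t ^ m), ← mul_assoc (t ^ m)]
  congr 1
  rw [mul_comm]
  congr 1
  rw [eq_mul_inv_iff_mul_eq₀ (pow_ne_zero _ ht), ← pow_add]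
  congr 1
  omega

lemma Ep_zero (M : Matrix σ σ K) (m : ℕ) :
    (Ep M m).map (fun p => p.eval 0) = ((m.factorial : K)⁻¹) • M ^ m := by
  ext a b
  rw [Ep, Matrix.map_apply, Matrix.sum_apply, Polynomial.eval_finsetSum,
    Finset.sum_eq_single m]
  · simp
  · intro j hj hjm
    rw [Finset.mem_range] at hj
    simp only [Matrix.smul_apply, Matrix.map_apply, smul_eq_mul, Polynomial.eval_mul,
      Polynomial.eval_C, Polynomial.eval_pow, Polynomial.eval_X]
    rw [zero_pow (by omega)]
    ring
  · intro h; exact absurd (Finset.mem_range.2 (Nat.lt_succ_self m)) h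

lemma Ep_mul [CharZero K] (M : Matrix σ σ K) (m : ℕ) (hM : M ^ (m + 1) = 0) :
    Ep M m * Ep (-M) m = (Polynomial.X : Polynomial K) ^ (2 * m) • 1 := by
  ext1 a b
  rw [← sub_eq_zero]
  apply poly_eq_zero
  intro t ht
  have h1 : ((Ep M m * Ep (-M) m) a b).eval t =
      (((Ep M m).map (fun p => p.eval t)) * ((Ep (-M) m).map (fun p => p.eval t))) a b := by
    simp [Matrix.mul_apply, Polynomial.eval_finsetSum]
  rw [Polynomial.eval_sub, h1, Ep_eval M m t ht, Ep_eval (-M) m t ht, smul_mul_smul_comm,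
    exK_mul_neg M m hM]
  simp only [Matrix.smul_apply, Matrix.one_apply, smul_eq_mul, Polynomial.eval_mul,
    Polynomial.eval_pow, Polynomial.eval_X]
  split_ifs
  · simp; ring
  · simp

lemma Ep_mul' [CharZero K] (M : Matrix σ σ K) (m : ℕ) (hM : M ^ (m + 1) = 0) :
    Ep (-M) m * Ep M m = (Polynomial.X : Polynomial K) ^ (2 * m) • 1 := by
  have h := Ep_mul (-M) m (by
    rw [neg_pow, hM, mul_zero])
  rwa [neg_neg] at h

/-- stability under the one parameter group `exp(tM)` -/
def StabN (M : Matrix σ σ K) (m : ℕ) (I : Ideal (MvPolynomial σ K)) : Prop :=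
  ∀ x ∈ cone I, ∀ t : K, (exK M m t).mulVec x ∈ cone I

lemma StabN.neg {M : Matrix σ σ K} {m : ℕ} {I : Ideal (MvPolynomial σ K)} (h : StabN M m I) :
    StabN (-M) m I := by
  intro x hx t
  rw [exK_neg]
  exact h x hx (-t)

lemma StabN.good {M : Matrix σ σ K} {m : ℕ} {I : Ideal (MvPolynomial σ K)} (h : StabN M m I)
    (hom : ∀ F ∈ I, ∀ d, homogeneousComponent d F ∈ I) : GoodB I (Ep M m) := by
  intro x hx t ht
  rw [Ep_eval M m t ht, Matrix.smul_mulVec]
  exact cone_smul I hom _ _ (h x hx _)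

/-- transport of conormal vectors by `exp(tM)` -/
lemma StabN.con [IsAlgClosed K] [CharZero K] {M : Matrix σ σ K} {m : ℕ}
    {I : Ideal (MvPolynomial σ K)} (hI : I.IsPrime) (hM : M ^ (m + 1) = 0) (h : StabN M m I)
    (x ξ : σ → K) (hξ : ξ ∈ conormal I x) (t : K) :
    (exK (-M) m t).transpose.mulVec ξ ∈ conormal I ((exK M m t).mulVec x) := by
  obtain ⟨G, hG, rfl⟩ := exists_grad I x ξ hξ
  have hmem : comp G (exK (-M) m t) ∈ I := by
    apply mem_of_vanish I hI
    intro y hy
    rw [eval_comp]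
    exact h.neg y hy t G hG
  have h1 := grad_mem I ((exK M m t).mulVec x) hmem
  have h2 : grad (comp G (exK (-M) m t)) ((exK M m t).mulVec x) =
      (exK (-M) m t).transpose.mulVec
        (grad G ((exK (-M) m t).mulVec ((exK M m t).mulVec x))) := gT_comp _ _ _
  rw [h2, Matrix.mulVec_mulVec, exK_neg_mul M m hM, Matrix.one_mulVec] at h1
  exact h1

end Pool.Agent.H929R2.Hart
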