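import Pool.Agent.H929R2.Hart.U3

set_option autoImplicit false
set_option maxHeartbeats 800000

namespace Pool.Agent.H929R2.Hart

open MvPolynomial

variable {σ : Type} [Fintype σ] [DecidableEq σ] {K : Type} [Field K]

/-- a nondegenerate smooth cone stable under the one parameter group of a nilpotent matrix -/
structure Nil (M : Matrix σ σ K) (m : ℕ) (I : Ideal (MvPolynomial σ K)) (r : ℕ) : Prop where
  sc : SCone I r
  nil : M ^ (m + 1) = 0
  ne : M ^ m ≠ 0
  pos : 1 ≤ m
  st : StabN M m I
  nd : Nondeg I

variable {M : Matrix σ σ K} {m : ℕ} {I : Ideal (MvPolynomial σ K)} {r : ℕ}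

omit [DecidableEq σ] in
lemma exists_grads (hI : SCone I r) (z : σ → K) (hz : z ∈ cone I) (hz0 : z ≠ 0) :
    ∃ F : Fin r → MvPolynomial σ K, (∀ i, F i ∈ I) ∧
      LinearIndependent K (fun i => grad (F i) z) ∧
      ∀ ξ ∈ conormal I z, ∃ c : Fin r → K, ξ = ∑ i, c i • grad (F i) z := by
  have hfin := hI.rank z hz hz0
  let b := Module.finBasisOfFinrankEq K (conormal I z) hfin
  choose F hF hbF using fun i => exists_grad I z (b i : σ → K) (b i).2
  refine ⟨F, hF, ?_, ?_⟩
  · have h1 : (fun i => grad (F i) z) = fun i => ((b i : conormal I z) : σ → K) := by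
      funext i; exact (hbF i).symm
    rw [h1]
    exact b.linearIndependent.map' (conormal I z).subtype (Submodule.ker_subtype _)
  · intro ξ hξ
    refine ⟨fun i => b.repr ⟨ξ, hξ⟩ i, ?_⟩
    have h1 := congrArg (fun v : conormal I z => (v : σ → K)) (b.sum_repr ⟨ξ, hξ⟩)
    simp only [Submodule.coe_sum, Submodule.coe_smul] at h1
    refine h1.symm.trans ?_
    exact Finset.sum_congr rfl (fun i _ => by rw [hbF i])

omit [DecidableEq σ] in
lemma at0_mulVec (B : Matrix σ σ (Polynomial K)) (P : σ → Polynomial K) :
    at0 (B.mulVec P) = (B.map (fun p => p.eval 0)).mulVec (at0 P) := eval_mulVec 0 B P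

omit [DecidableEq σ] in
lemma mulVec_polySmul (B : Matrix σ σ (Polynomial K)) (c : Polynomial K) (P : σ → Polynomial K) :
    B.mulVec (c • P) = c • B.mulVec P := Matrix.mulVec_smul _ _ _

/-- if `A s = X^(m+1) σ'` then `M^m s(0) = 0` -/
lemma top_zero [CharZero K] (s s' : σ → Polynomial K)
    (hs : (Ep M m).mulVec s = (Polynomial.X : Polynomial K) ^ (m + 1) • s') :
    (M ^ m).mulVec (at0 s) = 0 := by
  have h1 := congrArg at0 hs
  rw [at0_mulVec, Ep_zero, at0_smul, Polynomial.eval_pow, Polynomial.eval_X,
    zero_pow (Nat.succ_ne_zero m), zero_smul, Matrix.smul_mulVec] at h1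
  have h2 : ((m.factorial : K)⁻¹) ≠ 0 := inv_ne_zero (by exact_mod_cast m.factorial_ne_zero)
  exact (smul_eq_zero.1 h1).resolve_left h2

lemma gT_C_mul {A : Type} [CommRing A] (c : A) (Φ : MvPolynomial σ A) (P : σ → A) :
    gT (C c * Φ) P = c • gT Φ P := by
  rw [gT_mul, gT_C, smul_zero, zero_add, eval_C]

section Claim

/-- Cramer's rule for conormal vectors along the flow -/
lemma cramer [IsAlgClosed K] [CharZero K] (h : Nil M m I r) (y : σ → K) (hy : y ∈ cone I)
    (hy0 : y ≠ 0) (F : Fin r → MvPolynomial σ K) (hF : ∀ i, F i ∈ I) (W : Fin r → (σ → K))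
    (x : σ → Polynomial K) (hx : x = (Ep M m).mulVec (cv y))
    (N : Matrix (Fin r) (Fin r) (Polynomial K))
    (hN : ∀ i j, N i j = gT (io (F i)) x ⬝ᵥ cv (W j)) (hdet : N.det ≠ 0)
    (ξ : σ → K) (hξ : ξ ∈ conormal I y) :
    N.det • ((Ep (-M) m).transpose.mulVec (cv ξ)) =
      ∑ i, (∑ j, (((Ep (-M) m).transpose.mulVec (cv ξ)) ⬝ᵥ cv (W j)) * N.adjugate j i) •
        gT (io (F i)) x := by
  set f := (Ep (-M) m).transpose.mulVec (cv ξ) with hf
  set hh : Fin r → Polynomial K := fun i => ∑ j, (f ⬝ᵥ cv (W j)) * N.adjugate j i with hhh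
  set D : σ → Polynomial K := N.det • f - ∑ i, hh i • gT (io (F i)) x with hD
  have hDW : ∀ j, D ⬝ᵥ cv (W j) = 0 := by
    intro j
    rw [hD, sub_dotProduct, smul_dotProduct, sum_dotProduct]
    have h1 : ∑ i, (hh i • gT (io (F i)) x) ⬝ᵥ cv (W j) = ∑ i, hh i * N i j := by
      refine Finset.sum_congr rfl (fun i _ => ?_)
      rw [smul_dotProduct, hN, smul_eq_mul]
    rw [h1]
    have h2 : ∑ i, hh i * N i j = ∑ k, (f ⬝ᵥ cv (W k)) * (N.adjugate * N) k j := by
      simp only [hhh, Finset.sum_mul, Matrix.mul_apply, Finset.mul_sum]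
      rw [Finset.sum_comm]
      refine Finset.sum_congr rfl (fun k _ => Finset.sum_congr rfl (fun i _ => by ring))
    rw [h2, Matrix.adjugate_mul, Finset.sum_eq_single j]
    · rw [Matrix.smul_apply, Matrix.one_apply_eq, smul_eq_mul, smul_eq_mul]; ring
    · intro k _ hk
      rw [Matrix.smul_apply, Matrix.one_apply_ne hk, smul_zero, mul_zero]
    · intro h; exact absurd (Finset.mem_univ _) h
  have hD0 : D = 0 := by
    funext k
    have h1 : N.det * D k = 0 := by
      apply poly_eq_zero
      intro t ht
      rw [Polynomial.eval_mul]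
      by_cases hNt : N.det.eval t = 0
      · rw [hNt, zero_mul]
      have hE0 : (exK M m t⁻¹).mulVec y ≠ 0 := by
        intro h0
        apply hy0
        have := congrArg ((exK (-M) m t⁻¹).mulVec) h0
        rwa [Matrix.mulVec_mulVec, exK_neg_mul M m h.nil, Matrix.one_mulVec,
          Matrix.mulVec_zero] at this
      have hxt : (fun i => (x i).eval t) = t ^ m • (exK M m t⁻¹).mulVec y := by
        rw [hx, eval_mulVec, Ep_eval M m t ht, Matrix.smul_mulVec]
        congr 2
        funext i; simp [cv]
      have htm : t ^ m ≠ 0 := pow_ne_zero _ ht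
      have hx0 : (fun i => (x i).eval t) ≠ 0 := by
        rw [hxt]
        exact smul_ne_zero htm hE0
      have hxc : (fun i => (x i).eval t) ∈ cone I := by
        rw [hxt]
        exact cone_smul I h.sc.homog _ _ (h.st y hy _)
      have hgt : ∀ i, (fun k => (gT (io (F i)) x k).eval t) = grad (F i) (fun i => (x i).eval t) := by
        intro i
        funext k
        rw [gT, pderiv_io, eval_io_eval, grad]
      have hft : (fun k => (f k).eval t) ∈ conormal I (fun i => (x i).eval t) := by
        have h2 : (fun k => (f k).eval t) = t ^ m • (exK (-M) m t⁻¹).transpose.mulVec ξ := by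
          rw [hf, eval_mulVec]
          have h3 : (Ep (-M) m).transpose.map (fun p => p.eval t) =
              ((Ep (-M) m).map (fun p => p.eval t)).transpose := rfl
          have h4 : (fun i => (cv ξ i).eval t) = ξ := by funext i; simp [cv]
          rw [h3, Ep_eval (-M) m t ht, Matrix.transpose_smul, Matrix.smul_mulVec, h4]
        rw [h2, hxt, conormal_smul I h.sc.homog _ htm]
        exact Submodule.smul_mem _ _ (h.st.con h.sc.prime h.nil y ξ hξ _)
      set δ : σ → K := fun k => (D k).eval t with hδ
      have hδmem : δ ∈ conormal I (fun i => (x i).eval t) := by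
        have h2 : δ = N.det.eval t • (fun k => (f k).eval t) -
            ∑ i, (hh i).eval t • grad (F i) (fun i => (x i).eval t) := by
          funext k
          simp only [hδ, hD, Pi.sub_apply, Pi.smul_apply, smul_eq_mul, Finset.sum_apply,
            Polynomial.eval_sub, Polynomial.eval_mul, Polynomial.eval_finsetSum]
          congr 1
          refine Finset.sum_congr rfl (fun i _ => ?_)
          rw [← hgt i]
        rw [h2]
        exact Submodule.sub_mem _ (Submodule.smul_mem _ _ hft)
          (Submodule.sum_mem _ (fun i _ => Submodule.smul_mem _ _ (grad_mem I _ (hF i))))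
      have hNt' : ∀ i j, (N i j).eval t =
          dotB σ K (grad (F i) (fun i => (x i).eval t)) (W j) := by
        intro i j
        rw [hN, ← hgt i, dotB_apply, dotProduct, Polynomial.eval_finsetSum]
        refine Finset.sum_congr rfl (fun k _ => ?_)
        rw [Polynomial.eval_mul, cv, Polynomial.eval_C]
      set Nt : Matrix (Fin r) (Fin r) K := fun i j => (N i j).eval t with hNtdef
      have hNtdet : Nt.det ≠ 0 := by
        have h2 : Nt.det = N.det.eval t := by
          have h3 : N.det.eval t = (Polynomial.evalRingHom t) N.det := rfl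
          rw [h3, RingHom.map_det]
          rfl
        rw [h2]; exact hNt
      have hδW : ∀ j, dotB σ K δ (W j) = 0 := by
        intro j
        have h2 := congrArg (Polynomial.eval t) (hDW j)
        rw [dotProduct, Polynomial.eval_finsetSum, Polynomial.eval_zero] at h2
        rw [dotB_apply, ← h2]
        refine Finset.sum_congr rfl (fun k _ => ?_)
        rw [Polynomial.eval_mul, cv, Polynomial.eval_C]
      have hlin : LinearIndependent K (fun i => grad (F i) (fun i => (x i).eval t)) := by
        rw [Fintype.linearIndependent_iff]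
        intro g hg
        have h2 : Matrix.vecMul g Nt = 0 := by
          funext j
          have h3 := congrArg (fun φ => dotB σ K φ (W j)) hg
          simp only [map_sum, LinearMap.sum_apply, map_smul, LinearMap.smul_apply, map_zero,
            LinearMap.zero_apply, smul_eq_mul] at h3
          simp only [Matrix.vecMul, dotProduct, Pi.zero_apply, hNtdef]
          rw [← h3]
          exact Finset.sum_congr rfl (fun i _ => by rw [hNt'])
        by_contra hcon
        push Not at hcon
        obtain ⟨i, hi⟩ := hcon
        exact hNtdet (Matrix.exists_vecMul_eq_zero_iff.1 ⟨g, fun h => hi (congrFun h i), h2⟩)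
      have hr := h.sc.rank _ hxc hx0
      have hspan : δ ∈ Submodule.span K (Set.range (fun i => grad (F i) (fun i => (x i).eval t))) := by
        have h2 : Submodule.span K (Set.range (fun i => grad (F i) (fun i => (x i).eval t))) =
            conormal I (fun i => (x i).eval t) := by
          apply Submodule.eq_of_le_of_finrank_eq
          · rw [Submodule.span_le]
            rintro _ ⟨i, rfl⟩
            exact grad_mem I _ (hF i)
          · rw [finrank_span_eq_card hlin, Fintype.card_fin, hr]
        rw [h2]; exact hδmem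
      obtain ⟨g, hg⟩ := (Submodule.mem_span_range_iff_exists_fun K).1 hspan
      have hg0 : g = 0 := by
        by_contra hcon
        apply hNtdet
        refine Matrix.exists_vecMul_eq_zero_iff.1 ⟨g, hcon, ?_⟩
        funext j
        have h3 := hδW j
        rw [← hg] at h3
        simp only [map_sum, LinearMap.sum_apply, map_smul, LinearMap.smul_apply,
          smul_eq_mul] at h3
        simp only [Matrix.vecMul, dotProduct, Pi.zero_apply, hNtdef]
        rw [← h3]
        exact Finset.sum_congr rfl (fun i _ => by rw [hNt'])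
      have hδ0 : δ = 0 := by
        rw [← hg, hg0]; simp
      have := congrFun hδ0 k
      rw [hδ] at this
      have h5 : (D k).eval t = 0 := this
      rw [h5, mul_zero]
    exact (mul_eq_zero.1 h1).resolve_left hdet
  exact sub_eq_zero.1 hD0

end Claim

end Pool.Agent.H929R2.Hart
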