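import Pool.Agent.H929R2.Hart.U4

set_option autoImplicit false
set_option maxHeartbeats 800000

namespace Pool.Agent.H929R2.Hart

open MvPolynomial

variable {σ : Type} [Fintype σ] [DecidableEq σ] {K : Type} [Field K]

variable {M : Matrix σ σ K} {m : ℕ} {I : Ideal (MvPolynomial σ K)} {r : ℕ}

omit [Fintype σ] [DecidableEq σ] in
lemma smul_eq_C_smul (c : K) (P : σ → Polynomial K) : c • P = Polynomial.C c • P := by
  funext i
  rw [Pi.smul_apply, Pi.smul_apply, smul_eq_mul, Polynomial.smul_eq_C_mul]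

omit [Fintype σ] [DecidableEq σ] in
lemma at0_X_smul (k : ℕ) (hk : 0 < k) (P : σ → Polynomial K) :
    at0 ((Polynomial.X : Polynomial K) ^ k • P) = 0 := by
  rw [at0_smul, Polynomial.eval_pow, Polynomial.eval_X, zero_pow (by omega), zero_smul]

/-- the coefficients in Cramer's rule -/
noncomputable def hh (B : Matrix σ σ (Polynomial K)) (W : Fin r → (σ → K))
    (N : Matrix (Fin r) (Fin r) (Polynomial K)) (ξ : σ → K) (i : Fin r) : Polynomial K :=
  ∑ j, ((B.transpose.mulVec (cv ξ)) ⬝ᵥ cv (W j)) * N.adjugate j i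

omit [DecidableEq σ] in
lemma hh_add (B : Matrix σ σ (Polynomial K)) (W : Fin r → (σ → K))
    (N : Matrix (Fin r) (Fin r) (Polynomial K)) (ξ ξ' : σ → K) (i : Fin r) :
    hh B W N (ξ + ξ') i = hh B W N ξ i + hh B W N ξ' i := by
  rw [hh, hh, hh, ← Finset.sum_add_distrib]
  refine Finset.sum_congr rfl (fun j _ => ?_)
  rw [cv_add, Matrix.mulVec_add, add_dotProduct]
  ring

omit [DecidableEq σ] in
lemma hh_smul (B : Matrix σ σ (Polynomial K)) (W : Fin r → (σ → K))
    (N : Matrix (Fin r) (Fin r) (Polynomial K)) (c : K) (ξ : σ → K) (i : Fin r) :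
    hh B W N (c • ξ) i = Polynomial.C c * hh B W N ξ i := by
  rw [hh, hh, Finset.mul_sum]
  refine Finset.sum_congr rfl (fun j _ => ?_)
  rw [cv_smul, Matrix.mulVec_smul, smul_dotProduct, smul_eq_mul]
  ring

/-- the variation of the conormal vectors -/
noncomputable def kap (A B : Matrix σ σ (Polynomial K)) (F : Fin r → MvPolynomial σ K)
    (W : Fin r → (σ → K)) (x : σ → Polynomial K) (N : Matrix (Fin r) (Fin r) (Polynomial K)) :
    (σ → K) →ₗ[K] (σ → Polynomial K) →ₗ[K] (σ → Polynomial K) :=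
  LinearMap.mk₂ K (fun ξ Q => A.transpose.mulVec (∑ i, hh B W N ξ i • hT (io (F i)) x Q))
    (fun ξ ξ' Q => by
      rw [← Matrix.mulVec_add, ← Finset.sum_add_distrib]
      congr 1
      refine Finset.sum_congr rfl (fun i _ => ?_)
      rw [hh_add, add_smul])
    (fun c ξ Q => by
      rw [smul_eq_C_smul, ← Matrix.mulVec_smul, Finset.smul_sum]
      congr 1
      refine Finset.sum_congr rfl (fun i _ => ?_)
      rw [hh_smul, mul_smul])
    (fun ξ Q Q' => by
      rw [← Matrix.mulVec_add, ← Finset.sum_add_distrib]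
      congr 1
      refine Finset.sum_congr rfl (fun i _ => ?_)
      rw [hT_add, smul_add])
    (fun c ξ Q => by
      rw [smul_eq_C_smul, smul_eq_C_smul, ← Matrix.mulVec_smul, Finset.smul_sum]
      congr 1
      refine Finset.sum_congr rfl (fun i _ => ?_)
      rw [hT_smul, smul_comm])

lemma kap_apply (A B : Matrix σ σ (Polynomial K)) (F : Fin r → MvPolynomial σ K)
    (W : Fin r → (σ → K)) (x : σ → Polynomial K) (N : Matrix (Fin r) (Fin r) (Polynomial K))
    (ξ : σ → K) (Q : σ → Polynomial K) :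
    kap A B F W x N ξ Q = A.transpose.mulVec (∑ i, hh B W N ξ i • hT (io (F i)) x Q) := rfl

theorem core [IsAlgClosed K] [CharZero K] (h : Nil M m I r) (y : σ → K) (hy : y ∈ cone I)
    (hMy : (M ^ m).mulVec y ≠ 0) :
    ∃ κ : (σ → K) →ₗ[K] (σ → Polynomial K) →ₗ[K] (σ → Polynomial K),
      ∀ s s' : σ → Polynomial K, (∀ G ∈ I, cv (grad G y) ⬝ᵥ s = 0) →
        (Ep M m).mulVec s = (Polynomial.X : Polynomial K) ^ (m + 1) • s' →
        ∀ ε : K, y + ε • at0 s ∈ cone I ∧
          ∀ ξ ∈ conormal I y, ∀ (j : ℕ) (κ' : σ → Polynomial K),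
            κ ξ s' = (Polynomial.X : Polynomial K) ^ j • κ' →
            (j + 1 < m → ε • at0 κ' ∈ conormal I (y + ε • at0 s)) ∧
            (j + 1 = m → ξ + ε • at0 κ' ∈ conormal I (y + ε • at0 s)) := by
  classical
  have hy0 : y ≠ 0 := by
    rintro rfl
    rw [Matrix.mulVec_zero] at hMy
    exact hMy rfl
  set A := Ep M m with hA
  set B := Ep (-M) m with hB
  have hAB : A * B = (Polynomial.X : Polynomial K) ^ (2 * m) • 1 := Ep_mul M m h.nil
  have hBA : B * A = (Polynomial.X : Polynomial K) ^ (2 * m) • 1 := Ep_mul' M m h.nil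
  have hAg : GoodB I A := h.st.good h.sc.homog
  have hBg : GoodB I B := h.st.neg.good h.sc.homog
  set x := A.mulVec (cv y) with hx
  have hxI : ∀ G ∈ I, eval x (io G) = 0 := fun G hG => hAg.eval_zero y hy G hG
  set z := at0 x with hz
  have hfac : ((m.factorial : K)⁻¹) ≠ 0 := inv_ne_zero (by exact_mod_cast m.factorial_ne_zero)
  have hz' : z = ((m.factorial : K)⁻¹) • (M ^ m).mulVec y := by
    rw [hz, hx, at0_mulVec, hA, Ep_zero, at0_cv, Matrix.smul_mulVec]
  have hz0 : z ≠ 0 := by rw [hz']; exact smul_ne_zero hfac hMy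
  have hzc : z ∈ cone I := by
    intro G hG
    rw [hz, ← eval_io_zero, hxI G hG, Polynomial.eval_zero]
  obtain ⟨F, hF, hind, -⟩ := exists_grads h.sc z hzc hz0
  obtain ⟨W, hW⟩ := exists_dual_vectors _ hind
  let N : Matrix (Fin r) (Fin r) (Polynomial K) := fun i j => gT (io (F i)) x ⬝ᵥ cv (W j)
  have hN : ∀ i j, N i j = gT (io (F i)) x ⬝ᵥ cv (W j) := fun i j => rfl
  have hdet1 : N.det.eval 0 = 1 := by
    have h3 : N.det.eval 0 = (Polynomial.evalRingHom (0 : K)) N.det := rfl
    rw [h3, RingHom.map_det]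
    have h6 : (Polynomial.evalRingHom (0 : K)).mapMatrix N = 1 := by
      ext i j
      rw [Matrix.one_apply, ← hW i j]
      show Polynomial.eval 0 (gT (io (F i)) x ⬝ᵥ cv (W j)) = _
      rw [dot_at0, gT_io_at0, at0_cv]
    rw [h6, Matrix.det_one]
  have hdet : N.det ≠ 0 := by
    intro h0; rw [h0] at hdet1; simp at hdet1
  have hcr := fun ξ hξ => cramer h y hy hy0 F hF W x hx N hN hdet ξ hξ
  refine ⟨kap A B F W x N, fun s s' hs hAs ε => ?_⟩
  have hX0 : (Polynomial.X : Polynomial K) ^ (m + 1) ≠ 0 := pow_ne_zero _ Polynomial.X_ne_zero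
  -- tangency
  have htan : ∀ G ∈ I, gT (io G) x ⬝ᵥ s' = 0 := by
    intro G hG
    have h1 := gT_It_dot y hy s hs _ (hAg.comp_mem h.sc.prime G hG)
    rw [gT_comp, ← hx, Matrix.mulVec_transpose, ← Matrix.dotProduct_mulVec, hAs,
      dotProduct_smul, smul_eq_mul] at h1
    exact (mul_eq_zero.1 h1).resolve_left hX0
  set p := y + ε • at0 s with hp
  have hMp : (M ^ m).mulVec p = (M ^ m).mulVec y := by
    rw [hp, Matrix.mulVec_add, Matrix.mulVec_smul, top_zero s s' hAs, smul_zero, add_zero]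
  have hp0 : p ≠ 0 := by
    intro h0
    rw [h0, Matrix.mulVec_zero] at hMp
    exact hMy hMp.symm
  -- the arc near z
  set ce : σ → Polynomial K :=
    x + (Polynomial.X : Polynomial K) ^ (m + 1) • (Polynomial.C ε • s') with hce
  have hce0 : at0 ce = z := by
    rw [hce, at0_add, at0_smul, Polynomial.eval_pow, Polynomial.eval_X,
      zero_pow (Nat.succ_ne_zero m), zero_smul, add_zero]
  have hdiv : ∀ i, (Polynomial.X : Polynomial K) ^ (2 * m + 2) ∣ eval ce (io (F i)) := by
    intro i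
    obtain ⟨R, hR⟩ := taylor1 (io (F i)) x (Polynomial.C ε • s')
      ((Polynomial.X : Polynomial K) ^ (m + 1))
    rw [hce, hR, hxI _ (hF i), dotProduct_smul, htan _ (hF i), smul_zero, mul_zero, zero_add,
      zero_add, ← pow_mul]
    have : (m + 1) * 2 = 2 * m + 2 := by ring
    rw [this]
    exact Dvd.intro _ rfl
  obtain ⟨ρ, hρI⟩ : ∃ ρ : ℕ → σ → Polynomial K, ∀ l, ∀ G ∈ I, (Polynomial.X : Polynomial K) ^ l ∣
      eval (ce + (Polynomial.X : Polynomial K) ^ (2 * m + 2) • ρ l) (io G) := by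
    obtain ⟨a, ha⟩ := exists_arc h.sc z hzc hz0 F hF hind W hW ce hce0 (2 * m + 2) (by omega) hdiv
    exact ⟨fun l => ∑ j, a l j • cv (W j), ha⟩
  set v : ℕ → σ → Polynomial K := fun l =>
    ce + (Polynomial.X : Polynomial K) ^ (2 * m + 2) • ρ l with hv
  have hvI : ∀ l, ∀ G ∈ I, (Polynomial.X : Polynomial K) ^ l ∣ eval (v l) (io G) := hρI
  set P : ℕ → σ → Polynomial K := fun l =>
    cv y + (Polynomial.C ε • s + (Polynomial.X : Polynomial K) ^ 2 • B.mulVec (ρ l)) with hP
  have hAP : ∀ l, A.mulVec (P l) = v l := by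
    intro l
    simp only [hP, hv, hce]
    rw [Matrix.mulVec_add, Matrix.mulVec_add, mulVec_polySmul, mulVec_polySmul,
      Matrix.mulVec_mulVec, hAB, hAs, Matrix.smul_mulVec, Matrix.one_mulVec, ← hx, smul_smul,
      smul_smul, smul_smul, mul_comm (Polynomial.C ε), ← pow_add, add_assoc, add_comm 2 (2 * m)]
  have hBv : ∀ l, B.mulVec (v l) = (Polynomial.X : Polynomial K) ^ (2 * m) • P l := by
    intro l
    rw [← hAP l, Matrix.mulVec_mulVec, hBA, Matrix.smul_mulVec, Matrix.one_mulVec]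
  have hPp : ∀ l, at0 (P l) = p := by
    intro l
    simp only [hP]
    rw [at0_add, at0_add, at0_cv, at0_smul, at0_smul, Polynomial.eval_C, Polynomial.eval_pow,
      Polynomial.eval_X, zero_pow two_ne_zero, zero_smul, add_zero]
  have hPI := transport h.sc.prime h.sc.homog hBg v P (2 * m) hvI hBv
  have hlim := fun Ψ hΨ l ξ hξ ξ0 h0 => limit_con h.sc p hp0 P hPp hPI Ψ hΨ l ξ hξ ξ0 h0
  refine ⟨(hlim 0 (Submodule.zero_mem _) 0 (fun _ => 0) (fun k => by
    rw [gT_zero, smul_zero]) 0 (fun k => by funext i; simp [at0])).1, ?_⟩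
  intro ξ hξ j κ' hκ
  set H := hh B W N ξ with hH
  set Ψ : MvPolynomial σ (Polynomial K) := ∑ i, C (H i) * comp (io (F i)) A with hΨ
  have hΨI : Ψ ∈ It I := Ideal.sum_mem _ (fun i _ => Ideal.mul_mem_left _ _
    (hAg.comp_mem h.sc.prime _ (hF i)))
  -- expansion of the gradient
  have hvx : ∀ l, v l = x + (Polynomial.X : Polynomial K) ^ (m + 1) •
      (Polynomial.C ε • s' + (Polynomial.X : Polynomial K) ^ (m + 1) • ρ l) := by
    intro l
    simp only [hv, hce]
    rw [smul_add, smul_smul ((Polynomial.X : Polynomial K) ^ (m + 1))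
      ((Polynomial.X : Polynomial K) ^ (m + 1)), ← pow_add, ← add_assoc,
      show m + 1 + (m + 1) = 2 * m + 2 by ring]
  choose R hR using fun (l : ℕ) (i : Fin r) => taylor2 (io (F i)) x
    (Polynomial.C ε • s' + (Polynomial.X : Polynomial K) ^ (m + 1) • ρ l)
    ((Polynomial.X : Polynomial K) ^ (m + 1))
  obtain ⟨R', hexp⟩ : ∃ R' : ℕ → σ → Polynomial K, ∀ l, gT Ψ (P l) =
      (Polynomial.X : Polynomial K) ^ (2 * m) • (N.det • cv ξ) +
      (Polynomial.X : Polynomial K) ^ (m + 1) • (Polynomial.C ε • kap A B F W x N ξ s') +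
      (Polynomial.X : Polynomial K) ^ (2 * m + 2) • R' l := by
    refine ⟨fun l => kap A B F W x N ξ (ρ l) + A.transpose.mulVec (∑ i, H i • R l i), fun l => ?_⟩
    have e1 : gT Ψ (P l) = A.transpose.mulVec (∑ i, H i • gT (io (F i)) (v l)) := by
      rw [hΨ, gT_sum, Matrix.mulVec_sum]
      refine Finset.sum_congr rfl (fun i _ => ?_)
      rw [gT_C_mul, gT_comp, hAP l, Matrix.mulVec_smul]
    have e2 : ∑ i, H i • gT (io (F i)) (v l) =
        N.det • B.transpose.mulVec (cv ξ) +
        (Polynomial.X : Polynomial K) ^ (m + 1) • (∑ i, H i • hT (io (F i)) x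
          (Polynomial.C ε • s' + (Polynomial.X : Polynomial K) ^ (m + 1) • ρ l)) +
        (Polynomial.X : Polynomial K) ^ (2 * m + 2) • ∑ i, H i • R l i := by
      rw [hcr ξ hξ, Finset.smul_sum, Finset.smul_sum, ← Finset.sum_add_distrib,
        ← Finset.sum_add_distrib]
      refine Finset.sum_congr rfl (fun i _ => ?_)
      have e3 : gT (io (F i)) (v l) = gT (io (F i)) x + (Polynomial.X : Polynomial K) ^ (m + 1) •
          hT (io (F i)) x (Polynomial.C ε • s' + (Polynomial.X : Polynomial K) ^ (m + 1) • ρ l) +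
          ((Polynomial.X : Polynomial K) ^ (m + 1)) ^ 2 • R l i := by rw [hvx l]; exact hR l i
      rw [e3, smul_add, smul_add, ← pow_mul, show (m + 1) * 2 = 2 * m + 2 by ring]
      rw [smul_comm (H i) ((Polynomial.X : Polynomial K) ^ (m + 1)),
        smul_comm (H i) ((Polynomial.X : Polynomial K) ^ (2 * m + 2))]
      rfl
    have e4 : A.transpose.mulVec (∑ i, H i • hT (io (F i)) x
          (Polynomial.C ε • s' + (Polynomial.X : Polynomial K) ^ (m + 1) • ρ l)) =
        Polynomial.C ε • kap A B F W x N ξ s' +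
          (Polynomial.X : Polynomial K) ^ (m + 1) • kap A B F W x N ξ (ρ l) := by
      rw [kap_apply, kap_apply, ← Matrix.mulVec_smul, ← Matrix.mulVec_smul, ← Matrix.mulVec_add,
        Finset.smul_sum, Finset.smul_sum, ← Finset.sum_add_distrib]
      congr 1
      refine Finset.sum_congr rfl (fun i _ => ?_)
      rw [hT_add, hT_smul, hT_smul, smul_add, smul_comm (H i) (Polynomial.C ε),
        smul_comm (H i) ((Polynomial.X : Polynomial K) ^ (m + 1))]
    rw [e1, e2, Matrix.mulVec_add, Matrix.mulVec_add, Matrix.mulVec_smul, Matrix.mulVec_smul,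
      Matrix.mulVec_smul, Matrix.mulVec_mulVec, ← Matrix.transpose_mul, hBA, e4]
    have e5 : ((Polynomial.X : Polynomial K) ^ (2 * m) • (1 : Matrix σ σ (Polynomial K))).transpose.mulVec
        (cv ξ) = (Polynomial.X : Polynomial K) ^ (2 * m) • cv ξ := by
      rw [Matrix.transpose_smul, Matrix.transpose_one, Matrix.smul_mulVec, Matrix.one_mulVec]
    rw [e5, smul_comm N.det, smul_add, smul_add, smul_smul ((Polynomial.X : Polynomial K) ^ (m + 1))
      ((Polynomial.X : Polynomial K) ^ (m + 1)), ← pow_add,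
      show m + 1 + (m + 1) = 2 * m + 2 by ring]
    abel
  constructor
  · intro hj
    have e1 : ∀ l, gT Ψ (P l) = (Polynomial.X : Polynomial K) ^ (m + 1 + j) •
        (Polynomial.C ε • κ' + ((Polynomial.X : Polynomial K) ^ (m - 1 - j) • (N.det • cv ξ) +
          (Polynomial.X : Polynomial K) ^ (m + 1 - j) • R' l)) := by
      intro l
      have f1 : (Polynomial.X : Polynomial K) ^ (2 * m) =
          Polynomial.X ^ (m + 1 + j) * Polynomial.X ^ (m - 1 - j) := by
        rw [← pow_add]; congr 1; omega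
      have f2 : (Polynomial.X : Polynomial K) ^ (2 * m + 2) =
          Polynomial.X ^ (m + 1 + j) * Polynomial.X ^ (m + 1 - j) := by
        rw [← pow_add]; congr 1; omega
      rw [hexp l, hκ, f1, f2, mul_smul, mul_smul, smul_add, smul_add, smul_comm (Polynomial.C ε),
        pow_add _ (m + 1) j]
      simp only [mul_smul]
      abel
    refine (hlim Ψ hΨI _ _ e1 _ (fun l => ?_)).2
    rw [at0_add, at0_add, at0_X_smul _ (by omega), at0_X_smul _ (by omega), at0_smul,
      Polynomial.eval_C, add_zero, add_zero]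
  · intro hj
    have e1 : ∀ l, gT Ψ (P l) = (Polynomial.X : Polynomial K) ^ (2 * m) •
        (N.det • cv ξ + Polynomial.C ε • κ' + (Polynomial.X : Polynomial K) ^ 2 • R' l) := by
      intro l
      rw [hexp l, hκ, smul_add, smul_add, smul_smul _ _ (R' l), ← pow_add,
        smul_comm (Polynomial.C ε), smul_smul ((Polynomial.X : Polynomial K) ^ (m + 1)), ← pow_add,
        show m + 1 + j = 2 * m by omega]
    refine (hlim Ψ hΨI _ _ e1 _ (fun l => ?_)).2
    rw [at0_add, at0_add, at0_X_smul _ two_pos, at0_smul, at0_smul, Polynomial.eval_C,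
      add_zero, hdet1, one_smul, at0_cv]

end Pool.Agent.H929R2.Hart
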