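import Pool.Agent.H929R2.Hart.U5

set_option autoImplicit false
set_option maxHeartbeats 400000

namespace Pool.Agent.H929R2.Hart

open MvPolynomial

variable {σ : Type} [Fintype σ] [DecidableEq σ] {K : Type} [Field K]

variable {M : Matrix σ σ K} {m : ℕ} {I : Ideal (MvPolynomial σ K)} {r : ℕ}

omit [Fintype σ] [DecidableEq σ] in
lemma at0_Ksmul (c : K) (P : σ → Polynomial K) : at0 (c • P) = c • at0 P := by
  funext i; simp [at0]

/-- value at zero as a linear map -/
noncomputable def at0L : (σ → Polynomial K) →ₗ[K] (σ → K) where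
  toFun := at0
  map_add' := at0_add
  map_smul' := fun c P => at0_Ksmul c P

omit [Fintype σ] [DecidableEq σ] in
lemma at0L_apply (P : σ → Polynomial K) : at0L P = at0 P := rfl

/-- the vectors `s(0)` where `exp(M/τ) s(τ)` vanishes at `τ = 0` -/
def WW (M : Matrix σ σ K) (m : ℕ) : Submodule K (σ → K) where
  carrier := {a | ∃ s s' : σ → Polynomial K, at0 s = a ∧
    (Ep M m).mulVec s = (Polynomial.X : Polynomial K) ^ (m + 1) • s'}
  zero_mem' := ⟨0, 0, by funext i; simp [at0], by rw [Matrix.mulVec_zero, smul_zero]⟩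
  add_mem' := by
    rintro _ _ ⟨s, s', rfl, h⟩ ⟨t, t', rfl, h'⟩
    exact ⟨s + t, s' + t', at0_add _ _, by rw [Matrix.mulVec_add, h, h', smul_add]⟩
  smul_mem' := by
    rintro c _ ⟨s, s', rfl, h⟩
    refine ⟨Polynomial.C c • s, Polynomial.C c • s', ?_, ?_⟩
    · rw [at0_smul, Polynomial.eval_C]
    · rw [Matrix.mulVec_smul, h, smul_comm]

/-- tangential arcs with value in `WW` -/
def LY (M : Matrix σ σ K) (m : ℕ) (I : Ideal (MvPolynomial σ K)) (y : σ → K) :
    Submodule K ((σ → Polynomial K) × (σ → Polynomial K)) where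
  carrier := {q | (∀ G ∈ I, cv (grad G y) ⬝ᵥ q.1 = 0) ∧
    (Ep M m).mulVec q.1 = (Polynomial.X : Polynomial K) ^ (m + 1) • q.2}
  zero_mem' := ⟨fun G _ => by
    show cv (grad G y) ⬝ᵥ (0 : σ → Polynomial K) = 0
    rw [dotProduct_zero], by
    show (Ep M m).mulVec (0 : σ → Polynomial K) = _ • (0 : σ → Polynomial K)
    rw [Matrix.mulVec_zero, smul_zero]⟩
  add_mem' := by
    rintro q q' ⟨h1, h2⟩ ⟨h1', h2'⟩
    refine ⟨fun G hG => ?_, ?_⟩
    · show cv (grad G y) ⬝ᵥ (q.1 + q'.1) = 0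
      rw [dotProduct_add, h1 G hG, h1' G hG, add_zero]
    · show (Ep M m).mulVec (q.1 + q'.1) = _ • (q.2 + q'.2)
      rw [Matrix.mulVec_add, h2, h2', smul_add]
  smul_mem' := by
    rintro c q ⟨h1, h2⟩
    refine ⟨fun G hG => ?_, ?_⟩
    · show cv (grad G y) ⬝ᵥ (c • q.1) = 0
      rw [smul_eq_C_smul, dotProduct_smul, h1 G hG, smul_zero]
    · show (Ep M m).mulVec (c • q.1) = _ • (c • q.2)
      rw [smul_eq_C_smul, smul_eq_C_smul, Matrix.mulVec_smul, h2, smul_comm]

omit [Fintype σ] [DecidableEq σ] in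
lemma div_coeff (P : σ → Polynomial K) (j : ℕ) (h : ∀ i < j, ∀ k, (P k).coeff i = 0) :
    ∃ P' : σ → Polynomial K, P = (Polynomial.X : Polynomial K) ^ j • P' ∧
      at0 P' = fun k => (P k).coeff j := by
  have h1 : ∀ k, (Polynomial.X : Polynomial K) ^ j ∣ P k := by
    intro k
    rw [Polynomial.X_pow_dvd_iff]
    intro i hi
    exact h i hi k
  choose P' hP' using h1
  refine ⟨P', ?_, ?_⟩
  · funext k
    exact hP' k
  · funext k
    rw [at0, hP' k]
    have := Polynomial.coeff_X_pow_mul (P' k) j 0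
    rw [zero_add] at this
    rw [this, Polynomial.coeff_zero_eq_eval_zero]

omit [Fintype σ] [DecidableEq σ] in
lemma exists_prim {ι : Type} (g : ι → Polynomial K) (hg : g ≠ 0) :
    ∃ (k : ℕ) (g' : ι → Polynomial K), g = (Polynomial.X : Polynomial K) ^ k • g' ∧ at0 g' ≠ 0 := by
  classical
  have hex : ∃ n, ∃ i, (g i).coeff n ≠ 0 := by
    by_contra hcon
    push Not at hcon
    apply hg
    funext i
    ext n
    rw [hcon n i]; simp
  obtain ⟨g', hg', h0⟩ := div_coeff g (Nat.find hex) (fun i hi k => by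
    have := Nat.find_min hex hi
    push Not at this
    exact this k)
  refine ⟨Nat.find hex, g', hg', ?_⟩
  rw [h0]
  intro h1
  obtain ⟨i, hi⟩ := Nat.find_spec hex
  exact hi (congrFun h1 i)

omit [Fintype σ] [DecidableEq σ] in
lemma lin_sys (Q : Fin r → Fin (r + 1) → Polynomial K) :
    ∃ g : Fin (r + 1) → Polynomial K, at0 g ≠ 0 ∧ ∀ k, ∑ i, Q k i * g i = 0 := by
  classical
  let Q' : Matrix (Fin (r + 1)) (Fin (r + 1)) (Polynomial K) := Fin.cons (fun _ => 0) Q
  have hdet : Q'.det = 0 := Matrix.det_eq_zero_of_row_eq_zero 0 (fun j => rfl)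
  obtain ⟨g, hg, hg2⟩ := Matrix.exists_mulVec_eq_zero_iff.2 hdet
  obtain ⟨k, g', rfl, h0⟩ := exists_prim g hg
  refine ⟨g', h0, fun l => ?_⟩
  have h1 := congrFun hg2 l.succ
  rw [Matrix.mulVec_smul, Pi.smul_apply, Pi.zero_apply, smul_eq_mul] at h1
  have h2 := (mul_eq_zero.1 h1).resolve_left (pow_ne_zero _ Polynomial.X_ne_zero)
  exact h2

theorem meet [IsAlgClosed K] [CharZero K] (h : Nil M m I r) (y : σ → K) (hy : y ∈ cone I)
    (hy0 : y ≠ 0) (A : Submodule K (σ → K)) (hA : A ≤ WW M m)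
    (hr : r + 1 ≤ Module.finrank K A) : ∃ q ∈ LY M m I y, at0 q.1 ∈ A ∧ at0 q.1 ≠ 0 := by
  classical
  let b := Module.finBasis K A
  let a : Fin (r + 1) → A := fun i => b (Fin.castLE hr i)
  have ha : LinearIndependent K a := b.linearIndependent.comp _ (Fin.castLE_injective hr)
  choose s s' hs hs' using fun i => hA (a i).2
  obtain ⟨F, hF, hind, hspan⟩ := exists_grads h.sc y hy hy0
  obtain ⟨g, hg0, hg⟩ := lin_sys (r := r) (fun k i => cv (grad (F k) y) ⬝ᵥ s i)
  have hval : at0 (∑ i, g i • s i) = ∑ i, (g i).eval 0 • ((a i : A) : σ → K) := by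
    rw [at0_sum]
    refine Finset.sum_congr rfl (fun i _ => ?_)
    rw [at0_smul, hs i]
  refine ⟨(∑ i, g i • s i, ∑ i, g i • s' i), ⟨fun G hG => ?_, ?_⟩, ?_, ?_⟩
  · obtain ⟨c, hc⟩ := hspan _ (grad_mem I y hG)
    show cv (grad G y) ⬝ᵥ (∑ i, g i • s i) = 0
    have h1 : cv (grad G y) = ∑ k, Polynomial.C (c k) • cv (grad (F k) y) := by
      rw [hc]
      funext i
      simp [cv, Finset.sum_apply, map_sum]
    rw [h1, sum_dotProduct]
    refine Finset.sum_eq_zero (fun k _ => ?_)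
    rw [smul_dotProduct, dotProduct_sum]
    have h2 : ∑ i, cv (grad (F k) y) ⬝ᵥ (g i • s i) = 0 := by
      rw [← hg k]
      refine Finset.sum_congr rfl (fun i _ => ?_)
      rw [dotProduct_smul, smul_eq_mul, mul_comm]
    rw [h2, smul_zero]
  · show (Ep M m).mulVec (∑ i, g i • s i) = _ • (∑ i, g i • s' i)
    rw [Matrix.mulVec_sum, Finset.smul_sum]
    refine Finset.sum_congr rfl (fun i _ => ?_)
    rw [Matrix.mulVec_smul, hs' i, smul_comm]
  · show at0 (∑ i, g i • s i) ∈ A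
    rw [hval]
    exact A.sum_mem (fun i _ => A.smul_mem _ (a i).2)
  · show at0 (∑ i, g i • s i) ≠ 0
    rw [hval]
    intro h0
    apply hg0
    have h1 : ∑ i, (g i).eval 0 • a i = 0 := by
      ext1
      simpa using h0
    funext i
    exact Fintype.linearIndependent_iff.1 ha _ h1 i

omit [DecidableEq σ] in
lemma finrank_of_meet {B W : Submodule K (σ → K)} (hB : B ≤ W)
    (h : ∀ A ≤ W, r + 1 ≤ Module.finrank K A → ∃ b ∈ A, b ∈ B ∧ b ≠ 0) :
    Module.finrank K W ≤ Module.finrank K B + r := by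
  by_contra hcon
  push Not at hcon
  obtain ⟨A', hA'⟩ := (B.comap W.subtype).exists_isCompl
  have h1 := Submodule.finrank_add_eq_of_isCompl hA'
  have h2 : Module.finrank K (B.comap W.subtype) = Module.finrank K B := by
    have h3 := Submodule.finrank_map_subtype_eq W (B.comap W.subtype)
    rw [Submodule.map_comap_subtype, inf_eq_right.2 hB] at h3
    exact h3.symm
  have h4 := Submodule.finrank_map_subtype_eq W A'
  obtain ⟨b, hbA, hbB, hb0⟩ := h (A'.map W.subtype) (Submodule.map_subtype_le W A') (by omega)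
  obtain ⟨b', hb', rfl⟩ := hbA
  have h5 : b' ∈ (B.comap W.subtype) ⊓ A' := ⟨hbB, hb'⟩
  rw [hA'.inf_eq_bot] at h5
  apply hb0
  rw [(Submodule.mem_bot K).1 h5]
  rfl

/-- the linear form with coefficients `c` vanishes at `x` -/
lemma nondeg_of_top [IsAlgClosed K] [CharZero K] (h : Nil M m I r) (c : σ → K)
    (hc : ∀ y ∈ cone I, (M ^ m).mulVec y ≠ 0 → dotB σ K c y = 0) : c = 0 := by
  by_contra hne
  have hev : ∀ (u y : σ → K), eval y (∑ l, MvPolynomial.C (u l) * X l) = dotB σ K u y := by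
    intro u y
    rw [map_sum, dotB_apply]
    exact Finset.sum_congr rfl (fun i _ => by simp)
  apply h.ne
  ext i j
  have h1 : (∑ l, MvPolynomial.C ((M ^ m) i l) * X l : MvPolynomial σ K) *
      (∑ l, MvPolynomial.C (c l) * X l) ∈ I := by
    apply mem_of_vanish I h.sc.prime
    intro y hy
    rw [map_mul, hev, hev]
    by_cases hMy : (M ^ m).mulVec y = 0
    · have h2 := congrFun hMy i
      have h3 : dotB σ K ((M ^ m) i) y = 0 := by
        rw [dotB_apply]; exact h2
      rw [h3, zero_mul]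
    · rw [hc y hy hMy, mul_zero]
  rcases h.sc.prime.mem_or_mem h1 with h2 | h2
  · have := h.nd _ h2
    rw [congrFun this j]; rfl
  · exact absurd (h.nd _ h2) hne

theorem zak [IsAlgClosed K] [CharZero K] (h : Nil M m I r) (c : σ → K)
    (A : Submodule K (σ → K)) (hA : A ≤ WW M m) (hr : r + 1 ≤ Module.finrank K A)
    (hc : ∀ b ∈ A, b ≠ 0 → c ∈ conormal I b) : c = 0 := by
  apply nondeg_of_top h
  intro y hy hMy
  have hy0 : y ≠ 0 := by
    rintro rfl
    rw [Matrix.mulVec_zero] at hMy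
    exact hMy rfl
  obtain ⟨q, hq, hqA, hq0⟩ := meet h y hy hy0 A hA hr
  obtain ⟨κ, hκ⟩ := core h y hy hMy
  have hline := fun ε => (hκ q.1 q.2 hq.1 hq.2 ε).1
  have h5 : y ∈ tangent I (at0 q.1) := by
    apply (cone_of_line I (at0 q.1) y _).2
    intro t ht
    have h6 : at0 q.1 + t • y = t • (y + t⁻¹ • at0 q.1) := by
      rw [smul_add, smul_smul, mul_inv_cancel₀ ht, one_smul, add_comm]
    rw [h6]
    exact cone_smul I h.sc.homog _ _ (hline _)
  exact tangent_conormal I _ (hc _ hqA hq0) h5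

/-- The flat structure at a general point. -/
theorem exists_flat [IsAlgClosed K] [CharZero K] (h : Nil M m I r)
    (hW : 3 * r + 1 ≤ Module.finrank K (WW M m)) (y : σ → K) (hy : y ∈ cone I)
    (hMy : (M ^ m).mulVec y ≠ 0) :
    ∃ B ≤ WW M m, Module.finrank K (WW M m) ≤ Module.finrank K B + r ∧
      ∃ lam : (σ → K) →ₗ[K] (σ → K) →ₗ[K] (σ → K), ∀ b ∈ B, y + b ∈ cone I ∧
        ∀ ξ ∈ conormal I y, ξ + lam ξ b ∈ conormal I (y + b) := by
  classical
  have hy0 : y ≠ 0 := by
    rintro rfl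
    rw [Matrix.mulVec_zero] at hMy
    exact hMy rfl
  obtain ⟨κ, hκ⟩ := core h y hy hMy
  let f : LY M m I y →ₗ[K] (σ → K) :=
    at0L.comp ((LinearMap.fst K _ _).comp (LY M m I y).subtype)
  set B := LinearMap.range f with hB
  have hBW : B ≤ WW M m := by
    rintro _ ⟨q, rfl⟩
    exact ⟨q.1.1, q.1.2, rfl, q.2.2⟩
  have hBr : Module.finrank K (WW M m) ≤ Module.finrank K B + r := by
    apply finrank_of_meet hBW
    intro A hA hr
    obtain ⟨q, hq, hqA, hq0⟩ := meet h y hy hy0 A hA hr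
    exact ⟨at0 q.1, hqA, ⟨⟨q, hq⟩, rfl⟩, hq0⟩
  obtain ⟨S, hS⟩ := LinearMap.exists_rightInverse_of_surjective f.rangeRestrict
    (LinearMap.range_eq_top.2 f.surjective_rangeRestrict)
  have hSb : ∀ b : B, at0 (S b).1.1 = b := by
    intro b
    have := congrArg Subtype.val (LinearMap.congr_fun hS b)
    exact this
  let s2 : B →ₗ[K] (σ → Polynomial K) := (LinearMap.snd K _ _).comp ((LY M m I y).subtype.comp S)
  let cL : ℕ → (σ → Polynomial K) →ₗ[K] (σ → K) := fun j =>
    LinearMap.pi (fun k => (Polynomial.lcoeff K j).comp (LinearMap.proj k))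
  have hcore : ∀ (b : B) (ε : K), y + ε • (b : σ → K) ∈ cone I ∧
      ∀ ξ ∈ conormal I y, ∀ (j : ℕ) (κ' : σ → Polynomial K),
        κ ξ (s2 b) = (Polynomial.X : Polynomial K) ^ j • κ' →
        (j + 1 < m → ε • at0 κ' ∈ conormal I (y + ε • (b : σ → K))) ∧
        (j + 1 = m → ξ + ε • at0 κ' ∈ conormal I (y + ε • (b : σ → K))) := by
    intro b ε
    have := hκ (S b).1.1 (S b).1.2 (S b).2.1 (S b).2.2 ε
    rw [hSb] at this
    exact this
  have hvan : ∀ j, j + 1 < m → ∀ ξ ∈ conormal I y, ∀ b : B, cL j (κ ξ (s2 b)) = 0 := by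
    intro j
    induction j using Nat.strong_induction_on with
    | _ j ih =>
    intro hj ξ hξ
    let T : B →ₗ[K] (σ → K) := (cL j).comp ((κ ξ).comp s2)
    have hT : ∀ b, T b = cL j (κ ξ (s2 b)) := fun b => rfl
    have hTc : ∀ (b : B) (ε : K), ε ≠ 0 → T b ∈ conormal I (y + ε • (b : σ → K)) := by
      intro b ε hε
      obtain ⟨κ', hκ1, hκ2⟩ := div_coeff (κ ξ (s2 b)) j (fun i hi k => by
        have := congrFun (ih i hi (by omega) ξ hξ b) k
        exact this)
      have h1 := ((hcore b ε).2 ξ hξ j κ' hκ1).1 hj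
      rw [hκ2, Submodule.smul_mem_iff _ hε] at h1
      exact h1
    have hTy : ∀ b : B, T b ∈ conormal I y := by
      intro b
      apply conormal_closed I r h.sc.rank y (b : σ → K) hy0 _ 0
      intro t ht
      refine ⟨(hcore b t).1, ?_⟩
      rw [smul_zero, add_zero]
      exact hTc b t ht
    by_contra hcon
    push Not at hcon
    obtain ⟨b1, hb1⟩ := hcon
    rw [← hT] at hb1
    apply hb1
    have hrank : Module.finrank K B ≤ Module.finrank K (LinearMap.ker T) + r := by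
      have h1 := LinearMap.finrank_range_add_finrank_ker T
      have h2 : Module.finrank K (LinearMap.range T) ≤ r := by
        rw [← h.sc.rank y hy hy0]
        apply Submodule.finrank_mono
        rintro _ ⟨b, rfl⟩
        exact hTy b
      omega
    have h4 := Submodule.finrank_map_subtype_eq B (LinearMap.ker T)
    apply zak h (T b1) ((LinearMap.ker T).map B.subtype)
      ((Submodule.map_subtype_le B _).trans hBW) (by omega)
    rintro _ ⟨b, hb, rfl⟩ hb0
    have hb0' : (b : σ → K) ≠ 0 := hb0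
    show T b1 ∈ conormal I (b : σ → K)
    apply conormal_closed I r h.sc.rank (b : σ → K) (y + (b1 : σ → K)) hb0' _ 0
    intro t ht
    have h6 : (b : σ → K) + t • (y + (b1 : σ → K)) =
        t • (y + (1 : K) • ((b1 + t⁻¹ • b : B) : σ → K)) := by
      rw [one_smul, Submodule.coe_add, Submodule.coe_smul, smul_add, smul_add, smul_add, smul_smul,
        mul_inv_cancel₀ ht, one_smul]
      abel
    rw [h6, conormal_smul I h.sc.homog t ht, smul_zero, add_zero]
    refine ⟨cone_smul I h.sc.homog _ _ (hcore _ 1).1, ?_⟩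
    have h7 := hTc (b1 + t⁻¹ • b) 1 one_ne_zero
    rwa [map_add, map_smul, LinearMap.mem_ker.1 hb, smul_zero, add_zero] at h7
  obtain ⟨π, hπ⟩ := LinearMap.exists_leftInverse_of_injective B.subtype (by
    rw [Submodule.ker_subtype])
  have hπb : ∀ b : B, π (b : σ → K) = b := fun b => LinearMap.congr_fun hπ b
  refine ⟨B, hBW, hBr, (κ.compl₂ (s2.comp π)).compr₂ (cL (m - 1)), fun b hb => ?_⟩
  have h0 := hcore ⟨b, hb⟩ 1
  rw [one_smul] at h0
  refine ⟨h0.1, fun ξ hξ => ?_⟩
  obtain ⟨κ', hκ1, hκ2⟩ := div_coeff (κ ξ (s2 ⟨b, hb⟩)) (m - 1) (fun i hi k => by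
    have := congrFun (hvan i (by omega) ξ hξ ⟨b, hb⟩) k
    exact this)
  have hpos := h.pos
  have h1 := (h0.2 ξ hξ (m - 1) κ' hκ1).2 (by omega)
  rw [one_smul, hκ2] at h1
  have h2 : (κ.compl₂ (s2.comp π)).compr₂ (cL (m - 1)) ξ b =
      fun k => (κ ξ (s2 ⟨b, hb⟩) k).coeff (m - 1) := by
    rw [LinearMap.compr₂_apply, LinearMap.compl₂_apply, LinearMap.comp_apply, hπb ⟨b, hb⟩]
    rfl
  rw [h2]
  exact h1

end Pool.Agent.H929R2.Hart
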