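import Pool.Agent.H929R2.Hart.W9

set_option autoImplicit false
set_option maxHeartbeats 400000

namespace Pool.Agent.H929R2.Hart

open MvPolynomial

variable {σ : Type} [Fintype σ] [DecidableEq σ] {K : Type} [Field K]

omit [Fintype σ] [DecidableEq σ] in
/-- If all `A + s B` and `B` are injective, a vector in all the images of `A + s B` is zero. -/
lemma pencil0 [IsAlgClosed K] {V W : Type} [AddCommGroup V] [Module K V]
    [FiniteDimensional K V] [AddCommGroup W] [Module K W] [FiniteDimensional K W]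
    (A B : V →ₗ[K] W) (hAB : ∀ (s : K) (v : V), A v + s • B v = 0 → v = 0)
    (hB : ∀ v, B v = 0 → v = 0) (δ : W) (hδ : ∀ s : K, ∃ v, A v + s • B v = δ) : δ = 0 := by
  by_contra hne
  choose v hv using hδ
  have hv0 : ∀ s, v s ≠ 0 := fun s h0 => hne (by rw [← hv s, h0]; simp)
  let S : Submodule K V := Submodule.span K (Set.range v)
  have hvS : ∀ s, v s ∈ S := fun s => Submodule.subset_span ⟨s, rfl⟩
  by_cases hmem : ∃ u ∈ S, B u = δ
  · obtain ⟨u, hu, hBu⟩ := hmem
    have hsub : ∀ x ∈ S, A x ∈ S.map B := by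
      intro x hx
      refine Submodule.span_induction ?_ ?_ ?_ ?_ hx
      · rintro _ ⟨s, rfl⟩
        have h1 : A (v s) = B u - s • B (v s) := by rw [hBu, ← hv s]; abel
        rw [h1]
        exact Submodule.sub_mem _ (Submodule.mem_map_of_mem hu)
          (Submodule.smul_mem _ _ (Submodule.mem_map_of_mem (hvS s)))
      · rw [map_zero]; exact Submodule.zero_mem _
      · intro x y _ _ hx hy; rw [map_add]; exact Submodule.add_mem _ hx hy
      · intro c x _ hx; rw [map_smul]; exact Submodule.smul_mem _ _ hx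
    let φB : S →ₗ[K] S.map B := (B.domRestrict S).codRestrict _ (fun x => ⟨x, x.2, rfl⟩)
    let φA : S →ₗ[K] S.map B := (A.domRestrict S).codRestrict _ (fun x => hsub x x.2)
    obtain ⟨x, hx0, c, hxc⟩ := exists_pencil φB φA (by
        rw [← LinearMap.ker_eq_bot, LinearMap.ker_eq_bot']
        intro x hx
        ext1
        exact hB x (congrArg Subtype.val hx)) (Submodule.finrank_map_le B S) (by
        rw [Module.finrank_pos_iff]
        refine ⟨⟨v 0, hvS 0⟩, 0, fun h => hv0 0 (congrArg Subtype.val h)⟩)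
    have h1 : A (x : V) = c • B (x : V) := congrArg Subtype.val hxc
    apply hx0
    ext1
    apply hAB (-c)
    rw [h1, neg_smul, add_neg_cancel]
  · push Not at hmem
    let π := (Submodule.span K {δ}).mkQ
    let fB : S →ₗ[K] (W ⧸ Submodule.span K {δ}) := π.comp (B.domRestrict S)
    have hker : LinearMap.ker fB = ⊥ := by
      rw [LinearMap.ker_eq_bot']
      intro x hx
      have h1 : B (x : V) ∈ Submodule.span K {δ} := by
        rw [← Submodule.Quotient.mk_eq_zero]
        exact hx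
      obtain ⟨c, hc⟩ := Submodule.mem_span_singleton.1 h1
      ext1
      by_cases hc0 : c = 0
      · rw [hc0, zero_smul] at hc
        exact hB x hc.symm
      · exfalso
        apply hmem (c⁻¹ • (x : V)) (S.smul_mem _ x.2)
        rw [map_smul, ← hc, smul_smul, inv_mul_cancel₀ hc0, one_smul]
    obtain ⟨P, hP⟩ := LinearMap.exists_leftInverse_of_injective fB hker
    let T : Module.End K S := P.comp (π.comp (A.domRestrict S))
    have hT : ∀ s, T ⟨v s, hvS s⟩ = (-s) • ⟨v s, hvS s⟩ := by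
      intro s
      have h1 : π (A (v s)) = (-s) • fB ⟨v s, hvS s⟩ := by
        have h2 : A (v s) = δ + (-s) • B (v s) := by
          rw [← hv s, neg_smul]; abel
        rw [h2, map_add, map_smul]
        have h3 : π δ = 0 := by
          show (Submodule.span K {δ}).mkQ δ = 0
          rw [Submodule.mkQ_apply, Submodule.Quotient.mk_eq_zero]
          exact Submodule.mem_span_singleton_self δ
        rw [h3, zero_add]
        rfl
      show P (π (A (v s))) = _
      rw [h1, map_smul]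
      congr 1
      exact LinearMap.congr_fun hP ⟨v s, hvS s⟩
    have hfin := Module.End.finite_hasEigenvalue T
    have huniv : {μ | T.HasEigenvalue μ} = Set.univ := by
      rw [Set.eq_univ_iff_forall]
      intro μ
      have h1 := hT (-μ)
      rw [neg_neg] at h1
      exact Module.End.hasEigenvalue_of_hasEigenvector
        (Module.End.hasEigenvector_iff.2 ⟨Module.End.mem_eigenspace_iff.2 h1,
          fun h => hv0 (-μ) (congrArg Subtype.val h)⟩)
    rw [huniv] at hfin
    exact Set.infinite_univ hfin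

omit [Fintype σ] [DecidableEq σ] in
lemma part_add (w : σ → ℤ) (m : ℤ) (x y : σ → K) : part w m (x + y) = part w m x + part w m y := by
  funext k
  simp only [part, Pi.add_apply]
  split_ifs <;> simp

omit [Fintype σ] [DecidableEq σ] in
lemma part_smul (w : σ → ℤ) (m : ℤ) (t : K) (x : σ → K) :
    part w m (t • x) = t • part w m x := by
  funext k
  simp only [part, Pi.smul_apply]
  split_ifs <;> simp

/-- a vector of top weight in the cone, with a frame -/
structure TopData (w : σ → ℤ) (I : Ideal (MvPolynomial σ K)) (D : ℤ) {r : ℕ} (a : σ → K)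
    (G : Fin r → MvPolynomial σ K) (m : Fin r → ℤ) : Prop where
  ne : a ≠ 0
  hom : Hom w D a
  mem : a ∈ cone I
  fr : IsFrame (fun k => w k - D) I a G m

omit [DecidableEq σ] in
lemma inc [IsAlgClosed K] [CharZero K] {w : σ → ℤ} {I : Ideal (MvPolynomial σ K)}
    {r : ℕ} {D : ℤ} (h : Src w I r D)
    (q : σ → K) (hqc : q ∈ cone I) (hq0 : q ≠ 0) (hq : Hom w D q) (z : σ → K) (hz : Fixed w z)
    (hzT : z ∈ tangent I q) : q ∈ tangent I z := by
  classical
  have hDpos := h.pos
  have hst : Stable (fun k => D - w k) I := by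
    have := stable_neg (stable_shift h.sc.homog h.st D)
    intro t ht x hx
    have h1 := this t ht x hx
    simpa using h1
  have hfixq : Fixed (fun k => D - w k) q := fun k hk => by
    show D - w k = 0
    rw [hq k hk]; ring
  have hline : ∀ t : K, q + t • z ∈ cone I := by
    intro t
    apply flat_line h.sc hst D (fun k => by
      show D - w k ≤ D
      have := h.nn k
      omega) q hqc (fun k hk => (hfixq k hk).ge) (by rw [part_eq_self hfixq]; exact hq0) z hzT
    intro k hk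
    show 0 ≤ D - w k ∧ D < 2 * (D - w k)
    rw [hz k hk]
    omega
  apply (cone_of_line I z q _).2
  intro t ht
  have h1 : z + t • q = t • (q + t⁻¹ • z) := by
    rw [smul_add, smul_smul, mul_inv_cancel₀ ht, one_smul, add_comm]
  rw [h1]
  exact cone_smul I h.sc.homog _ _ (hline _)

section Glue

variable {w : σ → ℤ} {I : Ideal (MvPolynomial σ K)} {r : ℕ} {D : ℤ}

lemma top_beta [IsAlgClosed K] [CharZero K] (h : Src w I r D)
    (hbig : 3 * r + 1 ≤ (upper w D).card) {a : σ → K} {G : Fin r → MvPolynomial σ K}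
    {m : Fin r → ℤ} (T : TopData w I D a G m) (z : σ → K) (hz : Fixed w z) (hz0 : z ≠ 0)
    (hzT : z ∈ tangent I a) : (∀ d, LL G a d z ∈ conormal I z) ∧ (∀ d, LL G a d z = 0 → d = 0) ∧
      (∀ ξ ∈ conormal I z, ∃ d, LL G a d z = ξ) := by
  have hDpos := h.pos
  have haT := inc h a T.mem T.ne T.hom z hz hzT
  obtain ⟨F, l, hP⟩ := exists_pack h hbig z (all_fixed h hbig z hz) hz0 hz
  exact lam_pack h D hDpos a T.ne T.hom T.fr hP ⟨haT, fun k hk => by
    by_contra hne
    apply hk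
    rw [mem_upper, T.hom k hne]
    omega⟩ (Or.inl (by omega))

omit [DecidableEq σ] in
lemma finrank_inf_tangent (hI : SCone I r) (z : σ → K) (hz : z ∈ cone I) (hz0 : z ≠ 0)
    (S : Submodule K (σ → K)) :
    Module.finrank K S ≤ Module.finrank K (S ⊓ tangent I z : Submodule K (σ → K)) + r := by
  have h1 := finrank_tangent I z
  rw [hI.rank z hz hz0] at h1
  have h2 := finrank_inf_ge S (tangent I z)
  omega

lemma common [IsAlgClosed K] [CharZero K] (h : Src w I r D)
    (hbig : 3 * r + 1 ≤ (upper w D).card) (hD : 3 * r + 1 ≤ (wset w D).card)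
    (z1 z2 z3 : σ → K) (h1 : Fixed w z1) (h2 : Fixed w z2) (h3 : Fixed w z3) :
    ∃ a, ∃ G : Fin r → MvPolynomial σ K, ∃ m, TopData w I D a G m ∧ z1 ∈ tangent I a ∧
      z2 ∈ tangent I a ∧ z3 ∈ tangent I a := by
  have hDpos := h.pos
  obtain ⟨p, hp, hp0, hfix⟩ := h.exists_source
  have key : ∀ z : σ → K, Fixed w z → ∃ z' : σ → K, Fixed w z' ∧ z' ≠ 0 ∧ (z = 0 ∨ z = z') := by
    intro z hz
    by_cases hz0 : z = 0
    · exact ⟨p, hfix, hp0, Or.inl hz0⟩
    · exact ⟨z, hz, hz0, Or.inr rfl⟩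
  obtain ⟨y1, hy1, hy10, hyz1⟩ := key z1 h1
  obtain ⟨y2, hy2, hy20, hyz2⟩ := key z2 h2
  obtain ⟨y3, hy3, hy30, hyz3⟩ := key z3 h3
  have hc : ∀ z : σ → K, Fixed w z → z ∈ cone I := all_fixed h hbig
  have e1 := finrank_inf_tangent h.sc y1 (hc _ hy1) hy10 (cs K (wset w D))
  have e2 := finrank_inf_tangent h.sc y2 (hc _ hy2) hy20 (cs K (wset w D) ⊓ tangent I y1)
  have e3 := finrank_inf_tangent h.sc y3 (hc _ hy3) hy30
    (cs K (wset w D) ⊓ tangent I y1 ⊓ tangent I y2)
  rw [finrank_cs] at e1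
  have hne : (cs K (wset w D) ⊓ tangent I y1 ⊓ tangent I y2 ⊓ tangent I y3 :
      Submodule K (σ → K)) ≠ ⊥ := by
    intro h0
    rw [h0, finrank_bot] at e3
    omega
  obtain ⟨a, ⟨⟨⟨haD, ha1⟩, ha2⟩, ha3⟩, ha0⟩ := (Submodule.ne_bot_iff _).1 hne
  have haD' : Hom w D a := (mem_cs_wset w D a).1 haD
  have hsym : ∀ y : σ → K, Fixed w y → y ≠ 0 → a ∈ tangent I y →
      a ∈ cone I ∧ y ∈ tangent I a := by
    intro y hy hy0 hay
    obtain ⟨F, l, hP⟩ := exists_pack h hbig y (hc _ hy) hy0 hy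
    have haA : a ∈ (tangent I y ⊓ cs K (upper w D) : Submodule K (σ → K)) := ⟨hay, fun k hk => by
      by_contra hne
      apply hk
      rw [mem_upper, haD' k hne]
      omega⟩
    refine ⟨hP.fs.mem_cone h.sc a haA, ?_⟩
    apply (cone_of_line I a y _).2
    intro t ht
    have h1 : a + t • y = t • (y + t⁻¹ • a) := by
      rw [smul_add, smul_smul, mul_inv_cancel₀ ht, one_smul, add_comm]
    rw [h1]
    exact cone_smul I h.sc.homog _ _ (hP.line_mem a haA _)
  have s1 := hsym y1 hy1 hy10 ha1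
  have s2 := hsym y2 hy2 hy20 ha2
  have s3 := hsym y3 hy3 hy30 ha3
  obtain ⟨G, m, hG⟩ := exists_frame (fun k => w k - D) I r h.sc
    (stable_shift h.sc.homog h.st D) a s1.1 ha0
  refine ⟨a, G, m, ⟨ha0, haD', s1.1, hG⟩, ?_, ?_, ?_⟩
  · rcases hyz1 with h | h
    · rw [h]; exact Submodule.zero_mem _
    · rw [h]; exact s1.2
  · rcases hyz2 with h | h
    · rw [h]; exact Submodule.zero_mem _
    · rw [h]; exact s2.2
  · rcases hyz3 with h | h
    · rw [h]; exact Submodule.zero_mem _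
    · rw [h]; exact s3.2

/-- the transport relation -/
def Rel (w : σ → ℤ) (I : Ideal (MvPolynomial σ K)) (r : ℕ) (D : ℤ) (p ξ z v : σ → K) : Prop :=
  ∃ a, ∃ G : Fin r → MvPolynomial σ K, ∃ m, TopData w I D a G m ∧ p ∈ tangent I a ∧
    z ∈ tangent I a ∧ ∃ d, LL G a d p = ξ ∧ LL G a d z = v

lemma Rel.unique [IsAlgClosed K] [CharZero K] (h : Src w I r D)
    (hbig : 3 * r + 1 ≤ (upper w D).card) {p ξ z v v' : σ → K} (hp : Fixed w p) (hp0 : p ≠ 0)
    (hz : Fixed w z) (h1 : Rel w I r D p ξ z v) (h2 : Rel w I r D p ξ z v') : v = v' := by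
  obtain ⟨a, G, m, T, hpT, hzT, d, hd, hdv⟩ := h1
  obtain ⟨a', G', m', T', hpT', hzT', d', hd', hdv'⟩ := h2
  by_cases hdep : ∃ c : K, z = c • p
  · obtain ⟨c, rfl⟩ := hdep
    rw [← hdv, ← hdv', map_smul, map_smul, hd, hd']
  · push Not at hdep
    have hne : ∀ s : K, z + s • p ≠ 0 := by
      intro s h0
      apply hdep (-s)
      rw [neg_smul]
      exact eq_neg_of_add_eq_zero_left h0
    have hfix : ∀ s : K, Fixed w (z + s • p) := fixed_add hz hp
    have hT : ∀ s : K, z + s • p ∈ tangent I a := fun s =>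
      Submodule.add_mem _ hzT (Submodule.smul_mem _ _ hpT)
    have hT' : ∀ s : K, z + s • p ∈ tangent I a' := fun s =>
      Submodule.add_mem _ hzT' (Submodule.smul_mem _ _ hpT')
    rw [← sub_eq_zero]
    have hAs : ∀ (s : K) (e : Fin r → K),
        (LL G a).flip z e + s • (LL G a).flip p e = LL G a e (z + s • p) := by
      intro s e
      rw [map_add, map_smul]
      rfl
    apply pencil0 ((LL G a).flip z) ((LL G a).flip p)
    · intro s e he
      rw [hAs] at he
      exact (top_beta h hbig T _ (hfix s) (hne s) (hT s)).2.1 e he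
    · intro e he
      exact (top_beta h hbig T p hp hp0 hpT).2.1 e he
    · intro s
      have h3 : v - v' = LL G a d (z + s • p) - LL G' a' d' (z + s • p) := by
        rw [map_add, map_smul, map_add, map_smul, hd, hd', hdv, hdv']
        abel
      have h4 : v - v' ∈ conormal I (z + s • p) := by
        rw [h3]
        exact Submodule.sub_mem _ ((top_beta h hbig T _ (hfix s) (hne s) (hT s)).1 d)
          ((top_beta h hbig T' _ (hfix s) (hne s) (hT' s)).1 d')
      obtain ⟨e, he⟩ := (top_beta h hbig T _ (hfix s) (hne s) (hT s)).2.2 _ h4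
      exact ⟨e, by rw [hAs]; exact he⟩

lemma Rel.mem [IsAlgClosed K] [CharZero K] (h : Src w I r D)
    (hbig : 3 * r + 1 ≤ (upper w D).card) {p ξ z v : σ → K} (hp : Fixed w p) (hp0 : p ≠ 0)
    (h1 : Rel w I r D p ξ z v) : ξ ∈ conormal I p := by
  obtain ⟨a, G, m, T, hpT, hzT, d, hd, hdv⟩ := h1
  rw [← hd]
  exact (top_beta h hbig T p hp hp0 hpT).1 d

lemma Rel.add1 [IsAlgClosed K] [CharZero K] (h : Src w I r D)
    (hbig : 3 * r + 1 ≤ (upper w D).card) {p ξ ξ' z v v' : σ → K} (hp : Fixed w p)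
    (hp0 : p ≠ 0) (hz : Fixed w z) (h1 : Rel w I r D p ξ z v) (h2 : Rel w I r D p ξ' z v') :
    Rel w I r D p (ξ + ξ') z (v + v') := by
  have hmem := h2.mem h hbig hp hp0
  obtain ⟨a, G, m, T, hpT, hzT, d, hd, hdv⟩ := h1
  obtain ⟨d', hd'⟩ := (top_beta h hbig T p hp hp0 hpT).2.2 ξ' hmem
  have h3 : Rel w I r D p ξ' z (LL G a d' z) := ⟨a, G, m, T, hpT, hzT, d', hd', rfl⟩
  have h4 := Rel.unique h hbig hp hp0 hz h2 h3
  refine ⟨a, G, m, T, hpT, hzT, d + d', ?_, ?_⟩
  · rw [map_add, LinearMap.add_apply, hd, hd']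
  · rw [map_add, LinearMap.add_apply, hdv, h4]

omit [Fintype σ] [DecidableEq σ] in
lemma Rel.smul1 [Fintype σ] {p ξ z v : σ → K} (t : K) (h1 : Rel w I r D p ξ z v) :
    Rel w I r D p (t • ξ) z (t • v) := by
  obtain ⟨a, G, m, T, hpT, hzT, d, hd, hdv⟩ := h1
  refine ⟨a, G, m, T, hpT, hzT, t • d, ?_, ?_⟩
  · rw [map_smul, LinearMap.smul_apply, hd]
  · rw [map_smul, LinearMap.smul_apply, hdv]

omit [Fintype σ] [DecidableEq σ] in
lemma Rel.smul2 [Fintype σ] {p ξ z v : σ → K} (t : K) (h1 : Rel w I r D p ξ z v) :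
    Rel w I r D p ξ (t • z) (t • v) := by
  obtain ⟨a, G, m, T, hpT, hzT, d, hd, hdv⟩ := h1
  exact ⟨a, G, m, T, hpT, Submodule.smul_mem _ _ hzT, d, hd, by rw [map_smul, hdv]⟩

lemma Rel.add2 [IsAlgClosed K] [CharZero K] (h : Src w I r D)
    (hbig : 3 * r + 1 ≤ (upper w D).card) (hD : 3 * r + 1 ≤ (wset w D).card)
    {p ξ z z' v v' : σ → K} (hp : Fixed w p) (hp0 : p ≠ 0) (hz : Fixed w z) (hz' : Fixed w z')
    (h1 : Rel w I r D p ξ z v) (h2 : Rel w I r D p ξ z' v') :
    Rel w I r D p ξ (z + z') (v + v') := by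
  obtain ⟨a, G, m, T, hpT, hzT, hzT'⟩ := common h hbig hD p z z' hp hz hz'
  obtain ⟨d, hd⟩ := (top_beta h hbig T p hp hp0 hpT).2.2 ξ (h1.mem h hbig hp hp0)
  have h3 : Rel w I r D p ξ z (LL G a d z) := ⟨a, G, m, T, hpT, hzT, d, hd, rfl⟩
  have h4 : Rel w I r D p ξ z' (LL G a d z') := ⟨a, G, m, T, hpT, hzT', d, hd, rfl⟩
  rw [Rel.unique h hbig hp hp0 hz h1 h3, Rel.unique h hbig hp hp0 hz' h2 h4]
  exact ⟨a, G, m, T, hpT, Submodule.add_mem _ hzT hzT', d, hd, by rw [map_add]⟩

theorem exists_lamB [IsAlgClosed K] [CharZero K] (h : Src w I r D)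
    (hbig : 3 * r + 1 ≤ (upper w D).card) (hD : 3 * r + 1 ≤ (wset w D).card) :
    ∃ b : (Fin r → K) →ₗ[K] (σ → K) →ₗ[K] (σ → K), LamB w I b := by
  obtain ⟨p, hp, hp0, hfix⟩ := h.exists_source
  obtain ⟨F, l, hF⟩ := exists_frame w I r h.sc h.st p hp hp0
  have hex : ∀ (c : Fin r → K) (z : σ → K),
      ∃ v, Rel w I r D p (uu F p c) (part w 0 z) v := by
    intro c z
    obtain ⟨a, G, m, T, hpT, hzT, -⟩ := common h hbig hD p (part w 0 z) p hfix
      (fixed_part w z) hfix
    obtain ⟨d, hd⟩ := (top_beta h hbig T p hfix hp0 hpT).2.2 _ (uu_mem F hF.mem c p)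
    exact ⟨_, a, G, m, T, hpT, hzT, d, hd, rfl⟩
  choose f hf using hex
  have huniq : ∀ (c : Fin r → K) (z v : σ → K), Rel w I r D p (uu F p c) (part w 0 z) v →
      f c z = v := fun c z v hv => Rel.unique h hbig hfix hp0 (fixed_part w z) (hf c z) hv
  let b : (Fin r → K) →ₗ[K] (σ → K) →ₗ[K] (σ → K) := LinearMap.mk₂ K f
    (fun c c' z => huniq _ _ _ (by
      rw [map_add]
      exact Rel.add1 h hbig hfix hp0 (fixed_part w z) (hf c z) (hf c' z)))
    (fun t c z => huniq _ _ _ (by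
      rw [map_smul]
      exact Rel.smul1 t (hf c z)))
    (fun c z z' => huniq _ _ _ (by
      rw [part_add]
      exact Rel.add2 h hbig hD hfix hp0 (fixed_part w z) (fixed_part w z') (hf c z) (hf c z')))
    (fun t c z => huniq _ _ _ (by
      rw [part_smul]
      exact Rel.smul2 t (hf c z)))
  refine ⟨b, fun z hz hz0 => ?_⟩
  have hpart : part w 0 z = z := part_eq_self hz
  refine ⟨fun d => ?_, fun d hd => ?_, fun ξ hξ => ?_⟩
  · have h1 := hf d z
    rw [hpart] at h1
    obtain ⟨a, G, m, T, hpT, hzT, e, _, he⟩ := h1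
    show f d z ∈ _
    rw [← he]
    exact (top_beta h hbig T z hz hz0 hzT).1 e
  · have h1 := hf d z
    rw [hpart] at h1
    obtain ⟨a, G, m, T, hpT, hzT, e, he1, he⟩ := h1
    have hd' : f d z = 0 := hd
    rw [hd'] at he
    have he0 := (top_beta h hbig T z hz hz0 hzT).2.1 e he
    rw [he0, map_zero, LinearMap.zero_apply] at he1
    exact uu_injective hF.ind d he1.symm
  · obtain ⟨a, G, m, T, hpT, hzT, -⟩ := common h hbig hD p z p hfix hz hfix
    obtain ⟨e, he⟩ := (top_beta h hbig T z hz hz0 hzT).2.2 ξ hξ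
    obtain ⟨c, hc⟩ := frame_span h.sc hp hp0 hF _ ((top_beta h hbig T p hfix hp0 hpT).1 e)
    refine ⟨c, huniq c z ξ ?_⟩
    rw [hpart]
    exact ⟨a, G, m, T, hpT, hzT, e, hc.symm, he⟩

end Glue

end Pool.Agent.H929R2.Hart
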