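import Pool.Agent.H929R2.Hart.U6
import Pool.Agent.H929R2.Hart.W10

set_option autoImplicit false
set_option maxHeartbeats 400000

namespace Pool.Agent.H929R2.Hart

open MvPolynomial

variable {σ : Type} [Fintype σ] [DecidableEq σ] {K : Type} [Field K]

variable {M : Matrix σ σ K} {m : ℕ} {I : Ideal (MvPolynomial σ K)} {r : ℕ}

/-- a flat structure at a general point -/
structure Fl (M : Matrix σ σ K) (m : ℕ) (I : Ideal (MvPolynomial σ K)) (r : ℕ) (y : σ → K)
    (B : Submodule K (σ → K)) (lam : (σ → K) →ₗ[K] (σ → K) →ₗ[K] (σ → K)) : Prop where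
  mem : y ∈ cone I
  top : (M ^ m).mulVec y ≠ 0
  le : B ≤ WW M m
  big : Module.finrank K (WW M m) ≤ Module.finrank K B + r
  flat : ∀ b ∈ B, y + b ∈ cone I
  con : ∀ b ∈ B, ∀ ξ ∈ conormal I y, ξ + lam ξ b ∈ conormal I (y + b)

theorem exists_Fl [IsAlgClosed K] [CharZero K] (h : Nil M m I r)
    (hW : 3 * r + 1 ≤ Module.finrank K (WW M m)) (y : σ → K) (hy : y ∈ cone I)
    (hMy : (M ^ m).mulVec y ≠ 0) : ∃ B lam, Fl M m I r y B lam := by
  obtain ⟨B, hB, hr, lam, hl⟩ := exists_flat h hW y hy hMy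
  exact ⟨B, lam, hy, hMy, hB, hr, fun b hb => (hl b hb).1, fun b hb => (hl b hb).2⟩

lemma top_of_WW [CharZero K] {b : σ → K} (hb : b ∈ WW M m) : (M ^ m).mulVec b = 0 := by
  obtain ⟨s, s', rfl, hs⟩ := hb
  exact top_zero s s' hs

omit [Fintype σ] [DecidableEq σ] in
lemma flip_line (x v : σ → K) (t : K) (ht : t ≠ 0) : v + t • x = t • (x + t⁻¹ • v) := by
  rw [smul_add, smul_smul, mul_inv_cancel₀ ht, one_smul, add_comm]

namespace Fl

variable {y y' : σ → K} {B B' : Submodule K (σ → K)}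
  {lam lam' : (σ → K) →ₗ[K] (σ → K) →ₗ[K] (σ → K)}

lemma ne (hF : Fl M m I r y B lam) : y ≠ 0 := by
  intro h0
  apply hF.top
  rw [h0, Matrix.mulVec_zero]

lemma line (hF : Fl M m I r y B lam) (b : σ → K) (hb : b ∈ B) (t : K) : y + t • b ∈ cone I :=
  hF.flat _ (B.smul_mem t hb)

lemma cone_b [Infinite K] (hI : SCone I r) (hF : Fl M m I r y B lam) (b : σ → K) (hb : b ∈ B) :
    b ∈ cone I ∧ y ∈ tangent I b := by
  apply cone_of_line
  intro t ht
  rw [flip_line y b t ht]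
  exact cone_smul I hI.homog _ _ (hF.line b hb _)

lemma line_b [Infinite K] (hI : SCone I r) (hF : Fl M m I r y B lam) (b : σ → K) (hb : b ∈ B)
    (t : K) : b + t • y ∈ cone I := by
  by_cases ht : t = 0
  · rw [ht, zero_smul, add_zero]; exact (hF.cone_b hI b hb).1
  · rw [flip_line y b t ht]
    exact cone_smul I hI.homog _ _ (hF.line b hb _)

lemma lim [IsAlgClosed K] (hI : SCone I r) (hF : Fl M m I r y B lam) (b1 b ξ : σ → K)
    (hb1 : b1 ∈ B) (hb10 : b1 ≠ 0) (hb : b ∈ B) (hξ : ξ ∈ conormal I y) (h0 : lam ξ b1 = 0) :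
    ξ + lam ξ b ∈ conormal I b1 := by
  apply conormal_closed I r hI.rank b1 (y + b) hb10 _ 0
  intro t ht
  have h1 : b1 + t • (y + b) = t • (y + (b + t⁻¹ • b1)) := by
    rw [flip_line (y + b) b1 t ht, add_assoc]
  have hmem : b + t⁻¹ • b1 ∈ B := B.add_mem hb (B.smul_mem _ hb1)
  rw [h1, smul_zero, add_zero, conormal_smul I hI.homog t ht]
  refine ⟨cone_smul I hI.homog _ _ (hF.flat _ hmem), ?_⟩
  have h2 := hF.con _ hmem ξ hξ
  rwa [map_add, map_smul, h0, smul_zero, add_zero] at h2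

lemma con_b [IsAlgClosed K] (hI : SCone I r) (hF : Fl M m I r y B lam) (b ξ : σ → K)
    (hb : b ∈ B) (hξ : ξ ∈ conormal I y) (t : K) (ht : t ≠ 0) :
    lam ξ b + t • ξ ∈ conormal I (b + t • y) := by
  rw [flip_line y b t ht, conormal_smul I hI.homog t ht, flip_line ξ (lam ξ b) t ht]
  apply Submodule.smul_mem
  rw [← map_smul]
  exact hF.con _ (B.smul_mem _ hb) ξ hξ

lemma lam_mem [IsAlgClosed K] (hI : SCone I r) (hF : Fl M m I r y B lam) (b ξ : σ → K)
    (hb : b ∈ B) (hb0 : b ≠ 0) (hξ : ξ ∈ conormal I y) : lam ξ b ∈ conormal I b := by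
  apply conormal_closed I r hI.rank b y hb0 _ ξ
  intro t ht
  exact ⟨hF.line_b hI b hb t, hF.con_b hI b ξ hb hξ t ht⟩

lemma inj [IsAlgClosed K] [CharZero K] (h : Nil M m I r)
    (hW : 3 * r + 1 ≤ Module.finrank K (WW M m)) (hF : Fl M m I r y B lam) (b ξ : σ → K)
    (hb : b ∈ B) (hb0 : b ≠ 0) (hξ : ξ ∈ conormal I y) (h0 : lam ξ b = 0) : ξ = 0 := by
  have hbc : b ∈ cone I := (hF.cone_b h.sc b hb).1
  have hξb : ξ ∈ conormal I b := by
    have := hF.lim h.sc b 0 ξ hb hb0 B.zero_mem hξ h0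
    rwa [map_zero, add_zero] at this
  let T : B →ₗ[K] (σ → K) := (lam ξ).comp B.subtype
  have hrank : Module.finrank K B ≤ Module.finrank K (LinearMap.ker T) + r := by
    have h1 := LinearMap.finrank_range_add_finrank_ker T
    have h2 : Module.finrank K (LinearMap.range T) ≤ r := by
      rw [← h.sc.rank b hbc hb0]
      apply Submodule.finrank_mono
      rintro _ ⟨b', rfl⟩
      have h3 := hF.lim h.sc b b' ξ hb hb0 b'.2 hξ h0
      have h4 : lam ξ (b' : σ → K) = (ξ + lam ξ b') - ξ := by abel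
      show lam ξ (b' : σ → K) ∈ _
      rw [h4]
      exact Submodule.sub_mem _ h3 hξb
    omega
  have h4 := Submodule.finrank_map_subtype_eq B (LinearMap.ker T)
  have hbig := hF.big
  apply zak h ξ ((LinearMap.ker T).map B.subtype)
    ((Submodule.map_subtype_le B _).trans hF.le) (by omega)
  rintro _ ⟨b', hb', rfl⟩ hb0'
  have h5 := hF.lim h.sc b' 0 ξ b'.2 hb0' B.zero_mem hξ (LinearMap.mem_ker.1 hb')
  rwa [map_zero, add_zero] at h5

lemma surj [IsAlgClosed K] [CharZero K] (h : Nil M m I r)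
    (hW : 3 * r + 1 ≤ Module.finrank K (WW M m)) (hF : Fl M m I r y B lam) (b η : σ → K)
    (hb : b ∈ B) (hb0 : b ≠ 0) (hη : η ∈ conormal I b) : ∃ ξ ∈ conormal I y, lam ξ b = η := by
  have hbc : b ∈ cone I := (hF.cone_b h.sc b hb).1
  let T : conormal I y →ₗ[K] conormal I b := LinearMap.codRestrict _
    ((lam.flip b).comp (conormal I y).subtype) (fun ξ => hF.lam_mem h.sc b ξ hb hb0 ξ.2)
  have hT : Function.Injective T := by
    rw [← LinearMap.ker_eq_bot, LinearMap.ker_eq_bot']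
    intro ξ hξ
    ext1
    exact hF.inj h hW b ξ hb hb0 ξ.2 (congrArg Subtype.val hξ)
  have hT2 : Function.Surjective T := by
    rw [← LinearMap.injective_iff_surjective_of_finrank_eq_finrank]
    · exact hT
    · rw [h.sc.rank y hF.mem hF.ne, h.sc.rank b hbc hb0]
  obtain ⟨ξ, hξ⟩ := hT2 ⟨η, hη⟩
  exact ⟨ξ, ξ.2, congrArg Subtype.val hξ⟩

theorem glue [IsAlgClosed K] [CharZero K] (h : Nil M m I r)
    (hW : 3 * r + 1 ≤ Module.finrank K (WW M m)) (hF : Fl M m I r y B lam)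
    (hF' : Fl M m I r y' B' lam') (b1 : σ → K) (hb1 : b1 ∈ B) (hb1' : b1 ∈ B') (hb10 : b1 ≠ 0)
    (ξ : σ → K) (hξ : ξ ∈ conormal I y) :
    ∃ ξ' ∈ conormal I y', ∀ b ∈ B, b ∈ B' → lam ξ b = lam' ξ' b := by
  obtain ⟨ξ', hξ', h1⟩ := hF'.surj h hW b1 (lam ξ b1) hb1' hb10 (hF.lam_mem h.sc b1 ξ hb1 hb10 hξ)
  refine ⟨ξ', hξ', fun b hb hb' => ?_⟩
  by_cases hdep : ∃ c : K, b = c • b1
  · obtain ⟨c, rfl⟩ := hdep
    rw [map_smul, map_smul, h1]
  push Not at hdep
  have hne : ∀ s : K, b + s • b1 ≠ 0 := by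
    intro s h0
    apply hdep (-s)
    rw [neg_smul]
    exact eq_neg_of_add_eq_zero_left h0
  rw [← sub_eq_zero]
  apply pencil0 ((lam.flip b).comp (conormal I y).subtype)
    ((lam.flip b1).comp (conormal I y).subtype)
  · intro s v hv
    ext1
    apply hF.inj h hW (b + s • b1) v (B.add_mem hb (B.smul_mem _ hb1)) (hne s) v.2
    rw [map_add, map_smul]
    exact hv
  · intro v hv
    ext1
    exact hF.inj h hW b1 v hb1 hb10 v.2 hv
  · intro s
    have hm : b + s • b1 ∈ B := B.add_mem hb (B.smul_mem _ hb1)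
    have hm' : b + s • b1 ∈ B' := B'.add_mem hb' (B'.smul_mem _ hb1')
    have h3 : lam ξ b - lam' ξ' b = lam ξ (b + s • b1) - lam' ξ' (b + s • b1) := by
      rw [map_add, map_add, map_smul, map_smul, h1]
      abel
    have h4 : lam ξ b - lam' ξ' b ∈ conormal I (b + s • b1) := by
      rw [h3]
      exact Submodule.sub_mem _ (hF.lam_mem h.sc _ ξ hm (hne s) hξ)
        (hF'.lam_mem h.sc _ ξ' hm' (hne s) hξ')
    obtain ⟨e, he, he2⟩ := hF.surj h hW _ _ hm (hne s) h4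
    refine ⟨⟨e, he⟩, ?_⟩
    rw [← he2, map_add, map_smul]
    rfl

theorem sym [IsAlgClosed K] [CharZero K] (hI : SCone I r) (hF : Fl M m I r y B lam)
    (hF' : Fl M m I r y' B' lam') (b : σ → K) (hb : b ∈ B) (hb' : b ∈ B') (hb0 : b ≠ 0)
    (ξ ξ' : σ → K) (hξ : ξ ∈ conormal I y) (hξ' : ξ' ∈ conormal I y')
    (heq : lam ξ b = lam' ξ' b) : dotB σ K ξ y' = dotB σ K ξ' y := by
  obtain ⟨G, hG, hGb⟩ := exists_grad I b _ (hF.lam_mem hI b ξ hb hb0 hξ)
  have h1 : grad (dd y G) b - ξ ∈ conormal I b := by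
    apply deriv_mem hI b y hb0 (hF.line_b hI b hb) G hG
    intro t ht
    rw [← hGb]
    exact hF.con_b hI b ξ hb hξ t ht
  have h2 : grad (dd y' G) b - ξ' ∈ conormal I b := by
    apply deriv_mem hI b y' hb0 (hF'.line_b hI b hb') G hG
    intro t ht
    rw [← hGb, heq]
    exact hF'.con_b hI b ξ' hb' hξ' t ht
  have h3 := tangent_conormal I _ h1 (hF'.cone_b hI b hb').2
  have h4 := tangent_conormal I _ h2 (hF.cone_b hI b hb).2
  rw [map_sub, LinearMap.sub_apply, sub_eq_zero] at h3 h4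
  rw [← h3, ← h4, hess_symm]

omit [DecidableEq σ] in
lemma _root_.Pool.Agent.H929R2.Hart.finrank_inf_sub {W S T : Submodule K (σ → K)} (hS : S ≤ W)
    (hT : T ≤ W) : Module.finrank K S + Module.finrank K T ≤
      Module.finrank K W + Module.finrank K (S ⊓ T : Submodule K (σ → K)) := by
  have h1 := Submodule.finrank_sup_add_finrank_inf_eq S T
  have h2 := Submodule.finrank_mono (sup_le hS hT)
  omega

lemma exists_two (hW : 3 * r + 1 ≤ Module.finrank K (WW M m)) (hF : Fl M m I r y B lam)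
    (hF' : Fl M m I r y' B' lam') : ∃ b ∈ B, b ∈ B' ∧ b ≠ 0 := by
  have h1 := finrank_inf_sub hF.le hF'.le
  have h2 := hF.big
  have h3 := hF'.big
  have hne : (B ⊓ B' : Submodule K (σ → K)) ≠ ⊥ := by
    intro h0
    rw [h0, finrank_bot] at h1
    omega
  obtain ⟨b, ⟨hb, hb'⟩, hb0⟩ := (Submodule.ne_bot_iff _).1 hne
  exact ⟨b, hb, hb', hb0⟩

lemma exists_three (hW : 3 * r + 1 ≤ Module.finrank K (WW M m)) {y'' : σ → K}
    {B'' : Submodule K (σ → K)} {lam'' : (σ → K) →ₗ[K] (σ → K) →ₗ[K] (σ → K)}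
    (hF : Fl M m I r y B lam) (hF' : Fl M m I r y' B' lam')
    (hF'' : Fl M m I r y'' B'' lam'') : ∃ b ∈ B, b ∈ B' ∧ b ∈ B'' ∧ b ≠ 0 := by
  have h1 := finrank_inf_sub hF.le hF'.le
  have h2 := hF.big
  have h3 := hF'.big
  have h4 := hF''.big
  have h5 := finrank_inf_sub (S := B ⊓ B') (inf_le_left.trans hF.le) hF''.le
  have hne : (B ⊓ B' ⊓ B'' : Submodule K (σ → K)) ≠ ⊥ := by
    intro h0
    rw [h0, finrank_bot] at h5
    omega
  obtain ⟨b, ⟨⟨hb, hb'⟩, hb''⟩, hb0⟩ := (Submodule.ne_bot_iff _).1 hne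
  exact ⟨b, hb, hb', hb'', hb0⟩

end Fl

end Pool.Agent.H929R2.Hart
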