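import Pool.Agent.H929R2.Hart.U7

set_option autoImplicit false
set_option maxHeartbeats 400000

namespace Pool.Agent.H929R2.Hart

open MvPolynomial

variable {σ : Type} [Fintype σ] [DecidableEq σ] {K : Type} [Field K]

variable {M : Matrix σ σ K} {m : ℕ} {I : Ideal (MvPolynomial σ K)} {r : ℕ}

omit [DecidableEq σ] in
lemma dotB_right_ext {S : Set (σ → K)} (hS : Submodule.span K S = ⊤) (u v : σ → K)
    (h : ∀ y ∈ S, dotB σ K u y = dotB σ K v y) : u = v := by
  classical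
  have h1 : (dotB σ K u) = dotB σ K v := by
    apply LinearMap.ext_on hS
    intro y hy
    exact h y hy
  funext i
  have h2 := LinearMap.congr_fun h1 (Pi.single i 1)
  rw [dotB_comm, dotB_single, dotB_comm, dotB_single] at h2
  exact h2

omit [DecidableEq σ] in
lemma exists_ext {S : Set (σ → K)} (hS : Submodule.span K S = ⊤) (f : (σ → K) → (σ → K))
    (hf : ∀ y ∈ S, ∀ y' ∈ S, dotB σ K (f y) y' = dotB σ K (f y') y) :
    ∃ L : (σ → K) →ₗ[K] (σ → K), ∀ y ∈ S, L y = f y := by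
  classical
  let b0 := Module.Basis.ofSpan hS.ge
  have hb0 : ∀ i, b0 i ∈ S := fun i => Module.Basis.ofSpan_subset hS.ge ⟨i, rfl⟩
  haveI : Fintype ((linearIndepOn_empty K id).extend (Set.empty_subset S)) :=
    FiniteDimensional.fintypeBasisIndex b0
  let e := Fintype.equivFin ((linearIndepOn_empty K id).extend (Set.empty_subset S))
  let b := b0.reindex e
  have hb : ∀ i, b i ∈ S := by
    intro i
    rw [Module.Basis.reindex_apply]
    exact hb0 _
  obtain ⟨v, hv⟩ := exists_dual_vectors (fun i => b i) b.linearIndependent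
  let L : (σ → K) →ₗ[K] (σ → K) := ∑ i, (dotB σ K (f (b i))).smulRight (v i)
  have hL : ∀ x j, dotB σ K (L x) (b j) = dotB σ K (f (b j)) x := by
    intro x j
    simp only [L, LinearMap.sum_apply, LinearMap.smulRight_apply, map_sum, map_smul,
      LinearMap.smul_apply, smul_eq_mul]
    rw [Finset.sum_eq_single j]
    · rw [dotB_comm (v j), hv]; simp
    · intro i _ hij
      rw [dotB_comm (v i), hv, if_neg (fun h => hij h.symm), mul_zero]
    · intro h; exact absurd (Finset.mem_univ _) h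
  refine ⟨L, fun y hy => ?_⟩
  apply dotB_right_ext (S := Set.range b) b.span_eq
  rintro _ ⟨j, rfl⟩
  rw [hL, hf _ (hb j) y hy]

lemma span_top [IsAlgClosed K] [CharZero K] (h : Nil M m I r) :
    Submodule.span K {y | y ∈ cone I ∧ (M ^ m).mulVec y ≠ 0} = ⊤ := by
  by_contra hne
  obtain ⟨φ, hφ0, hφ⟩ := Submodule.exists_le_ker_of_lt_top _ (lt_top_iff_ne_top.2 hne)
  apply hφ0
  have h1 : (fun i => φ (Pi.single i 1)) = 0 := by
    apply nondeg_of_top h
    intro y hy hMy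
    have h2 : φ y = 0 := hφ (Submodule.subset_span ⟨hy, hMy⟩)
    rw [dotB_apply]
    have h3 : y = ∑ i, y i • (Pi.single i 1 : σ → K) := by
      funext j
      simp [Finset.sum_apply, Pi.single_apply]
    rw [h3, map_sum] at h2
    rw [← h2]
    refine Finset.sum_congr rfl (fun i _ => ?_)
    rw [map_smul, smul_eq_mul, mul_comm]
  ext i
  have := congrFun h1 i
  simpa using this

/-- a system of quadrics -/
structure QD (M : Matrix σ σ K) (m : ℕ) (I : Ideal (MvPolynomial σ K)) (r : ℕ)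
    (Q : (Fin r → K) →ₗ[K] (σ → K) →ₗ[K] (σ → K)) : Prop where
  mem : ∀ c, ∀ y ∈ cone I, (M ^ m).mulVec y ≠ 0 → Q c y ∈ conormal I y
  inj : ∀ c, ∀ y ∈ cone I, (M ^ m).mulVec y ≠ 0 → Q c y = 0 → c = 0
  symm : ∀ c v v', dotB σ K (Q c v) v' = dotB σ K (Q c v') v

theorem exists_Q [IsAlgClosed K] [CharZero K] (h : Nil M m I r)
    (hW : 3 * r + 1 ≤ Module.finrank K (WW M m)) :
    ∃ Q : (Fin r → K) →ₗ[K] (σ → K) →ₗ[K] (σ → K), QD M m I r Q := by
  classical
  set U : Set (σ → K) := {y | y ∈ cone I ∧ (M ^ m).mulVec y ≠ 0} with hU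
  have hspan : Submodule.span K U = ⊤ := span_top h
  have hfl : ∀ y : σ → K, ∃ B lam, y ∈ U → Fl M m I r y B lam := by
    intro y
    by_cases hy : y ∈ U
    · obtain ⟨B, lam, hF⟩ := exists_Fl h hW y hy.1 hy.2
      exact ⟨B, lam, fun _ => hF⟩
    · exact ⟨⊥, 0, fun hy' => absurd hy' hy⟩
  choose B lam hF using hfl
  obtain ⟨y0, hy0⟩ : U.Nonempty := by
    by_contra hne
    rw [Set.not_nonempty_iff_eq_empty] at hne
    rw [hne, Submodule.span_empty] at hspan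
    apply h.ne
    ext i j
    have h1 : (Pi.single j 1 : σ → K) ∈ (⊤ : Submodule K (σ → K)) := trivial
    rw [← hspan, Submodule.mem_bot] at h1
    have := congrFun h1 j
    simp at this
  have hF0 := hF y0 hy0
  have hθ : ∀ (y ξ : σ → K), ∃ ξ' : σ → K, y ∈ U → ξ ∈ conormal I y0 → ξ' ∈ conormal I y ∧
      ∀ b ∈ B y0, b ∈ B y → lam y0 ξ b = lam y ξ' b := by
    intro y ξ
    by_cases hy : y ∈ U
    · by_cases hξ : ξ ∈ conormal I y0
      · obtain ⟨b1, hb1, hb1', hb10⟩ := Fl.exists_two hW hF0 (hF y hy)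
        obtain ⟨ξ', h1, h2⟩ := Fl.glue h hW hF0 (hF y hy) b1 hb1 hb1' hb10 ξ hξ
        exact ⟨ξ', fun _ _ => ⟨h1, h2⟩⟩
      · exact ⟨0, fun _ h => absurd h hξ⟩
    · exact ⟨0, fun h => absurd h hy⟩
  choose θ hθ using hθ
  have hkey : ∀ ξ ∈ conormal I y0, ∀ y ∈ U, ∀ y' ∈ U,
      dotB σ K (θ y ξ) y' = dotB σ K (θ y' ξ) y := by
    intro ξ hξ y hy y' hy'
    obtain ⟨b, hb0, hb, hb', hbne⟩ := Fl.exists_three hW hF0 (hF y hy) (hF y' hy')
    apply Fl.sym h.sc (hF y hy) (hF y' hy') b hb hb' hbne _ _ (hθ y ξ hy hξ).1 (hθ y' ξ hy' hξ).1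
    rw [← (hθ y ξ hy hξ).2 b hb0 hb, (hθ y' ξ hy' hξ).2 b hb0 hb']
  have huniq : ∀ y ∈ U, ∀ ξ ∈ conormal I y0, ∀ ξ' ∈ conormal I y,
      (∀ b ∈ B y0, b ∈ B y → lam y0 ξ b = lam y ξ' b) → θ y ξ = ξ' := by
    intro y hy ξ hξ ξ' hξ' hb
    rw [← sub_eq_zero]
    obtain ⟨b, hb1, hb2, hbne⟩ := Fl.exists_two hW hF0 (hF y hy)
    apply (hF y hy).inj h hW b _ hb2 hbne (Submodule.sub_mem _ (hθ y ξ hy hξ).1 hξ')
    rw [map_sub, LinearMap.sub_apply, ← (hθ y ξ hy hξ).2 b hb1 hb2, hb b hb1 hb2, sub_self]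
  have hL : ∀ ξ : conormal I y0, ∃ L : (σ → K) →ₗ[K] (σ → K), ∀ y ∈ U, L y = θ y ξ := fun ξ =>
    exists_ext hspan (fun y => θ y ξ) (fun y hy y' hy' => hkey ξ ξ.2 y hy y' hy')
  choose L hL using hL
  let Q0 : conormal I y0 →ₗ[K] (σ → K) →ₗ[K] (σ → K) :=
    { toFun := L
      map_add' := fun ξ ξ' => by
        apply LinearMap.ext_on hspan
        intro y hy
        rw [LinearMap.add_apply, hL _ y hy, hL _ y hy, hL _ y hy]
        apply huniq y hy _ (ξ + ξ').2 _ (Submodule.add_mem _ (hθ y ξ hy ξ.2).1 (hθ y ξ' hy ξ'.2).1)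
        intro b hb hb'
        rw [Submodule.coe_add, map_add, map_add, LinearMap.add_apply, LinearMap.add_apply,
          (hθ y ξ hy ξ.2).2 b hb hb', (hθ y ξ' hy ξ'.2).2 b hb hb']
      map_smul' := fun c ξ => by
        apply LinearMap.ext_on hspan
        intro y hy
        rw [RingHom.id_apply, LinearMap.smul_apply, hL _ y hy, hL _ y hy]
        apply huniq y hy _ (c • ξ).2 _ (Submodule.smul_mem _ _ (hθ y ξ hy ξ.2).1)
        intro b hb hb'
        rw [Submodule.coe_smul, map_smul, map_smul, LinearMap.smul_apply, LinearMap.smul_apply,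
          (hθ y ξ hy ξ.2).2 b hb hb'] }
  have hQ0 : ∀ ξ, ∀ y ∈ U, Q0 ξ y = θ y ξ := hL
  let bs := Module.finBasisOfFinrankEq K (conormal I y0) (h.sc.rank y0 hF0.mem hF0.ne)
  let e : (Fin r → K) ≃ₗ[K] conormal I y0 := bs.equivFun.symm
  refine ⟨Q0.comp e.toLinearMap, ?_, ?_, ?_⟩
  · intro c y hy hMy
    show Q0 (e c) y ∈ _
    rw [hQ0 _ y ⟨hy, hMy⟩]
    exact (hθ y _ ⟨hy, hMy⟩ (e c).2).1
  · intro c y hy hMy h0
    have h1 : Q0 (e c) y = 0 := h0
    rw [hQ0 _ y ⟨hy, hMy⟩] at h1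
    have hyU : y ∈ U := ⟨hy, hMy⟩
    obtain ⟨b, hb1, hb2, hbne⟩ := Fl.exists_two hW hF0 (hF y hyU)
    have h2 := (hθ y (e c) hyU (e c).2).2 b hb1 hb2
    rw [h1, map_zero, LinearMap.zero_apply] at h2
    have h3 := hF0.inj h hW b _ hb1 hbne (e c).2 h2
    have h4 : e c = 0 := by ext1; exact h3
    exact (LinearEquiv.map_eq_zero_iff e).1 h4
  · intro c v v'
    show dotB σ K (Q0 (e c) v) v' = dotB σ K (Q0 (e c) v') v
    let β : (σ → K) →ₗ[K] (σ → K) →ₗ[K] K :=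
      LinearMap.comp (dotB σ K : (σ → K) →ₗ[K] (σ → K) →ₗ[K] K) (Q0 (e c))
    have h1 : β = β.flip := by
      apply LinearMap.ext_on hspan
      intro y hy
      apply LinearMap.ext_on hspan
      intro y' hy'
      show dotB σ K (Q0 (e c) y) y' = dotB σ K (Q0 (e c) y') y
      rw [hQ0 _ y hy, hQ0 _ y' hy']
      exact hkey _ (e c).2 y hy y' hy'
    exact LinearMap.congr_fun (LinearMap.congr_fun h1 v) v'

end Pool.Agent.H929R2.Hart
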