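import Pool.Agent.H929R2.Hart.W15

set_option autoImplicit false
set_option maxHeartbeats 400000

namespace Pool.Agent.H929R2.Hart

open MvPolynomial

variable {σ : Type} [Fintype σ] {K : Type} [Field K]

/-- the linear form with coefficients `u` -/
noncomputable def lin (u : σ → K) : MvPolynomial σ K := ∑ k, C (u k) * X k

lemma lin_add (u v : σ → K) : lin (u + v) = lin u + lin v := by
  simp [lin, add_mul, Finset.sum_add_distrib]

lemma lin_smul (c : K) (u : σ → K) : lin (c • u) = C c * lin u := by
  simp [lin, Finset.mul_sum, mul_assoc]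

lemma lin_zero : lin (0 : σ → K) = 0 := by simp [lin]

lemma lin_sum {ι : Type} (s : Finset ι) (u : ι → σ → K) :
    lin (∑ k ∈ s, u k) = ∑ k ∈ s, lin (u k) := by
  classical
  induction s using Finset.induction_on with
  | empty => simp [lin_zero]
  | insert a s ha ih => rw [Finset.sum_insert ha, Finset.sum_insert ha, lin_add, ih]

lemma lin_single [DecidableEq σ] (i : σ) : lin (Pi.single i (1 : K)) = X i := by
  rw [lin, Finset.sum_eq_single i]
  · simp
  · intro k _ hk
    rw [Pi.single_apply, if_neg hk, map_zero, zero_mul]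
  · intro h; exact absurd (Finset.mem_univ _) h

lemma eval_lin (u x : σ → K) : eval x (lin u) = dotB σ K u x := by
  rw [lin, map_sum, dotB_apply]
  exact Finset.sum_congr rfl (fun i _ => by simp)

lemma grad_lin (u x : σ → K) : grad (lin u) x = u := by
  classical
  funext i
  rw [grad, lin, map_sum, map_sum, Finset.sum_eq_single i]
  · simp [pderiv_C_mul]
  · intro k _ hk
    rw [pderiv_C_mul, pderiv_X_of_ne (Ne.symm hk.symm)]
    simp
  · intro h; exact absurd (Finset.mem_univ _) h

lemma lin_homog (u : σ → K) : (lin u).IsHomogeneous 1 := by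
  refine IsHomogeneous.sum _ _ _ (fun k _ => ?_)
  have h1 : (C (u k) : MvPolynomial σ K).IsHomogeneous 0 := isHomogeneous_C _ _
  have h2 := h1.mul (isHomogeneous_X K k)
  simpa using h2

/-- the linear forms in the ideal -/
def linsub (I : Ideal (MvPolynomial σ K)) : Submodule K (σ → K) where
  carrier := {u | lin u ∈ I}
  zero_mem' := by
    show lin 0 ∈ I
    rw [lin_zero]; exact I.zero_mem
  add_mem' := fun {u v} hu hv => by
    show lin (u + v) ∈ I
    rw [lin_add]; exact I.add_mem hu hv
  smul_mem' := fun c u hu => by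
    show lin (c • u) ∈ I
    rw [lin_smul]; exact I.mul_mem_left _ hu

lemma mem_linsub (I : Ideal (MvPolynomial σ K)) (u : σ → K) : u ∈ linsub I ↔ lin u ∈ I := Iff.rfl

section Ext

variable {κ : Type} [Fintype κ] [DecidableEq σ]

/-- extension by zero along an injection -/
noncomputable def extL (a : κ → σ) : (κ → K) →ₗ[K] (σ → K) :=
  ∑ k, (LinearMap.proj k : (κ → K) →ₗ[K] K).smulRight (Pi.single (a k) 1 : σ → K)

lemma extL_apply (a : κ → σ) (u : κ → K) : extL a u = ∑ k, u k • (Pi.single (a k) 1 : σ → K) := by
  rw [extL, LinearMap.sum_apply]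
  rfl

lemma extL_at [DecidableEq κ] {a : κ → σ} (ha : Function.Injective a) (u : κ → K) (k : κ) :
    extL a u (a k) = u k := by
  rw [extL_apply, Finset.sum_apply, Finset.sum_eq_single k]
  · simp
  · intro l _ hl
    rw [Pi.smul_apply, Pi.single_apply, if_neg (fun h => hl (ha h).symm), smul_zero]
  · intro h; exact absurd (Finset.mem_univ _) h

lemma extL_off {a : κ → σ} (u : κ → K) (i : σ) (hi : ∀ k, a k ≠ i) : extL a u i = 0 := by
  rw [extL_apply, Finset.sum_apply]
  refine Finset.sum_eq_zero (fun k _ => ?_)
  rw [Pi.smul_apply, Pi.single_apply, if_neg (fun h => hi k h.symm), smul_zero]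

lemma extL_injective {a : κ → σ} (ha : Function.Injective a) :
    Function.Injective (extL (K := K) a) := by
  classical
  intro u v h
  funext k
  rw [← extL_at ha u k, ← extL_at ha v k, h]

lemma extL_single [DecidableEq κ] {a : κ → σ} (k : κ) :
    extL a (Pi.single k (1 : K)) = Pi.single (a k) 1 := by
  rw [extL_apply, Finset.sum_eq_single k]
  · simp
  · intro l _ hl
    rw [Pi.single_apply, if_neg hl, zero_smul]
  · intro h; exact absurd (Finset.mem_univ _) h

omit [Fintype κ] in
lemma pderiv_rename_off {a : κ → σ} (G : MvPolynomial κ K) (i : σ) (hi : ∀ k, a k ≠ i) :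
    pderiv i (rename a G) = 0 := by
  induction G using MvPolynomial.induction_on with
  | C c => simp
  | add p q hp hq => rw [map_add, map_add, hp, hq, add_zero]
  | mul_X p j hp =>
    rw [map_mul, rename_X, pderiv_mul, hp, pderiv_X_of_ne (hi j)]
    simp

lemma grad_rename {a : κ → σ} (ha : Function.Injective a) (G : MvPolynomial κ K) (x : σ → K) :
    grad (rename a G) x = extL a (grad G (fun k => x (a k))) := by
  classical
  funext i
  by_cases hi : ∃ k, a k = i
  · obtain ⟨k, rfl⟩ := hi
    rw [extL_at ha, grad, pderiv_rename ha, eval_rename]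
    rfl
  · push Not at hi
    rw [extL_off _ _ hi, grad, pderiv_rename_off G i hi, map_zero]

lemma rename_lin (a : κ → σ) (u : κ → K) : rename a (lin u) = lin (extL a u) := by
  rw [extL_apply, lin_sum, lin, map_sum]
  refine Finset.sum_congr rfl (fun k _ => ?_)
  rw [lin_smul, lin_single, map_mul, rename_C, rename_X]

end Ext

omit [Fintype σ] in
lemma mul_mem_ideal {J : Ideal (MvPolynomial σ K)} (p : MvPolynomial σ K) {q} (hq : q ∈ J) :
    p * q ∈ J := J.mul_mem_left p hq

/-- The data of a coordinate subspace onto which the linear span of the variety projects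
isomorphically. -/
structure Red (I : Ideal (MvPolynomial σ K)) [DecidableEq σ] {κ : Type} [Fintype κ] (a : κ → σ)
    (c : σ → κ → K) : Prop where
  inj : Function.Injective a
  u_mem : ∀ i, (Pi.single i 1 : σ → K) - extL a (c i) ∈ linsub I
  indep : ∀ v : κ → K, extL a v ∈ linsub I → v = 0

theorem exists_red [DecidableEq σ] (I : Ideal (MvPolynomial σ K)) :
    ∃ (κ : Type) (_ : Fintype κ) (a : κ → σ) (c : σ → κ → K), Red I a c ∧
      Fintype.card κ + Module.finrank K (linsub I) = Fintype.card σ := by
  classical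
  let v : σ → ((σ → K) ⧸ linsub I) := fun i => (linsub I).mkQ (Pi.single i 1)
  obtain ⟨κ, a, ha, hsp, hli⟩ := exists_linearIndependent' K v
  haveI : Finite κ := Finite.of_injective a ha
  haveI : Fintype κ := Fintype.ofFinite κ
  have htop : Submodule.span K (Set.range v) = ⊤ := by
    rw [eq_top_iff]
    intro q _
    obtain ⟨x, rfl⟩ := (linsub I).mkQ_surjective q
    have h1 : x = ∑ i, x i • (Pi.single i 1 : σ → K) := eq_sum_single x
    rw [h1, map_sum]
    refine Submodule.sum_mem _ (fun i _ => ?_)
    rw [map_smul]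
    exact Submodule.smul_mem _ _ (Submodule.subset_span ⟨i, rfl⟩)
  have hmap : ∀ u : κ → K, (linsub I).mkQ (extL a u) = ∑ k, u k • (v ∘ a) k := by
    intro u
    rw [extL_apply, map_sum]
    refine Finset.sum_congr rfl (fun k _ => ?_)
    rw [map_smul]
    rfl
  have hex : ∀ i, ∃ c : κ → K, (Pi.single i 1 : σ → K) - extL a c ∈ linsub I := by
    intro i
    have h1 : v i ∈ Submodule.span K (Set.range (v ∘ a)) := by
      rw [hsp]; exact Submodule.subset_span ⟨i, rfl⟩
    obtain ⟨c, hc⟩ := (Submodule.mem_span_range_iff_exists_fun K).1 h1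
    refine ⟨c, ?_⟩
    rw [← Submodule.Quotient.mk_eq_zero, ← Submodule.mkQ_apply, map_sub, hmap, hc, sub_self]
  choose c hc using hex
  refine ⟨κ, inferInstance, a, c, ⟨ha, hc, ?_⟩, ?_⟩
  · intro u hu
    have h1 : (linsub I).mkQ (extL a u) = 0 := by
      rw [Submodule.mkQ_apply, Submodule.Quotient.mk_eq_zero]
      exact hu
    rw [hmap] at h1
    funext k
    exact Fintype.linearIndependent_iff.1 hli u h1 k
  · have h1 : Module.finrank K ((σ → K) ⧸ linsub I) = Fintype.card κ := by
      rw [← finrank_span_eq_card hli, hsp, htop, finrank_top]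
    have h2 := Submodule.finrank_quotient_add_finrank (linsub I)
    rw [h1, Module.finrank_fintype_fun_eq_card] at h2
    exact h2

namespace Red

variable [DecidableEq σ] {I : Ideal (MvPolynomial σ K)} {κ : Type} [Fintype κ] {a : κ → σ}
  {c : σ → κ → K}

/-- the inverse of the projection -/
def EE (c : σ → κ → K) (x : κ → K) : σ → K := fun i => ∑ k, c i k * x k

/-- substitution of the coordinates -/
noncomputable def sub (c : σ → κ → K) (F : MvPolynomial σ K) : MvPolynomial κ K :=
  aeval (fun i => lin (c i)) F

/-- the ideal of the projected variety -/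
noncomputable def II (I : Ideal (MvPolynomial σ K)) (a : κ → σ) : Ideal (MvPolynomial κ K) :=
  Ideal.comap (rename a : MvPolynomial κ K →ₐ[K] MvPolynomial σ K) I

omit [DecidableEq σ] [Fintype κ] [Fintype σ] in
lemma mem_II (G : MvPolynomial κ K) : G ∈ II I a ↔ rename a G ∈ I := Iff.rfl

lemma c_at [DecidableEq κ] (h : Red I a c) (k : κ) : c (a k) = Pi.single k 1 := by
  have h1 := h.u_mem (a k)
  rw [← extL_single k, ← map_sub] at h1
  have h2 := h.indep _ h1
  exact (sub_eq_zero.1 h2).symm

/-- the ideal of the linear forms -/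
noncomputable def JJ (I : Ideal (MvPolynomial σ K)) : Ideal (MvPolynomial σ K) :=
  Ideal.span (lin '' (linsub I : Set (σ → K)))

omit [DecidableEq σ] in
lemma JJ_le : JJ I ≤ I := by
  rw [JJ, Ideal.span_le]
  rintro _ ⟨u, hu, rfl⟩
  exact hu

omit [DecidableEq σ] in
lemma lin_mem_JJ {u : σ → K} (hu : u ∈ linsub I) : lin u ∈ JJ I :=
  Ideal.subset_span ⟨u, hu, rfl⟩

lemma X_sub (h : Red I a c) (i : σ) : X i - rename a (lin (c i)) ∈ JJ I := by
  rw [rename_lin]
  have h1 := lin_mem_JJ (h.u_mem i)
  rw [sub_eq_add_neg, ← neg_one_smul K, lin_add, lin_smul, lin_single] at h1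
  rw [sub_eq_add_neg]
  have h2 : (C (-1 : K) : MvPolynomial σ K) * lin (extL a (c i)) = - lin (extL a (c i)) := by
    rw [map_neg, map_one, neg_one_mul]
  rwa [h2] at h1

lemma sub_mem (h : Red I a c) (F : MvPolynomial σ K) : F - rename a (Red.sub c F) ∈ JJ I := by
  induction F using MvPolynomial.induction_on with
  | C t => simp [Red.sub]
  | add p q hp hq =>
    have : p + q - rename a (Red.sub c (p + q)) =
        (p - rename a (Red.sub c p)) + (q - rename a (Red.sub c q)) := by
      simp only [Red.sub, map_add]; ring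
    rw [this]; exact Ideal.add_mem _ hp hq
  | mul_X p j hp =>
    have : p * X j - rename a (Red.sub c (p * X j)) =
        X j * (p - rename a (Red.sub c p)) +
          rename a (Red.sub c p) * (X j - rename a (lin (c j))) := by
      simp only [Red.sub, map_mul, aeval_X]; ring
    rw [this]
    exact Ideal.add_mem _ (Ideal.mul_mem_left _ _ hp) (Ideal.mul_mem_left _ _ (h.X_sub j))

lemma sub_mem_II (h : Red I a c) {F : MvPolynomial σ K} (hF : F ∈ I) : Red.sub c F ∈ II I a := by
  rw [mem_II]
  have h1 := JJ_le (h.sub_mem F)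
  have h2 := I.sub_mem hF h1
  rwa [sub_sub_cancel] at h2

omit [DecidableEq σ] in
lemma res_mem {x : σ → K} (hx : x ∈ cone I) : (fun k => x (a k)) ∈ cone (II I a) := by
  intro G hG
  have h1 := hx _ ((mem_II G).1 hG)
  rw [eval_rename] at h1
  exact h1

lemma EE_at (h : Red I a c) (x : κ → K) (k : κ) : EE c x (a k) = x k := by
  classical
  rw [EE, Finset.sum_eq_single k]
  · rw [h.c_at]; simp
  · intro l _ hl
    rw [h.c_at, Pi.single_apply, if_neg hl, zero_mul]
  · intro h; exact absurd (Finset.mem_univ _) h

lemma dot_extL (x : σ → K) (v : κ → K) : dotB σ K (extL a v) x = ∑ k, v k * x (a k) := by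
  rw [extL_apply, map_sum, LinearMap.sum_apply]
  refine Finset.sum_congr rfl (fun k _ => ?_)
  rw [map_smul, LinearMap.smul_apply, dotB_single, smul_eq_mul]

lemma eq_EE (h : Red I a c) {x : σ → K} (hx : x ∈ cone I) : x = EE c (fun k => x (a k)) := by
  funext i
  have h1 := hx _ (h.u_mem i)
  rw [eval_lin, map_sub, LinearMap.sub_apply, dotB_single, dot_extL] at h1
  rw [EE]
  exact sub_eq_zero.1 h1

lemma eval_JJ (h : Red I a c) (x : κ → K) : ∀ G ∈ JJ I, eval (EE c x) G = 0 := by
  classical
  have key : ∀ u ∈ linsub I, dotB σ K u (EE c x) = 0 := by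
    intro u hu
    -- `u = ∑ u i (e_i - ext (c i)) + ext v`
    have h1 : u - ∑ i, u i • ((Pi.single i 1 : σ → K) - extL a (c i)) =
        extL a (∑ i, u i • c i) := by
      rw [map_sum]
      simp only [map_smul, smul_sub, Finset.sum_sub_distrib]
      rw [← eq_sum_single u]
      abel
    have h2 : extL a (∑ i, u i • c i) ∈ linsub I := by
      rw [← h1]
      exact Submodule.sub_mem _ hu (Submodule.sum_mem _ (fun i _ =>
        Submodule.smul_mem _ _ (h.u_mem i)))
    have h3 := h.indep _ h2
    rw [h3, map_zero, sub_eq_zero] at h1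
    rw [h1, map_sum, LinearMap.sum_apply]
    refine Finset.sum_eq_zero (fun i _ => ?_)
    rw [map_smul, LinearMap.smul_apply, map_sub, LinearMap.sub_apply, dotB_single, dot_extL]
    have h4 : ∑ k, c i k * EE c x (a k) = EE c x i := by
      rw [EE]
      exact Finset.sum_congr rfl (fun k _ => by rw [h.EE_at])
    rw [h4, sub_self, smul_zero]
  intro G hG
  refine Submodule.span_induction ?_ ?_ ?_ ?_ hG
  · rintro _ ⟨u, hu, rfl⟩
    rw [eval_lin]; exact key u hu
  · rw [map_zero]
  · intro p q _ _ hp hq; rw [map_add, hp, hq, add_zero]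
  · intro p q _ hq; rw [smul_eq_mul, map_mul, hq, mul_zero]

lemma EE_mem (h : Red I a c) {x : κ → K} (hx : x ∈ cone (II I a)) : EE c x ∈ cone I := by
  intro F hF
  have h1 := h.eval_JJ x _ (h.sub_mem F)
  rw [map_sub, eval_rename] at h1
  have h2 : (EE c x) ∘ a = x := by funext k; exact h.EE_at x k
  rw [h2, hx _ (h.sub_mem_II hF), sub_zero] at h1
  exact h1

lemma conormal_eq (h : Red I a c) {x : σ → K} (hx : x ∈ cone I) :
    conormal I x = linsub I ⊔ Submodule.map (extL a) (conormal (II I a) (fun k => x (a k))) := by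
  apply le_antisymm
  · rw [conormal, Submodule.span_le]
    rintro _ ⟨F, hF, rfl⟩
    have hJ : ∀ G ∈ JJ I, grad G x ∈ linsub I := by
      intro G hG
      refine Submodule.span_induction ?_ ?_ ?_ ?_ hG
      · rintro _ ⟨u, hu, rfl⟩
        rw [grad_lin]; exact hu
      · have : grad (0 : MvPolynomial σ K) x = 0 := by funext i; simp [grad]
        rw [this]; exact Submodule.zero_mem _
      · intro p q _ _ hp hq; rw [grad_add]; exact Submodule.add_mem _ hp hq
      · intro p q hq' hq
        have hq0 : eval x q = 0 := hx q (JJ_le hq')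
        have : grad (p • q) x = eval x p • grad q x := by
          funext i
          simp only [grad, smul_eq_mul, pderiv_mul, map_add, map_mul, hq0, mul_zero, zero_add,
            Pi.smul_apply]
        rw [this]; exact Submodule.smul_mem _ _ hq
    have h1 : grad F x = grad (F - rename a (Red.sub c F)) x +
        extL a (grad (Red.sub c F) (fun k => x (a k))) := by
      rw [← grad_rename h.inj, ← grad_add, sub_add_cancel]
    rw [h1]
    exact Submodule.add_mem_sup (hJ _ (h.sub_mem F))
      (Submodule.mem_map_of_mem (grad_mem _ _ (h.sub_mem_II hF)))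
  · rw [sup_le_iff]
    refine ⟨fun u hu => ?_, ?_⟩
    · have := grad_mem I x hu
      rwa [grad_lin] at this
    · rw [Submodule.map_le_iff_le_comap, conormal, Submodule.span_le]
      rintro _ ⟨G, hG, rfl⟩
      show extL a (grad G (fun k => x (a k))) ∈ conormal I x
      rw [← grad_rename h.inj]
      exact grad_mem I x hG

lemma finrank_eq (h : Red I a c) {x : σ → K} (hx : x ∈ cone I) :
    Module.finrank K (conormal I x) = Module.finrank K (linsub I) +
      Module.finrank K (conormal (II I a) (fun k => x (a k))) := by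
  rw [h.conormal_eq hx]
  set M := Submodule.map (extL a) (conormal (II I a) (fun k => x (a k))) with hM
  have h1 := Submodule.finrank_sup_add_finrank_inf_eq (linsub I) M
  have h2 : linsub I ⊓ M = ⊥ := by
    rw [eq_bot_iff]
    rintro u ⟨hu, v, _, rfl⟩
    rw [h.indep v hu, map_zero]
    exact Submodule.zero_mem _
  have h3 : Module.finrank K M = Module.finrank K (conormal (II I a) (fun k => x (a k))) :=
    (LinearEquiv.finrank_eq (Submodule.equivMapOfInjective (extL a) (extL_injective h.inj) _)).symm
  rw [h2, finrank_bot] at h1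
  omega

end Red

end Pool.Agent.H929R2.Hart
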