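import Pool.Agent.H929R2.Hart.U8
import Pool.Agent.H929R2.Hart.W16

set_option autoImplicit false
set_option maxHeartbeats 400000

namespace Pool.Agent.H929R2.Hart

open MvPolynomial

variable {σ : Type} [Fintype σ] [DecidableEq σ] {K : Type} [Field K]

variable {M : Matrix σ σ K} {m : ℕ} {I : Ideal (MvPolynomial σ K)} {r : ℕ}

/-- the quadratic form of an endomorphism -/
noncomputable def quad (L : (σ → K) →ₗ[K] (σ → K)) : MvPolynomial σ K :=
  ∑ i, X i * lin (fun j => L (Pi.single j 1) i)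

lemma dot_row (L : (σ → K) →ₗ[K] (σ → K)) (i : σ) (x : σ → K) :
    dotB σ K (fun j => L (Pi.single j 1) i) x = L x i := by
  have h3 : x = ∑ j, x j • (Pi.single j 1 : σ → K) := by
    funext k
    simp [Finset.sum_apply, Pi.single_apply]
  conv_rhs => rw [h3]
  rw [map_sum, Finset.sum_apply, dotB_apply]
  refine Finset.sum_congr rfl (fun j _ => ?_)
  rw [map_smul, Pi.smul_apply, smul_eq_mul, mul_comm]

lemma eval_quad (L : (σ → K) →ₗ[K] (σ → K)) (x : σ → K) :
    eval x (quad L) = dotB σ K (L x) x := by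
  rw [quad, map_sum, dotB_apply]
  refine Finset.sum_congr rfl (fun i _ => ?_)
  rw [map_mul, eval_X, eval_lin, dot_row, mul_comm]

omit [DecidableEq σ] in
lemma grad_mul (F G : MvPolynomial σ K) (x : σ → K) :
    grad (F * G) x = eval x G • grad F x + eval x F • grad G x := gT_mul F G x

lemma grad_quad2 (L : (σ → K) →ₗ[K] (σ → K))
    (hL : ∀ v v', dotB σ K (L v) v' = dotB σ K (L v') v) (x : σ → K) :
    grad (quad L) x = (2 : K) • L x := by
  have h1 : grad (quad L) x = ∑ i, x i • (fun j => L (Pi.single j 1) i) + L x := by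
    rw [quad, grad_sum]
    have h2 : ∀ i, grad (X i * lin (fun j => L (Pi.single j 1) i)) x =
        L x i • (Pi.single i 1 : σ → K) + x i • (fun j => L (Pi.single j 1) i) := by
      intro i
      rw [grad_mul, eval_lin, dot_row, grad_X, grad_lin, eval_X]
    rw [Finset.sum_congr rfl (fun i _ => h2 i), Finset.sum_add_distrib, add_comm]
    congr 1
    funext k
    simp [Finset.sum_apply, Pi.single_apply]
  have h2 : ∑ i, x i • (fun j => L (Pi.single j 1) i) = L x := by
    apply dotB_right_ext (S := Set.univ) Submodule.span_univ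
    intro v _
    rw [hL, map_sum, LinearMap.sum_apply, dotB_apply]
    refine Finset.sum_congr rfl (fun i _ => ?_)
    rw [map_smul, LinearMap.smul_apply, dot_row, smul_eq_mul, mul_comm]
  rw [h1, h2, two_smul]

lemma mem_of_top [IsAlgClosed K] [CharZero K] (h : Nil M m I r) (P : MvPolynomial σ K)
    (hP : ∀ y ∈ cone I, (M ^ m).mulVec y ≠ 0 → eval y P = 0) : P ∈ I := by
  by_contra hne
  apply h.ne
  ext i j
  have h1 : lin ((M ^ m) i) * P ∈ I := by
    apply mem_of_vanish I h.sc.prime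
    intro y hy
    rw [map_mul, eval_lin]
    by_cases hMy : (M ^ m).mulVec y = 0
    · have h2 := congrFun hMy i
      have h3 : dotB σ K ((M ^ m) i) y = 0 := by
        rw [dotB_apply]; exact h2
      rw [h3, zero_mul]
    · rw [hP y hy hMy, mul_zero]
  rcases h.sc.prime.mem_or_mem h1 with h2 | h2
  · have := h.nd _ h2
    rw [congrFun this j]; rfl
  · exact absurd h2 hne

lemma exists_top [IsAlgClosed K] [CharZero K] (h : Nil M m I r) :
    ∃ y ∈ cone I, (M ^ m).mulVec y ≠ 0 := by
  by_contra hne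
  push Not at hne
  have h1 := mem_of_top h 1 (fun y hy hMy => absurd (hne y hy) hMy)
  exact h.sc.prime.ne_top ((Ideal.eq_top_iff_one _).2 h1)

namespace QD

variable {Q : (Fin r → K) →ₗ[K] (σ → K) →ₗ[K] (σ → K)}

lemma quad_mem [IsAlgClosed K] [CharZero K] (h : Nil M m I r) (hQ : QD M m I r Q)
    (c : Fin r → K) : quad (Q c) ∈ I := by
  apply mem_of_top h
  intro y hy hMy
  rw [eval_quad]
  exact tangent_conormal I y (hQ.mem c y hy hMy) (self_tangent h.sc y hy)

lemma iso [IsAlgClosed K] [CharZero K] (h : Nil M m I r) (hQ : QD M m I r Q)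
    (c : Fin r → K) (x : σ → K) (hx : x ∈ cone I) : dotB σ K (Q c x) x = 0 := by
  rw [← eval_quad]
  exact hx _ (hQ.quad_mem h c)

lemma con [IsAlgClosed K] [CharZero K] (h : Nil M m I r) (hQ : QD M m I r Q)
    (c : Fin r → K) (x : σ → K) : Q c x ∈ conormal I x := by
  have h1 := grad_mem I x (hQ.quad_mem h c)
  rw [grad_quad2 _ (hQ.symm c), Submodule.smul_mem_iff _ two_ne_zero] at h1
  exact h1

variable {y : σ → K} {B : Submodule K (σ → K)} {lam : (σ → K) →ₗ[K] (σ → K) →ₗ[K] (σ → K)}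

lemma inj_b [IsAlgClosed K] [CharZero K] (h : Nil M m I r)
    (hW : 3 * r + 1 ≤ Module.finrank K (WW M m)) (hQ : QD M m I r Q)
    (hF : Fl M m I r y B lam) (b1 : σ → K) (hb1 : b1 ∈ B) (hb10 : b1 ≠ 0) (c : Fin r → K)
    (h0 : Q c b1 = 0) : c = 0 := by
  have key : ∀ b1 ∈ B, b1 ≠ 0 → Q c b1 = 0 → ∀ b ∈ B, Q c (y + b) ∈ conormal I b1 := by
    intro b1 hb1 hb10 h0 b hb
    apply conormal_closed I r h.sc.rank b1 (y + b) hb10 _ 0
    intro t ht
    have h1 : b1 + t • (y + b) = t • (y + (b + t⁻¹ • b1)) := by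
      rw [flip_line (y + b) b1 t ht, add_assoc]
    have hmem : b + t⁻¹ • b1 ∈ B := B.add_mem hb (B.smul_mem _ hb1)
    refine ⟨?_, ?_⟩
    · rw [h1]; exact cone_smul I h.sc.homog _ _ (hF.flat _ hmem)
    · rw [smul_zero, add_zero]
      have h2 := hQ.con h c (b1 + t • (y + b))
      rw [map_add, h0, zero_add, map_smul, Submodule.smul_mem_iff _ ht] at h2
      exact h2
  have hbc : b1 ∈ cone I := (hF.cone_b h.sc b1 hb1).1
  let T : B →ₗ[K] (σ → K) := (Q c).comp B.subtype
  have hrank : Module.finrank K B ≤ Module.finrank K (LinearMap.ker T) + r := by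
    have h1 := LinearMap.finrank_range_add_finrank_ker T
    have h2 : Module.finrank K (LinearMap.range T) ≤ r := by
      rw [← h.sc.rank b1 hbc hb10]
      apply Submodule.finrank_mono
      rintro _ ⟨b', rfl⟩
      have h3 := key b1 hb1 hb10 h0 b' b'.2
      have h5 := key b1 hb1 hb10 h0 0 B.zero_mem
      have h4 : Q c (b' : σ → K) = Q c (y + b') - Q c (y + 0) := by
        rw [map_add, map_add, map_zero]; abel
      show Q c (b' : σ → K) ∈ _
      rw [h4]
      exact Submodule.sub_mem _ h3 h5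
    omega
  have h4 := Submodule.finrank_map_subtype_eq B (LinearMap.ker T)
  have hbig := hF.big
  apply hQ.inj c y hF.mem hF.top
  apply zak h (Q c y) ((LinearMap.ker T).map B.subtype)
    ((Submodule.map_subtype_le B _).trans hF.le) (by omega)
  rintro _ ⟨b', hb', rfl⟩ hb0'
  have h5 := key b' b'.2 hb0' (LinearMap.mem_ker.1 hb') 0 B.zero_mem
  rwa [add_zero] at h5

lemma line_of_iso [IsAlgClosed K] [CharZero K] (h : Nil M m I r)
    (hW : 3 * r + 1 ≤ Module.finrank K (WW M m)) (hQ : QD M m I r Q)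
    (hF : Fl M m I r y B lam) (b : σ → K) (hb : b ∈ B) (hb0 : b ≠ 0) (v : σ → K)
    (hbv : ∀ c, dotB σ K (Q c b) v = 0) (hv : ∀ c, dotB σ K (Q c v) v = 0) (t : K) :
    b + t • v ∈ cone I := by
  have hbc : b ∈ cone I := (hF.cone_b h.sc b hb).1
  apply line_lemma I h.sc.prime r (fun x hx hx0 => (h.sc.rank x hx hx0).le) b v hbc hb0
    (fun i => quad (Q (Pi.single i 1))) (fun i => hQ.quad_mem h _)
  · rw [Fintype.linearIndependent_iff]
    intro g hg i
    have h1 : Q ((2 : K) • g) b = 0 := by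
      have h2 : (2 : K) • g = ∑ i, g i • ((2 : K) • (Pi.single i 1 : Fin r → K)) := by
        funext k
        simp [Finset.sum_apply, Pi.single_apply, mul_comm]
      rw [h2, map_sum, LinearMap.sum_apply, ← hg]
      refine Finset.sum_congr rfl (fun i _ => ?_)
      rw [grad_quad2 _ (hQ.symm _), map_smul, map_smul, LinearMap.smul_apply, LinearMap.smul_apply]
    have h3 := hQ.inj_b h hW hF b hb hb0 _ h1
    have h4 := congrFun h3 i
    simpa using h4
  · intro i t
    rw [eval_quad, map_add, map_smul, map_add, map_add, map_smul, map_smul, LinearMap.add_apply,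
      LinearMap.add_apply, LinearMap.smul_apply, LinearMap.smul_apply, hbv, hv, hQ.symm _ v b,
      hbv, hQ.iso h _ b hbc]
    simp

lemma exists_perp (hQB : Fl M m I r y B lam)
    (Q : (Fin r → K) →ₗ[K] (σ → K) →ₗ[K] (σ → K)) (v : σ → K) :
    ∃ B' ≤ B, Module.finrank K B ≤ Module.finrank K B' + r ∧
      ∀ b ∈ B', ∀ c, dotB σ K (Q c b) v = 0 := by
  let Φ : B →ₗ[K] (Fin r → K) :=
    LinearMap.pi (fun i => ((dotB σ K).flip v).comp ((Q (Pi.single i 1)).comp B.subtype))
  refine ⟨(LinearMap.ker Φ).map B.subtype, Submodule.map_subtype_le B _, ?_, ?_⟩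
  · have h1 := LinearMap.finrank_range_add_finrank_ker Φ
    have h2 := Submodule.finrank_le (LinearMap.range Φ)
    rw [Module.finrank_fintype_fun_eq_card, Fintype.card_fin] at h2
    have h4 := Submodule.finrank_map_subtype_eq B (LinearMap.ker Φ)
    omega
  · rintro _ ⟨b, hb, rfl⟩ c
    have h1 : c = ∑ i, c i • (Pi.single i 1 : Fin r → K) := by
      funext j
      simp [Finset.sum_apply, Pi.single_apply]
    rw [h1, map_sum, LinearMap.sum_apply, map_sum, LinearMap.sum_apply]
    refine Finset.sum_eq_zero (fun i _ => ?_)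
    have h2 := congrFun (LinearMap.mem_ker.1 hb) i
    rw [map_smul, LinearMap.smul_apply, map_smul, LinearMap.smul_apply]
    have h3 : dotB σ K (Q (Pi.single i 1) (b : σ → K)) v = 0 := h2
    show c i • dotB σ K (Q (Pi.single i 1) (b : σ → K)) v = 0
    rw [h3, smul_zero]

/-- the cone is defined by the quadrics -/
lemma mem_of_iso [IsAlgClosed K] [CharZero K] (h : Nil M m I r)
    (hW : 3 * r + 1 ≤ Module.finrank K (WW M m)) (hQ : QD M m I r Q)
    (v : σ → K) (hv : ∀ c, dotB σ K (Q c v) v = 0) : v ∈ cone I := by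
  obtain ⟨y, hy, hMy⟩ := exists_top h
  obtain ⟨B, lam, hF⟩ := exists_Fl h hW y hy hMy
  obtain ⟨B', hB', hr, hperp⟩ := exists_perp hF Q v
  have hbig := hF.big
  have hne : B' ≠ ⊥ := by
    intro h0
    rw [h0, finrank_bot] at hr
    omega
  obtain ⟨b, hb, hb0⟩ := (Submodule.ne_bot_iff _).1 hne
  have hl := hQ.line_of_iso h hW hF b (hB' hb) hb0 v (hperp b hb) hv
  apply (cone_of_line I v b _).1
  intro t ht
  rw [flip_line b v t ht]
  exact cone_smul I h.sc.homog _ _ (hl _)

lemma inj_v [IsAlgClosed K] [CharZero K] (h : Nil M m I r)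
    (hW : 3 * r + 1 ≤ Module.finrank K (WW M m)) (hQ : QD M m I r Q)
    (v : σ → K) (hv : v ∈ cone I) (hv0 : v ≠ 0) (c : Fin r → K) (h0 : Q c v = 0) : c = 0 := by
  obtain ⟨y, hy, hMy⟩ := exists_top h
  obtain ⟨B, lam, hF⟩ := exists_Fl h hW y hy hMy
  obtain ⟨B', hB', hr, hperp⟩ := exists_perp hF Q v
  have hbig := hF.big
  let T : B' →ₗ[K] (σ → K) := (Q c).comp B'.subtype
  have hT : ∀ b : B', T b ∈ conormal I v := by
    intro b
    by_cases hb0 : (b : σ → K) = 0
    · show Q c (b : σ → K) ∈ _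
      rw [hb0, map_zero]; exact Submodule.zero_mem _
    have hl := hQ.line_of_iso h hW hF b (hB' b.2) hb0 v (hperp b b.2) (fun c => hQ.iso h c v hv)
    apply conormal_closed I r h.sc.rank v (b : σ → K) hv0 _ 0
    intro t ht
    refine ⟨?_, ?_⟩
    · rw [flip_line (b : σ → K) v t ht]
      exact cone_smul I h.sc.homog _ _ (hl _)
    · rw [smul_zero, add_zero]
      have h2 := hQ.con h c (v + t • (b : σ → K))
      rw [map_add, h0, zero_add, map_smul, Submodule.smul_mem_iff _ ht] at h2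
      exact h2
  have h1 := LinearMap.finrank_range_add_finrank_ker T
  have h2 : Module.finrank K (LinearMap.range T) ≤ r := by
    rw [← h.sc.rank v hv hv0]
    apply Submodule.finrank_mono
    rintro _ ⟨b, rfl⟩
    exact hT b
  have hne : LinearMap.ker T ≠ ⊥ := by
    intro h0
    rw [h0, finrank_bot] at h1
    omega
  obtain ⟨b, hb, hb0⟩ := (Submodule.ne_bot_iff _).1 hne
  exact hQ.inj_b h hW hF b (hB' b.2) (fun h => hb0 (by ext1; exact h)) c (LinearMap.mem_ker.1 hb)

lemma surj_v [IsAlgClosed K] [CharZero K] (h : Nil M m I r)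
    (hW : 3 * r + 1 ≤ Module.finrank K (WW M m)) (hQ : QD M m I r Q)
    (v : σ → K) (hv : v ∈ cone I) (hv0 : v ≠ 0) (η : σ → K) (hη : η ∈ conormal I v) :
    ∃ c, Q c v = η := by
  let T : (Fin r → K) →ₗ[K] conormal I v := LinearMap.codRestrict _ (Q.flip v)
    (fun c => hQ.con h c v)
  have hT : Function.Injective T := by
    rw [← LinearMap.ker_eq_bot, LinearMap.ker_eq_bot']
    intro c hc
    exact hQ.inj_v h hW v hv hv0 c (congrArg Subtype.val hc)
  have hT2 : Function.Surjective T := by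
    rw [← LinearMap.injective_iff_surjective_of_finrank_eq_finrank]
    · exact hT
    · rw [h.sc.rank v hv hv0, Module.finrank_fintype_fun_eq_card, Fintype.card_fin]
  obtain ⟨c, hc⟩ := hT2 ⟨η, hη⟩
  exact ⟨c, congrArg Subtype.val hc⟩

/-- all the quadrics in the ideal -/
lemma exact [IsAlgClosed K] [CharZero K] (h : Nil M m I r)
    (hW : 3 * r + 1 ≤ Module.finrank K (WW M m)) (hQ : QD M m I r Q)
    (P : (σ → K) →ₗ[K] (σ → K)) (hP : ∀ v v', dotB σ K (P v) v' = dotB σ K (P v') v)
    (hPI : ∀ x ∈ cone I, dotB σ K (P x) x = 0) : ∃ c, P = Q c := by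
  have hPc : ∀ x, P x ∈ conormal I x := by
    intro x
    have h0 : quad P ∈ I := by
      apply mem_of_vanish I h.sc.prime
      intro x hx
      rw [eval_quad, hPI x hx]
    have h1 := grad_mem I x h0
    rw [grad_quad2 _ hP, Submodule.smul_mem_iff _ two_ne_zero] at h1
    exact h1
  obtain ⟨y, hy, hMy⟩ := exists_top h
  obtain ⟨B, lam, hF⟩ := exists_Fl h hW y hy hMy
  have hbig := hF.big
  have hne : B ≠ ⊥ := by
    intro h0
    rw [h0, finrank_bot] at hbig
    omega
  obtain ⟨b1, hb1, hb10⟩ := (Submodule.ne_bot_iff _).1 hne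
  obtain ⟨c, hc⟩ := hQ.surj_v h hW b1 (hF.cone_b h.sc b1 hb1).1 hb10 _ (hPc b1)
  refine ⟨c, ?_⟩
  have hA : ∀ z b : σ → K, (∀ s : K, z + s • b ∈ cone I) → (∀ s : K, z + s • b ≠ 0) →
      b ∈ cone I → b ≠ 0 → P b - Q c b = 0 → P z - Q c z = 0 := by
    intro z b hzb hne hb hb0 hbz
    apply pencil0 (Q.flip z) (Q.flip b)
    · intro s v hv
      apply hQ.inj_v h hW _ (hzb s) (hne s)
      rw [map_add, map_smul]
      exact hv
    · intro v hv
      exact hQ.inj_v h hW b hb hb0 v hv
    · intro s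
      have h1 : P z - Q c z ∈ conormal I (z + s • b) := by
        have h2 : P z - Q c z = P (z + s • b) - Q c (z + s • b) := by
          rw [map_add, map_add, map_smul, map_smul]
          have h3 : P b = Q c b := sub_eq_zero.1 hbz
          rw [h3]; abel
        rw [h2]
        exact Submodule.sub_mem _ (hPc _) (hQ.con h c _)
      obtain ⟨v, hv⟩ := hQ.surj_v h hW _ (hzb s) (hne s) _ h1
      refine ⟨v, ?_⟩
      rw [← hv, map_add, map_smul]
      rfl
  have hnz : ∀ z b : σ → K, (M ^ m).mulVec z ≠ 0 → (M ^ m).mulVec b = 0 → ∀ s : K,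
      z + s • b ≠ 0 := by
    intro z b hz hb s h0
    apply hz
    have h1 := congrArg ((M ^ m).mulVec) h0
    rwa [Matrix.mulVec_add, Matrix.mulVec_smul, hb, smul_zero, add_zero, Matrix.mulVec_zero] at h1
  have hB : ∀ b ∈ B, P b - Q c b = 0 := by
    intro b hb
    have h1 := hA (y + b) b1 (fun s => by
        rw [add_assoc]
        exact hF.flat _ (B.add_mem hb (B.smul_mem _ hb1))) (hnz _ _ (by
        rw [Matrix.mulVec_add, top_of_WW (hF.le hb), add_zero]
        exact hMy) (top_of_WW (hF.le hb1))) (hF.cone_b h.sc b1 hb1).1 hb10 (by rw [hc, sub_self])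
    have h2 := hA y b1 (fun s => hF.line b1 hb1 s) (hnz _ _ hMy (top_of_WW (hF.le hb1)))
      (hF.cone_b h.sc b1 hb1).1 hb10 (by rw [hc, sub_self])
    have h3 : P b - Q c b = (P (y + b) - Q c (y + b)) - (P y - Q c y) := by
      rw [map_add, map_add]; abel
    rw [h3, h1, h2, sub_zero]
  apply LinearMap.ext_on (span_top h)
  rintro y' ⟨hy', hMy'⟩
  obtain ⟨B', lam', hF'⟩ := exists_Fl h hW y' hy' hMy'
  obtain ⟨b, hb, hb', hb0⟩ := Fl.exists_two hW hF hF'
  exact sub_eq_zero.1 (hA y' b (fun s => hF'.line b hb' s) (hnz _ _ hMy' (top_of_WW (hF.le hb)))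
    (hF.cone_b h.sc b hb).1 hb0 (hB b hb))

end QD

end Pool.Agent.H929R2.Hart
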