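import Pool.Agent.H929R2.Hart.W13

set_option autoImplicit false
set_option maxHeartbeats 400000

namespace Pool.Agent.H929R2.Hart

open MvPolynomial

variable {σ : Type} [Fintype σ] {K : Type} [Field K]

/-! ### Ranks of polynomial families of linear maps -/

/-- Vectors with polynomial coordinates which are independent at `0` are independent at all but
finitely many points. -/
lemma poly_ind {m : ℕ} (B : Fin m → σ → Polynomial K)
    (h0 : LinearIndependent K (fun i => fun k => (B i k).eval 0)) :
    {t : K | ¬ LinearIndependent K (fun i => fun k => (B i k).eval t)}.Finite := by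
  classical
  obtain ⟨v, hv⟩ := exists_dual_vectors _ h0
  let P : Matrix (Fin m) (Fin m) (Polynomial K) := fun i j => ∑ k, B i k * Polynomial.C (v j k)
  have hP : ∀ t : K, P.det.eval t =
      Matrix.det (fun i j => dotB σ K (fun k => (B i k).eval t) (v j)) := by
    intro t
    have h1 : P.det.eval t = (Polynomial.evalRingHom t) P.det := rfl
    rw [h1, RingHom.map_det]
    congr 1
    ext i j
    simp only [P, RingHom.mapMatrix_apply, Matrix.map_apply, Polynomial.coe_evalRingHom,
      Polynomial.eval_finsetSum, Polynomial.eval_mul, Polynomial.eval_C, dotB_apply]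
  have hP0 : P.det.eval 0 = 1 := by
    rw [hP 0]
    have : (fun i j => dotB σ K (fun k => (B i k).eval 0) (v j)) =
        (1 : Matrix (Fin m) (Fin m) K) := by
      ext i j
      rw [Matrix.one_apply, ← hv i j]
    rw [this, Matrix.det_one]
  have hne : P.det ≠ 0 := by
    intro h
    rw [h, Polynomial.eval_zero] at hP0
    exact zero_ne_one hP0
  refine Set.Finite.subset (P.det.roots.toFinset.finite_toSet) (fun t ht => ?_)
  rw [Finset.mem_coe, Multiset.mem_toFinset, Polynomial.mem_roots hne, Polynomial.IsRoot, hP t,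
    ← Matrix.exists_vecMul_eq_zero_iff]
  rw [Set.mem_ofPred_eq, Fintype.not_linearIndependent_iff] at ht
  obtain ⟨c, hc, i, hci⟩ := ht
  refine ⟨c, fun h0 => hci (congrFun h0 i), ?_⟩
  ext j
  have := congrArg (fun φ => dotB σ K φ (v j)) hc
  simpa [Matrix.vecMul, dotProduct, map_sum, LinearMap.sum_apply] using this

section Fam

variable {r : ℕ} (φ : K → (Fin r → K) →ₗ[K] (σ → K)) (P : Fin r → σ → Polynomial K)

lemma exists_range_basis (f : (Fin r → K) →ₗ[K] (σ → K)) :
    ∃ (ρ : ℕ) (c : Fin ρ → (Fin r → K)), ρ = Module.finrank K (LinearMap.range f) ∧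
      LinearIndependent K (fun i => f (c i)) := by
  let b := Module.finBasis K (LinearMap.range f)
  choose c hc using fun i => (b i).2
  have h1 : (fun i => f (c i)) = fun i => (b i : σ → K) := funext hc
  refine ⟨_, c, rfl, ?_⟩
  rw [h1]
  exact b.linearIndependent.map' (LinearMap.range f).subtype (Submodule.ker_subtype _)

/-- lower semicontinuity of the rank -/
lemma rank_semi (hφ : ∀ t c k, φ t c k = ∑ i, c i * (P i k).eval t) :
    {t : K | Module.finrank K (LinearMap.range (φ t)) <
      Module.finrank K (LinearMap.range (φ 0))}.Finite := by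
  obtain ⟨ρ, c, hρ, hc⟩ := exists_range_basis (φ 0)
  have hB : ∀ t, (fun i => fun k => ((fun i k => ∑ l, Polynomial.C (c i l) * P l k :
      Fin ρ → σ → Polynomial K) i k).eval t) =
      fun i => φ t (c i) := by
    intro t
    funext i k
    rw [hφ]
    simp only [Polynomial.eval_finsetSum, Polynomial.eval_mul, Polynomial.eval_C]
  refine Set.Finite.subset (poly_ind (fun i k => ∑ l, Polynomial.C (c i l) * P l k) (by
    rw [hB]; exact hc)) (fun t ht => ?_)
  rw [Set.mem_ofPred_eq] at ht ⊢
  intro hli
  rw [hB] at hli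
  have h2 : LinearIndependent K (fun i => (⟨φ t (c i), ⟨_, rfl⟩⟩ : LinearMap.range (φ t))) :=
    LinearIndependent.of_comp (LinearMap.range (φ t)).subtype hli
  have := h2.fintype_card_le_finrank
  rw [Fintype.card_fin] at this
  omega

/-- the derivative maps the kernel into the image if the rank does not increase -/
lemma deriv_range (hφ : ∀ t c k, φ t c k = ∑ i, c i * (P i k).eval t)
    (hinf : {t : K | Module.finrank K (LinearMap.range (φ t)) ≤
      Module.finrank K (LinearMap.range (φ 0))}.Infinite) (c : Fin r → K) (hc : φ 0 c = 0) :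
    (fun k => ∑ i, c i * (Polynomial.derivative (P i k)).eval 0) ∈ LinearMap.range (φ 0) := by
  by_contra hd
  obtain ⟨ρ, e, hρ, he⟩ := exists_range_basis (φ 0)
  let Ξ : σ → Polynomial K := fun k => ∑ l, Polynomial.C (c l) * P l k
  have hΞ : ∀ t k, (Ξ k).eval t = φ t c k := by
    intro t k
    rw [hφ]
    simp only [Ξ, Polynomial.eval_finsetSum, Polynomial.eval_mul, Polynomial.eval_C]
  have hΞ0 : ∀ k, (Ξ k).divX.eval 0 = ∑ i, c i * (Polynomial.derivative (P i k)).eval 0 := by
    intro k
    rw [← Polynomial.coeff_zero_eq_eval_zero, Polynomial.coeff_divX]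
    have h2 := Polynomial.coeff_derivative (Ξ k) 0
    simp only [Nat.cast_zero, zero_add, mul_one] at h2
    rw [zero_add, ← h2, Polynomial.coeff_zero_eq_eval_zero]
    simp only [Ξ, Polynomial.derivative_sum, Polynomial.derivative_C_mul,
      Polynomial.eval_finsetSum, Polynomial.eval_mul, Polynomial.eval_C]
  let B : Fin (ρ + 1) → σ → Polynomial K :=
    Fin.cons (fun k => (Ξ k).divX) (fun i k => ∑ l, Polynomial.C (e i l) * P l k)
  have hBt : ∀ t, (fun i => fun k => (B i k).eval t) =
      (Fin.cons (fun k => (Ξ k).divX.eval t) (fun i => φ t (e i)) : Fin (ρ + 1) → σ → K) := by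
    intro t
    funext i
    refine Fin.cases ?_ (fun i => ?_) i
    · rfl
    · funext k
      simp only [B, Fin.cons_succ]
      rw [hφ]
      simp only [Polynomial.eval_finsetSum, Polynomial.eval_mul, Polynomial.eval_C]
  have hB0 : LinearIndependent K (fun i => fun k => (B i k).eval 0) := by
    rw [hBt, linearIndependent_finCons]
    refine ⟨he, ?_⟩
    intro hmem
    apply hd
    have h1 : (fun k => (Ξ k).divX.eval 0) =
        fun k => ∑ i, c i * (Polynomial.derivative (P i k)).eval 0 := funext hΞ0
    rw [← h1]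
    refine (Submodule.span_le.2 ?_) hmem
    rintro _ ⟨i, rfl⟩
    exact ⟨_, rfl⟩
  have hfin := (poly_ind B hB0).union (Set.finite_singleton (0 : K))
  obtain ⟨t, ht1, ht2⟩ := (hinf.sdiff hfin).nonempty
  rw [Set.mem_union, not_or] at ht2
  obtain ⟨ht2, ht3⟩ := ht2
  rw [Set.mem_ofPred_eq, not_not, hBt] at ht2
  have ht0 : t ≠ 0 := ht3
  have hmem : ∀ i, (Fin.cons (fun k => (Ξ k).divX.eval t) (fun i => φ t (e i)) :
      Fin (ρ + 1) → σ → K) i ∈ LinearMap.range (φ t) := by
    intro i
    refine Fin.cases ?_ (fun i => ?_) i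
    · rw [Fin.cons_zero]
      refine ⟨t⁻¹ • c, ?_⟩
      funext k
      rw [map_smul, Pi.smul_apply, smul_eq_mul, ← hΞ]
      have h4 := congrArg (Polynomial.eval t) (Polynomial.divX_mul_X_add (Ξ k))
      rw [Polynomial.eval_add, Polynomial.eval_mul, Polynomial.eval_X, Polynomial.eval_C,
        Polynomial.coeff_zero_eq_eval_zero, hΞ 0, hc, Pi.zero_apply, add_zero] at h4
      rw [← h4]
      field_simp
    · rw [Fin.cons_succ]; exact ⟨_, rfl⟩
  have h2 : LinearIndependent K (fun i => (⟨_, hmem i⟩ : LinearMap.range (φ t))) :=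
    LinearIndependent.of_comp (LinearMap.range (φ t)).subtype ht2
  have h3 := h2.fintype_card_le_finrank
  rw [Fintype.card_fin] at h3
  have h4 : Module.finrank K (LinearMap.range (φ t)) ≤
    Module.finrank K (LinearMap.range (φ 0)) := ht1
  omega

end Fam

end Pool.Agent.H929R2.Hart
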