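import Pool.Agent.H929R2.Hart.W13

set_option autoImplicit false
set_option maxHeartbeats 400000

namespace Pool.Agent.H929R2.Hart

open MvPolynomial

variable {σ : Type} [Fintype σ] [DecidableEq σ] {K : Type} [Field K]

variable {w : σ → ℤ} {I : Ideal (MvPolynomial σ K)} {r : ℕ} {D j : ℤ}

/-- The middle weight space is large. -/
structure Mid (w : σ → ℤ) (I : Ideal (MvPolynomial σ K)) (r : ℕ) (D j : ℤ) : Prop where
  src : Src w I r D
  hj : D = 2 * j
  up : (upper w D).card ≤ 3 * r
  low : (lower w D).card ≤ 3 * r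
  big : 9 * (r * r) + 7 * r + 1 ≤ (wset w j).card

/-- vectors of middle weight which are flat at all the fixed vectors -/
def Good (w : σ → ℤ) (I : Ideal (MvPolynomial σ K)) (j : ℤ) (a : σ → K) : Prop :=
  Hom w j a ∧ ∀ z, Fixed w z → z + a ∈ cone I

namespace Mid

lemma frame_D [IsAlgClosed K] [CharZero K] (M : Mid w I r D j) {p : σ → K} (hp : p ∈ cone I)
    (hp0 : p ≠ 0) (hfix : Fixed w p) {F : Fin r → MvPolynomial σ K} {l : Fin r → ℤ}
    (hF : IsFrame w I p F l) (i : Fin r) : l i = D := by
  have := M.big
  exact all_D M.src j M.hj M.up M.low (by omega) hp hp0 hfix hF i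

lemma V0 [IsAlgClosed K] [CharZero K] (M : Mid w I r D j) (z : σ → K) (hz : Fixed w z) :
    z ∈ cone I := by
  obtain ⟨p, hp, hp0, hfix⟩ := M.src.exists_source
  obtain ⟨F, l, hF⟩ := exists_frame w I r M.src.sc M.src.st p hp hp0
  have := M.src.pos
  exact fixed_mem' M.src hp hp0 hfix hF (fun i => by rw [M.frame_D hp hp0 hfix hF i]; omega) z hz

lemma hY [IsAlgClosed K] [CharZero K] (M : Mid w I r D j) :
    ∀ z, Fixed w z → z ≠ 0 → ∀ ξ ∈ conormal I z, Hom w D ξ := by
  intro z hz hz0 ξ hξ
  obtain ⟨F, l, hF⟩ := exists_frame w I r M.src.sc M.src.st z (M.V0 z hz) hz0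
  obtain ⟨c, rfl⟩ := frame_span M.src.sc (M.V0 z hz) hz0 hF ξ hξ
  intro k hk
  obtain ⟨i, _, hi⟩ := uu_supp hF hz c k hk
  rw [← hi, M.frame_D (M.V0 z hz) hz0 hz hF]

lemma j_pos (M : Mid w I r D j) : 0 < j := by
  have := M.src.pos
  have := M.hj
  omega

lemma card_forms (M : Mid w I r D j) : Fintype.card ((wset w 0) × Fin r) ≤ 3 * (r * r) := by
  have h1 := card_wset_le (w := w) M.hj (m := 0) (by have := M.j_pos; omega) M.up M.low
  rw [Fintype.card_prod, Fintype.card_fin, Fintype.card_coe]
  calc (wset w 0).card * r ≤ (3 * r) * r := Nat.mul_le_mul_right r h1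
    _ = 3 * (r * r) := by ring

end Mid

omit [DecidableEq σ] in
lemma line_rev {I : Ideal (MvPolynomial σ K)} {r : ℕ} [Infinite K] (hI : SCone I r) (x y : σ → K)
    (h : ∀ t : K, x + t • y ∈ cone I) (t : K) (ht : t ≠ 0) : y + t • x ∈ cone I := by
  have h5 : y + t • x = t • (x + t⁻¹ • y) := by
    rw [smul_add, smul_smul, mul_inv_cancel₀ ht, one_smul, add_comm]
  rw [h5]
  exact cone_smul I hI.homog _ _ (h _)

omit [DecidableEq σ] in
lemma line_hess {I : Ideal (MvPolynomial σ K)} [Infinite K] (x y : σ → K)
    (h : ∀ t : K, x + t • y ∈ cone I) (F : MvPolynomial σ K) (hF : F ∈ I) (u : K) :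
    eval (x + u • y) (dd y (dd y F)) = 0 := by
  have h1 : line F x y = 0 := by
    apply Polynomial.funext
    intro t
    rw [eval_line, h t F hF, Polynomial.eval_zero]
  have h2 : line (dd y (dd y F)) x y = 0 := by
    rw [← derivative_line', ← derivative_line', h1]; simp
  rw [← eval_line, h2, Polynomial.eval_zero]

namespace Good

omit [DecidableEq σ] in
lemma smul [IsAlgClosed K] {a : σ → K} (hI : SCone I r) (ha : Good w I j a)
    (hV : ∀ z, Fixed w z → z ∈ cone I) (t : K) : Good w I j (t • a) := by
  refine ⟨fun k hk => ha.1 k (fun h => hk (by rw [Pi.smul_apply, h, smul_zero])), fun z hz => ?_⟩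
  by_cases ht : t = 0
  · rw [ht, zero_smul, add_zero]; exact hV z hz
  · have h1 : z + t • a = t • (t⁻¹ • z + a) := by
      rw [smul_add, smul_smul, mul_inv_cancel₀ ht, one_smul]
    rw [h1]
    apply cone_smul I hI.homog
    apply ha.2
    intro k hk
    exact hz k (fun h => hk (by rw [Pi.smul_apply, h, smul_zero]))

omit [DecidableEq σ] in
lemma line [IsAlgClosed K] {a : σ → K} (hI : SCone I r) (ha : Good w I j a)
    (hV : ∀ z, Fixed w z → z ∈ cone I) (z : σ → K) (hz : Fixed w z) (t : K) :
    z + t • a ∈ cone I := (ha.smul hI hV t).2 z hz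

end Good

omit [DecidableEq σ] in
lemma fixed_single {k : σ} (hk : w k = 0) [DecidableEq σ] :
    Fixed w (Pi.single k 1 : σ → K) := by
  intro k' hk'
  have : k' = k := by
    by_contra hne
    exact hk' (by rw [Pi.single_apply, if_neg hne])
  rw [this]; exact hk

lemma single_ne (k : σ) : (Pi.single k 1 : σ → K) ≠ 0 := by
  intro h0
  have := congrFun h0 k
  simp at this

namespace Mid

/-- The good vectors are the common isotropic vectors of a family of forms. -/
theorem exists_forms [IsAlgClosed K] [CharZero K] (M : Mid w I r D j) :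
    ∃ β : (wset w 0) × Fin r → (σ → K) →ₗ[K] (σ → K) →ₗ[K] K,
      (∀ i a b, β i a b = β i b a) ∧
      (∀ a, Hom w j a → (∀ i, β i a a = 0) → Good w I j a) ∧
      (∀ a, Good w I j a → ∀ i, β i a a = 0) := by
  have hfix : ∀ k : wset w 0, Fixed w (Pi.single (k : σ) 1 : σ → K) := fun k =>
    fixed_single ((mem_wset w 0 k).1 k.2)
  have hjp := M.j_pos
  choose F l hF using fun k : wset w 0 => exists_frame w I r M.src.sc M.src.st
    (Pi.single (k : σ) 1 : σ → K) (M.V0 _ (hfix k)) (single_ne _)
  refine ⟨fun q => hq (F q.1) (Pi.single (q.1 : σ) 1) q.2, fun q a b => hq_symm _ _ _ _ _, ?_, ?_⟩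
  · intro a ha hiso
    by_cases ha0 : a = 0
    · rw [ha0]
      exact ⟨fun k hk => absurd rfl hk, fun z hz => by rw [add_zero]; exact M.V0 z hz⟩
    have hline : ∀ k : wset w 0, ∀ t : K, (Pi.single (k : σ) 1 : σ → K) + t • a ∈ cone I := by
      intro k
      have hpart : part w 0 (Pi.single (k : σ) 1 : σ → K) = Pi.single (k : σ) 1 :=
        part_eq_self (hfix k)
      apply mid_line M.src j M.hj _ (M.V0 _ (hfix k)) (by rw [hpart]; exact single_ne _)
        (F := F k) (l := l k) (by rw [hpart]; exact hF k) a ha ?_ (fun i => hiso (k, i))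
      rw [mem_tangent']
      intro ξ hξ
      have h1 := M.hY _ (hfix k) (single_ne _) ξ hξ
      rw [dotB_apply]
      refine Finset.sum_eq_zero (fun m _ => ?_)
      by_cases hm : ξ m = 0
      · rw [hm, zero_mul]
      · by_cases hm2 : a m = 0
        · rw [hm2, mul_zero]
        · have := h1 m hm
          have := ha m hm2
          have := M.hj
          omega
    -- every fixed vector is tangent at `a`
    obtain ⟨o, ho⟩ := M.src.min
    have ho' : o ∈ wset w 0 := by rw [mem_wset]; exact ho
    have hac : a ∈ cone I := (cone_of_line I a (Pi.single o 1 : σ → K) (fun t ht =>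
      line_rev M.src.sc (Pi.single o 1 : σ → K) a (hline ⟨o, ho'⟩) t ht)).1
    have hT : ∀ z, Fixed w z → z ∈ tangent I a := by
      intro z hz
      have h1 : z = ∑ k, z k • (Pi.single k 1 : σ → K) := by
        funext m
        simp [Finset.sum_apply, Pi.single_apply]
      rw [h1]
      refine Submodule.sum_mem _ (fun k _ => ?_)
      by_cases hk : z k = 0
      · rw [hk, zero_smul]; exact Submodule.zero_mem _
      · have hk' : k ∈ wset w 0 := by rw [mem_wset]; exact hz k hk
        exact Submodule.smul_mem _ _ ((cone_of_line I a (Pi.single k 1 : σ → K) (fun t ht =>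
          line_rev M.src.sc (Pi.single k 1 : σ → K) a (hline ⟨k, hk'⟩) t ht)).2)
    refine ⟨ha, fun z hz => ?_⟩
    have hst : Stable (fun k => j - w k) I := by
      have := stable_neg (stable_shift M.src.sc.homog M.src.st j)
      intro t ht x hx
      have h1 := this t ht x hx
      simpa using h1
    have hfa : Fixed (fun k => j - w k) a := fun k hk => by
      show j - w k = 0
      rw [ha k hk]; ring
    have h2 := flat_line M.src.sc hst j (fun k => by
      show j - w k ≤ j
      have := M.src.nn k
      omega) a hac (fun k hk => (hfa k hk).ge) (by rw [part_eq_self hfa]; exact ha0) z (hT z hz)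
      (fun k hk => by
        show 0 ≤ j - w k ∧ j < 2 * (j - w k)
        rw [hz k hk]
        omega) 1
    rwa [one_smul, add_comm] at h2
  · intro a ha q
    rw [hq_apply, ← eval_dd]
    have := line_hess (Pi.single (q.1 : σ) 1 : σ → K) a
      (ha.line M.src.sc M.V0 _ (hfix q.1)) (F q.1 q.2) ((hF q.1).mem q.2) 0
    rwa [zero_smul, add_zero] at this

/-- the gradients of elements of weight `D` are affine along good directions -/
theorem good_grad [IsAlgClosed K] [CharZero K] (M : Mid w I r D j) (z b : σ → K)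
    (hz : Fixed w z) (hb : Good w I j b) (F : MvPolynomial σ K) (hF : F ∈ I)
    (hFD : IsWeightedHomogeneous w F D) : grad F (z + b) = grad F z + grad (dd b F) z := by
  have hjp := M.j_pos
  funext e
  have hclaim : ∀ u : K, eval (z + u • b) (dd b (dd b (pderiv e F))) = 0 := by
    intro u
    by_cases he : w e = 0
    · rw [← pderiv_dd, ← pderiv_dd]
      set H := dd b (dd b F) with hH
      have h1 : ∀ s : K, eval ((z + u • b) + s • (Pi.single e 1 : σ → K)) H = 0 := by
        intro s
        have h2 : (z + u • b) + s • (Pi.single e 1 : σ → K) =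
            (z + s • (Pi.single e 1 : σ → K)) + u • b := by abel
        rw [h2]
        exact line_hess _ _ (hb.line M.src.sc M.V0 _ (fixed_add hz (fixed_single he) s)) F hF u
      have h3 : Hart.line H (z + u • b) (Pi.single e 1) = 0 := by
        apply Polynomial.funext
        intro s
        rw [eval_line, h1, Polynomial.eval_zero]
      have h4 : eval (z + u • b) (dd (Pi.single e 1 : σ → K) H) = 0 := by
        have h5 := derivative_line' H (z + u • b) (Pi.single e 1)
        rw [h3, Polynomial.derivative_zero] at h5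
        have h6 := congrArg (Polynomial.eval 0) h5
        rw [eval_line, zero_smul, add_zero, Polynomial.eval_zero] at h6
        exact h6.symm
      have h7 : dd (Pi.single e 1 : σ → K) H = pderiv e H := by
        rw [dd, Finset.sum_eq_single e]
        · simp
        · intro k _ hk
          rw [Pi.single_apply, if_neg hk, map_zero, zero_mul]
        · intro h; exact absurd (Finset.mem_univ _) h
      rwa [h7] at h4
    · have h1 := dd_wh (dd_wh (pderiv_wh hFD e) b hb.1) b hb.1
      apply eval_neg' h1 (by
        have h2 := M.src.nn e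
        have h3 := M.hj
        omega)
      intro k hk
      exact M.src.nn k
  have h1 : ∀ u : K, eval (z + u • b) (dd b (pderiv e F)) = eval z (dd b (pderiv e F)) := by
    intro u
    have h2 := poly_affine (Hart.line (dd b (pderiv e F)) z b) 0 (fun v => by
      rw [derivative_line', eval_line, hclaim]) u
    rw [eval_line, eval_line] at h2
    simpa using h2
  have h2 := poly_affine (Hart.line (pderiv e F) z b) (eval z (dd b (pderiv e F))) (fun u => by
    rw [derivative_line', eval_line, h1]) 1
  rw [eval_line, eval_line, zero_smul, add_zero, one_smul, one_mul] at h2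
  simp only [grad, Pi.add_apply]
  rw [h2, pderiv_dd]

section Inj

variable {z : σ → K} {F : Fin r → MvPolynomial σ K} {l : Fin r → ℤ}

lemma good_mem [IsAlgClosed K] [CharZero K] (M : Mid w I r D j) (hz : Fixed w z) (hz0 : z ≠ 0)
    (hF : IsFrame w I z F l) (c : Fin r → K) (b : σ → K) (hb : Good w I j b) :
    uu F z c + LL F z c b ∈ conormal I (z + b) := by
  have h1 : uu F (z + b) c = uu F z c + LL F z c b := by
    rw [uu_apply, uu_apply, LL_apply, ← Finset.sum_add_distrib]
    refine Finset.sum_congr rfl (fun i _ => ?_)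
    have h2 := hF.wh i
    rw [M.frame_D (M.V0 z hz) hz0 hz hF i] at h2
    rw [M.good_grad z b hz hb (F i) (hF.mem i) h2, smul_add]
  rw [← h1]
  exact uu_mem F hF.mem c _

lemma good_mem_smul [IsAlgClosed K] [CharZero K] (M : Mid w I r D j) (hz : Fixed w z)
    (hz0 : z ≠ 0) (hF : IsFrame w I z F l) (c : Fin r → K) (b : σ → K) (hb : Good w I j b)
    (t : K) : uu F z c + t • LL F z c b ∈ conormal I (z + t • b) := by
  have := M.good_mem hz hz0 hF c _ (hb.smul M.src.sc M.V0 t)
  rwa [map_smul] at this

lemma limit_ker [IsAlgClosed K] [CharZero K] (M : Mid w I r D j) (hz : Fixed w z) (hz0 : z ≠ 0)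
    (hF : IsFrame w I z F l) (c : Fin r → K) (a b : σ → K) (ha0 : a ≠ 0)
    (hab : ∀ s : K, Good w I j (s • a + b)) (hLL : LL F z c a = 0) :
    uu F z c + LL F z c b ∈ conormal I a := by
  apply conormal_closed I r M.src.sc.rank a (z + b) ha0 _ 0
  intro t ht
  have h1 : a + t • (z + b) = t • (z + (t⁻¹ • a + b)) := by
    rw [smul_add, smul_add, smul_add, smul_smul, mul_inv_cancel₀ ht, one_smul]
    abel
  rw [h1, conormal_smul I M.src.sc.homog t ht]
  refine ⟨cone_smul I M.src.sc.homog _ _ ((hab _).2 z hz), ?_⟩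
  have h2 := M.good_mem hz hz0 hF c _ (hab t⁻¹)
  rw [map_add, map_smul, hLL, smul_zero, zero_add] at h2
  rwa [smul_zero, add_zero]

/-- The injectivity for good vectors. -/
theorem inj_good [IsAlgClosed K] [CharZero K] (M : Mid w I r D j) (hz : Fixed w z) (hz0 : z ≠ 0)
    (hF : IsFrame w I z F l) (c : Fin r → K) (a : σ → K) (ha : Good w I j a) (ha0 : a ≠ 0)
    (hLL : LL F z c a = 0) : c = 0 := by
  obtain ⟨β, hsym, hg1, hg2⟩ := M.exists_forms
  have hbig := M.big
  have hm0 := M.card_forms
  set m0 := Fintype.card ((wset w 0) × Fin r) with hm0'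
  have hiso : ∀ x : σ → K, Hom w j x → (∀ i, β i a x = 0) → (∀ i, β i x x = 0) →
      ∀ s : K, Good w I j (s • a + x) := by
    intro x hx h1 h2 s
    apply hg1
    · intro k hk
      by_cases hak : a k = 0
      · apply hx k
        intro h0
        apply hk
        rw [Pi.add_apply, Pi.smul_apply, hak, h0, smul_zero, add_zero]
      · exact ha.1 k hak
    · intro i
      have h3 := hg2 a ha i
      have h4 : β i x a = 0 := by rw [hsym]; exact h1 i
      simp only [map_add, map_smul, LinearMap.add_apply, LinearMap.smul_apply, h3, h1 i, h4,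
        h2 i, smul_zero, add_zero]
  have hac : a ∈ cone I := (cone_of_line I a z (fun t ht =>
      line_rev M.src.sc _ _ (ha.line M.src.sc M.V0 z hz) t ht)).1
  have hu : uu F z c ∈ conormal I a := by
    have := M.limit_ker hz hz0 hF c a 0 ha0 (fun s => by
      rw [add_zero]; exact ha.smul M.src.sc M.V0 s) hLL
    rwa [map_zero, add_zero] at this
  set V' : Submodule K (σ → K) :=
    cs K (wset w j) ⊓ Submodule.comap (LL F z c) (conormal I a) with hV'
  -- the codimension of `V'`
  have hcod : (wset w j).card ≤ Module.finrank K V' + 2 * m0 := by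
    obtain ⟨C0, hC0⟩ := Submodule.exists_isCompl V'
    have h1 : Module.finrank K V' + Module.finrank K C0 = Fintype.card σ := by
      have := Submodule.finrank_add_eq_of_isCompl hC0
      rw [Module.finrank_fintype_fun_eq_card] at this
      exact this
    have h2 := finrank_inf_ge C0 (cs K (wset w j))
    rw [finrank_cs] at h2
    by_contra hcon
    push Not at hcon
    let Φ : (σ → K) →ₗ[K] ((wset w 0) × Fin r → K) := LinearMap.pi (fun i => β i a)
    set C := C0 ⊓ cs K (wset w j) with hC
    have h3 : Module.finrank K C ≤ Module.finrank K (C ⊓ LinearMap.ker Φ : Submodule K (σ → K))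
        + m0 := by
      have h4 : Module.finrank K (LinearMap.range (Φ.domRestrict C)) +
        Module.finrank K (LinearMap.ker (Φ.domRestrict C)) = Module.finrank K C :=
        LinearMap.finrank_range_add_finrank_ker _
      have h5 := Submodule.finrank_le (LinearMap.range (Φ.domRestrict C))
      rw [Module.finrank_fintype_fun_eq_card, ← hm0'] at h5
      have h6 : Module.finrank K (LinearMap.ker (Φ.domRestrict C)) ≤
          Module.finrank K (C ⊓ LinearMap.ker Φ : Submodule K (σ → K)) := by
        rw [← Submodule.finrank_map_subtype_eq C (LinearMap.ker (Φ.domRestrict C))]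
        apply Submodule.finrank_mono
        rintro _ ⟨x, hx, rfl⟩
        exact ⟨x.2, hx⟩
      omega
    obtain ⟨x, ⟨hxC, hxΦ⟩, hx0, hxi⟩ := exists_isotropic (C ⊓ LinearMap.ker Φ) β (by omega)
    have hxj := (mem_cs_wset w j x).1 hxC.2
    have hxa : ∀ i, β i a x = 0 := fun i => congrFun (LinearMap.mem_ker.1 hxΦ) i
    have h5 := M.limit_ker hz hz0 hF c a x ha0 (hiso x hxj hxa hxi) hLL
    have h6 : x ∈ V' := by
      refine ⟨hxC.2, ?_⟩
      have := Submodule.sub_mem _ h5 hu
      rwa [add_sub_cancel_left] at this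
    have h7 : x ∈ V' ⊓ C0 := ⟨h6, hxC.1⟩
    rw [hC0.inf_eq_bot] at h7
    exact hx0 h7
  have hW := finrank_ker_le V' (LL F z c) (conormal I a) (fun x hx => hx.2)
  rw [M.src.sc.rank a hac ha0] at hW
  set W := V' ⊓ LinearMap.ker (LL F z c) with hWdef
  apply uu_injective hF.ind
  apply nondeg_vanish M.src
  intro y hy hy0
  have hy1 : y ≠ 0 := by
    rintro rfl
    apply hy0
    funext i
    simp [part]
  have h4 := finrank_inf_tangent M.src.sc y hy hy1 W
  obtain ⟨Fy, ly, hFy⟩ := exists_frame w I r M.src.sc M.src.st (part w 0 y)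
    (limit_cone w I M.src.st y hy (M.src.nn' y)) hy0
  obtain ⟨s, ⟨⟨⟨hsj, _⟩, hsker⟩, hsT⟩, hs0, hsi⟩ := exists_isotropic
    (W ⊓ tangent I y) (Sum.elim (hq Fy y) β) (by
      rw [Fintype.card_sum, Fintype.card_fin, ← hm0']
      omega)
  have hsj' := (mem_cs_wset w j s).1 hsj
  have hgood : Good w I j s := hg1 s hsj' (fun i => hsi (Sum.inr i))
  have hl2 : ∀ t : K, y + t • s ∈ cone I := mid_line M.src j M.hj y hy hy0 hFy s
    hsj' hsT (fun k => hsi (Sum.inl k))
  have hu2 : uu F z c ∈ conormal I s := by
    have := M.limit_ker hz hz0 hF c s 0 hs0 (fun t => by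
      rw [add_zero]; exact hgood.smul M.src.sc M.V0 t) hsker
    rwa [map_zero, add_zero] at this
  have hyT : y ∈ tangent I s :=
    (cone_of_line I s y (fun t ht => line_rev M.src.sc _ _ hl2 t ht)).2
  exact tangent_conormal I s hu2 hyT

end Inj

end Mid

end Pool.Agent.H929R2.Hart
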