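import Pool.Agent.H929R2.Hart.V1
import Pool.Agent.H929R2.Hart.W14

set_option autoImplicit false
set_option maxHeartbeats 400000

namespace Pool.Agent.H929R2.Hart

open MvPolynomial

variable {σ : Type} [Fintype σ] [DecidableEq σ] {K : Type} [Field K]

variable {w : σ → ℤ} {I : Ideal (MvPolynomial σ K)} {r : ℕ} {D j : ℤ}

omit [Fintype σ] [DecidableEq σ] in
lemma poly_quad [CharZero K] (p : Polynomial K) (κ : K)
    (h : ∀ t : K, (Polynomial.derivative (Polynomial.derivative p)).eval t = κ) (t : K) :
    p.eval t = p.eval 0 + t * (Polynomial.derivative p).eval 0 + t ^ 2 * (κ / 2) := by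
  have h1 := fun u => poly_affine (Polynomial.derivative p) κ h u
  have h2 := poly_affine (p - Polynomial.C (κ / 2) * Polynomial.X ^ 2)
    ((Polynomial.derivative p).eval 0) (fun u => by
      rw [Polynomial.derivative_sub, Polynomial.eval_sub, h1 u, Polynomial.derivative_C_mul,
        Polynomial.derivative_X_pow]
      simp only [Polynomial.eval_mul, Polynomial.eval_C, Polynomial.eval_pow, Polynomial.eval_X]
      push_cast
      field_simp
      ring) t
  rw [Polynomial.eval_sub, Polynomial.eval_sub] at h2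
  simp only [Polynomial.eval_mul, Polynomial.eval_C, Polynomial.eval_pow,
    Polynomial.eval_X] at h2
  linear_combination h2

/-- The middle weight space is large (linear bound). -/
structure MidL (w : σ → ℤ) (I : Ideal (MvPolynomial σ K)) (r : ℕ) (D j : ℤ) : Prop where
  src : Src w I r D
  hj : D = 2 * j
  hr : 1 ≤ r
  up : (upper w D).card ≤ 3 * r
  low : (lower w D).card ≤ 3 * r
  big : 11 * r ≤ (wset w j).card

namespace MidL

lemma frame_D [IsAlgClosed K] [CharZero K] (M : MidL w I r D j) {p : σ → K} (hp : p ∈ cone I)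
    (hp0 : p ≠ 0) (hfix : Fixed w p) {F : Fin r → MvPolynomial σ K} {l : Fin r → ℤ}
    (hF : IsFrame w I p F l) (i : Fin r) : l i = D := by
  have := M.big
  have := M.hr
  exact all_D M.src j M.hj M.up M.low (by omega) hp hp0 hfix hF i

lemma V0 [IsAlgClosed K] [CharZero K] (M : MidL w I r D j) (z : σ → K) (hz : Fixed w z) :
    z ∈ cone I := by
  obtain ⟨p, hp, hp0, hfix⟩ := M.src.exists_source
  obtain ⟨F, l, hF⟩ := exists_frame w I r M.src.sc M.src.st p hp hp0
  have := M.src.pos
  exact fixed_mem' M.src hp hp0 hfix hF (fun i => by rw [M.frame_D hp hp0 hfix hF i]; omega) z hz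

lemma hY [IsAlgClosed K] [CharZero K] (M : MidL w I r D j) :
    ∀ z, Fixed w z → z ≠ 0 → ∀ ξ ∈ conormal I z, Hom w D ξ := by
  intro z hz hz0 ξ hξ
  obtain ⟨F, l, hF⟩ := exists_frame w I r M.src.sc M.src.st z (M.V0 z hz) hz0
  obtain ⟨c, rfl⟩ := frame_span M.src.sc (M.V0 z hz) hz0 hF ξ hξ
  intro k hk
  obtain ⟨i, _, hi⟩ := uu_supp hF hz c k hk
  rw [← hi, M.frame_D (M.V0 z hz) hz0 hz hF]

lemma j_pos (M : MidL w I r D j) : 0 < j := by
  have := M.src.pos
  have := M.hj
  omega

lemma wt [IsAlgClosed K] [CharZero K] (M : MidL w I r D j) {p : σ → K} (hp : Fixed w p)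
    (hp0 : p ≠ 0) {F : Fin r → MvPolynomial σ K} {l : Fin r → ℤ} (hF : IsFrame w I p F l)
    (i : Fin r) : IsWeightedHomogeneous w (F i) D := by
  have h2 := hF.wh i
  rwa [M.frame_D (M.V0 p hp) hp0 hp hF i] at h2

/-- isotropic vectors of middle weight are flat -/
lemma iso_line [IsAlgClosed K] [CharZero K] (M : MidL w I r D j) {p : σ → K} (hp : Fixed w p)
    (hp0 : p ≠ 0) {F : Fin r → MvPolynomial σ K} {l : Fin r → ℤ} (hF : IsFrame w I p F l)
    (a : σ → K) (ha : Hom w j a) (hiso : ∀ i, hq F p i a a = 0) (t : K) :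
    p + t • a ∈ cone I := by
  have hjp := M.j_pos
  have hpart : part w 0 p = p := part_eq_self hp
  apply mid_line M.src j M.hj p (M.V0 p hp) (by rw [hpart]; exact hp0)
    (F := F) (l := l) (by rw [hpart]; exact hF) a ha ?_ hiso
  rw [mem_tangent']
  intro ξ hξ
  have h1 := M.hY _ hp hp0 ξ hξ
  rw [dotB_apply]
  refine Finset.sum_eq_zero (fun m _ => ?_)
  by_cases hm : ξ m = 0
  · rw [hm, zero_mul]
  · by_cases hm2 : a m = 0
    · rw [hm2, mul_zero]
    · have := h1 m hm
      have := ha m hm2
      have := M.hj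
      omega

lemma part_pa (M : MidL w I r D j) {p a : σ → K} (hp : Fixed w p) (ha : Hom w j a) (t : K) :
    part w 0 (p + t • a) = p := by
  have hjp := M.j_pos
  funext k
  simp only [part, Pi.add_apply, Pi.smul_apply, smul_eq_mul]
  by_cases hk : w k = 0
  · rw [if_pos hk]
    have : a k = 0 := by
      by_contra hne
      have := ha k hne
      omega
    rw [this, mul_zero, add_zero]
  · rw [if_neg hk]
    by_contra hne
    exact hk (hp k (Ne.symm hne))

/-- second order expansion of the gradients in directions of middle weight -/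
lemma grad_quad [IsAlgClosed K] [CharZero K] (M : MidL w I r D j) {p a : σ → K}
    (hp : Fixed w p) (ha : Hom w j a) (G : MvPolynomial σ K)
    (hG : IsWeightedHomogeneous w G D) (t : K) (e : σ) :
    grad G (p + t • a) e = grad G p e + t * grad (dd a G) p e +
      t ^ 2 * ((if w e = 0 then eval p (dd a (dd a (pderiv e G))) else 0) / 2) := by
  have hjp := M.j_pos
  have hj := M.hj
  have h0 : ∀ u : K, eval (p + u • a) (dd a (dd a (pderiv e G))) =
      if w e = 0 then eval p (dd a (dd a (pderiv e G))) else 0 := by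
    intro u
    have h1 := dd_wh (dd_wh (pderiv_wh hG e) a ha) a ha
    have hne := M.src.nn e
    split_ifs with he
    · have h2 : D - w e - j - j = 0 := by omega
      rw [h2] at h1
      rw [eval_zero_wt h1 _ (M.src.nn' _), M.part_pa hp ha]
    · apply eval_neg' h1 (by omega)
      exact M.src.nn' _
  have h2 := poly_quad (line (pderiv e G) p a) _ (fun u => by
    rw [derivative_line', derivative_line', eval_line, h0 u]) t
  rw [derivative_line', eval_line, eval_line, eval_line, zero_smul, add_zero] at h2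
  simp only [grad]
  rw [h2, pderiv_dd]

/-- the quadratic part of the gradients of the frame -/
noncomputable def Qm (F : Fin r → MvPolynomial σ K) (p a : σ → K) :
    (Fin r → K) →ₗ[K] (σ → K) := uu F (p + a) - uu F p - (LL F p).flip a

lemma Qm_apply (F : Fin r → MvPolynomial σ K) (p a : σ → K) (c : Fin r → K) :
    Qm F p a c = uu F (p + a) c - uu F p c - LL F p c a := rfl

lemma Qm_fixed [IsAlgClosed K] [CharZero K] (M : MidL w I r D j) {p a : σ → K}
    (hp : Fixed w p) (hp0 : p ≠ 0) {F : Fin r → MvPolynomial σ K} {l : Fin r → ℤ}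
    (hF : IsFrame w I p F l) (ha : Hom w j a) (c : Fin r → K) : Fixed w (Qm F p a c) := by
  intro e he
  by_contra hne
  apply he
  have h1 : ∀ i, grad (F i) (p + a) e = grad (F i) p e + grad (dd a (F i)) p e := by
    intro i
    have h2 := M.grad_quad hp ha (F i) (M.wt hp hp0 hF i) 1 e
    rw [if_neg hne, one_smul] at h2
    simpa using h2
  rw [Qm_apply, Pi.sub_apply, Pi.sub_apply, uu_apply, uu_apply, LL_apply, Finset.sum_apply,
    Finset.sum_apply, Finset.sum_apply, sub_sub, ← Finset.sum_add_distrib, sub_eq_zero]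
  refine Finset.sum_congr rfl (fun i _ => ?_)
  rw [Pi.smul_apply, Pi.smul_apply, Pi.smul_apply, h1, smul_add]

lemma uu_quad [IsAlgClosed K] [CharZero K] (M : MidL w I r D j) {p a : σ → K}
    (hp : Fixed w p) (hp0 : p ≠ 0) {F : Fin r → MvPolynomial σ K} {l : Fin r → ℤ}
    (hF : IsFrame w I p F l) (ha : Hom w j a) (c : Fin r → K) (t : K) :
    uu F (p + t • a) c = uu F p c + t • LL F p c a + t ^ 2 • Qm F p a c := by
  funext e
  have h1 : ∀ i, grad (F i) (p + t • a) e = grad (F i) p e + t * grad (dd a (F i)) p e +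
      t ^ 2 * (grad (F i) (p + a) e - grad (F i) p e - grad (dd a (F i)) p e) := by
    intro i
    have h2 := M.grad_quad hp ha (F i) (M.wt hp hp0 hF i) t e
    have h3 := M.grad_quad hp ha (F i) (M.wt hp hp0 hF i) 1 e
    rw [one_smul] at h3
    rw [h2, h3]
    ring
  rw [Pi.add_apply, Pi.add_apply, Pi.smul_apply, Pi.smul_apply, Qm_apply, Pi.sub_apply,
    Pi.sub_apply, uu_apply, uu_apply, uu_apply, LL_apply, Finset.sum_apply,
    Finset.sum_apply, Finset.sum_apply, Finset.sum_apply]
  simp only [Pi.smul_apply, smul_eq_mul, h1]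
  rw [← Finset.sum_sub_distrib, ← Finset.sum_sub_distrib, Finset.mul_sum, Finset.mul_sum,
    ← Finset.sum_add_distrib, ← Finset.sum_add_distrib]
  exact Finset.sum_congr rfl (fun i _ => by ring)

/-- the Hessian at `p + a` and at `p` have the same components of middle weight -/
lemma LL_shift [IsAlgClosed K] [CharZero K] (M : MidL w I r D j) {p a s : σ → K}
    (hp : Fixed w p) (hp0 : p ≠ 0) {F : Fin r → MvPolynomial σ K} {l : Fin r → ℤ}
    (hF : IsFrame w I p F l) (ha : Hom w j a) (hs : Hom w j s) (c : Fin r → K)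
    (h0 : LL F (p + a) c s = 0) : LL F p c s = 0 := by
  have hj := M.hj
  funext e
  by_contra hne
  obtain ⟨i, _, hi⟩ := LL_supp hF hp c s j hs e hne
  rw [M.frame_D (M.V0 p hp) hp0 hp hF i] at hi
  apply hne
  rw [← h0, LL_apply, LL_apply, Finset.sum_apply, Finset.sum_apply]
  refine Finset.sum_congr rfl (fun i _ => ?_)
  rw [Pi.smul_apply, Pi.smul_apply]
  congr 1
  have h1 := pderiv_wh (dd_wh (M.wt hp hp0 hF i) s hs) e
  have h2 : D - j - w e = 0 := by omega
  rw [h2] at h1
  have h3 := eval_zero_wt h1 (p + a) (M.src.nn' _)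
  have h4 := M.part_pa hp ha 1
  rw [one_smul] at h4
  rw [h4] at h3
  exact h3.symm

/-- The key lemma: a vector in the kernel for which all the derivatives are in the image. -/
theorem ker_zero [IsAlgClosed K] [CharZero K] (M : MidL w I r D j) {p : σ → K}
    (hp : Fixed w p) (hp0 : p ≠ 0) {F : Fin r → MvPolynomial σ K} {l : Fin r → ℤ}
    (hF : IsFrame w I p F l) {ι : Type} [Fintype ι] (β : ι → (σ → K) →ₗ[K] (σ → K) →ₗ[K] K)
    (hβ : Fintype.card ι ≤ 2 * r) (a : σ → K) (ha : Hom w j a) (c : Fin r → K)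
    (hc : uu F (p + a) c = uu F p c)
    (hdir : ∀ b, Hom w j b → (∀ i, β i b b = 0) → (∀ i, β i a b = 0) →
      LL F (p + a) c b ∈ LinearMap.range (uu F (p + a) - uu F p)) : c = 0 := by
  by_contra hc0
  have hbig := M.big
  have hn0 := card_wset_le (w := w) M.hj (m := 0) (by have := M.j_pos; omega) M.up M.low
  set R := LinearMap.range (uu F (p + a) - uu F p) with hR
  have hRfin : Module.finrank K R + 1 ≤ r := by
    have h1 : Module.finrank K R + Module.finrank K (LinearMap.ker (uu F (p + a) - uu F p)) =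
      Module.finrank K (Fin r → K) := LinearMap.finrank_range_add_finrank_ker _
    rw [Module.finrank_fintype_fun_eq_card, Fintype.card_fin] at h1
    have h2 : LinearMap.ker (uu F (p + a) - uu F p) ≠ ⊥ := by
      intro h
      apply hc0
      have h3 : c ∈ LinearMap.ker (uu F (p + a) - uu F p) := by
        rw [LinearMap.mem_ker, LinearMap.sub_apply, hc, sub_self]
      rw [h] at h3
      exact h3
    have h3 := Submodule.one_le_finrank_iff.2 h2
    omega
  set V' : Submodule K (σ → K) :=
    cs K (wset w j) ⊓ Submodule.comap (LL F (p + a) c) R with hV'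
  have hcod : (wset w j).card ≤ Module.finrank K V' + 4 * r := by
    obtain ⟨C0, hC0⟩ := Submodule.exists_isCompl V'
    have h1 : Module.finrank K V' + Module.finrank K C0 = Fintype.card σ := by
      have := Submodule.finrank_add_eq_of_isCompl hC0
      rw [Module.finrank_fintype_fun_eq_card] at this
      exact this
    have h2 := finrank_inf_ge C0 (cs K (wset w j))
    rw [finrank_cs] at h2
    by_contra hcon
    push Not at hcon
    let Φ : (σ → K) →ₗ[K] (ι → K) := LinearMap.pi (fun i => β i a)
    set C := C0 ⊓ cs K (wset w j) with hC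
    have h3 : Module.finrank K C ≤ Module.finrank K (C ⊓ LinearMap.ker Φ : Submodule K (σ → K))
        + Fintype.card ι := by
      have h4 : Module.finrank K (LinearMap.range (Φ.domRestrict C)) +
        Module.finrank K (LinearMap.ker (Φ.domRestrict C)) = Module.finrank K C :=
        LinearMap.finrank_range_add_finrank_ker _
      have h5 := Submodule.finrank_le (LinearMap.range (Φ.domRestrict C))
      rw [Module.finrank_fintype_fun_eq_card] at h5
      have h6 : Module.finrank K (LinearMap.ker (Φ.domRestrict C)) ≤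
          Module.finrank K (C ⊓ LinearMap.ker Φ : Submodule K (σ → K)) := by
        rw [← Submodule.finrank_map_subtype_eq C (LinearMap.ker (Φ.domRestrict C))]
        apply Submodule.finrank_mono
        rintro _ ⟨x, hx, rfl⟩
        exact ⟨x.2, hx⟩
      omega
    obtain ⟨x, ⟨hxC, hxΦ⟩, hx0, hxi⟩ := exists_isotropic (C ⊓ LinearMap.ker Φ) β (by omega)
    have hxj := (mem_cs_wset w j x).1 hxC.2
    have hxa : ∀ i, β i a x = 0 := fun i => congrFun (LinearMap.mem_ker.1 hxΦ) i
    have h6 : x ∈ V' := ⟨hxC.2, hdir x hxj hxi hxa⟩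
    have h7 : x ∈ V' ⊓ C0 := ⟨h6, hxC.1⟩
    rw [hC0.inf_eq_bot] at h7
    exact hx0 h7
  have hW := finrank_ker_le V' (LL F (p + a) c) R (fun x hx => hx.2)
  set W := V' ⊓ LinearMap.ker (LL F (p + a) c) with hWdef
  apply hc0
  apply uu_injective hF.ind
  apply nondeg_vanish M.src
  intro y hy hy0
  have hy1 : y ≠ 0 := by
    rintro rfl
    apply hy0
    funext i
    simp [part]
  have h4 := finrank_inf_tangent M.src.sc y hy hy1 W
  obtain ⟨Fy, ly, hFy⟩ := exists_frame w I r M.src.sc M.src.st (part w 0 y)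
    (limit_cone w I M.src.st y hy (M.src.nn' y)) hy0
  set G := comb F c with hG
  have hGI : G ∈ I := comb_mem F hF.mem c
  have hGD : IsWeightedHomogeneous w G D := by
    rw [hG, comb, ← mem_weightedHomogeneousSubmodule]
    refine Submodule.sum_mem _ (fun i _ => ?_)
    rw [← smul_eq_C_mul]
    apply Submodule.smul_mem
    rw [mem_weightedHomogeneousSubmodule]
    exact M.wt hp hp0 hF i
  obtain ⟨s, ⟨⟨⟨hsj, _⟩, hsker⟩, hsT⟩, hs0, hsi⟩ := exists_isotropic
    (W ⊓ tangent I y) (Sum.elim (Sum.elim (hq Fy y) (hq F p))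
      (fun e : wset w 0 => hq (fun _ : Fin 1 => pderiv (e : σ) G) p 0)) (by
      rw [Fintype.card_sum, Fintype.card_sum, Fintype.card_fin, Fintype.card_coe]
      omega)
  have hsj' := (mem_cs_wset w j s).1 hsj
  have hLs : LL F p c s = 0 := M.LL_shift hp hp0 hF ha hsj' c hsker
  have hl1 : ∀ t : K, p + t • s ∈ cone I := M.iso_line hp hp0 hF s hsj'
    (fun i => hsi (Sum.inl (Sum.inr i)))
  have hl2 : ∀ t : K, y + t • s ∈ cone I := mid_line M.src j M.hj y hy hy0 hFy s
    hsj' hsT (fun k => hsi (Sum.inl (Sum.inl k)))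
  have hgr : ∀ t : K, grad G (p + t • s) = uu F p c := by
    intro t
    funext e
    rw [M.grad_quad hp hsj' G hGD t e, hess_comb, hLs, grad_comb]
    have h5 : (if w e = 0 then eval p (dd s (dd s (pderiv e G))) else 0) = 0 := by
      split_ifs with he
      · have h6 := hsi (Sum.inr ⟨e, by rw [mem_wset]; exact he⟩)
        rw [Sum.elim_inr, hq_apply, ← eval_dd] at h6
        exact h6
      · rfl
    rw [h5, Pi.zero_apply]
    ring
  have hu2 : uu F p c ∈ conormal I s := by
    apply conormal_closed I r M.src.sc.rank s p hs0 _ 0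
    intro t ht
    have h5 : s + t • p = t • (p + t⁻¹ • s) := by
      rw [smul_add, smul_smul, mul_inv_cancel₀ ht, one_smul, add_comm]
    rw [h5, conormal_smul I M.src.sc.homog t ht, smul_zero, add_zero]
    refine ⟨cone_smul I M.src.sc.homog _ _ (hl1 _), ?_⟩
    rw [← hgr t⁻¹]
    exact grad_mem I _ hGI
  have hyT : y ∈ tangent I s :=
    (cone_of_line I s y (fun t ht => line_rev M.src.sc _ _ hl2 t ht)).2
  exact tangent_conormal I s hu2 hyT

end MidL

end Pool.Agent.H929R2.Hart
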