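import Pool.Agent.H929R2.Hart.W14

set_option autoImplicit false
set_option maxHeartbeats 400000

namespace Pool.Agent.H929R2.Hart

open MvPolynomial

variable {σ : Type} [Fintype σ] [DecidableEq σ] {K : Type} [Field K]

variable {w : σ → ℤ} {I : Ideal (MvPolynomial σ K)} {r : ℕ} {D j : ℤ}

namespace Mid

lemma limit_good [IsAlgClosed K] [CharZero K] (M : Mid w I r D j) {z : σ → K}
    {F : Fin r → MvPolynomial σ K} {l : Fin r → ℤ} (hz : Fixed w z) (hz0 : z ≠ 0)
    (hF : IsFrame w I z F l) (c : Fin r → K) (a : σ → K) (ha : Good w I j a) (ha0 : a ≠ 0) :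
    LL F z c a ∈ conormal I a := by
  apply conormal_closed I r M.src.sc.rank a z ha0 _ (uu F z c)
  intro t ht
  have h1 : a + t • z = t • (z + t⁻¹ • a) := by
    rw [smul_add, smul_smul, mul_inv_cancel₀ ht, one_smul, add_comm]
  rw [h1, conormal_smul I M.src.sc.homog t ht]
  refine ⟨cone_smul I M.src.sc.homog _ _ (ha.line M.src.sc M.V0 z hz _), ?_⟩
  have h2 := Submodule.smul_mem _ t (M.good_mem_smul hz hz0 hF c a ha t⁻¹)
  rwa [smul_add, smul_smul, mul_inv_cancel₀ ht, one_smul, add_comm (t • uu F z c) _] at h2

lemma span_good [IsAlgClosed K] [CharZero K] (M : Mid w I r D j) {z : σ → K}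
    {F : Fin r → MvPolynomial σ K} {l : Fin r → ℤ} (hz : Fixed w z) (hz0 : z ≠ 0)
    (hF : IsFrame w I z F l) (a : σ → K) (hac : a ∈ cone I) (ha : Good w I j a) (ha0 : a ≠ 0)
    (ξ : σ → K) (hξ : ξ ∈ conormal I a) : ∃ c, LL F z c a = ξ := by
  have h1 : LinearMap.range ((LL F z).flip a) = conormal I a := by
    apply Submodule.eq_of_le_of_finrank_eq
    · rintro _ ⟨c, rfl⟩
      exact M.limit_good hz hz0 hF c a ha ha0
    · rw [LinearMap.finrank_range_of_inj, Module.finrank_fintype_fun_eq_card, Fintype.card_fin,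
        M.src.sc.rank a hac ha0]
      rw [← LinearMap.ker_eq_bot, LinearMap.ker_eq_bot']
      intro c hc
      exact M.inj_good hz hz0 hF c a ha ha0 hc
  rw [← h1] at hξ
  exact hξ

/-- The linear parametrization of the conormal spaces at the fixed vectors. -/
theorem exists_lamB [IsAlgClosed K] [CharZero K] (M : Mid w I r D j) :
    ∃ b : (Fin r → K) →ₗ[K] (σ → K) →ₗ[K] (σ → K), LamB w I b := by
  obtain ⟨β, hsym, hg1, hg2⟩ := M.exists_forms
  have hbig := M.big
  have hm0 := M.card_forms
  have hjp := M.j_pos
  have hj := M.hj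
  obtain ⟨a, haj, ha0, hai⟩ := exists_isotropic (cs K (wset w j)) β (by
    rw [finrank_cs]
    omega)
  have haj' := (mem_cs_wset w j a).1 haj
  have ha : Good w I j a := hg1 a haj' hai
  obtain ⟨p, hp, hp0, hfix⟩ := M.src.exists_source
  have hac : a ∈ cone I := (cone_of_line I a p (fun t ht =>
      line_rev M.src.sc p a (ha.line M.src.sc M.V0 p hfix) t ht)).1
  obtain ⟨G, m, hG⟩ := exists_frame (fun k => w k - j) I r M.src.sc
    (stable_shift M.src.sc.homog M.src.st j) a hac ha0
  refine ⟨LL G a, fun z hz hz0 => ?_⟩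
  obtain ⟨F, l, hF⟩ := exists_frame w I r M.src.sc M.src.st z (M.V0 z hz) hz0
  have hlD := M.frame_D (M.V0 z hz) hz0 hz hF
  have key : ∀ c d, LL F z c a = uu G a d → LL G a d z = uu F z c := by
    intro c d hcd
    apply lam M.src j j hjp a ha0 haj' hG ?_ z hz (ha.line M.src.sc M.V0 z hz) (uu F z c)
      (LL F z c a) (M.good_mem_smul hz hz0 hF c a ha) ?_ d hcd.symm
    · intro η hη k hk
      obtain ⟨c, rfl⟩ := M.span_good hz hz0 hF a hac ha ha0 η hη
      obtain ⟨i, _, hi⟩ := LL_supp hF hz c a j haj' k hk
      have h1 := hlD i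
      omega
    · intro k hk
      obtain ⟨i, _, hi⟩ := uu_supp hF hz c k hk
      have h1 := hlD i
      omega
  refine ⟨fun d => ?_, fun d hd => ?_, fun ξ hξ => ?_⟩
  · obtain ⟨c, hc⟩ := M.span_good hz hz0 hF a hac ha ha0 _ (uu_mem G hG.mem d a)
    rw [key c d hc]
    exact uu_mem F hF.mem c z
  · obtain ⟨c, hc⟩ := M.span_good hz hz0 hF a hac ha ha0 _ (uu_mem G hG.mem d a)
    rw [key c d hc] at hd
    have h1 := uu_injective hF.ind c hd
    rw [h1, map_zero, LinearMap.zero_apply] at hc
    exact uu_injective hG.ind d hc.symm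
  · obtain ⟨c, hc⟩ := frame_span M.src.sc (M.V0 z hz) hz0 hF ξ hξ
    obtain ⟨d, hd⟩ := frame_span M.src.sc hac ha0 hG _ (M.limit_good hz hz0 hF c a ha ha0)
    exact ⟨d, by rw [key c d hd.symm, hc]⟩

theorem card_lt [IsAlgClosed K] [CharZero K] (M : Mid w I r D j) (hr : 2 ≤ r) :
    (wset w 0).card < (wset w D).card := by
  obtain ⟨b, hb⟩ := M.exists_lamB
  obtain ⟨o, ho⟩ := M.src.min
  exact pencil1 M.hY hb hr (Finset.card_pos.2 ⟨o, by rw [mem_wset]; exact ho⟩)

omit [DecidableEq σ] in
lemma neg (M : Mid w I r D j) : Mid (fun k => D - w k) I r D j where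
  src := M.src.neg
  hj := M.hj
  up := by
    have : upper (fun k => D - w k) D = lower w D := by
      ext k
      simp only [upper, lower, Finset.mem_filter, Finset.mem_univ, true_and]
      constructor <;> intro h <;> omega
    rw [this]; exact M.low
  low := by
    have : lower (fun k => D - w k) D = upper w D := by
      ext k
      simp only [upper, lower, Finset.mem_filter, Finset.mem_univ, true_and]
      constructor <;> intro h <;> omega
    rw [this]; exact M.up
  big := by
    have h1 := M.hj
    have : wset (fun k => D - w k) j = wset w j := by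
      ext k
      simp only [wset, Finset.mem_filter, Finset.mem_univ, true_and]
      constructor <;> intro h <;> omega
    rw [this]; exact M.big

theorem le_one [IsAlgClosed K] [CharZero K] (M : Mid w I r D j) : r ≤ 1 := by
  by_contra hr
  push Not at hr
  have h1 := M.card_lt hr
  have h2 := M.neg.card_lt hr
  have e1 : wset (fun k => D - w k) 0 = wset w D := by
    ext k
    simp only [wset, Finset.mem_filter, Finset.mem_univ, true_and]
    constructor <;> intro h <;> omega
  have e2 : wset (fun k => D - w k) D = wset w 0 := by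
    ext k
    simp only [wset, Finset.mem_filter, Finset.mem_univ, true_and]
    constructor <;> intro h <;> omega
  rw [e1, e2] at h2
  omega

end Mid

omit [DecidableEq σ] in
lemma card_three (w : σ → ℤ) (D : ℤ) :
    Fintype.card σ = (upper w D).card + (lower w D).card + (mid w D).card := by
  classical
  have h1 : (Finset.univ : Finset σ) = (upper w D ∪ lower w D) ∪ mid w D := by
    ext k
    simp only [upper, lower, mid, Finset.mem_union, Finset.mem_filter, Finset.mem_univ, true_and,
      true_iff]
    omega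
  rw [← Finset.card_univ, h1, Finset.card_union_of_disjoint, Finset.card_union_of_disjoint]
  · rw [Finset.disjoint_left]
    intro k hk hk'
    simp only [upper, lower, Finset.mem_filter, Finset.mem_univ, true_and] at hk hk'
    omega
  · rw [Finset.disjoint_left]
    intro k hk hk'
    simp only [upper, lower, mid, Finset.mem_union, Finset.mem_filter, Finset.mem_univ,
      true_and] at hk hk'
    omega

/-- The main theorem for nondegenerate varieties, with normalized weights. -/
theorem src_le_one [IsAlgClosed K] [CharZero K] (h : Src w I r D)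
    (hcard : 9 * (r * r) + 13 * r + 1 ≤ Fintype.card σ) : r ≤ 1 := by
  by_contra hr
  by_cases h1 : 3 * r + 1 ≤ (upper w D).card
  · exact hr (upper_case h h1)
  by_cases h2 : 3 * r + 1 ≤ (lower w D).card
  · exact hr (lower_case h h2)
  have h3 := card_three w D
  have h4 : 9 * (r * r) + 7 * r + 1 ≤ (mid w D).card := by omega
  obtain ⟨k0, hk0⟩ : (mid w D).Nonempty := Finset.card_pos.1 (by omega)
  have hj : D = 2 * w k0 := by
    simp only [mid, Finset.mem_filter, Finset.mem_univ, true_and] at hk0
    omega
  rw [mid_eq hj] at h4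
  exact hr (Mid.le_one (j := w k0) ⟨h, hj, by omega, by omega, h4⟩)

end Pool.Agent.H929R2.Hart
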