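import Pool.Agent.H929R2.Hart.V2
import Pool.Agent.H929R2.Hart.W15

set_option autoImplicit false
set_option maxHeartbeats 400000

namespace Pool.Agent.H929R2.Hart

open MvPolynomial

variable {σ : Type} [Fintype σ] [DecidableEq σ] {K : Type} [Field K]

variable {w : σ → ℤ} {I : Ideal (MvPolynomial σ K)} {r : ℕ} {D j : ℤ}

/-- the rank of the variation of the gradients between `p` and `p + a` -/
noncomputable def rk (F : Fin r → MvPolynomial σ K) (p a : σ → K) : ℕ :=
  Module.finrank K (LinearMap.range (uu F (p + a) - uu F p))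

/-- the family of maps -/
noncomputable def fam (F : Fin r → MvPolynomial σ K) (p a b : σ → K) (t : K) :
    (Fin r → K) →ₗ[K] (σ → K) := uu F (p + (a + t • b)) - uu F p

omit [DecidableEq σ] in
lemma fam_eq (F : Fin r → MvPolynomial σ K) (p a b : σ → K) (t : K) (c : Fin r → K) (k : σ) :
    fam F p a b t c k = ∑ i, c i *
      ((line (pderiv k (F i)) (p + a) b - Polynomial.C (grad (F i) p k) :
        Polynomial K)).eval t := by
  rw [fam, LinearMap.sub_apply, Pi.sub_apply, uu_apply, uu_apply, Finset.sum_apply,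
    Finset.sum_apply, ← Finset.sum_sub_distrib]
  refine Finset.sum_congr rfl (fun i _ => ?_)
  rw [Pi.smul_apply, Pi.smul_apply, smul_eq_mul, smul_eq_mul, Polynomial.eval_sub, eval_line,
    Polynomial.eval_C, ← add_assoc, mul_sub]
  rfl

omit [DecidableEq σ] in
lemma fam_zero (F : Fin r → MvPolynomial σ K) (p a b : σ → K) :
    fam F p a b 0 = uu F (p + a) - uu F p := by
  rw [fam, zero_smul, add_zero]

lemma deriv_of_max [IsAlgClosed K] (F F' : Fin r → MvPolynomial σ K) (p q a b : σ → K)
    (hfin : {t : K | rk F p a + rk F' q a < rk F p (a + t • b) + rk F' q (a + t • b)}.Finite)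
    (c : Fin r → K) (hc : uu F (p + a) c = uu F p c) :
    LL F (p + a) c b ∈ LinearMap.range (uu F (p + a) - uu F p) := by
  have h1 := rank_semi (fam F' q a b)
    (fun i k => line (pderiv k (F' i)) (q + a) b - Polynomial.C (grad (F' i) q k))
    (fam_eq F' q a b)
  have h2 : {t : K | Module.finrank K (LinearMap.range (fam F p a b t)) ≤
      Module.finrank K (LinearMap.range (fam F p a b 0))}.Infinite := by
    refine Set.Infinite.mono ?_ ((hfin.union h1).infinite_compl)
    intro t ht
    rw [Set.mem_compl_iff, Set.mem_union, not_or] at ht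
    obtain ⟨ht1, ht2⟩ := ht
    have e1 : ¬ (rk F p a + rk F' q a < rk F p (a + t • b) + rk F' q (a + t • b)) := ht1
    have e2 : ¬ (Module.finrank K (LinearMap.range (fam F' q a b t)) <
      Module.finrank K (LinearMap.range (fam F' q a b 0))) := ht2
    have f1 : Module.finrank K (LinearMap.range (fam F' q a b t)) = rk F' q (a + t • b) := rfl
    have f2 : Module.finrank K (LinearMap.range (fam F p a b t)) = rk F p (a + t • b) := rfl
    have f3 : Module.finrank K (LinearMap.range (fam F' q a b 0)) = rk F' q a := by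
      rw [fam_zero]; rfl
    have f4 : Module.finrank K (LinearMap.range (fam F p a b 0)) = rk F p a := by
      rw [fam_zero]; rfl
    show Module.finrank K (LinearMap.range (fam F p a b t)) ≤
      Module.finrank K (LinearMap.range (fam F p a b 0))
    rw [f1, f3] at e2
    rw [f2, f4]
    omega
  have h3 := deriv_range (fam F p a b)
    (fun i k => line (pderiv k (F i)) (p + a) b - Polynomial.C (grad (F i) p k))
    (fam_eq F p a b) h2 c (by rw [fam_zero, LinearMap.sub_apply, hc, sub_self])
  rw [fam_zero] at h3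
  have h4 : LL F (p + a) c b = fun k => ∑ i, c i * (Polynomial.derivative
      (line (pderiv k (F i)) (p + a) b - Polynomial.C (grad (F i) p k))).eval 0 := by
    funext k
    rw [LL_apply, Finset.sum_apply]
    refine Finset.sum_congr rfl (fun i _ => ?_)
    rw [Pi.smul_apply, smul_eq_mul, Polynomial.derivative_sub, Polynomial.derivative_C, sub_zero,
      derivative_line', eval_line, zero_smul, add_zero, grad, pderiv_dd]
  rw [h4]
  exact h3

omit [Fintype σ] [DecidableEq σ] in
lemma exists_max_nat {α : Type} (S : α → Prop) (hne : ∃ a, S a) (f : α → ℕ) (B : ℕ)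
    (hB : ∀ a, f a ≤ B) : ∃ a, S a ∧ ∀ a', S a' → f a' ≤ f a := by
  by_contra hcon
  push Not at hcon
  have h : ∀ n : ℕ, ∃ a, S a ∧ n ≤ f a := by
    intro n
    induction n with
    | zero => obtain ⟨a, ha⟩ := hne; exact ⟨a, ha, Nat.zero_le _⟩
    | succ n ih =>
      obtain ⟨a, ha, hn⟩ := ih
      obtain ⟨a', ha', hlt⟩ := hcon a ha
      exact ⟨a', ha', by omega⟩
  obtain ⟨a, _, ha⟩ := h (B + 1)
  have := hB a
  omega

omit [DecidableEq σ] in
lemma rk_le (F : Fin r → MvPolynomial σ K) (p a : σ → K) : rk F p a ≤ r := by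
  have h1 : Module.finrank K (LinearMap.range (uu F (p + a) - uu F p)) +
    Module.finrank K (LinearMap.ker (uu F (p + a) - uu F p)) =
      Module.finrank K (Fin r → K) := LinearMap.finrank_range_add_finrank_ker _
  rw [Module.finrank_fintype_fun_eq_card, Fintype.card_fin] at h1
  rw [rk]
  omega

namespace MidL

omit [DecidableEq σ] in
lemma neg (M : MidL w I r D j) : MidL (fun k => D - w k) I r D j where
  src := M.src.neg
  hj := M.hj
  hr := M.hr
  up := by
    have : upper (fun k => D - w k) D = lower w D := by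
      ext k
      simp only [upper, lower, Finset.mem_filter, Finset.mem_univ, true_and]
      constructor <;> intro h <;> omega
    rw [this]; exact M.low
  low := by
    have : lower (fun k => D - w k) D = upper w D := by
      ext k
      simp only [upper, lower, Finset.mem_filter, Finset.mem_univ, true_and]
      constructor <;> intro h <;> omega
    rw [this]; exact M.up
  big := by
    have h1 := M.hj
    have : wset (fun k => D - w k) j = wset w j := by
      ext k
      simp only [wset, Finset.mem_filter, Finset.mem_univ, true_and]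
      constructor <;> intro h <;> omega
    rw [this]; exact M.big

omit [DecidableEq σ] in
lemma hom_neg (M : MidL w I r D j) {a : σ → K} (ha : Hom w j a) :
    Hom (fun k => D - w k) j a := by
  intro k hk
  have h1 := ha k hk
  have h2 := M.hj
  show D - w k = j
  omega

/-- A common isotropic vector of middle weight at which both variations of the gradients are
injective. -/
theorem exists_full [IsAlgClosed K] [CharZero K] (M : MidL w I r D j) {p q : σ → K}
    (hp : Fixed w p) (hp0 : p ≠ 0) {F : Fin r → MvPolynomial σ K} {l : Fin r → ℤ}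
    (hF : IsFrame w I p F l) (hq' : Fixed (fun k => D - w k) q) (hq0 : q ≠ 0)
    {F' : Fin r → MvPolynomial σ K} {l' : Fin r → ℤ}
    (hF' : IsFrame (fun k => D - w k) I q F' l') :
    ∃ a, a ≠ 0 ∧ Hom w j a ∧ (∀ i, hq F p i a a = 0) ∧ (∀ i, hq F' q i a a = 0) ∧
      (∀ c, uu F (p + a) c = uu F p c → c = 0) ∧ (∀ c, uu F' (q + a) c = uu F' q c → c = 0) := by
  have hbig := M.big
  have hr := M.hr
  let S : (σ → K) → Prop := fun a => a ≠ 0 ∧ Hom w j a ∧ (∀ i, hq F p i a a = 0) ∧
    (∀ i, hq F' q i a a = 0)
  let β : Fin r ⊕ Fin r → (σ → K) →ₗ[K] (σ → K) →ₗ[K] K := Sum.elim (hq F p) (hq F' q)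
  have hβ : Fintype.card (Fin r ⊕ Fin r) ≤ 2 * r := by
    rw [Fintype.card_sum, Fintype.card_fin]; omega
  have hne : ∃ a, S a := by
    obtain ⟨a, haj, ha0, hai⟩ := exists_isotropic (cs K (wset w j)) β (by
      rw [finrank_cs]; omega)
    exact ⟨a, ha0, (mem_cs_wset w j a).1 haj, fun i => hai (Sum.inl i),
      fun i => hai (Sum.inr i)⟩
  obtain ⟨a, ⟨ha0, haj, hai, hai'⟩, hmax⟩ := exists_max_nat S hne
    (fun a => rk F p a + rk F' q a) (2 * r) (fun a => by
      have := rk_le F p a
      have := rk_le F' q a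
      omega)
  have hdir : ∀ b, Hom w j b → (∀ i, β i b b = 0) → (∀ i, β i a b = 0) →
      {t : K | rk F p a + rk F' q a < rk F p (a + t • b) + rk F' q (a + t • b)}.Finite := by
    intro b hbj hbb hab
    refine Set.Finite.subset (s := {t : K | a + t • b = 0}) ?_ ?_
    · apply Set.Subsingleton.finite
      intro t ht t' ht'
      have e1 : a + t • b = 0 := ht
      have e2 : a + t' • b = 0 := ht'
      by_contra hne
      have h3 : (t - t') • b = 0 := by
        rw [sub_smul]
        have : t • b = t' • b := by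
          have h4 : a + t • b = a + t' • b := by rw [e1, e2]
          exact add_left_cancel h4
        rw [this, sub_self]
      rcases smul_eq_zero.1 h3 with h4 | h4
      · exact hne (sub_eq_zero.1 h4)
      · apply ha0
        rw [h4, smul_zero, add_zero] at e1
        exact e1
    · intro t ht
      by_contra hne
      have hne' : a + t • b ≠ 0 := hne
      have hlt : rk F p a + rk F' q a < rk F p (a + t • b) + rk F' q (a + t • b) := ht
      have hiso : ∀ (G : Fin r → MvPolynomial σ K) (z : σ → K), (∀ i, hq G z i a a = 0) →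
          (∀ i, hq G z i b b = 0) → (∀ i, hq G z i a b = 0) →
          ∀ i, hq G z i (a + t • b) (a + t • b) = 0 := by
        intro G z h1 h2 h3 i
        have h4 : hq G z i b a = 0 := by rw [hq_symm]; exact h3 i
        simp only [map_add, map_smul, LinearMap.add_apply, LinearMap.smul_apply, h1 i, h2 i,
          h3 i, h4, smul_zero, add_zero]
      have hS : S (a + t • b) := by
        refine ⟨hne', ?_, hiso F p hai (fun i => hbb (Sum.inl i)) (fun i => hab (Sum.inl i)),
          hiso F' q hai' (fun i => hbb (Sum.inr i)) (fun i => hab (Sum.inr i))⟩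
        intro k hk
        by_cases hak : a k = 0
        · apply hbj k
          intro h0
          apply hk
          rw [Pi.add_apply, Pi.smul_apply, hak, h0, smul_zero, add_zero]
        · exact haj k hak
      have h5 : rk F p (a + t • b) + rk F' q (a + t • b) ≤ rk F p a + rk F' q a := hmax _ hS
      omega
  refine ⟨a, ha0, haj, hai, hai', fun c hc => ?_, fun c hc => ?_⟩
  · exact M.ker_zero hp hp0 hF β hβ a haj c hc (fun b hbj hbb hab =>
      deriv_of_max F F' p q a b (hdir b hbj hbb hab) c hc)
  · refine M.neg.ker_zero hq' hq0 hF' β hβ a (M.hom_neg haj) c hc (fun b hbj hbb hab => ?_)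
    have hbj' : Hom w j b := by
      have := M.neg.hom_neg hbj
      intro k hk
      have h1 := this k hk
      simp only [sub_sub_cancel] at h1
      exact h1
    apply deriv_of_max F' F q p a b ?_ c hc
    have := hdir b hbj' hbb hab
    simpa only [add_comm] using this

/-- the conormal space at `a` has only components of weight `0` and `j` -/
theorem conormal_two [IsAlgClosed K] [CharZero K] (M : MidL w I r D j) {p : σ → K}
    (hp : Fixed w p) (hp0 : p ≠ 0) {F : Fin r → MvPolynomial σ K} {l : Fin r → ℤ}
    (hF : IsFrame w I p F l) (a : σ → K) (ha : Hom w j a) (ha0 : a ≠ 0)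
    (hline : ∀ t : K, p + t • a ∈ cone I) :
    (∀ c, Qm F p a c ∈ conormal I a) ∧
    ((∀ c, uu F (p + a) c = uu F p c → c = 0) →
      ∀ ξ ∈ conormal I a, ∀ k, ξ k ≠ 0 → w k = 0 ∨ w k = j) := by
  have hjp := M.j_pos
  have hj := M.hj
  have hac : a ∈ cone I := (cone_of_line I a p (fun t ht =>
      line_rev M.src.sc p a hline t ht)).1
  have hat : ∀ t : K, t ≠ 0 → a + t • p = t • (p + t⁻¹ • a) := by
    intro t ht
    rw [smul_add, smul_smul, mul_inv_cancel₀ ht, one_smul, add_comm]
  have hQ : ∀ c, Qm F p a c ∈ conormal I a := by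
    intro c
    let Ξ : σ → Polynomial K := fun k => Polynomial.C (Qm F p a c k) +
      Polynomial.X * Polynomial.C (LL F p c a k) + Polynomial.X ^ 2 * Polynomial.C (uu F p c k)
    have h0 : (fun k => (Ξ k).eval 0) = Qm F p a c := by
      funext k
      simp [Ξ]
    rw [← h0]
    apply conormal_closed' I r M.src.sc.rank a p ha0 Ξ
    intro t ht
    rw [hat t ht, conormal_smul I M.src.sc.homog t ht]
    refine ⟨cone_smul I M.src.sc.homog _ _ (hline _), ?_⟩
    have h1 : (fun k => (Ξ k).eval t) = t ^ 2 • uu F (p + t⁻¹ • a) c := by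
      rw [M.uu_quad hp hp0 hF ha c t⁻¹]
      funext k
      simp only [Ξ, Polynomial.eval_add, Polynomial.eval_mul, Polynomial.eval_C,
        Polynomial.eval_X, Polynomial.eval_pow, Pi.smul_apply, Pi.add_apply, smul_eq_mul]
      field_simp
      ring
    rw [h1]
    exact Submodule.smul_mem _ _ (uu_mem F hF.mem c _)
  refine ⟨hQ, fun hinj => ?_⟩
  have hL : ∀ c, Qm F p a c = 0 → LL F p c a ∈ conormal I a := by
    intro c hc
    apply conormal_closed I r M.src.sc.rank a p ha0 _ (uu F p c)
    intro t ht
    rw [hat t ht, conormal_smul I M.src.sc.homog t ht]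
    refine ⟨cone_smul I M.src.sc.homog _ _ (hline _), ?_⟩
    have h1 : LL F p c a + t • uu F p c = t • uu F (p + t⁻¹ • a) c := by
      rw [M.uu_quad hp hp0 hF ha c t⁻¹, hc, smul_zero, add_zero, smul_add, smul_smul,
        mul_inv_cancel₀ ht, one_smul, add_comm]
    rw [h1]
    exact Submodule.smul_mem _ _ (uu_mem F hF.mem c _)
  have hLj : ∀ c, Hom w j (LL F p c a) := by
    intro c k hk
    obtain ⟨i, _, hi⟩ := LL_supp hF hp c a j ha k hk
    rw [M.frame_D (M.V0 p hp) hp0 hp hF i] at hi
    omega
  set Q := Qm F p a with hQdef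
  set L := (LL F p).flip a with hLdef
  set M2 := LinearMap.range (L.domRestrict (LinearMap.ker Q)) with hM2
  have h1 : Module.finrank K (LinearMap.range Q) + Module.finrank K (LinearMap.ker Q) =
    Module.finrank K (Fin r → K) := LinearMap.finrank_range_add_finrank_ker _
  rw [Module.finrank_fintype_fun_eq_card, Fintype.card_fin] at h1
  have h2 : Module.finrank K M2 = Module.finrank K (LinearMap.ker Q) := by
    apply LinearMap.finrank_range_of_inj
    rw [← LinearMap.ker_eq_bot, LinearMap.ker_eq_bot']
    intro c hc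
    ext1
    apply hinj
    have e1 : Qm F p a (c : Fin r → K) = 0 := LinearMap.mem_ker.1 c.2
    have e2 : LL F p (c : Fin r → K) a = 0 := hc
    rw [Qm_apply, e2, sub_zero, sub_eq_zero] at e1
    exact e1
  have h3 : LinearMap.range Q ⊓ M2 = ⊥ := by
    rw [eq_bot_iff]
    rintro x ⟨⟨c, rfl⟩, ⟨d, hd⟩⟩
    rw [Submodule.mem_bot]
    funext k
    by_contra hk
    have e1 := M.Qm_fixed hp hp0 hF ha c k hk
    have e2 : LL F p (d : Fin r → K) a = Q c := hd
    have e3 := hLj (d : Fin r → K) k (by rw [e2]; exact hk)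
    omega
  have h4 := Submodule.finrank_sup_add_finrank_inf_eq (LinearMap.range Q) M2
  rw [h3, finrank_bot] at h4
  have h5 : LinearMap.range Q ⊔ M2 = conormal I a := by
    apply Submodule.eq_of_le_of_finrank_eq
    · rw [sup_le_iff]
      refine ⟨?_, ?_⟩
      · rintro _ ⟨c, rfl⟩; exact hQ c
      · rintro _ ⟨c, rfl⟩; exact hL c (LinearMap.mem_ker.1 c.2)
    · rw [M.src.sc.rank a hac ha0]
      omega
  intro ξ hξ k hk
  rw [← h5] at hξ
  obtain ⟨x, ⟨c, hc⟩, y, ⟨d, hd⟩, hxy⟩ := Submodule.mem_sup.1 hξ
  by_cases hx : x k = 0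
  · right
    apply hLj (d : Fin r → K) k
    have e2 : LL F p (d : Fin r → K) a = y := hd
    rw [e2]
    intro hy
    apply hk
    rw [← hxy, Pi.add_apply, hx, hy, add_zero]
  · left
    apply M.Qm_fixed hp hp0 hF ha c k
    rw [← hQdef, hc]
    exact hx

/-- There is a vector of middle weight whose conormal space has only the middle weight. -/
theorem exists_mid [IsAlgClosed K] [CharZero K] (M : MidL w I r D j) :
    ∃ a, a ≠ 0 ∧ Hom w j a ∧ a ∈ cone I ∧ ∀ ξ ∈ conormal I a, Hom w j ξ := by
  have hjp := M.j_pos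
  have hj := M.hj
  obtain ⟨p, hp, hp0, hfix⟩ := M.src.exists_source
  obtain ⟨F, l, hF⟩ := exists_frame w I r M.src.sc M.src.st p hp hp0
  obtain ⟨q, hqc, hq0, hqfix⟩ := M.neg.src.exists_source
  obtain ⟨F', l', hF'⟩ := exists_frame (fun k => D - w k) I r M.src.sc M.neg.src.st q hqc hq0
  obtain ⟨a, ha0, haj, hai, hai', hinj, hinj'⟩ := M.exists_full hfix hp0 hF hqfix hq0 hF'
  have hl1 := M.iso_line hfix hp0 hF a haj hai
  have hl2 := M.neg.iso_line hqfix hq0 hF' a (M.hom_neg haj) hai'
  have h1 := (M.conormal_two hfix hp0 hF a haj ha0 hl1).2 hinj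
  have h2 := (M.neg.conormal_two hqfix hq0 hF' a (M.hom_neg haj) ha0 hl2).2 hinj'
  refine ⟨a, ha0, haj, (cone_of_line I a p (fun t ht =>
      line_rev M.src.sc p a hl1 t ht)).1, fun ξ hξ k hk => ?_⟩
  have e1 := h1 ξ hξ k hk
  have e2 : D - w k = 0 ∨ D - w k = j := h2 ξ hξ k hk
  omega

end MidL

end Pool.Agent.H929R2.Hart
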