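import Pool.Agent.H929R2.Hart.V3

set_option autoImplicit false
set_option maxHeartbeats 400000

namespace Pool.Agent.H929R2.Hart

open MvPolynomial

variable {σ : Type} [Fintype σ] [DecidableEq σ] {K : Type} [Field K]

variable {w : σ → ℤ} {I : Ideal (MvPolynomial σ K)} {r : ℕ} {D j : ℤ}

namespace MidL

lemma line_V0 [IsAlgClosed K] [CharZero K] (M : MidL w I r D j) {a : σ → K} (ha0 : a ≠ 0)
    (haj : Hom w j a) (hac : a ∈ cone I) (hcon : ∀ ξ ∈ conormal I a, Hom w j ξ) (z : σ → K)
    (hz : Fixed w z) (t : K) : z + t • a ∈ cone I := by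
  have hjp := M.j_pos
  have hT : z ∈ tangent I a := by
    rw [mem_tangent']
    intro ξ hξ
    have h1 := hcon ξ hξ
    rw [dotB_apply]
    refine Finset.sum_eq_zero (fun k _ => ?_)
    by_cases hk : ξ k = 0
    · rw [hk, zero_mul]
    · by_cases hk2 : z k = 0
      · rw [hk2, mul_zero]
      · have := h1 k hk
        have := hz k hk2
        omega
  have hst : Stable (fun k => j - w k) I := by
    have := stable_neg (stable_shift M.src.sc.homog M.src.st j)
    intro t ht x hx
    have h1 := this t ht x hx
    simpa using h1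
  have hfa : Fixed (fun k => j - w k) a := fun k hk => by
    show j - w k = 0
    rw [haj k hk]; ring
  have h2 : ∀ t : K, a + t • z ∈ cone I := fun t => flat_line M.src.sc hst j (fun k => by
    show j - w k ≤ j
    have := M.src.nn k
    omega) a hac (fun k hk => (hfa k hk).ge) (by rw [part_eq_self hfa]; exact ha0) z hT
    (fun k hk => by
      show 0 ≤ j - w k ∧ j < 2 * (j - w k)
      rw [hz k hk]
      omega) t
  by_cases ht : t = 0
  · rw [ht, zero_smul, add_zero]; exact M.V0 z hz
  · exact line_rev M.src.sc a z h2 t ht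

/-- The linear parametrization of the conormal spaces at the fixed vectors. -/
theorem exists_lamB [IsAlgClosed K] [CharZero K] (M : MidL w I r D j) :
    ∃ b : (Fin r → K) →ₗ[K] (σ → K) →ₗ[K] (σ → K), LamB w I b := by
  have hjp := M.j_pos
  have hj := M.hj
  obtain ⟨a, ha0, haj, hac, hcon⟩ := M.exists_mid
  obtain ⟨G, m, hG⟩ := exists_frame (fun k => w k - j) I r M.src.sc
    (stable_shift M.src.sc.homog M.src.st j) a hac ha0
  refine ⟨LL G a, fun z hz hz0 => ?_⟩
  have hzc := M.V0 z hz
  have hline := M.line_V0 ha0 haj hac hcon z hz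
  obtain ⟨F, l, hF⟩ := exists_frame w I r M.src.sc M.src.st z hzc hz0
  have hlD := M.frame_D hzc hz0 hz hF
  have hQ0 : ∀ c, Qm F z a c = 0 := by
    intro c
    funext k
    by_contra hk
    have h1 := hcon _ ((M.conormal_two hz hz0 hF a haj ha0 hline).1 c) k hk
    have h2 := M.Qm_fixed hz hz0 hF haj c k hk
    omega
  have huu : ∀ c, ∀ t : K, uu F z c + t • LL F z c a ∈ conormal I (z + t • a) := by
    intro c t
    have h1 := uu_mem F hF.mem c (z + t • a)
    rwa [M.uu_quad hz hz0 hF haj c t, hQ0, smul_zero, add_zero] at h1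
  have hlim : ∀ c, LL F z c a ∈ conormal I a := by
    intro c
    apply conormal_closed I r M.src.sc.rank a z ha0 _ (uu F z c)
    intro t ht
    have h1 : a + t • z = t • (z + t⁻¹ • a) := by
      rw [smul_add, smul_smul, mul_inv_cancel₀ ht, one_smul, add_comm]
    rw [h1, conormal_smul I M.src.sc.homog t ht]
    refine ⟨cone_smul I M.src.sc.homog _ _ (hline _), ?_⟩
    have h2 := Submodule.smul_mem _ t (huu c t⁻¹)
    rwa [smul_add, smul_smul, mul_inv_cancel₀ ht, one_smul, add_comm (t • uu F z c) _] at h2
  have hinj : ∀ c, LL F z c a = 0 → c = 0 := by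
    intro c hc
    apply uu_injective hF.ind
    have h1 : uu F z c ∈ conormal I a := by
      apply conormal_closed I r M.src.sc.rank a z ha0 _ 0
      intro t ht
      have h1 : a + t • z = t • (z + t⁻¹ • a) := by
        rw [smul_add, smul_smul, mul_inv_cancel₀ ht, one_smul, add_comm]
      rw [h1, conormal_smul I M.src.sc.homog t ht]
      refine ⟨cone_smul I M.src.sc.homog _ _ (hline _), ?_⟩
      have h2 := huu c t⁻¹
      rw [hc, smul_zero, add_zero] at h2
      rwa [smul_zero, add_zero]
    funext k
    by_contra hk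
    have h2 := hcon _ h1 k hk
    have h3 := M.hY z hz hz0 _ (uu_mem F hF.mem c z) k hk
    omega
  have hspan : ∀ ξ ∈ conormal I a, ∃ c, LL F z c a = ξ := by
    have h1 : LinearMap.range ((LL F z).flip a) = conormal I a := by
      apply Submodule.eq_of_le_of_finrank_eq
      · rintro _ ⟨c, rfl⟩
        exact hlim c
      · rw [LinearMap.finrank_range_of_inj, Module.finrank_fintype_fun_eq_card, Fintype.card_fin,
          M.src.sc.rank a hac ha0]
        rw [← LinearMap.ker_eq_bot, LinearMap.ker_eq_bot']
        exact hinj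
    intro ξ hξ
    rw [← h1] at hξ
    exact hξ
  have key : ∀ c d, LL F z c a = uu G a d → LL G a d z = uu F z c := by
    intro c d hcd
    apply lam M.src j j hjp a ha0 haj hG ?_ z hz hline (uu F z c)
      (LL F z c a) (huu c) ?_ d hcd.symm
    · intro η hη k hk
      have h1 := hcon η hη k hk
      omega
    · intro k hk
      obtain ⟨i, _, hi⟩ := uu_supp hF hz c k hk
      have h1 := hlD i
      omega
  refine ⟨fun d => ?_, fun d hd => ?_, fun ξ hξ => ?_⟩
  · obtain ⟨c, hc⟩ := hspan _ (uu_mem G hG.mem d a)
    rw [key c d hc]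
    exact uu_mem F hF.mem c z
  · obtain ⟨c, hc⟩ := hspan _ (uu_mem G hG.mem d a)
    rw [key c d hc] at hd
    have h1 := uu_injective hF.ind c hd
    rw [h1, map_zero, LinearMap.zero_apply] at hc
    exact uu_injective hG.ind d hc.symm
  · obtain ⟨c, hc⟩ := frame_span M.src.sc hzc hz0 hF ξ hξ
    obtain ⟨d, hd⟩ := frame_span M.src.sc hac ha0 hG _ (hlim c)
    exact ⟨d, by rw [key c d hd.symm, hc]⟩

theorem card_lt [IsAlgClosed K] [CharZero K] (M : MidL w I r D j) (hr : 2 ≤ r) :
    (wset w 0).card < (wset w D).card := by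
  obtain ⟨b, hb⟩ := M.exists_lamB
  obtain ⟨o, ho⟩ := M.src.min
  exact pencil1 M.hY hb hr (Finset.card_pos.2 ⟨o, by rw [mem_wset]; exact ho⟩)

theorem le_one [IsAlgClosed K] [CharZero K] (M : MidL w I r D j) : r ≤ 1 := by
  by_contra hr
  push Not at hr
  have h1 := M.card_lt hr
  have h2 := M.neg.card_lt hr
  have e1 : wset (fun k => D - w k) 0 = wset w D := by
    ext k
    simp only [wset, Finset.mem_filter, Finset.mem_univ, true_and]
    constructor <;> intro h <;> omega
  have e2 : wset (fun k => D - w k) D = wset w 0 := by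
    ext k
    simp only [wset, Finset.mem_filter, Finset.mem_univ, true_and]
    constructor <;> intro h <;> omega
  rw [e1, e2] at h2
  omega

end MidL

/-- The main theorem for nondegenerate varieties, with normalized weights: linear bound. -/
theorem src_le_one_linear [IsAlgClosed K] [CharZero K] (h : Src w I r D)
    (hcard : 17 * r ≤ Fintype.card σ) : r ≤ 1 := by
  by_contra hr
  by_cases h1 : 3 * r + 1 ≤ (upper w D).card
  · exact hr (upper_case h h1)
  by_cases h2 : 3 * r + 1 ≤ (lower w D).card
  · exact hr (lower_case h h2)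
  have h3 := card_three w D
  have h4 : 11 * r ≤ (mid w D).card := by omega
  obtain ⟨k0, hk0⟩ : (mid w D).Nonempty := Finset.card_pos.1 (by omega)
  have hj : D = 2 * w k0 := by
    simp only [mid, Finset.mem_filter, Finset.mem_univ, true_and] at hk0
    omega
  rw [mid_eq hj] at h4
  exact hr (MidL.le_one (j := w k0) ⟨h, hj, by omega, by omega, by omega, h4⟩)

end Pool.Agent.H929R2.Hart
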