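import Pool.Agent.H929R2.Hart.Source

set_option autoImplicit false
set_option maxHeartbeats 400000

namespace Pool.Agent.H929R2.Hart

open MvPolynomial

variable {σ : Type} [Fintype σ] {K : Type} [Field K]

/-- all weights occurring in `x` are nonnegative -/
def NN (w : σ → ℤ) (x : σ → K) : Prop := ∀ i, x i ≠ 0 → 0 ≤ w i

/-- only the weight zero occurs in `x` -/
def Fixed (w : σ → ℤ) (x : σ → K) : Prop := ∀ i, x i ≠ 0 → w i = 0

/-- the part of weight `m` -/
def part (w : σ → ℤ) (m : ℤ) (x : σ → K) : σ → K := fun i => if w i = m then x i else 0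

/-- `I` is stable under the torus with weights `w` -/
def Stable (w : σ → ℤ) (I : Ideal (MvPolynomial σ K)) : Prop :=
  ∀ t : K, t ≠ 0 → ∀ x ∈ cone I, (fun i => t ^ w i * x i) ∈ cone I

omit [Fintype σ] in
lemma prod_zpow_weight {ι : Type} (s : Finset ι) (t : K) (ht : t ≠ 0) (e : ι → ℤ) :
    ∏ i ∈ s, t ^ e i = t ^ (∑ i ∈ s, e i) := by
  classical
  induction s using Finset.induction_on with
  | empty => simp
  | insert a s ha ih => rw [Finset.prod_insert ha, Finset.sum_insert ha, zpow_add₀ ht, ih]

lemma eval_act {w : σ → ℤ} {φ : MvPolynomial σ K} {m : ℤ} (h : IsWeightedHomogeneous w φ m)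
    (t : K) (ht : t ≠ 0) (x : σ → K) :
    eval (fun i => t ^ w i * x i) φ = t ^ m * eval x φ := by
  rw [eval_eq, eval_eq, Finset.mul_sum]
  refine Finset.sum_congr rfl (fun d hd => ?_)
  have hw := h (mem_support_iff.1 hd)
  rw [Finsupp.weight_apply, Finsupp.sum_fintype _ _ (by simp)] at hw
  have h1 : ∏ i ∈ d.support, (t ^ w i * x i) ^ d i = ∏ i, (t ^ w i * x i) ^ d i :=
    Finset.prod_subset (Finset.subset_univ _) (fun i _ hi => by
      rw [Finsupp.notMem_support_iff.1 hi, pow_zero])
  have h2 : ∏ i ∈ d.support, (x i) ^ d i = ∏ i, (x i) ^ d i :=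
    Finset.prod_subset (Finset.subset_univ _) (fun i _ hi => by
      rw [Finsupp.notMem_support_iff.1 hi, pow_zero])
  rw [h1, h2]
  simp only [mul_pow, Finset.prod_mul_distrib]
  have h3 : ∏ i, (t ^ w i) ^ d i = t ^ m := by
    rw [← hw, ← prod_zpow_weight _ t ht]
    refine Finset.prod_congr rfl (fun i _ => ?_)
    rw [← zpow_natCast, ← zpow_mul, mul_comm]
    simp
  rw [h3]
  ring

/-- the curve `t ↦ t^w x` for nonnegative weights -/
noncomputable def flow (w : σ → ℤ) (x : σ → K) (φ : MvPolynomial σ K) : Polynomial K :=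
  aeval (fun i => Polynomial.X ^ (w i).toNat * Polynomial.C (x i)) φ

omit [Fintype σ] in
lemma eval_flow (w : σ → ℤ) (x : σ → K) (φ : MvPolynomial σ K) (t : K) :
    (flow w x φ).eval t = eval (fun i => t ^ (w i).toNat * x i) φ := by
  have : (Polynomial.evalRingHom t).comp (aeval (R := K)
      (fun i => Polynomial.X ^ (w i).toNat * Polynomial.C (x i))).toRingHom
      = eval (fun i => t ^ (w i).toNat * x i) := by
    apply MvPolynomial.ringHom_ext
    · intro c; simp
    · intro i
      simp only [RingHom.comp_apply, AlgHom.toRingHom_eq_coe, RingHom.coe_coe, aeval_X,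
        Polynomial.coe_evalRingHom, Polynomial.eval_mul, Polynomial.eval_pow, Polynomial.eval_X,
        Polynomial.eval_C, eval_X]
  exact RingHom.congr_fun this φ

omit [Fintype σ] in
lemma act_eq (w : σ → ℤ) (x : σ → K) (hx : NN w x) (t : K) :
    (fun i => t ^ (w i).toNat * x i) = (fun i => t ^ w i * x i) := by
  funext i
  by_cases hi : x i = 0
  · rw [hi, mul_zero, mul_zero]
  · have := hx i hi
    rw [← zpow_natCast, Int.toNat_of_nonneg this]

lemma eval_flow_of_wh {w : σ → ℤ} {φ : MvPolynomial σ K} {m : ℤ}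
    (h : IsWeightedHomogeneous w φ m) (x : σ → K) (hx : NN w x) (t : K) (ht : t ≠ 0) :
    (flow w x φ).eval t = t ^ m * eval x φ := by
  rw [eval_flow, act_eq w x hx, eval_act h t ht]

lemma eval_neg' [Infinite K] {w : σ → ℤ} {φ : MvPolynomial σ K} {m : ℤ}
    (h : IsWeightedHomogeneous w φ m) (hm : m < 0) (x : σ → K) (hx : NN w x) : eval x φ = 0 := by
  have h1 : Polynomial.X ^ (-m).toNat * flow w x φ - Polynomial.C (eval x φ) = 0 := by
    apply poly_eq_zero
    intro t ht
    rw [Polynomial.eval_sub, Polynomial.eval_mul, Polynomial.eval_pow, Polynomial.eval_X,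
      Polynomial.eval_C, eval_flow_of_wh h x hx t ht, ← zpow_natCast,
      Int.toNat_of_nonneg (by omega), ← mul_assoc, ← zpow_add₀ ht]
    simp
  have h2 := congrArg (Polynomial.eval 0) h1
  rw [Polynomial.eval_sub, Polynomial.eval_mul, Polynomial.eval_pow, Polynomial.eval_X,
    Polynomial.eval_C, zero_pow (by omega), zero_mul, Polynomial.eval_zero] at h2
  linear_combination -h2

omit [Fintype σ] in
lemma part_zero_eq (w : σ → ℤ) (x : σ → K) (hx : NN w x) :
    (fun i => (0 : K) ^ (w i).toNat * x i) = part w 0 x := by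
  funext i
  simp only [part]
  by_cases hi : x i = 0
  · rw [hi]; simp
  · have h1 := hx i hi
    by_cases h2 : w i = 0
    · rw [h2]; simp
    · rw [if_neg h2, zero_pow (by omega), zero_mul]

lemma eval_zero_wt [Infinite K] {w : σ → ℤ} {φ : MvPolynomial σ K}
    (h : IsWeightedHomogeneous w φ 0) (x : σ → K) (hx : NN w x) :
    eval x φ = eval (part w 0 x) φ := by
  have h1 : flow w x φ - Polynomial.C (eval x φ) = 0 := by
    apply poly_eq_zero
    intro t ht
    rw [Polynomial.eval_sub, Polynomial.eval_C, eval_flow_of_wh h x hx t ht]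
    simp
  have h2 := congrArg (Polynomial.eval 0) h1
  rw [Polynomial.eval_sub, Polynomial.eval_C, eval_flow, part_zero_eq w x hx,
    Polynomial.eval_zero] at h2
  linear_combination -h2

omit [Fintype σ] in
lemma isWH_neg {w : σ → ℤ} {φ : MvPolynomial σ K} {m : ℤ}
    (h : IsWeightedHomogeneous w φ m) : IsWeightedHomogeneous (fun i => - w i) φ (-m) := by
  intro d hd
  rw [← h hd, Finsupp.weight_apply, Finsupp.weight_apply, Finsupp.sum, Finsupp.sum,
    ← Finset.sum_neg_distrib]
  refine Finset.sum_congr rfl (fun i _ => ?_)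
  simp

lemma eval_fixed [Infinite K] {w : σ → ℤ} {φ : MvPolynomial σ K} {m : ℤ}
    (h : IsWeightedHomogeneous w φ m) (hm : m ≠ 0) (x : σ → K) (hx : Fixed w x) :
    eval x φ = 0 := by
  rcases lt_or_gt_of_ne hm with h1 | h1
  · exact eval_neg' h h1 x (fun i hi => (hx i hi).ge)
  · exact eval_neg' (isWH_neg h) (by omega) x (fun i hi => by
      show 0 ≤ - w i
      rw [hx i hi]; simp)

omit [Fintype σ] in
lemma pderiv_wh {w : σ → ℤ} {φ : MvPolynomial σ K} {m : ℤ}
    (h : IsWeightedHomogeneous w φ m) (i : σ) :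
    IsWeightedHomogeneous w (pderiv i φ) (m - w i) := h.pderiv (by ring)

lemma limit_cone [Infinite K] (w : σ → ℤ) (I : Ideal (MvPolynomial σ K)) (hst : Stable w I)
    (x : σ → K) (hx : x ∈ cone I) (hnn : NN w x) : part w 0 x ∈ cone I := by
  intro F hF
  rw [← part_zero_eq w x hnn, ← eval_flow]
  have : flow w x F = 0 := by
    apply poly_eq_zero
    intro t ht
    rw [eval_flow, act_eq w x hnn]
    exact hst t ht x hx F hF
  rw [this, Polynomial.eval_zero]

/-- weighted components (integer weights) of the elements of `I` are in `I` -/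
lemma wcompZ_mem [IsAlgClosed K] (w : σ → ℤ) (I : Ideal (MvPolynomial σ K)) (hI : I.IsPrime)
    (hst : Stable w I) (F : MvPolynomial σ K) (hF : F ∈ I) (m : ℤ) :
    weightedHomogeneousComponent w m F ∈ I := by
  classical
  apply mem_of_vanish I hI
  intro x hx
  -- the finite set of weights
  let S : Finset ℤ := F.support.image (Finsupp.weight w)
  have hS : ∀ k, k ∉ S → weightedHomogeneousComponent w k F = 0 := by
    intro k hk
    rw [weightedHomogeneousComponent_apply]
    apply Finset.sum_eq_zero
    intro d hd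
    rw [Finset.mem_filter] at hd
    exact absurd (Finset.mem_image.2 ⟨d, hd.1, hd.2⟩) hk
  have hsum : ∑ k ∈ S, weightedHomogeneousComponent w k F = F := by
    have h := sum_weightedHomogeneousComponent w F
    rw [finsum_eq_sum_of_support_subset _ (s := S)] at h
    · exact h
    · intro k hk
      by_contra hcon
      exact hk (hS k hcon)
  by_cases hm : m ∈ S
  swap
  · rw [hS m hm, map_zero]
  obtain ⟨N, hN⟩ : ∃ N : ℤ, ∀ k ∈ S, 0 ≤ k + N := by
    obtain ⟨N, hN⟩ := S.bddBelow
    exact ⟨-N, fun k hk => by have := hN hk; omega⟩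
  let q : Polynomial K := ∑ k ∈ S,
    Polynomial.C (eval x (weightedHomogeneousComponent w k F)) * Polynomial.X ^ (k + N).toNat
  have hq : q = 0 := by
    apply poly_eq_zero
    intro t ht
    have h1 := hst t ht x hx F hF
    rw [← hsum, map_sum] at h1
    have h2 : q.eval t = t ^ N * ∑ k ∈ S, eval (fun i => t ^ w i * x i)
        (weightedHomogeneousComponent w k F) := by
      rw [Polynomial.eval_finsetSum, Finset.mul_sum]
      refine Finset.sum_congr rfl (fun k hk => ?_)
      rw [eval_act (weightedHomogeneousComponent_isWeightedHomogeneous k F) t ht,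
        Polynomial.eval_mul, Polynomial.eval_C, Polynomial.eval_pow, Polynomial.eval_X,
        ← zpow_natCast, Int.toNat_of_nonneg (hN k hk), zpow_add₀ ht]
      ring
    rw [h2, h1, mul_zero]
  have h3 := congrArg (fun p => Polynomial.coeff p (m + N).toNat) hq
  simp only [q, Polynomial.finsetSum_coeff, Polynomial.coeff_C_mul, Polynomial.coeff_X_pow,
    mul_ite, mul_one, mul_zero, Polynomial.coeff_zero] at h3
  rw [Finset.sum_eq_single m] at h3
  · simpa using h3
  · intro k hk hkm
    rw [if_neg]
    intro h4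
    have h5 := hN k hk
    have h6 := hN m hm
    omega
  · intro h; exact absurd hm h

end Pool.Agent.H929R2.Hart
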