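import Pool.Agent.H929R2.Hart.W10

set_option autoImplicit false
set_option maxHeartbeats 400000

namespace Pool.Agent.H929R2.Hart

open MvPolynomial

variable {σ : Type} [Fintype σ] [DecidableEq σ] {K : Type} [Field K]

variable {w : σ → ℤ} {I : Ideal (MvPolynomial σ K)} {r : ℕ} {D : ℤ}

/-- a tangent vector of top weight -/
lemma exists_top_vec [IsAlgClosed K] [CharZero K] (h : Src w I r D)
    (hD : r + 1 ≤ (wset w D).card)
    {z : σ → K} {F : Fin r → MvPolynomial σ K} {l : Fin r → ℤ} {A : Submodule K (σ → K)}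
    (hP : Pack w I r D z F l A) : ∃ v ∈ A, v ≠ 0 ∧ Hom w D v := by
  have hDpos := h.pos
  have h1 := finrank_inf_tangent h.sc z hP.mem hP.ne (cs K (wset w D))
  rw [finrank_cs] at h1
  have hne : (cs K (wset w D) ⊓ tangent I z : Submodule K (σ → K)) ≠ ⊥ := by
    intro h0
    rw [h0, finrank_bot] at h1
    omega
  obtain ⟨v, ⟨hvD, hvT⟩, hv0⟩ := (Submodule.ne_bot_iff _).1 hne
  have hvD' := (mem_cs_wset w D v).1 hvD
  exact ⟨v, hP.top v hvT (fun k hk => by rw [hvD' k hk]; omega), hv0, hvD'⟩

lemma conormal_D [IsAlgClosed K] [CharZero K] (h : Src w I r D)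
    (hbig : 3 * r + 1 ≤ (upper w D).card) (hD : r + 1 ≤ (wset w D).card) :
    ∀ z, Fixed w z → z ≠ 0 → ∀ ξ ∈ conormal I z, Hom w D ξ := by
  intro z hz hz0 ξ hξ
  have hzc := all_fixed h hbig z hz
  obtain ⟨F, l, hP⟩ := exists_pack h hbig z hzc hz0 hz
  obtain ⟨v, hvA, hv0, hvD⟩ := exists_top_vec h hD hP
  have hl : ∀ i, l i = D := fun i =>
    le_antisymm (h.frame_le hz hP.fr i).2 (hP.le_wt h v hvA hv0 D hvD i)
  obtain ⟨c, rfl⟩ := frame_span h.sc hzc hz0 hP.fr ξ hξ
  intro k hk
  obtain ⟨i, _, hi⟩ := uu_supp hP.fr hz c k hk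
  rw [← hi, hl]

lemma n0_gt [IsAlgClosed K] [CharZero K] (h : Src w I r D)
    (hbig : 3 * r + 1 ≤ (upper w D).card) (hD : r + 1 ≤ (wset w D).card) :
    r + 1 ≤ (wset w 0).card := by
  obtain ⟨p, hp, hp0, hfix⟩ := h.exists_source
  obtain ⟨F, l, hP⟩ := exists_pack h hbig p hp hp0 hfix
  obtain ⟨v, hvA, hv0, hvD⟩ := exists_top_vec h hD hP
  let S : Submodule K (σ → K) := cs K (wset w 0) ⊓ LinearMap.ker ((dotB σ K).flip p)
  have hS : S < cs K (wset w 0) := by
    refine lt_of_le_of_ne inf_le_left (fun heq => ?_)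
    obtain ⟨k0, hk0⟩ := Function.ne_iff.1 hp0
    have h1 : (Pi.single k0 1 : σ → K) ∈ S := by
      rw [heq]
      apply single_mem_cs
      rw [mem_wset]; exact hfix k0 hk0
    have h2 : dotB σ K (Pi.single k0 1) p = 0 := h1.2
    rw [dotB_single] at h2
    exact hk0 h2
  have h3 := Submodule.finrank_lt_finrank_of_lt hS
  rw [finrank_cs] at h3
  let φ : (Fin r → K) →ₗ[K] S := LinearMap.codRestrict S ((LL F p).flip v) (fun c => by
    refine ⟨?_, hP.LL_p h c v hvA⟩
    rw [SetLike.mem_coe, mem_cs_wset]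
    intro k hk
    obtain ⟨i, _, hi⟩ := LL_supp hP.fr hfix c v D hvD k hk
    have h1 := (h.frame_le hfix hP.fr i).2
    have h2 := h.nn k
    omega)
  have hφ : Function.Injective φ := by
    rw [← LinearMap.ker_eq_bot, LinearMap.ker_eq_bot']
    intro c hc
    exact hP.inj c v hvA hv0 (congrArg Subtype.val hc)
  have h4 := LinearMap.finrank_le_finrank_of_injective hφ
  rw [Module.finrank_fintype_fun_eq_card, Fintype.card_fin] at h4
  omega

/-- The case of a large upper part. -/
theorem upper_case [IsAlgClosed K] [CharZero K] (h : Src w I r D)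
    (hbig : 3 * r + 1 ≤ (upper w D).card) : r ≤ 1 := by
  by_cases hsmall : (wset w D).card ≤ r
  · exact small_sink h hbig hsmall
  push Not at hsmall
  have hDpos := h.pos
  have hY := conormal_D h hbig hsmall
  have hn0 := n0_gt h hbig hsmall
  by_cases hk : ∃ k1 ∈ upper w D, w k1 ≠ D
  · obtain ⟨k1, hk1, hk1D⟩ := hk
    have hk1' := (mem_upper w D k1).1 hk1
    set a : σ → K := Pi.single k1 1 with ha
    have ha0 : a ≠ 0 := by
      intro h0
      have := congrFun h0 k1
      simp [ha] at this
    have haj : Hom w (w k1) a := by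
      intro k hk
      have : k = k1 := by
        by_contra hne
        exact hk (by rw [ha, Pi.single_apply, if_neg hne])
      rw [this]
    have haA : ∀ z, Fixed w z → z ≠ 0 →
        a ∈ (tangent I z ⊓ cs K (upper w D) : Submodule K (σ → K)) := by
      intro z hz hz0
      refine ⟨?_, single_mem_cs _ _ hk1⟩
      show a ∈ tangent I z
      rw [mem_tangent']
      intro ξ hξ
      rw [ha, dotB_comm, dotB_single]
      by_contra hne
      exact hk1D (hY z hz hz0 ξ hξ k1 hne)
    obtain ⟨p, hp, hp0, hfix⟩ := h.exists_source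
    obtain ⟨F, l, hP⟩ := exists_pack h hbig p hp hp0 hfix
    have hac := hP.fs.mem_cone h.sc a (haA p hfix hp0)
    obtain ⟨G, m, hG⟩ := exists_frame (fun k => w k - w k1) I r h.sc
      (stable_shift h.sc.homog h.st (w k1)) a hac ha0
    have hb : LamB w I (LL G a) := by
      intro z hz hz0
      obtain ⟨F', l', hP'⟩ := exists_pack h hbig z (all_fixed h hbig z hz) hz0 hz
      exact lam_pack h (w k1) (by omega) a ha0 haj hG hP' (haA z hz hz0) (Or.inl hk1')
    exact final5 h hbig hY hb hn0
  · push Not at hk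
    have hsub : upper w D ⊆ wset w D := fun k hk' => (mem_wset w D k).2 (hk k hk')
    have hD : 3 * r + 1 ≤ (wset w D).card := hbig.trans (Finset.card_le_card hsub)
    obtain ⟨b, hb⟩ := exists_lamB h hbig hD
    exact final5 h hbig hY hb hn0

omit [DecidableEq σ] in
lemma Src.neg (h : Src w I r D) : Src (fun k => D - w k) I r D where
  sc := h.sc
  st := by
    have := stable_neg (stable_shift h.sc.homog h.st D)
    intro t ht x hx
    have h1 := this t ht x hx
    simpa using h1
  nd := h.nd
  nn := fun k => by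
    show 0 ≤ D - w k
    have := h.le k
    omega
  le := fun k => by
    show D - w k ≤ D
    have := h.nn k
    omega
  min := by
    obtain ⟨M, hM⟩ := h.max
    exact ⟨M, by show D - w M = 0; omega⟩
  max := by
    obtain ⟨o, ho⟩ := h.min
    exact ⟨o, by show D - w o = D; omega⟩
  pos := h.pos

/-- coordinates of weight less than `D / 2` -/
def lower (w : σ → ℤ) (D : ℤ) : Finset σ := Finset.univ.filter (fun k => 2 * w k < D)

theorem lower_case [IsAlgClosed K] [CharZero K] (h : Src w I r D)
    (hbig : 3 * r + 1 ≤ (lower w D).card) : r ≤ 1 := by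
  apply upper_case h.neg
  have : upper (fun k => D - w k) D = lower w D := by
    ext k
    simp only [upper, lower, Finset.mem_filter, Finset.mem_univ, true_and]
    constructor <;> intro h <;> omega
  rw [this]; exact hbig

end Pool.Agent.H929R2.Hart
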