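import Pool.Agent.H929R2.Hart.W12

set_option autoImplicit false
set_option maxHeartbeats 400000

namespace Pool.Agent.H929R2.Hart

open MvPolynomial

variable {σ : Type} [Fintype σ] [DecidableEq σ] {K : Type} [Field K]

variable {w : σ → ℤ} {I : Ideal (MvPolynomial σ K)} {r : ℕ} {D : ℤ}

omit [DecidableEq σ] in
lemma dd_wh {F : MvPolynomial σ K} {m j : ℤ} (hF : IsWeightedHomogeneous w F m) (s : σ → K)
    (hs : Hom w j s) : IsWeightedHomogeneous w (dd s F) (m - j) := by
  rw [← mem_weightedHomogeneousSubmodule, dd]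
  refine Submodule.sum_mem _ (fun k _ => ?_)
  by_cases hk : s k = 0
  · rw [hk, map_zero, zero_mul]; exact Submodule.zero_mem _
  · rw [← smul_eq_C_mul]
    apply Submodule.smul_mem
    rw [mem_weightedHomogeneousSubmodule, ← hs k hk]
    exact pderiv_wh hF k

/-- the Hessian of the `i`-th element of the frame, as a bilinear form -/
noncomputable def hq (F : Fin r → MvPolynomial σ K) (y : σ → K) (i : Fin r) :
    (σ → K) →ₗ[K] (σ → K) →ₗ[K] K := LinearMap.comp (dotB σ K) (LL F y (Pi.single i 1))

lemma hq_apply (F : Fin r → MvPolynomial σ K) (y : σ → K) (i : Fin r) (a b : σ → K) :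
    hq F y i a b = dotB σ K (grad (dd a (F i)) y) b := by
  have : LL F y (Pi.single i 1) a = grad (dd a (F i)) y := by
    rw [LL_apply, Finset.sum_eq_single i]
    · rw [Pi.single_eq_same, one_smul]
    · intro k _ hk
      rw [Pi.single_eq_of_ne hk, zero_smul]
    · intro h; exact absurd (Finset.mem_univ _) h
  rw [hq, LinearMap.comp_apply, this]

lemma hq_symm (F : Fin r → MvPolynomial σ K) (y : σ → K) (i : Fin r) (a b : σ → K) :
    hq F y i a b = hq F y i b a := by
  rw [hq_apply, hq_apply, hess_symm]

/-- Isotropic tangent vectors of middle weight are flat. -/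
theorem mid_line [IsAlgClosed K] [CharZero K] (h : Src w I r D) (j : ℤ) (hj : D = 2 * j)
    (y : σ → K) (hy : y ∈ cone I) (hy0 : part w 0 y ≠ 0)
    {F : Fin r → MvPolynomial σ K} {l : Fin r → ℤ} (hF : IsFrame w I (part w 0 y) F l)
    (s : σ → K) (hs : Hom w j s) (hsT : s ∈ tangent I y) (hiso : ∀ i, hq F y i s s = 0)
    (t : K) : y + t • s ∈ cone I := by
  have hDpos := h.pos
  have hnn := h.nn' y
  have hy1 : y ≠ 0 := by
    rintro rfl
    apply hy0
    funext i
    simp [part]
  apply line_lemma I h.sc.prime r (fun x hx hx0 => (h.sc.rank x hx hx0).le) y s hy hy1 F hF.mem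
    (hF.ind_at y hnn rfl)
  intro i t
  have hl := (h.frame_le (fixed_part w y) hF i).2
  have h1 : ∀ u : K, eval (y + u • s) (dd s (F i)) = 0 := by
    intro u
    rw [flat_wt (dd_wh (hF.wh i) s hs) y s hnn (fun k hk => by
      rw [hs k hk]
      omega) u, ← hq_apply, hiso i, mul_zero, add_zero, eval_dd]
    exact (mem_tangent I y s).1 hsT _ (hF.mem i)
  have h2 := poly_affine (line (F i) y s) 0 (fun u => by
    rw [derivative_line', eval_line, h1]) t
  rw [eval_line, eval_line, mul_zero, add_zero, zero_smul, add_zero] at h2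
  rw [h2]
  exact hy _ (hF.mem i)

/-- A vector orthogonal to the part of the cone outside the sink's complement is zero. -/
lemma nondeg_vanish [IsAlgClosed K] (h : Src w I r D) (u : σ → K)
    (hvan : ∀ y ∈ cone I, part w 0 y ≠ 0 → dotB σ K u y = 0) : u = 0 := by
  obtain ⟨o, ho⟩ := h.min
  apply h.nd
  have hev : ∀ y : σ → K, eval y (∑ l, MvPolynomial.C (u l) * X l) = dotB σ K u y := by
    intro y
    rw [map_sum, dotB_apply]
    exact Finset.sum_congr rfl (fun i _ => by simp)
  have hXo : (X o * ∑ l, MvPolynomial.C (u l) * X l : MvPolynomial σ K) ∈ I := by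
    apply mem_of_vanish I h.sc.prime
    intro y hy
    rw [map_mul, eval_X, hev]
    by_cases hy0 : part w 0 y = 0
    · have := congrFun hy0 o
      simp only [part, ho, if_true, Pi.zero_apply] at this
      rw [this, zero_mul]
    · rw [hvan y hy hy0, mul_zero]
  rcases h.sc.prime.mem_or_mem hXo with h5 | h5
  · exfalso
    have h6 := h.nd (Pi.single o 1) (by
      have h7 : (∑ k, MvPolynomial.C ((Pi.single o 1 : σ → K) k) * X k : MvPolynomial σ K) =
          X o := by
        rw [Finset.sum_eq_single o]
        · simp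
        · intro k _ hk
          rw [Pi.single_apply, if_neg hk, map_zero, zero_mul]
        · intro h; exact absurd (Finset.mem_univ _) h
      rw [h7]; exact h5)
    have := congrFun h6 o
    simp at this
  · exact h5

omit [DecidableEq σ] in
/-- the whole weight space `V_0` is contained in the cone -/
lemma fixed_mem' [IsAlgClosed K] [CharZero K] (h : Src w I r D) {p : σ → K} (hp : p ∈ cone I)
    (hp0 : p ≠ 0) (hfix : Fixed w p) {F : Fin r → MvPolynomial σ K} {l : Fin r → ℤ}
    (hF : IsFrame w I p F l) (hpos : ∀ i, 0 < l i) (z : σ → K) (hz : Fixed w z) :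
    z ∈ cone I := by
  have h1 : ∀ t : K, p + t • z ∈ cone I := by
    apply line_lemma I h.sc.prime r (fun x hx hx0 => (h.sc.rank x hx hx0).le) p z hp hp0
      F hF.mem hF.ind
    intro i t
    exact eval_fixed (hF.wh i) (hpos i).ne' _ (fixed_add hfix hz t)
  apply (cone_of_line I z p _).1
  intro t ht
  have h2 : z + t • p = t • (p + t⁻¹ • z) := by
    rw [smul_add, smul_smul, mul_inv_cancel₀ ht, one_smul, add_comm]
  rw [h2]
  exact cone_smul I h.sc.homog _ _ (h1 _)

/-- coordinates of middle weight -/
def mid (w : σ → ℤ) (D : ℤ) : Finset σ := Finset.univ.filter (fun k => 2 * w k = D)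

omit [DecidableEq σ] in
lemma mid_eq {j : ℤ} (hj : D = 2 * j) : mid w D = wset w j := by
  ext k
  simp only [mid, wset, Finset.mem_filter, Finset.mem_univ, true_and]
  constructor <;> intro h <;> omega

omit [DecidableEq σ] in
lemma card_wset_le {j m : ℤ} {c : ℕ} (hj : D = 2 * j) (hm : m ≠ j) (hup : (upper w D).card ≤ c)
    (hlow : (lower w D).card ≤ c) : (wset w m).card ≤ c := by
  rcases lt_or_gt_of_ne hm with h | h
  · refine le_trans (Finset.card_le_card ?_) hlow
    intro k hk
    rw [mem_wset] at hk
    simp only [lower, Finset.mem_filter, Finset.mem_univ, true_and]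
    omega
  · refine le_trans (Finset.card_le_card ?_) hup
    intro k hk
    rw [mem_wset] at hk
    rw [mem_upper]
    omega

omit [DecidableEq σ] in
/-- the kernel of a linear map on a submodule -/
lemma finrank_ker_le (S : Submodule K (σ → K)) (f : (σ → K) →ₗ[K] (σ → K))
    (T : Submodule K (σ → K)) (hf : ∀ x ∈ S, f x ∈ T) :
    Module.finrank K S ≤ Module.finrank K (S ⊓ LinearMap.ker f : Submodule K (σ → K)) +
      Module.finrank K T := by
  let g : S →ₗ[K] T := (f.domRestrict S).codRestrict T (fun x => hf x x.2)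
  have h1 : Module.finrank K (LinearMap.range g) + Module.finrank K (LinearMap.ker g) =
    Module.finrank K S := LinearMap.finrank_range_add_finrank_ker g
  have h2 := Submodule.finrank_le (LinearMap.range g)
  have h3 : Module.finrank K (LinearMap.ker g) ≤
      Module.finrank K (S ⊓ LinearMap.ker f : Submodule K (σ → K)) := by
    rw [← Submodule.finrank_map_subtype_eq S (LinearMap.ker g)]
    apply Submodule.finrank_mono
    rintro _ ⟨x, hx, rfl⟩
    refine ⟨x.2, ?_⟩
    exact congrArg Subtype.val (LinearMap.mem_ker.1 hx)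
  omega

/-- If the upper and lower parts are small, all the normal weights at the source are `D`. -/
theorem all_D [IsAlgClosed K] [CharZero K] (h : Src w I r D) (j : ℤ) (hj : D = 2 * j)
    (hup : (upper w D).card ≤ 3 * r) (hlow : (lower w D).card ≤ 3 * r)
    (hmid : 7 * r + 1 ≤ (wset w j).card)
    {p : σ → K} (hp : p ∈ cone I) (hp0 : p ≠ 0) (hfix : Fixed w p)
    {F : Fin r → MvPolynomial σ K} {l : Fin r → ℤ} (hF : IsFrame w I p F l) (i : Fin r) :
    l i = D := by
  by_contra hli
  have hDpos := h.pos
  have hli2 := h.frame_le hfix hF i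
  have hpart : part w 0 p = p := part_eq_self hfix
  have hF' : IsFrame w I (part w 0 p) F l := by rw [hpart]; exact hF
  apply hF.ind.ne_zero i
  set f := LL F p (Pi.single i 1) with hf
  have hfa : ∀ a, f a = grad (dd a (F i)) p := by
    intro a
    rw [hf, LL_apply, Finset.sum_eq_single i]
    · rw [Pi.single_eq_same, one_smul]
    · intro k _ hk
      rw [Pi.single_eq_of_ne hk, zero_smul]
    · intro h; exact absurd (Finset.mem_univ _) h
  have h1 := finrank_ker_le (cs K (wset w j)) f (cs K (wset w (l i - j))) (fun a ha => by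
    rw [mem_cs_wset] at ha ⊢
    intro k hk
    obtain ⟨i', hi', hi2⟩ := LL_supp hF hfix _ a j ha k hk
    have hii : i' = i := by
      by_contra hne
      exact hi' (by rw [Pi.single_apply, if_neg hne])
    rw [hii] at hi2
    omega)
  rw [finrank_cs, finrank_cs] at h1
  have h2 := card_wset_le (w := w) hj (m := l i - j) (by omega) hup hlow
  set S := cs K (wset w j) ⊓ LinearMap.ker f with hS
  have h3 := finrank_inf_tangent h.sc p hp hp0 S
  apply nondeg_vanish h
  intro y hy hy0
  have hy1 : y ≠ 0 := by
    rintro rfl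
    apply hy0
    funext i
    simp [part]
  have h4 := finrank_inf_tangent h.sc y hy hy1 (S ⊓ tangent I p)
  obtain ⟨Fy, ly, hFy⟩ := exists_frame w I r h.sc h.st (part w 0 y)
    (limit_cone w I h.st y hy (h.nn' y)) hy0
  obtain ⟨a, ⟨⟨⟨haj, haf⟩, haTp⟩, haTy⟩, ha0, hiso⟩ := exists_isotropic
    (S ⊓ tangent I p ⊓ tangent I y) (Sum.elim (hq F p) (hq Fy y)) (by
      rw [Fintype.card_sum, Fintype.card_fin]
      omega)
  have haj' := (mem_cs_wset w j a).1 haj
  have hl1 : ∀ t : K, p + t • a ∈ cone I := mid_line h j hj p hp (by rw [hpart]; exact hp0) hF' a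
    haj' haTp (fun k => hiso (Sum.inl k))
  have hl2 : ∀ t : K, y + t • a ∈ cone I := mid_line h j hj y hy hy0 hFy a
    haj' haTy (fun k => hiso (Sum.inr k))
  -- the gradient does not change
  have hg : ∀ t : K, grad (F i) (p + t • a) = grad (F i) p := by
    intro t
    rw [grad_flat_wt (hF.wh i) p a (h.nn' p) (fun k hk => ⟨h.nn k, fun e => by
      have := h.nn e
      rw [haj' k hk]
      omega⟩) t]
    have : f a = 0 := haf
    rw [hfa] at this
    rw [this, smul_zero, add_zero]
  have hu : grad (F i) p ∈ conormal I a := by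
    apply conormal_closed I r h.sc.rank a p ha0 _ 0
    intro t ht
    have h5 : a + t • p = t • (p + t⁻¹ • a) := by
      rw [smul_add, smul_smul, mul_inv_cancel₀ ht, one_smul, add_comm]
    rw [h5, conormal_smul I h.sc.homog t ht, smul_zero, add_zero]
    refine ⟨cone_smul I h.sc.homog _ _ (hl1 _), ?_⟩
    rw [← hg t⁻¹]
    exact grad_mem I _ (hF.mem i)
  have hyT : y ∈ tangent I a := by
    apply (cone_of_line I a y _).2
    intro t ht
    have h5 : a + t • y = t • (y + t⁻¹ • a) := by
      rw [smul_add, smul_smul, mul_inv_cancel₀ ht, one_smul, add_comm]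
    rw [h5]
    exact cone_smul I h.sc.homog _ _ (hl2 _)
  exact tangent_conormal I a hu hyT

end Pool.Agent.H929R2.Hart
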