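import Pool.Agent.H929R2.Hart.W18

set_option autoImplicit false
set_option maxHeartbeats 400000

namespace Pool.Agent.H929R2.Hart

open MvPolynomial

variable {σ : Type} [Fintype σ] [DecidableEq σ] {K : Type} [Field K]

lemma bound_quad {r r' s t : ℕ} (h1 : s + r = t + r') (h2 : r' ≤ r)
    (h3 : 9 * (r * r) + 13 * r + 1 ≤ t) : 9 * (r' * r') + 13 * r' + 1 ≤ s := by
  obtain ⟨d, rfl⟩ := Nat.exists_eq_add_of_le h2
  nlinarith

theorem main_diag [IsAlgClosed K] [CharZero K] (n r : ℕ) (hσ : Fintype.card σ = n + 1)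
    (hn : 9 * (r * r) + 13 * r ≤ n) (I : Ideal (MvPolynomial σ K))
    (hI : I.IsPrime) (hom : ∀ F ∈ I, ∀ d, homogeneousComponent d F ∈ I)
    (hne : ∃ x ∈ cone I, x ≠ 0)
    (hr : ∀ x ∈ cone I, x ≠ 0 → Module.finrank K (conormal I x) = r)
    (μ : σ → K) (hμ : ∀ i, μ i ≠ 0) (hst : ∀ x ∈ cone I, (fun i => μ i * x i) ∈ cone I)
    (hinf : ∀ m : ℕ, 0 < m → ∃ x ∈ cone I, ∀ c : K, (fun i => μ i ^ m * x i) ≠ c • x) :
    r ≤ Module.finrank K (linsub I) + 1 ∧ IsCI r I := by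
  obtain ⟨w, hw, hnt⟩ := exists_torus I hI μ hμ hst hinf
  have h1 : r ≤ Module.finrank K (linsub I) + 1 :=
    main_gm r I hI hom hr hne w hw hnt (fun τ _ _ w' J r' D hsrc hcard hle =>
      src_le_one hsrc (bound_quad hcard hle (by rw [hσ]; omega)))
  exact ⟨h1, isCI_of_linsub r I hI hom hr hne h1⟩

end Pool.Agent.H929R2.Hart
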