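import Pool.Agent.H929R2.Hart.W1
import Pool.Agent.H929R2.Hart.Hyper2

set_option autoImplicit false
set_option maxHeartbeats 400000

namespace Pool.Agent.H929R2.Hart

open MvPolynomial

variable {σ : Type} [Fintype σ] [DecidableEq σ] {K : Type} [Field K]

/-! ### The line lemma -/

omit [DecidableEq σ] in
lemma line_add (F G : MvPolynomial σ K) (x v : σ → K) : line (F + G) x v = line F x v + line G x v :=
  map_add _ _ _

omit [DecidableEq σ] in
lemma derivative_line' (F : MvPolynomial σ K) (x v : σ → K) :
    Polynomial.derivative (line F x v) = line (dd v F) x v := by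
  rw [derivative_line, dd, line, map_sum]
  refine Finset.sum_congr rfl (fun i _ => ?_)
  rw [map_mul, line, mul_comm]
  congr 1
  simp

omit [DecidableEq σ] in
/-- The determinant of directional derivatives of `r + 1` elements of `I` is in `I`. -/
lemma det_mem [IsAlgClosed K] (I : Ideal (MvPolynomial σ K)) (hI : I.IsPrime)
    (hne : ∃ x ∈ cone I, x ≠ 0) (r : ℕ)
    (hr : ∀ x ∈ cone I, x ≠ 0 → Module.finrank K (conormal I x) ≤ r)
    (F : Fin (r + 1) → MvPolynomial σ K) (hF : ∀ i, F i ∈ I) (v : Fin (r + 1) → (σ → K)) :
    Matrix.det (fun a b => dd (v b) (F a)) ∈ I := by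
  apply mem_of_vanish_ne I hI hne
  intro x hx hx0
  have h0 : (eval x) (Matrix.det (fun a b => dd (v b) (F a))) =
      Matrix.det (fun a b => dotB σ K (grad (F a) x) (v b)) := by
    rw [RingHom.map_det]
    congr 1
    ext a b
    rw [RingHom.mapMatrix_apply, Matrix.map_apply, eval_dd]
  rw [h0, ← Matrix.exists_vecMul_eq_zero_iff]
  have hdep : ¬ LinearIndependent K (fun a => grad (F a) x) := by
    intro hli
    have h2 : LinearIndependent K
        (fun i => (⟨grad (F i) x, grad_mem I x (hF i)⟩ : conormal I x)) :=
      LinearIndependent.of_comp (conormal I x).subtype hli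
    have := h2.fintype_card_le_finrank
    rw [Fintype.card_fin] at this
    have := hr x hx hx0
    omega
  rw [Fintype.not_linearIndependent_iff] at hdep
  obtain ⟨c, hc, i, hci⟩ := hdep
  refine ⟨c, fun h0 => hci (congrFun h0 i), ?_⟩
  ext j
  have := congrArg (fun φ => dotB σ K φ (v j)) hc
  simpa [Matrix.vecMul, dotProduct, map_sum, LinearMap.sum_apply] using this

omit [DecidableEq σ] in
/-- If the line `y + t s` satisfies `r` equations in `I` with independent gradients at `y`, then
it is contained in the cone. -/
theorem line_lemma [IsAlgClosed K] [CharZero K] (I : Ideal (MvPolynomial σ K)) (hI : I.IsPrime)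
    (r : ℕ) (hr : ∀ x ∈ cone I, x ≠ 0 → Module.finrank K (conormal I x) ≤ r)
    (y s : σ → K) (hy : y ∈ cone I) (hy0 : y ≠ 0)
    (F : Fin r → MvPolynomial σ K) (hF : ∀ i, F i ∈ I)
    (hind : LinearIndependent K (fun i => grad (F i) y))
    (hs : ∀ i, ∀ t : K, eval (y + t • s) (F i) = 0) (t : K) : y + t • s ∈ cone I := by
  obtain ⟨v, hv⟩ := exists_dual_vectors _ hind
  -- the determinant
  let M : MvPolynomial σ K → Matrix (Fin (r + 1)) (Fin (r + 1)) (MvPolynomial σ K) := fun G =>
    fun a b => dd ((Fin.cons s v : Fin (r + 1) → (σ → K)) b)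
      ((Fin.cons G F : Fin (r + 1) → MvPolynomial σ K) a)
  have hM : ∀ G ∈ I, (M G).det ∈ I := by
    intro G hG
    apply det_mem I hI ⟨y, hy, hy0⟩ r hr
    intro i
    refine Fin.cases ?_ (fun i => ?_) i
    · exact hG
    · exact hF i
  let Δ : Polynomial K := Matrix.det (fun a b : Fin r => line (dd (v b) (F a)) y s)
  have hΔ : Δ.coeff 0 = 1 := by
    rw [Polynomial.coeff_zero_eq_eval_zero]
    have h1 : Δ.eval 0 = (Polynomial.evalRingHom 0) Δ := rfl
    rw [h1, RingHom.map_det]
    have h2 : (Polynomial.evalRingHom (0 : K)).mapMatrix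
        (fun a b : Fin r => line (dd (v b) (F a)) y s) = 1 := by
      ext a b
      rw [RingHom.mapMatrix_apply, Matrix.map_apply, Polynomial.coe_evalRingHom, eval_line,
        zero_smul, add_zero, eval_dd, hv, Matrix.one_apply]
    rw [h2, Matrix.det_one]
  have hkey : ∀ G, line (M G).det y s = Polynomial.derivative (line G y s) * Δ := by
    intro G
    have h1 : line (M G).det y s = Matrix.det (fun a b => line (M G a b) y s) := by
      have : ∀ P : MvPolynomial σ K, line P y s = (aeval (R := K)
        (fun i => Polynomial.C (y i) + Polynomial.X * Polynomial.C (s i))).toRingHom P :=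
        fun P => rfl
      rw [this, RingHom.map_det]
      rfl
    rw [h1, Matrix.det_succ_column_zero, Finset.sum_eq_single 0]
    · have h2 : line (M G 0 0) y s = Polynomial.derivative (line G y s) := by
        rw [derivative_line']; rfl
      rw [h2]
      simp only [Fin.val_zero, pow_zero, one_mul]
      rfl
    · intro i _ hi
      obtain ⟨j, rfl⟩ := Fin.exists_succ_eq_of_ne_zero hi
      have h2 : line (M G j.succ 0) y s = 0 := by
        have h3 : line (M G j.succ 0) y s = Polynomial.derivative (line (F j) y s) := by
          rw [derivative_line']; rfl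
        rw [h3]
        have h4 : line (F j) y s = 0 := by
          apply Polynomial.funext
          intro u
          rw [eval_line, hs j u, Polynomial.eval_zero]
        rw [h4, Polynomial.derivative_zero]
      rw [h2]
      ring
    · intro h; exact absurd (Finset.mem_univ _) h
  have hcoef : ∀ m : ℕ, ∀ G ∈ I, (line G y s).coeff m = 0 := by
    intro m
    induction m using Nat.strong_induction_on with
    | _ m ih =>
    intro G hG
    rcases Nat.eq_zero_or_pos m with h0 | hpos
    · rw [h0, Polynomial.coeff_zero_eq_eval_zero, eval_line, zero_smul, add_zero]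
      exact hy G hG
    · obtain ⟨k, rfl⟩ : ∃ k, m = k + 1 := ⟨m - 1, by omega⟩
      have h1 := ih k (by omega) _ (hM G hG)
      rw [hkey, Polynomial.coeff_mul, Finset.sum_eq_single (k, 0)] at h1
      · rw [hΔ, mul_one, Polynomial.coeff_derivative] at h1
        rcases mul_eq_zero.1 h1 with h2 | h2
        · exact h2
        · exfalso
          have : ((k + 1 : ℕ) : K) = 0 := by push_cast; exact h2
          exact Nat.cast_ne_zero.2 (Nat.succ_ne_zero _) this
      · rintro ⟨a, b⟩ hab hne
        have hab' : a + b = k := by
          simpa [Finset.HasAntidiagonal.mem_antidiagonal] using hab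
        rw [Polynomial.coeff_derivative, ih (a + 1) (by
          have : b ≠ 0 := by
            rintro rfl
            apply hne
            rw [add_zero] at hab'
            rw [hab']
          omega) G hG]
        ring
      · intro h
        exact absurd (Finset.HasAntidiagonal.mem_antidiagonal.2 (by simp)) h
  intro G hG
  rw [← eval_line]
  have : line G y s = 0 := by
    ext m
    rw [hcoef m G hG, Polynomial.coeff_zero]
  rw [this, Polynomial.eval_zero]

end Pool.Agent.H929R2.Hart
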