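import Pool.Agent.H929R2.Hart.W2

set_option autoImplicit false
set_option maxHeartbeats 400000

namespace Pool.Agent.H929R2.Hart

open MvPolynomial

variable {σ : Type} [Fintype σ] [DecidableEq σ] {K : Type} [Field K]

/-- the cone over a smooth irreducible variety of codimension `r` -/
structure SCone (I : Ideal (MvPolynomial σ K)) (r : ℕ) : Prop where
  prime : I.IsPrime
  homog : ∀ F ∈ I, ∀ d, homogeneousComponent d F ∈ I
  rank : ∀ x ∈ cone I, x ≠ 0 → Module.finrank K (conormal I x) = r

/-- `r` weighted homogeneous elements of the ideal, with independent gradients at `p` -/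
structure IsFrame (w : σ → ℤ) (I : Ideal (MvPolynomial σ K)) (p : σ → K) {r : ℕ}
    (F : Fin r → MvPolynomial σ K) (l : Fin r → ℤ) : Prop where
  mem : ∀ i, F i ∈ I
  wh : ∀ i, IsWeightedHomogeneous w (F i) (l i)
  ind : LinearIndependent K (fun i => grad (F i) p)

omit [Fintype σ] [DecidableEq σ] in
lemma grad_add (F G : MvPolynomial σ K) (x : σ → K) : grad (F + G) x = grad F x + grad G x := by
  funext i; simp [grad]

omit [Fintype σ] [DecidableEq σ] in
lemma grad_sum {ι : Type} (s : Finset ι) (F : ι → MvPolynomial σ K) (x : σ → K) :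
    grad (∑ k ∈ s, F k) x = ∑ k ∈ s, grad (F k) x := by
  funext i; simp [grad, Finset.sum_apply]

omit [Fintype σ] [DecidableEq σ] in
lemma grad_C_mul (c : K) (F : MvPolynomial σ K) (x : σ → K) :
    grad (C c * F) x = c • grad F x := by
  funext i; simp [grad]

omit [DecidableEq σ] in
lemma exists_frame [IsAlgClosed K] (w : σ → ℤ) (I : Ideal (MvPolynomial σ K)) (r : ℕ)
    (hI : SCone I r) (hst : Stable w I) (p : σ → K) (hp : p ∈ cone I) (hp0 : p ≠ 0) :
    ∃ (F : Fin r → MvPolynomial σ K) (l : Fin r → ℤ), IsFrame w I p F l := by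
  classical
  let S : Set (σ → K) := {ξ | ∃ F ∈ I, ∃ m, IsWeightedHomogeneous w F m ∧ ξ = grad F p}
  have hS : Submodule.span K S = conormal I p := by
    apply le_antisymm
    · rw [Submodule.span_le]
      rintro _ ⟨F, hF, _, _, rfl⟩
      exact grad_mem I p hF
    · rw [conormal, Submodule.span_le]
      rintro _ ⟨F, hF, rfl⟩
      have hsum : ∑ k ∈ F.support.image (Finsupp.weight w),
          weightedHomogeneousComponent w k F = F := by
        have h := sum_weightedHomogeneousComponent w F
        rw [finsum_eq_sum_of_support_subset _ (s := F.support.image (Finsupp.weight w))] at h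
        · exact h
        · intro k hk
          by_contra hcon
          apply hk
          show weightedHomogeneousComponent w k F = 0
          rw [weightedHomogeneousComponent_apply]
          apply Finset.sum_eq_zero
          intro d hd
          rw [Finset.mem_filter] at hd
          exact absurd (Finset.mem_image.2 ⟨d, hd.1, hd.2⟩) hcon
      rw [← hsum, grad_sum]
      refine Submodule.sum_mem _ (fun k _ => Submodule.subset_span ?_)
      exact ⟨_, wcompZ_mem w I hI.prime hst F hF k, k,
        weightedHomogeneousComponent_isWeightedHomogeneous k F, rfl⟩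
  have hfin : Module.finrank K (Submodule.span K S) = r := by rw [hS]; exact hI.rank p hp hp0
  obtain ⟨f, hf1, _, hf3⟩ := Submodule.exists_fun_fin_finrank_span_eq K S
  choose F hF m hm hFm using hf1
  let e : Fin r ≃ Fin (Module.finrank K (Submodule.span K S)) := finCongr hfin.symm
  refine ⟨fun i => F (e i), fun i => m (e i), fun i => hF _, fun i => hm _, ?_⟩
  have : (fun i => grad (F (e i)) p) = f ∘ e := by
    funext i; simp [hFm]
  rw [this]
  exact hf3.comp _ e.injective

omit [DecidableEq σ] in
/-- flat directions -/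
lemma flat_eval [CharZero K] (F : MvPolynomial σ K) (x s : σ → K)
    (h : ∀ k m, s k ≠ 0 → s m ≠ 0 → ∀ t : K, eval (x + t • s) (pderiv k (pderiv m F)) = 0)
    (t : K) : eval (x + t • s) F = eval x F + t * dotB σ K (grad F x) s := by
  have h0 : ∀ u : K, eval (x + u • s) (dd s (dd s F)) = 0 := by
    intro u
    rw [dd, map_sum]
    refine Finset.sum_eq_zero (fun k _ => ?_)
    rw [map_mul, dd, map_sum, map_sum]
    by_cases hk : s k = 0
    · rw [hk, map_zero, map_zero, zero_mul]
    rw [Finset.sum_eq_zero, mul_zero]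
    intro m _
    rw [pderiv_C_mul, map_mul, eval_C]
    by_cases hm : s m = 0
    · rw [hm, zero_mul]
    · rw [h k m hk hm u, mul_zero]
  have h1 : ∀ u : K, eval (x + u • s) (dd s F) = eval x (dd s F) := by
    intro u
    have h2 := poly_affine (line (dd s F) x s) 0 (fun v => by
      rw [derivative_line', eval_line, h0]) u
    rw [eval_line, eval_line] at h2
    simpa using h2
  have h3 := poly_affine (line F x s) (eval x (dd s F)) (fun u => by
    rw [derivative_line', eval_line, h1]) t
  rw [eval_line, eval_line, eval_dd] at h3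
  simpa using h3

omit [Fintype σ] [DecidableEq σ] in
lemma NN_add {w : σ → ℤ} {x y : σ → K} (hx : NN w x) (hy : NN w y) (t : K) :
    NN w (x + t • y) := by
  intro i hi
  by_contra h
  apply hi
  have h1 : x i = 0 := by by_contra h2; exact h (hx i h2)
  have h2 : y i = 0 := by by_contra h3; exact h (hy i h3)
  simp [h1, h2]

omit [DecidableEq σ] in
lemma flat_wt [CharZero K] {w : σ → ℤ} {F : MvPolynomial σ K} {m : ℤ}
    (hF : IsWeightedHomogeneous w F m) (x s : σ → K) (hx : NN w x)
    (hs : ∀ k, s k ≠ 0 → 0 ≤ w k ∧ m < 2 * w k) (t : K) :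
    eval (x + t • s) F = eval x F + t * dotB σ K (grad F x) s := by
  apply flat_eval
  intro k k' hk hk' u
  have h1 := hs k hk
  have h2 := hs k' hk'
  exact eval_neg' (pderiv_wh (pderiv_wh hF k') k) (by omega) _
    (NN_add hx (fun i hi => (hs i hi).1) u)

lemma grad_flat_wt [CharZero K] {w : σ → ℤ} {F : MvPolynomial σ K} {m : ℤ}
    (hF : IsWeightedHomogeneous w F m) (x s : σ → K) (hx : NN w x)
    (hs : ∀ k, s k ≠ 0 → 0 ≤ w k ∧ ∀ e, m - w e < 2 * w k) (t : K) :
    grad F (x + t • s) = grad F x + t • grad (dd s F) x := by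
  funext e
  simp only [grad, Pi.add_apply, Pi.smul_apply, smul_eq_mul]
  rw [flat_wt (pderiv_wh hF e) x s hx (fun k hk => ⟨(hs k hk).1, (hs k hk).2 e⟩) t, ← eval_dd,
    pderiv_dd]

omit [Fintype σ] [DecidableEq σ] in
/-- gradient components of a weighted homogeneous polynomial -/
lemma grad_wt_neg [Infinite K] [Fintype σ] {w : σ → ℤ} {F : MvPolynomial σ K} {m : ℤ}
    (hF : IsWeightedHomogeneous w F m) (x : σ → K) (hx : NN w x) (k : σ) (hk : m < w k) :
    grad F x k = 0 :=
  eval_neg' (pderiv_wh hF k) (by omega) x hx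

omit [DecidableEq σ] in
lemma grad_wt_zero [Infinite K] {w : σ → ℤ} {F : MvPolynomial σ K} {m : ℤ}
    (hF : IsWeightedHomogeneous w F m) (x : σ → K) (hx : NN w x) (k : σ) (hk : w k = m) :
    grad F x k = grad F (part w 0 x) k := by
  have h := pderiv_wh hF k
  rw [hk, sub_self] at h
  exact eval_zero_wt h x hx

omit [DecidableEq σ] in
lemma grad_fixed [Infinite K] {w : σ → ℤ} {F : MvPolynomial σ K} {m : ℤ}
    (hF : IsWeightedHomogeneous w F m) (p : σ → K) (hp : Fixed w p) (k : σ) (hk : w k ≠ m) :
    grad F p k = 0 :=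
  eval_fixed (pderiv_wh hF k) (by omega) p hp

omit [Fintype σ] [DecidableEq σ] in
lemma fixed_part (w : σ → ℤ) (y : σ → K) : Fixed w (part w 0 y) := by
  intro i hi
  by_contra h
  exact hi (if_neg h)

omit [DecidableEq σ] in
lemma IsFrame.exists_wt [Infinite K] {w : σ → ℤ} {I : Ideal (MvPolynomial σ K)} {p : σ → K}
    {r : ℕ} {F : Fin r → MvPolynomial σ K} {l : Fin r → ℤ} (h : IsFrame w I p F l)
    (hp : Fixed w p) (i : Fin r) : ∃ k, w k = l i ∧ grad (F i) p k ≠ 0 := by
  have h1 := h.ind.ne_zero i
  obtain ⟨k, hk⟩ := Function.ne_iff.1 h1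
  refine ⟨k, ?_, hk⟩
  by_contra h2
  exact hk (grad_fixed (h.wh i) p hp k h2)

omit [DecidableEq σ] in
/-- independence of the gradients of a frame at the points flowing to `p` -/
lemma IsFrame.ind_at [Infinite K] {w : σ → ℤ} {I : Ideal (MvPolynomial σ K)} {p : σ → K}
    {r : ℕ} {F : Fin r → MvPolynomial σ K} {l : Fin r → ℤ} (h : IsFrame w I p F l)
    (y : σ → K) (hy : NN w y) (hyp : part w 0 y = p) :
    LinearIndependent K (fun i => grad (F i) y) := by
  classical
  rw [Fintype.linearIndependent_iff]
  intro c hc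
  by_contra hne
  push Not at hne
  obtain ⟨i0, hi0⟩ := hne
  obtain ⟨i1, hi1, hmax⟩ := Finset.exists_max_image (Finset.univ.filter (fun i => c i ≠ 0)) l
    ⟨i0, by simp [hi0]⟩
  rw [Finset.mem_filter] at hi1
  have hfix : Fixed w p := hyp ▸ fixed_part w y
  have h0 : ∑ i, (if l i = l i1 then c i else 0) • grad (F i) p = 0 := by
    funext k
    rw [Finset.sum_apply]
    simp only [Pi.smul_apply, smul_eq_mul, Pi.zero_apply]
    by_cases hk : w k = l i1
    · have h1 := congrFun hc k
      rw [Finset.sum_apply] at h1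
      simp only [Pi.smul_apply, smul_eq_mul, Pi.zero_apply] at h1
      refine (Finset.sum_congr rfl (fun i _ => ?_)).trans h1
      by_cases hli : l i = l i1
      · rw [if_pos hli, grad_wt_zero (h.wh i) y hy k (by rw [hk, hli]), hyp]
      · rw [if_neg hli, zero_mul]
        by_cases hci : c i = 0
        · rw [hci, zero_mul]
        · have h2 := hmax i (by simp [hci])
          rw [grad_wt_neg (h.wh i) y hy k (by omega), mul_zero]
    · refine Finset.sum_eq_zero (fun i _ => ?_)
      by_cases hli : l i = l i1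
      · rw [grad_fixed (h.wh i) p hfix k (by rw [hli]; exact hk), mul_zero]
      · rw [if_neg hli, zero_mul]
  have h1 := Fintype.linearIndependent_iff.1 h.ind _ h0 i1
  rw [if_pos rfl] at h1
  exact hi1.2 h1

/-- Tangent directions of large weight are flat. -/
theorem flat_line [IsAlgClosed K] [CharZero K] {w : σ → ℤ} {I : Ideal (MvPolynomial σ K)} {r : ℕ}
    (hI : SCone I r) (hst : Stable w I) (D : ℤ) (hD : ∀ k, w k ≤ D) (y : σ → K) (hy : y ∈ cone I)
    (hnn : NN w y) (hy0 : part w 0 y ≠ 0) (s : σ → K) (hs : s ∈ tangent I y)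
    (hsw : ∀ k, s k ≠ 0 → 0 ≤ w k ∧ D < 2 * w k) (t : K) : y + t • s ∈ cone I := by
  have hp : part w 0 y ∈ cone I := limit_cone w I hst y hy hnn
  obtain ⟨F, l, hF⟩ := exists_frame w I r hI hst _ hp hy0
  have hy1 : y ≠ 0 := by
    rintro rfl
    apply hy0
    funext i
    simp [part]
  apply line_lemma I hI.prime r (fun x hx hx0 => (hI.rank x hx hx0).le) y s hy hy1 F hF.mem
    (hF.ind_at y hnn rfl)
  intro i u
  obtain ⟨k, hk, _⟩ := hF.exists_wt (fixed_part w y) i
  rw [flat_wt (hF.wh i) y s hnn (fun k' hk' => ⟨(hsw k' hk').1, by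
    have := (hsw k' hk').2
    have := hD k
    omega⟩), hy _ (hF.mem i), (mem_tangent I y s).1 hs _ (hF.mem i)]
  ring

end Pool.Agent.H929R2.Hart
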