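import Pool.Agent.H929R2.Hart.W3

set_option autoImplicit false
set_option maxHeartbeats 400000

namespace Pool.Agent.H929R2.Hart

open MvPolynomial

variable {σ : Type} [Fintype σ] [DecidableEq σ] {K : Type} [Field K]

/-- `I` contains no nonzero linear form -/
def Nondeg (I : Ideal (MvPolynomial σ K)) : Prop :=
  ∀ u : σ → K, (∑ k, MvPolynomial.C (u k) * X k) ∈ I → u = 0

/-- `c ↦ ∑ c_i grad F_i(p)` -/
noncomputable def uu {r : ℕ} (F : Fin r → MvPolynomial σ K) (p : σ → K) :
    (Fin r → K) →ₗ[K] (σ → K) where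
  toFun c := ∑ i, c i • grad (F i) p
  map_add' c d := by simp [add_smul, Finset.sum_add_distrib]
  map_smul' t c := by
    simp only [Pi.smul_apply, smul_eq_mul, RingHom.id_apply, Finset.smul_sum]
    exact Finset.sum_congr rfl (fun i _ => by rw [mul_smul])

omit [DecidableEq σ] in
lemma hess_add (F : MvPolynomial σ K) (p a b : σ → K) :
    grad (dd (a + b) F) p = grad (dd a F) p + grad (dd b F) p := by
  rw [dd_add, grad_add]

omit [DecidableEq σ] in
lemma hess_smul (F : MvPolynomial σ K) (p a : σ → K) (t : K) :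
    grad (dd (t • a) F) p = t • grad (dd a F) p := by
  rw [dd_smul, grad_C_mul]

/-- `(c, a) ↦ ∑ c_i Hess F_i(p)(a, ⬝)` -/
noncomputable def LL {r : ℕ} (F : Fin r → MvPolynomial σ K) (p : σ → K) :
    (Fin r → K) →ₗ[K] (σ → K) →ₗ[K] (σ → K) :=
  LinearMap.mk₂ K (fun c a => ∑ i, c i • grad (dd a (F i)) p)
    (fun c d a => by simp [add_smul, Finset.sum_add_distrib])
    (fun t c a => by
      simp only [Pi.smul_apply, smul_eq_mul, Finset.smul_sum]
      exact Finset.sum_congr rfl (fun i _ => by rw [mul_smul]))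
    (fun c a b => by
      rw [← Finset.sum_add_distrib]
      exact Finset.sum_congr rfl (fun i _ => by rw [hess_add, smul_add]))
    (fun t c a => by
      rw [Finset.smul_sum]
      exact Finset.sum_congr rfl (fun i _ => by rw [hess_smul, smul_comm]))

omit [DecidableEq σ] in
lemma uu_apply {r : ℕ} (F : Fin r → MvPolynomial σ K) (p : σ → K) (c : Fin r → K) :
    uu F p c = ∑ i, c i • grad (F i) p := rfl

omit [DecidableEq σ] in
lemma LL_apply {r : ℕ} (F : Fin r → MvPolynomial σ K) (p : σ → K) (c : Fin r → K) (a : σ → K) :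
    LL F p c a = ∑ i, c i • grad (dd a (F i)) p := rfl

/-- the combination of the frame -/
noncomputable def comb {r : ℕ} (F : Fin r → MvPolynomial σ K) (c : Fin r → K) :
    MvPolynomial σ K := ∑ i, MvPolynomial.C (c i) * F i

omit [Fintype σ] [DecidableEq σ] in
lemma comb_mem {r : ℕ} {I : Ideal (MvPolynomial σ K)} (F : Fin r → MvPolynomial σ K)
    (hF : ∀ i, F i ∈ I) (c : Fin r → K) : comb F c ∈ I :=
  I.sum_mem (fun i _ => I.mul_mem_left _ (hF i))

omit [DecidableEq σ] in
lemma grad_comb {r : ℕ} (F : Fin r → MvPolynomial σ K) (c : Fin r → K) (x : σ → K) :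
    grad (comb F c) x = uu F x c := by
  rw [comb, grad_sum, uu_apply]
  exact Finset.sum_congr rfl (fun i _ => grad_C_mul _ _ _)

omit [DecidableEq σ] in
lemma hess_comb {r : ℕ} (F : Fin r → MvPolynomial σ K) (c : Fin r → K) (a x : σ → K) :
    grad (dd a (comb F c)) x = LL F x c a := by
  rw [LL_apply]
  have h1 : dd a (comb F c) = ∑ i, MvPolynomial.C (c i) * dd a (F i) := by
    rw [comb, dd]
    simp only [map_sum, pderiv_C_mul, Finset.mul_sum]
    rw [Finset.sum_comm]
    refine Finset.sum_congr rfl (fun i _ => ?_)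
    rw [dd, Finset.mul_sum]
    exact Finset.sum_congr rfl (fun j _ => by ring)
  rw [h1, grad_sum]
  exact Finset.sum_congr rfl (fun i _ => grad_C_mul _ _ _)

omit [DecidableEq σ] in
lemma uu_mem {r : ℕ} {I : Ideal (MvPolynomial σ K)} (F : Fin r → MvPolynomial σ K)
    (hF : ∀ i, F i ∈ I) (c : Fin r → K) (x : σ → K) : uu F x c ∈ conormal I x := by
  rw [← grad_comb]
  exact grad_mem I x (comb_mem F hF c)

lemma hess_wt [Infinite K] {w : σ → ℤ} {G : MvPolynomial σ K} {m : ℤ}
    (hG : IsWeightedHomogeneous w G m) (p : σ → K) (hp : Fixed w p) (b : σ → K) (k : σ)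
    (h : grad (dd b G) p k ≠ 0) : ∃ j, b j ≠ 0 ∧ w j + w k = m := by
  by_contra hcon
  push Not at hcon
  apply h
  rw [grad, dd, map_sum, map_sum]
  refine Finset.sum_eq_zero (fun j _ => ?_)
  rw [pderiv_C_mul, map_mul, eval_C]
  by_cases hj : b j = 0
  · rw [hj, zero_mul]
  · rw [eval_fixed (pderiv_wh (pderiv_wh hG j) k) (by have := hcon j hj; omega) p hp, mul_zero]

/-- A space of flat directions at `p`. -/
structure FlatSpace (w : σ → ℤ) (I : Ideal (MvPolynomial σ K)) (p : σ → K) {r : ℕ}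
    (F : Fin r → MvPolynomial σ K) (A : Submodule K (σ → K)) : Prop where
  cone : ∀ a ∈ A, p + a ∈ cone I
  gr : ∀ a ∈ A, ∀ i, grad (F i) (p + a) = grad (F i) p + grad (dd a (F i)) p
  pos : ∀ a ∈ A, ∀ k, a k ≠ 0 → 0 < w k
  tang : ∀ y ∈ Hart.cone I, part w 0 y ≠ 0 → ∀ W ≤ A,
    Module.finrank K A + 1 ≤ Module.finrank K W + r →
    ∃ s ∈ W, s ≠ 0 ∧ ∀ t : K, y + t • s ∈ Hart.cone I

namespace FlatSpace

variable {w : σ → ℤ} {I : Ideal (MvPolynomial σ K)} {p : σ → K} {r : ℕ}
  {F : Fin r → MvPolynomial σ K} {l : Fin r → ℤ} {A : Submodule K (σ → K)}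

omit [DecidableEq σ] in
lemma uu_add (hA : FlatSpace w I p F A) (c : Fin r → K) (a : σ → K) (ha : a ∈ A) :
    uu F (p + a) c = uu F p c + LL F p c a := by
  rw [uu_apply, uu_apply, LL_apply, ← Finset.sum_add_distrib]
  refine Finset.sum_congr rfl (fun i _ => ?_)
  rw [hA.gr a ha i, smul_add]

omit [DecidableEq σ] in
lemma mem_add (hF : IsFrame w I p F l) (hA : FlatSpace w I p F A) (c : Fin r → K) (a : σ → K)
    (ha : a ∈ A) : uu F p c + LL F p c a ∈ conormal I (p + a) := by
  rw [← hA.uu_add c a ha]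
  exact uu_mem F hF.mem c _

omit [DecidableEq σ] in
lemma line_eq (a b : σ → K) (t : K) (ht : t ≠ 0) :
    a + t • (p + b) = t • (p + (t⁻¹ • a + b)) := by
  rw [smul_add, smul_add, smul_add, smul_smul, mul_inv_cancel₀ ht, one_smul]
  abel

omit [DecidableEq σ] in
lemma mem_cone [IsAlgClosed K] (hI : SCone I r) (hA : FlatSpace w I p F A) (a : σ → K)
    (ha : a ∈ A) : a ∈ Hart.cone I := by
  apply (cone_of_line I a (p + 0) _).1
  intro t ht
  rw [line_eq a 0 t ht]
  exact cone_smul I hI.homog _ _ (hA.cone _ (A.add_mem (A.smul_mem _ ha) A.zero_mem))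

omit [DecidableEq σ] in
/-- the limit of the conormal spaces -/
lemma limit_LL [IsAlgClosed K] (hI : SCone I r) (hF : IsFrame w I p F l)
    (hA : FlatSpace w I p F A) (c : Fin r → K) (a : σ → K) (ha : a ∈ A) (ha0 : a ≠ 0) :
    LL F p c a ∈ conormal I a := by
  apply conormal_closed I r hI.rank a (p + 0) ha0 _ (uu F p c)
  intro t ht
  rw [line_eq a 0 t ht, conormal_smul I hI.homog t ht]
  have hmem : t⁻¹ • a + 0 ∈ A := A.add_mem (A.smul_mem _ ha) A.zero_mem
  refine ⟨cone_smul I hI.homog _ _ (hA.cone _ hmem), ?_⟩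
  have h1 := Submodule.smul_mem _ t (hA.mem_add hF c _ hmem)
  have h2 : t • (uu F p c + LL F p c (t⁻¹ • a + 0)) = LL F p c a + t • uu F p c := by
    rw [add_zero, map_smul, smul_add, smul_smul, mul_inv_cancel₀ ht, one_smul, add_comm]
  rwa [h2] at h1

omit [DecidableEq σ] in
lemma limit_ker [IsAlgClosed K] (hI : SCone I r) (hF : IsFrame w I p F l)
    (hA : FlatSpace w I p F A) (c : Fin r → K) (a : σ → K) (ha : a ∈ A) (ha0 : a ≠ 0)
    (hLL : LL F p c a = 0) (b : σ → K) (hb : b ∈ A) :
    uu F p c + LL F p c b ∈ conormal I a := by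
  apply conormal_closed I r hI.rank a (p + b) ha0 _ 0
  intro t ht
  rw [line_eq a b t ht, conormal_smul I hI.homog t ht]
  have hmem : t⁻¹ • a + b ∈ A := A.add_mem (A.smul_mem _ ha) hb
  refine ⟨cone_smul I hI.homog _ _ (hA.cone _ hmem), ?_⟩
  have h1 := hA.mem_add hF c _ hmem
  rw [map_add, map_smul, hLL, smul_zero, zero_add] at h1
  rwa [smul_zero, add_zero]

lemma uu_notMem_map [Infinite K] (hfix : Fixed w p) (hF : IsFrame w I p F l)
    (hA : FlatSpace w I p F A) (c : Fin r → K) (hc : c ≠ 0) :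
    uu F p c ∉ Submodule.map (LL F p c) A := by
  classical
  rintro ⟨b, hb, hbc⟩
  obtain ⟨i0, hi0⟩ := Function.ne_iff.1 hc
  obtain ⟨i1, hi1, hmax⟩ := Finset.exists_max_image (Finset.univ.filter (fun i => c i ≠ 0)) l
    ⟨i0, by rw [Finset.mem_filter]; exact ⟨Finset.mem_univ _, hi0⟩⟩
  rw [Finset.mem_filter] at hi1
  have h0 : ∑ i, (if l i = l i1 then c i else 0) • grad (F i) p ≠ 0 := by
    intro h0
    have h1 := Fintype.linearIndependent_iff.1 hF.ind _ h0 i1
    rw [if_pos rfl] at h1
    exact hi1.2 h1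
  obtain ⟨k, hk⟩ := Function.ne_iff.1 h0
  have hwk : w k = l i1 := by
    by_contra hne
    apply hk
    rw [Finset.sum_apply]
    refine Finset.sum_eq_zero (fun i _ => ?_)
    by_cases hli : l i = l i1
    · rw [Pi.smul_apply, grad_fixed (hF.wh i) p hfix k (by rw [hli]; exact hne), smul_zero]
    · rw [if_neg hli, Pi.smul_apply, zero_smul]
  have h1 : uu F p c k ≠ 0 := by
    intro h1
    apply hk
    rw [Finset.sum_apply]
    rw [uu_apply, Finset.sum_apply] at h1
    refine (Finset.sum_congr rfl (fun i _ => ?_)).trans h1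
    by_cases hli : l i = l i1
    · rw [if_pos hli]
    · rw [if_neg hli, Pi.smul_apply, Pi.smul_apply, zero_smul,
        grad_fixed (hF.wh i) p hfix k (by rw [hwk]; exact fun h => hli h.symm), smul_zero]
  apply h1
  rw [← hbc, LL_apply, Finset.sum_apply]
  refine Finset.sum_eq_zero (fun i _ => ?_)
  rw [Pi.smul_apply, smul_eq_mul]
  by_cases hci : c i = 0
  · rw [hci, zero_mul]
  · by_cases hg : grad (dd b (F i)) p k = 0
    · rw [hg, mul_zero]
    · obtain ⟨j, hj, hj2⟩ := hess_wt (hF.wh i) p hfix b k hg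
      have h2 := hA.pos b hb j hj
      have h3 := hmax i (by rw [Finset.mem_filter]; exact ⟨Finset.mem_univ _, hci⟩)
      omega

/-- The injectivity theorem. -/
theorem inj [IsAlgClosed K] [CharZero K] (hI : SCone I r) (hnd : Nondeg I)
    (hw0 : ∃ o, w o = 0) (hfix : Fixed w p) (hF : IsFrame w I p F l)
    (hA : FlatSpace w I p F A) (c : Fin r → K) (a : σ → K) (ha : a ∈ A) (ha0 : a ≠ 0)
    (hLL : LL F p c a = 0) : c = 0 := by
  by_contra hc
  set u := uu F p c with hu
  have hmap : Submodule.map (LL F p c) A < conormal I a := by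
    refine lt_of_le_of_ne ?_ ?_
    · rintro _ ⟨b, hb, rfl⟩
      have h1 := hA.limit_ker hI hF c a ha ha0 hLL b hb
      have h2 := hA.limit_ker hI hF c a ha ha0 hLL 0 A.zero_mem
      rw [map_zero, add_zero] at h2
      have h3 := Submodule.sub_mem _ h1 h2
      rwa [add_sub_cancel_left] at h3
    · intro heq
      apply hA.uu_notMem_map hfix hF c hc
      rw [heq]
      have h2 := hA.limit_ker hI hF c a ha ha0 hLL 0 A.zero_mem
      rwa [map_zero, add_zero] at h2
  have h1 := Submodule.finrank_lt_finrank_of_lt hmap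
  rw [hI.rank a (hA.mem_cone hI a ha) ha0] at h1
  set W' := LinearMap.ker ((LL F p c).domRestrict A) with hW'
  set W := W'.map A.subtype with hW
  have h2 : Module.finrank K (LinearMap.range ((LL F p c).domRestrict A)) +
      Module.finrank K W' = Module.finrank K A :=
    LinearMap.finrank_range_add_finrank_ker ((LL F p c).domRestrict A)
  have h3 : LinearMap.range ((LL F p c).domRestrict A) = Submodule.map (LL F p c) A := by
    ext x
    constructor
    · rintro ⟨b, rfl⟩; exact ⟨b, b.2, rfl⟩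
    · rintro ⟨b, hb, rfl⟩; exact ⟨⟨b, hb⟩, rfl⟩
  rw [h3] at h2
  have h4 : Module.finrank K W = Module.finrank K W' := Submodule.finrank_map_subtype_eq A W'
  have hWA : W ≤ A := Submodule.map_subtype_le A W'
  have hWker : ∀ s ∈ W, s ∈ A ∧ LL F p c s = 0 := by
    rintro _ ⟨s, hs, rfl⟩
    exact ⟨s.2, hs⟩
  have hvan : ∀ y ∈ Hart.cone I, part w 0 y ≠ 0 → dotB σ K u y = 0 := by
    intro y hy hy0
    obtain ⟨s, hsW, hs0, hs⟩ := hA.tang y hy hy0 W hWA (by omega)
    have h5 : y ∈ tangent I s := by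
      apply (cone_of_line I s y _).2
      intro t ht
      have h6 : s + t • y = t • (y + t⁻¹ • s) := by
        rw [smul_add, smul_smul, mul_inv_cancel₀ ht, one_smul, add_comm]
      rw [h6]
      exact cone_smul I hI.homog _ _ (hs _)
    have h6 := hA.limit_ker hI hF c s (hWA hsW) hs0 (hWker s hsW).2 0 A.zero_mem
    rw [map_zero, add_zero] at h6
    exact tangent_conormal I s h6 h5
  obtain ⟨o, ho⟩ := hw0
  have hu0 : u = 0 := by
    apply hnd
    have hev : ∀ y : σ → K, eval y (∑ l, MvPolynomial.C (u l) * X l) = dotB σ K u y := by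
      intro y
      rw [map_sum, dotB_apply]
      exact Finset.sum_congr rfl (fun i _ => by simp)
    have hXo : (X o * ∑ l, MvPolynomial.C (u l) * X l : MvPolynomial σ K) ∈ I := by
      apply mem_of_vanish I hI.prime
      intro y hy
      rw [map_mul, eval_X, hev]
      by_cases hy0 : part w 0 y = 0
      · have := congrFun hy0 o
        simp only [part, ho, if_true, Pi.zero_apply] at this
        rw [this, zero_mul]
      · rw [hvan y hy hy0, mul_zero]
    rcases hI.prime.mem_or_mem hXo with h5 | h5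
    · exfalso
      have h6 := hnd (Pi.single o 1) (by
        have h7 : (∑ k, MvPolynomial.C ((Pi.single o 1 : σ → K) k) * X k : MvPolynomial σ K) =
            X o := by
          rw [Finset.sum_eq_single o]
          · simp
          · intro k _ hk
            rw [Pi.single_apply, if_neg hk, map_zero, zero_mul]
          · intro h; exact absurd (Finset.mem_univ _) h
        rw [h7]; exact h5)
      have := congrFun h6 o
      simp at this
    · exact h5
  apply hc
  funext i
  exact Fintype.linearIndependent_iff.1 hF.ind c (by rw [← uu_apply]; exact hu0) i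

end FlatSpace

end Pool.Agent.H929R2.Hart
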