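import Pool.Agent.H929R2.Hart.W4

set_option autoImplicit false
set_option maxHeartbeats 400000

namespace Pool.Agent.H929R2.Hart

open MvPolynomial

variable {σ : Type} [Fintype σ] [DecidableEq σ] {K : Type} [Field K]

/-- `a` has only components of weight `j` -/
def Hom (w : σ → ℤ) (j : ℤ) (a : σ → K) : Prop := ∀ k, a k ≠ 0 → w k = j

omit [Fintype σ] [DecidableEq σ] in
lemma hom_part (w : σ → ℤ) (j : ℤ) (a : σ → K) : Hom w j (part w j a) := by
  intro k hk
  by_contra h
  exact hk (if_neg h)

omit [Fintype σ] [DecidableEq σ] in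
lemma part_eq_self {w : σ → ℤ} {j : ℤ} {a : σ → K} (h : Hom w j a) : part w j a = a := by
  funext k
  simp only [part]
  by_cases hk : a k = 0
  · rw [hk]; simp
  · rw [if_pos (h k hk)]

omit [DecidableEq σ] in
lemma sum_part (w : σ → ℤ) (a : σ → K) :
    ∑ j ∈ Finset.univ.image w, part w j a = a := by
  funext i
  rw [Finset.sum_apply, Finset.sum_eq_single (w i)]
  · simp [part]
  · intro j _ hj
    simp [part, Ne.symm hj]
  · intro h
    exact absurd (Finset.mem_image_of_mem w (Finset.mem_univ i)) h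

omit [DecidableEq σ] in
lemma exists_inf (S T : Submodule K (σ → K))
    (h : Fintype.card σ < Module.finrank K S + Module.finrank K T) :
    ∃ s ∈ S, s ∈ T ∧ s ≠ 0 := by
  have h1 := Submodule.finrank_sup_add_finrank_inf_eq S T
  have h2 := Submodule.finrank_le (S ⊔ T)
  rw [Module.finrank_fintype_fun_eq_card] at h2
  have h3 : S ⊓ T ≠ ⊥ := by
    intro h0
    rw [h0, finrank_bot] at h1
    omega
  obtain ⟨s, hs, hs0⟩ := (Submodule.ne_bot_iff _).1 h3
  exact ⟨s, hs.1, hs.2, hs0⟩

omit [DecidableEq σ] in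
lemma finrank_inf_ge (S T : Submodule K (σ → K)) :
    Module.finrank K S + Module.finrank K T ≤
      Fintype.card σ + Module.finrank K (S ⊓ T : Submodule K (σ → K)) := by
  have h1 := Submodule.finrank_sup_add_finrank_inf_eq S T
  have h2 := Submodule.finrank_le (S ⊔ T)
  rw [Module.finrank_fintype_fun_eq_card] at h2
  omega

section Frame

variable {w : σ → ℤ} {I : Ideal (MvPolynomial σ K)} {p : σ → K} {r : ℕ}
  {F : Fin r → MvPolynomial σ K} {l : Fin r → ℤ}

omit [DecidableEq σ] in
lemma uu_injective (hF : LinearIndependent K (fun i => grad (F i) p)) (c : Fin r → K)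
    (hc : uu F p c = 0) : c = 0 := by
  funext i
  exact Fintype.linearIndependent_iff.1 hF c (by rw [← uu_apply]; exact hc) i

omit [DecidableEq σ] in
lemma frame_span (hI : SCone I r) (hp : p ∈ cone I) (hp0 : p ≠ 0) (hF : IsFrame w I p F l)
    (ξ : σ → K) (hξ : ξ ∈ conormal I p) : ∃ c, uu F p c = ξ := by
  have h1 : LinearMap.range (uu F p) = conormal I p := by
    apply Submodule.eq_of_le_of_finrank_eq
    · rintro _ ⟨c, rfl⟩
      exact uu_mem F hF.mem c p
    · rw [LinearMap.finrank_range_of_inj, Module.finrank_fintype_fun_eq_card, Fintype.card_fin,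
        hI.rank p hp hp0]
      rw [← LinearMap.ker_eq_bot, LinearMap.ker_eq_bot']
      exact uu_injective hF.ind
  rw [← h1] at hξ
  exact hξ

omit [DecidableEq σ] in
lemma part_uu [Infinite K] (hfix : Fixed w p) (hF : IsFrame w I p F l) (c : Fin r → K) (m : ℤ) :
    part w m (uu F p c) = uu F p (fun i => if l i = m then c i else 0) := by
  funext k
  simp only [part]
  rw [uu_apply, uu_apply, Finset.sum_apply, Finset.sum_apply]
  by_cases hk : w k = m
  · rw [if_pos hk]
    refine Finset.sum_congr rfl (fun i _ => ?_)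
    by_cases hl : l i = m
    · rw [if_pos hl]
    · rw [if_neg hl, Pi.smul_apply, Pi.smul_apply, zero_smul,
        grad_fixed (hF.wh i) p hfix k (by rw [hk]; exact Ne.symm hl), smul_zero]
  · rw [if_neg hk]
    symm
    refine Finset.sum_eq_zero (fun i _ => ?_)
    by_cases hl : l i = m
    · rw [Pi.smul_apply, grad_fixed (hF.wh i) p hfix k (by rw [hl]; exact hk), smul_zero]
    · rw [if_neg hl, Pi.smul_apply, zero_smul]

omit [DecidableEq σ] in
lemma conormal_part [IsAlgClosed K] (hI : SCone I r) (hst : Stable w I) (hp : p ∈ cone I)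
    (hp0 : p ≠ 0) (hfix : Fixed w p) (ξ : σ → K) (hξ : ξ ∈ conormal I p) (m : ℤ) :
    part w m ξ ∈ conormal I p := by
  obtain ⟨F, l, hF⟩ := exists_frame w I r hI hst p hp hp0
  obtain ⟨c, rfl⟩ := frame_span hI hp hp0 hF ξ hξ
  rw [part_uu hfix hF]
  exact uu_mem F hF.mem _ p

omit [DecidableEq σ] in
lemma dotB_part (w : σ → ℤ) (m : ℤ) (x y : σ → K) :
    dotB σ K x (part w m y) = dotB σ K (part w m x) y := by
  rw [dotB_apply, dotB_apply]
  refine Finset.sum_congr rfl (fun k _ => ?_)
  simp only [part]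
  by_cases hk : w k = m
  · rw [if_pos hk, if_pos hk]
  · rw [if_neg hk, if_neg hk, mul_zero, zero_mul]

omit [DecidableEq σ] in
lemma mem_tangent' (I : Ideal (MvPolynomial σ K)) (x v : σ → K) :
    v ∈ tangent I x ↔ ∀ ξ ∈ conormal I x, dotB σ K ξ v = 0 := by
  constructor
  · intro h ξ hξ; exact tangent_conormal I x hξ h
  · intro h; rw [mem_tangent]; intro F hF; exact h _ (grad_mem I x hF)

omit [DecidableEq σ] in
lemma tangent_part [IsAlgClosed K] (hI : SCone I r) (hst : Stable w I) (hp : p ∈ cone I)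
    (hp0 : p ≠ 0) (hfix : Fixed w p) (v : σ → K) (hv : v ∈ tangent I p) (m : ℤ) :
    part w m v ∈ tangent I p := by
  rw [mem_tangent']
  intro ξ hξ
  rw [dotB_part]
  exact tangent_conormal I p (conormal_part hI hst hp hp0 hfix ξ hξ m) hv

end Frame

/-- The standing assumptions: nondegenerate, weights between `0` and `D`. -/
structure Src (w : σ → ℤ) (I : Ideal (MvPolynomial σ K)) (r : ℕ) (D : ℤ) : Prop where
  sc : SCone I r
  st : Stable w I
  nd : Nondeg I
  nn : ∀ k, 0 ≤ w k
  le : ∀ k, w k ≤ D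
  min : ∃ o, w o = 0
  max : ∃ M, w M = D
  pos : 0 < D

/-- coordinates of weight more than `D / 2` -/
def upper (w : σ → ℤ) (D : ℤ) : Finset σ := Finset.univ.filter (fun k => D < 2 * w k)

/-- coordinates of weight `m` -/
def wset (w : σ → ℤ) (m : ℤ) : Finset σ := Finset.univ.filter (fun k => w k = m)

omit [DecidableEq σ] in
lemma mem_upper (w : σ → ℤ) (D : ℤ) (k : σ) : k ∈ upper w D ↔ D < 2 * w k := by simp [upper]

omit [DecidableEq σ] in
lemma mem_wset (w : σ → ℤ) (m : ℤ) (k : σ) : k ∈ wset w m ↔ w k = m := by simp [wset]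

omit [DecidableEq σ] in
lemma mem_cs_wset (w : σ → ℤ) (m : ℤ) (a : σ → K) : a ∈ cs K (wset w m) ↔ Hom w m a := by
  constructor
  · intro h k hk
    by_contra hne
    exact hk (h k (by rw [mem_wset]; exact hne))
  · intro h k hk
    by_contra hne
    exact hk (by rw [mem_wset]; exact h k hne)

namespace Src

variable {w : σ → ℤ} {I : Ideal (MvPolynomial σ K)} {p : σ → K} {r : ℕ} {D : ℤ}
  {F : Fin r → MvPolynomial σ K} {l : Fin r → ℤ}

omit [Fintype σ] [DecidableEq σ] in
lemma nn' [Fintype σ] (h : Src w I r D) (x : σ → K) : NN w x := fun i _ => h.nn i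

/-- A source point. -/
lemma exists_source [IsAlgClosed K] (h : Src w I r D) : ∃ p ∈ cone I, p ≠ 0 ∧ Fixed w p := by
  obtain ⟨o, ho⟩ := h.min
  have hXo : (X o : MvPolynomial σ K) ∉ I := by
    intro hmem
    have h6 := h.nd (Pi.single o 1) (by
      have h7 : (∑ k, MvPolynomial.C ((Pi.single o 1 : σ → K) k) * X k : MvPolynomial σ K) =
          X o := by
        rw [Finset.sum_eq_single o]
        · simp
        · intro k _ hk
          rw [Pi.single_apply, if_neg hk, map_zero, zero_mul]
        · intro h; exact absurd (Finset.mem_univ _) h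
      rw [h7]; exact hmem)
    have := congrFun h6 o
    simp at this
  obtain ⟨x, hx, hxo⟩ : ∃ x ∈ cone I, x o ≠ 0 := by
    by_contra hcon
    push Not at hcon
    exact hXo (mem_of_vanish I h.sc.prime _ (fun x hx => by rw [eval_X]; exact hcon x hx))
  refine ⟨part w 0 x, limit_cone w I h.st x hx (h.nn' x), ?_, fixed_part w x⟩
  intro h0
  have := congrFun h0 o
  simp only [part, ho, if_true, Pi.zero_apply] at this
  exact hxo this

omit [DecidableEq σ] in
lemma frame_le [Infinite K] (h : Src w I r D) (hfix : Fixed w p) (hF : IsFrame w I p F l)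
    (i : Fin r) : 0 ≤ l i ∧ l i ≤ D := by
  obtain ⟨k, hk, _⟩ := hF.exists_wt hfix i
  rw [← hk]
  exact ⟨h.nn k, h.le k⟩

/-- The flat space at a source point. -/
theorem flatSpace [IsAlgClosed K] [CharZero K] (h : Src w I r D) (hp : p ∈ cone I)
    (hp0 : p ≠ 0) (hfix : Fixed w p) (hF : IsFrame w I p F l)
    (hbig : 2 * r ≤ Module.finrank K (tangent I p ⊓ cs K (upper w D) : Submodule K (σ → K))) :
    FlatSpace w I p F (tangent I p ⊓ cs K (upper w D)) := by
  have hsupp : ∀ a ∈ (tangent I p ⊓ cs K (upper w D) : Submodule K (σ → K)), ∀ k, a k ≠ 0 →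
      0 ≤ w k ∧ D < 2 * w k := by
    intro a ha k hk
    refine ⟨h.nn k, ?_⟩
    rw [← mem_upper]
    by_contra hne
    exact hk (ha.2 k hne)
  have hDpos := h.pos
  refine ⟨?_, ?_, ?_, ?_⟩
  · intro a ha
    have h1 := flat_line h.sc h.st D h.le p hp (h.nn' p) (by
      rw [part_eq_self hfix]; exact hp0) a ha.1 (hsupp a ha) 1
    rwa [one_smul] at h1
  · intro a ha i
    have h1 := grad_flat_wt (hF.wh i) p a (h.nn' p) (fun k hk =>
      ⟨h.nn k, fun e => by
        have h2 := (hsupp a ha k hk).2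
        have h3 := (h.frame_le hfix hF i).2
        have h4 := h.nn e
        omega⟩) 1
    rwa [one_smul, one_smul] at h1
  · intro a ha k hk
    have := (hsupp a ha k hk).2
    omega
  · intro y hy hy0 W hWA hdim
    have hy1 : y ≠ 0 := by
      rintro rfl
      apply hy0
      funext i
      simp [part]
    have h1 := finrank_tangent I y
    rw [h.sc.rank y hy hy1] at h1
    obtain ⟨s, hsW, hsT, hs0⟩ := exists_inf W (tangent I y) (by omega)
    exact ⟨s, hsW, hs0, fun t => flat_line h.sc h.st D h.le y hy (h.nn' y) hy0 s hsT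
      (hsupp s (hWA hsW)) t⟩

omit [DecidableEq σ] in
lemma finrank_Ap (h : Src w I r D) (hp : p ∈ cone I) (hp0 : p ≠ 0) (S : Finset σ) :
    S.card ≤ Module.finrank K (tangent I p ⊓ cs K S : Submodule K (σ → K)) + r := by
  classical
  have h1 := finrank_tangent I p
  rw [h.sc.rank p hp hp0] at h1
  have h2 := finrank_inf_ge (tangent I p) (cs K S)
  rw [finrank_cs] at h2
  omega

end Src

end Pool.Agent.H929R2.Hart
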