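import Pool.Agent.H929R2.Hart.W5
import Pool.Agent.H929R2.Hart.CoreThm

set_option autoImplicit false
set_option maxHeartbeats 400000

namespace Pool.Agent.H929R2.Hart

open MvPolynomial

variable {σ : Type} [Fintype σ] [DecidableEq σ] {K : Type} [Field K]

/-- A flat space at the source point `p`, with the injectivity property. -/
structure Pack (w : σ → ℤ) (I : Ideal (MvPolynomial σ K)) (r : ℕ) (D : ℤ) (p : σ → K)
    (F : Fin r → MvPolynomial σ K) (l : Fin r → ℤ) (A : Submodule K (σ → K)) : Prop where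
  mem : p ∈ cone I
  ne : p ≠ 0
  fix : Fixed w p
  fr : IsFrame w I p F l
  fs : FlatSpace w I p F A
  inj : ∀ c, ∀ a ∈ A, a ≠ 0 → LL F p c a = 0 → c = 0
  graded : ∀ a ∈ A, ∀ m, part w m a ∈ A
  top : ∀ v ∈ tangent I p, (∀ k, v k ≠ 0 → D < 2 * w k) → v ∈ A
  half : ∀ a ∈ A, ∀ k, a k ≠ 0 → D ≤ 2 * w k

omit [Fintype σ] [DecidableEq σ] in
lemma exists_hom_mem (w : σ → ℤ) (A : Submodule K (σ → K)) (hgr : ∀ a ∈ A, ∀ m, part w m a ∈ A)
    (a : σ → K) (ha : a ∈ A) (k : σ) (hk : a k ≠ 0) :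
    part w (w k) a ∈ A ∧ part w (w k) a ≠ 0 ∧ Hom w (w k) (part w (w k) a) := by
  refine ⟨hgr a ha _, ?_, hom_part w _ a⟩
  intro h0
  have := congrFun h0 k
  simp only [part, if_true, Pi.zero_apply] at this
  exact hk this

omit [DecidableEq σ] in
lemma self_tangent [Infinite K] {I : Ideal (MvPolynomial σ K)} {r : ℕ} (hI : SCone I r)
    (x : σ → K) (hx : x ∈ cone I) : x ∈ tangent I x := by
  apply (cone_of_line I x x _).2
  intro t _
  have : x + t • x = (1 + t) • x := by rw [add_smul, one_smul]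
  rw [this]
  exact cone_smul I hI.homog _ x hx

omit [DecidableEq σ] in
lemma uu_supp [Infinite K] {w : σ → ℤ} {I : Ideal (MvPolynomial σ K)} {p : σ → K} {r : ℕ}
    {F : Fin r → MvPolynomial σ K} {l : Fin r → ℤ} (hF : IsFrame w I p F l) (hfix : Fixed w p)
    (c : Fin r → K) (k : σ) (hk : uu F p c k ≠ 0) : ∃ i, c i ≠ 0 ∧ l i = w k := by
  by_contra hcon
  push Not at hcon
  apply hk
  rw [uu_apply, Finset.sum_apply]
  refine Finset.sum_eq_zero (fun i _ => ?_)
  by_cases hc : c i = 0
  · rw [hc, Pi.smul_apply, zero_smul]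
  · rw [Pi.smul_apply, grad_fixed (hF.wh i) p hfix k (Ne.symm (hcon i hc)), smul_zero]

lemma LL_supp [Infinite K] {w : σ → ℤ} {I : Ideal (MvPolynomial σ K)} {p : σ → K} {r : ℕ}
    {F : Fin r → MvPolynomial σ K} {l : Fin r → ℤ} (hF : IsFrame w I p F l) (hfix : Fixed w p)
    (c : Fin r → K) (a : σ → K) (j : ℤ) (ha : Hom w j a) (k : σ) (hk : LL F p c a k ≠ 0) :
    ∃ i, c i ≠ 0 ∧ l i = j + w k := by
  by_contra hcon
  push Not at hcon
  apply hk
  rw [LL_apply, Finset.sum_apply]
  refine Finset.sum_eq_zero (fun i _ => ?_)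
  by_cases hc : c i = 0
  · rw [hc, Pi.smul_apply, zero_smul]
  · by_cases hg : grad (dd a (F i)) p k = 0
    · rw [Pi.smul_apply, hg, smul_zero]
    · obtain ⟨j', hj', hj2⟩ := hess_wt (hF.wh i) p hfix a k hg
      rw [ha j' hj'] at hj2
      exact absurd hj2.symm (hcon i hc)

lemma part_LL [Infinite K] {w : σ → ℤ} {I : Ideal (MvPolynomial σ K)} {p : σ → K} {r : ℕ}
    {F : Fin r → MvPolynomial σ K} {l : Fin r → ℤ} (hF : IsFrame w I p F l) (hfix : Fixed w p)
    (c : Fin r → K) (a : σ → K) (j : ℤ) (ha : Hom w j a) (m : ℤ) :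
    part w m (LL F p c a) = LL F p (fun i => if l i = j + m then c i else 0) a := by
  funext k
  simp only [part]
  rw [LL_apply, LL_apply, Finset.sum_apply, Finset.sum_apply]
  have key : ∀ i, l i ≠ j + w k → grad (dd a (F i)) p k = 0 := by
    intro i hi
    by_contra hg
    obtain ⟨j', hj', hj2⟩ := hess_wt (hF.wh i) p hfix a k hg
    rw [ha j' hj'] at hj2
    exact hi hj2.symm
  by_cases hk : w k = m
  · rw [if_pos hk]
    refine Finset.sum_congr rfl (fun i _ => ?_)
    by_cases hl : l i = j + m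
    · rw [if_pos hl]
    · rw [if_neg hl, Pi.smul_apply, Pi.smul_apply, zero_smul, key i (by rw [hk]; exact hl),
        smul_zero]
  · rw [if_neg hk]
    symm
    refine Finset.sum_eq_zero (fun i _ => ?_)
    by_cases hl : l i = j + m
    · rw [Pi.smul_apply, key i (by rw [hl]; intro h; apply hk; omega), smul_zero]
    · rw [if_neg hl, Pi.smul_apply, zero_smul]

namespace Pack

variable {w : σ → ℤ} {I : Ideal (MvPolynomial σ K)} {p : σ → K} {r : ℕ} {D : ℤ}
  {F : Fin r → MvPolynomial σ K} {l : Fin r → ℤ} {A : Submodule K (σ → K)}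

/-- The normal weights are at least the weights of `A`. -/
lemma le_wt [IsAlgClosed K] (h : Src w I r D) (hP : Pack w I r D p F l A) (a : σ → K)
    (ha : a ∈ A) (ha0 : a ≠ 0) (j : ℤ) (hj : Hom w j a) (i : Fin r) : j ≤ l i := by
  classical
  have h1 : LL F p (Pi.single i 1) a ≠ 0 := by
    intro h0
    have := hP.inj _ a ha ha0 h0
    have := congrFun this i
    simp at this
  obtain ⟨k, hk⟩ := Function.ne_iff.1 h1
  obtain ⟨i', hi', hi2⟩ := LL_supp hP.fr hP.fix _ a j hj k hk
  have hii : i' = i := by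
    by_contra hne
    exact hi' (by rw [Pi.single_apply, if_neg hne])
  rw [hii] at hi2
  have := h.nn k
  omega

omit [DecidableEq σ] in
lemma span_LL [IsAlgClosed K] (h : Src w I r D) (hP : Pack w I r D p F l A) (a : σ → K)
    (ha : a ∈ A) (ha0 : a ≠ 0) (ξ : σ → K) (hξ : ξ ∈ conormal I a) : ∃ c, LL F p c a = ξ := by
  have h1 : LinearMap.range ((LL F p).flip a) = conormal I a := by
    apply Submodule.eq_of_le_of_finrank_eq
    · rintro _ ⟨c, rfl⟩
      exact hP.fs.limit_LL h.sc hP.fr c a ha ha0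
    · rw [LinearMap.finrank_range_of_inj, Module.finrank_fintype_fun_eq_card, Fintype.card_fin,
        h.sc.rank a (hP.fs.mem_cone h.sc a ha) ha0]
      rw [← LinearMap.ker_eq_bot, LinearMap.ker_eq_bot']
      intro c hc
      exact hP.inj c a ha ha0 hc
  rw [← h1] at hξ
  exact hξ

omit [DecidableEq σ] in
lemma line_mem (hP : Pack w I r D p F l A) (a : σ → K) (ha : a ∈ A) (t : K) :
    p + t • a ∈ cone I := hP.fs.cone _ (A.smul_mem _ ha)

omit [DecidableEq σ] in
lemma line_conormal (hP : Pack w I r D p F l A) (c : Fin r → K) (a : σ → K) (ha : a ∈ A)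
    (t : K) : uu F p c + t • LL F p c a ∈ conormal I (p + t • a) := by
  have h1 := hP.fs.mem_add hP.fr c _ (A.smul_mem t ha)
  rwa [map_smul] at h1

omit [DecidableEq σ] in
lemma LL_p [IsAlgClosed K] (h : Src w I r D) (hP : Pack w I r D p F l A) (c : Fin r → K)
    (a : σ → K) (ha : a ∈ A) : dotB σ K (LL F p c a) p = 0 := by
  have hx : p + a ∈ cone I := hP.fs.cone a ha
  have h1 : p + a ∈ tangent I (p + a) := self_tangent h.sc _ hx
  have h2 : a ∈ tangent I (p + a) := by
    apply (cone_of_line I (p + a) a _).2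
    intro t _
    have h3 := hP.line_mem a ha (1 + t)
    rwa [add_smul, one_smul, ← add_assoc] at h3
  have h3 : p ∈ tangent I (p + a) := by
    have := Submodule.sub_mem _ h1 h2
    rwa [add_sub_cancel_right] at this
  have h4 := tangent_conormal I _ (hP.fs.mem_add hP.fr c a ha) h3
  have h5 := tangent_conormal I p (uu_mem F hP.fr.mem c p) (self_tangent h.sc p hP.mem)
  rw [map_add, LinearMap.add_apply, h5, zero_add] at h4
  exact h4

/-- all normal weights are positive -/
lemma wt_pos [IsAlgClosed K] (h : Src w I r D) (hP : Pack w I r D p F l A)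
    (hne : ∃ a ∈ A, a ≠ 0) (i : Fin r) : 0 < l i := by
  obtain ⟨a, ha, ha0⟩ := hne
  obtain ⟨k, hk⟩ := Function.ne_iff.1 ha0
  obtain ⟨h1, h2, h3⟩ := exists_hom_mem w A hP.graded a ha k hk
  have h4 := hP.le_wt h _ h1 h2 _ h3 i
  have h5 := hP.fs.pos a ha k hk
  omega

omit [DecidableEq σ] in
/-- the whole weight space `V_0` is contained in the cone -/
lemma fixed_mem [IsAlgClosed K] [CharZero K] (h : Src w I r D) (hP : Pack w I r D p F l A)
    (hpos : ∀ i, 0 < l i) (z : σ → K) (hz : Fixed w z) : z ∈ cone I := by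
  have h1 : ∀ t : K, p + t • z ∈ cone I := by
    apply line_lemma I h.sc.prime r (fun x hx hx0 => (h.sc.rank x hx hx0).le) p z hP.mem hP.ne
      F hP.fr.mem hP.fr.ind
    intro i t
    apply eval_fixed (hP.fr.wh i) (hpos i).ne'
    intro k hk
    by_contra hne
    apply hk
    have h2 : p k = 0 := by by_contra h3; exact hne (hP.fix k h3)
    have h4 : z k = 0 := by by_contra h3; exact hne (hz k h3)
    simp [h2, h4]
  apply (cone_of_line I z p _).1
  intro t ht
  have h2 : z + t • p = t • (p + t⁻¹ • z) := by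
    rw [smul_add, smul_smul, mul_inv_cancel₀ ht, one_smul, add_comm]
  rw [h2]
  exact cone_smul I h.sc.homog _ _ (h1 _)

end Pack

omit [DecidableEq σ] in
lemma stable_shift {w : σ → ℤ} {I : Ideal (MvPolynomial σ K)}
    (hom : ∀ F ∈ I, ∀ d, homogeneousComponent d F ∈ I) (hst : Stable w I) (j : ℤ) :
    Stable (fun k => w k - j) I := by
  intro t ht x hx
  have h1 := cone_smul I hom (t ^ (-j)) _ (hst t ht x hx)
  have h2 : (fun i => t ^ (w i - j) * x i) = t ^ (-j) • (fun i => t ^ w i * x i) := by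
    funext i
    rw [Pi.smul_apply, smul_eq_mul, ← mul_assoc, ← zpow_add₀ ht]
    congr 2
    ring
  rw [h2]; exact h1

omit [Fintype σ] [DecidableEq σ] in
lemma stable_neg [Fintype σ] {w : σ → ℤ} {I : Ideal (MvPolynomial σ K)} (hst : Stable w I) :
    Stable (fun k => - w k) I := by
  intro t ht x hx
  have := hst t⁻¹ (inv_ne_zero ht) x hx
  simpa [inv_zpow, zpow_neg] using this

/-- The comparison between the frames at `p` and at `a`. -/
theorem lam [IsAlgClosed K] [CharZero K] {w : σ → ℤ} {I : Ideal (MvPolynomial σ K)} {r : ℕ}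
    {D : ℤ} (h : Src w I r D) (j B : ℤ) (hj0 : 0 < j) (a : σ → K)
    (ha0 : a ≠ 0)
    (ha : Hom w j a) {G : Fin r → MvPolynomial σ K} {m : Fin r → ℤ}
    (hG : IsFrame (fun k => w k - j) I a G m)
    (hs : ∀ η ∈ conormal I a, ∀ k, η k ≠ 0 → D - w k < 2 * j ∧ w k ≤ B ∧ B < w k + j)
    (p : σ → K) (hp : Fixed w p) (hline : ∀ t : K, p + t • a ∈ cone I) (u ξ : σ → K)
    (hu : ∀ t : K, u + t • ξ ∈ conormal I (p + t • a)) (hus : ∀ k, u k ≠ 0 → B < w k)
    (d : Fin r → K) (hd : uu G a d = ξ) : LL G a d p = u := by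
  have hfixa : Fixed (fun k => w k - j) a := fun k hk => by
    show w k - j = 0
    rw [ha k hk]; ring
  have hm : ∀ i, ∃ k, w k - j = m i ∧ D - w k < 2 * j ∧ w k ≤ B ∧ B < w k + j := by
    intro i
    obtain ⟨k, hk, hk2⟩ := hG.exists_wt hfixa i
    exact ⟨k, hk, hs _ (grad_mem I a (hG.mem i)) k hk2⟩
  have hflat : ∀ t : K, ∀ i, grad (G i) (a + t • p) = grad (G i) a + t • grad (dd p (G i)) a := by
    intro t i
    apply grad_flat_wt (isWH_neg (hG.wh i)) a p
    · intro k hk
      show 0 ≤ -(w k - j)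
      rw [ha k hk]; simp
    · intro k hk
      have hk' := hp k hk
      obtain ⟨k', hk1, hk2, hk3, hk4⟩ := hm i
      refine ⟨?_, fun e => ?_⟩
      · show 0 ≤ -(w k - j)
        rw [hk']; omega
      · show - m i - (-(w e - j)) < 2 * (-(w k - j))
        rw [hk', ← hk1]
        have := h.le e
        omega
  have hxt : ∀ t : K, t ≠ 0 → a + t • p = t • (p + t⁻¹ • a) := by
    intro t ht
    rw [smul_add, smul_smul, mul_inv_cancel₀ ht, one_smul, add_comm]
  have hdiff : LL G a d p - u ∈ conormal I a := by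
    apply conormal_closed I r h.sc.rank a p ha0 _ 0
    intro t ht
    refine ⟨?_, ?_⟩
    · rw [hxt t ht]
      exact cone_smul I h.sc.homog _ _ (hline _)
    · rw [smul_zero, add_zero]
      have h1 : ξ + t • LL G a d p ∈ conormal I (a + t • p) := by
        have h2 := uu_mem G hG.mem d (a + t • p)
        have h3 : uu G (a + t • p) d = ξ + t • LL G a d p := by
          rw [← hd, uu_apply, uu_apply, LL_apply, Finset.smul_sum, ← Finset.sum_add_distrib]
          refine Finset.sum_congr rfl (fun i _ => ?_)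
          rw [hflat, smul_add, smul_comm]
        rwa [h3] at h2
      have h2 : ξ + t • u ∈ conormal I (a + t • p) := by
        rw [hxt t ht, conormal_smul I h.sc.homog t ht]
        have h3 := Submodule.smul_mem _ t (hu t⁻¹)
        rw [smul_add, smul_smul, mul_inv_cancel₀ ht, one_smul, add_comm (t • u) ξ] at h3
        exact h3
      have h3 := Submodule.sub_mem _ h1 h2
      have h4 : ξ + t • LL G a d p - (ξ + t • u) = t • (LL G a d p - u) := by
        rw [smul_sub]; abel
      rw [h4] at h3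
      exact (Submodule.smul_mem_iff _ ht).1 h3
  rw [← sub_eq_zero]
  by_contra hne
  obtain ⟨k, hk⟩ := Function.ne_iff.1 hne
  have h1 := hs _ hdiff k hk
  have h2 : B < w k := by
    by_cases hu0 : u k = 0
    · have h3 : LL G a d p k ≠ 0 := by
        intro h4
        apply hk
        simp [h4, hu0]
      have h5 : Hom (fun k => w k - j) (-j) p := fun k hk => by
        show w k - j = -j
        rw [hp k hk]; ring
      obtain ⟨i, _, hi2⟩ := LL_supp hG hfixa d p (-j) h5 k h3
      obtain ⟨k', hk1, hk2, hk3, hk4⟩ := hm i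
      have hi3 : m i = -j + (w k - j) := hi2
      omega
    · exact hus k hu0
  omega

/-- `LL G a · p` parametrizes the conormal space at `p`. -/
theorem lam_pack [IsAlgClosed K] [CharZero K] {w : σ → ℤ} {I : Ideal (MvPolynomial σ K)} {r : ℕ}
    {D : ℤ} (h : Src w I r D) (j : ℤ) (hj0 : 0 < j) (a : σ → K) (ha0 : a ≠ 0)
    (ha : Hom w j a) {G : Fin r → MvPolynomial σ K} {m : Fin r → ℤ}
    (hG : IsFrame (fun k => w k - j) I a G m)
    {p : σ → K} {F : Fin r → MvPolynomial σ K} {l : Fin r → ℤ} {A : Submodule K (σ → K)}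
    (hP : Pack w I r D p F l A) (haA : a ∈ A)
    (hl : D < 2 * j ∨ (D ≤ 2 * j ∧ ∀ i, j < l i)) :
    (∀ d, LL G a d p ∈ conormal I p) ∧ (∀ d, LL G a d p = 0 → d = 0) ∧
      (∀ ξ ∈ conormal I p, ∃ d, LL G a d p = ξ) := by
  have hac : a ∈ cone I := hP.fs.mem_cone h.sc a haA
  have hle := hP.le_wt h a haA ha0 j ha
  have key : ∀ c d, LL F p c a = uu G a d → LL G a d p = uu F p c := by
    intro c d hcd
    rcases hl with hl | ⟨hl1, hl2⟩
    · apply lam h j (j - 1) hj0 a ha0 ha hG ?_ p hP.fix (hP.line_mem a haA) (uu F p c)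
        (LL F p c a) (hP.line_conormal c a haA) ?_ d hcd.symm
      · intro η hη k hk
        obtain ⟨c, rfl⟩ := hP.span_LL h a haA ha0 η hη
        obtain ⟨i, _, hi⟩ := LL_supp hP.fr hP.fix c a j ha k hk
        have h2 := (h.frame_le hP.fix hP.fr i).2
        have h3 := h.nn k
        omega
      · intro k hk
        obtain ⟨i, _, hi⟩ := uu_supp hP.fr hP.fix c k hk
        have := hle i
        omega
    · apply lam h j j hj0 a ha0 ha hG ?_ p hP.fix (hP.line_mem a haA) (uu F p c)
        (LL F p c a) (hP.line_conormal c a haA) ?_ d hcd.symm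
      · intro η hη k hk
        obtain ⟨c, rfl⟩ := hP.span_LL h a haA ha0 η hη
        obtain ⟨i, _, hi⟩ := LL_supp hP.fr hP.fix c a j ha k hk
        have h1 := hl2 i
        have h2 := (h.frame_le hP.fix hP.fr i).2
        omega
      · intro k hk
        obtain ⟨i, _, hi⟩ := uu_supp hP.fr hP.fix c k hk
        rw [← hi]; exact hl2 i
  refine ⟨fun d => ?_, fun d hd => ?_, fun ξ hξ => ?_⟩
  · obtain ⟨c, hc⟩ := hP.span_LL h a haA ha0 _ (uu_mem G hG.mem d a)
    rw [key c d hc]
    exact uu_mem F hP.fr.mem c p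
  · obtain ⟨c, hc⟩ := hP.span_LL h a haA ha0 _ (uu_mem G hG.mem d a)
    rw [key c d hc] at hd
    have h1 := uu_injective hP.fr.ind c hd
    rw [h1, map_zero, LinearMap.zero_apply] at hc
    exact uu_injective hG.ind d hc.symm
  · obtain ⟨c, hc⟩ := frame_span h.sc hP.mem hP.ne hP.fr ξ hξ
    obtain ⟨d, hd⟩ := frame_span h.sc hac ha0 hG _ (hP.fs.limit_LL h.sc hP.fr c a haA ha0)
    exact ⟨d, by rw [key c d hd.symm, hc]⟩

end Pool.Agent.H929R2.Hart
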