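import Pool.Agent.H929R2.Hart.W6

set_option autoImplicit false
set_option maxHeartbeats 400000

namespace Pool.Agent.H929R2.Hart

open MvPolynomial

variable {σ : Type} [Fintype σ] [DecidableEq σ] {K : Type} [Field K]

lemma hess_symm (G : MvPolynomial σ K) (x a b : σ → K) :
    dotB σ K (grad (dd a G) x) b = dotB σ K (grad (dd b G) x) a := by
  have h : ∀ a b : σ → K, dotB σ K (grad (dd a G) x) b =
      ∑ k, ∑ m, a m * b k * eval x (pderiv k (pderiv m G)) := by
    intro a b
    rw [dotB_apply]
    refine Finset.sum_congr rfl (fun k _ => ?_)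
    rw [grad, dd, map_sum, map_sum, Finset.sum_mul]
    refine Finset.sum_congr rfl (fun m _ => ?_)
    rw [pderiv_C_mul, map_mul, eval_C]
    ring
  rw [h, h, Finset.sum_comm]
  refine Finset.sum_congr rfl (fun k _ => Finset.sum_congr rfl (fun m _ => ?_))
  rw [pderiv_comm']
  ring

lemma LL_symm {r : ℕ} (G : Fin r → MvPolynomial σ K) (x : σ → K) (d : Fin r → K) (a b : σ → K) :
    dotB σ K (LL G x d a) b = dotB σ K (LL G x d b) a := by
  rw [← hess_comb, ← hess_comb, hess_symm]

/-- What happens at a flat homogeneous vector `a`, in the direction of the sink. -/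
structure SinkData (w : σ → ℤ) (I : Ideal (MvPolynomial σ K)) (D j : ℤ) (a q : σ → K)
    {r : ℕ} (G : Fin r → MvPolynomial σ K) (m : Fin r → ℤ) : Prop where
  fr : IsFrame (fun k => w k - j) I a G m
  line : ∀ t : K, a + t • q ∈ cone I
  con : ∀ d, ∀ t : K, uu G a d + t • LL G a d q ∈ conormal I (a + t • q)
  fixq : ∀ d, Fixed w (LL G a d q)

theorem exists_sinkData [IsAlgClosed K] [CharZero K] {w : σ → ℤ} {I : Ideal (MvPolynomial σ K)}
    {r : ℕ} {D : ℤ} (h : Src w I r D) (j : ℤ) (hj0 : 0 < j) (hjD : j < D) (a : σ → K)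
    (hac : a ∈ cone I) (ha0 : a ≠ 0) (ha : Hom w j a)
    (hs : ∀ η ∈ conormal I a, ∀ k, η k ≠ 0 → w k ≤ D - j)
    (q : σ → K) (hq : Hom w D q) :
    ∃ (G : Fin r → MvPolynomial σ K) (m : Fin r → ℤ), SinkData w I D j a q G m := by
  have hst := stable_shift h.sc.homog h.st j
  obtain ⟨G, m, hG⟩ := exists_frame (fun k => w k - j) I r h.sc hst a hac ha0
  have hfixa : Fixed (fun k => w k - j) a := fun k hk => by
    show w k - j = 0
    rw [ha k hk]; ring
  have hm : ∀ i, ∃ k, w k - j = m i ∧ w k ≤ D - j := by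
    intro i
    obtain ⟨k, hk, hk2⟩ := hG.exists_wt hfixa i
    exact ⟨k, hk, hs _ (grad_mem I a (hG.mem i)) k hk2⟩
  have hNNa : NN (fun k => w k - j) a := fun k hk => (hfixa k hk).ge
  have hline : ∀ t : K, a + t • q ∈ cone I := by
    intro t
    apply flat_line h.sc hst (D - j) (fun k => by
      show w k - j ≤ D - j
      have := h.le k
      omega) a hac hNNa (by rw [part_eq_self hfixa]; exact ha0) q
    · rw [mem_tangent']
      intro ξ hξ
      rw [dotB_apply]
      refine Finset.sum_eq_zero (fun k _ => ?_)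
      by_cases hk : ξ k = 0
      · rw [hk, zero_mul]
      · by_cases hk2 : q k = 0
        · rw [hk2, mul_zero]
        · have h1 := hs ξ hξ k hk
          have h2 := hq k hk2
          omega
    · intro k hk
      show 0 ≤ w k - j ∧ D - j < 2 * (w k - j)
      rw [hq k hk]
      omega
  refine ⟨G, m, hG, hline, ?_, ?_⟩
  · intro d t
    have h2 := uu_mem G hG.mem d (a + t • q)
    have h3 : uu G (a + t • q) d = uu G a d + t • LL G a d q := by
      rw [uu_apply, uu_apply, LL_apply, Finset.smul_sum, ← Finset.sum_add_distrib]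
      refine Finset.sum_congr rfl (fun i _ => ?_)
      rw [grad_flat_wt (hG.wh i) a q hNNa (fun k hk => ?_) t, smul_add, smul_comm]
      show 0 ≤ w k - j ∧ ∀ e, m i - (w e - j) < 2 * (w k - j)
      rw [hq k hk]
      obtain ⟨k', hk1, hk2⟩ := hm i
      refine ⟨by omega, fun e => ?_⟩
      have := h.nn e
      omega
    rwa [h3] at h2
  · intro d k hk
    have h5 : Hom (fun k => w k - j) (D - j) q := fun k hk => by
      show w k - j = D - j
      rw [hq k hk]
    obtain ⟨i, _, hi2⟩ := LL_supp hG hfixa d q (D - j) h5 k hk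
    obtain ⟨k', hk1, hk2⟩ := hm i
    have hi3 : m i = D - j + (w k - j) := hi2
    have := h.nn k
    omega

namespace SinkData

variable {w : σ → ℤ} {I : Ideal (MvPolynomial σ K)} {D j : ℤ} {a q : σ → K}
    {r : ℕ} {G : Fin r → MvPolynomial σ K} {m : Fin r → ℤ}

omit [DecidableEq σ] in
lemma q_line (t : K) (ht : t ≠ 0) : q + t • a = t • (a + t⁻¹ • q) := by
  rw [smul_add, smul_smul, mul_inv_cancel₀ ht, one_smul, add_comm]

omit [DecidableEq σ] in
lemma q_mem [Infinite K] (hI : SCone I r) (hS : SinkData w I D j a q G m) : q ∈ cone I := by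
  apply (cone_of_line I q a _).1
  intro t ht
  rw [q_line t ht]
  exact cone_smul I hI.homog _ _ (hS.line _)

omit [DecidableEq σ] in
lemma LL_mem [Infinite K] (hI : SCone I r) (hS : SinkData w I D j a q G m) (hq0 : q ≠ 0)
    (d : Fin r → K) : LL G a d q ∈ conormal I q := by
  apply conormal_closed I r hI.rank q a hq0 _ (uu G a d)
  intro t ht
  rw [q_line t ht, conormal_smul I hI.homog t ht]
  refine ⟨cone_smul I hI.homog _ _ (hS.line _), ?_⟩
  have h1 := Submodule.smul_mem _ t (hS.con d t⁻¹)
  rwa [smul_add, smul_smul, mul_inv_cancel₀ ht, one_smul, add_comm (t • uu G a d) _] at h1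

omit [DecidableEq σ] in
lemma uu_mem_q [Infinite K] (hI : SCone I r) (hS : SinkData w I D j a q G m) (hq0 : q ≠ 0)
    (d : Fin r → K) (hd : LL G a d q = 0) : uu G a d ∈ conormal I q := by
  apply conormal_closed I r hI.rank q a hq0 _ 0
  intro t ht
  rw [q_line t ht, conormal_smul I hI.homog t ht]
  refine ⟨cone_smul I hI.homog _ _ (hS.line _), ?_⟩
  have h1 := hS.con d t⁻¹
  rw [hd, smul_zero, add_zero] at h1
  rwa [smul_zero, add_zero]

end SinkData

omit [Fintype σ] in
lemma dot_self_ne [Fintype σ] {w : σ → ℤ} {p : σ → K} (hp0 : p ≠ 0) (hfix : Fixed w p)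
    (hone : ∀ z, Fixed w z → ∃ c : K, z = c • p) : dotB σ K p p ≠ 0 := by
  obtain ⟨k0, hk0⟩ := Function.ne_iff.1 hp0
  have h1 : ∀ k, k ≠ k0 → p k = 0 := by
    intro k hk
    by_contra hpk
    obtain ⟨c, hc⟩ := hone (Pi.single k 1) (by
      intro i hi
      have : i = k := by
        by_contra hne
        exact hi (by rw [Pi.single_apply, if_neg hne])
      rw [this]; exact hfix k hpk)
    have h2 := congrFun hc k0
    rw [Pi.single_apply, if_neg (Ne.symm hk), Pi.smul_apply, smul_eq_mul] at h2
    have hk0' : p k0 ≠ 0 := hk0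
    have h3 : c = 0 := by
      rcases mul_eq_zero.1 h2.symm with h | h
      · exact h
      · exact absurd h hk0'
    rw [h3, zero_smul] at hc
    have := congrFun hc k
    simp at this
  rw [dotB_apply, Finset.sum_eq_single k0]
  · exact mul_ne_zero hk0 hk0
  · intro k _ hk
    rw [h1 k hk, zero_mul]
  · intro h; exact absurd (Finset.mem_univ _) h

/-- The case of an isolated source. -/
theorem one_source [IsAlgClosed K] [CharZero K] {w : σ → ℤ} {I : Ideal (MvPolynomial σ K)}
    {r : ℕ} {D : ℤ} (h : Src w I r D)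
    {p : σ → K} {F : Fin r → MvPolynomial σ K} {l : Fin r → ℤ} {A : Submodule K (σ → K)}
    (hP : Pack w I r D p F l A) (hone : ∀ z, Fixed w z → ∃ c : K, z = c • p)
    (hA : 2 ≤ Module.finrank K A) : r ≤ 1 := by
  by_contra hr
  push Not at hr
  have hDpos := h.pos
  have hpp := dot_self_ne hP.ne hP.fix hone
  -- a fixed vector orthogonal to `p` is zero
  have hfz : ∀ z : σ → K, Fixed w z → dotB σ K z p = 0 → z = 0 := by
    intro z hz hzp
    obtain ⟨c, hc⟩ := hone z hz
    rw [hc, map_smul, LinearMap.smul_apply, smul_eq_mul] at hzp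
    rcases mul_eq_zero.1 hzp with h1 | h1
    · rw [hc, h1, zero_smul]
    · exact absurd h1 hpp
  -- strict inequality of weights
  have hlt : ∀ a ∈ A, a ≠ 0 → ∀ j, Hom w j a → ∀ i, j < l i := by
    intro a ha ha0 j hj i
    have h1 := hP.le_wt h a ha ha0 j hj i
    refine lt_of_le_of_ne h1 (fun heq => ?_)
    have h2 : LL F p (Pi.single i 1) a = 0 := by
      apply hfz
      · intro k hk
        obtain ⟨i', hi', hi2⟩ := LL_supp hP.fr hP.fix _ a j hj k hk
        have hii : i' = i := by
          by_contra hne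
          exact hi' (by rw [Pi.single_apply, if_neg hne])
        rw [hii] at hi2
        omega
      · exact hP.LL_p h _ a ha
    have h3 := hP.inj _ a ha ha0 h2
    have := congrFun h3 i
    simp at this
  obtain ⟨M, hM⟩ := h.max
  set q : σ → K := Pi.single M 1 with hq
  have hq0 : q ≠ 0 := by
    intro h0
    have := congrFun h0 M
    simp [hq] at this
  have hqD : Hom w D q := by
    intro k hk
    have : k = M := by
      by_contra hne
      exact hk (by rw [hq, Pi.single_apply, if_neg hne])
    rw [this]; exact hM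
  have i0 : Fin r := ⟨0, by omega⟩
  have hqT : q ∉ tangent I p := by
    intro hmem
    have h1 := hP.top q hmem (fun k hk => by rw [hqD k hk]; omega)
    have h2 := hlt q h1 hq0 D hqD i0
    have h3 := (h.frame_le hP.fix hP.fr i0).2
    omega
  -- the data at a homogeneous vector
  have hdata : ∀ a ∈ A, a ≠ 0 → ∀ j, Hom w j a →
      q ∈ cone I ∧ p ∈ conormal I q ∧
      ∀ c, dotB σ K (uu F p c) q = 0 → LL F p c a ∈ conormal I q := by
    intro a ha ha0 j hj
    have hac := hP.fs.mem_cone h.sc a ha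
    obtain ⟨k0, hk0⟩ := Function.ne_iff.1 ha0
    have hj0 : 0 < j := by
      rw [← hj k0 hk0]; exact hP.fs.pos a ha k0 hk0
    have hjh : D ≤ 2 * j := by
      rw [← hj k0 hk0]; exact hP.half a ha k0 hk0
    have hjD : j < D := by
      have h1 := hlt a ha ha0 j hj i0
      have h3 := (h.frame_le hP.fix hP.fr i0).2
      omega
    have hs1 : ∀ η ∈ conormal I a, ∀ k, η k ≠ 0 → 0 < w k ∧ w k ≤ D - j := by
      intro η hη k hk
      obtain ⟨c, rfl⟩ := hP.span_LL h a ha ha0 η hη
      obtain ⟨i, _, hi⟩ := LL_supp hP.fr hP.fix c a j hj k hk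
      have h1 := hlt a ha ha0 j hj i
      have h2 := (h.frame_le hP.fix hP.fr i).2
      omega
    obtain ⟨G, m, hS⟩ := exists_sinkData h j hj0 hjD a hac ha0 hj
      (fun η hη k hk => (hs1 η hη k hk).2) q hqD
    have hlam : ∀ c d, uu G a d = LL F p c a → LL G a d p = uu F p c := by
      intro c d hcd
      apply lam h j j hj0 a ha0 hj hS.fr (fun η hη k hk => by
        have := hs1 η hη k hk
        omega) p hP.fix (hP.line_mem a ha) (uu F p c)
        (LL F p c a) (hP.line_conormal c a ha) _ d hcd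
      intro k hk
      obtain ⟨i, _, hi⟩ := uu_supp hP.fr hP.fix c k hk
      rw [← hi]; exact hlt a ha ha0 j hj i
    have hexd : ∀ c, ∃ d, uu G a d = LL F p c a := fun c =>
      frame_span h.sc hac ha0 hS.fr _ (hP.fs.limit_LL h.sc hP.fr c a ha ha0)
    refine ⟨hS.q_mem h.sc, ?_, ?_⟩
    · -- some `c` with nonzero value
      obtain ⟨ξ, hξ, hξq⟩ : ∃ ξ ∈ conormal I p, dotB σ K ξ q ≠ 0 := by
        by_contra hcon
        push Not at hcon
        exact hqT ((mem_tangent' I p q).2 hcon)
      obtain ⟨c, rfl⟩ := frame_span h.sc hP.mem hP.ne hP.fr ξ hξ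
      obtain ⟨d, hd⟩ := hexd c
      obtain ⟨c', hc'⟩ := hone _ (hS.fixq d)
      have h1 := hS.LL_mem h.sc hq0 d
      rw [hc'] at h1
      have hc'0 : c' ≠ 0 := by
        rintro rfl
        apply hξq
        rw [← hlam c d hd, LL_symm, hc', zero_smul, map_zero, LinearMap.zero_apply]
      exact (Submodule.smul_mem_iff _ hc'0).1 h1
    · intro c hc
      obtain ⟨d, hd⟩ := hexd c
      rw [← hd]
      apply hS.uu_mem_q h.sc hq0
      apply hfz _ (hS.fixq d)
      rw [LL_symm, hlam c d hd, hc]
  -- homogeneous elements exist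
  obtain ⟨a, ha, ha0⟩ : ∃ a ∈ A, a ≠ 0 := by
    by_contra hno
    push Not at hno
    have : A = ⊥ := by
      rw [eq_bot_iff]; intro a ha; exact hno a ha
    rw [this, finrank_bot] at hA
    omega
  obtain ⟨a', ha', ha'0⟩ : ∃ a' ∈ A, a' ∉ Submodule.span K {a} := by
    by_contra hno
    push Not at hno
    have h1 : A ≤ Submodule.span K {a} := hno
    have h2 := Submodule.finrank_mono h1
    rw [finrank_span_singleton ha0] at h2
    omega
  obtain ⟨k0, hk0⟩ := Function.ne_iff.1 ha0
  obtain ⟨hb1, hb2, hb3⟩ := exists_hom_mem w A hP.graded a ha k0 hk0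
  obtain ⟨hqc, hpq, -⟩ := hdata _ hb1 hb2 _ hb3
  set P : Finset σ := Finset.univ.filter (fun k => 0 < w k) with hPdef
  set R : Submodule K (σ → K) := conormal I q ⊓ cs K P with hR
  have hRlt : R < conormal I q := by
    refine lt_of_le_of_ne inf_le_left (fun heq => ?_)
    have h1 : p ∈ R := by rw [heq]; exact hpq
    obtain ⟨k1, hk1⟩ := Function.ne_iff.1 hP.ne
    apply hk1
    apply h1.2
    rw [hPdef, Finset.mem_filter]
    have := hP.fix k1 hk1
    omega
  have hRfin := Submodule.finrank_lt_finrank_of_lt hRlt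
  rw [h.sc.rank q hqc hq0] at hRfin
  let ψ : (Fin r → K) →ₗ[K] K := ((dotB σ K).flip q).comp (uu F p)
  set U := LinearMap.ker ψ with hU
  have hUfin : r ≤ Module.finrank K U + 1 := by
    have h1 : Module.finrank K (LinearMap.range ψ) + Module.finrank K U =
      Module.finrank K (Fin r → K) := LinearMap.finrank_range_add_finrank_ker ψ
    have h2 := Submodule.finrank_le (LinearMap.range ψ)
    rw [Module.finrank_self] at h2
    rw [Module.finrank_fintype_fun_eq_card, Fintype.card_fin] at h1
    omega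
  have hmemR : ∀ b ∈ A, ∀ c ∈ U, LL F p c b ∈ R := by
    intro b hb c hc
    have hc' : dotB σ K (uu F p c) q = 0 := hc
    rw [← sum_part w b, map_sum]
    refine Submodule.sum_mem _ (fun j _ => ?_)
    by_cases hj : part w j b = 0
    · rw [hj, map_zero]; exact Submodule.zero_mem _
    · have hbj := hP.graded b hb j
      refine ⟨(hdata _ hbj hj j (hom_part w j b)).2.2 c hc', ?_⟩
      intro k hk
      by_contra hne
      obtain ⟨i, _, hi⟩ := LL_supp hP.fr hP.fix c _ j (hom_part w j b) k hne
      have h1 := hlt _ hbj hj j (hom_part w j b) i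
      apply hk
      rw [hPdef, Finset.mem_filter]
      exact ⟨Finset.mem_univ _, by omega⟩
  let φ : ∀ b ∈ A, U →ₗ[K] R := fun b hb =>
    LinearMap.codRestrict R (((LL F p).flip b).comp U.subtype) (fun c => hmemR b hb c c.2)
  obtain ⟨v, hv0, c, hvc⟩ := exists_pencil (φ a ha) (φ a' ha') (by
      rw [← LinearMap.ker_eq_bot, LinearMap.ker_eq_bot']
      intro u hu
      ext1
      exact hP.inj u a ha ha0 (congrArg Subtype.val hu)) (by omega) (by omega)
  have h8 : LL F p (v : Fin r → K) a' = c • LL F p (v : Fin r → K) a := congrArg Subtype.val hvc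
  have h9 : a' - c • a ≠ 0 := by
    intro h0
    apply ha'0
    rw [sub_eq_zero] at h0
    rw [h0]
    exact Submodule.smul_mem _ _ (Submodule.mem_span_singleton_self a)
  apply hv0
  ext1
  apply hP.inj v _ (Submodule.sub_mem _ ha' (Submodule.smul_mem _ c ha)) h9
  rw [map_sub, map_smul, h8, sub_self]

end Pool.Agent.H929R2.Hart
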