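import Pool.Agent.H929R2.Hart.W7

set_option autoImplicit false
set_option maxHeartbeats 400000

namespace Pool.Agent.H929R2.Hart

open MvPolynomial

variable {σ : Type} [Fintype σ] [DecidableEq σ] {K : Type} [Field K]

/-- the frame at `a` parametrizes the conormal spaces at all the fixed vectors -/
def LamAll (w : σ → ℤ) (I : Ideal (MvPolynomial σ K)) (a : σ → K) {r : ℕ}
    (G : Fin r → MvPolynomial σ K) : Prop :=
  ∀ z, Fixed w z → z ≠ 0 → (∀ d, LL G a d z ∈ conormal I z) ∧ (∀ d, LL G a d z = 0 → d = 0) ∧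
      (∀ ξ ∈ conormal I z, ∃ d, LL G a d z = ξ)

theorem pencilD [IsAlgClosed K] [CharZero K] {w : σ → ℤ} {I : Ideal (MvPolynomial σ K)} {r : ℕ}
    {D : ℤ} (h : Src w I r D) (j : ℤ) (a : σ → K) (ha : Hom w j a)
    {G : Fin r → MvPolynomial σ K} {m : Fin r → ℤ}
    (hG : IsFrame (fun k => w k - j) I a G m) (hlam : LamAll w I a G)
    (hD : ∀ z, Fixed w z → z ≠ 0 → ∀ η, Hom w D η → η ∈ conormal I z)
    (p1 p2 : σ → K) (h1 : Fixed w p1) (h2 : Fixed w p2) (h10 : p1 ≠ 0) : ∃ c : K, p2 = c • p1 := by
  by_contra hcon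
  push Not at hcon
  have hfixa : Fixed (fun k => w k - j) a := fun k hk => by
    show w k - j = 0
    rw [ha k hk]; ring
  have hp20 : p2 ≠ 0 := fun h0 => hcon 0 (by rw [h0, zero_smul])
  let V : Submodule K (Fin r → K) :=
    { carrier := {d | ∀ i, m i ≠ D - 2 * j → d i = 0}
      zero_mem' := fun _ _ => rfl
      add_mem' := fun {x y} hx hy i hi => by simp [hx i hi, hy i hi]
      smul_mem' := fun c x hx i hi => by simp [hx i hi] }
  have hz : ∀ z : σ → K, Fixed w z → Hom (fun k => w k - j) (-j) z := fun z hz k hk => by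
    show w k - j = -j
    rw [hz k hk]; ring
  have hmem : ∀ z, Fixed w z → ∀ d ∈ V, LL G a d z ∈ cs K (wset w D) := by
    intro z hzf d hd
    rw [mem_cs_wset]
    intro k hk
    obtain ⟨i, hi, hi2⟩ := LL_supp hG hfixa d z (-j) (hz z hzf) k hk
    have hi3 : m i = -j + (w k - j) := hi2
    have h4 : m i = D - 2 * j := by
      by_contra hne
      exact hi (hd i hne)
    omega
  let φ : ∀ z, Fixed w z → V →ₗ[K] cs K (wset w D) := fun z hzf =>
    LinearMap.codRestrict _ (((LL G a).flip z).comp V.subtype) (fun d => hmem z hzf d d.2)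
  have hinj : ∀ z (hzf : Fixed w z), z ≠ 0 → Function.Injective (φ z hzf) := by
    intro z hzf hz0
    rw [← LinearMap.ker_eq_bot, LinearMap.ker_eq_bot']
    intro d hd
    ext1
    exact (hlam z hzf hz0).2.1 d (congrArg Subtype.val hd)
  have hsurj : Function.Surjective (φ p1 h1) := by
    rintro ⟨η, hη⟩
    rw [mem_cs_wset] at hη
    obtain ⟨d, hd⟩ := (hlam p1 h1 h10).2.2 η (hD p1 h1 h10 η hη)
    refine ⟨⟨fun i => if m i = D - 2 * j then d i else 0, fun i hi => if_neg hi⟩, ?_⟩
    ext1
    show LL G a (fun i => if m i = D - 2 * j then d i else 0) p1 = η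
    have h3 := part_LL hG hfixa d p1 (-j) (hz p1 h1) (D - j)
    have h4 : part (fun k => w k - j) (D - j) (LL G a d p1) = η := by
      rw [hd]
      apply part_eq_self
      intro k hk
      show w k - j = D - j
      rw [hη k hk]
    rw [h4] at h3
    rw [h3]
    congr 2
    funext i
    have : -j + (D - j) = D - 2 * j := by ring
    rw [this]
  have hfin : Module.finrank K (cs K (wset w D)) ≤ Module.finrank K V := by
    have := LinearMap.finrank_range_le (φ p1 h1)
    rw [LinearMap.range_eq_top.2 hsurj, finrank_top] at this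
    exact this
  have hpos : 0 < Module.finrank K (cs K (wset w D)) := by
    rw [finrank_cs, Finset.card_pos]
    obtain ⟨M, hM⟩ := h.max
    exact ⟨M, by rw [mem_wset]; exact hM⟩
  obtain ⟨v, hv0, c, hvc⟩ := exists_pencil (φ p1 h1) (φ p2 h2) (hinj p1 h1 h10) hfin (by omega)
  have h8 : LL G a (v : Fin r → K) p2 = c • LL G a (v : Fin r → K) p1 :=
    congrArg Subtype.val hvc
  have h9 : p2 - c • p1 ≠ 0 := fun h0 => hcon c (sub_eq_zero.1 h0)
  have h10' : Fixed w (p2 - c • p1) := by
    intro k hk
    by_contra hne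
    apply hk
    have h3 : p1 k = 0 := by by_contra h4; exact hne (h1 k h4)
    have h4 : p2 k = 0 := by by_contra h4; exact hne (h2 k h4)
    simp [h3, h4]
  apply hv0
  ext1
  apply (hlam _ h10' h9).2.1
  rw [map_sub, map_smul, h8, sub_self]

namespace Pack

variable {w : σ → ℤ} {I : Ideal (MvPolynomial σ K)} {p : σ → K} {r : ℕ} {D : ℤ}
  {F : Fin r → MvPolynomial σ K} {l : Fin r → ℤ} {A : Submodule K (σ → K)}

/-- If the sink is small, no tangent direction at the source has top weight. -/
lemma top_tangent [IsAlgClosed K] (h : Src w I r D) (hP : Pack w I r D p F l A)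
    (hsmall : (wset w D).card ≤ r) (v : σ → K) (hv : v ∈ tangent I p) (hvD : Hom w D v) :
    v = 0 := by
  by_contra hv0
  have hDpos := h.pos
  have hvA := hP.top v hv (fun k hk => by rw [hvD k hk]; omega)
  have hl : ∀ i, l i = D := fun i =>
    le_antisymm (h.frame_le hP.fix hP.fr i).2 (hP.le_wt h v hvA hv0 D hvD i)
  have hle : conormal I p ≤ cs K (wset w D) := by
    intro ξ hξ
    obtain ⟨c, rfl⟩ := frame_span h.sc hP.mem hP.ne hP.fr ξ hξ
    rw [mem_cs_wset]
    intro k hk
    obtain ⟨i, _, hi⟩ := uu_supp hP.fr hP.fix c k hk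
    rw [← hi, hl]
  have hlt : conormal I p < cs K (wset w D) := by
    refine lt_of_le_of_ne hle (fun heq => ?_)
    obtain ⟨k1, hk1⟩ := Function.ne_iff.1 hv0
    have h1 : (Pi.single k1 1 : σ → K) ∈ conormal I p := by
      rw [heq]
      apply single_mem_cs
      rw [mem_wset]; exact hvD k1 hk1
    have h2 := tangent_conormal I p h1 hv
    rw [dotB_single] at h2
    exact hk1 h2
  have := Submodule.finrank_lt_finrank_of_lt hlt
  rw [finrank_cs, h.sc.rank p hP.mem hP.ne] at this
  omega

omit [DecidableEq σ] in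
lemma normal_top [IsAlgClosed K] (h : Src w I r D) (hP : Pack w I r D p F l A)
    (hno : ∀ v ∈ tangent I p, Hom w D v → v = 0) (η : σ → K) (hη : Hom w D η) :
    η ∈ conormal I p := by
  rw [mem_conormal_iff]
  intro v hv
  have h1 := hno _ (tangent_part h.sc h.st hP.mem hP.ne hP.fix v hv D) (hom_part w D v)
  have h2 := dotB_part w D η v
  rw [part_eq_self hη, h1, map_zero] at h2
  exact h2.symm

end Pack

omit [DecidableEq σ] in
lemma sink_no_fixed [IsAlgClosed K] [CharZero K] {w : σ → ℤ} {I : Ideal (MvPolynomial σ K)}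
    {r : ℕ} {D : ℤ} (h : Src w I r D)
    (hno : ∀ z, Fixed w z → z ≠ 0 → ∀ v ∈ tangent I z, Hom w D v → v = 0)
    (q : σ → K) (hqc : q ∈ cone I) (hq0 : q ≠ 0) (hq : Hom w D q) (z : σ → K) (hz : Fixed w z)
    (hzT : z ∈ tangent I q) : z = 0 := by
  classical
  by_contra hz0
  have hDpos := h.pos
  have hst : Stable (fun k => D - w k) I := by
    have := stable_neg (stable_shift h.sc.homog h.st D)
    intro t ht x hx
    have h1 := this t ht x hx
    simpa using h1
  have hfixq : Fixed (fun k => D - w k) q := fun k hk => by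
    show D - w k = 0
    rw [hq k hk]; ring
  have hline : ∀ t : K, q + t • z ∈ cone I := by
    intro t
    apply flat_line h.sc hst D (fun k => by
      show D - w k ≤ D
      have := h.nn k
      omega) q hqc (fun k hk => (hfixq k hk).ge) (by rw [part_eq_self hfixq]; exact hq0) z hzT
    intro k hk
    show 0 ≤ D - w k ∧ D < 2 * (D - w k)
    rw [hz k hk]
    omega
  apply hq0
  apply hno z hz hz0 q ?_ hq
  apply (cone_of_line I z q _).2
  intro t ht
  have h1 : z + t • q = t • (q + t⁻¹ • z) := by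
    rw [smul_add, smul_smul, mul_inv_cancel₀ ht, one_smul, add_comm]
  rw [h1]
  exact cone_smul I h.sc.homog _ _ (hline _)

lemma source_small [IsAlgClosed K] [CharZero K] {w : σ → ℤ} {I : Ideal (MvPolynomial σ K)}
    {r : ℕ} {D : ℤ} (h : Src w I r D)
    (hno : ∀ z, Fixed w z → z ≠ 0 → ∀ v ∈ tangent I z, Hom w D v → v = 0)
    (q : σ → K) (hqc : q ∈ cone I) (hq0 : q ≠ 0) (hq : Hom w D q) : (wset w 0).card ≤ r := by
  have h1 := finrank_tangent I q
  rw [h.sc.rank q hqc hq0] at h1
  have h2 := finrank_inf_ge (tangent I q) (cs K (wset w 0))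
  have h3 : tangent I q ⊓ cs K (wset w 0) = ⊥ := by
    rw [eq_bot_iff]
    rintro z ⟨hz1, hz2⟩
    exact sink_no_fixed h hno q hqc hq0 hq z ((mem_cs_wset w 0 z).1 hz2) hz1
  rw [h3, finrank_bot, finrank_cs] at h2
  omega

/-- The packs for a large upper part. -/
lemma exists_pack [IsAlgClosed K] [CharZero K] {w : σ → ℤ} {I : Ideal (MvPolynomial σ K)}
    {r : ℕ} {D : ℤ} (h : Src w I r D) (hbig : 3 * r + 1 ≤ (upper w D).card)
    (p : σ → K) (hp : p ∈ cone I) (hp0 : p ≠ 0) (hfix : Fixed w p) :
    ∃ (F : Fin r → MvPolynomial σ K) (l : Fin r → ℤ),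
      Pack w I r D p F l (tangent I p ⊓ cs K (upper w D)) := by
  obtain ⟨F, l, hF⟩ := exists_frame w I r h.sc h.st p hp hp0
  have h1 := h.finrank_Ap hp hp0 (upper w D)
  have hFS := h.flatSpace hp hp0 hfix hF (by omega)
  refine ⟨F, l, hp, hp0, hfix, hF, hFS, ?_, ?_, ?_, ?_⟩
  · intro c a ha ha0 hLL
    exact hFS.inj h.sc h.nd h.min hfix hF c a ha ha0 hLL
  · rintro a ⟨ha1, ha2⟩ m
    refine ⟨tangent_part h.sc h.st hp hp0 hfix a ha1 m, ?_⟩
    intro k hk
    simp [part, ha2 k hk]
  · intro v hv hv2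
    refine ⟨hv, ?_⟩
    intro k hk
    by_contra hne
    exact hk (by rw [mem_upper]; exact hv2 k hne)
  · rintro a ⟨_, ha2⟩ k hk
    have : k ∈ upper w D := by
      by_contra hne; exact hk (ha2 k hne)
    rw [mem_upper] at this
    omega

lemma all_fixed [IsAlgClosed K] [CharZero K] {w : σ → ℤ} {I : Ideal (MvPolynomial σ K)}
    {r : ℕ} {D : ℤ} (h : Src w I r D) (hbig : 3 * r + 1 ≤ (upper w D).card)
    (z : σ → K) (hz : Fixed w z) : z ∈ cone I := by
  obtain ⟨p, hp, hp0, hfix⟩ := h.exists_source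
  obtain ⟨F, l, hP⟩ := exists_pack h hbig p hp hp0 hfix
  have h1 := h.finrank_Ap hp hp0 (upper w D)
  apply hP.fixed_mem h (hP.wt_pos h ?_) z hz
  by_contra hno
  push Not at hno
  have : tangent I p ⊓ cs K (upper w D) = ⊥ := by
    rw [eq_bot_iff]; intro a ha; exact hno a ha
  rw [this, finrank_bot] at h1
  omega

/-- the case of a small sink -/
theorem small_sink [IsAlgClosed K] [CharZero K] {w : σ → ℤ} {I : Ideal (MvPolynomial σ K)}
    {r : ℕ} {D : ℤ} (h : Src w I r D) (hbig : 3 * r + 1 ≤ (upper w D).card)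
    (hsmall : (wset w D).card ≤ r) : r ≤ 1 := by
  by_contra hr
  push Not at hr
  have hDpos := h.pos
  have hno : ∀ z, Fixed w z → z ≠ 0 → ∀ v ∈ tangent I z, Hom w D v → v = 0 := by
    intro z hz hz0 v hv hvD
    obtain ⟨F, l, hP⟩ := exists_pack h hbig z (all_fixed h hbig z hz) hz0 hz
    exact hP.top_tangent h hsmall v hv hvD
  obtain ⟨k0, hk0, hmin⟩ := Finset.exists_min_image (upper w D) w
    (Finset.card_pos.1 (by omega))
  have hk0' := (mem_upper w D k0).1 hk0
  set j := w k0 with hj
  -- the normal weights are larger than `j`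
  have hlj : ∀ z, Fixed w z → z ≠ 0 → ∀ (F : Fin r → MvPolynomial σ K) (l : Fin r → ℤ),
      Pack w I r D z F l (tangent I z ⊓ cs K (upper w D)) → ∀ i, j < l i := by
    intro z hz hz0 F l hP i
    by_contra hcon
    push Not at hcon
    have hfin := h.finrank_Ap hP.mem hz0 (upper w D)
    set A : Submodule K (σ → K) := tangent I z ⊓ cs K (upper w D) with hA
    have hhom : ∀ a ∈ A, Hom w j a ∧ (a ≠ 0 → l i = j) := by
      intro a ha
      have key : ∀ k, a k ≠ 0 → w k = j ∧ l i = j := by
        intro k hk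
        obtain ⟨h1, h2, h3⟩ := exists_hom_mem w A hP.graded a ha k hk
        have h4 := hP.le_wt h _ h1 h2 _ h3 i
        have h5 : k ∈ upper w D := by
          by_contra hne; exact hk (ha.2 k hne)
        have h6 := hmin k h5
        omega
      refine ⟨fun k hk => (key k hk).1, fun ha0 => ?_⟩
      obtain ⟨k, hk⟩ := Function.ne_iff.1 ha0
      exact (key k hk).2
    obtain ⟨a, ha, ha0⟩ : ∃ a ∈ A, a ≠ 0 := by
      by_contra hno
      push Not at hno
      have : A = ⊥ := by
        rw [eq_bot_iff]; intro a ha; exact hno a ha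
      rw [this, finrank_bot] at hfin
      omega
    have hli := (hhom a ha).2 ha0
    have hjD : j < D := by
      refine lt_of_le_of_ne (h.le k0) (fun heq => ha0 ?_)
      apply hno z hz hz0 a ha.1
      rw [← heq]
      exact (hhom a ha).1
    have hj0 : 0 < j := by omega
    have hac := hP.fs.mem_cone h.sc a ha
    -- the sink
    obtain ⟨M, hM⟩ := h.max
    set q : σ → K := Pi.single M 1 with hq
    have hq0 : q ≠ 0 := by
      intro h0
      have := congrFun h0 M
      simp [hq] at this
    have hqD : Hom w D q := by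
      intro k hk
      have : k = M := by
        by_contra hne
        exact hk (by rw [hq, Pi.single_apply, if_neg hne])
      rw [this]; exact hM
    obtain ⟨G, m, hS⟩ := exists_sinkData h j hj0 hjD a hac ha0 (hhom a ha).1 (by
      intro η hη k hk
      obtain ⟨c, rfl⟩ := hP.span_LL h a ha ha0 η hη
      obtain ⟨i', _, hi'⟩ := LL_supp hP.fr hP.fix c a j (hhom a ha).1 k hk
      have h2 := (h.frame_le hP.fix hP.fr i').2
      omega) q hqD
    have hn0 := source_small h hno q (hS.q_mem h.sc) hq0 hqD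
    -- the injection of `A` into the fixed vectors
    let φ : A →ₗ[K] cs K (wset w 0) :=
      LinearMap.codRestrict _ ((LL F z (Pi.single i 1)).comp A.subtype) (fun a => by
        rw [mem_cs_wset]
        intro k hk
        obtain ⟨i', hi', hi2⟩ := LL_supp hP.fr hP.fix _ a j (hhom a a.2).1 k hk
        have hii : i' = i := by
          by_contra hne
          exact hi' (by rw [Pi.single_apply, if_neg hne])
        rw [hii] at hi2
        omega)
    have hφ : Function.Injective φ := by
      rw [← LinearMap.ker_eq_bot, LinearMap.ker_eq_bot']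
      intro b hb
      by_contra hb0
      have h1 := hP.inj (Pi.single i 1) b b.2 (fun h0 => hb0 (by ext1; exact h0))
        (congrArg Subtype.val hb)
      have := congrFun h1 i
      simp at this
    have h3 := LinearMap.finrank_le_finrank_of_injective hφ
    rw [finrank_cs] at h3
    omega
  -- the vector `a`
  set a : σ → K := Pi.single k0 1 with ha
  have ha0 : a ≠ 0 := by
    intro h0
    have := congrFun h0 k0
    simp [ha] at this
  have haj : Hom w j a := by
    intro k hk
    have : k = k0 := by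
      by_contra hne
      exact hk (by rw [ha, Pi.single_apply, if_neg hne])
    rw [this]
  have haA : ∀ z, Fixed w z → z ≠ 0 → ∀ (F : Fin r → MvPolynomial σ K) (l : Fin r → ℤ),
      Pack w I r D z F l (tangent I z ⊓ cs K (upper w D)) →
      a ∈ (tangent I z ⊓ cs K (upper w D) : Submodule K (σ → K)) := by
    intro z hz hz0 F l hP
    refine ⟨?_, single_mem_cs _ _ hk0⟩
    show a ∈ tangent I z
    rw [mem_tangent']
    intro ξ hξ
    rw [ha, dotB_comm, dotB_single]
    by_contra hne
    obtain ⟨c, rfl⟩ := frame_span h.sc hP.mem hz0 hP.fr ξ hξ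
    obtain ⟨i, _, hi⟩ := uu_supp hP.fr hz c k0 hne
    have := hlj z hz hz0 F l hP i
    omega
  obtain ⟨p, hp, hp0, hfix⟩ := h.exists_source
  obtain ⟨F, l, hP⟩ := exists_pack h hbig p hp hp0 hfix
  have hac := hP.fs.mem_cone h.sc a (haA p hfix hp0 F l hP)
  obtain ⟨G, m, hG⟩ := exists_frame (fun k => w k - j) I r h.sc
    (stable_shift h.sc.homog h.st j) a hac ha0
  have hlam : LamAll w I a G := by
    intro z hz hz0
    obtain ⟨F', l', hP'⟩ := exists_pack h hbig z (all_fixed h hbig z hz) hz0 hz
    exact lam_pack h j (by omega) a ha0 haj hG hP' (haA z hz hz0 F' l' hP') (Or.inl hk0')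
  have hone : ∀ z, Fixed w z → ∃ c : K, z = c • p := by
    intro z hz
    apply pencilD h j a haj hG hlam ?_ p z hfix hz hp0
    intro z hz hz0 η hη
    obtain ⟨F', l', hP'⟩ := exists_pack h hbig z (all_fixed h hbig z hz) hz0 hz
    exact hP'.normal_top h (hno z hz hz0) η hη
  have h1 := h.finrank_Ap hp hp0 (upper w D)
  have := one_source h hP hone (by omega)
  omega

end Pool.Agent.H929R2.Hart
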