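import Pool.Agent.H929R2.Hart.W8

set_option autoImplicit false
set_option maxHeartbeats 400000

namespace Pool.Agent.H929R2.Hart

open MvPolynomial

variable {σ : Type} [Fintype σ] [DecidableEq σ] {K : Type} [Field K]

omit [DecidableEq σ] in
/-- Polynomial version of `conormal_closed`. -/
theorem conormal_closed' [Infinite K] (I : Ideal (MvPolynomial σ K)) (r : ℕ)
    (hr : ∀ x ∈ cone I, x ≠ 0 → Module.finrank K (conormal I x) = r)
    (x0 x1 : σ → K) (hx0 : x0 ≠ 0) (Ξ : σ → Polynomial K)
    (h : ∀ t : K, t ≠ 0 → x0 + t • x1 ∈ cone I ∧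
      (fun m => (Ξ m).eval t) ∈ conormal I (x0 + t • x1)) :
    (fun m => (Ξ m).eval 0) ∈ conormal I x0 := by
  classical
  by_contra hξ
  have hx0c : x0 ∈ cone I := (cone_of_line I x0 x1 (fun t ht => (h t ht).1)).1
  have hfin := hr x0 hx0c hx0
  let b := Module.finBasisOfFinrankEq K (conormal I x0) hfin
  choose F hF hbF using fun i => exists_grad I x0 (b i : σ → K) (b i).2
  let B : Fin (r + 1) → (σ → K) := Fin.cons (fun m => (Ξ m).eval 0) (fun i => (b i : σ → K))
  have hB : LinearIndependent K B := by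
    rw [linearIndependent_finCons]
    refine ⟨?_, ?_⟩
    · exact b.linearIndependent.map' (conormal I x0).subtype (Submodule.ker_subtype _)
    · intro hmem
      apply hξ
      refine (Submodule.span_le.2 ?_) hmem
      rintro _ ⟨i, rfl⟩
      exact (b i).2
  obtain ⟨v, hv⟩ := exists_dual_vectors B hB
  let G : Fin (r + 1) → (σ → K) → Polynomial K :=
    Fin.cons (fun w => ∑ m, Ξ m * Polynomial.C (w m))
      (fun i w => ∑ m, line (pderiv m (F i)) x0 x1 * Polynomial.C (w m))
  let P : Matrix (Fin (r + 1)) (Fin (r + 1)) (Polynomial K) := fun i j => G i (v j)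
  have hP : ∀ t : K, P.det.eval t =
      Matrix.det (fun i j => dotB σ K ((Fin.cons (fun m => (Ξ m).eval t)
        (fun i => grad (F i) (x0 + t • x1)) : Fin (r + 1) → (σ → K)) i) (v j)) := by
    intro t
    have h1 : P.det.eval t = (Polynomial.evalRingHom t) P.det := rfl
    rw [h1, RingHom.map_det]
    congr 1
    ext i j
    refine Fin.cases ?_ (fun i => ?_) i
    · simp only [P, G, RingHom.mapMatrix_apply, Matrix.map_apply, Fin.cons_zero,
        Polynomial.coe_evalRingHom, Polynomial.eval_finsetSum, Polynomial.eval_mul,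
        Polynomial.eval_C, dotB_apply]
    · simp only [P, G, RingHom.mapMatrix_apply, Matrix.map_apply, Fin.cons_succ,
        Polynomial.coe_evalRingHom, Polynomial.eval_finsetSum, Polynomial.eval_mul, eval_line,
        Polynomial.eval_C, dotB_apply, grad]
  have hP0 : P.det.eval 0 = 1 := by
    rw [hP 0]
    have : (fun i j => dotB σ K ((Fin.cons (fun m => (Ξ m).eval 0)
        (fun i => grad (F i) (x0 + (0:K) • x1)) :
        Fin (r + 1) → (σ → K)) i) (v j)) = (1 : Matrix (Fin (r+1)) (Fin (r+1)) K) := by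
      ext i j
      rw [Matrix.one_apply, ← hv i j]
      refine Fin.cases ?_ (fun i => ?_) i
      · simp [B]
      · simp [B, hbF]
    rw [this, Matrix.det_one]
  obtain ⟨m, hm⟩ : ∃ m, x0 m ≠ 0 := Function.ne_iff.1 hx0
  let q : Polynomial K := Polynomial.C (x0 m) + Polynomial.X * Polynomial.C (x1 m)
  have hpq : P.det * q ≠ 0 := by
    apply mul_ne_zero
    · intro h0; rw [h0] at hP0; simp at hP0
    · intro h0
      have := congrArg (Polynomial.eval 0) h0
      simp [q] at this
      exact hm this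
  obtain ⟨t, ht0, ht⟩ : ∃ t : K, t ≠ 0 ∧ (P.det * q).eval t ≠ 0 := by
    by_contra hcon
    push Not at hcon
    exact hpq (poly_eq_zero _ hcon)
  rw [Polynomial.eval_mul] at ht
  have ht1 := left_ne_zero_of_mul ht
  have ht2 := right_ne_zero_of_mul ht
  have hxt : x0 + t • x1 ≠ 0 := by
    intro h0
    apply ht2
    have := congrFun h0 m
    simp only [Pi.add_apply, Pi.smul_apply, smul_eq_mul, Pi.zero_apply] at this
    simp only [q, Polynomial.eval_add, Polynomial.eval_C, Polynomial.eval_mul, Polynomial.eval_X]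
    linear_combination this
  have hrt := hr _ (h t ht0).1 hxt
  set Bt : Fin (r + 1) → (σ → K) :=
    Fin.cons (fun m => (Ξ m).eval t) (fun i => grad (F i) (x0 + t • x1)) with hBt
  have hmem : ∀ i, Bt i ∈ conormal I (x0 + t • x1) := by
    intro i
    refine Fin.cases ?_ (fun i => ?_) i
    · simpa [Bt] using (h t ht0).2
    · simpa [Bt] using grad_mem I _ (hF i)
  have hdep : ¬ LinearIndependent K Bt := by
    intro hli
    have h2 : LinearIndependent K (fun i => (⟨Bt i, hmem i⟩ : conormal I (x0 + t • x1))) :=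
      LinearIndependent.of_comp (conormal I (x0 + t • x1)).subtype hli
    have := h2.fintype_card_le_finrank
    rw [hrt, Fintype.card_fin] at this
    omega
  rw [Fintype.not_linearIndependent_iff] at hdep
  obtain ⟨c, hc, i, hci⟩ := hdep
  apply ht1
  rw [hP t]
  rw [← Matrix.exists_vecMul_eq_zero_iff]
  refine ⟨c, fun h0 => hci (congrFun h0 i), ?_⟩
  ext j
  have := congrArg (fun φ => dotB σ K φ (v j)) hc
  simpa [Matrix.vecMul, dotProduct, map_sum, LinearMap.sum_apply] using this

/-- First order comparison of two sections of the conormal spaces along a line. -/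
lemma deriv_mem [IsAlgClosed K] {I : Ideal (MvPolynomial σ K)} {r : ℕ} (hI : SCone I r)
    (p z : σ → K) (hp0 : p ≠ 0) (hline : ∀ t : K, p + t • z ∈ cone I) (G : MvPolynomial σ K)
    (hG : G ∈ I) (v : σ → K)
    (hv : ∀ t : K, t ≠ 0 → grad G p + t • v ∈ conormal I (p + t • z)) :
    grad (dd z G) p - v ∈ conormal I p := by
  let Ξ : σ → Polynomial K := fun m => (line (pderiv m G) p z).divX - Polynomial.C (v m)
  have h0 : (fun m => (Ξ m).eval 0) = grad (dd z G) p - v := by
    funext m
    have h1 : (line (pderiv m G) p z).divX.eval 0 = grad (dd z G) p m := by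
      rw [← Polynomial.coeff_zero_eq_eval_zero, Polynomial.coeff_divX]
      have h2 := Polynomial.coeff_derivative (line (pderiv m G) p z) 0
      rw [derivative_line', Polynomial.coeff_zero_eq_eval_zero, eval_line] at h2
      simp only [zero_smul, add_zero, Nat.cast_zero, zero_add, mul_one] at h2
      rw [zero_add, ← h2, grad, pderiv_dd]
    simp only [Ξ, Polynomial.eval_sub, Polynomial.eval_C, h1, Pi.sub_apply]
  rw [← h0]
  apply conormal_closed' I r hI.rank p z hp0 Ξ
  intro t ht
  refine ⟨hline t, ?_⟩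
  have h3 : t • (fun m => (Ξ m).eval t) = grad G (p + t • z) - (grad G p + t • v) := by
    funext m
    have h4 := congrArg (Polynomial.eval t) (Polynomial.divX_mul_X_add (line (pderiv m G) p z))
    rw [Polynomial.eval_add, Polynomial.eval_mul, Polynomial.eval_X, Polynomial.eval_C,
      Polynomial.coeff_zero_eq_eval_zero, eval_line, eval_line, zero_smul, add_zero] at h4
    simp only [Ξ, Polynomial.eval_sub, Polynomial.eval_C, Pi.smul_apply, smul_eq_mul,
      Pi.sub_apply, Pi.add_apply, grad]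
    linear_combination h4
  rw [← Submodule.smul_mem_iff _ ht, h3]
  exact Submodule.sub_mem _ (grad_mem I _ hG) (hv t ht)

/-- `b` parametrizes the conormal spaces at all the fixed vectors -/
def LamB (w : σ → ℤ) (I : Ideal (MvPolynomial σ K)) {r : ℕ}
    (b : (Fin r → K) →ₗ[K] (σ → K) →ₗ[K] (σ → K)) : Prop :=
  ∀ z, Fixed w z → z ≠ 0 → (∀ d, b d z ∈ conormal I z) ∧ (∀ d, b d z = 0 → d = 0) ∧
      (∀ ξ ∈ conormal I z, ∃ d, b d z = ξ)

omit [DecidableEq σ] in
lemma fixed_hom (w : σ → ℤ) (z : σ → K) : Fixed w z ↔ Hom w 0 z := Iff.rfl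

omit [Fintype σ] [DecidableEq σ] in
lemma fixed_add [Fintype σ] {w : σ → ℤ} {x y : σ → K} (hx : Fixed w x) (hy : Fixed w y) (t : K) :
    Fixed w (x + t • y) := by
  intro k hk
  by_contra hne
  apply hk
  have h3 : x k = 0 := by by_contra h4; exact hne (hx k h4)
  have h4 : y k = 0 := by by_contra h4; exact hne (hy k h4)
  simp [h3, h4]

section Final5

variable {w : σ → ℤ} {I : Ideal (MvPolynomial σ K)} {r : ℕ} {D : ℤ}
  {b : (Fin r → K) →ₗ[K] (σ → K) →ₗ[K] (σ → K)}

omit [DecidableEq σ] in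
lemma LamB.mem_D (hY : ∀ z, Fixed w z → z ≠ 0 → ∀ ξ ∈ conormal I z, Hom w D ξ)
    (hb : LamB w I b) (d : Fin r → K) (z : σ → K) (hz : Fixed w z) : Hom w D (b d z) := by
  by_cases hz0 : z = 0
  · rw [hz0, map_zero]
    intro k hk
    exact absurd rfl hk
  · exact hY z hz hz0 _ ((hb z hz hz0).1 d)

omit [DecidableEq σ] in
lemma two_vectors (hr : 2 ≤ r) : ∃ d1 d2 : Fin r → K, d1 ≠ 0 ∧ ∀ c : K, d2 - c • d1 ≠ 0 := by
  classical
  refine ⟨Pi.single ⟨0, by omega⟩ 1, Pi.single ⟨1, by omega⟩ 1, ?_, ?_⟩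
  · intro h0
    have := congrFun h0 ⟨0, by omega⟩
    simp at this
  · intro c h0
    have := congrFun h0 ⟨1, by omega⟩
    simp [Pi.single_apply] at this

/-- the first pencil argument -/
theorem pencil1 [IsAlgClosed K] (hY : ∀ z, Fixed w z → z ≠ 0 → ∀ ξ ∈ conormal I z, Hom w D ξ)
    (hb : LamB w I b) (hr : 2 ≤ r) (h0 : 0 < (wset w 0).card) :
    (wset w 0).card < (wset w D).card := by
  by_contra hcon
  push Not at hcon
  obtain ⟨d1, d2, hd1, hd2⟩ := two_vectors (K := K) hr
  let φ : (Fin r → K) → cs K (wset w 0) →ₗ[K] cs K (wset w D) := fun d =>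
    LinearMap.codRestrict _ ((b d).comp (cs K (wset w 0)).subtype) (fun z => by
      rw [mem_cs_wset]
      exact hb.mem_D hY d z ((mem_cs_wset w 0 (z : σ → K)).1 z.2))
  have hinj : Function.Injective (φ d1) := by
    rw [← LinearMap.ker_eq_bot, LinearMap.ker_eq_bot']
    intro z hz
    by_contra hz0
    apply hd1
    exact (hb z ((mem_cs_wset w 0 (z : σ → K)).1 z.2) (fun h => hz0 (by ext1; exact h))).2.1 d1
      (congrArg Subtype.val hz)
  obtain ⟨z, hz0, c, hzc⟩ := exists_pencil (φ d1) (φ d2) hinj (by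
    rw [finrank_cs, finrank_cs]; exact hcon) (by rw [finrank_cs]; exact h0)
  have h8 : b d2 z = c • b d1 z := congrArg Subtype.val hzc
  apply hd2 c
  apply (hb z ((mem_cs_wset w 0 (z : σ → K)).1 z.2) (fun h => hz0 (by ext1; exact h))).2.1
  rw [map_sub, map_smul, LinearMap.sub_apply, LinearMap.smul_apply, h8, sub_self]

/-- the second pencil argument -/
theorem pencil2 [IsAlgClosed K]
    (hinj : ∀ a, Hom w D a → a ≠ 0 → ∀ d, (∀ z, Fixed w z → dotB σ K (b d z) a = 0) → d = 0)
    (hr : 2 ≤ r) (h0 : 0 < (wset w D).card) :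
    (wset w D).card < (wset w 0).card := by
  by_contra hcon
  push Not at hcon
  obtain ⟨d1, d2, hd1, hd2⟩ := two_vectors (K := K) hr
  let φ : (Fin r → K) → cs K (wset w D) →ₗ[K] (cs K (wset w 0) →ₗ[K] K) := fun d =>
    ((dotB σ K).compl₁₂ ((b d).comp (cs K (wset w 0)).subtype) (cs K (wset w D)).subtype).flip
  have hφ : ∀ d a z, φ d a z = dotB σ K (b d (z : σ → K)) (a : σ → K) := fun d a z => rfl
  have key : ∀ d (a : cs K (wset w D)), a ≠ 0 → φ d a = 0 → d = 0 := by
    intro d a ha0 ha
    apply hinj a ((mem_cs_wset w D (a : σ → K)).1 a.2) (fun h => ha0 (by ext1; exact h))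
    intro z hz
    have := LinearMap.congr_fun ha ⟨z, (mem_cs_wset w 0 z).2 hz⟩
    exact this
  obtain ⟨a, ha0, c, hac⟩ := exists_pencil (φ d1) (φ d2) (by
    rw [← LinearMap.ker_eq_bot, LinearMap.ker_eq_bot']
    intro a ha
    by_contra ha0
    exact hd1 (key d1 a ha0 ha)) (by
    have h1 : Module.finrank K (cs K (wset w 0) →ₗ[K] K) = Module.finrank K (cs K (wset w 0)) :=
      Subspace.dual_finrank_eq
    rw [h1, finrank_cs, finrank_cs]; exact hcon) (by rw [finrank_cs]; exact h0)
  apply hd2 c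
  apply key _ a ha0
  ext z
  have h3 := LinearMap.congr_fun hac z
  rw [LinearMap.smul_apply, hφ, hφ] at h3
  rw [hφ, map_sub, map_smul, LinearMap.sub_apply, LinearMap.smul_apply, map_sub, map_smul,
    LinearMap.sub_apply, LinearMap.smul_apply, h3, sub_self]
  rfl

/-- nondegeneracy in the second variable -/
lemma inj_a [IsAlgClosed K] [CharZero K] (h : Src w I r D)
    (hbig : 3 * r + 1 ≤ (upper w D).card)
    (hb : LamB w I b) (hn0 : r + 1 ≤ (wset w 0).card) (a : σ → K) (ha : Hom w D a)
    (ha0 : a ≠ 0) (d : Fin r → K) (hd : ∀ z, Fixed w z → dotB σ K (b d z) a = 0) : d = 0 := by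
  have hDpos := h.pos
  let Φ : cs K (wset w 0) →ₗ[K] (Fin r → K) :=
    LinearMap.pi (fun i => ((dotB σ K).flip a).comp
      ((b (Pi.single i 1)).comp (cs K (wset w 0)).subtype))
  have hker : LinearMap.ker Φ ≠ ⊥ := by
    apply LinearMap.ker_ne_bot_of_finrank_lt
    rw [finrank_cs, Module.finrank_fintype_fun_eq_card, Fintype.card_fin]
    omega
  obtain ⟨p, hp, hp0'⟩ := (Submodule.ne_bot_iff _).1 hker
  have hfix : Fixed w (p : σ → K) := (mem_cs_wset w 0 (p : σ → K)).1 p.2
  have hp0 : (p : σ → K) ≠ 0 := fun h => hp0' (by ext1; exact h)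
  have hpc := all_fixed h hbig p hfix
  have hΦ : ∀ d', dotB σ K (b d' p) a = 0 := by
    intro d'
    have h1 : d' = ∑ i, d' i • (Pi.single i 1 : Fin r → K) := by
      funext j
      simp [Finset.sum_apply, Pi.single_apply]
    rw [h1, map_sum, LinearMap.sum_apply, map_sum, LinearMap.sum_apply]
    refine Finset.sum_eq_zero (fun i _ => ?_)
    have h2 := congrFun (LinearMap.mem_ker.1 hp) i
    rw [map_smul, LinearMap.smul_apply, map_smul, LinearMap.smul_apply]
    have h3 : dotB σ K (b (Pi.single i 1) (p : σ → K)) a = 0 := h2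
    rw [h3, smul_zero]
  obtain ⟨hb1, hb2, hb3⟩ := hb p hfix hp0
  have haT : a ∈ tangent I (p : σ → K) := by
    rw [mem_tangent']
    intro ξ hξ
    obtain ⟨d', rfl⟩ := hb3 ξ hξ
    exact hΦ d'
  obtain ⟨F, l, hP⟩ := exists_pack h hbig p hpc hp0 hfix
  have haA : a ∈ (tangent I (p : σ → K) ⊓ cs K (upper w D) : Submodule K (σ → K)) := by
    refine ⟨haT, fun k hk => ?_⟩
    by_contra hne
    apply hk
    rw [mem_upper, ha k hne]
    omega
  obtain ⟨c, hc⟩ := frame_span h.sc hpc hp0 hP.fr _ (hb1 d)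
  have hLL : LL F (p : σ → K) c a = 0 := by
    funext k
    by_contra hne
    obtain ⟨i, _, hi⟩ := LL_supp hP.fr hfix c a D ha k hne
    have h1 := (h.frame_le hfix hP.fr i).2
    have h2 := h.nn k
    have hk0 : w k = 0 := by omega
    apply hne
    have hfk : Fixed w (Pi.single k 1 : σ → K) := by
      intro k' hk'
      have : k' = k := by
        by_contra hne
        exact hk' (by rw [Pi.single_apply, if_neg hne])
      rw [this]; exact hk0
    have h3 : grad (dd (Pi.single k 1) (comb F c)) (p : σ → K) - b d (Pi.single k 1) ∈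
        conormal I (p : σ → K) := by
      apply deriv_mem h.sc _ _ hp0 (fun t => all_fixed h hbig _ (fixed_add hfix hfk t)) _
        (comb_mem F hP.fr.mem c)
      intro t _
      rw [grad_comb, hc, ← map_smul, ← map_add]
      by_cases hz : (p : σ → K) + t • (Pi.single k 1 : σ → K) = 0
      · rw [hz, map_zero]; exact Submodule.zero_mem _
      · exact (hb _ (fixed_add hfix hfk t) hz).1 d
    have h4 := tangent_conormal I _ h3 haT
    rw [hess_comb, map_sub, LinearMap.sub_apply, hd _ hfk, sub_zero, LL_symm, dotB_comm,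
      dotB_single] at h4
    exact h4
  have hc0 := hP.inj c a haA ha0 hLL
  apply hb2
  rw [← hc, hc0, map_zero]

theorem final5 [IsAlgClosed K] [CharZero K] (h : Src w I r D)
    (hbig : 3 * r + 1 ≤ (upper w D).card)
    (hY : ∀ z, Fixed w z → z ≠ 0 → ∀ ξ ∈ conormal I z, Hom w D ξ)
    (hb : LamB w I b) (hn0 : r + 1 ≤ (wset w 0).card) : r ≤ 1 := by
  by_contra hr
  push Not at hr
  have h1 := pencil1 hY hb hr (by omega)
  have h2 := pencil2 (fun a ha ha0 d hd => inj_a h hbig hb hn0 a ha ha0 d hd) hr (by omega)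
  omega

end Final5

end Pool.Agent.H929R2.Hart
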