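import Pool.Agent.H929R2.Hart.Closure

set_option autoImplicit false
set_option maxHeartbeats 400000

namespace Pool.Agent.H929R2.Hart

open MvPolynomial

variable {σ : Type} [Fintype σ] {K : Type} [Field K]

lemma eval_wscale {w : σ → ℕ} {φ : MvPolynomial σ K} {m : ℕ} (h : IsWeightedHomogeneous w φ m)
    (t : K) (x : σ → K) :
    eval (fun i => t ^ w i * x i) φ = t ^ m * eval x φ := by
  rw [eval_eq, eval_eq, Finset.mul_sum]
  refine Finset.sum_congr rfl (fun d hd => ?_)
  have hw := h (mem_support_iff.1 hd)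
  rw [Finsupp.weight_apply, Finsupp.sum_fintype _ _ (by simp)] at hw
  have h1 : ∏ i ∈ d.support, (t ^ w i * x i) ^ d i = ∏ i, (t ^ w i * x i) ^ d i :=
    Finset.prod_subset (Finset.subset_univ _) (fun i _ hi => by
      rw [Finsupp.notMem_support_iff.1 hi, pow_zero])
  have h2 : ∏ i ∈ d.support, (x i) ^ d i = ∏ i, (x i) ^ d i :=
    Finset.prod_subset (Finset.subset_univ _) (fun i _ hi => by
      rw [Finsupp.notMem_support_iff.1 hi, pow_zero])
  rw [h1, h2]
  simp only [mul_pow, Finset.prod_mul_distrib, ← pow_mul]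
  rw [Finset.prod_pow_eq_pow_sum, ← hw]
  simp only [smul_eq_mul, mul_comm (w _)]
  ring

lemma pderiv_eq_zero_of_lt {w : σ → ℕ} {φ : MvPolynomial σ K} {m : ℕ}
    (h : IsWeightedHomogeneous w φ m) (i : σ) (hi : m < w i) : pderiv i φ = 0 := by
  classical
  ext d
  rw [coeff_pderiv, coeff_zero]
  by_cases hc : coeff (d + Finsupp.single i 1) φ = 0
  · rw [hc, zero_mul]
  · exfalso
    have := h hc
    rw [map_add, Finsupp.weight_single] at this
    simp at this
    omega

lemma eval_eq_of_weight_zero {w : σ → ℕ} {φ : MvPolynomial σ K} (o : σ)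
    (hw0 : w o = 0) (hw : ∀ i, i ≠ o → 0 < w i)
    (h : IsWeightedHomogeneous w φ 0) (x y : σ → K) (hxy : x o = y o) : eval x φ = eval y φ := by
  have h1 := eval_wscale h 0 x
  have h2 := eval_wscale h 0 y
  rw [pow_zero, one_mul] at h1 h2
  have hfun : (fun i => (0:K) ^ w i * x i) = (fun i => (0:K) ^ w i * y i) := by
    funext i
    by_cases hi : i = o
    · subst hi; rw [hxy]
    · rw [zero_pow (hw i hi).ne', zero_mul, zero_mul]
  rw [← h1, ← h2, hfun]

lemma sum_wcomp (w : σ → ℕ) (F : MvPolynomial σ K) (M : ℕ) (hM : weightedTotalDegree w F < M) :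
    ∑ m ∈ Finset.range M, weightedHomogeneousComponent w m F = F := by
  have h := sum_weightedHomogeneousComponent w F
  rw [finsum_eq_sum_of_support_subset _ (s := Finset.range M)] at h
  · exact h
  · intro m hm
    simp only [Finset.coe_range, Set.mem_Iio]
    by_contra hcon
    exact hm (weightedHomogeneousComponent_eq_zero m F (by omega))

omit [Fintype σ] in
lemma aeval_eval (x : σ → K) (P : MvPolynomial σ K) : aeval x P = eval x P := by
  rw [← MvPolynomial.coe_aeval_eq_eval]; rfl

lemma mem_of_vanish [IsAlgClosed K] (I : Ideal (MvPolynomial σ K)) (hI : I.IsPrime)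
    (P : MvPolynomial σ K) (h : ∀ x ∈ cone I, eval x P = 0) : P ∈ I := by
  haveI := hI
  have h1 : vanishingIdeal K (zeroLocus K I) = I := MvPolynomial.IsPrime.vanishingIdeal_zeroLocus I
  rw [← h1, mem_vanishingIdeal_iff]
  intro x hx
  rw [mem_zeroLocus_iff] at hx
  rw [aeval_eval]
  refine h x (fun F hF => ?_)
  have := hx F hF
  rwa [aeval_eval] at this

lemma wcomp_mem [IsAlgClosed K] (I : Ideal (MvPolynomial σ K)) (hI : I.IsPrime) (w : σ → ℕ)
    (hst : ∀ t : K, t ≠ 0 → ∀ x ∈ cone I, (fun i => t ^ w i * x i) ∈ cone I)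
    (F : MvPolynomial σ K) (hF : F ∈ I) (m : ℕ) : weightedHomogeneousComponent w m F ∈ I := by
  apply mem_of_vanish I hI
  intro x hx
  set M := weightedTotalDegree w F + 1 with hM
  let q : Polynomial K := ∑ m ∈ Finset.range M,
    Polynomial.C (eval x (weightedHomogeneousComponent w m F)) * Polynomial.X ^ m
  have hq : q = 0 := by
    apply poly_eq_zero
    intro t ht
    have h1 := hst t ht x hx F hF
    rw [← sum_wcomp w F M (by omega), map_sum] at h1
    rw [Polynomial.eval_finsetSum, ← h1]
    refine Finset.sum_congr rfl (fun m _ => ?_)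
    rw [eval_wscale (weightedHomogeneousComponent_isWeightedHomogeneous m F)]
    rw [Polynomial.eval_mul, Polynomial.eval_C, Polynomial.eval_pow, Polynomial.eval_X, mul_comm]
  by_cases hm : m < M
  · have := congrArg (fun p => Polynomial.coeff p m) hq
    simp only [q, Polynomial.finsetSum_coeff, Polynomial.coeff_C_mul, Polynomial.coeff_X_pow,
      mul_ite, mul_one, mul_zero, Polynomial.coeff_zero] at this
    rw [Finset.sum_ite_eq] at this
    simpa [hm] using this
  · rw [weightedHomogeneousComponent_eq_zero m F (by omega), map_zero]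

/-- A homogeneous ideal is stable under scaling. -/
lemma cone_smul (I : Ideal (MvPolynomial σ K)) (hom : ∀ F ∈ I, ∀ d, homogeneousComponent d F ∈ I)
    (c : K) (x : σ → K) (hx : x ∈ cone I) : c • x ∈ cone I := by
  intro F hF
  rw [← sum_wcomp 1 F _ (Nat.lt_succ_self _), map_sum]
  refine Finset.sum_eq_zero (fun d _ => ?_)
  have h1 := eval_wscale (weightedHomogeneousComponent_isWeightedHomogeneous (w := 1) d F) c x
  have h2 : (fun i => c ^ (1 : σ → ℕ) i * x i) = c • x := by
    ext i; simp
  rw [h2] at h1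
  rw [h1]
  have h3 := hx _ (hom F hF d)
  have h4 : homogeneousComponent d F = weightedHomogeneousComponent 1 d F := rfl
  rw [← h4, h3, mul_zero]

end Pool.Agent.H929R2.Hart
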